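import Pool.Agent.SAPX.CDefs
import Pool.Agent.SAPF.Factor

/-!
Unique factorization of pairs of bridges of the same span into irreducible pairs.
-/

namespace Pool.Agent.SAPX

open Pool.Agent.SAPF Pool.Agent.SAPK

namespace PBlocks

lemma ne_nil_of_pos {w : Word} (h : 0 < X w) : w ≠ [] := by
  rintro rfl
  simp at h

lemma pos_of_ne {p : PW} (hp : IsPB p) (h : p ≠ ([], [])) : 0 < X p.1 := by
  by_contra hcon
  have h0 : X p.1 = 0 := le_antisymm (not_lt.1 hcon) hp.br1.X_nonneg
  have h1 := IsBr.eq_nil_of_X hp.br1 h0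
  have h2 := IsBr.eq_nil_of_X hp.br2 (by rw [← hp.span, h0])
  exact h (Prod.ext h1 h2)

lemma ln_pos_of_ne {p : PW} (hp : IsPB p) (h : p ≠ ([], [])) : 0 < ln p := by
  have h1 := List.length_pos_iff.2 (ne_nil_of_pos (pos_of_ne hp h))
  unfold ln
  omega

theorem exists_aux (n : ℕ) : ∀ p : PW, ln p ≤ n → IsPB p →
    ∃ l : List PW, (∀ q ∈ l, IsPIrr q) ∧ pfl l = p := by
  induction n with
  | zero =>
    intro p hp h
    have h0 : p = ([], []) := by
      by_contra hne
      have := ln_pos_of_ne h hne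
      omega
    exact ⟨[], fun q hq => by simp at hq, by rw [h0, pfl_nil]⟩
  | succ n ih =>
    intro p hp h
    by_cases h0 : p = ([], [])
    · exact ⟨[], fun q hq => by simp at hq, by rw [h0, pfl_nil]⟩
    by_cases hirr : IsPIrr p
    · refine ⟨[p], ?_, ?_⟩
      · intro q hq
        rw [List.mem_singleton] at hq
        rw [hq]; exact hirr
      · rw [pfl_cons, pfl_nil]
        exact Prod.ext (List.append_nil _) (List.append_nil _)
    · have : ∃ q r : PW, IsPB q ∧ IsPB r ∧ p.1 = q.1 ++ r.1 ∧ p.2 = q.2 ++ r.2 ∧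
          q ≠ ([], []) ∧ r ≠ ([], []) := by
        by_contra hcon
        apply hirr
        refine ⟨h, pos_of_ne h h0, ?_⟩
        intro q r hq hr h1 h2
        by_contra hne
        rw [not_or] at hne
        exact hcon ⟨q, r, hq, hr, h1, h2, hne.1, hne.2⟩
      obtain ⟨q, r, hq, hr, h1, h2, hq0, hr0⟩ := this
      have hql := ln_pos_of_ne hq hq0
      have hrl := ln_pos_of_ne hr hr0
      have hsum : ln p = ln q + ln r := by
        unfold ln
        rw [h1, h2, List.length_append, List.length_append]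
        ring
      obtain ⟨l, hl, hl'⟩ := ih q (by omega) hq
      obtain ⟨m, hm, hm'⟩ := ih r (by omega) hr
      refine ⟨l ++ m, ?_, ?_⟩
      · intro s hs
        rcases List.mem_append.1 hs with h3 | h3
        · exact hl s h3
        · exact hm s h3
      · rw [pfl_append, hl', hm']
        exact Prod.ext h1.symm h2.symm

/-- a beginning of a bridge after which a bridge starts is determined by its span -/
lemma prefix_of_le {u v u' v' : Word} (hv' : IsBr v') (h : u ++ v = u' ++ v') (hX : X u ≤ X u') :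
    u <+: u' := by
  rcases prefix_comparable (List.prefix_append u v) (h ▸ List.prefix_append u' v') with h1 | h1
  · exact h1
  · obtain ⟨t, rfl⟩ := h1
    rw [List.append_assoc] at h
    have h2 := List.append_cancel_left h
    by_cases ht : t = []
    · simp [ht]
    · exfalso
      have h3 := hv'.pos (h2 ▸ List.prefix_append t v) ht
      rw [X_append] at hX
      omega

lemma eq_of_le {q q' r r' : PW} (hq : IsPIrr q) (hq' : IsPIrr q') (hr : IsPB r) (hr' : IsPB r')
    (h1 : q.1 ++ r.1 = q'.1 ++ r'.1) (h2 : q.2 ++ r.2 = q'.2 ++ r'.2) (hX : X q.1 ≤ X q'.1) :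
    q = q' := by
  obtain ⟨t1, ht1⟩ := prefix_of_le hr'.br1 h1 hX
  obtain ⟨t2, ht2⟩ := prefix_of_le hr'.br2 h2 (by rw [← hq.pb.span, ← hq'.pb.span]; exact hX)
  have e1 : r.1 = t1 ++ r'.1 := by
    rw [← ht1, List.append_assoc] at h1
    exact List.append_cancel_left h1
  have e2 : r.2 = t2 ++ r'.2 := by
    rw [← ht2, List.append_assoc] at h2
    exact List.append_cancel_left h2
  have b1 : IsBr t1 := by
    refine IsBr.of_suffix (ht1 ▸ hq'.pb.br1) ?_
    intro s hs hs0
    exact hr.br1.pos (by rw [e1]; exact hs.trans (List.prefix_append t1 r'.1)) hs0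
  have b2 : IsBr t2 := by
    refine IsBr.of_suffix (ht2 ▸ hq'.pb.br2) ?_
    intro s hs hs0
    exact hr.br2.pos (by rw [e2]; exact hs.trans (List.prefix_append t2 r'.2)) hs0
  have hsp : X t1 = X t2 := by
    have a1 := hq'.pb.span
    rw [← ht1, ← ht2, X_append, X_append, hq.pb.span] at a1
    omega
  rcases hq'.irr hq.pb (r := (t1, t2)) ⟨b1, b2, hsp⟩ ht1.symm ht2.symm with h | h
  · exfalso
    have := hq.pos
    rw [h] at this
    simp at this
  · have c1 : t1 = [] := congrArg Prod.fst h
    have c2 : t2 = [] := congrArg Prod.snd h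
    rw [c1, List.append_nil] at ht1
    rw [c2, List.append_nil] at ht2
    exact Prod.ext ht1 ht2

theorem unique {l m : List PW} (hl : ∀ q ∈ l, IsPIrr q) (hm : ∀ q ∈ m, IsPIrr q)
    (h : pfl l = pfl m) : l = m := by
  induction l generalizing m with
  | nil =>
    cases m with
    | nil => rfl
    | cons q m =>
      exfalso
      rw [pfl_nil, pfl_cons] at h
      have h1 := congrArg Prod.fst h
      have h2 := List.append_eq_nil_iff.1 h1.symm
      exact ne_nil_of_pos (hm q (by simp)).pos h2.1
  | cons p l ih =>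
    cases m with
    | nil =>
      exfalso
      rw [pfl_nil, pfl_cons] at h
      have h1 := congrArg Prod.fst h
      have h2 := List.append_eq_nil_iff.1 h1
      exact ne_nil_of_pos (hl p (by simp)).pos h2.1
    | cons q m =>
      have hp1 : IsPIrr p := hl p (by simp)
      have hq1 : IsPIrr q := hm q (by simp)
      have hl' : ∀ r ∈ l, IsPIrr r := fun r hr => hl r (by simp [hr])
      have hm' : ∀ r ∈ m, IsPIrr r := fun r hr => hm r (by simp [hr])
      rw [pfl_cons, pfl_cons] at h
      have h1 : p.1 ++ (pfl l).1 = q.1 ++ (pfl m).1 := congrArg Prod.fst h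
      have h2 : p.2 ++ (pfl l).2 = q.2 ++ (pfl m).2 := congrArg Prod.snd h
      have hpq : p = q := by
        rcases le_total (X p.1) (X q.1) with hX | hX
        · exact eq_of_le hp1 hq1 (isPB_pfl hl') (isPB_pfl hm') h1 h2 hX
        · exact (eq_of_le hq1 hp1 (isPB_pfl hm') (isPB_pfl hl') h1.symm h2.symm hX).symm
      subst hpq
      rw [ih hl' hm' (Prod.ext (List.append_cancel_left h1) (List.append_cancel_left h2))]

end PBlocks

theorem blocks_spec {p : PW} (hp : IsPB p) : (∀ q ∈ blocks p, IsPIrr q) ∧ pfl (blocks p) = p := by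
  classical
  have h := PBlocks.exists_aux (ln p) p le_rfl hp
  have e : blocks p = h.choose := by
    unfold blocks
    rw [dif_pos h]
  rw [e]
  exact h.choose_spec

theorem blocks_pfl {l : List PW} (hl : ∀ q ∈ l, IsPIrr q) : blocks (pfl l) = l := by
  obtain ⟨h1, h2⟩ := blocks_spec (isPB_pfl hl)
  exact PBlocks.unique h1 hl h2

theorem mem_class_pfl {A : Set Word} (hA : IsClass A) {l : List PW} (hl : ∀ q ∈ l, IsPIrr q) :
    ((pfl l).1 ∈ A ∧ (pfl l).2 ∈ A) ↔ ∀ q ∈ l, q.1 ∈ A ∧ q.2 ∈ A := by
  induction l with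
  | nil => simp [hA.nil]
  | cons q l ih =>
    have hl' : ∀ r ∈ l, IsPIrr r := fun r hr => hl r (by simp [hr])
    have hq : IsPIrr q := hl q (by simp)
    have hP := isPB_pfl hl'
    rw [pfl_cons, List.forall_mem_cons, ← ih hl']
    rw [hA.mul hq.pb.br1 hP.br1, hA.mul hq.pb.br2 hP.br2]
    tauto

end Pool.Agent.SAPX
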