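import Pool.Agent.SAPX.Canon
import Pool.Agent.SAPX.PBlocks

/-!
Area of a polygon in terms of the gaps before its blocks.
-/

namespace Pool.Agent.SAPX

open Pool.Agent.SAPF Pool.Agent.SAPK

/-- squares with an odd number of edges above them, the first path being started at the height `d` -/
def OdS (d : ℤ) (a b : Word) : Set (ℤ × ℤ) :=
  {c | Odd (cN a (fun p => p.1 = c.1 ∧ c.2 - d < p.2) + cN b (fun p => p.1 = c.1 ∧ c.2 < p.2))}

lemma OdS_zero (a b : Word) : OdS 0 a b = Od a b := by
  ext c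
  simp only [OdS, Od, Set.mem_ofPred_eq, sub_zero]

lemma cN_all {w : Word} {x y : ℤ} (h : ∀ p ∈ hEdges w, y < p.2) :
    cN w (fun p => p.1 = x ∧ y < p.2) = cN w (fun p => p.1 = x) := by
  unfold cN
  refine List.countP_congr ?_
  intro p hp
  simp only [decide_eq_true_eq]
  exact ⟨fun h1 => h1.1, fun h1 => ⟨h1, h p hp⟩⟩

lemma hEdges_len {w : Word} {p : ℤ × ℤ} (hp : p ∈ hEdges w) : |p.2| ≤ w.length := by
  refine hEdges_snd (fun t ht => ?_) hp
  have h1 := abs_Y_le t
  have h2 : (t.length : ℤ) ≤ w.length := by exact_mod_cast ht.length_le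
  omega

lemma OdS_col {d : ℤ} {a b : Word} (ha : IsBr a) (hb : IsBr b) (hX : X a = X b) {c : ℤ × ℤ}
    (hc : c ∈ OdS d a b) : 0 ≤ c.1 ∧ c.1 < X a := by
  by_contra hcon
  have h1 : c.1 < 0 ∨ X a ≤ c.1 := by omega
  rw [OdS, Set.mem_ofPred_eq, bridge_col ha h1 _ (fun p hp => hp.1),
    bridge_col hb (hX ▸ h1) _ (fun p hp => hp.1)] at hc
  simp at hc

lemma OdS_subset {d : ℤ} {a b : Word} (ha : IsBr a) (hb : IsBr b) (hX : X a = X b) :
    OdS d a b ⊆ ↑(Finset.Ico (0 : ℤ) (X a) ×ˢ Finset.Ico (min d 0 - (a.length + b.length : ℕ))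
      (max d 0 + (a.length + b.length : ℕ))) := by
  intro c hc
  have h0 := OdS_col ha hb hX hc
  rw [Finset.coe_product, Finset.coe_Ico, Finset.coe_Ico, Set.mem_prod, Set.mem_Ico, Set.mem_Ico]
  refine ⟨h0, ?_⟩
  have hla : ∀ p ∈ hEdges a, |p.2| ≤ a.length := fun p hp => hEdges_len hp
  have hlb : ∀ p ∈ hEdges b, |p.2| ≤ b.length := fun p hp => hEdges_len hp
  have hN : (0 : ℤ) ≤ a.length := by positivity
  have hM : (0 : ℤ) ≤ b.length := by positivity
  push_cast
  rw [OdS, Set.mem_ofPred_eq] at hc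
  constructor
  · by_contra hcon
    rw [cN_all, cN_all, Nat.odd_iff] at hc
    · have q1 := cN_parity a c.1
      have q2 := cN_parity b c.1
      rw [if_pos (Or.inl h0)] at q1
      rw [if_pos (Or.inl (hX ▸ h0))] at q2
      omega
    · intro p hp
      have := hlb p hp
      rw [abs_le] at this
      omega
    · intro p hp
      have := hla p hp
      rw [abs_le] at this
      omega
  · by_contra hcon
    rw [cN_eq_zero, cN_eq_zero] at hc
    · simp at hc
    · intro p hp hp'
      have := hlb p hp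
      rw [abs_le] at this
      omega
    · intro p hp hp'
      have := hla p hp
      rw [abs_le] at this
      omega

lemma subset_OdS {d : ℤ} {a b : Word} (hX : X a = X b) :
    ↑(Finset.Ico (0 : ℤ) (X a) ×ˢ Finset.Ico (min d 0 + (a.length + b.length : ℕ))
      (max d 0 - (a.length + b.length : ℕ))) ⊆ OdS d a b := by
  intro c hc
  rw [Finset.coe_product, Finset.coe_Ico, Finset.coe_Ico, Set.mem_prod, Set.mem_Ico, Set.mem_Ico] at hc
  obtain ⟨h0, h1⟩ := hc
  have hla : ∀ p ∈ hEdges a, |p.2| ≤ a.length := fun p hp => hEdges_len hp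
  have hlb : ∀ p ∈ hEdges b, |p.2| ≤ b.length := fun p hp => hEdges_len hp
  have hN : (0 : ℤ) ≤ a.length := by positivity
  have hM : (0 : ℤ) ≤ b.length := by positivity
  push_cast at h1
  have q1 := cN_parity a c.1
  have q2 := cN_parity b c.1
  rw [if_pos (Or.inl h0)] at q1
  rw [if_pos (Or.inl (hX ▸ h0))] at q2
  rw [OdS, Set.mem_ofPred_eq, Nat.odd_iff]
  rcases le_total 0 d with hd | hd
  · rw [cN_all, cN_eq_zero (w := b)]
    · omega
    · intro p hp hp'
      have := hlb p hp
      rw [abs_le] at this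
      omega
    · intro p hp
      have := hla p hp
      rw [abs_le] at this
      omega
  · rw [cN_all (w := b), cN_eq_zero (w := a)]
    · omega
    · intro p hp hp'
      have := hla p hp
      rw [abs_le] at this
      omega
    · intro p hp
      have := hlb p hp
      rw [abs_le] at this
      omega

lemma OdS_finite {d : ℤ} {a b : Word} (ha : IsBr a) (hb : IsBr b) (hX : X a = X b) :
    (OdS d a b).Finite := (Finset.finite_toSet _).subset (OdS_subset ha hb hX)

/-- one pair of bridges -/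
lemma OdS_ncard {d : ℤ} {q : PW} (hq : IsPB q) :
    |((OdS d q.1 q.2).ncard : ℝ) - |(d : ℝ)| * (|(X q.1 : ℝ)|)| ≤ (ln q : ℝ) ^ 2 := by
  obtain ⟨a, b⟩ := q
  obtain ⟨ha, hb, hX⟩ := hq
  simp only at ha hb hX ⊢
  have hXa := ha.X_nonneg
  have h2 : 2 * X a ≤ (ln (a, b) : ℕ) := by
    have e1 := abs_X_le a
    have e2 := abs_X_le b
    rw [abs_le] at e1 e2
    unfold ln
    push_cast
    omega
  -- integer bounds
  have hub : ((OdS d a b).ncard : ℤ) ≤ X a * (|d| + 2 * (ln (a, b) : ℕ)) := by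
    have h := Set.ncard_le_ncard (OdS_subset (d := d) ha hb hX) (Finset.finite_toSet _)
    rw [Set.ncard_coe_finset, Finset.card_product, Int.card_Ico, Int.card_Ico] at h
    have h' : ((OdS d a b).ncard : ℤ) ≤ (((X a - 0).toNat * (max d 0 + (a.length + b.length : ℕ) -
      (min d 0 - (a.length + b.length : ℕ))).toNat : ℕ) : ℤ) := by exact_mod_cast h
    refine h'.trans (le_of_eq ?_)
    push_cast
    rw [Int.toNat_of_nonneg (by omega), Int.toNat_of_nonneg (by omega), sub_zero]
    congr 1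
    unfold ln
    push_cast
    rcases le_total 0 d with hd | hd
    · rw [max_eq_left hd, min_eq_right hd, abs_of_nonneg hd]; ring
    · rw [max_eq_right hd, min_eq_left hd, abs_of_nonpos hd]; ring
  have hlb : X a * (|d| - 2 * (ln (a, b) : ℕ)) ≤ ((OdS d a b).ncard : ℤ) := by
    rcases le_total (|d|) (2 * (ln (a, b) : ℕ)) with h0 | h0
    · have : X a * (|d| - 2 * (ln (a, b) : ℕ)) ≤ 0 := mul_nonpos_of_nonneg_of_nonpos hXa (by omega)
      exact this.trans (by positivity)
    · have h := Set.ncard_le_ncard (subset_OdS (d := d) hX) (OdS_finite ha hb hX)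
      rw [Set.ncard_coe_finset, Finset.card_product, Int.card_Ico, Int.card_Ico] at h
      have h' : (((X a - 0).toNat * (max d 0 - (a.length + b.length : ℕ) -
        (min d 0 + (a.length + b.length : ℕ))).toNat : ℕ) : ℤ) ≤ ((OdS d a b).ncard : ℤ) := by
        exact_mod_cast h
      refine le_trans (le_of_eq ?_) h'
      push_cast
      unfold ln at h0 ⊢
      push_cast at h0 ⊢
      have e1 : max d 0 - min d 0 = |d| := by
        rcases le_total 0 d with hd | hd
        · rw [max_eq_left hd, min_eq_right hd, abs_of_nonneg hd]; ring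
        · rw [max_eq_right hd, min_eq_left hd, abs_of_nonpos hd]; ring
      rw [Int.toNat_of_nonneg (by omega), Int.toNat_of_nonneg (by omega), sub_zero]
      congr 1
      omega
  have hub' : ((OdS d a b).ncard : ℝ) ≤ X a * (|(d : ℝ)| + 2 * (ln (a, b) : ℕ)) := by
    exact_mod_cast hub
  have hlb' : (X a : ℝ) * (|(d : ℝ)| - 2 * (ln (a, b) : ℕ)) ≤ ((OdS d a b).ncard : ℝ) := by
    exact_mod_cast hlb
  have h2' : 2 * (X a : ℝ) ≤ (ln (a, b) : ℕ) := by exact_mod_cast h2
  have hXa' : (0 : ℝ) ≤ X a := by exact_mod_cast hXa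
  have hL : (0 : ℝ) ≤ (ln (a, b) : ℕ) := by positivity
  rw [abs_of_nonneg hXa', abs_le]
  have h3 : 2 * (X a : ℝ) * (ln (a, b) : ℕ) ≤ (ln (a, b) : ℝ) ^ 2 := by
    rw [sq]
    exact mul_le_mul_of_nonneg_right h2' hL
  constructor <;> nlinarith

/-- concatenation -/
lemma OdS_append {d : ℤ} {q r : PW} (hq : IsPB q) (hr : IsPB r) :
    (OdS d (q.1 ++ r.1) (q.2 ++ r.2)).ncard =
      (OdS d q.1 q.2).ncard + (OdS (d + ht q) r.1 r.2).ncard := by
  obtain ⟨a, b⟩ := q
  obtain ⟨a', b'⟩ := r
  obtain ⟨ha, hb, hX⟩ := hq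
  obtain ⟨ha', hb', hX'⟩ := hr
  simp only at ha hb hX ha' hb' hX' ⊢
  set f : ℤ × ℤ → ℤ × ℤ := fun c => (c.1 + X a, c.2 + Y b) with hf
  have hinj : Function.Injective f := by
    intro c c' hcc
    simp only [hf, Prod.mk.injEq, add_left_inj] at hcc
    exact Prod.ext hcc.1 hcc.2
  have hun : OdS d (a ++ a') (b ++ b') = OdS d a b ∪ f '' OdS (d + ht (a, b)) a' b' := by
    ext c
    rw [Set.mem_union]
    have hsh : c ∈ f '' OdS (d + ht (a, b)) a' b' ↔
        Odd (cN a' (fun p => p.1 + X a = c.1 ∧ c.2 - d < p.2 + Y a) +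
          cN b' (fun p => p.1 + X b = c.1 ∧ c.2 < p.2 + Y b)) := by
      have e1 : ∀ c' : ℤ × ℤ, f c' = c → (c' ∈ OdS (d + ht (a, b)) a' b' ↔
        Odd (cN a' (fun p => p.1 + X a = c.1 ∧ c.2 - d < p.2 + Y a) +
          cN b' (fun p => p.1 + X b = c.1 ∧ c.2 < p.2 + Y b))) := by
        rintro c' rfl
        rw [OdS, Set.mem_ofPred_eq]
        have e2 : cN a' (fun p => p.1 = c'.1 ∧ c'.2 - (d + ht (a, b)) < p.2) =
            cN a' (fun p => p.1 + X a = (f c').1 ∧ (f c').2 - d < p.2 + Y a) := by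
          refine cN_congr fun p => ?_
          simp only [hf, ht]
          constructor <;> intro h <;> constructor <;> omega
        have e3 : cN b' (fun p => p.1 = c'.1 ∧ c'.2 < p.2) =
            cN b' (fun p => p.1 + X b = (f c').1 ∧ (f c').2 < p.2 + Y b) := by
          refine cN_congr fun p => ?_
          simp only [hf]
          constructor <;> intro h <;> constructor <;> omega
        rw [e2, e3]
      rw [← e1 (c.1 - X a, c.2 - Y b) (by simp [hf])]
      constructor
      · rintro ⟨c', hc', rfl⟩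
        simpa [hf] using hc'
      · intro h
        exact ⟨_, h, by simp [hf]⟩
    rw [hsh]
    rw [OdS, Set.mem_ofPred_eq, cN_append, cN_append]
    rcases lt_or_ge c.1 (X a) with h1 | h1
    · have z1 : cN a' (fun p => p.1 + X a = c.1 ∧ c.2 - d < p.2 + Y a) = 0 :=
        bridge_col ha' (x := c.1 - X a) (Or.inl (by omega)) _ (fun p hp => by have := hp.1; omega)
      have z2 : cN b' (fun p => p.1 + X b = c.1 ∧ c.2 < p.2 + Y b) = 0 :=
        bridge_col hb' (x := c.1 - X b) (Or.inl (by omega)) _ (fun p hp => by have := hp.1; omega)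
      rw [z1, z2, OdS, Set.mem_ofPred_eq]
      simp
    · have z1 : cN a (fun p => p.1 = c.1 ∧ c.2 - d < p.2) = 0 :=
        bridge_col ha (x := c.1) (Or.inr (by omega)) _ (fun p hp => hp.1)
      have z2 : cN b (fun p => p.1 = c.1 ∧ c.2 < p.2) = 0 :=
        bridge_col hb (x := c.1) (Or.inr (by omega)) _ (fun p hp => hp.1)
      rw [z1, z2, OdS, Set.mem_ofPred_eq, z1, z2]
      simp
  have hdisj : Disjoint (OdS d a b) (f '' OdS (d + ht (a, b)) a' b') := by
    rw [Set.disjoint_left]
    rintro c hc ⟨c', hc', rfl⟩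
    have h1 := OdS_col ha hb hX hc
    have h2 := OdS_col ha' hb' hX' hc'
    simp only [hf] at h1
    omega
  rw [hun, Set.ncard_union_eq hdisj (OdS_finite ha hb hX) ((OdS_finite ha' hb' hX').image f),
    Set.ncard_image_of_injective _ hinj]

/-- list of blocks -/
lemma OdS_pfl (l : List PW) (hl : ∀ q ∈ l, IsPIrr q) (d : ℤ) :
    |((OdS d (pfl l).1 (pfl l).2).ncard : ℝ) - walkSum 1 (fun q => |(X q.1 : ℝ)|) d l| ≤
      (l.map fun q => (ln q : ℝ) ^ 2).sum := by
  induction l generalizing d with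
  | nil =>
    have h := OdS_ncard (d := d) isPB_nil
    simpa [walkSum, ln] using h
  | cons q l ih =>
    have h1 := OdS_ncard (d := d) (hl q (by simp)).pb
    have h2 := ih (fun r hr => hl r (by simp [hr])) (d + ht q)
    rw [pfl_cons]
    simp only
    rw [OdS_append (hl q (by simp)).pb (isPB_pfl fun r hr => hl r (by simp [hr])), walkSum,
      List.map_cons, List.sum_cons, pow_one]
    push_cast
    have e : ((OdS d q.1 q.2).ncard : ℝ) + (OdS (d + ht q) (pfl l).1 (pfl l).2).ncard -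
        (|(d : ℝ)| * |(X q.1 : ℝ)| + walkSum 1 (fun q => |(X q.1 : ℝ)|) (d + ht q) l) =
        (((OdS d q.1 q.2).ncard : ℝ) - |(d : ℝ)| * |(X q.1 : ℝ)|) +
        (((OdS (d + ht q) (pfl l).1 (pfl l).2).ncard : ℝ) -
          walkSum 1 (fun q => |(X q.1 : ℝ)|) (d + ht q) l) := by ring
    rw [e]
    exact (abs_add_le _ _).trans (add_le_add h1 h2)

lemma abs_ht_le (q : PW) : |(ht q : ℝ)| ≤ ln q := by
  have h : |ht q| ≤ (ln q : ℕ) := by
    have e1 := abs_Y_le q.1
    have e2 := abs_Y_le q.2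
    rw [abs_le] at e1 e2 ⊢
    unfold ht ln
    push_cast
    omega
  exact_mod_cast h

lemma abs_X_le_ln (q : PW) : |(X q.1 : ℝ)| ≤ ln q := by
  have h : |X q.1| ≤ (ln q : ℕ) := by
    have e1 := abs_X_le q.1
    unfold ln
    push_cast
    omega
  exact_mod_cast h

/-- removing the last block -/
lemma walkSum_dropLast (l : List PW) (d : ℤ) (h : d + (l.map ht).sum = 0) :
    |walkSum 1 (fun q => |(X q.1 : ℝ)|) d l - walkSum 1 (fun q => |(X q.1 : ℝ)|) d l.dropLast| ≤
      (l.map fun q => (ln q : ℝ) ^ 2).sum := by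
  induction l generalizing d with
  | nil => simp [walkSum]
  | cons q l ih =>
    rcases l with _ | ⟨r, l⟩
    · rw [List.dropLast_singleton, walkSum, walkSum, walkSum, pow_one]
      simp only [List.map_cons, List.map_nil, List.sum_cons, List.sum_nil, add_zero, sub_zero] at h ⊢
      have hd : |(d : ℝ)| = |(ht q : ℝ)| := by
        have : d = -ht q := by omega
        rw [this]; push_cast; rw [abs_neg]
      rw [hd, abs_of_nonneg (by positivity), sq]
      exact mul_le_mul (abs_ht_le q) (abs_X_le_ln q) (abs_nonneg _) (by positivity)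
    · have h1 := ih (d + ht q) (by
        rw [List.map_cons, List.sum_cons] at h
        rw [add_assoc]; exact h)
      rw [List.dropLast_cons_cons, walkSum.eq_2 _ _ _ q (r :: l), walkSum.eq_2 _ _ _ q, List.map_cons, List.sum_cons]
      have e : |(d : ℝ)| ^ 1 * |(X q.1 : ℝ)| + walkSum 1 (fun q => |(X q.1 : ℝ)|) (d + ht q) (r :: l) -
          (|(d : ℝ)| ^ 1 * |(X q.1 : ℝ)| +
            walkSum 1 (fun q => |(X q.1 : ℝ)|) (d + ht q) (r :: l).dropLast) =
          walkSum 1 (fun q => |(X q.1 : ℝ)|) (d + ht q) (r :: l) -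
            walkSum 1 (fun q => |(X q.1 : ℝ)|) (d + ht q) (r :: l).dropLast := by ring
      rw [e]
      have h0 : 0 ≤ (ln q : ℝ) ^ 2 := by positivity
      linarith

/-- the sum over the interior blocks of a list -/
noncomputable def inrL (a : ℕ) (ω : PW → ℝ) : List PW → ℝ
  | [] => 0
  | q :: l => walkSum a ω (ht q) l.dropLast

lemma inr_eq (a : ℕ) (ω : PW → ℝ) (p : PW) : inr a ω p = inrL a ω (blocks p) := by
  unfold inr inrL
  cases blocks p <;> rfl

/-- the estimate for a list of blocks -/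
lemma area_list {l : List PW} (hl : ∀ q ∈ l, IsPIrr q) (h0 : ht (pfl l) = 0) :
    |((Od (pfl l).1 (pfl l).2).ncard : ℝ) - inrL 1 (fun q => |(X q.1 : ℝ)|) l| ≤
      2 * (l.map fun q => (ln q : ℝ) ^ 2).sum := by
  rw [← OdS_zero]
  have h1 := OdS_pfl l hl 0
  rcases l with _ | ⟨q, l⟩
  · simp only [walkSum] at h1
    simp only [inrL]
    refine h1.trans ?_
    simp
  · simp only [inrL]
    rw [walkSum, Int.cast_zero, abs_zero, pow_one, zero_mul, zero_add, zero_add] at h1
    rw [ht_pfl, List.map_cons, List.sum_cons] at h0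
    have h2 := walkSum_dropLast l (ht q) h0
    rw [List.map_cons, List.sum_cons] at h1 ⊢
    have h3 : 0 ≤ (ln q : ℝ) ^ 2 := by positivity
    rw [abs_le] at h1 h2 ⊢
    constructor <;> linarith [h1.1, h1.2, h2.1, h2.2]

/-- area of the polygon of a canonical pair -/
theorem area_blocks {A : Set Word} {n : ℕ} (hn : 2 ≤ n) {p : PW} (hp : p ∈ can A n) :
    |(area (poly n p) : ℝ) - inr 1 (fun q => |(X q.1 : ℝ)|) p| ≤
      2 * tot (fun q => (ln q : ℝ) ^ 2) p := by
  obtain ⟨h1, h2, h3, _⟩ := isArcs_can hn hp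
  obtain ⟨_, hcan, _, _⟩ := mem_can.1 hp
  obtain ⟨hirr, hpfl⟩ := blocks_spec hcan.pb
  have hht : ht (pfl (blocks p)) = 0 := by
    rw [hpfl]
    unfold ht
    rw [hcan.yy, sub_self]
  have h := area_list hirr hht
  rw [hpfl] at h
  rw [area_eq hn h1, h2, h3, inr_eq]
  exact h

end Pool.Agent.SAPX
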