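import Pool.Agent.SAPX.K1Main

/-!
Module K1: characteristic functions of the renewal measure of the free walk.
-/

namespace Pool.Agent.SAPX

open Filter Topology

/-! ### free walks -/

/-- law of the length -/
noncomputable def k1p (f : ℕ → ℤ → ℝ) (m : ℕ) : ℝ := ∑ d ∈ Finset.Icc (-(m : ℤ)) m, f m d

/-- second moment of the height -/
noncomputable def k1s (f : ℕ → ℤ → ℝ) (m : ℕ) : ℝ :=
  ∑ d ∈ Finset.Icc (-(m : ℤ)) m, f m d * (d : ℝ) ^ 2

/-- characteristic function of a block -/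
noncomputable def k1F (f : ℕ → ℤ → ℝ) (θ : ℝ) (m : ℕ) : ℝ :=
  ∑ d ∈ Finset.Icc (-(m : ℤ)) m, f m d * Real.cos (θ * d)

section

variable {f : ℕ → ℤ → ℝ}

theorem k1_mem {m : ℕ} {d : ℤ} : d ∈ Finset.Icc (-(m : ℤ)) m ↔ |d| ≤ m := by
  rw [Finset.mem_Icc, abs_le]

theorem FreeLaw.k1_zero (hf : FreeLaw f) {m : ℕ} {d : ℤ} (h : d ∉ Finset.Icc (-(m : ℤ)) m) :
    f m d = 0 := by
  rw [k1_mem] at h
  exact hf.zero_of_lt (by omega)

theorem FreeLaw.k1_hasSum (hf : FreeLaw f) (G : ℕ → ℤ → ℝ) (m : ℕ) :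
    HasSum (fun d => f m d * G m d) (∑ d ∈ Finset.Icc (-(m : ℤ)) m, f m d * G m d) :=
  hasSum_sum_of_ne_finset_zero fun d hd => by rw [hf.k1_zero hd, zero_mul]

theorem k1_abs_le {m : ℕ} {d : ℤ} (h : d ∈ Finset.Icc (-(m : ℤ)) m) : |(d : ℝ)| ≤ m := by
  rw [k1_mem] at h
  exact_mod_cast h

theorem k1_sq_le {m : ℕ} {d : ℤ} (h : d ∈ Finset.Icc (-(m : ℤ)) m) : (d : ℝ) ^ 2 ≤ (m : ℝ) ^ 2 := by
  rw [← sq_abs]
  exact pow_le_pow_left₀ (abs_nonneg _) (k1_abs_le h) 2

theorem FreeLaw.k1D (hf : FreeLaw f) : ∃ δ, K1D (k1p f) (k1s f) (k1F f) δ := by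
  obtain ⟨δ, hδ, ht⟩ := hf.tail
  refine ⟨δ, hδ, ?_, fun m => Finset.sum_nonneg fun d _ => hf.nonneg m d, ?_, ?_, ?_, ?_,
    fun m => Finset.sum_nonneg fun d _ => mul_nonneg (hf.nonneg m d) (sq_nonneg _), fun m => ?_,
    fun θ m => ?_, fun θ m => ?_, fun θ m => ?_⟩
  · unfold k1p
    exact Finset.sum_eq_zero fun d _ => hf.zero d
  · exact lt_of_lt_of_le hf.two (Finset.single_le_sum (f := fun d => f 2 d)
      (fun d _ => hf.nonneg 2 d) (by simp))
  · exact lt_of_lt_of_le hf.three (Finset.single_le_sum (f := fun d => f 3 d)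
      (fun d _ => hf.nonneg 3 d) (by simp))
  · refine hf.total.prod_fiberwise fun m => ?_
    have := hf.k1_hasSum (fun _ _ => 1) m
    simpa [k1p] using this
  · have := (ht.hasSum.prod_fiberwise fun m => hf.k1_hasSum (fun m _ => Real.exp (δ * m)) m).summable
    refine this.congr fun m => ?_
    unfold k1p
    rw [Finset.sum_mul]
  · unfold k1s k1p
    rw [Finset.mul_sum]
    refine Finset.sum_le_sum fun d hd => ?_
    rw [mul_comm]
    exact mul_le_mul_of_nonneg_right (k1_sq_le hd) (hf.nonneg m d)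
  · unfold k1F k1p
    refine (Finset.abs_sum_le_sum_abs _ _).trans (Finset.sum_le_sum fun d _ => ?_)
    rw [abs_mul, abs_of_nonneg (hf.nonneg m d)]
    exact mul_le_of_le_one_right (hf.nonneg m d) (Real.abs_cos_le_one _)
  · unfold k1F k1p
    rw [← Finset.sum_sub_distrib, Finset.mul_sum]
    refine (Finset.abs_sum_le_sum_abs _ _).trans (Finset.sum_le_sum fun d hd => ?_)
    have h1 : f m d * Real.cos (θ * d) - f m d = f m d * (Real.cos (θ * d) - 1) := by ring
    rw [h1, abs_mul, abs_of_nonneg (hf.nonneg m d)]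
    calc f m d * |Real.cos (θ * d) - 1| ≤ f m d * (θ * d) ^ 2 :=
          mul_le_mul_of_nonneg_left (k1_cos_sub _) (hf.nonneg m d)
      _ = θ ^ 2 * (d : ℝ) ^ 2 * f m d := by ring
      _ ≤ θ ^ 2 * (m : ℝ) ^ 2 * f m d := by
          have := hf.nonneg m d
          have := k1_sq_le hd
          gcongr
  · unfold k1F k1p k1s
    rw [← Finset.sum_sub_distrib, Finset.mul_sum, Finset.mul_sum, Finset.sum_div,
      ← Finset.sum_add_distrib]
    refine (Finset.abs_sum_le_sum_abs _ _).trans (Finset.sum_le_sum fun d hd => ?_)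
    have h1 : f m d * Real.cos (θ * d) - f m d + θ ^ 2 * (f m d * (d : ℝ) ^ 2) / 2 =
        f m d * (Real.cos (θ * d) - 1 + (θ * d) ^ 2 / 2) := by ring
    rw [h1, abs_mul, abs_of_nonneg (hf.nonneg m d)]
    have h2 : (d : ℝ) ^ 4 ≤ (m : ℝ) ^ 4 := by
      have := pow_le_pow_left₀ (sq_nonneg (d : ℝ)) (k1_sq_le hd) 2
      calc (d : ℝ) ^ 4 = ((d : ℝ) ^ 2) ^ 2 := by ring
        _ ≤ ((m : ℝ) ^ 2) ^ 2 := this
        _ = (m : ℝ) ^ 4 := by ring
    calc f m d * |Real.cos (θ * d) - 1 + (θ * d) ^ 2 / 2| ≤ f m d * (3 * (θ * d) ^ 4) :=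
          mul_le_mul_of_nonneg_left (k1_cos_sub_sub _) (hf.nonneg m d)
      _ = 3 * θ ^ 4 * (d : ℝ) ^ 4 * f m d := by ring
      _ ≤ 3 * θ ^ 4 * (m : ℝ) ^ 4 * f m d := by
          have := hf.nonneg m d
          gcongr

theorem FreeLaw.k1_mean (hf : FreeLaw f) : mean f = ∑' m : ℕ, (m : ℝ) * k1p f m := by
  obtain ⟨δ, hδ, ht⟩ := hf.tail
  have hs : Summable fun p : ℕ × ℤ => f p.1 p.2 * (p.1 : ℝ) := by
    refine Summable.of_nonneg_of_le (fun p => mul_nonneg (hf.nonneg _ _) (Nat.cast_nonneg _))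
      (fun p => ?_) (ht.mul_left (1 / δ))
    have h1 : (p.1 : ℝ) ≤ 1 / δ * Real.exp (δ * p.1) := by
      have := Real.add_one_le_exp (δ * p.1)
      rw [one_div, ← div_eq_inv_mul, le_div_iff₀ hδ]
      linarith
    calc f p.1 p.2 * (p.1 : ℝ) ≤ f p.1 p.2 * (1 / δ * Real.exp (δ * p.1)) :=
          mul_le_mul_of_nonneg_left h1 (hf.nonneg _ _)
      _ = _ := by ring
  have h2 := hs.hasSum.prod_fiberwise fun m => hf.k1_hasSum (fun m _ => (m : ℝ)) m
  unfold mean
  rw [← h2.tsum_eq]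
  refine tsum_congr fun m => ?_
  unfold k1p
  rw [Finset.mul_sum]
  exact Finset.sum_congr rfl fun d _ => mul_comm _ _

theorem FreeLaw.k1_var (hf : FreeLaw f) : var f = (∑' m : ℕ, k1s f m) / mean f := by
  obtain ⟨δ, hδ, ht⟩ := hf.tail
  have hs : Summable fun p : ℕ × ℤ => f p.1 p.2 * (p.2 : ℝ) ^ 2 := by
    refine Summable.of_nonneg_of_le (fun p => mul_nonneg (hf.nonneg _ _) (sq_nonneg _))
      (fun p => ?_) (ht.mul_left (2 / δ ^ 2))
    by_cases hp : p.2 ∈ Finset.Icc (-(p.1 : ℤ)) p.1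
    · have h1 : (p.2 : ℝ) ^ 2 ≤ 2 / δ ^ 2 * Real.exp (δ * p.1) := by
        refine (k1_sq_le hp).trans ?_
        have h2 := Real.quadratic_le_exp_of_nonneg
          (mul_nonneg hδ.le (Nat.cast_nonneg p.1) : (0 : ℝ) ≤ δ * p.1)
        have h3 : (0 : ℝ) ≤ δ * p.1 := by positivity
        rw [div_mul_eq_mul_div, le_div_iff₀ (by positivity)]
        nlinarith
      calc f p.1 p.2 * (p.2 : ℝ) ^ 2 ≤ f p.1 p.2 * (2 / δ ^ 2 * Real.exp (δ * p.1)) :=
            mul_le_mul_of_nonneg_left h1 (hf.nonneg _ _)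
        _ = _ := by ring
    · rw [hf.k1_zero hp]
      simp
  have h2 := hs.hasSum.prod_fiberwise fun m => hf.k1_hasSum (fun _ d => (d : ℝ) ^ 2) m
  unfold var
  rw [← h2.tsum_eq]
  rfl

theorem mean_pos (hf : FreeLaw f) : 0 < mean f := by
  obtain ⟨δ, D⟩ := hf.k1D
  rw [hf.k1_mean]
  exact D.mu_pos

theorem k1_sigma_pos (hf : FreeLaw f) : 0 < ∑' m : ℕ, k1s f m := by
  obtain ⟨δ, D⟩ := hf.k1D
  refine D.summable_s.tsum_pos D.snn 3 ?_
  have h1 : 0 < f 3 1 * ((1 : ℤ) : ℝ) ^ 2 := by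
    have := hf.three
    push_cast
    linarith
  exact lt_of_lt_of_le h1 (Finset.single_le_sum (f := fun d : ℤ => f 3 d * (d : ℝ) ^ 2)
      (fun d _ => mul_nonneg (hf.nonneg 3 d) (sq_nonneg _)) (by simp))

theorem var_pos (hf : FreeLaw f) : 0 < var f := by
  rw [hf.k1_var]
  exact div_pos (k1_sigma_pos hf) (mean_pos hf)

/-! ### the renewal measure -/

theorem k1_rec (f : ℕ → ℤ → ℝ) (m : ℕ) (y : ℤ) : uu f m y = dl 0 0 m y +
    ∑ k ∈ Finset.range m, ∑ x ∈ Finset.Icc (y - ((m : ℤ) - k)) (y + ((m : ℤ) - k)),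
      uu f k x * f (m - k) (y - x) := rec_occ (free f) (dl 0 0) m y

theorem uu_nonneg (hf : FreeLaw f) (m : ℕ) (d : ℤ) : 0 ≤ uu f m d := by
  refine (rec_occ (free f) (dl 0 0)).nonneg (fun m x y => hf.nonneg _ _) (fun m y => ?_) m d
  unfold dl
  split_ifs <;> norm_num

theorem uu_supp (hf : FreeLaw f) {m : ℕ} {d : ℤ} (h : uu f m d ≠ 0) :
    |d| ≤ m ∧ Even ((m : ℤ) + d) := by
  induction m using Nat.strong_induction_on generalizing d with
  | _ m ih =>
    by_cases h1 : dl 0 0 m d = 0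
    · rw [k1_rec, h1, zero_add] at h
      obtain ⟨k, hk, h2⟩ := Finset.exists_ne_zero_of_sum_ne_zero h
      obtain ⟨x, hx, h3⟩ := Finset.exists_ne_zero_of_sum_ne_zero h2
      have h4 : uu f k x ≠ 0 := left_ne_zero_of_mul h3
      have h5 : f (m - k) (d - x) ≠ 0 := right_ne_zero_of_mul h3
      have h6 := ih k (Finset.mem_range.1 hk) h4
      have h9 := hf.supp _ _ h5
      have hk' : k < m := Finset.mem_range.1 hk
      rw [Nat.cast_sub hk'.le] at h9
      refine ⟨?_, ?_⟩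
      · have := abs_le.1 h9.2.1
        have := abs_le.1 h6.1
        rw [abs_le]
        omega
      · have := h6.2.add h9.2.2
        rwa [show (k : ℤ) + x + ((m : ℤ) - k + (d - x)) = m + d by ring] at this
    · unfold dl at h1
      split_ifs at h1 with h2
      · obtain ⟨rfl, rfl⟩ := h2
        simp
      · exact absurd rfl h1

theorem uu_symm (hf : FreeLaw f) (m : ℕ) (d : ℤ) : uu f m (-d) = uu f m d := by
  induction m using Nat.strong_induction_on generalizing d with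
  | _ m ih =>
    rw [k1_rec, k1_rec]
    congr 1
    · unfold dl
      simp
    · refine Finset.sum_congr rfl fun k hk => ?_
      refine Finset.sum_nbij' (fun x => -x) (fun x => -x) (fun x hx => ?_) (fun x hx => ?_)
        (fun x _ => neg_neg x) (fun x _ => neg_neg x) (fun x _ => ?_)
      · rw [Finset.mem_Icc] at hx ⊢; omega
      · rw [Finset.mem_Icc] at hx ⊢; omega
      · rw [ih k (Finset.mem_range.1 hk), ← hf.symm (m - k) (-d - x)]
        congr 2
        ring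

/-- characteristic function of the renewal measure -/
noncomputable def UU (f : ℕ → ℤ → ℝ) (θ : ℝ) (m : ℕ) : ℝ :=
  ∑ d ∈ Finset.Icc (-(m : ℤ)) m, uu f m d * Real.cos (θ * d)

/-- convolution of finitely supported functions on `ℤ` -/
theorem k1_conv {k r : ℕ} (G : ℤ → ℤ → ℝ) (hG : ∀ x e, G x e ≠ 0 → |x| ≤ k ∧ |e| ≤ r) :
    ∑ d ∈ Finset.Icc (-((k + r : ℕ) : ℤ)) ((k + r : ℕ) : ℤ),
      ∑ x ∈ Finset.Icc (d - (r : ℤ)) (d + r), G x (d - x) =
    ∑ x ∈ Finset.Icc (-(k : ℤ)) k, ∑ e ∈ Finset.Icc (-(r : ℤ)) r, G x e := by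
  have hG' : ∀ x e, ¬(|x| ≤ (k : ℤ) ∧ |e| ≤ (r : ℤ)) → G x e = 0 := by
    intro x e h
    by_contra hc
    exact h (hG x e hc)
  have h1 : ∀ d, ∑ x ∈ Finset.Icc (d - (r : ℤ)) (d + r), G x (d - x) =
      ∑ x ∈ Finset.Icc (-(k : ℤ)) k, G x (d - x) := by
    intro d
    refine Finset.sum_congr_of_eq_on_inter (fun x _ hx => hG' _ _ fun h => hx ?_)
      (fun x _ hx => hG' _ _ fun h => hx ?_) (fun x _ _ => rfl)
    · rw [k1_mem]; exact h.1
    · rw [Finset.mem_Icc]
      have := abs_le.1 h.2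
      omega
  rw [Finset.sum_congr rfl fun d _ => h1 d, Finset.sum_comm]
  refine Finset.sum_congr rfl fun x hx => ?_
  rw [k1_mem, abs_le] at hx
  have h2 : ∑ e ∈ Finset.Icc (-(r : ℤ)) r, G x e =
      ∑ d ∈ Finset.Icc (x - (r : ℤ)) (x + r), G x (d - x) := by
    refine Finset.sum_nbij' (fun e => x + e) (fun d => d - x) (fun e he => ?_) (fun d hd => ?_)
      (fun e _ => by ring) (fun d _ => by ring) (fun e _ => by rw [add_sub_cancel_left])
    · rw [Finset.mem_Icc] at he ⊢; omega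
    · rw [Finset.mem_Icc] at hd ⊢; omega
  rw [h2]
  symm
  refine Finset.sum_subset (fun d hd => ?_) (fun d _ hd => hG' _ _ fun h => hd ?_)
  · rw [Finset.mem_Icc] at hd ⊢
    push_cast
    omega
  · rw [Finset.mem_Icc]
    have := abs_le.1 h.2
    omega

theorem k1_sin (hf : FreeLaw f) (θ : ℝ) (m : ℕ) :
    ∑ d ∈ Finset.Icc (-(m : ℤ)) m, f m d * Real.sin (θ * d) = 0 := by
  have h1 : ∑ d ∈ Finset.Icc (-(m : ℤ)) m, f m d * Real.sin (θ * d) =
      ∑ d ∈ Finset.Icc (-(m : ℤ)) m, -(f m d * Real.sin (θ * d)) := by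
    refine Finset.sum_nbij' (fun x => -x) (fun x => -x) (fun x hx => ?_) (fun x hx => ?_)
      (fun x _ => neg_neg x) (fun x _ => neg_neg x) (fun x _ => ?_)
    · rw [Finset.mem_Icc] at hx ⊢; omega
    · rw [Finset.mem_Icc] at hx ⊢; omega
    · rw [hf.symm]
      push_cast
      rw [mul_neg, Real.sin_neg]
      ring
  rw [Finset.sum_neg_distrib] at h1
  linarith

theorem k1_UU_ren (hf : FreeLaw f) (θ : ℝ) : K1Ren (k1F f θ) (UU f θ) := by
  intro m
  unfold UU
  rw [Finset.sum_congr rfl fun d _ => by rw [k1_rec f m d]]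
  simp only [add_mul, Finset.sum_add_distrib]
  congr 1
  · split_ifs with h
    · subst h
      simp [dl]
    · refine Finset.sum_eq_zero fun d _ => ?_
      unfold dl
      rw [if_neg (fun hc => h hc.1), zero_mul]
  · simp only [Finset.sum_mul]
    rw [Finset.sum_comm]
    refine Finset.sum_congr rfl fun k hk => ?_
    have hk' := Finset.mem_range.1 hk
    obtain ⟨r, rfl⟩ := Nat.exists_eq_add_of_lt hk'
    have hr : k + r + 1 - k = r + 1 := by omega
    have hr' : ((k + r + 1 : ℕ) : ℤ) - k = ((r + 1 : ℕ) : ℤ) := by push_cast; ring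
    rw [hr]
    simp only [hr']
    have h1 := k1_conv (k := k) (r := r + 1)
      (fun x e => uu f k x * f (r + 1) e * Real.cos (θ * (x + e : ℤ))) (fun x e h => by
        have h2 := left_ne_zero_of_mul h
        exact ⟨(uu_supp hf (left_ne_zero_of_mul h2)).1, (hf.supp _ _ (right_ne_zero_of_mul h2)).2.1⟩)
    have h2 : ∀ d x : ℤ, x + (d - x) = d := fun d x => by ring
    simp only [h2] at h1
    rw [show k + r + 1 = k + (r + 1) by ring, h1]
    unfold k1F
    simp only [Finset.mul_sum]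
    refine Finset.sum_congr rfl fun x _ => ?_
    have h3 : ∀ e : ℤ, uu f k x * f (r + 1) e * Real.cos (θ * ((x + e : ℤ) : ℝ)) =
        uu f k x * Real.cos (θ * x) * (f (r + 1) e * Real.cos (θ * e)) -
          uu f k x * Real.sin (θ * x) * (f (r + 1) e * Real.sin (θ * e)) := by
      intro e
      push_cast
      rw [mul_add, Real.cos_add]
      ring
    rw [Finset.sum_congr rfl fun e _ => h3 e, Finset.sum_sub_distrib, ← Finset.mul_sum,
      ← Finset.mul_sum, k1_sin hf, mul_zero, sub_zero, Finset.mul_sum]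

end

section

variable {f : ℕ → ℤ → ℝ}

theorem k1_F_three (hf : FreeLaw f) (θ : ℝ) :
    |k1F f θ 3| ≤ k1p f 3 - f 3 1 * (1 - |Real.cos θ|) := by
  have h1 : |k1F f θ 3| ≤ ∑ d ∈ Finset.Icc (-((3 : ℕ) : ℤ)) (3 : ℕ), f 3 d * |Real.cos (θ * d)| := by
    unfold k1F
    refine (Finset.abs_sum_le_sum_abs _ _).trans (Finset.sum_le_sum fun d _ => ?_)
    rw [abs_mul, abs_of_nonneg (hf.nonneg 3 d)]
  have h2 : f 3 1 * (1 - |Real.cos θ|) ≤
      ∑ d ∈ Finset.Icc (-((3 : ℕ) : ℤ)) (3 : ℕ), f 3 d * (1 - |Real.cos (θ * d)|) := by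
    have := Finset.single_le_sum (s := Finset.Icc (-((3 : ℕ) : ℤ)) (3 : ℕ))
      (f := fun d : ℤ => f 3 d * (1 - |Real.cos (θ * d)|))
      (fun d _ => mul_nonneg (hf.nonneg 3 d) (by linarith [Real.abs_cos_le_one (θ * d)]))
      (show (1 : ℤ) ∈ Finset.Icc (-((3 : ℕ) : ℤ)) (3 : ℕ) by simp)
    simpa using this
  have h3 : ∑ d ∈ Finset.Icc (-((3 : ℕ) : ℤ)) (3 : ℕ), f 3 d * (1 - |Real.cos (θ * d)|) =
      k1p f 3 - ∑ d ∈ Finset.Icc (-((3 : ℕ) : ℤ)) (3 : ℕ), f 3 d * |Real.cos (θ * d)| := by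
    unfold k1p
    rw [← Finset.sum_sub_distrib]
    exact Finset.sum_congr rfl fun d _ => by ring
  linarith

/-- frequencies away from zero -/
theorem k1_large (hf : FreeLaw f) {θ₀ : ℝ} (h0 : 0 < θ₀) : ∃ K r : ℝ, 0 < K ∧ 0 < r ∧ r < 1 ∧
    ∀ (m : ℕ) (θ : ℝ), θ₀ ≤ |θ| → |θ| ≤ Real.pi / 2 → |UU f θ m| ≤ K * r ^ m := by
  obtain ⟨δ, D⟩ := hf.k1D
  by_cases hπ : Real.pi / 2 < θ₀
  · exact ⟨1, 1 / 2, one_pos, by norm_num, by norm_num,
      fun m θ h1 h2 => absurd (h1.trans h2) (not_le.2 hπ)⟩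
  push Not at hπ
  have hpi := Real.pi_pos
  have hcos : Real.cos θ₀ < 1 := by
    rw [← Real.cos_zero]
    exact Real.cos_lt_cos_of_nonneg_of_le_pi_div_two le_rfl hπ h0
  have h31 := hf.three
  obtain ⟨q, hq⟩ : ∃ q, q = f 3 1 * (1 - Real.cos θ₀) := ⟨_, rfl⟩
  have hq0 : 0 < q := hq ▸ mul_pos h31 (by linarith)
  have hM := D.M_pos
  obtain ⟨M, hMdef⟩ : ∃ M, M = k1M (k1p f) δ := ⟨_, rfl⟩
  rw [← hMdef] at hM
  have hro := D.ro_gt
  obtain ⟨R, hR⟩ : ∃ R, R = min (k1ro δ) (1 + q / (2 * M)) := ⟨_, rfl⟩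
  have hR1 : 1 < R := by
    rw [hR]
    exact lt_min hro (by have : 0 < q / (2 * M) := by positivity
                         linarith)
  have hRro : R ≤ k1ro δ := hR ▸ min_le_left _ _
  have hRq : (R - 1) * M ≤ q / 2 := by
    have h1 : R - 1 ≤ q / (2 * M) := by
      have := min_le_right (k1ro δ) (1 + q / (2 * M))
      rw [← hR] at this
      linarith
    calc (R - 1) * M ≤ q / (2 * M) * M := by gcongr
      _ = q / 2 := by field_simp
  -- the total mass is at most `1 - q/2`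
  have hq1 : q ≤ 1 := by
    have h1 : f 3 1 ≤ 1 := by
      have h2 : f 3 1 ≤ k1p f 3 := Finset.single_le_sum (f := fun d : ℤ => f 3 d)
        (fun d _ => hf.nonneg 3 d) (by simp)
      exact h2.trans (le_hasSum D.tot 3 fun m _ => D.pnn m)
    have h3 : 1 - Real.cos θ₀ ≤ 1 := by
      have := Real.cos_nonneg_of_mem_Icc (x := θ₀) ⟨by linarith, hπ⟩
      linarith
    rw [hq]
    have h4 : 0 ≤ 1 - Real.cos θ₀ := by linarith
    nlinarith
  have hmass : ∀ θ : ℝ, θ₀ ≤ |θ| → |θ| ≤ Real.pi / 2 → ∀ n : ℕ,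
      ∑ j ∈ Finset.range (n + 1), |k1F f θ j| * R ^ j ≤ 1 - q / 2 := by
    intro θ h1 h2 n
    have hc : |Real.cos θ| ≤ Real.cos θ₀ := by
      rw [← Real.cos_abs θ, abs_of_nonneg (Real.cos_nonneg_of_mem_Icc ⟨by linarith [abs_nonneg θ], h2⟩)]
      exact Real.cos_le_cos_of_nonneg_of_le_pi h0.le (by linarith) h1
    -- termwise bound
    have hb : ∀ j : ℕ, |k1F f θ j| * R ^ j ≤
        k1p f j + (R - 1) * k1W (k1p f) δ j - if j = 3 then q else 0 := by
      intro j
      have e1 : |k1F f θ j| ≤ k1p f j - if j = 3 then q else 0 := by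
        split_ifs with hj
        · subst hj
          refine (k1_F_three hf θ).trans ?_
          rw [hq]
          have : f 3 1 * (1 - Real.cos θ₀) ≤ f 3 1 * (1 - |Real.cos θ|) :=
            mul_le_mul_of_nonneg_left (by linarith) h31.le
          linarith
        · rw [sub_zero]; exact D.Fle θ j
      have e2 := k1_pow_sub_one hR1.le j
      have e3 : (1 : ℝ) ≤ R ^ j := one_le_pow₀ hR1.le
      have e4 := D.le_W hR1.le hRro (j := 1) (by norm_num) j
      rw [pow_one] at e4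
      have e5 : 0 ≤ (if j = 3 then q else 0) := by split_ifs <;> linarith
      have e6 : |k1F f θ j| * R ^ j ≤ (k1p f j - if j = 3 then q else 0) * R ^ j :=
        mul_le_mul_of_nonneg_right e1 (by linarith)
      have e7 : k1p f j * (R ^ j - 1) ≤ (R - 1) * k1W (k1p f) δ j := by
        calc k1p f j * (R ^ j - 1) ≤ k1p f j * (j * (R - 1) * R ^ j) :=
              mul_le_mul_of_nonneg_left e2 (D.pnn j)
          _ = (R - 1) * (j * k1p f j * R ^ j) := by ring
          _ ≤ _ := mul_le_mul_of_nonneg_left e4 (by linarith)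
      have e8 : (if j = 3 then q else 0) ≤ (if j = 3 then q else 0) * R ^ j :=
        le_mul_of_one_le_right e5 e3
      nlinarith
    have hb' : ∀ j : ℕ, 0 ≤ k1p f j + (R - 1) * k1W (k1p f) δ j - if j = 3 then q else 0 :=
      fun j => le_trans (mul_nonneg (abs_nonneg _) (pow_nonneg (by linarith) j)) (hb j)
    have hs : HasSum (fun j : ℕ => k1p f j + (R - 1) * k1W (k1p f) δ j - if j = 3 then q else 0)
        (1 + (R - 1) * ∑' j, k1W (k1p f) δ j - q) :=
      (D.tot.add (D.summableW.hasSum.mul_left _)).sub (hasSum_ite_eq 3 q)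
    calc ∑ j ∈ Finset.range (n + 1), |k1F f θ j| * R ^ j
        ≤ ∑ j ∈ Finset.range (n + 1),
          (k1p f j + (R - 1) * k1W (k1p f) δ j - if j = 3 then q else 0) :=
          Finset.sum_le_sum fun j _ => hb j
      _ ≤ 1 + (R - 1) * ∑' j, k1W (k1p f) δ j - q :=
          sum_le_hasSum _ (fun j _ => hb' j) hs
      _ ≤ 1 - q / 2 := by
          have := mul_le_mul_of_nonneg_left D.tsumW_le (by linarith : (0 : ℝ) ≤ R - 1)
          rw [← hMdef] at this
          linarith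
  refine ⟨2 / q, R⁻¹, by positivity, inv_pos.2 (by linarith), inv_lt_one_of_one_lt₀ hR1,
    fun m θ h1 h2 => ?_⟩
  have hR0 : 0 < R := by linarith
  have key : ∀ m, |UU f θ m| * R ^ m ≤ 2 / q := by
    intro m
    induction m using Nat.strong_induction_on with
    | _ m ih =>
      have hren := k1_UU_ren hf θ m
      rcases Nat.eq_zero_or_pos m with rfl | hm
      · rw [hren]
        simp
        rw [le_div_iff₀ hq0]
        linarith
      · rw [if_neg hm.ne', zero_add] at hren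
        rw [hren]
        have e1 : |∑ k ∈ Finset.range m, UU f θ k * k1F f θ (m - k)| * R ^ m ≤
            ∑ k ∈ Finset.range m, (|UU f θ k| * R ^ k) * (|k1F f θ (m - k)| * R ^ (m - k)) := by
          have e2 := Finset.abs_sum_le_sum_abs (fun k => UU f θ k * k1F f θ (m - k))
            (Finset.range m)
          refine (mul_le_mul_of_nonneg_right e2 (by positivity)).trans (le_of_eq ?_)
          rw [Finset.sum_mul]
          refine Finset.sum_congr rfl fun k hk => ?_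
          have : R ^ m = R ^ k * R ^ (m - k) := by
            rw [← pow_add]; congr 1; have := Finset.mem_range.1 hk; omega
          rw [abs_mul, this]
          ring
        refine e1.trans ?_
        have e3 : ∑ k ∈ Finset.range m, (|UU f θ k| * R ^ k) * (|k1F f θ (m - k)| * R ^ (m - k)) ≤
            ∑ k ∈ Finset.range m, (2 / q) * (|k1F f θ (m - k)| * R ^ (m - k)) :=
          Finset.sum_le_sum fun k hk =>
            mul_le_mul_of_nonneg_right (ih k (Finset.mem_range.1 hk)) (by positivity)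
        refine e3.trans ?_
        rw [← Finset.mul_sum]
        have e4 : ∑ k ∈ Finset.range m, |k1F f θ (m - k)| * R ^ (m - k) ≤
            ∑ j ∈ Finset.range (m + 1), |k1F f θ j| * R ^ j := by
          rw [← Finset.sum_range_reflect (fun j => |k1F f θ j| * R ^ j) (m + 1),
            Finset.sum_range_succ]
          have : ∀ k ∈ Finset.range m, |k1F f θ (m + 1 - 1 - k)| * R ^ (m + 1 - 1 - k) =
              |k1F f θ (m - k)| * R ^ (m - k) := fun k _ => by simp
          rw [Finset.sum_congr rfl this]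
          have : 0 ≤ |k1F f θ (m + 1 - 1 - m)| * R ^ (m + 1 - 1 - m) := by positivity
          linarith
        have e5 := e4.trans (hmass θ h1 h2 m)
        calc 2 / q * ∑ k ∈ Finset.range m, |k1F f θ (m - k)| * R ^ (m - k)
            ≤ 2 / q * 1 := mul_le_mul_of_nonneg_left (by linarith) (by positivity)
          _ = 2 / q := mul_one _
  have := key m
  rw [inv_pow, ← div_eq_mul_inv, le_div_iff₀ (by positivity)]
  exact this

/-- the information of `K1D.main` for the free walk -/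
theorem k1_info (hf : FreeLaw f) : ∃ θ₀ K r C : ℝ, 0 < θ₀ ∧ 0 < K ∧ 0 < r ∧ r < 1 ∧ 0 < C ∧
    ∀ θ, |θ| ≤ θ₀ → ∃ w μ' : ℝ, 1 ≤ w ∧
      |mean f * (w - 1) - θ ^ 2 * (var f * mean f) / 2| ≤ C * θ ^ 4 ∧
      |μ' - mean f| ≤ C * θ ^ 2 ∧ mean f / 2 ≤ μ' ∧
      ∀ n, |UU f θ n * w ^ n - 1 / μ'| ≤ K * r ^ n := by
  obtain ⟨δ, D⟩ := hf.k1D
  obtain ⟨θ₀, K, r, C, h1, h2, h3, h4, h5, h6⟩ := D.main
  rw [← hf.k1_mean] at h6
  have h7 : ∑' m, k1s f m = var f * mean f := by
    rw [hf.k1_var]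
    have := (mean_pos hf).ne'
    field_simp
  rw [h7] at h6
  refine ⟨θ₀, K, r, C, h1, h2, h3, h4, h5, fun θ hθ => ?_⟩
  obtain ⟨w, μ', g1, g2, g3, g4, g5⟩ := h6 θ hθ
  exact ⟨w, μ', g1, g2, g3, g4, g5 _ (k1_UU_ren hf θ)⟩

theorem k1_log_ge {x : ℝ} (h0 : 0 ≤ x) (h1 : x ≤ 1) : x / 2 ≤ Real.log (1 + x) := by
  have h2 := Real.one_sub_inv_le_log_of_pos (show 0 < 1 + x by linarith)
  refine le_trans ?_ h2
  have h3 : (1 : ℝ) - (1 + x)⁻¹ = x / (1 + x) := by field_simp; ring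
  rw [h3, div_le_div_iff₀ (by norm_num) (by linarith)]
  nlinarith

theorem UU_bound (hf : FreeLaw f) : ∃ K c, 0 < K ∧ 0 < c ∧ ∀ (m : ℕ) (θ : ℝ),
    |θ| ≤ Real.pi / 2 → |UU f θ m| ≤ K * Real.exp (-(c * θ ^ 2 * m)) := by
  obtain ⟨θ₀, K, r, C, hθ₀, hK, hr0, hr1, hC, hinfo⟩ := k1_info hf
  have hμ := mean_pos hf
  have hv := var_pos hf
  set μ := mean f with hμdef
  set v := var f with hvdef
  -- small frequencies
  obtain ⟨θ₁, hθ₁⟩ : ∃ θ₁, θ₁ = min θ₀ (min 1 (min (v * μ / (4 * C)) (4 / v))) := ⟨_, rfl⟩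
  have hθ₁0 : 0 < θ₁ := by
    rw [hθ₁]
    refine lt_min hθ₀ (lt_min one_pos (lt_min ?_ ?_)) <;> positivity
  obtain ⟨K₂, r₂, hK₂, hr₂0, hr₂1, hlarge⟩ := k1_large hf hθ₁0
  have hlog : Real.log r₂ < 0 := Real.log_neg hr₂0 hr₂1
  refine ⟨2 / μ + K + K₂, min (v / 8) (-Real.log r₂ / 4), by positivity,
    lt_min (by positivity) (by linarith), fun m θ hθ => ?_⟩
  have hcnn : (0 : ℝ) ≤ θ ^ 2 * m := by positivity
  by_cases hcase : |θ| ≤ θ₁
  · rw [hθ₁] at hcase
    have h1 : |θ| ≤ θ₀ := hcase.trans (min_le_left _ _)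
    have h2 : |θ| ≤ 1 := hcase.trans ((min_le_right _ _).trans (min_le_left _ _))
    have h3 : |θ| ≤ v * μ / (4 * C) :=
      hcase.trans ((min_le_right _ _).trans ((min_le_right _ _).trans (min_le_left _ _)))
    have h4 : |θ| ≤ 4 / v :=
      hcase.trans ((min_le_right _ _).trans ((min_le_right _ _).trans (min_le_right _ _)))
    have hsq : θ ^ 2 ≤ |θ| := by
      rw [← sq_abs]; nlinarith [abs_nonneg θ]
    have h5 : C * θ ^ 2 ≤ v * μ / 4 := by
      calc C * θ ^ 2 ≤ C * (v * μ / (4 * C)) := by gcongr; exact hsq.trans h3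
        _ = v * μ / 4 := by field_simp
    have h6 : v * θ ^ 2 / 4 ≤ 1 := by
      calc v * θ ^ 2 / 4 ≤ v * (4 / v) / 4 := by gcongr; exact hsq.trans h4
        _ = 1 := by field_simp
    obtain ⟨w, μ', hw1, hw2, hμ1, hμ2, hconv⟩ := hinfo θ h1
    -- lower bound on w
    have h7 : 1 + v * θ ^ 2 / 4 ≤ w := by
      have h8 := (abs_le.1 hw2).1
      have h9 : C * θ ^ 4 ≤ v * μ / 4 * θ ^ 2 := by
        calc C * θ ^ 4 = C * θ ^ 2 * θ ^ 2 := by ring
          _ ≤ _ := mul_le_mul_of_nonneg_right h5 (sq_nonneg _)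
      have h10 : μ * (v * θ ^ 2 / 4) ≤ μ * (w - 1) := by nlinarith
      have := le_of_mul_le_mul_left h10 hμ
      linarith
    have h8 : v / 8 * θ ^ 2 ≤ Real.log w := by
      have h9 := k1_log_ge (show 0 ≤ v * θ ^ 2 / 4 by positivity) h6
      have h10 : Real.log (1 + v * θ ^ 2 / 4) ≤ Real.log w :=
        Real.log_le_log (by positivity) h7
      linarith
    have hw0 : 0 < w := by linarith
    have h9 : |UU f θ m| * w ^ m ≤ 2 / μ + K := by
      have h10 := hconv m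
      have h11 : |UU f θ m * w ^ m| ≤ |UU f θ m * w ^ m - 1 / μ'| + |1 / μ'| := by
        have := abs_add_le (UU f θ m * w ^ m - 1 / μ') (1 / μ')
        rwa [sub_add_cancel] at this
      rw [abs_mul, abs_of_pos (pow_pos hw0 m)] at h11
      have hμ'0 : 0 < μ' := by linarith
      have h12 : |1 / μ'| ≤ 2 / μ := by
        rw [abs_of_pos (by positivity), div_le_div_iff₀ hμ'0 hμ]
        linarith
      have h13 : K * r ^ m ≤ K := mul_le_of_le_one_right hK.le (pow_le_one₀ hr0.le hr1.le)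
      linarith
    have h10 : Real.exp (v / 8 * θ ^ 2 * m) ≤ w ^ m := by
      rw [← Real.exp_log hw0, ← Real.exp_nat_mul]
      apply Real.exp_le_exp.2
      calc v / 8 * θ ^ 2 * m = m * (v / 8 * θ ^ 2) := by ring
        _ ≤ m * Real.log w := mul_le_mul_of_nonneg_left h8 (Nat.cast_nonneg m)
    have h11 : |UU f θ m| ≤ (2 / μ + K) * Real.exp (-(v / 8 * θ ^ 2 * m)) := by
      rw [Real.exp_neg, ← div_eq_mul_inv, le_div_iff₀ (Real.exp_pos _)]
      exact (mul_le_mul_of_nonneg_left h10 (abs_nonneg _)).trans h9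
    refine h11.trans ?_
    have h12 : Real.exp (-(v / 8 * θ ^ 2 * m)) ≤
        Real.exp (-(min (v / 8) (-Real.log r₂ / 4) * θ ^ 2 * m)) := by
      apply Real.exp_le_exp.2
      have := mul_le_mul_of_nonneg_right (min_le_left (v / 8) (-Real.log r₂ / 4)) hcnn
      linarith
    have h13 := Real.exp_pos (-(min (v / 8) (-Real.log r₂ / 4) * θ ^ 2 * m))
    calc (2 / μ + K) * Real.exp (-(v / 8 * θ ^ 2 * m))
        ≤ (2 / μ + K) * Real.exp (-(min (v / 8) (-Real.log r₂ / 4) * θ ^ 2 * m)) :=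
          mul_le_mul_of_nonneg_left h12 (by positivity)
      _ ≤ (2 / μ + K + K₂) * Real.exp (-(min (v / 8) (-Real.log r₂ / 4) * θ ^ 2 * m)) :=
          mul_le_mul_of_nonneg_right (by linarith) h13.le
  · push Not at hcase
    have h1 := hlarge m θ hcase.le hθ
    refine h1.trans ?_
    have h2 : θ ^ 2 ≤ 4 := by
      rw [← sq_abs]
      have : |θ| ≤ 2 := hθ.trans (by linarith [Real.pi_le_four])
      nlinarith [abs_nonneg θ]
    have h3 : r₂ ^ m ≤ Real.exp (-(min (v / 8) (-Real.log r₂ / 4) * θ ^ 2 * m)) := by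
      rw [← Real.exp_log (pow_pos hr₂0 m), Real.log_pow]
      apply Real.exp_le_exp.2
      have h4 := mul_le_mul_of_nonneg_right (min_le_right (v / 8) (-Real.log r₂ / 4)) hcnn
      have h5 : -Real.log r₂ / 4 * (θ ^ 2 * m) ≤ -Real.log r₂ / 4 * (4 * m) := by
        refine mul_le_mul_of_nonneg_left ?_ (by linarith)
        exact mul_le_mul_of_nonneg_right h2 (Nat.cast_nonneg m)
      linarith
    have h13 := Real.exp_pos (-(min (v / 8) (-Real.log r₂ / 4) * θ ^ 2 * m))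
    calc K₂ * r₂ ^ m ≤ K₂ * Real.exp (-(min (v / 8) (-Real.log r₂ / 4) * θ ^ 2 * m)) :=
          mul_le_mul_of_nonneg_left h3 hK₂.le
      _ ≤ _ := mul_le_mul_of_nonneg_right (by have : 0 < 2 / μ := by positivity
                                              linarith) h13.le

theorem UU_lim (hf : FreeLaw f) {m : ℕ → ℕ} {θ : ℕ → ℝ} {φ : ℝ}
    (hm : Tendsto m atTop atTop) (hθ : Tendsto (fun k => θ k * Real.sqrt (m k)) atTop (𝓝 φ)) :
    Tendsto (fun k => UU f (θ k) (m k)) atTop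
      (𝓝 (1 / mean f * Real.exp (-(var f * φ ^ 2 / 2)))) := by
  obtain ⟨θ₀, K, r, C, hθ₀, hK, hr0, hr1, hC, hinfo⟩ := k1_info hf
  have hμ := mean_pos hf
  have hv := var_pos hf
  choose! w μ' hw1 hw2 hμ1 hμ2 hconv using hinfo
  have hmR : Tendsto (fun k => (m k : ℝ)) atTop atTop := tendsto_natCast_atTop_atTop.comp hm
  have hsq : Tendsto (fun k => Real.sqrt (m k)) atTop atTop := Real.tendsto_sqrt_atTop.comp hmR
  -- `θ → 0`
  have hθ0 : Tendsto θ atTop (𝓝 0) := by
    have h1 : Tendsto (fun k => θ k * Real.sqrt (m k) * (Real.sqrt (m k))⁻¹) atTop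
        (𝓝 (φ * 0)) := hθ.mul (tendsto_inv_atTop_zero.comp hsq)
    rw [mul_zero] at h1
    refine h1.congr' ?_
    filter_upwards [hsq.eventually_gt_atTop 0] with k hk
    rw [mul_assoc, mul_inv_cancel₀ hk.ne', mul_one]
  have hsmall : ∀ᶠ k in atTop, |θ k| ≤ θ₀ := by
    have h1 : Tendsto (fun k => |θ k|) atTop (𝓝 0) := by simpa using hθ0.abs
    filter_upwards [h1.eventually_lt_const hθ₀] with k hk
    exact hk.le
  -- `m θ^2 → φ^2`
  have hmθ : Tendsto (fun k => (m k : ℝ) * θ k ^ 2) atTop (𝓝 (φ ^ 2)) := by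
    refine (hθ.pow 2).congr fun k => ?_
    rw [mul_pow, Real.sq_sqrt (Nat.cast_nonneg _)]
    ring
  have hθ2 : Tendsto (fun k => θ k ^ 2) atTop (𝓝 0) := by
    have := hθ0.pow 2
    simpa using this
  -- `m (w - 1) → var φ^2 / 2`
  have hmw : Tendsto (fun k => (m k : ℝ) * (w (θ k) - 1)) atTop (𝓝 (var f * φ ^ 2 / 2)) := by
    have h1 : Tendsto (fun k => (m k : ℝ) * (w (θ k) - 1) - (m k : ℝ) * θ k ^ 2 * (var f / 2))
        atTop (𝓝 0) := by
      have h2 : Tendsto (fun k => C / mean f * ((m k : ℝ) * θ k ^ 2 * θ k ^ 2)) atTop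
          (𝓝 (C / mean f * (φ ^ 2 * 0))) := (hmθ.mul hθ2).const_mul _
      rw [mul_zero, mul_zero] at h2
      refine squeeze_zero_norm' ?_ h2
      filter_upwards [hsmall] with k hk
      have h3 := hw2 (θ k) hk
      rw [Real.norm_eq_abs]
      have h4 : (m k : ℝ) * (w (θ k) - 1) - (m k : ℝ) * θ k ^ 2 * (var f / 2) =
          (m k : ℝ) / mean f * (mean f * (w (θ k) - 1) - θ k ^ 2 * (var f * mean f) / 2) := by
        field_simp
      rw [h4, abs_mul, abs_of_nonneg (by positivity : (0 : ℝ) ≤ (m k : ℝ) / mean f)]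
      calc (m k : ℝ) / mean f * |mean f * (w (θ k) - 1) - θ k ^ 2 * (var f * mean f) / 2|
          ≤ (m k : ℝ) / mean f * (C * θ k ^ 4) := mul_le_mul_of_nonneg_left h3 (by positivity)
        _ = _ := by ring
    have h5 := h1.add (hmθ.mul_const (var f / 2))
    simp only [sub_add_cancel, zero_add] at h5
    have h6 : φ ^ 2 * (var f / 2) = var f * φ ^ 2 / 2 := by ring
    rwa [h6] at h5
  -- `w → 1`
  have hw : Tendsto (fun k => w (θ k)) atTop (𝓝 1) := by
    have h1 : Tendsto (fun k => (m k : ℝ) * (w (θ k) - 1) * (m k : ℝ)⁻¹) atTop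
        (𝓝 (var f * φ ^ 2 / 2 * 0)) := hmw.mul (tendsto_inv_atTop_zero.comp hmR)
    rw [mul_zero] at h1
    have h2 : Tendsto (fun k => w (θ k) - 1) atTop (𝓝 0) := by
      refine h1.congr' ?_
      filter_upwards [hmR.eventually_gt_atTop 0] with k hk
      field_simp
    have h3 := h2.add_const 1
    simpa using h3
  -- `m log w → var φ^2/2`
  have hml : Tendsto (fun k => (m k : ℝ) * Real.log (w (θ k))) atTop (𝓝 (var f * φ ^ 2 / 2)) := by
    have hlow : Tendsto (fun k => (m k : ℝ) * (w (θ k) - 1) * (w (θ k))⁻¹) atTop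
        (𝓝 (var f * φ ^ 2 / 2)) := by
      have := hmw.mul (hw.inv₀ one_ne_zero)
      simpa using this
    refine tendsto_of_tendsto_of_tendsto_of_le_of_le' hlow hmw ?_ ?_
    · filter_upwards [hsmall] with k hk
      have h1 := hw1 (θ k) hk
      have h2 := Real.one_sub_inv_le_log_of_pos (show 0 < w (θ k) by linarith)
      have h3 : (m k : ℝ) * (w (θ k) - 1) * (w (θ k))⁻¹ = m k * (1 - (w (θ k))⁻¹) := by
        have : w (θ k) ≠ 0 := by linarith
        field_simp
      rw [h3]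
      exact mul_le_mul_of_nonneg_left h2 (Nat.cast_nonneg _)
    · filter_upwards [hsmall] with k hk
      have h1 := hw1 (θ k) hk
      exact mul_le_mul_of_nonneg_left (Real.log_le_sub_one_of_pos (by linarith))
        (Nat.cast_nonneg _)
  -- `w^m → exp (var φ^2/2)`
  have hwm : Tendsto (fun k => w (θ k) ^ m k) atTop (𝓝 (Real.exp (var f * φ ^ 2 / 2))) := by
    refine (hml.rexp).congr' ?_
    filter_upwards [hsmall] with k hk
    have h1 := hw1 (θ k) hk
    rw [Real.exp_nat_mul, Real.exp_log (by linarith)]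
  -- `μ' → μ`
  have hμ' : Tendsto (fun k => μ' (θ k)) atTop (𝓝 (mean f)) := by
    have h1 : Tendsto (fun k => μ' (θ k) - mean f) atTop (𝓝 0) := by
      have h2 : Tendsto (fun k => C * θ k ^ 2) atTop (𝓝 (C * 0)) := hθ2.const_mul _
      rw [mul_zero] at h2
      refine squeeze_zero_norm' ?_ h2
      filter_upwards [hsmall] with k hk
      exact hμ1 (θ k) hk
    have h3 := h1.add_const (mean f)
    simpa using h3
  have hrm : Tendsto (fun k => K * r ^ m k) atTop (𝓝 0) := by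
    have h1 : Tendsto (fun k => r ^ m k) atTop (𝓝 0) :=
      (tendsto_pow_atTop_nhds_zero_of_lt_one hr0.le hr1).comp hm
    simpa using h1.const_mul K
  have h1 : Tendsto (fun k => UU f (θ k) (m k) * w (θ k) ^ m k) atTop (𝓝 (1 / mean f)) := by
    have h2 : Tendsto (fun k => UU f (θ k) (m k) * w (θ k) ^ m k - 1 / μ' (θ k)) atTop (𝓝 0) := by
      refine squeeze_zero_norm' ?_ hrm
      filter_upwards [hsmall] with k hk
      exact hconv (θ k) hk (m k)
    have h3 : Tendsto (fun k => 1 / μ' (θ k)) atTop (𝓝 (1 / mean f)) := by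
      simpa only [one_div] using hμ'.inv₀ hμ.ne'
    have h4 := h2.add h3
    simpa using h4
  have h2 := h1.div hwm (Real.exp_pos _).ne'
  have h3 : 1 / mean f / Real.exp (var f * φ ^ 2 / 2) =
      1 / mean f * Real.exp (-(var f * φ ^ 2 / 2)) := by
    rw [Real.exp_neg, div_eq_mul_inv]
  rw [h3] at h2
  refine h2.congr' ?_
  filter_upwards [hsmall] with k hk
  have h4 := hw1 (θ k) hk
  have h5 : w (θ k) ^ m k ≠ 0 := by positivity
  rw [Pi.div_apply]
  exact mul_div_cancel_right₀ _ h5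

end

end Pool.Agent.SAPX
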