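import Pool.Agent.SAPX.KDefs
import Pool.Agent.SAPX.FourierU

/-!
Module K2: local limit estimates for the renewal measure `uu` of the free walk by Fourier inversion
on `[-π/2, π/2]` (difference estimate, Gaussian upper bound, limit of the differences).
-/

namespace Pool.Agent.SAPX

open Filter Topology MeasureTheory

/-- orthogonality for integers of the same parity -/
lemma lu_orth1 (k : ℤ) (hk : Even k) :
    ∫ θ in (-(Real.pi / 2))..(Real.pi / 2), Real.cos (θ * k) = if k = 0 then Real.pi else 0 := by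
  obtain ⟨j, rfl⟩ := hk
  split_ifs with h
  · rw [h]; simp
  · have hc : ((j + j : ℤ) : ℝ) ≠ 0 := by exact_mod_cast h
    rw [intervalIntegral.integral_comp_mul_right (fun x => Real.cos x) hc, integral_cos]
    have h1 : Real.pi / 2 * ((j + j : ℤ) : ℝ) = j * Real.pi := by push_cast; ring
    have h2 : -(Real.pi / 2) * ((j + j : ℤ) : ℝ) = (-j : ℤ) * Real.pi := by push_cast; ring
    rw [h1, h2, Real.sin_int_mul_pi, Real.sin_int_mul_pi]
    simp

lemma lu_orth (a d : ℤ) (h : Even (a + d)) :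
    ∫ θ in (-(Real.pi / 2))..(Real.pi / 2), Real.cos (θ * a) * Real.cos (θ * d) =
      Real.pi / 2 * ((if a = d then 1 else 0) + (if a = -d then 1 else 0)) := by
  have h1 : ∀ θ : ℝ, Real.cos (θ * a) * Real.cos (θ * d)
      = (1 / 2) * Real.cos (θ * ((a - d : ℤ) : ℝ)) + (1 / 2) * Real.cos (θ * ((a + d : ℤ) : ℝ)) := by
    intro θ
    have e1 : θ * ((a - d : ℤ) : ℝ) = θ * a - θ * d := by push_cast; ring
    have e2 : θ * ((a + d : ℤ) : ℝ) = θ * a + θ * d := by push_cast; ring
    rw [e1, e2, Real.cos_sub, Real.cos_add]; ring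
  simp only [h1]
  have hi : ∀ k : ℤ, IntervalIntegrable (fun θ : ℝ => (1 / 2) * Real.cos (θ * (k : ℝ))) volume
      (-(Real.pi / 2)) (Real.pi / 2) := fun k => by
    apply Continuous.intervalIntegrable
    fun_prop
  rw [intervalIntegral.integral_add (hi _) (hi _), intervalIntegral.integral_const_mul,
    intervalIntegral.integral_const_mul, lu_orth1 _ h, lu_orth1 (a - d) (by
      rw [Int.even_sub]; rw [Int.even_add] at h; exact h)]
  have e3 : (a - d = 0) ↔ a = d := sub_eq_zero
  have e4 : (a + d = 0) ↔ a = -d := by rw [← eq_neg_iff_add_eq_zero]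
  simp only [e3, e4]
  split_ifs <;> ring

lemma lu_cont (f : ℕ → ℤ → ℝ) (m : ℕ) : Continuous (fun θ : ℝ => UU f θ m) := by
  unfold UU
  fun_prop

/-- Fourier inversion -/
lemma lu_inv {f : ℕ → ℤ → ℝ} (hf : FreeLaw f) (m : ℕ) (d : ℤ) (hd : Even ((m : ℤ) + d)) :
    uu f m d = (1 / Real.pi) *
      ∫ θ in (-(Real.pi / 2))..(Real.pi / 2), UU f θ m * Real.cos (θ * d) := by
  have h1 : ∫ θ in (-(Real.pi / 2))..(Real.pi / 2), UU f θ m * Real.cos (θ * d)
      = ∑ a ∈ Finset.Icc (-(m : ℤ)) m, uu f m a *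
        (Real.pi / 2 * ((if a = d then 1 else 0) + (if a = -d then 1 else 0))) := by
    unfold UU
    simp only [Finset.sum_mul]
    rw [intervalIntegral.integral_finsetSum]
    · refine Finset.sum_congr rfl fun a _ => ?_
      by_cases ha : uu f m a = 0
      · simp [ha]
      · have hpar := (uu_supp hf ha).2
        have : Even (a + d) := by
          rw [Int.even_add] at hpar hd ⊢
          tauto
        rw [← lu_orth a d this, ← intervalIntegral.integral_const_mul]
        simp only [mul_assoc]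
    · intro a _
      apply Continuous.intervalIntegrable
      fun_prop
  rw [h1]
  by_cases hdm : |d| ≤ m
  · rw [abs_le] at hdm
    have h2 : ∀ a, uu f m a * (Real.pi / 2 * ((if a = d then 1 else 0) + (if a = -d then 1 else 0)))
        = (if a = d then Real.pi / 2 * uu f m d else 0) +
          (if a = -d then Real.pi / 2 * uu f m d else 0) := by
      intro a
      split_ifs with e1 e2 e2
      · rw [← e1]; ring
      · rw [← e1]; ring
      · rw [e2, uu_symm hf]; ring
      · ring
    simp only [h2, Finset.sum_add_distrib, Finset.sum_ite_eq']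
    rw [if_pos (Finset.mem_Icc.2 hdm), if_pos (Finset.mem_Icc.2 ⟨by omega, by omega⟩)]
    field_simp
    ring
  · have h0 : uu f m d = 0 := by
      by_contra hne
      exact hdm (uu_supp hf hne).1
    rw [h0, Finset.sum_eq_zero, mul_zero]
    intro a ha
    rw [Finset.mem_Icc] at ha
    rw [abs_le, not_and_or] at hdm
    rw [if_neg (by omega), if_neg (by omega)]
    ring

lemma lu_diff_eq {f : ℕ → ℤ → ℝ} (hf : FreeLaw f) (m : ℕ) (y z : ℤ)
    (hd : Even ((m : ℤ) + y + z)) :
    uu f m (y - z) - uu f m (y + z) = (2 / Real.pi) *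
      ∫ θ in (-(Real.pi / 2))..(Real.pi / 2), UU f θ m * (Real.sin (θ * y) * Real.sin (θ * z)) := by
  rw [lu_inv hf m (y - z) (by
      have : (m : ℤ) + (y - z) = (m + y + z) - (z + z) := by ring
      rw [this]; exact hd.sub (Even.add_self z)), lu_inv hf m (y + z) (by rwa [← add_assoc]),
    ← mul_sub, ← intervalIntegral.integral_sub]
  · rw [← intervalIntegral.integral_const_mul, ← intervalIntegral.integral_const_mul]
    congr 1
    ext θ
    have e1 : θ * ((y - z : ℤ) : ℝ) = θ * y - θ * z := by push_cast; ring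
    have e2 : θ * ((y + z : ℤ) : ℝ) = θ * y + θ * z := by push_cast; ring
    rw [e1, e2, Real.cos_sub, Real.cos_add]
    field_simp
    ring
  · apply Continuous.intervalIntegrable
    exact (lu_cont f m).mul (by fun_prop)
  · apply Continuous.intervalIntegrable
    exact (lu_cont f m).mul (by fun_prop)

lemma lu_diff_odd {f : ℕ → ℤ → ℝ} (hf : FreeLaw f) (m : ℕ) (y z : ℤ)
    (hd : ¬ Even ((m : ℤ) + y + z)) :
    uu f m (y - z) - uu f m (y + z) = 0 := by
  have h1 : uu f m (y - z) = 0 := by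
    by_contra h
    have := (uu_supp hf h).2
    apply hd
    have e : (m : ℤ) + y + z = (m + (y - z)) + (z + z) := by ring
    rw [e]; exact this.add (Even.add_self z)
  have h2 : uu f m (y + z) = 0 := by
    by_contra h
    have := (uu_supp hf h).2
    exact hd (by rwa [add_assoc])
  rw [h1, h2, sub_zero]


lemma lu_int_abs {b : ℝ} (hb : 0 < b) :
    Integrable (fun θ : ℝ => |θ| * Real.exp (-(b * θ ^ 2))) := by
  have h := (integrable_mul_exp_neg_mul_sq hb).norm
  refine h.congr (Eventually.of_forall fun θ => ?_)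
  simp only [norm_mul, Real.norm_eq_abs, Real.abs_exp, neg_mul]

/-- first absolute moment of the Gaussian -/
lemma lu_moment {b : ℝ} (hb : 0 < b) :
    ∫ θ : ℝ, |θ| * Real.exp (-(b * θ ^ 2)) = (∫ θ : ℝ, |θ| * Real.exp (-(1 * θ ^ 2))) / b := by
  have hs : 0 < Real.sqrt b := Real.sqrt_pos.2 hb
  have h1 : ∀ θ : ℝ, |θ| * Real.exp (-(b * θ ^ 2)) =
      (Real.sqrt b)⁻¹ * (|Real.sqrt b * θ| * Real.exp (-(1 * (Real.sqrt b * θ) ^ 2))) := by
    intro θ
    rw [abs_mul, abs_of_pos hs, mul_pow, Real.sq_sqrt hb.le, one_mul]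
    field_simp
  simp only [h1]
  rw [integral_const_mul, MeasureTheory.Measure.integral_comp_mul_left
    (fun x => |x| * Real.exp (-(1 * x ^ 2)))]
  rw [abs_of_pos (inv_pos.2 hs), smul_eq_mul, ← mul_assoc, ← mul_inv, Real.mul_self_sqrt hb.le]
  rw [div_eq_inv_mul]

theorem uu_diff {f : ℕ → ℤ → ℝ} (hf : FreeLaw f) : ∃ K, 0 < K ∧ ∀ (m : ℕ) (y z : ℤ),
    |uu f m (y - z) - uu f m (y + z)| ≤ K * |(z : ℝ)| / (m + 1) := by
  obtain ⟨K, c, hK, hc, hb⟩ := UU_bound hf
  set M := ∫ θ : ℝ, |θ| * Real.exp (-(1 * θ ^ 2)) with hM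
  have hM0 : 0 ≤ M := integral_nonneg fun θ => by positivity
  refine ⟨2 / Real.pi * (K * Real.exp (c * (Real.pi / 2) ^ 2) * (M / c)) + 1, by positivity, ?_⟩
  intro m y z
  have hm1 : (0 : ℝ) < m + 1 := by positivity
  by_cases hpar : Even ((m : ℤ) + y + z)
  swap
  · rw [lu_diff_odd hf m y z hpar, abs_zero]
    positivity
  rw [lu_diff_eq hf m y z hpar, abs_mul, abs_of_pos (by positivity : (0 : ℝ) < 2 / Real.pi)]
  have hpi : -(Real.pi / 2) ≤ Real.pi / 2 := by linarith [Real.pi_pos]
  have h1 : |∫ θ in (-(Real.pi / 2))..(Real.pi / 2),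
      UU f θ m * (Real.sin (θ * y) * Real.sin (θ * z))| ≤
      K * Real.exp (c * (Real.pi / 2) ^ 2) * |(z : ℝ)| * (M / (c * (m + 1))) := by
    rw [← Real.norm_eq_abs]
    have hint := lu_int_abs (b := c * (m + 1)) (by positivity)
    calc ‖∫ θ in (-(Real.pi / 2))..(Real.pi / 2),
        UU f θ m * (Real.sin (θ * y) * Real.sin (θ * z))‖
        ≤ ∫ θ in (-(Real.pi / 2))..(Real.pi / 2),
          K * Real.exp (c * (Real.pi / 2) ^ 2) * |(z : ℝ)| *
            (|θ| * Real.exp (-(c * (m + 1) * θ ^ 2))) := by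
          apply intervalIntegral.norm_integral_le_of_norm_le hpi
          · refine Eventually.of_forall fun θ hθ => ?_
            have hθ' : |θ| ≤ Real.pi / 2 := abs_le.2 ⟨hθ.1.le, hθ.2⟩
            have h2 := hb m θ hθ'
            have h3 : |Real.sin (θ * y)| ≤ 1 := Real.abs_sin_le_one _
            have h4 : |Real.sin (θ * z)| ≤ |θ| * |(z : ℝ)| := by
              rw [← abs_mul]; exact Real.abs_sin_le_abs
            rw [norm_mul, norm_mul, Real.norm_eq_abs, Real.norm_eq_abs, Real.norm_eq_abs]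
            have h5 : Real.exp (-(c * θ ^ 2 * m)) ≤
                Real.exp (c * (Real.pi / 2) ^ 2) * Real.exp (-(c * (m + 1) * θ ^ 2)) := by
              rw [← Real.exp_add]
              apply Real.exp_le_exp.2
              have : θ ^ 2 ≤ (Real.pi / 2) ^ 2 := by
                rw [← sq_abs]
                exact pow_le_pow_left₀ (abs_nonneg _) hθ' 2
              nlinarith
            calc |UU f θ m| * (|Real.sin (θ * y)| * |Real.sin (θ * z)|)
                ≤ (K * (Real.exp (c * (Real.pi / 2) ^ 2) * Real.exp (-(c * (m + 1) * θ ^ 2)))) *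
                  (1 * (|θ| * |(z : ℝ)|)) := by
                  refine mul_le_mul (h2.trans (mul_le_mul_of_nonneg_left h5 hK.le))
                    (mul_le_mul h3 h4 (abs_nonneg _) zero_le_one) (by positivity) (by positivity)
              _ = _ := by ring
          · exact (hint.const_mul _).intervalIntegrable
      _ ≤ ∫ θ : ℝ, K * Real.exp (c * (Real.pi / 2) ^ 2) * |(z : ℝ)| *
            (|θ| * Real.exp (-(c * (m + 1) * θ ^ 2))) := by
          rw [intervalIntegral.integral_of_le hpi]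
          apply setIntegral_le_integral (hint.const_mul _)
          exact Eventually.of_forall fun θ => by positivity
      _ = _ := by
          rw [integral_const_mul, lu_moment (by positivity)]
  calc 2 / Real.pi * |∫ θ in (-(Real.pi / 2))..(Real.pi / 2),
      UU f θ m * (Real.sin (θ * y) * Real.sin (θ * z))|
      ≤ 2 / Real.pi * (K * Real.exp (c * (Real.pi / 2) ^ 2) * |(z : ℝ)| * (M / (c * (m + 1)))) :=
        mul_le_mul_of_nonneg_left h1 (by positivity)
    _ = 2 / Real.pi * (K * Real.exp (c * (Real.pi / 2) ^ 2) * (M / c)) * |(z : ℝ)| / (m + 1) := by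
        field_simp
    _ ≤ _ := by
        apply div_le_div_of_nonneg_right _ hm1.le
        apply mul_le_mul_of_nonneg_right _ (abs_nonneg _)
        linarith



lemma lu_sum_le {α : Type*} (s t : Finset α) (g : α → ℝ) (h0 : ∀ x ∈ t, 0 ≤ g x)
    (h : ∀ x ∈ s, g x ≠ 0 → x ∈ t) : ∑ x ∈ s, g x ≤ ∑ x ∈ t, g x := by
  classical
  rw [← Finset.sum_filter_ne_zero s]
  refine Finset.sum_le_sum_of_subset_of_nonneg ?_ (fun x hx _ => h0 x hx)
  intro x hx
  rw [Finset.mem_filter] at hx
  exact h x hx.1 hx.2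

lemma lu_exp_le (x : ℝ) : Real.exp x - 1 - x ≤ x ^ 2 * Real.exp |x| := by
  have h := Complex.norm_exp_sub_sum_le_norm_mul_exp (x : ℂ) 2
  have h1 : Complex.exp (x : ℂ) - ∑ m ∈ Finset.range 2, (x : ℂ) ^ m / (m.factorial : ℂ)
      = ((Real.exp x - 1 - x : ℝ) : ℂ) := by
    simp [Finset.sum_range_succ]
    ring
  rw [h1, Complex.norm_real, Complex.norm_real, Real.norm_eq_abs, Real.norm_eq_abs, sq_abs] at h
  exact (le_abs_self _).trans h

lemma lu_cosh_le (x : ℝ) : Real.cosh x - 1 ≤ x ^ 2 * Real.exp |x| := by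
  have h1 := lu_exp_le x
  have h2 := lu_exp_le (-x)
  rw [abs_neg, neg_sq] at h2
  rw [Real.cosh_eq]
  linarith

/-- exponential moment of the height of a block of length `j` -/
noncomputable def luPhi (f : ℕ → ℤ → ℝ) (s : ℝ) (j : ℕ) : ℝ :=
  ∑ d ∈ Finset.Icc (-(j : ℤ)) j, f j d * Real.exp (s * d)

/-- exponential moment of the renewal measure -/
noncomputable def luN (f : ℕ → ℤ → ℝ) (s : ℝ) (m : ℕ) : ℝ :=
  ∑ d ∈ Finset.Icc (-(m : ℤ)) m, uu f m d * Real.exp (s * d)

lemma luPhi_eq {f : ℕ → ℤ → ℝ} (hf : FreeLaw f) (s : ℝ) (j : ℕ) :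
    luPhi f s j = ∑ d ∈ Finset.Icc (-(j : ℤ)) j, f j d * Real.cosh (s * d) := by
  have h1 : luPhi f s j = ∑ d ∈ Finset.Icc (-(j : ℤ)) j, f j d * Real.exp (-(s * d)) := by
    unfold luPhi
    refine Finset.sum_nbij' (fun d => -d) (fun d => -d) ?_ ?_ ?_ ?_ ?_
    · intro d hd; rw [Finset.mem_Icc] at hd ⊢; omega
    · intro d hd; rw [Finset.mem_Icc] at hd ⊢; omega
    · intro d _; simp
    · intro d _; simp
    · intro d _
      rw [hf.symm]; push_cast; ring_nf
  have h2 : luPhi f s j + luPhi f s j =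
      2 * ∑ d ∈ Finset.Icc (-(j : ℤ)) j, f j d * Real.cosh (s * d) := by
    nth_rewrite 2 [h1]
    unfold luPhi
    rw [← Finset.sum_add_distrib, Finset.mul_sum]
    refine Finset.sum_congr rfl fun d _ => ?_
    rw [Real.cosh_eq]; ring
  linarith

lemma luPhi_nonneg {f : ℕ → ℤ → ℝ} (hf : FreeLaw f) (s : ℝ) (j : ℕ) : 0 ≤ luPhi f s j :=
  Finset.sum_nonneg fun _ _ => mul_nonneg (hf.nonneg _ _) (Real.exp_pos _).le

/-- convolution bound -/
lemma luN_rec {f : ℕ → ℤ → ℝ} (hf : FreeLaw f) (s : ℝ) (m : ℕ) :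
    luN f s m ≤ (if m = 0 then 1 else 0) +
      ∑ k ∈ Finset.range m, luN f s k * luPhi f s (m - k) := by
  have hrec := rec_occ (free f) (dl 0 0)
  have h1 : luN f s m = ∑ d ∈ Finset.Icc (-(m : ℤ)) m, dl 0 0 m d * Real.exp (s * d) +
      ∑ k ∈ Finset.range m, ∑ d ∈ Finset.Icc (-(m : ℤ)) m,
        ∑ x ∈ Finset.Icc (d - ((m : ℤ) - k)) (d + ((m : ℤ) - k)),
          uu f k x * f (m - k) (d - x) * Real.exp (s * d) := by
    rw [Finset.sum_comm (s := Finset.range m), ← Finset.sum_add_distrib]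
    unfold luN
    refine Finset.sum_congr rfl fun d _ => ?_
    have := hrec m d
    change uu f m d = _ at this
    rw [this, add_mul, Finset.sum_mul]
    congr 1
    refine Finset.sum_congr rfl fun k _ => ?_
    rw [Finset.sum_mul]
    rfl
  rw [h1]
  apply add_le_add
  · rw [Finset.sum_eq_single_of_mem (0 : ℤ) (by rw [Finset.mem_Icc]; omega)]
    · unfold dl
      split_ifs <;> simp_all
    · intro b _ hb
      unfold dl
      rw [if_neg (by tauto), zero_mul]
  · refine Finset.sum_le_sum fun k hk => ?_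
    have hk' : k < m := Finset.mem_range.1 hk
    have hcast : ((m - k : ℕ) : ℤ) = (m : ℤ) - k := by rw [Nat.cast_sub hk'.le]
    -- restrict the inner sum
    have h2 : ∀ d : ℤ, ∑ x ∈ Finset.Icc (d - ((m : ℤ) - k)) (d + ((m : ℤ) - k)),
          uu f k x * f (m - k) (d - x) * Real.exp (s * d) ≤
        ∑ x ∈ Finset.Icc (-(k : ℤ)) k, uu f k x * f (m - k) (d - x) * Real.exp (s * d) := by
      intro d
      refine lu_sum_le _ _ _ (fun x _ => mul_nonneg (mul_nonneg (uu_nonneg hf _ _)
        (hf.nonneg _ _)) (Real.exp_pos _).le) ?_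
      intro x _ hne
      have : uu f k x ≠ 0 := fun h => hne (by rw [h]; ring)
      have := (uu_supp hf this).1
      rw [abs_le] at this
      exact Finset.mem_Icc.2 this
    refine (Finset.sum_le_sum fun d _ => h2 d).trans ?_
    rw [Finset.sum_comm]
    unfold luN
    rw [Finset.sum_mul]
    refine Finset.sum_le_sum fun x _ => ?_
    have h3 : ∑ d ∈ Finset.Icc (-(m : ℤ)) m, uu f k x * f (m - k) (d - x) * Real.exp (s * d)
        = uu f k x * Real.exp (s * x) *
          ∑ d ∈ Finset.Icc (-(m : ℤ)) m, f (m - k) (d - x) * Real.exp (s * ((d - x : ℤ) : ℝ)) := by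
      rw [Finset.mul_sum]
      refine Finset.sum_congr rfl fun d _ => ?_
      have : Real.exp (s * d) = Real.exp (s * x) * Real.exp (s * ((d - x : ℤ) : ℝ)) := by
        rw [← Real.exp_add]; congr 1; push_cast; ring
      rw [this]; ring
    rw [h3]
    apply mul_le_mul_of_nonneg_left _ (mul_nonneg (uu_nonneg hf _ _) (Real.exp_pos _).le)
    unfold luPhi
    have h4 : ∑ d ∈ Finset.Icc (-(m : ℤ)) m, f (m - k) (d - x) * Real.exp (s * ((d - x : ℤ) : ℝ))
        = ∑ e ∈ Finset.image (fun d => d - x) (Finset.Icc (-(m : ℤ)) m),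
          f (m - k) e * Real.exp (s * e) := by
      rw [Finset.sum_image]
      intro a _ b _ hab
      simpa using hab
    rw [h4]
    refine lu_sum_le _ _ _ (fun e _ => mul_nonneg (hf.nonneg _ _) (Real.exp_pos _).le) ?_
    intro e _ hne
    have : f (m - k) e ≠ 0 := fun h => hne (by rw [h]; ring)
    have := (hf.supp _ _ this).2.1
    rw [abs_le] at this
    exact Finset.mem_Icc.2 this

lemma lu_kernel_sum {f : ℕ → ℤ → ℝ} (hf : FreeLaw f) (C s : ℝ) (hC0 : 0 < C) (δ : ℝ) (hδ : 0 < δ)
    (hA : Summable (fun p : ℕ × ℤ => f p.1 p.2 * ((p.1 : ℝ) ^ 2 * Real.exp (δ / 2 * p.1))))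
    (hAC : 2 * ∑' p : ℕ × ℤ, f p.1 p.2 * ((p.1 : ℝ) ^ 2 * Real.exp (δ / 2 * p.1)) ≤ C)
    (hs1 : |s| ≤ δ / 2) (hs2 : C * s ^ 2 ≤ 1 / 2) (n : ℕ) :
    ∑ j ∈ Finset.range (n + 1), luPhi f s j * Real.exp (-(C * s ^ 2 * j)) ≤ 1 := by
  have hterm : ∀ p : ℕ × ℤ, f p.1 p.2 * Real.cosh (s * p.2) * Real.exp (-(C * s ^ 2 * p.1)) ≤
      f p.1 p.2 * (1 - C * s ^ 2 / 2) +
        s ^ 2 * (f p.1 p.2 * ((p.1 : ℝ) ^ 2 * Real.exp (δ / 2 * p.1))) := by
    rintro ⟨j, d⟩
    simp only
    by_cases hne : f j d = 0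
    · rw [hne]; simp
    · obtain ⟨hj, hd, -⟩ := hf.supp j d hne
      have hj' : (1 : ℝ) ≤ j := by exact_mod_cast hj
      have hd' : |(d : ℝ)| ≤ j := by
        have : ((|d| : ℤ) : ℝ) ≤ ((j : ℤ) : ℝ) := by exact_mod_cast hd
        simpa using this
      have h1 : Real.cosh (s * d) - 1 ≤ s ^ 2 * ((j : ℝ) ^ 2 * Real.exp (δ / 2 * j)) := by
        refine (lu_cosh_le _).trans ?_
        rw [mul_pow, mul_assoc]
        apply mul_le_mul_of_nonneg_left _ (sq_nonneg s)
        apply mul_le_mul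
        · rw [← sq_abs]; exact pow_le_pow_left₀ (abs_nonneg _) hd' 2
        · apply Real.exp_le_exp.2
          rw [abs_mul]
          exact mul_le_mul hs1 hd' (abs_nonneg _) (by positivity)
        · positivity
        · positivity
      have h2 : Real.exp (-(C * s ^ 2 * j)) ≤ 1 - C * s ^ 2 / 2 := by
        have h3 : Real.exp (-(C * s ^ 2 * j)) ≤ Real.exp (-(C * s ^ 2)) := by
          apply Real.exp_le_exp.2
          have : 0 ≤ C * s ^ 2 := by positivity
          nlinarith
        refine h3.trans ?_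
        have h4 := Real.abs_exp_sub_one_sub_id_le (x := -(C * s ^ 2))
          (by rw [abs_neg, abs_of_nonneg (by positivity)]; linarith)
        have h5 := (abs_le.1 h4).2
        have : 0 ≤ C * s ^ 2 := by positivity
        nlinarith
      have h6 : Real.exp (-(C * s ^ 2 * j)) ≤ 1 := by
        apply Real.exp_le_one_iff.2
        have : 0 ≤ C * s ^ 2 * j := by positivity
        linarith
      have h7 : 0 < Real.exp (-(C * s ^ 2 * j)) := Real.exp_pos _
      have h8 : 1 ≤ Real.cosh (s * d) := Real.one_le_cosh _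
      have h9 : Real.cosh (s * d) * Real.exp (-(C * s ^ 2 * j)) ≤
          (1 - C * s ^ 2 / 2) + s ^ 2 * ((j : ℝ) ^ 2 * Real.exp (δ / 2 * j)) := by
        nlinarith
      have := mul_le_mul_of_nonneg_left h9 (hf.nonneg j d)
      linarith
  have hbd : ∀ j ∈ Finset.range (n + 1), luPhi f s j * Real.exp (-(C * s ^ 2 * j)) ≤
      ∑ d ∈ Finset.Icc (-(n : ℤ)) n,
        f j d * Real.cosh (s * d) * Real.exp (-(C * s ^ 2 * j)) := by
    intro j hj
    have hj' : j ≤ n := by rw [Finset.mem_range] at hj; omega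
    rw [luPhi_eq hf, Finset.sum_mul]
    apply Finset.sum_le_sum_of_subset_of_nonneg
    · intro d hd
      rw [Finset.mem_Icc] at hd ⊢
      omega
    · intro d _ _
      exact mul_nonneg (mul_nonneg (hf.nonneg _ _) (Real.cosh_pos _).le) (Real.exp_pos _).le
  refine (Finset.sum_le_sum hbd).trans ?_
  rw [← Finset.sum_product' (Finset.range (n + 1)) (Finset.Icc (-(n : ℤ)) n)
    (fun j d => f j d * Real.cosh (s * d) * Real.exp (-(C * s ^ 2 * j)))]
  have hS1 : HasSum (fun p : ℕ × ℤ => f p.1 p.2 * (1 - C * s ^ 2 / 2)) (1 * (1 - C * s ^ 2 / 2)) :=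
    hf.total.mul_right _
  have hS := hS1.add (hA.hasSum.mul_left (s ^ 2))
  have hnn : ∀ p : ℕ × ℤ, 0 ≤ f p.1 p.2 * (1 - C * s ^ 2 / 2) +
        s ^ 2 * (f p.1 p.2 * ((p.1 : ℝ) ^ 2 * Real.exp (δ / 2 * p.1))) := by
    intro p
    have h1 := hf.nonneg p.1 p.2
    have h2 : 0 ≤ 1 - C * s ^ 2 / 2 := by linarith
    positivity
  refine (Finset.sum_le_sum fun p _ => hterm p).trans ?_
  refine (sum_le_hasSum _ (fun p _ => hnn p) hS).trans ?_
  have : 0 ≤ s ^ 2 := sq_nonneg s
  nlinarith

lemma lu_moment_bound {f : ℕ → ℤ → ℝ} (hf : FreeLaw f) : ∃ C s₀, 0 < C ∧ 0 < s₀ ∧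
    ∀ s, |s| ≤ s₀ → ∀ m, luN f s m ≤ Real.exp (C * s ^ 2 * m) := by

  obtain ⟨δ, hδ, hsum⟩ := hf.tail
  -- second moment with exponential weight
  have hA : Summable (fun p : ℕ × ℤ => f p.1 p.2 * ((p.1 : ℝ) ^ 2 * Real.exp (δ / 2 * p.1))) := by
    refine Summable.of_nonneg_of_le (fun p => mul_nonneg (hf.nonneg _ _) (by positivity))
      (fun p => ?_) (hsum.mul_left (8 / δ ^ 2))
    have h1 : (p.1 : ℝ) ^ 2 ≤ 8 / δ ^ 2 * Real.exp (δ / 2 * p.1) := by
      have h2 := Real.pow_div_factorial_le_exp (δ / 2 * p.1) (by positivity) 2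
      have h3 : (δ / 2 * (p.1 : ℝ)) ^ 2 / (Nat.factorial 2 : ℝ) = (p.1 : ℝ) ^ 2 * (δ ^ 2 / 8) := by
        simp [Nat.factorial]; ring
      rw [h3] at h2
      rw [div_mul_eq_mul_div, le_div_iff₀ (by positivity)]
      linarith
    have h4 : Real.exp (δ / 2 * p.1) * Real.exp (δ / 2 * p.1) = Real.exp (δ * p.1) := by
      rw [← Real.exp_add]; congr 1; ring
    calc f p.1 p.2 * ((p.1 : ℝ) ^ 2 * Real.exp (δ / 2 * p.1))
        ≤ f p.1 p.2 * (8 / δ ^ 2 * Real.exp (δ / 2 * p.1) * Real.exp (δ / 2 * p.1)) := by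
          apply mul_le_mul_of_nonneg_left _ (hf.nonneg _ _)
          exact mul_le_mul_of_nonneg_right h1 (Real.exp_pos _).le
      _ = _ := by rw [mul_assoc (8 / δ ^ 2), h4]; ring
  set A := ∑' p : ℕ × ℤ, f p.1 p.2 * ((p.1 : ℝ) ^ 2 * Real.exp (δ / 2 * p.1)) with hAdef
  have hA0 : 0 ≤ A := tsum_nonneg fun p => mul_nonneg (hf.nonneg _ _) (by positivity)
  set C := 2 * A + 1 with hC
  have hC0 : 0 < C := by linarith
  refine ⟨C, min (δ / 2) (Real.sqrt (1 / (2 * C))), hC0, lt_min (by positivity) (by positivity), ?_⟩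
  intro s hs
  have hs1 : |s| ≤ δ / 2 := hs.trans (min_le_left _ _)
  have hs2 : C * s ^ 2 ≤ 1 / 2 := by
    have h1 : |s| ≤ Real.sqrt (1 / (2 * C)) := hs.trans (min_le_right _ _)
    have h2 : s ^ 2 ≤ 1 / (2 * C) := by
      rw [← sq_abs, ← Real.sq_sqrt (by positivity : 0 ≤ 1 / (2 * C))]
      exact pow_le_pow_left₀ (abs_nonneg _) h1 2
    rw [le_div_iff₀ (by positivity)] at h2
    linarith
  -- sum of the kernel
  have hker : ∀ n : ℕ, ∑ j ∈ Finset.range (n + 1), luPhi f s j * Real.exp (-(C * s ^ 2 * j)) ≤ 1 := by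
    intro n
    exact lu_kernel_sum hf C s hC0 δ hδ hA (by linarith) hs1 hs2 n
  intro m
  induction m using Nat.strong_induction_on with
  | _ m ih =>
    refine (luN_rec hf s m).trans ?_
    rcases Nat.eq_zero_or_pos m with rfl | hm
    · simp
    · rw [if_neg hm.ne', zero_add]
      calc ∑ k ∈ Finset.range m, luN f s k * luPhi f s (m - k)
          ≤ ∑ k ∈ Finset.range m, Real.exp (C * s ^ 2 * k) * luPhi f s (m - k) :=
            Finset.sum_le_sum fun k hk =>
              mul_le_mul_of_nonneg_right (ih k (Finset.mem_range.1 hk)) (luPhi_nonneg hf _ _)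
        _ = Real.exp (C * s ^ 2 * m) * ∑ k ∈ Finset.range m,
              luPhi f s (m - k) * Real.exp (-(C * s ^ 2 * ((m - k : ℕ) : ℝ))) := by
            rw [Finset.mul_sum]
            refine Finset.sum_congr rfl fun k hk => ?_
            have : Real.exp (C * s ^ 2 * k) =
                Real.exp (C * s ^ 2 * m) * Real.exp (-(C * s ^ 2 * ((m - k : ℕ) : ℝ))) := by
              rw [← Real.exp_add, Nat.cast_sub (Finset.mem_range.1 hk).le]
              congr 1; ring
            rw [this]; ring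
        _ ≤ Real.exp (C * s ^ 2 * m) * 1 := by
            apply mul_le_mul_of_nonneg_left _ (Real.exp_pos _).le
            refine le_trans ?_ (hker m)
            have h5 : ∑ k ∈ Finset.range m,
                luPhi f s (m - k) * Real.exp (-(C * s ^ 2 * ((m - k : ℕ) : ℝ))) =
                ∑ j ∈ Finset.image (fun k => m - k) (Finset.range m),
                  luPhi f s j * Real.exp (-(C * s ^ 2 * j)) := by
              rw [Finset.sum_image]
              intro a ha b hb hab
              have ha' := Finset.mem_range.1 ha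
              have hb' := Finset.mem_range.1 hb
              simp only at hab
              omega
            rw [h5]
            apply Finset.sum_le_sum_of_subset_of_nonneg
            · intro j hj
              rw [Finset.mem_image] at hj
              obtain ⟨k, _, rfl⟩ := hj
              rw [Finset.mem_range]; omega
            · intro j _ _
              exact mul_nonneg (luPhi_nonneg hf _ _) (Real.exp_pos _).le
        _ = _ := mul_one _


lemma lu_tail {f : ℕ → ℤ → ℝ} (hf : FreeLaw f) {C s₀ : ℝ} (hC : 0 < C)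
    (hM : ∀ s, |s| ≤ s₀ → ∀ m, luN f s m ≤ Real.exp (C * s ^ 2 * m)) {κ : ℝ} (hκ : 0 < κ)
    (hκs : κ ≤ s₀) (hκC : C * κ ≤ 1 / 2) (m : ℕ) (d : ℤ) (hd0 : 0 ≤ d) (hdm : d ≤ m) :
    ∑ e ∈ Finset.Icc d m, uu f m e ≤ Real.exp (-(κ / 2 * (d : ℝ) ^ 2 / (m + 1))) := by
  have hm1 : (0 : ℝ) < m + 1 := by positivity
  have hd0' : (0 : ℝ) ≤ d := by exact_mod_cast hd0
  have hdm' : (d : ℝ) ≤ m := by exact_mod_cast hdm
  set s := κ * d / (m + 1) with hs
  have hs0 : 0 ≤ s := by positivity
  have hsle : |s| ≤ s₀ := by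
    rw [abs_of_nonneg hs0]
    refine le_trans ?_ hκs
    rw [hs, div_le_iff₀ hm1]
    nlinarith
  have h1 : Real.exp (s * d) * ∑ e ∈ Finset.Icc d m, uu f m e ≤ luN f s m := by
    unfold luN
    rw [Finset.mul_sum]
    calc ∑ e ∈ Finset.Icc d m, Real.exp (s * d) * uu f m e
        ≤ ∑ e ∈ Finset.Icc d m, uu f m e * Real.exp (s * e) := by
          refine Finset.sum_le_sum fun e he => ?_
          rw [mul_comm]
          apply mul_le_mul_of_nonneg_left _ (uu_nonneg hf _ _)
          apply Real.exp_le_exp.2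
          apply mul_le_mul_of_nonneg_left _ hs0
          exact_mod_cast (Finset.mem_Icc.1 he).1
      _ ≤ _ := by
          apply Finset.sum_le_sum_of_subset_of_nonneg
          · intro e he
            rw [Finset.mem_Icc] at he ⊢
            omega
          · intro e _ _
            exact mul_nonneg (uu_nonneg hf _ _) (Real.exp_pos _).le
  have h2 := h1.trans (hM s hsle m)
  have h3 : ∑ e ∈ Finset.Icc d m, uu f m e ≤ Real.exp (C * s ^ 2 * m) * Real.exp (-(s * d)) := by
    rw [Real.exp_neg, ← div_eq_mul_inv, le_div_iff₀ (Real.exp_pos _), mul_comm]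
    exact h2
  refine h3.trans ?_
  rw [← Real.exp_add]
  apply Real.exp_le_exp.2
  have h4 : C * s ^ 2 * m ≤ κ / 2 * (d : ℝ) ^ 2 / (m + 1) := by
    rw [hs, div_pow, mul_pow]
    have h5 : C * (κ ^ 2 * (d : ℝ) ^ 2 / ((m : ℝ) + 1) ^ 2) * m =
        (C * κ) * κ * (d : ℝ) ^ 2 / (m + 1) * (m / (m + 1)) := by
      field_simp
    rw [h5]
    have h6 : (m : ℝ) / (m + 1) ≤ 1 := by
      rw [div_le_one hm1]; linarith
    have h7 : 0 ≤ (C * κ) * κ * (d : ℝ) ^ 2 / (m + 1) := by positivity
    calc (C * κ) * κ * (d : ℝ) ^ 2 / (m + 1) * (m / (m + 1))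
        ≤ (C * κ) * κ * (d : ℝ) ^ 2 / (m + 1) * 1 := mul_le_mul_of_nonneg_left h6 h7
      _ = (C * κ) * (κ * (d : ℝ) ^ 2 / (m + 1)) := by ring
      _ ≤ 1 / 2 * (κ * (d : ℝ) ^ 2 / (m + 1)) := mul_le_mul_of_nonneg_right hκC (by positivity)
      _ = _ := by ring
  have h8 : s * d = κ * (d : ℝ) ^ 2 / (m + 1) := by rw [hs]; ring
  have h9 : κ / 2 * (d : ℝ) ^ 2 / (m + 1) = κ * (d : ℝ) ^ 2 / (m + 1) / 2 := by ring
  rw [h8]
  rw [h9] at h4 ⊢
  linarith

theorem uu_gauss {f : ℕ → ℤ → ℝ} (hf : FreeLaw f) : ∃ K c, 0 < K ∧ 0 < c ∧ ∀ (m : ℕ) (d : ℤ),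
    uu f m d ≤ K / Real.sqrt (m + 1) * Real.exp (-(c * (d : ℝ) ^ 2 / (m + 1))) := by
  obtain ⟨C, s₀, hC, hs₀, hM⟩ := lu_moment_bound hf
  obtain ⟨K, hK, hdiff⟩ := uu_diff hf
  set κ := min s₀ (1 / (2 * C)) with hκdef
  have hκ : 0 < κ := lt_min hs₀ (by positivity)
  have hκs : κ ≤ s₀ := min_le_left _ _
  have hκC : C * κ ≤ 1 / 2 := by
    have : κ ≤ 1 / (2 * C) := min_le_right _ _
    calc C * κ ≤ C * (1 / (2 * C)) := mul_le_mul_of_nonneg_left this hC.le
      _ = 1 / 2 := by field_simp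
  refine ⟨2 * Real.sqrt K, κ / 4, by positivity, by positivity, ?_⟩
  have main : ∀ (m : ℕ) (d : ℤ), 0 ≤ d →
      uu f m d ≤ 2 * Real.sqrt K / Real.sqrt (m + 1) * Real.exp (-(κ / 4 * (d : ℝ) ^ 2 / (m + 1))) := by
    intro m d hd0
    have hm1 : (0 : ℝ) < m + 1 := by positivity
    by_cases hdm : d ≤ m
    swap
    · have : uu f m d = 0 := by
        by_contra hne
        have := (uu_supp hf hne).1
        rw [abs_le] at this
        omega
      rw [this]; positivity
    have htail := lu_tail hf hC hM hκ hκs hκC m d hd0 hdm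
    set v := uu f m d with hv
    have hv0 : 0 ≤ v := uu_nonneg hf m d
    -- neighbours
    have hnb : ∀ i : ℕ, v - i * (K / (m + 1)) ≤ uu f m (d + 2 * i) := by
      intro i
      induction i with
      | zero => simp [hv]
      | succ i ih =>
        have h1 := hdiff m (d + 2 * i + 1) 1
        have e1 : d + 2 * (i : ℤ) + 1 - 1 = d + 2 * i := by ring
        have e2 : d + 2 * (i : ℤ) + 1 + 1 = d + 2 * ((i + 1 : ℕ) : ℤ) := by push_cast; ring
        rw [e1, e2] at h1
        have h2 := (abs_le.1 h1).2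
        simp only [Int.cast_one, abs_one, mul_one] at h2
        push_cast at h2 ⊢
        linarith
    set I := ⌊v * (m + 1) / (2 * K)⌋₊ + 1 with hI
    have hIge : v * (m + 1) / (2 * K) ≤ I := by
      rw [hI]; push_cast; exact (Nat.lt_floor_add_one _).le
    have hlow : ∀ i ∈ Finset.range I, v / 2 ≤ uu f m (d + 2 * i) := by
      intro i hi
      rw [Finset.mem_range, hI] at hi
      have h1 : (i : ℝ) ≤ v * (m + 1) / (2 * K) := by
        have h2 : (i : ℝ) ≤ (⌊v * (m + 1) / (2 * K)⌋₊ : ℝ) := by exact_mod_cast Nat.lt_succ_iff.1 hi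
        exact h2.trans (Nat.floor_le (by positivity))
      refine le_trans ?_ (hnb i)
      have h3 : (i : ℝ) * (K / (m + 1)) ≤ v * (m + 1) / (2 * K) * (K / (m + 1)) :=
        mul_le_mul_of_nonneg_right h1 (by positivity)
      have h4 : v * (m + 1) / (2 * K) * (K / (m + 1)) = v / 2 := by field_simp
      linarith
    have hsum : (I : ℝ) * (v / 2) ≤ ∑ e ∈ Finset.Icc d m, uu f m e := by
      calc (I : ℝ) * (v / 2) = ∑ i ∈ Finset.range I, v / 2 := by
            rw [Finset.sum_const, Finset.card_range, nsmul_eq_mul]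
        _ ≤ ∑ i ∈ Finset.range I, uu f m (d + 2 * i) := Finset.sum_le_sum hlow
        _ = ∑ e ∈ Finset.image (fun i : ℕ => d + 2 * (i : ℤ)) (Finset.range I), uu f m e := by
            rw [Finset.sum_image]
            intro a _ b _ hab
            simp only at hab
            omega
        _ ≤ _ := by
            refine lu_sum_le _ _ _ (fun e _ => uu_nonneg hf _ _) ?_
            intro e he hne
            rw [Finset.mem_image] at he
            obtain ⟨i, _, rfl⟩ := he
            have := (uu_supp hf hne).1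
            rw [abs_le] at this
            rw [Finset.mem_Icc]
            omega
    have hsq : v ^ 2 ≤ 4 * K / (m + 1) * Real.exp (-(κ / 2 * (d : ℝ) ^ 2 / (m + 1))) := by
      have h1 : v * (m + 1) / (2 * K) * (v / 2) ≤ Real.exp (-(κ / 2 * (d : ℝ) ^ 2 / (m + 1))) :=
        (mul_le_mul_of_nonneg_right hIge (by positivity)).trans (hsum.trans htail)
      have h2 : v * (m + 1) / (2 * K) * (v / 2) = v ^ 2 * ((m + 1) / (4 * K)) := by
        field_simp; ring
      rw [h2] at h1
      calc v ^ 2 = v ^ 2 * ((m + 1) / (4 * K)) * (4 * K / (m + 1)) := by field_simp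
        _ ≤ Real.exp (-(κ / 2 * (d : ℝ) ^ 2 / (m + 1))) * (4 * K / (m + 1)) :=
          mul_le_mul_of_nonneg_right h1 (by positivity)
        _ = _ := by ring
    have hw : (2 * Real.sqrt K / Real.sqrt (m + 1) *
        Real.exp (-(κ / 4 * (d : ℝ) ^ 2 / (m + 1)))) ^ 2 =
        4 * K / (m + 1) * Real.exp (-(κ / 2 * (d : ℝ) ^ 2 / (m + 1))) := by
      rw [mul_pow, div_pow, mul_pow, Real.sq_sqrt hK.le, Real.sq_sqrt hm1.le, ← Real.exp_nat_mul]
      congr 1
      · ring
      · congr 1; push_cast; ring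
    rw [← hw] at hsq
    exact (sq_le_sq₀ hv0 (by positivity)).1 hsq
  intro m d
  rcases le_total 0 d with hd | hd
  · exact main m d hd
  · have h1 := main m (-d) (by omega)
    rw [uu_symm hf] at h1
    push_cast at h1
    rw [neg_sq] at h1
    exact h1



lemma lu_gauss_int {b : ℝ} (hb : 0 < b) : Integrable (fun x : ℝ => Real.exp (-(b * x ^ 2))) := by
  have := integrable_exp_neg_mul_sq hb
  simpa only [neg_mul] using this

lemma lu_gauss_cos {b : ℝ} (hb : 0 < b) (t : ℝ) :
    ∫ x : ℝ, Real.cos (t * x) * Real.exp (-(b * x ^ 2)) =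
      Real.sqrt (Real.pi / b) * Real.exp (-(t ^ 2 / (4 * b))) := by
  have h := fourierIntegral_gaussian (b := (b : ℂ)) (by simpa using hb) (t : ℂ)
  have h1 : (Real.pi / b : ℂ) ^ (1 / 2 : ℂ) * Complex.exp (-(t : ℂ) ^ 2 / (4 * b)) =
      ((Real.sqrt (Real.pi / b) * Real.exp (-(t ^ 2 / (4 * b))) : ℝ) : ℂ) := by
    rw [Real.sqrt_eq_rpow]
    push_cast
    rw [Complex.ofReal_cpow (by positivity)]
    push_cast
    congr 2
    ring
  rw [h1] at h
  have h2 := congrArg Complex.re h
  rw [Complex.ofReal_re] at h2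
  rw [← h2]
  have hint : Integrable (fun x : ℝ => Complex.exp (Complex.I * t * x) * Complex.exp (-(b : ℂ) * x ^ 2)) := by
    refine (lu_gauss_int hb).mono' (by fun_prop) (Eventually.of_forall fun x => ?_)
    rw [norm_mul]
    have e1 : ‖Complex.exp (Complex.I * t * x)‖ = 1 := by
      rw [show Complex.I * t * x = ((t * x : ℝ) : ℂ) * Complex.I by push_cast; ring]
      exact Complex.norm_exp_ofReal_mul_I _
    have e2 : ‖Complex.exp (-(b : ℂ) * x ^ 2)‖ = Real.exp (-(b * x ^ 2)) := by
      rw [show -(b : ℂ) * x ^ 2 = ((-(b * x ^ 2) : ℝ) : ℂ) by push_cast; ring, ← Complex.ofReal_exp,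
        Complex.norm_real, Real.norm_eq_abs, Real.abs_exp]
    rw [e1, e2, one_mul]
  have h3 := integral_re hint
  rw [← Complex.reCLM_apply] 
  rw [← Complex.reCLM.integral_comp_comm hint]
  refine integral_congr_ae (Eventually.of_forall fun x => ?_)
  simp only [Complex.reCLM_apply]
  rw [show Complex.I * t * x = ((t * x : ℝ) : ℂ) * Complex.I by push_cast; ring,
    show -(b : ℂ) * x ^ 2 = ((-(b * x ^ 2) : ℝ) : ℂ) by push_cast; ring, ← Complex.ofReal_exp,
    Complex.exp_mul_I, ← Complex.ofReal_cos, ← Complex.ofReal_sin]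
  simp only [Complex.add_re, Complex.mul_re, Complex.ofReal_re, Complex.ofReal_im, Complex.I_re,
    Complex.I_im, Complex.add_im, Complex.mul_im]
  ring

lemma lu_gauss_sin {v : ℝ} (hv : 0 < v) (t : ℝ) :
    ∫ x : ℝ, Real.exp (-(v * x ^ 2 / 2)) * (Real.sin (x * t) * x) =
      t / v * (Real.sqrt (2 * Real.pi / v) * Real.exp (-(t ^ 2 / (2 * v)))) := by
  have hb : 0 < v / 2 := by positivity
  have hE : ∀ x : ℝ, Real.exp (-(v * x ^ 2 / 2)) = Real.exp (-(v / 2 * x ^ 2)) := fun x => by
    congr 1; ring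
  have hd1 : ∀ x : ℝ, HasDerivAt (fun x : ℝ => Real.sin (x * t)) (Real.cos (x * t) * t) x := by
    intro x
    have := ((hasDerivAt_id x).mul_const t).sin
    simp only [id_eq, one_mul] at this
    exact this
  have hd2 : ∀ x : ℝ, HasDerivAt (fun x : ℝ => Real.exp (-(v / 2 * x ^ 2)))
      (Real.exp (-(v / 2 * x ^ 2)) * (-(v * x))) x := by
    intro x
    have h : HasDerivAt (fun x : ℝ => -(v / 2 * x ^ 2)) (-(v * x)) x := by
      have h0 := (((hasDerivAt_id x).pow 2).const_mul (-(v / 2)))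
      refine (h0.congr_deriv ?_).congr_of_eventuallyEq (Eventually.of_forall fun y => ?_)
      · simp; ring
      · simp
    exact h.exp
  have hi0 : Integrable (fun x : ℝ => x * Real.exp (-(v / 2 * x ^ 2))) := by
    have := integrable_mul_exp_neg_mul_sq hb
    simpa only [neg_mul] using this
  have h1 := integral_mul_deriv_eq_deriv_mul_of_integrable
    (u := fun x : ℝ => Real.sin (x * t)) (u' := fun x => Real.cos (x * t) * t)
    (v := fun x : ℝ => Real.exp (-(v / 2 * x ^ 2)))
    (v' := fun x => Real.exp (-(v / 2 * x ^ 2)) * (-(v * x)))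
    (fun x _ => hd1 x) (fun x _ => hd2 x)
    (by
      refine ((hi0.const_mul v).norm).mono' (by fun_prop) (Eventually.of_forall fun x => ?_)
      simp only [Pi.mul_apply, norm_mul, norm_neg, Real.norm_eq_abs]
      have h3 : |Real.sin (x * t)| ≤ 1 := Real.abs_sin_le_one _
      have h4 : 0 ≤ |Real.exp (-(v / 2 * x ^ 2))| * (|v| * |x|) := by positivity
      nlinarith)
    (by
      refine (((lu_gauss_int hb).const_mul |t|)).mono' (by fun_prop)
        (Eventually.of_forall fun x => ?_)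
      simp only [Pi.mul_apply, norm_mul, Real.norm_eq_abs, Real.abs_exp]
      have h3 : |Real.cos (x * t)| ≤ 1 := Real.abs_cos_le_one _
      have h4 : 0 ≤ |t| * Real.exp (-(v / 2 * x ^ 2)) := by positivity
      nlinarith)
    (by
      refine ((lu_gauss_int hb)).mono' (by fun_prop) (Eventually.of_forall fun x => ?_)
      simp only [Pi.mul_apply, norm_mul, Real.norm_eq_abs, Real.abs_exp]
      have h3 : |Real.sin (x * t)| ≤ 1 := Real.abs_sin_le_one _
      have h4 : 0 ≤ Real.exp (-(v / 2 * x ^ 2)) := by positivity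
      nlinarith)
  have h2 : ∫ x : ℝ, Real.sin (x * t) * (Real.exp (-(v / 2 * x ^ 2)) * (-(v * x))) =
      -v * ∫ x : ℝ, Real.exp (-(v * x ^ 2 / 2)) * (Real.sin (x * t) * x) := by
    rw [← integral_const_mul]
    congr 1
    ext x
    rw [hE]; ring
  have h3 : ∫ x : ℝ, Real.cos (x * t) * t * Real.exp (-(v / 2 * x ^ 2)) =
      t * (Real.sqrt (2 * Real.pi / v) * Real.exp (-(t ^ 2 / (2 * v)))) := by
    have h4 := lu_gauss_cos hb t
    have e1 : Real.pi / (v / 2) = 2 * Real.pi / v := by field_simp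
    have e2 : t ^ 2 / (4 * (v / 2)) = t ^ 2 / (2 * v) := by field_simp; ring
    rw [e1, e2] at h4
    rw [← h4, ← integral_const_mul]
    congr 1
    ext x
    rw [mul_comm x t]; ring
  rw [h2, h3] at h1
  rw [div_mul_eq_mul_div, eq_div_iff hv.ne']
  linarith

theorem uu_diff_lim {f : ℕ → ℤ → ℝ} (hf : FreeLaw f) : ∃ C, 0 < C ∧ ∀ (t : ℝ), 0 < t → ∀ (z : ℤ)
    (m : ℕ → ℕ) (y : ℕ → ℤ), Tendsto m atTop atTop →
    (∀ᶠ k in atTop, Even ((m k : ℤ) + y k + z)) →
    Tendsto (fun k => (y k : ℝ) / Real.sqrt (m k)) atTop (𝓝 t) →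
    Tendsto (fun k => (m k : ℝ) * (uu f (m k) (y k - z) - uu f (m k) (y k + z))) atTop
      (𝓝 (C * z * (t * Real.exp (-(t ^ 2 / (2 * var f)))))) := by
  obtain ⟨K, c, hK, hc, hb⟩ := UU_bound hf
  have hmean := mean_pos hf
  have hvar := var_pos hf
  refine ⟨2 / Real.pi * (1 / mean f) * (1 / var f * Real.sqrt (2 * Real.pi / var f)), by positivity,
    ?_⟩
  intro t ht z m y hm hpar hy
  have hmR : Tendsto (fun k => (m k : ℝ)) atTop atTop := tendsto_natCast_atTop_atTop.comp hm
  have hsq : Tendsto (fun k => Real.sqrt (m k)) atTop atTop := Real.tendsto_sqrt_atTop.comp hmR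
  have hsqpos : ∀ᶠ k in atTop, 0 < Real.sqrt (m k) := hsq.eventually_gt_atTop 0
  -- the integrand
  set H : ℕ → ℝ → ℝ := fun k => Set.indicator (Set.Ioc (-(Real.pi / 2)) (Real.pi / 2))
    (fun θ => UU f θ (m k) * (Real.sin (θ * y k) * Real.sin (θ * z))) with hH
  have hpi : -(Real.pi / 2) ≤ Real.pi / 2 := by linarith [Real.pi_pos]
  have hHint : ∀ k, ∫ θ in (-(Real.pi / 2))..(Real.pi / 2),
      UU f θ (m k) * (Real.sin (θ * y k) * Real.sin (θ * z)) = ∫ θ, H k θ := by
    intro k
    rw [intervalIntegral.integral_of_le hpi, hH, integral_indicator measurableSet_Ioc]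
  set G : ℕ → ℝ → ℝ := fun k φ => Real.sqrt (m k) * H k (φ / Real.sqrt (m k)) with hG
  have hGint : ∀ᶠ k in atTop, (m k : ℝ) * (uu f (m k) (y k - z) - uu f (m k) (y k + z)) =
      2 / Real.pi * ∫ φ, G k φ := by
    filter_upwards [hpar, hsqpos] with k hk hs
    rw [lu_diff_eq hf _ _ _ hk, hHint, hG]
    rw [integral_const_mul, MeasureTheory.Measure.integral_comp_div (H k), abs_of_pos hs,
      smul_eq_mul, ← mul_assoc (Real.sqrt (m k)), Real.mul_self_sqrt (Nat.cast_nonneg _)]
    ring
  have hlim : Tendsto (fun k => ∫ φ, G k φ) atTop (𝓝 (∫ φ : ℝ,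
      1 / mean f * z * (Real.exp (-(var f * φ ^ 2 / 2)) * (Real.sin (φ * t) * φ)))) := by
    apply tendsto_integral_filter_of_dominated_convergence
      (fun φ => K * |(z : ℝ)| * (|φ| * Real.exp (-(c * φ ^ 2))))
    · refine Eventually.of_forall fun k => ?_
      apply Measurable.aestronglyMeasurable
      apply Measurable.const_mul
      apply Measurable.comp (g := H k)
      · apply Measurable.indicator _ measurableSet_Ioc
        exact ((lu_cont f (m k)).mul (by fun_prop)).measurable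
      · fun_prop
    · filter_upwards [hsqpos] with k hs
      refine Eventually.of_forall fun φ => ?_
      simp only [hG, hH, Set.indicator_apply]
      split_ifs with hmem
      · have hθ' : |φ / Real.sqrt (m k)| ≤ Real.pi / 2 := abs_le.2 ⟨hmem.1.le, hmem.2⟩
        have h2 := hb (m k) _ hθ'
        have h3 : |Real.sin (φ / Real.sqrt (m k) * y k)| ≤ 1 := Real.abs_sin_le_one _
        have h4 : |Real.sin (φ / Real.sqrt (m k) * z)| ≤ |φ| / Real.sqrt (m k) * |(z : ℝ)| := by
          refine Real.abs_sin_le_abs.trans ?_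
          rw [abs_mul, abs_div, abs_of_pos hs]
        have h5 : c * (φ / Real.sqrt (m k)) ^ 2 * (m k) = c * φ ^ 2 := by
          rw [div_pow, Real.sq_sqrt (Nat.cast_nonneg _)]
          have : (m k : ℝ) ≠ 0 := by
            intro h0
            rw [h0, Real.sqrt_zero] at hs
            exact lt_irrefl _ hs
          field_simp
        rw [h5] at h2
        rw [norm_mul, norm_mul, norm_mul]
        simp only [Real.norm_eq_abs]
        rw [abs_of_pos hs]
        calc Real.sqrt (m k) * (|UU f (φ / Real.sqrt (m k)) (m k)| *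
              (|Real.sin (φ / Real.sqrt (m k) * y k)| * |Real.sin (φ / Real.sqrt (m k) * z)|))
            ≤ Real.sqrt (m k) * ((K * Real.exp (-(c * φ ^ 2))) *
              (1 * (|φ| / Real.sqrt (m k) * |(z : ℝ)|))) := by
              gcongr
          _ = _ := by field_simp
      · rw [mul_zero, norm_zero]; positivity
    · exact (lu_int_abs hc).const_mul _
    · refine Eventually.of_forall fun φ => ?_
      have hθ : Tendsto (fun k => φ / Real.sqrt (m k) * Real.sqrt (m k)) atTop (𝓝 φ) := by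
        refine tendsto_const_nhds.congr' ?_
        filter_upwards [hsqpos] with k hs
        field_simp
      have hU := UU_lim hf hm hθ
      have hs1 : Tendsto (fun k => Real.sin (φ / Real.sqrt (m k) * y k)) atTop
          (𝓝 (Real.sin (φ * t))) := by
        have : Tendsto (fun k => φ * ((y k : ℝ) / Real.sqrt (m k))) atTop (𝓝 (φ * t)) :=
          hy.const_mul φ
        have h2 := (Real.continuous_sin.tendsto (φ * t)).comp this
        refine h2.congr fun k => ?_
        simp only [Function.comp_apply]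
        congr 1; ring
      have hs2 : Tendsto (fun k => Real.sqrt (m k) * Real.sin (φ / Real.sqrt (m k) * z)) atTop
          (𝓝 (φ * z)) := by
        have h1 : Tendsto (fun k => φ * z * (Real.sqrt (m k))⁻¹) atTop (𝓝 (φ * z * 0)) :=
          (tendsto_inv_atTop_zero.comp hsq).const_mul _
        rw [mul_zero] at h1
        have h2 : Tendsto (fun k => φ * z * Real.sinc (φ * z * (Real.sqrt (m k))⁻¹)) atTop
            (𝓝 (φ * z * Real.sinc 0)) :=
          ((Real.continuous_sinc.tendsto 0).comp h1).const_mul _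
        rw [Real.sinc_zero, mul_one] at h2
        refine h2.congr' ?_
        filter_upwards [hsqpos] with k hs
        by_cases h0 : φ * (z : ℝ) = 0
        · rw [h0, zero_mul]
          have : φ / Real.sqrt (m k) * z = 0 := by
            rw [div_mul_eq_mul_div, h0, zero_div]
          rw [this, Real.sin_zero, mul_zero]
        · have hne : φ * z * (Real.sqrt (m k))⁻¹ ≠ 0 := mul_ne_zero h0 (inv_ne_zero hs.ne')
          rw [Real.sinc_of_ne_zero hne]
          have e1 : φ / Real.sqrt (m k) * z = φ * z * (Real.sqrt (m k))⁻¹ := by ring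
          rw [e1, ← mul_div_assoc, mul_div_mul_left _ _ h0, div_inv_eq_mul, mul_comm]
      have hmem : ∀ᶠ k in atTop, φ / Real.sqrt (m k) ∈ Set.Ioc (-(Real.pi / 2)) (Real.pi / 2) := by
        have h1 : Tendsto (fun k => φ / Real.sqrt (m k)) atTop (𝓝 0) := by
          have := (tendsto_inv_atTop_zero.comp hsq).const_mul φ
          rw [mul_zero] at this
          exact this.congr fun k => by simp [div_eq_mul_inv]
        exact h1.eventually (Ioc_mem_nhds (by linarith [Real.pi_pos]) (by linarith [Real.pi_pos]))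
      have hall := (hU.mul (hs1.mul hs2))
      have e : 1 / mean f * Real.exp (-(var f * φ ^ 2 / 2)) * (Real.sin (φ * t) * (φ * z)) =
          1 / mean f * z * (Real.exp (-(var f * φ ^ 2 / 2)) * (Real.sin (φ * t) * φ)) := by ring
      rw [e] at hall
      refine hall.congr' ?_
      filter_upwards [hmem] with k hk
      simp only [hG, hH, Set.indicator_of_mem hk]
      ring
  rw [integral_const_mul, lu_gauss_sin hvar] at hlim
  have hfin := hlim.const_mul (2 / Real.pi)
  have e : 2 / Real.pi * (1 / mean f * z * (t / var f *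
      (Real.sqrt (2 * Real.pi / var f) * Real.exp (-(t ^ 2 / (2 * var f)))))) =
      2 / Real.pi * (1 / mean f) * (1 / var f * Real.sqrt (2 * Real.pi / var f)) * z *
        (t * Real.exp (-(t ^ 2 / (2 * var f)))) := by ring
  rw [e] at hfin
  refine hfin.congr' ?_
  filter_upwards [hGint] with k hk
  exact hk.symm

end Pool.Agent.SAPX
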