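import Pool.Agent.SAPX.KDefs
import Pool.Agent.SAPX.LocalU

/-!
Cycle lemma inequality for strictly positive renewal walks.
-/

namespace Pool.Agent.SAPX

open Filter Topology

/-- weight of the walks with exactly `j` blocks -/
noncomputable def Fr (g : ℕ → ℤ → ℤ → ℝ) : ℕ → ℕ → ℤ → ℝ
  | 0 => dl 0 0
  | j + 1 => fun m y => ∑ k ∈ Finset.range m,
    ∑ x ∈ Finset.Icc (y - ((m : ℤ) - k)) (y + ((m : ℤ) - k)), Fr g j k x * g (m - k) x y

lemma Fr_zero_of_lt (g : ℕ → ℤ → ℤ → ℝ) (j : ℕ) : ∀ m y, m < j → Fr g j m y = 0 := by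
  induction j with
  | zero => intro m y h; omega
  | succ j ih =>
    intro m y h
    unfold Fr
    refine Finset.sum_eq_zero fun k hk => Finset.sum_eq_zero fun x _ => ?_
    rw [ih k x (by have := Finset.mem_range.1 hk; omega), zero_mul]

lemma occ_eq_sum_Fr (g : ℕ → ℤ → ℤ → ℝ) (m : ℕ) (y : ℤ) :
    occ g (dl 0 0) m y = ∑ j ∈ Finset.range (m + 1), Fr g j m y := by
  have h : Rec g (dl 0 0) (fun m y => ∑ j ∈ Finset.range (m + 1), Fr g j m y) := by
    intro m y
    show (∑ j ∈ Finset.range (m + 1), Fr g j m y) = _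
    rw [Finset.sum_range_succ', add_comm]
    congr 1
    have h1 : ∀ k ∈ Finset.range m, ∀ x, (∑ j ∈ Finset.range (k + 1), Fr g j k x) =
        ∑ j ∈ Finset.range m, Fr g j k x := by
      intro k hk x
      have hk' := Finset.mem_range.1 hk
      refine Finset.sum_subset (fun a ha => Finset.mem_range.2 ?_) fun a _ ha => ?_
      · have := Finset.mem_range.1 ha; omega
      · refine Fr_zero_of_lt g a k x ?_
        rw [Finset.mem_range] at ha; omega
    have h2 : ∀ k ∈ Finset.range m, ∀ x,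
        (fun m y => ∑ j ∈ Finset.range (m + 1), Fr g j m y) k x * g (m - k) x y =
        ∑ j ∈ Finset.range m, Fr g j k x * g (m - k) x y := by
      intro k hk x
      show (∑ j ∈ Finset.range (k + 1), Fr g j k x) * _ = _
      rw [h1 k hk x, Finset.sum_mul]
    rw [Finset.sum_congr rfl (fun k hk => Finset.sum_congr rfl (fun x _ => h2 k hk x))]
    rw [Finset.sum_congr rfl (fun k _ => Finset.sum_comm), Finset.sum_comm]
    rfl
  exact congrFun (congrFun ((rec_occ g (dl 0 0)).unique h) m) y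

/-- kernel of the walk which has to stay in `Q` -/
noncomputable def gQ (Q : ℤ → Prop) (f : ℕ → ℤ → ℝ) (m : ℕ) (x y : ℤ) : ℝ :=
  open scoped Classical in if Q y then f m (y - x) else 0

section paths

variable {α : Type}

/-- height of the step number `t` -/
def htc (h : α → ℤ) {j : ℕ} (s : Fin j → α) (t : ℕ) : ℤ := if htc : t < j then h (s ⟨t, htc⟩) else 0

/-- partial sums -/
def ps (h : α → ℤ) {j : ℕ} (s : Fin j → α) (i : ℕ) : ℤ := ∑ t ∈ Finset.range i, htc h s t

lemma ps_total (h : α → ℤ) {j : ℕ} (s : Fin j → α) : ps h s j = ∑ t, h (s t) := by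
  unfold ps
  rw [Finset.sum_range]
  refine Finset.sum_congr rfl fun t _ => ?_
  unfold htc
  rw [dif_pos t.2]

lemma ht_snoc_lt (h : α → ℤ) {j : ℕ} (s : Fin j → α) (a : α) {t : ℕ} (ht' : t < j) :
    htc h (Fin.snoc (α := fun _ => α) s a : Fin (j + 1) → α) t = htc h s t := by
  unfold htc
  rw [dif_pos (by omega), dif_pos ht']
  have : (⟨t, by omega⟩ : Fin (j + 1)) = Fin.castSucc ⟨t, ht'⟩ := rfl
  rw [this, Fin.snoc_castSucc]

lemma ps_snoc_le (h : α → ℤ) {j : ℕ} (s : Fin j → α) (a : α) {i : ℕ} (hi : i ≤ j) :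
    ps h (Fin.snoc (α := fun _ => α) s a : Fin (j + 1) → α) i = ps h s i := by
  unfold ps
  refine Finset.sum_congr rfl fun t ht' => ht_snoc_lt h s a ?_
  have := Finset.mem_range.1 ht'
  omega

/-- all the partial sums are in `Q` -/
def Gd (Q : ℤ → Prop) (h : α → ℤ) {j : ℕ} (s : Fin j → α) : Prop :=
  ∀ i, 1 ≤ i → i ≤ j → Q (ps h s i)

lemma Gd_snoc (Q : ℤ → Prop) (h : α → ℤ) {j : ℕ} (s : Fin j → α) (a : α) :
    Gd Q h (Fin.snoc (α := fun _ => α) s a : Fin (j + 1) → α) ↔
      Gd Q h s ∧ Q ((∑ t, h (s t)) + h a) := by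
  have h1 : ps h (Fin.snoc (α := fun _ => α) s a : Fin (j + 1) → α) (j + 1) =
      (∑ t, h (s t)) + h a := by
    rw [ps_total, Fin.sum_univ_castSucc]
    simp
  constructor
  · intro H
    refine ⟨fun i hi hij => ?_, ?_⟩
    · rw [← ps_snoc_le h s a hij]
      exact H i hi (by omega)
    · rw [← h1]
      exact H (j + 1) (by omega) le_rfl
  · rintro ⟨H1, H2⟩ i hi hij
    rcases Nat.lt_or_ge i (j + 1) with h2 | h2
    · rw [ps_snoc_le h s a (by omega)]
      exact H1 i hi (by omega)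
    · have : i = j + 1 := by omega
      rw [this, h1]
      exact H2

/-- steps of length at most `M` -/
abbrev St (M : ℕ) : Type := {p : ℕ × ℤ // p ∈ (Finset.range (M + 1)) ×ˢ (Finset.Icc (-(M : ℤ)) M)}

/-- weight of a list of steps -/
noncomputable def wtc (f : ℕ → ℤ → ℝ) {M j : ℕ} (s : Fin j → St M) : ℝ :=
  ∏ t, f (s t).1.1 (s t).1.2

lemma step_sum {f : ℕ → ℤ → ℝ} (hf : FreeLaw f) {M m : ℕ} (hm : m ≤ M) (y : ℤ) (a : ℕ) (b : ℤ) :
    (∑ p : St M, if a + p.1.1 = m ∧ b + p.1.2 = y then f p.1.1 p.1.2 else 0) =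
      if a < m ∧ b ∈ Finset.Icc (y - ((m : ℤ) - a)) (y + ((m : ℤ) - a)) then f (m - a) (y - b)
        else 0 := by
  simp only [Finset.mem_Icc]
  split_ifs with h
  · obtain ⟨h1, h2, h3⟩ := h
    have hmem : ((m - a, y - b) : ℕ × ℤ) ∈
        (Finset.range (M + 1)) ×ˢ (Finset.Icc (-(M : ℤ)) M) := by
      rw [Finset.mem_product, Finset.mem_range, Finset.mem_Icc]
      refine ⟨by simp only; omega, by simp only; omega, by simp only; omega⟩
    rw [Finset.sum_eq_single (⟨(m - a, y - b), hmem⟩ : St M)]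
    · rw [if_pos]
      refine ⟨by simp only; omega, by simp only; omega⟩
    · rintro ⟨⟨l, d⟩, hp⟩ _ hne
      rw [if_neg]
      rintro ⟨h4, h5⟩
      apply hne
      apply Subtype.ext
      simp only at h4 h5 ⊢
      ext <;> simp only <;> omega
    · intro h; exact absurd (Finset.mem_univ _) h
  · refine Finset.sum_eq_zero fun p _ => ?_
    split_ifs with h1
    · by_contra h2
      have h3 := hf.supp _ _ h2
      have h4 := abs_le.1 h3.2.1
      apply h
      refine ⟨by omega, by omega, by omega⟩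
    · rfl

open scoped Classical in
lemma Fr_eq_paths {f : ℕ → ℤ → ℝ} (hf : FreeLaw f) (Q : ℤ → Prop) (M : ℕ) (j : ℕ) :
    ∀ m y, m ≤ M → Fr (gQ Q f) j m y = ∑ s : Fin j → St M,
      if (∑ t, (s t).1.1 = m ∧ ∑ t, (s t).1.2 = y) ∧ Gd Q (fun p : St M => p.1.2) s
        then wtc f s else 0 := by
  induction j with
  | zero =>
    intro m y _
    have : ∀ s : Fin 0 → St M, (if (∑ t, (s t).1.1 = m ∧ ∑ t, (s t).1.2 = y) ∧
        Gd Q (fun p : St M => p.1.2) s then wtc f s else 0) = if m = 0 ∧ y = 0 then (1 : ℝ) else 0 := by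
      intro s
      have h1 : Gd Q (fun p : St M => p.1.2) s := fun i h1 h2 => by omega
      simp only [Finset.univ_eq_empty, Finset.sum_empty, h1, and_true, wtc, Finset.prod_empty]
      exact if_congr ⟨fun h => ⟨h.1.symm, h.2.symm⟩, fun h => ⟨h.1.symm, h.2.symm⟩⟩ rfl rfl
    rw [Finset.sum_congr rfl (fun s _ => this s)]
    simp [Fr, dl]
  | succ j ih =>
    intro m y hm
    rw [← (Fin.snocEquiv (fun _ => St M)).sum_comp, Fintype.sum_prod_type, Finset.sum_comm]
    unfold Fr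
    have h1 : ∀ k ∈ Finset.range m, ∀ x, Fr (gQ Q f) j k x * gQ Q f (m - k) x y =
        ∑ s : Fin j → St M, (if (∑ t, (s t).1.1 = k ∧ ∑ t, (s t).1.2 = x) ∧
          Gd Q (fun p : St M => p.1.2) s then wtc f s * gQ Q f (m - k) x y else 0) := by
      intro k hk x
      rw [ih k x (by have := Finset.mem_range.1 hk; omega), Finset.sum_mul]
      refine Finset.sum_congr rfl fun s _ => ?_
      rw [ite_mul, zero_mul]
    rw [Finset.sum_congr rfl (fun k hk => Finset.sum_congr rfl (fun x _ => h1 k hk x))]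
    rw [Finset.sum_congr rfl (fun k _ => Finset.sum_comm), Finset.sum_comm]
    refine Finset.sum_congr rfl fun s _ => ?_
    have h2 : ∀ a : St M, (Fin.snocEquiv (fun _ => St M)) (a, s) =
        (Fin.snoc (α := fun _ => St M) s a : Fin (j + 1) → St M) := fun a => rfl
    have h3 : ∀ a : St M, (if (∑ t, ((Fin.snocEquiv (fun _ => St M)) (a, s) t).1.1 = m ∧
        ∑ t, ((Fin.snocEquiv (fun _ => St M)) (a, s) t).1.2 = y) ∧
          Gd Q (fun p : St M => p.1.2) ((Fin.snocEquiv (fun _ => St M)) (a, s))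
        then wtc f ((Fin.snocEquiv (fun _ => St M)) (a, s)) else 0) =
        if Gd Q (fun p : St M => p.1.2) s ∧ Q y then wtc f s *
          (if (∑ t, (s t).1.1) + a.1.1 = m ∧ (∑ t, (s t).1.2) + a.1.2 = y then f a.1.1 a.1.2
            else 0) else 0 := by
      intro a
      rw [h2, Gd_snoc]
      have e1 : ∑ t, ((Fin.snoc (α := fun _ => St M) s a : Fin (j + 1) → St M) t).1.1 =
          (∑ t, (s t).1.1) + a.1.1 := by rw [Fin.sum_univ_castSucc]; simp
      have e2 : ∑ t, ((Fin.snoc (α := fun _ => St M) s a : Fin (j + 1) → St M) t).1.2 =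
          (∑ t, (s t).1.2) + a.1.2 := by rw [Fin.sum_univ_castSucc]; simp
      have e3 : wtc f (Fin.snoc (α := fun _ => St M) s a : Fin (j + 1) → St M) =
          wtc f s * f a.1.1 a.1.2 := by unfold wtc; rw [Fin.prod_univ_castSucc]; simp
      rw [e1, e2, e3]
      by_cases c1 : (∑ t, (s t).1.1) + a.1.1 = m ∧ (∑ t, (s t).1.2) + a.1.2 = y
      · rw [if_pos c1]
        simp only [c1, true_and]
      · rw [if_neg c1]
        rw [if_neg (fun h => c1 h.1)]
        simp
    rw [Finset.sum_congr rfl (fun a _ => h3 a)]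
    by_cases c : Gd Q (fun p : St M => p.1.2) s ∧ Q y
    · rw [Finset.sum_congr rfl (fun a _ => if_pos c), ← Finset.mul_sum, step_sum hf hm]
      set A := ∑ t, (s t).1.1 with hA
      set B := ∑ t, (s t).1.2 with hB
      by_cases c2 : A < m ∧ B ∈ Finset.Icc (y - ((m : ℤ) - A)) (y + ((m : ℤ) - A))
      · rw [if_pos c2, Finset.sum_eq_single A, Finset.sum_eq_single B]
        · rw [if_pos ⟨⟨rfl, rfl⟩, c.1⟩]
          unfold gQ
          rw [if_pos c.2]
        · intro x _ hx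
          rw [if_neg]
          rintro ⟨⟨_, h4⟩, _⟩
          exact hx h4.symm
        · intro h; exact absurd c2.2 h
        · intro k _ hk
          refine Finset.sum_eq_zero fun x _ => ?_
          rw [if_neg]
          rintro ⟨⟨h4, _⟩, _⟩
          exact hk h4.symm
        · intro h; exact absurd (Finset.mem_range.2 c2.1) h
      · rw [if_neg c2, mul_zero]
        refine Finset.sum_eq_zero fun k hk => Finset.sum_eq_zero fun x hx => ?_
        rw [if_neg]
        rintro ⟨⟨h4, h5⟩, _⟩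
        apply c2
        rw [h4, h5]
        exact ⟨Finset.mem_range.1 hk, hx⟩
    · rw [Finset.sum_congr rfl (fun a _ => if_neg c), Finset.sum_const_zero]
      refine Finset.sum_eq_zero fun k hk => Finset.sum_eq_zero fun x hx => ?_
      split_ifs with h4
      · have h5 : ¬ Q y := fun h6 => c ⟨h4.2, h6⟩
        unfold gQ
        rw [if_neg h5, mul_zero]
      · rfl

end paths

section cycle

variable {α : Type} {n : ℕ}

/-- reduction modulo `n + 1` -/
def fc (n t : ℕ) : Fin (n + 1) := ⟨t % (n + 1), Nat.mod_lt _ (Nat.succ_pos n)⟩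

/-- periodic height function -/
def HH (h : α → ℤ) (s : Fin (n + 1) → α) (i : ℕ) : ℤ :=
  ∑ t ∈ Finset.range i, h (s (fc n t))

/-- rotation -/
def rot (r : Fin (n + 1)) (s : Fin (n + 1) → α) : Fin (n + 1) → α := fun t => s (t + r)

lemma fc_lt (t : ℕ) (htc : t < n + 1) : fc n t = ⟨t, htc⟩ := by
  apply Fin.ext
  show t % (n + 1) = t
  rw [Nat.mod_eq_of_lt htc]

lemma fc_add (r : Fin (n + 1)) (t : ℕ) (htc : t < n + 1) : fc n (r.val + t) = ⟨t, htc⟩ + r := by
  apply Fin.ext
  show (r.val + t) % (n + 1) = (t + r.val) % (n + 1)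
  rw [add_comm r.val t]

lemma ps_rot (h : α → ℤ) (s : Fin (n + 1) → α) (r : Fin (n + 1)) {i : ℕ} (hi : i ≤ n + 1) :
    ps h (rot r s) i = HH h s (r.val + i) - HH h s r.val := by
  unfold HH
  rw [Finset.sum_range_add, add_sub_cancel_left]
  unfold ps
  refine Finset.sum_congr rfl fun t ht' => ?_
  have ht2 : t < n + 1 := by have := Finset.mem_range.1 ht'; omega
  unfold htc rot
  rw [dif_pos ht2, fc_add r t ht2]

lemma HH_total (h : α → ℤ) (s : Fin (n + 1) → α) : HH h s (n + 1) = ∑ t, h (s t) := by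
  unfold HH
  rw [Finset.sum_range]
  refine Finset.sum_congr rfl fun t _ => ?_
  rw [fc_lt t.val t.2]

lemma HH_period (h : α → ℤ) (s : Fin (n + 1) → α) (i : ℕ) :
    HH h s (i + (n + 1)) = HH h s i + ∑ t, h (s t) := by
  rw [← HH_total, add_comm i]
  unfold HH
  rw [Finset.sum_range_add, add_comm]
  congr 1
  refine Finset.sum_congr rfl fun t _ => ?_
  congr 2
  apply Fin.ext
  show (n + 1 + t) % (n + 1) = t % (n + 1)
  rw [Nat.add_mod_left]

open scoped Classical in
/-- cycle lemma inequality -/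
lemma card_good (h : α → ℤ) (s : Fin (n + 1) → α) {y : ℤ} (hy : ∑ t, h (s t) = y) :
    ((Finset.univ.filter (fun r : Fin (n + 1) => Gd (fun z => 0 < z) h (rot r s))).card : ℤ) ≤
      max y 0 := by
  set G := Finset.univ.filter (fun r : Fin (n + 1) => Gd (fun z => 0 < z) h (rot r s)) with hG
  rcases G.eq_empty_or_nonempty with h0 | h0
  · rw [h0]; simp
  have key : ∀ r ∈ G, ∀ r' ∈ G, r < r' → HH h s r.val < HH h s r'.val ∧
      HH h s r'.val < HH h s r.val + y := by
    intro r hr r' hr' hlt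
    have h1 : Gd (fun z => 0 < z) h (rot r s) := (Finset.mem_filter.1 hr).2
    have h2 : Gd (fun z => 0 < z) h (rot r' s) := (Finset.mem_filter.1 hr').2
    have hlt' : r.val < r'.val := hlt
    have hr1 := r'.2
    have a1 := h1 (r'.val - r.val) (by omega) (by omega)
    rw [ps_rot h s r (by omega), show r.val + (r'.val - r.val) = r'.val by omega] at a1
    have a2 := h2 (n + 1 - (r'.val - r.val)) (by omega) (by omega)
    rw [ps_rot h s r' (by omega),
      show r'.val + (n + 1 - (r'.val - r.val)) = r.val + (n + 1) by omega, HH_period, hy] at a2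
    constructor
    · linarith
    · linarith
  set r0 := G.min' h0 with hr0
  have hr0G : r0 ∈ G := G.min'_mem h0
  have hypos : 0 < y := by
    have h1 : Gd (fun z => 0 < z) h (rot r0 s) := (Finset.mem_filter.1 hr0G).2
    have a2 := h1 (n + 1) (by omega) le_rfl
    rw [ps_rot h s r0 le_rfl, HH_period, hy] at a2
    linarith
  have h3 : G.card ≤ (Finset.Ico (HH h s r0.val) (HH h s r0.val + y)).card := by
    apply Finset.card_le_card_of_injOn (fun r => HH h s r.val)
    · intro r hr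
      rw [Finset.mem_coe] at hr
      rw [Finset.coe_Ico, Set.mem_Ico]
      rcases (G.min'_le r hr).eq_or_lt with h4 | h4
      · rw [← h4]
        exact ⟨le_rfl, by show HH h s r0.val < _; linarith⟩
      · have := key r0 hr0G r hr h4
        exact ⟨this.1.le, this.2⟩
    · intro r hr r' hr' heq
      rw [Finset.mem_coe] at hr hr'
      rcases lt_trichotomy r r' with h4 | h4 | h4
      · have := (key r hr r' hr' h4).1
        simp only at heq
        omega
      · exact h4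
      · have := (key r' hr' r hr h4).1
        simp only at heq
        omega
  rw [Int.card_Ico] at h3
  have h5 : (G.card : ℤ) ≤ ((HH h s r0.val + y - HH h s r0.val).toNat : ℤ) := by exact_mod_cast h3
  rw [add_sub_cancel_left, Int.toNat_of_nonneg hypos.le] at h5
  exact h5.trans (le_max_left _ _)

end cycle

lemma wt_nonneg {f : ℕ → ℤ → ℝ} (hf : FreeLaw f) {M j : ℕ} (s : Fin j → St M) : 0 ≤ wtc f s :=
  Finset.prod_nonneg fun t _ => hf.nonneg _ _

lemma cycle_ineq {f : ℕ → ℤ → ℝ} (hf : FreeLaw f) (n m : ℕ) {y : ℤ} (hy : 0 < y) :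
    ((n : ℝ) + 1) * Fr (gQ (fun z => 0 < z) f) (n + 1) m y ≤
      y * Fr (gQ (fun _ => True) f) (n + 1) m y := by
  classical
  rw [Fr_eq_paths hf _ m (n + 1) m y le_rfl, Fr_eq_paths hf _ m (n + 1) m y le_rfl]
  have hrot : ∀ r : Fin (n + 1), (∑ s : Fin (n + 1) → St m,
      if (∑ t, (s t).1.1 = m ∧ ∑ t, (s t).1.2 = y) ∧ Gd (fun z => 0 < z) (fun p : St m => p.1.2) s
        then wtc f s else 0) = ∑ s : Fin (n + 1) → St m,
      if (∑ t, (s t).1.1 = m ∧ ∑ t, (s t).1.2 = y) ∧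
        Gd (fun z => 0 < z) (fun p : St m => p.1.2) (rot r s) then wtc f s else 0 := by
    intro r
    rw [← (Equiv.arrowCongr (Equiv.addRight r) (Equiv.refl (St m))).symm.sum_comp]
    refine Finset.sum_congr rfl fun s _ => ?_
    have h1 : (Equiv.arrowCongr (Equiv.addRight r) (Equiv.refl (St m))).symm s = rot r s := rfl
    rw [h1]
    have h2 : ∑ t, (rot r s t).1.1 = ∑ t, (s t).1.1 :=
      Equiv.sum_comp (Equiv.addRight r) (fun t => (s t).1.1)
    have h3 : ∑ t, (rot r s t).1.2 = ∑ t, (s t).1.2 :=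
      Equiv.sum_comp (Equiv.addRight r) (fun t => (s t).1.2)
    have h4 : wtc f (rot r s) = wtc f s :=
      Equiv.prod_comp (Equiv.addRight r) (fun t => f (s t).1.1 (s t).1.2)
    rw [h2, h3, h4]
  have h5 : ((n : ℝ) + 1) * (∑ s : Fin (n + 1) → St m,
      if (∑ t, (s t).1.1 = m ∧ ∑ t, (s t).1.2 = y) ∧ Gd (fun z => 0 < z) (fun p : St m => p.1.2) s
        then wtc f s else 0) = ∑ r : Fin (n + 1), ∑ s : Fin (n + 1) → St m,
      if (∑ t, (s t).1.1 = m ∧ ∑ t, (s t).1.2 = y) ∧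
        Gd (fun z => 0 < z) (fun p : St m => p.1.2) (rot r s) then wtc f s else 0 := by
    rw [Finset.sum_congr rfl (fun r _ => (hrot r).symm), Finset.sum_const, Finset.card_univ,
      Fintype.card_fin, nsmul_eq_mul]
    push_cast
    ring
  rw [h5, Finset.sum_comm, Finset.mul_sum]
  refine Finset.sum_le_sum fun s _ => ?_
  by_cases c : ∑ t, (s t).1.1 = m ∧ ∑ t, (s t).1.2 = y
  · have hT : Gd (fun _ => True) (fun p : St m => p.1.2) s := fun _ _ _ => trivial
    rw [if_pos ⟨c, hT⟩]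
    have h6 : ∀ r : Fin (n + 1), (if (∑ t, (s t).1.1 = m ∧ ∑ t, (s t).1.2 = y) ∧
        Gd (fun z => 0 < z) (fun p : St m => p.1.2) (rot r s) then wtc f s else 0) =
        (if Gd (fun z => 0 < z) (fun p : St m => p.1.2) (rot r s) then 1 else 0) * wtc f s := by
      intro r
      by_cases c2 : Gd (fun z => 0 < z) (fun p : St m => p.1.2) (rot r s)
      · rw [if_pos ⟨c, c2⟩, if_pos c2, one_mul]
      · rw [if_neg (fun h => c2 h.2), if_neg c2, zero_mul]
    rw [Finset.sum_congr rfl (fun r _ => h6 r), ← Finset.sum_mul]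
    refine mul_le_mul_of_nonneg_right ?_ (wt_nonneg hf s)
    rw [Finset.sum_boole]
    have h7 := card_good (fun p : St m => p.1.2) s c.2
    rw [max_eq_left hy.le] at h7
    exact_mod_cast h7
  · rw [if_neg (fun h => c h.1), mul_zero]
    refine le_of_eq (Finset.sum_eq_zero fun r _ => if_neg (fun h => c h.1))

lemma gQ_nonneg {f : ℕ → ℤ → ℝ} (hf : FreeLaw f) (Q : ℤ → Prop) (m : ℕ) (x y : ℤ) :
    0 ≤ gQ Q f m x y := by
  unfold gQ
  split_ifs
  · exact hf.nonneg _ _
  · exact le_rfl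

lemma gQ_le {f : ℕ → ℤ → ℝ} (hf : FreeLaw f) (Q : ℤ → Prop) (m : ℕ) (x y : ℤ) :
    gQ Q f m x y ≤ gQ (fun _ => True) f m x y := by
  unfold gQ
  rw [if_pos trivial]
  split_ifs
  · exact le_rfl
  · exact hf.nonneg _ _

lemma Fr_nonneg {f : ℕ → ℤ → ℝ} (hf : FreeLaw f) (Q : ℤ → Prop) (j : ℕ) :
    ∀ m y, 0 ≤ Fr (gQ Q f) j m y := by
  induction j with
  | zero =>
    intro m y
    show 0 ≤ dl 0 0 m y
    unfold dl
    split_ifs <;> norm_num
  | succ j ih =>
    intro m y
    exact Finset.sum_nonneg fun k _ => Finset.sum_nonneg fun x _ =>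
      mul_nonneg (ih _ _) (gQ_nonneg hf Q _ _ _)

lemma Fr_mono {f : ℕ → ℤ → ℝ} (hf : FreeLaw f) (Q : ℤ → Prop) (j : ℕ) :
    ∀ m y, Fr (gQ Q f) j m y ≤ Fr (gQ (fun _ => True) f) j m y := by
  induction j with
  | zero => intro m y; exact le_rfl
  | succ j ih =>
    intro m y
    exact Finset.sum_le_sum fun k _ => Finset.sum_le_sum fun x _ =>
      mul_le_mul (ih _ _) (gQ_le hf Q _ _ _) (gQ_nonneg hf Q _ _ _) (Fr_nonneg hf _ _ _ _)

lemma Fr_exp {f : ℕ → ℤ → ℝ} (hf : FreeLaw f) {δ : ℝ}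
    (hs : Summable (fun p : ℕ × ℤ => f p.1 p.2 * Real.exp (δ * p.1))) (j : ℕ) :
    ∀ (m : ℕ) (y : ℤ), Fr (gQ (fun _ => True) f) j m y ≤
      Real.exp (-(δ * m)) * (∑' p : ℕ × ℤ, f p.1 p.2 * Real.exp (δ * p.1)) ^ j := by
  have hG0 : 0 ≤ ∑' p : ℕ × ℤ, f p.1 p.2 * Real.exp (δ * p.1) :=
    tsum_nonneg fun p => mul_nonneg (hf.nonneg _ _) (Real.exp_pos _).le
  set G := ∑' p : ℕ × ℤ, f p.1 p.2 * Real.exp (δ * p.1) with hG
  induction j with
  | zero =>
    intro m y
    show dl 0 0 m y ≤ _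
    unfold dl
    split_ifs with h
    · rw [h.1]; simp
    · positivity
  | succ j ih =>
    intro m y
    have h1 : Fr (gQ (fun _ => True) f) (j + 1) m y ≤ ∑ k ∈ Finset.range m,
        ∑ x ∈ Finset.Icc (y - ((m : ℤ) - k)) (y + ((m : ℤ) - k)),
          Real.exp (-(δ * m)) * G ^ j * (f (m - k) (y - x) * Real.exp (δ * ((m - k : ℕ) : ℝ))) := by
      refine Finset.sum_le_sum fun k hk => Finset.sum_le_sum fun x _ => ?_
      have hk' : k ≤ m := (Finset.mem_range.1 hk).le
      have h2 : gQ (fun _ => True) f (m - k) x y = f (m - k) (y - x) := by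
        unfold gQ; rw [if_pos trivial]
      rw [h2]
      have h3 := mul_le_mul_of_nonneg_right (ih k x) (hf.nonneg (m - k) (y - x))
      refine h3.trans (le_of_eq ?_)
      rw [Nat.cast_sub hk']
      have h4 : Real.exp (-(δ * k)) = Real.exp (-(δ * m)) * Real.exp (δ * ((m : ℝ) - k)) := by
        rw [← Real.exp_add]; congr 1; ring
      rw [h4]; ring
    refine h1.trans ?_
    rw [Finset.sum_congr rfl (fun k _ => (Finset.mul_sum _ _ _).symm), ← Finset.mul_sum, pow_succ,
      ← mul_assoc]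
    refine mul_le_mul_of_nonneg_left ?_ (by positivity)
    rw [Finset.sum_sigma']
    have h5 : Set.InjOn (fun q : (Σ _ : ℕ, ℤ) => ((m - q.1, y - q.2) : ℕ × ℤ))
        ((Finset.range m).sigma (fun k => Finset.Icc (y - ((m : ℤ) - k)) (y + ((m : ℤ) - k))) :
          Finset (Σ _ : ℕ, ℤ)) := by
      rintro ⟨a, b⟩ h ⟨a', b'⟩ h' heq
      rw [Finset.mem_coe, Finset.mem_sigma, Finset.mem_range] at h h'
      simp only [Prod.mk.injEq] at heq h h'
      have e1 : a = a' := by omega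
      have e2 : b = b' := by omega
      rw [e1, e2]
    have h6 : ∑ q ∈ (Finset.range m).sigma
        (fun k => Finset.Icc (y - ((m : ℤ) - k)) (y + ((m : ℤ) - k))),
          f (m - q.1) (y - q.2) * Real.exp (δ * ((m - q.1 : ℕ) : ℝ)) =
        ∑ p ∈ ((Finset.range m).sigma
          (fun k => Finset.Icc (y - ((m : ℤ) - k)) (y + ((m : ℤ) - k)))).image
          (fun q : (Σ _ : ℕ, ℤ) => ((m - q.1, y - q.2) : ℕ × ℤ)),
          f p.1 p.2 * Real.exp (δ * p.1) := by
      rw [Finset.sum_image h5]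
    rw [h6]
    exact hs.sum_le_tsum _ (fun p _ => mul_nonneg (hf.nonneg _ _) (Real.exp_pos _).le)

/-- walk that stays strictly positive after its start -/
noncomputable def gpos (f : ℕ → ℤ → ℝ) (m : ℕ) (x y : ℤ) : ℝ := if 0 < y then f m (y - x) else 0

lemma gpos_eq (f : ℕ → ℤ → ℝ) : gpos f = gQ (fun z => 0 < z) f := by
  funext m x y
  unfold gpos gQ
  by_cases h : 0 < y
  · rw [if_pos h, if_pos h]
  · rw [if_neg h, if_neg h]

lemma free_eq (f : ℕ → ℤ → ℝ) : free f = gQ (fun _ => True) f := by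
  funext m x y
  unfold free gQ
  rw [if_pos trivial]

theorem pos_bound {f : ℕ → ℤ → ℝ} (hf : FreeLaw f) : ∃ K c, 0 < K ∧ 0 < c ∧ ∀ (m : ℕ) (d : ℤ),
    0 < d → occ (gpos f) (dl 0 0) m d ≤
      K * d / ((m : ℝ) + 1) ^ (3 / 2 : ℝ) * Real.exp (-(c * (d : ℝ) ^ 2 / (m + 1))) := by
  obtain ⟨K1, c1, hK1, hc1, hu⟩ := uu_gauss hf
  obtain ⟨δ, hδ, hs⟩ := hf.tail
  set G := ∑' p : ℕ × ℤ, f p.1 p.2 * Real.exp (δ * p.1) with hG
  have hG1 : 1 ≤ G := by
    rw [← hf.total.tsum_eq]
    refine hf.total.summable.tsum_le_tsum (fun p => ?_) hs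
    have h1 : 1 ≤ Real.exp (δ * p.1) := Real.one_le_exp (by positivity)
    exact le_mul_of_one_le_right (hf.nonneg _ _) h1
  have hL : 0 ≤ Real.log G := Real.log_nonneg hG1
  set c0 := δ / (2 * (Real.log G + 1)) with hc0
  have hc0p : 0 < c0 := by positivity
  have hc0L : c0 * Real.log G ≤ δ / 2 := by
    rw [hc0, div_mul_eq_mul_div, div_le_div_iff₀ (by positivity) (by norm_num)]
    nlinarith
  set K2 := 6 * (4 / δ) ^ 3 * Real.exp (δ / 4) with hK2
  have hK2p : 0 < K2 := by positivity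
  refine ⟨2 * K1 / c0 + K2, min c1 (δ / 4), by positivity, lt_min hc1 (by positivity), ?_⟩
  intro m d hd
  set c := min c1 (δ / 4) with hc
  have hdR : (1 : ℝ) ≤ d := by exact_mod_cast hd
  have hRHS : 0 ≤ (2 * K1 / c0 + K2) * d / ((m : ℝ) + 1) ^ (3 / 2 : ℝ) *
      Real.exp (-(c * (d : ℝ) ^ 2 / (m + 1))) := by positivity
  have hPu : occ (gpos f) (dl 0 0) m d ≤ uu f m d := by
    unfold uu
    rw [occ_eq_sum_Fr, occ_eq_sum_Fr, gpos_eq, free_eq]
    exact Finset.sum_le_sum fun j _ => Fr_mono hf _ _ _ _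
  by_cases hdm : (m : ℤ) < d
  · have h0 : uu f m d = 0 := by
      by_contra h
      have := (uu_supp hf h).1
      rw [abs_of_pos hd] at this
      omega
    rw [h0] at hPu
    exact hPu.trans hRHS
  push Not at hdm
  have hm1 : 1 ≤ m := by omega
  have hmR : (1 : ℝ) ≤ m := by exact_mod_cast hm1
  have hdmR : (d : ℝ) ≤ m := by exact_mod_cast hdm
  have hterm : ∀ j ∈ Finset.range (m + 1), Fr (gpos f) j m d ≤
      (d : ℝ) / (c0 * m) * Fr (free f) j m d + Real.exp (-(δ * m / 2)) := by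
    intro j _
    rw [gpos_eq, free_eq]
    have hFn := Fr_nonneg hf (fun _ => True) j m d
    rcases Nat.eq_zero_or_pos j with rfl | hj
    · have : Fr (gQ (fun z => 0 < z) f) 0 m d = 0 := by
        show dl 0 0 m d = 0
        unfold dl
        rw [if_neg]
        rintro ⟨_, h⟩
        omega
      rw [this]
      positivity
    · rcases le_or_gt (c0 * m) j with h1 | h1
      · obtain ⟨i, rfl⟩ : ∃ i, j = i + 1 := ⟨j - 1, by omega⟩
        have h2 := cycle_ineq hf i m hd
        have h3 : Fr (gQ (fun z => 0 < z) f) (i + 1) m d ≤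
            (d : ℝ) / (c0 * m) * Fr (gQ (fun _ => True) f) (i + 1) m d := by
          rw [div_mul_eq_mul_div, le_div_iff₀ (by positivity)]
          refine le_trans ?_ h2
          rw [mul_comm]
          refine mul_le_mul_of_nonneg_right ?_ (Fr_nonneg hf _ _ _ _)
          push_cast at h1
          exact h1
        have := Real.exp_pos (-(δ * m / 2))
        linarith
      · have h2 := Fr_mono hf (fun z => 0 < z) j m d
        have h3 := Fr_exp hf hs j m d
        rw [← hG] at h3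
        have h4 : G ^ j ≤ Real.exp (δ * m / 2) := by
          rw [← Real.exp_log (lt_of_lt_of_le one_pos hG1), ← Real.exp_nat_mul]
          refine Real.exp_le_exp.2 ?_
          calc (j : ℝ) * Real.log G ≤ (c0 * m) * Real.log G :=
                mul_le_mul_of_nonneg_right h1.le hL
            _ = (c0 * Real.log G) * m := by ring
            _ ≤ (δ / 2) * m := mul_le_mul_of_nonneg_right hc0L (by positivity)
            _ = δ * m / 2 := by ring
        have h5 : Real.exp (-(δ * m)) * G ^ j ≤ Real.exp (-(δ * m / 2)) := by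
          refine (mul_le_mul_of_nonneg_left h4 (Real.exp_pos _).le).trans (le_of_eq ?_)
          rw [← Real.exp_add]
          congr 1
          ring
        have h6 : 0 ≤ (d : ℝ) / (c0 * m) * Fr (gQ (fun _ => True) f) j m d := by positivity
        linarith
  have hsum : occ (gpos f) (dl 0 0) m d ≤
      (d : ℝ) / (c0 * m) * uu f m d + (m + 1) * Real.exp (-(δ * m / 2)) := by
    unfold uu
    rw [occ_eq_sum_Fr, occ_eq_sum_Fr]
    refine (Finset.sum_le_sum hterm).trans (le_of_eq ?_)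
    rw [Finset.sum_add_distrib, ← Finset.mul_sum, Finset.sum_const, Finset.card_range, nsmul_eq_mul]
    push_cast
    ring
  refine hsum.trans ?_
  have hm0 : (0 : ℝ) < (m : ℝ) + 1 := by positivity
  have hpow : ((m : ℝ) + 1) ^ (3 / 2 : ℝ) = ((m : ℝ) + 1) * Real.sqrt (m + 1) := by
    rw [Real.sqrt_eq_rpow, show (3 / 2 : ℝ) = 1 + 1 / 2 by norm_num, Real.rpow_add hm0,
      Real.rpow_one]
  have hsq : 0 < Real.sqrt ((m : ℝ) + 1) := Real.sqrt_pos.2 hm0
  have hA : (d : ℝ) / (c0 * m) * uu f m d ≤ (2 * K1 / c0) * d / ((m : ℝ) + 1) ^ (3 / 2 : ℝ) *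
      Real.exp (-(c * (d : ℝ) ^ 2 / (m + 1))) := by
    have h1 := hu m d
    have h2 : Real.exp (-(c1 * (d : ℝ) ^ 2 / (m + 1))) ≤ Real.exp (-(c * (d : ℝ) ^ 2 / (m + 1))) := by
      refine Real.exp_le_exp.2 (neg_le_neg ?_)
      refine div_le_div_of_nonneg_right ?_ hm0.le
      exact mul_le_mul_of_nonneg_right (min_le_left _ _) (by positivity)
    have h3 : uu f m d ≤ K1 / Real.sqrt (m + 1) * Real.exp (-(c * (d : ℝ) ^ 2 / (m + 1))) :=
      h1.trans (mul_le_mul_of_nonneg_left h2 (by positivity))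
    have h4 : (d : ℝ) / (c0 * m) ≤ 2 * d / (c0 * (m + 1)) := by
      rw [div_le_div_iff₀ (by positivity) (by positivity)]
      have : (m : ℝ) + 1 ≤ 2 * m := by linarith
      nlinarith [mul_le_mul_of_nonneg_left this (show 0 ≤ (d : ℝ) * c0 by positivity)]
    calc (d : ℝ) / (c0 * m) * uu f m d ≤ (d : ℝ) / (c0 * m) *
          (K1 / Real.sqrt (m + 1) * Real.exp (-(c * (d : ℝ) ^ 2 / (m + 1)))) :=
          mul_le_mul_of_nonneg_left h3 (by positivity)
      _ ≤ 2 * d / (c0 * (m + 1)) *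
          (K1 / Real.sqrt (m + 1) * Real.exp (-(c * (d : ℝ) ^ 2 / (m + 1)))) :=
          mul_le_mul_of_nonneg_right h4 (by positivity)
      _ = (2 * K1 / c0) * d / ((m : ℝ) + 1) ^ (3 / 2 : ℝ) *
          Real.exp (-(c * (d : ℝ) ^ 2 / (m + 1))) := by
          rw [hpow]
          field_simp
  have hB : ((m : ℝ) + 1) * Real.exp (-(δ * m / 2)) ≤ K2 * d / ((m : ℝ) + 1) ^ (3 / 2 : ℝ) *
      Real.exp (-(c * (d : ℝ) ^ 2 / (m + 1))) := by
    have h1 : Real.exp (-(δ / 4 * m)) ≤ Real.exp (-(c * (d : ℝ) ^ 2 / (m + 1))) := by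
      refine Real.exp_le_exp.2 (neg_le_neg ?_)
      rw [div_le_iff₀ hm0]
      have h2 : c ≤ δ / 4 := min_le_right _ _
      have h3 : (d : ℝ) ^ 2 ≤ m * (m + 1) := by nlinarith
      have hc' : 0 < c := lt_min hc1 (by positivity)
      calc c * (d : ℝ) ^ 2 ≤ c * (m * (m + 1)) := mul_le_mul_of_nonneg_left h3 hc'.le
        _ ≤ δ / 4 * (m * (m + 1)) := mul_le_mul_of_nonneg_right h2 (by positivity)
        _ = δ / 4 * m * (m + 1) := by ring
    have h4 : ((m : ℝ) + 1) ^ 3 ≤ K2 * Real.exp (δ / 4 * m) := by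
      have h5 := Real.pow_div_factorial_le_exp (δ / 4 * (m + 1)) (by positivity) 3
      have h6 : Real.exp (δ / 4 * (m + 1)) = Real.exp (δ / 4) * Real.exp (δ / 4 * m) := by
        rw [← Real.exp_add]; congr 1; ring
      rw [h6] at h5
      have h7 : ((3 : ℕ).factorial : ℝ) = 6 := by norm_num [Nat.factorial]
      rw [h7, div_le_iff₀ (by norm_num), mul_pow] at h5
      rw [hK2]
      have h8 : (4 / δ) ^ 3 * (δ / 4) ^ 3 = 1 := by
        rw [← mul_pow]; field_simp
      calc ((m : ℝ) + 1) ^ 3 = (4 / δ) ^ 3 * ((δ / 4) ^ 3 * ((m : ℝ) + 1) ^ 3) := by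
            rw [← mul_assoc, h8, one_mul]
        _ ≤ (4 / δ) ^ 3 * (Real.exp (δ / 4) * Real.exp (δ / 4 * m) * 6) :=
            mul_le_mul_of_nonneg_left h5 (by positivity)
        _ = _ := by ring
    have h9 : ((m : ℝ) + 1) * ((m : ℝ) + 1) ^ (3 / 2 : ℝ) ≤ ((m : ℝ) + 1) ^ 3 := by
      have e1 : Real.sqrt ((m : ℝ) + 1) ≤ (m : ℝ) + 1 := by
        rw [Real.sqrt_le_left (by positivity)]
        nlinarith
      rw [hpow]
      calc ((m : ℝ) + 1) * (((m : ℝ) + 1) * Real.sqrt (m + 1)) ≤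
            ((m : ℝ) + 1) * (((m : ℝ) + 1) * (m + 1)) :=
            mul_le_mul_of_nonneg_left (mul_le_mul_of_nonneg_left e1 hm0.le) hm0.le
        _ = _ := by ring
    have hp : 0 < ((m : ℝ) + 1) ^ (3 / 2 : ℝ) := by positivity
    rw [div_mul_eq_mul_div, le_div_iff₀ hp]
    have h10 : ((m : ℝ) + 1) * Real.exp (-(δ * m / 2)) * ((m : ℝ) + 1) ^ (3 / 2 : ℝ) ≤
        K2 * Real.exp (δ / 4 * m) * Real.exp (-(δ * m / 2)) := by
      calc ((m : ℝ) + 1) * Real.exp (-(δ * m / 2)) * ((m : ℝ) + 1) ^ (3 / 2 : ℝ) =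
            (((m : ℝ) + 1) * ((m : ℝ) + 1) ^ (3 / 2 : ℝ)) * Real.exp (-(δ * m / 2)) := by ring
        _ ≤ (K2 * Real.exp (δ / 4 * m)) * Real.exp (-(δ * m / 2)) :=
            mul_le_mul_of_nonneg_right (h9.trans h4) (Real.exp_pos _).le
    have h11 : K2 * Real.exp (δ / 4 * m) * Real.exp (-(δ * m / 2)) =
        K2 * Real.exp (-(δ / 4 * m)) := by
      rw [mul_assoc, ← Real.exp_add]
      congr 2
      ring
    rw [h11] at h10
    refine h10.trans ?_
    calc K2 * Real.exp (-(δ / 4 * m)) ≤ K2 * Real.exp (-(c * (d : ℝ) ^ 2 / (m + 1))) :=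
          mul_le_mul_of_nonneg_left h1 hK2p.le
      _ ≤ K2 * d * Real.exp (-(c * (d : ℝ) ^ 2 / (m + 1))) :=
          mul_le_mul_of_nonneg_right (le_mul_of_one_le_right hK2p.le hdR) (Real.exp_pos _).le
  calc (d : ℝ) / (c0 * m) * uu f m d + (m + 1) * Real.exp (-(δ * m / 2)) ≤
        (2 * K1 / c0) * d / ((m : ℝ) + 1) ^ (3 / 2 : ℝ) *
          Real.exp (-(c * (d : ℝ) ^ 2 / (m + 1))) +
        K2 * d / ((m : ℝ) + 1) ^ (3 / 2 : ℝ) * Real.exp (-(c * (d : ℝ) ^ 2 / (m + 1))) :=
        add_le_add hA hB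
    _ = _ := by ring

end Pool.Agent.SAPX
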