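import Pool.Agent.SAPX.BoundLAna
import Pool.Agent.SAPX.Cycle

/-!
Bounds for the occupation measure of a killed walk.
-/

namespace Pool.Agent.SAPX

open Filter Topology

lemma exists_PB {f : ℕ → ℤ → ℝ} (hf : FreeLaw f) : ∃ K c, 0 < K ∧ 0 < c ∧ BL.PB f K c := by
  obtain ⟨K, c, hK, hc, h⟩ := pos_bound hf
  exact ⟨K, c, hK, hc, h⟩

theorem L_bound {f : ℕ → ℤ → ℝ} (hf : FreeLaw f) {g : ℕ → ℤ → ℤ → ℝ} (hg : Killed f g)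
    {l L : ℕ → ℤ → ℝ} (hl : CapLaw l) (hL : Rec g l L) : ∃ K c, 0 < K ∧ 0 < c ∧
    ∀ (m : ℕ) (y : ℤ), L m y ≤
      K * |(y : ℝ)| / ((m : ℝ) + 1) ^ (3 / 2 : ℝ) * Real.exp (-(c * (y : ℝ) ^ 2 / (m + 1))) :=
  BL.L_bound_aux hf (exists_PB hf) hg hl hL

theorem green_bound {f : ℕ → ℤ → ℝ} (hf : FreeLaw f) {g : ℕ → ℤ → ℤ → ℝ} (hg : Killed f g) :
    ∃ K, 0 < K ∧ ∀ x : ℕ, 0 < x → ∀ y : ℤ, 0 < y → ∀ M : ℕ,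
      ∑ m ∈ Finset.range M, occ g (dl x x) m y ≤ K * Real.sqrt x * (y : ℝ) ^ 2 :=
  BL.green_bound_aux hf (exists_PB hf) hg

end Pool.Agent.SAPX
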