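import Pool.Agent.SAPX.BoundLBase

/-!
Bounds for occupation measures, from the bound for walks that stay positive.
-/

namespace Pool.Agent.SAPX.BL

open Finset

/-- the power `(m+1)^(3/2)` -/
noncomputable def rr (m : ℕ) : ℝ := ((m : ℝ) + 1) ^ (3 / 2 : ℝ)

lemma rr_pos (m : ℕ) : 0 < rr m := Real.rpow_pos_of_pos (by positivity) _

lemma rr_mono {m n : ℕ} (h : m ≤ n) : rr m ≤ rr n :=
  Real.rpow_le_rpow (by positivity) (by exact_mod_cast Nat.succ_le_succ h) (by norm_num)

lemma rr_le_mul (M k : ℕ) : rr (M + k) ≤ rr M * rr k := by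
  unfold rr
  rw [← Real.mul_rpow (by positivity) (by positivity)]
  refine Real.rpow_le_rpow (by positivity) ?_ (by norm_num)
  push_cast
  have : (0 : ℝ) ≤ (M : ℝ) * k := by positivity
  nlinarith

lemma rr_le_sq (k : ℕ) : rr k ≤ ((k : ℝ) + 1) ^ 2 := by
  unfold rr
  rw [← Real.rpow_natCast]
  exact Real.rpow_le_rpow_of_exponent_le (by linarith [(Nat.cast_nonneg k : (0 : ℝ) ≤ k)])
    (by norm_num)

lemma rr_eq (m : ℕ) : rr m = Real.sqrt ((m : ℝ) + 1) ^ 3 := by
  unfold rr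
  rw [Real.sqrt_eq_rpow, ← Real.rpow_natCast, ← Real.rpow_mul (by positivity)]
  norm_num

/-- tail sums -/
lemma tail_sum {d : ℕ} (hd : 1 ≤ d) (N : ℕ) :
    ∑ m ∈ Ico d N, 1 / rr m ≤ 2 / Real.sqrt d := by
  rcases lt_or_ge N d with h | h
  · rw [Finset.Ico_eq_empty (by omega), Finset.sum_empty]
    positivity
  · suffices hs : ∑ m ∈ Ico d N, 1 / rr m ≤ 2 / Real.sqrt d - 2 / Real.sqrt N by
      have : 0 ≤ 2 / Real.sqrt N := by positivity
      linarith
    induction N, h using Nat.le_induction with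
    | base => simp
    | succ N hN ih =>
      rw [Finset.sum_Ico_succ_top hN]
      have hN1 : (1 : ℝ) ≤ N := by exact_mod_cast le_trans hd hN
      have ha : 0 < Real.sqrt N := Real.sqrt_pos.2 (by linarith)
      have hb : 0 < Real.sqrt ((N : ℝ) + 1) := Real.sqrt_pos.2 (by linarith)
      have ha2 : Real.sqrt N ^ 2 = N := Real.sq_sqrt (by linarith)
      have hb2 : Real.sqrt ((N : ℝ) + 1) ^ 2 = N + 1 := Real.sq_sqrt (by linarith)
      have hab : Real.sqrt N ≤ Real.sqrt ((N : ℝ) + 1) := Real.sqrt_le_sqrt (by linarith)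
      have key : 1 / rr N ≤ 2 / Real.sqrt N - 2 / Real.sqrt ((N : ℝ) + 1) := by
        rw [rr_eq]
        set a := Real.sqrt N with hadef
        set b := Real.sqrt ((N : ℝ) + 1) with hbdef
        have h1 : 2 / a - 2 / b = 2 * (b - a) / (a * b) := by
          field_simp
        have h2 : (b - a) * (b + a) = 1 := by nlinarith
        have h3 : 2 * (b - a) / (a * b) = 2 / (a * b * (b + a)) := by
          rw [div_eq_div_iff (by positivity) (by positivity)]
          linear_combination (2 * a * b) * h2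
        rw [h1, h3, div_le_div_iff₀ (by positivity) (by positivity), one_mul]
        nlinarith [mul_pos ha hb, mul_nonneg hb.le (sub_nonneg.2 hab), sq_nonneg (b - a),
          mul_nonneg (mul_nonneg hb.le hb.le) (sub_nonneg.2 hab),
          mul_nonneg (mul_nonneg ha.le hb.le) (sub_nonneg.2 hab)]
      push_cast
      linarith

lemma sum_rr (N : ℕ) : ∑ m ∈ range N, 1 / rr m ≤ 3 := by
  rcases Nat.eq_zero_or_pos N with rfl | h
  · simp
  · rw [Finset.range_eq_Ico, Finset.sum_eq_sum_Ico_succ_bot h]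
    have h1 := tail_sum (d := 1) le_rfl N
    have h2 : 1 / rr 0 = 1 := by simp [rr]
    rw [h2]
    norm_num at h1 ⊢
    linarith

/-- convolution of two powers -/
lemma conv_rr (M : ℕ) : ∑ k ∈ range (M + 1), 1 / (rr k * rr (M - k)) ≤ 18 / rr M := by
  have h0 : ∀ k ∈ range (M + 1), 1 / (rr k * rr (M - k)) ≤
      (3 / rr M) * (1 / rr k) + (3 / rr M) * (1 / rr (M - k)) := by
    intro k hk
    have hk' := Finset.mem_range.1 hk
    have h3 : ∀ j : ℕ, ((M : ℝ) + 1) / 2 ≤ (j : ℝ) + 1 → rr M ≤ 3 * rr j := by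
      intro j hj
      have h4 : rr M ≤ ((2 : ℝ) * ((j : ℝ) + 1)) ^ (3 / 2 : ℝ) :=
        Real.rpow_le_rpow (by positivity) (by linarith) (by norm_num)
      rw [Real.mul_rpow (by norm_num) (by positivity)] at h4
      have h5 : (2 : ℝ) ^ (3 / 2 : ℝ) ≤ 3 := by
        have h6 : ((2 : ℝ) ^ (3 / 2 : ℝ)) ^ 2 = 8 := by
          rw [← Real.rpow_natCast, ← Real.rpow_mul (by norm_num)]
          norm_num
        nlinarith [Real.rpow_nonneg (show (0 : ℝ) ≤ 2 by norm_num) (3 / 2 : ℝ)]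
      exact le_trans h4 (mul_le_mul_of_nonneg_right h5 (rr_pos j).le)
    have p1 := rr_pos k
    have p2 := rr_pos (M - k)
    have p3 := rr_pos M
    rcases le_total (((M : ℝ) + 1) / 2) ((k : ℝ) + 1) with hc | hc
    · have h4 := h3 k hc
      have h5 : 1 / (rr k * rr (M - k)) ≤ (3 / rr M) * (1 / rr (M - k)) := by
        rw [div_mul_div_comm, mul_one, div_le_div_iff₀ (by positivity) (by positivity), one_mul]
        nlinarith
      have h6 : 0 ≤ (3 / rr M) * (1 / rr k) := by positivity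
      linarith
    · have hc' : ((M : ℝ) + 1) / 2 ≤ ((M - k : ℕ) : ℝ) + 1 := by
        rw [Nat.cast_sub (by omega)]
        linarith
      have h4 := h3 (M - k) hc'
      have h5 : 1 / (rr k * rr (M - k)) ≤ (3 / rr M) * (1 / rr k) := by
        rw [div_mul_div_comm, mul_one, div_le_div_iff₀ (by positivity) (by positivity), one_mul]
        nlinarith
      have h6 : 0 ≤ (3 / rr M) * (1 / rr (M - k)) := by positivity
      linarith
  refine le_trans (Finset.sum_le_sum h0) ?_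
  rw [Finset.sum_add_distrib, ← Finset.mul_sum, ← Finset.mul_sum]
  have h1 := sum_rr (M + 1)
  have h2 : ∑ k ∈ range (M + 1), 1 / rr (M - k) ≤ 3 := by
    have := Finset.sum_range_reflect (fun k => 1 / rr k) (M + 1)
    have e : ∑ k ∈ range (M + 1), 1 / rr (M - k) = ∑ k ∈ range (M + 1), 1 / rr (M + 1 - 1 - k) := by
      simp
    rw [e, this]
    exact h1
  have p3 := rr_pos M
  have h4 : 0 ≤ 3 / rr M := by positivity
  have h5 : 18 / rr M = 3 / rr M * 3 + 3 / rr M * 3 := by ring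
  rw [h5]
  exact add_le_add (mul_le_mul_of_nonneg_left h1 h4) (mul_le_mul_of_nonneg_left h2 h4)

/-- the input: the bound for walks that stay positive -/
def PB (f : ℕ → ℤ → ℝ) (K c : ℝ) : Prop := ∀ (m : ℕ) (d : ℤ), 0 < d → WW f 0 0 m d ≤
  K * d / rr m * Real.exp (-(c * (d : ℝ) ^ 2 / (m + 1)))

section walks
variable {f : ℕ → ℤ → ℝ}

lemma WW00_zero (hf : FreeLaw f) (m : ℕ) : WW f 0 0 m 0 = if m = 0 then 1 else 0 := by
  split_ifs with h
  · rw [h, WW_zero, if_pos rfl]
  · by_contra h'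
    have := (WW_supp hf 0 0 h').2
    omega

lemma WW00_neg (hf : FreeLaw f) (m : ℕ) {d : ℤ} (hd : d < 0) : WW f 0 0 m d = 0 := by
  by_contra h'
  have := (WW_supp hf 0 0 h').2
  omega

lemma PB.mono {K c c' : ℝ} (hK : 0 < K) (h : PB f K c) (hc : c' ≤ c) : PB f K c' := by
  intro m d hd
  refine le_trans (h m d hd) ?_
  have hd' : (0 : ℝ) < d := by exact_mod_cast hd
  have := rr_pos m
  refine mul_le_mul_of_nonneg_left (Real.exp_le_exp.2 (neg_le_neg ?_)) (by positivity)
  gcongr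

lemma PB.le {K c : ℝ} (hK : 0 < K) (hc : 0 < c) (h : PB f K c) (m : ℕ) {d x : ℤ} (hd : 0 < d)
    (hx : d ≤ x) : WW f 0 0 m d ≤ K * x / rr m := by
  refine le_trans (h m d hd) ?_
  have hd' : (0 : ℝ) < d := by exact_mod_cast hd
  have hx' : (d : ℝ) ≤ x := by exact_mod_cast hx
  have := rr_pos m
  have h1 : Real.exp (-(c * (d : ℝ) ^ 2 / (m + 1))) ≤ 1 := by
    rw [Real.exp_le_one_iff]
    have : 0 ≤ c * (d : ℝ) ^ 2 / (m + 1) := by positivity
    linarith
  calc K * d / rr m * Real.exp (-(c * (d : ℝ) ^ 2 / (m + 1))) ≤ K * d / rr m * 1 :=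
        mul_le_mul_of_nonneg_left h1 (by positivity)
    _ = K * d / rr m := mul_one _
    _ ≤ K * x / rr m := by gcongr

/-- bound for walks started at `x` -/
lemma WW_bound (hf : FreeLaw f) {K c : ℝ} (hK : 0 < K) (hc : 0 < c) (hP : PB f K c) {k0 : ℕ}
    {x : ℤ} (hx : 0 < x) (hxk : x ≤ k0) (M : ℕ) {y : ℤ} (hy : 0 < y) :
    WW f 0 x M y ≤ (f 3 1)⁻¹ * (18 * K ^ 2 + K) * ((k0 : ℝ) ^ 2 * rr k0 * Real.exp (c * k0)) *
      (y / rr (M + k0) * Real.exp (-(c / 2 * (y : ℝ) ^ 2 / (((M + k0 : ℕ) : ℝ) + 1)))) := by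
  have he : (0 : ℝ) < f 3 1 := hf.three
  set E := Real.exp (-(c / 2 * (y : ℝ) ^ 2 / (((M + k0 : ℕ) : ℝ) + 1))) with hE
  have hE0 : 0 < E := Real.exp_pos _
  have hx' : (0 : ℝ) < x := by exact_mod_cast hx
  have hxk' : (x : ℝ) ≤ k0 := by exact_mod_cast hxk
  have hy' : (0 : ℝ) < y := by exact_mod_cast hy
  have hy1 : (1 : ℝ) ≤ y := by exact_mod_cast hy
  have hk0 : (0 : ℝ) < k0 := lt_of_lt_of_le hx' hxk'
  have hrM := rr_pos M
  have hm0 : (0 : ℝ) < ((M + k0 : ℕ) : ℝ) + 1 := by positivity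
  have hkm : (k0 : ℝ) ≤ ((M + k0 : ℕ) : ℝ) + 1 := by push_cast; linarith [(Nat.cast_nonneg M : (0 : ℝ) ≤ M)]
  -- exponential factor
  have hexp : ∀ z : ℤ, 1 ≤ z → z ≤ x → ∀ t : ℝ, 0 < t → t ≤ ((M + k0 : ℕ) : ℝ) + 1 →
      Real.exp (-(c * ((y - z : ℤ) : ℝ) ^ 2 / t)) ≤ E * Real.exp (c * k0) := by
    intro z hz1 hz2 t ht htm
    have hz1' : (1 : ℝ) ≤ z := by exact_mod_cast hz1
    have hz2' : (z : ℝ) ≤ x := by exact_mod_cast hz2
    rw [hE, ← Real.exp_add, Real.exp_le_exp]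
    have h1 : c * ((y - z : ℤ) : ℝ) ^ 2 / (((M + k0 : ℕ) : ℝ) + 1) ≤
        c * ((y - z : ℤ) : ℝ) ^ 2 / t := by gcongr
    have h2 : (c / 2 * (y : ℝ) ^ 2 - c * (z : ℝ) ^ 2) / (((M + k0 : ℕ) : ℝ) + 1) ≤
        c * ((y - z : ℤ) : ℝ) ^ 2 / (((M + k0 : ℕ) : ℝ) + 1) := by
      refine div_le_div_of_nonneg_right ?_ hm0.le
      push_cast
      nlinarith [sq_nonneg ((y : ℝ) - 2 * z)]
    have h3 : c * (z : ℝ) ^ 2 / (((M + k0 : ℕ) : ℝ) + 1) ≤ c * k0 := by
      rw [div_le_iff₀ hm0]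
      have h4 : (z : ℝ) ^ 2 ≤ k0 * (((M + k0 : ℕ) : ℝ) + 1) := by nlinarith
      nlinarith
    rw [sub_div] at h2
    linarith
  have hone : ∀ z : ℤ, z = y → z ≤ x → 1 ≤ E * Real.exp (c * k0) := by
    intro z hzy hzx
    have h1 := hexp z (by omega) hzx 1 one_pos (by linarith [(Nat.cast_nonneg (M + k0) : (0 : ℝ) ≤ ((M + k0 : ℕ) : ℝ))])
    rw [hzy] at h1
    simpa using h1
  have hz : ∀ z ∈ Icc 1 x, ∑ k ∈ range (M + 1),
      WW f 0 0 (k + 3) (x - z + 1) * WW f 0 0 (M - k) (y - z) ≤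
      (18 * K ^ 2 + K) * x * y * (E * Real.exp (c * k0)) / rr M := by
    intro z hz
    obtain ⟨hz1, hz2⟩ := Finset.mem_Icc.1 hz
    rcases lt_trichotomy z y with hzy | hzy | hzy
    · have h1 : ∀ k ∈ range (M + 1), WW f 0 0 (k + 3) (x - z + 1) * WW f 0 0 (M - k) (y - z) ≤
          (K ^ 2 * x * y * (E * Real.exp (c * k0))) * (1 / (rr k * rr (M - k))) := by
        intro k hk
        have hk' := Finset.mem_range.1 hk
        have h2 : WW f 0 0 (k + 3) (x - z + 1) ≤ K * x / rr k := by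
          refine le_trans (hP.le hK hc (k + 3) (by omega) (show x - z + 1 ≤ x by omega)) ?_
          have := rr_pos k
          have h3 := rr_mono (show k ≤ k + 3 by omega)
          gcongr
        have h3 : WW f 0 0 (M - k) (y - z) ≤ K * y / rr (M - k) * (E * Real.exp (c * k0)) := by
          refine le_trans (hP (M - k) (y - z) (by omega)) ?_
          have h4 := rr_pos (M - k)
          have h5 := hexp z hz1 hz2 (((M - k : ℕ) : ℝ) + 1) (by positivity) (by
            have : ((M - k : ℕ) : ℝ) ≤ ((M + k0 : ℕ) : ℝ) := by exact_mod_cast (by omega)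
            linarith)
          have h6 : ((y - z : ℤ) : ℝ) ≤ y := by
            have : (y - z : ℤ) ≤ y := by omega
            exact_mod_cast this
          have h7 : (0 : ℝ) ≤ ((y - z : ℤ) : ℝ) := by
            have : (0 : ℤ) ≤ y - z := by omega
            exact_mod_cast this
          have h8 : K * ((y - z : ℤ) : ℝ) / rr (M - k) ≤ K * y / rr (M - k) := by gcongr
          exact mul_le_mul h8 h5 (Real.exp_pos _).le (by positivity)
        have p1 := rr_pos k
        have p2 := rr_pos (M - k)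
        calc WW f 0 0 (k + 3) (x - z + 1) * WW f 0 0 (M - k) (y - z)
            ≤ (K * x / rr k) * (K * y / rr (M - k) * (E * Real.exp (c * k0))) :=
              mul_le_mul h2 h3 (WW_nonneg hf _ _ _ _) (by positivity)
          _ = _ := by field_simp
      refine le_trans (Finset.sum_le_sum h1) ?_
      rw [← Finset.mul_sum]
      refine le_trans (mul_le_mul_of_nonneg_left (conv_rr M) (by positivity)) ?_
      rw [mul_div_assoc', div_le_div_iff_of_pos_right hrM]
      have : 0 ≤ K * x * y * (E * Real.exp (c * k0)) := by positivity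
      nlinarith
    · have h1 : ∀ k ∈ range (M + 1), k ≠ M →
          WW f 0 0 (k + 3) (x - z + 1) * WW f 0 0 (M - k) (y - z) = 0 := by
        intro k hk hkM
        have hk' := Finset.mem_range.1 hk
        rw [hzy, sub_self, WW00_zero hf, if_neg (by omega), mul_zero]
      rw [Finset.sum_eq_single M h1 (fun h => absurd (Finset.mem_range.2 (Nat.lt_succ_self M)) h)]
      have h2 : WW f 0 0 (M - M) (y - z) = 1 := by
        rw [hzy, sub_self, WW00_zero hf, if_pos (by omega)]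
      rw [h2, mul_one]
      refine le_trans (hP.le hK hc (M + 3) (by omega) (show x - z + 1 ≤ x by omega)) ?_
      have h3 := hone z hzy hz2
      have h4 := rr_mono (show M ≤ M + 3 by omega)
      have h5 : K * x / rr (M + 3) ≤ K * x / rr M := by gcongr
      refine le_trans h5 ?_
      rw [div_le_div_iff_of_pos_right hrM]
      have h6 : 1 ≤ y * (E * Real.exp (c * k0)) := by nlinarith
      have h7 : 0 ≤ 18 * K ^ 2 * x * y * (E * Real.exp (c * k0)) := by positivity
      have h8 : 0 < K * x := by positivity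
      nlinarith
    · have h1 : ∀ k ∈ range (M + 1),
          WW f 0 0 (k + 3) (x - z + 1) * WW f 0 0 (M - k) (y - z) = 0 := by
        intro k _
        rw [WW00_neg hf (M - k) (show y - z < 0 by omega), mul_zero]
      rw [Finset.sum_eq_zero h1]
      positivity
  have hcard : ((Icc 1 x).card : ℝ) = x := by
    rw [Int.card_Icc]
    have : ((x + 1 - 1).toNat : ℤ) = x := by omega
    exact_mod_cast this
  have hsum := Finset.sum_le_card_nsmul _ _ _ hz
  rw [nsmul_eq_mul, hcard] at hsum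
  refine le_trans (WW_le hf hx M y) ?_
  rw [mul_assoc, mul_assoc]
  refine mul_le_mul_of_nonneg_left ?_ (inv_nonneg.2 he.le)
  refine le_trans hsum ?_
  have hr := rr_le_mul M k0
  have hr0 := rr_pos k0
  have hrm := rr_pos (M + k0)
  have h1 : 1 / rr M ≤ rr k0 / rr (M + k0) := by
    rw [div_le_div_iff₀ hrM hrm]
    linarith
  calc (x : ℝ) * ((18 * K ^ 2 + K) * x * y * (E * Real.exp (c * k0)) / rr M)
      = ((18 * K ^ 2 + K) * (x ^ 2) * y * (E * Real.exp (c * k0))) * (1 / rr M) := by ring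
    _ ≤ ((18 * K ^ 2 + K) * (k0 ^ 2) * y * (E * Real.exp (c * k0))) * (rr k0 / rr (M + k0)) := by
        gcongr
    _ = _ := by ring

lemma killed_le_ka {g : ℕ → ℤ → ℤ → ℝ} (hg : Killed f g) (m : ℕ) (x y : ℤ) :
    g m x y ≤ ka f 0 m x y := by
  unfold ka
  split_ifs with h
  · exact hg.le m x y
  · by_contra h'
    have h1 : g m x y ≠ 0 := fun h0 => h' (by rw [h0])
    exact h (hg.pos m x y h1).2

lemma pow_exp_bound {δ : ℝ} (hδ : 0 < δ) : ∃ B, 0 < B ∧ ∀ k : ℕ,
    (k : ℝ) ^ 2 * rr k * Real.exp (δ / 2 * k) ≤ B * Real.exp (δ * k) := by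
  refine ⟨24 * (2 / δ) ^ 4 * Real.exp (δ / 2), by positivity, fun k => ?_⟩
  have hk : (0 : ℝ) ≤ k := Nat.cast_nonneg k
  have h1 := Real.pow_div_factorial_le_exp (δ / 2 * (k + 1)) (by positivity) 4
  have h2 : ((k : ℝ) + 1) ^ 4 ≤ 24 * (2 / δ) ^ 4 * Real.exp (δ / 2 * (k + 1)) := by
    have h3 : (δ / 2 * (k + 1)) ^ 4 / ((Nat.factorial 4 : ℕ) : ℝ) =
        ((k : ℝ) + 1) ^ 4 * ((δ / 2) ^ 4 / 24) := by
      rw [show ((Nat.factorial 4 : ℕ) : ℝ) = 24 by norm_num [Nat.factorial]]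
      ring
    rw [h3] at h1
    have h4 : (2 / δ) ^ 4 * (δ / 2) ^ 4 = 1 := by
      rw [← mul_pow]
      field_simp
    have h5 : 0 < 24 * (2 / δ) ^ 4 := by positivity
    calc ((k : ℝ) + 1) ^ 4 = (24 * (2 / δ) ^ 4) * (((k : ℝ) + 1) ^ 4 * ((δ / 2) ^ 4 / 24)) := by
          linear_combination (-(((k : ℝ) + 1) ^ 4)) * h4
      _ ≤ _ := mul_le_mul_of_nonneg_left h1 h5.le
  have h3 : (k : ℝ) ^ 2 * rr k ≤ ((k : ℝ) + 1) ^ 4 := by
    have h4 := rr_le_sq k
    have h5 : (k : ℝ) ^ 2 ≤ ((k : ℝ) + 1) ^ 2 := by nlinarith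
    calc (k : ℝ) ^ 2 * rr k ≤ ((k : ℝ) + 1) ^ 2 * ((k : ℝ) + 1) ^ 2 :=
          mul_le_mul h5 h4 (rr_pos k).le (by positivity)
      _ = _ := by ring
  calc (k : ℝ) ^ 2 * rr k * Real.exp (δ / 2 * k)
      ≤ (24 * (2 / δ) ^ 4 * Real.exp (δ / 2 * (k + 1))) * Real.exp (δ / 2 * k) :=
        mul_le_mul_of_nonneg_right (le_trans h3 h2) (Real.exp_pos _).le
    _ = 24 * (2 / δ) ^ 4 * Real.exp (δ / 2) * Real.exp (δ * k) := by
        rw [mul_assoc, mul_assoc (24 * (2 / δ) ^ 4), ← Real.exp_add, ← Real.exp_add]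
        congr 2
        ring

theorem L_bound_aux (hf : FreeLaw f) (hP : ∃ K c, 0 < K ∧ 0 < c ∧ PB f K c)
    {g : ℕ → ℤ → ℤ → ℝ} (hg : Killed f g)
    {l L : ℕ → ℤ → ℝ} (hl : CapLaw l) (hL : Rec g l L) : ∃ K c, 0 < K ∧ 0 < c ∧
    ∀ (m : ℕ) (y : ℤ), L m y ≤
      K * |(y : ℝ)| / ((m : ℝ) + 1) ^ (3 / 2 : ℝ) * Real.exp (-(c * (y : ℝ) ^ 2 / (m + 1))) := by
  obtain ⟨K, c0, hK, hc0, hP⟩ := hP
  obtain ⟨δ, hδ, hT⟩ := hl.tail
  obtain ⟨B, hB, hBk⟩ := pow_exp_bound hδ
  set c := min c0 (δ / 2) with hc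
  have hc1 : 0 < c := lt_min hc0 (by positivity)
  have hP' := hP.mono hK (min_le_left c0 (δ / 2))
  rw [← hc] at hP'
  have he : (0 : ℝ) < f 3 1 := hf.three
  set T := ∑' p : ℕ × ℤ, l p.1 p.2 * Real.exp (δ * p.1) with hTdef
  have hT0 : 0 ≤ T := tsum_nonneg fun p => mul_nonneg (hl.nonneg _ _) (Real.exp_pos _).le
  set A := (f 3 1)⁻¹ * (18 * K ^ 2 + K) with hA
  have hA0 : 0 < A := by positivity
  refine ⟨A * B * (T + 1), c / 2, by positivity, by positivity, fun m y => ?_⟩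
  have hrm := rr_pos m
  change L m y ≤ A * B * (T + 1) * |(y : ℝ)| / rr m * Real.exp (-(c / 2 * (y : ℝ) ^ 2 / (m + 1)))
  rcases le_or_gt y 0 with hy | hy
  · have h0 : L m y = 0 := by
      by_contra h
      have := (hL.supp hf hg hl h).1
      omega
    rw [h0]
    positivity
  · have hy' : (0 : ℝ) < y := by exact_mod_cast hy
    have h1 : L m y ≤ occ (ka f 0) l m y :=
      hL.mono (rec_occ _ _) hg.nonneg hl.nonneg (killed_le_ka hg) (fun _ _ => le_rfl) m y
    refine le_trans h1 ?_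
    rw [superpose (rec_occ (ka f 0) l) (s := fun k => Icc 1 (k : ℤ)) (fun k x h => by
      have := hl.supp k x h
      rw [Finset.mem_Icc]
      omega) m y]
    set E := Real.exp (-(c / 2 * (y : ℝ) ^ 2 / (m + 1))) with hE
    have hE0 : 0 < E := Real.exp_pos _
    have h2 : ∀ k ∈ range (m + 1), ∀ x ∈ Icc 1 (k : ℤ),
        l k x * occ (ka f 0) (dl 0 x) (m - k) y ≤
          (A * B * (y / rr m * E)) * (l k x * Real.exp (δ * k)) := by
      intro k hk x hx
      have hk' := Finset.mem_range.1 hk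
      obtain ⟨hx1, hx2⟩ := Finset.mem_Icc.1 hx
      have h3 := WW_bound hf hK hc1 hP' (k0 := k) (x := x) (by omega) hx2 (m - k) hy
      rw [show m - k + k = m by omega] at h3
      have h4 : (k : ℝ) ^ 2 * rr k * Real.exp (c * k) ≤ B * Real.exp (δ * k) := by
        refine le_trans ?_ (hBk k)
        have := rr_pos k
        have h5 : c * (k : ℝ) ≤ δ / 2 * k := by
          have : c ≤ δ / 2 := min_le_right _ _
          exact mul_le_mul_of_nonneg_right this (Nat.cast_nonneg k)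
        exact mul_le_mul_of_nonneg_left (Real.exp_le_exp.2 h5) (by positivity)
      have h5 : WW f 0 x (m - k) y ≤ A * (B * Real.exp (δ * k)) * (y / rr m * E) := by
        refine le_trans h3 ?_
        gcongr
      calc l k x * occ (ka f 0) (dl 0 x) (m - k) y = l k x * WW f 0 x (m - k) y := rfl
        _ ≤ l k x * (A * (B * Real.exp (δ * k)) * (y / rr m * E)) :=
            mul_le_mul_of_nonneg_left h5 (hl.nonneg _ _)
        _ = _ := by ring
    refine le_trans (Finset.sum_le_sum fun k hk => Finset.sum_le_sum fun x hx => h2 k hk x hx) ?_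
    have h3 : ∑ k ∈ range (m + 1), ∑ x ∈ Icc 1 (k : ℤ), l k x * Real.exp (δ * k) ≤ T := by
      have h4 : ∑ k ∈ range (m + 1), ∑ x ∈ Icc 1 (k : ℤ), l k x * Real.exp (δ * k) ≤
          ∑ k ∈ range (m + 1), ∑ x ∈ Icc 1 (m : ℤ), l k x * Real.exp (δ * k) := by
        refine Finset.sum_le_sum fun k hk => ?_
        have hk' := Finset.mem_range.1 hk
        refine Finset.sum_le_sum_of_subset_of_nonneg (Finset.Icc_subset_Icc le_rfl (by omega))
          fun x _ _ => mul_nonneg (hl.nonneg _ _) (Real.exp_pos _).le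
      refine le_trans h4 ?_
      rw [← Finset.sum_product' (range (m + 1)) (Icc 1 (m : ℤ))
        (fun k x => l k x * Real.exp (δ * k))]
      exact hT.sum_le_tsum _ (fun p _ => mul_nonneg (hl.nonneg _ _) (Real.exp_pos _).le)
    simp only [← Finset.mul_sum]
    rw [abs_of_pos hy']
    calc A * B * (y / rr m * E) * ∑ k ∈ range (m + 1), ∑ x ∈ Icc 1 (k : ℤ),
          l k x * Real.exp (δ * k) ≤ A * B * (y / rr m * E) * (T + 1) :=
          mul_le_mul_of_nonneg_left (by linarith) (by positivity)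
      _ = _ := by ring

/-- Green function of walks that stay positive -/
lemma green_pos (hf : FreeLaw f) {K c : ℝ} (hK : 0 < K) (hc : 0 < c) (hP : PB f K c) {d x : ℤ}
    (hd : 0 < d) (hx : d ≤ x) (N : ℕ) :
    ∑ k ∈ range N, WW f 0 0 k d ≤ 2 * K * Real.sqrt x := by
  obtain ⟨n, rfl⟩ : ∃ n : ℕ, (n : ℤ) = d := ⟨d.toNat, by omega⟩
  have hn : 1 ≤ n := by omega
  have hnr : (0 : ℝ) < n := by exact_mod_cast hn
  have h1 : ∑ k ∈ range N, WW f 0 0 k n ≤ ∑ k ∈ Ico n N, K * n * (1 / rr k) := by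
    have h2 : ∑ k ∈ range N, WW f 0 0 k n = ∑ k ∈ Ico n N, WW f 0 0 k n := by
      symm
      refine Finset.sum_subset ?_ ?_
      · intro k hk
        rw [Finset.mem_Ico] at hk
        exact Finset.mem_range.2 hk.2
      · intro k hk hk'
        by_contra h
        have h3 := abs_le.1 (WW_supp hf 0 0 h).1
        rw [Finset.mem_Ico] at hk'
        have := Finset.mem_range.1 hk
        omega
    rw [h2]
    refine Finset.sum_le_sum fun k _ => ?_
    refine le_trans (hP.le hK hc k hd le_rfl) (le_of_eq ?_)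
    push_cast
    ring
  refine le_trans h1 ?_
  rw [← Finset.mul_sum]
  refine le_trans (mul_le_mul_of_nonneg_left (tail_sum hn N) (by positivity)) ?_
  have h3 : (n : ℝ) = Real.sqrt n * Real.sqrt n := (Real.mul_self_sqrt hnr.le).symm
  have h4 : 0 < Real.sqrt n := Real.sqrt_pos.2 hnr
  have h5 : K * n * (2 / Real.sqrt n) = 2 * K * Real.sqrt n := by
    rw [mul_div_assoc', div_eq_iff h4.ne']
    linear_combination (2 * K) * h3
  rw [h5]
  have h6 : Real.sqrt n ≤ Real.sqrt x := Real.sqrt_le_sqrt (by exact_mod_cast hx)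
  gcongr

theorem green_bound_aux (hf : FreeLaw f) (hP : ∃ K c, 0 < K ∧ 0 < c ∧ PB f K c)
    {g : ℕ → ℤ → ℤ → ℝ} (hg : Killed f g) :
    ∃ K, 0 < K ∧ ∀ x : ℕ, 0 < x → ∀ y : ℤ, 0 < y → ∀ M : ℕ,
      ∑ m ∈ Finset.range M, occ g (dl x x) m y ≤ K * Real.sqrt x * (y : ℝ) ^ 2 := by
  obtain ⟨K, c, hK, hc, hP⟩ := hP
  have he : (0 : ℝ) < f 3 1 := hf.three
  refine ⟨(f 3 1)⁻¹ * (2 * K * (2 * K + 1)), by positivity, fun x hx y hy M => ?_⟩
  have hy1 : (1 : ℝ) ≤ y := by exact_mod_cast hy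
  have hx1 : (1 : ℝ) ≤ x := by exact_mod_cast hx
  have h1 : ∑ m ∈ range M, occ g (dl x x) m y ≤ ∑ m ∈ range M, WW f 0 x m y := by
    have h2 : ∀ m, occ g (dl x x) m y ≤ if x ≤ m then WW f 0 x (m - x) y else 0 := by
      intro m
      have h3 : occ g (dl x x) m y ≤ occ (ka f 0) (dl x x) m y :=
        (rec_occ g (dl x x)).mono (rec_occ _ _) hg.nonneg (dl_nonneg x x) (killed_le_ka hg)
          (fun _ _ => le_rfl) m y
      refine le_trans h3 (le_of_eq ?_)
      rw [superpose (rec_occ (ka f 0) (dl x x)) (s := fun _ => {(x : ℤ)}) (fun k v h => by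
        unfold dl at h
        split_ifs at h with h4
        · simp [h4.2]
        · exact absurd rfl h) m y]
      simp only [Finset.sum_singleton]
      split_ifs with h4
      · rw [Finset.sum_eq_single x]
        · simp [dl, WW]
        · intro k _ hk
          rw [dl, if_neg (fun h => hk h.1), zero_mul]
        · intro h
          exact absurd (Finset.mem_range.2 (Nat.lt_succ_of_le h4)) h
      · refine Finset.sum_eq_zero fun k hk => ?_
        rw [dl, if_neg, zero_mul]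
        rintro ⟨rfl, _⟩
        exact h4 (Nat.le_of_lt_succ (Finset.mem_range.1 hk))
    refine le_trans (Finset.sum_le_sum fun m _ => h2 m) ?_
    rw [← Finset.sum_filter]
    have h3 : ∑ m ∈ range M with x ≤ m, WW f 0 x (m - x) y =
        ∑ m ∈ (range M |>.filter (fun m => x ≤ m)).image (fun m => m - x), WW f 0 x m y := by
      rw [Finset.sum_image]
      intro a ha b hb hab
      simp only [Finset.coe_filter, Finset.mem_range, Set.mem_ofPred_eq] at ha hb hab
      omega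
    rw [h3]
    refine Finset.sum_le_sum_of_subset_of_nonneg ?_ fun m _ _ => WW_nonneg hf _ _ _ _
    intro m hm
    simp only [Finset.mem_image, Finset.mem_filter, Finset.mem_range] at hm ⊢
    omega
  refine le_trans h1 ?_
  have h2 : ∑ m ∈ range M, WW f 0 x m y ≤ (f 3 1)⁻¹ * ∑ z ∈ Icc 1 (x : ℤ),
      (∑ k ∈ range (M + 1), WW f 0 0 (k + 3) (x - z + 1)) * (∑ j ∈ range M, WW f 0 0 j (y - z)) := by
    refine le_trans (Finset.sum_le_sum fun m _ => WW_le hf (x := (x : ℤ)) (by omega) m y) ?_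
    rw [← Finset.mul_sum, Finset.sum_comm]
    refine mul_le_mul_of_nonneg_left (Finset.sum_le_sum fun z _ => ?_) (inv_nonneg.2 he.le)
    have h3 := tri M (fun k i => WW f 0 0 (k + 3) (x - z + 1) * WW f 0 0 i (y - z))
    rw [← h3, Finset.sum_mul]
    refine Finset.sum_le_sum fun k _ => ?_
    rw [← Finset.mul_sum]
    refine mul_le_mul_of_nonneg_left ?_ (WW_nonneg hf _ _ _ _)
    refine Finset.sum_le_sum_of_subset_of_nonneg ?_ fun m _ _ => WW_nonneg hf _ _ _ _
    intro i hi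
    rw [Finset.mem_range] at hi ⊢
    omega
  refine le_trans h2 ?_
  rw [mul_assoc, mul_assoc]
  refine mul_le_mul_of_nonneg_left ?_ (inv_nonneg.2 he.le)
  have hsx : 0 < Real.sqrt x := Real.sqrt_pos.2 (by linarith)
  have hsy : 1 ≤ Real.sqrt y := by
    rw [← Real.sqrt_one]
    exact Real.sqrt_le_sqrt hy1
  have h3 : ∀ z ∈ Icc 1 (x : ℤ), (∑ k ∈ range (M + 1), WW f 0 0 (k + 3) (x - z + 1)) *
      (∑ j ∈ range M, WW f 0 0 j (y - z)) ≤
      if z ≤ y then (2 * K * Real.sqrt x) * ((2 * K + 1) * Real.sqrt y) else 0 := by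
    intro z hz
    obtain ⟨hz1, hz2⟩ := Finset.mem_Icc.1 hz
    have hA : ∑ k ∈ range (M + 1), WW f 0 0 (k + 3) (x - z + 1) ≤ 2 * K * Real.sqrt x := by
      have h4 := green_pos hf hK hc hP (d := x - z + 1) (x := x) (by omega) (by omega) (M + 1 + 3)
      refine le_trans ?_ (by exact_mod_cast h4)
      rw [add_comm (M + 1) 3, Finset.sum_range_add (f := fun k : ℕ =>
        WW f 0 0 k (x - z + 1)) 3 (M + 1)]
      refine le_trans (le_of_eq ?_) (le_add_of_nonneg_left
        (Finset.sum_nonneg fun k _ => WW_nonneg hf _ _ _ _))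
      refine Finset.sum_congr rfl fun k _ => ?_
      rw [add_comm]
    have hA0 : 0 ≤ ∑ k ∈ range (M + 1), WW f 0 0 (k + 3) (x - z + 1) :=
      Finset.sum_nonneg fun k _ => WW_nonneg hf _ _ _ _
    split_ifs with hzy
    · refine mul_le_mul hA ?_ (Finset.sum_nonneg fun k _ => WW_nonneg hf _ _ _ _) (by positivity)
      rcases eq_or_lt_of_le hzy with h5 | h5
      · have h6 : ∑ j ∈ range M, WW f 0 0 j (y - z) ≤ 1 := by
          rw [h5, sub_self]
          simp only [WW00_zero hf]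
          rw [Finset.sum_ite_eq']
          split_ifs <;> norm_num
        nlinarith
      · have h6 := green_pos hf hK hc hP (d := y - z) (x := y) (by omega) (by omega) M
        nlinarith
    · have h6 : ∑ j ∈ range M, WW f 0 0 j (y - z) = 0 :=
        Finset.sum_eq_zero fun j _ => WW00_neg hf j (by omega)
      rw [h6, mul_zero]
  refine le_trans (Finset.sum_le_sum h3) ?_
  rw [← Finset.sum_filter, Finset.sum_const, nsmul_eq_mul]
  have hcard : ((((Icc 1 (x : ℤ)).filter (fun z => z ≤ y)).card : ℕ) : ℝ) ≤ y := by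
    have h4 : (Icc 1 (x : ℤ)).filter (fun z => z ≤ y) ⊆ Icc 1 y := by
      intro z hz
      simp only [Finset.mem_filter, Finset.mem_Icc] at hz ⊢
      omega
    have h5 := Finset.card_le_card h4
    rw [Int.card_Icc] at h5
    have h6 : (((Icc 1 (x : ℤ)).filter (fun z => z ≤ y)).card : ℤ) ≤ y := by omega
    exact_mod_cast h6
  have hsyy : Real.sqrt y ≤ y := by
    rw [Real.sqrt_le_left (by linarith)]
    nlinarith
  calc ((((Icc 1 (x : ℤ)).filter (fun z => z ≤ y)).card : ℕ) : ℝ) *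
        (2 * K * Real.sqrt x * ((2 * K + 1) * Real.sqrt y))
      ≤ y * (2 * K * Real.sqrt x * ((2 * K + 1) * y)) := by gcongr
    _ = _ := by ring

end walks

end Pool.Agent.SAPX.BL
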