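import Pool.Agent.SAPX.KDefs

/-!
Decomposition of walks that stay positive at the last time of their minimum.
-/

namespace Pool.Agent.SAPX.BL

open Finset

/-- kernel killed at or below `a` -/
def ka (f : ℕ → ℤ → ℝ) (a : ℤ) (m : ℕ) (x y : ℤ) : ℝ := if a < y then f m (y - x) else 0

/-- walks from `x` that stay above `a` after their start -/
noncomputable def WW (f : ℕ → ℤ → ℝ) (a x : ℤ) : ℕ → ℤ → ℝ := occ (ka f a) (dl 0 x)

lemma sum_supp_eq {s t : Finset ℤ} {F : ℤ → ℝ} (hs : ∀ w, F w ≠ 0 → w ∈ s)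
    (ht : ∀ w, F w ≠ 0 → w ∈ t) : ∑ w ∈ s, F w = ∑ w ∈ t, F w := by
  have h1 : ∑ w ∈ s ∩ t, F w = ∑ w ∈ s, F w := by
    refine Finset.sum_subset Finset.inter_subset_left fun w hw hw' => ?_
    by_contra h
    exact hw' (Finset.mem_inter.2 ⟨hw, ht w h⟩)
  have h2 : ∑ w ∈ s ∩ t, F w = ∑ w ∈ t, F w := by
    refine Finset.sum_subset Finset.inter_subset_right fun w hw hw' => ?_
    by_contra h
    exact hw' (Finset.mem_inter.2 ⟨hs w h, hw⟩)
  rw [← h1, h2]

lemma tri (m : ℕ) (F : ℕ → ℕ → ℝ) : ∑ k ∈ range (m + 1), ∑ i ∈ range (m - k), F k i =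
    ∑ j ∈ range m, ∑ k ∈ range (j + 1), F k (j - k) := by
  rw [Finset.sum_sigma', Finset.sum_sigma']
  refine Finset.sum_nbij' (fun p => ⟨p.1 + p.2, p.1⟩) (fun p => ⟨p.2, p.1 - p.2⟩) ?_ ?_ ?_ ?_ ?_
  · rintro ⟨k, i⟩ h
    simp only [Finset.mem_sigma, Finset.mem_range] at h ⊢
    omega
  · rintro ⟨j, k⟩ h
    simp only [Finset.mem_sigma, Finset.mem_range] at h ⊢
    omega
  · rintro ⟨k, i⟩ h
    simp
  · rintro ⟨j, k⟩ h
    simp only [Finset.mem_sigma, Finset.mem_range] at h ⊢
    have : k + (j - k) = j := by omega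
    simp [this]
  · rintro ⟨k, i⟩ h
    simp

/-- superposition -/
lemma superpose {g : ℕ → ℤ → ℤ → ℝ} {l L : ℕ → ℤ → ℝ} (h : Rec g l L) {s : ℕ → Finset ℤ}
    (hl : ∀ k x, l k x ≠ 0 → x ∈ s k) (m : ℕ) (y : ℤ) :
    L m y = ∑ k ∈ range (m + 1), ∑ x ∈ s k, l k x * occ g (dl 0 x) (m - k) y := by
  suffices hR : Rec g l (fun m y => ∑ k ∈ range (m + 1), ∑ x ∈ s k,
      l k x * occ g (dl 0 x) (m - k) y) by
    exact congrFun (congrFun (h.unique hR) m) y
  intro m y
  dsimp only
  have e1 : ∀ k ∈ range (m + 1), ∑ x ∈ s k, l k x * occ g (dl 0 x) (m - k) y =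
      (∑ x ∈ s k, l k x * dl 0 x (m - k) y) + ∑ i ∈ range (m - k), ∑ x ∈ s k,
        ∑ w ∈ Icc (y - (((m - k : ℕ) : ℤ) - i)) (y + (((m - k : ℕ) : ℤ) - i)),
          l k x * (occ g (dl 0 x) i w * g (m - k - i) w y) := by
    intro k _
    rw [Finset.sum_comm, ← Finset.sum_add_distrib]
    refine Finset.sum_congr rfl fun x _ => ?_
    rw [rec_occ g (dl 0 x) (m - k) y, mul_add, Finset.mul_sum]
    congr 1
    refine Finset.sum_congr rfl fun i _ => ?_
    rw [Finset.mul_sum]
  rw [Finset.sum_congr rfl e1, Finset.sum_add_distrib]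
  congr 1
  · rw [Finset.sum_eq_single m]
    · by_cases hy : y ∈ s m
      · rw [Finset.sum_eq_single y]
        · simp [dl]
        · intro x _ hx
          rw [dl, if_neg (fun h => hx h.2.symm), mul_zero]
        · intro h; exact absurd hy h
      · have h0 : l m y = 0 := by
          by_contra h0
          exact hy (hl m y h0)
        rw [h0]
        refine Finset.sum_eq_zero fun x hx => ?_
        rw [dl, if_neg, mul_zero]
        rintro ⟨_, rfl⟩
        exact hy hx
    · intro k hk hk'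
      refine Finset.sum_eq_zero fun x _ => ?_
      rw [dl, if_neg, mul_zero]
      rintro ⟨h1, _⟩
      have := Finset.mem_range.1 hk
      omega
    · intro h
      exact absurd (Finset.mem_range.2 (Nat.lt_succ_self m)) h
  · have e2 : ∀ j ∈ range m, ∑ w ∈ Icc (y - ((m : ℤ) - j)) (y + ((m : ℤ) - j)),
        (∑ k ∈ range (j + 1), ∑ x ∈ s k, l k x * occ g (dl 0 x) (j - k) w) * g (m - j) w y =
        ∑ k ∈ range (j + 1), ∑ x ∈ s k, ∑ w ∈ Icc (y - ((m : ℤ) - j)) (y + ((m : ℤ) - j)),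
          l k x * (occ g (dl 0 x) (j - k) w * g (m - j) w y) := by
      intro j _
      rw [Finset.sum_congr rfl (fun w _ => Finset.sum_mul _ _ _), Finset.sum_comm]
      refine Finset.sum_congr rfl fun k _ => ?_
      rw [Finset.sum_congr rfl (fun w _ => Finset.sum_mul _ _ _), Finset.sum_comm]
      refine Finset.sum_congr rfl fun x _ => Finset.sum_congr rfl fun w _ => ?_
      ring
    rw [Finset.sum_congr rfl e2, tri m (fun k i => ∑ x ∈ s k,
        ∑ w ∈ Icc (y - (((m - k : ℕ) : ℤ) - i)) (y + (((m - k : ℕ) : ℤ) - i)),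
          l k x * (occ g (dl 0 x) i w * g (m - k - i) w y))]
    refine Finset.sum_congr rfl fun j hj => Finset.sum_congr rfl fun k hk => ?_
    have hj' := Finset.mem_range.1 hj
    have hk' := Finset.mem_range.1 hk
    have h1 : ((m - k : ℕ) : ℤ) - ((j - k : ℕ) : ℤ) = (m : ℤ) - (j : ℤ) := by
      rw [Nat.cast_sub (show k ≤ m by omega), Nat.cast_sub (show k ≤ j by omega)]
      ring
    have h2 : m - k - (j - k) = m - j := by omega
    rw [h1, h2]

section walks
variable {f : ℕ → ℤ → ℝ}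

lemma WW_rec (f : ℕ → ℤ → ℝ) (a x : ℤ) : Rec (ka f a) (dl 0 x) (WW f a x) := rec_occ _ _

lemma ka_nonneg (hf : FreeLaw f) (a : ℤ) (m : ℕ) (x y : ℤ) : 0 ≤ ka f a m x y := by
  unfold ka
  split_ifs
  · exact hf.nonneg _ _
  · exact le_rfl

lemma dl_nonneg (k : ℕ) (x : ℤ) (m : ℕ) (y : ℤ) : 0 ≤ dl k x m y := by
  unfold dl
  split_ifs <;> norm_num

lemma WW_nonneg (hf : FreeLaw f) (a x : ℤ) (m : ℕ) (y : ℤ) : 0 ≤ WW f a x m y :=
  (WW_rec f a x).nonneg (ka_nonneg hf a) (dl_nonneg 0 x) m y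

lemma WW_supp (hf : FreeLaw f) (a x : ℤ) {m : ℕ} {y : ℤ} (h : WW f a x m y ≠ 0) :
    |y - x| ≤ m ∧ ((m = 0 ∧ y = x) ∨ a < y) := by
  induction m using Nat.strong_induction_on generalizing y with
  | _ m ih =>
    rw [WW_rec f a x m y] at h
    by_cases h1 : dl 0 x m y = 0
    · rw [h1, zero_add] at h
      obtain ⟨k, hk, h2⟩ := Finset.exists_ne_zero_of_sum_ne_zero h
      obtain ⟨w, hw, h3⟩ := Finset.exists_ne_zero_of_sum_ne_zero h2
      have h4 := left_ne_zero_of_mul h3
      have h5 := right_ne_zero_of_mul h3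
      have h6 := ih k (Finset.mem_range.1 hk) h4
      unfold ka at h5
      split_ifs at h5 with h7
      · refine ⟨?_, Or.inr h7⟩
        have h8 := (hf.supp _ _ h5).2.1
        have hk' : k < m := Finset.mem_range.1 hk
        rw [Nat.cast_sub hk'.le] at h8
        have h9 := h6.1
        rw [abs_le] at h8 h9 ⊢
        omega
      · exact absurd rfl h5
    · unfold dl at h1
      split_ifs at h1 with h2
      · obtain ⟨rfl, rfl⟩ := h2
        simp
      · exact absurd rfl h1

lemma WW_zero (f : ℕ → ℤ → ℝ) (a x : ℤ) (y : ℤ) : WW f a x 0 y = if y = x then 1 else 0 := by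
  rw [WW_rec f a x 0 y]
  simp [dl]

lemma WW_trans (f : ℕ → ℤ → ℝ) (a x t : ℤ) (m : ℕ) (y : ℤ) :
    WW f (a + t) (x + t) m (y + t) = WW f a x m y := by
  induction m using Nat.strong_induction_on generalizing y with
  | _ m ih =>
    rw [WW_rec f a x m y, WW_rec f (a + t) (x + t) m (y + t)]
    congr 1
    · simp [dl]
    · refine Finset.sum_congr rfl fun k hk => ?_
      refine Finset.sum_nbij' (fun w => w - t) (fun w => w + t) ?_ ?_ ?_ ?_ ?_
      · intro w hw
        simp only [Finset.mem_Icc] at hw ⊢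
        omega
      · intro w hw
        simp only [Finset.mem_Icc] at hw ⊢
        omega
      · intro w _
        simp
      · intro w _
        simp
      · intro w _
        have h1 := ih k (Finset.mem_range.1 hk) (w - t)
        rw [sub_add_cancel] at h1
        have h2 : ka f (a + t) (m - k) w (y + t) = ka f a (m - k) (w - t) y := by
          unfold ka
          simp only [add_lt_add_iff_right]
          rw [show y + t - w = y - (w - t) by ring]
        rw [h1, h2]

/-- decomposition at the last visit of the level `a + 1` -/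
lemma WW_level (hf : FreeLaw f) {a x : ℤ} (hx : a < x) (m : ℕ) (y : ℤ) :
    WW f a x m y = (if x = a + 1 then 0 else WW f (a + 1) x m y) +
      ∑ k ∈ range (m + 1), WW f a x k (a + 1) * WW f (a + 1) (a + 1) (m - k) y := by
  set l : ℕ → ℤ → ℝ := fun m y => if y = a + 1 then WW f a x m (a + 1) else
    if x = a + 1 then 0 else dl 0 x m y with hl
  have hR : Rec (ka f (a + 1)) l (WW f a x) := by
    intro m y
    rcases lt_trichotomy y (a + 1) with hy | hy | hy
    · have h1 : l m y = 0 := by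
        rw [hl]
        dsimp only
        rw [if_neg hy.ne]
        split_ifs
        · rfl
        · unfold dl
          rw [if_neg]
          rintro ⟨_, rfl⟩
          omega
      have h2 : WW f a x m y = 0 := by
        by_contra h
        have := (WW_supp hf a x h).2
        omega
      rw [h1, h2, zero_add]
      symm
      refine Finset.sum_eq_zero fun k _ => Finset.sum_eq_zero fun w _ => ?_
      unfold ka
      rw [if_neg (by omega), mul_zero]
    · have h1 : l m y = WW f a x m y := by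
        rw [hl]
        dsimp only
        rw [if_pos hy, hy]
      rw [h1]
      symm
      rw [add_eq_left]
      refine Finset.sum_eq_zero fun k _ => Finset.sum_eq_zero fun w _ => ?_
      unfold ka
      rw [if_neg (by omega), mul_zero]
    · have h1 : l m y = dl 0 x m y := by
        rw [hl]
        dsimp only
        rw [if_neg hy.ne']
        split_ifs with h
        · unfold dl
          rw [if_neg]
          rintro ⟨_, rfl⟩
          omega
        · rfl
      rw [h1, WW_rec f a x m y]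
      congr 1
      refine Finset.sum_congr rfl fun k _ => Finset.sum_congr rfl fun w _ => ?_
      unfold ka
      rw [if_pos (by omega), if_pos (by omega)]
  have hs := superpose hR (s := fun _ => {a + 1, x}) (fun k v hv => by
    rw [hl] at hv
    dsimp only at hv
    split_ifs at hv with h1 h2
    · simp [h1]
    · exact absurd rfl hv
    · unfold dl at hv
      split_ifs at hv with h3
      · simp [h3.2]
      · exact absurd rfl hv) m y
  rw [hs]
  by_cases hxa : x = a + 1
  · rw [if_pos hxa, zero_add]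
    refine Finset.sum_congr rfl fun k _ => ?_
    rw [hxa, Finset.pair_eq_singleton, Finset.sum_singleton, hl]
    dsimp only
    rw [if_pos rfl, hxa]
    rfl
  · rw [if_neg hxa]
    have e : ∀ k ∈ range (m + 1), ∑ v ∈ ({a + 1, x} : Finset ℤ),
        l k v * occ (ka f (a + 1)) (dl 0 v) (m - k) y =
        WW f a x k (a + 1) * WW f (a + 1) (a + 1) (m - k) y +
          (if k = 0 then WW f (a + 1) x m y else 0) := by
      intro k _
      rw [Finset.sum_pair (Ne.symm hxa), hl]
      dsimp only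
      rw [if_pos rfl, if_neg hxa, if_neg hxa]
      congr 1
      unfold dl
      split_ifs with h1 h2 h2
      · rw [h2, Nat.sub_zero, one_mul]
        rfl
      · exact absurd h1.1 h2
      · exact absurd ⟨h2, rfl⟩ h1
      · rw [zero_mul]
    rw [Finset.sum_congr rfl e, Finset.sum_add_distrib, add_comm]
    congr 1
    rw [Finset.sum_ite_eq' (range (m + 1)) 0, if_pos (Finset.mem_range.2 (Nat.succ_pos m))]

/-- decomposition at the last time of the minimum -/
lemma WW_min (hf : FreeLaw f) (n : ℕ) (x : ℤ) (m : ℕ) (y : ℤ) :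
    WW f (x - 1 - n) x m y = ∑ z ∈ Icc (x - n) x, ∑ k ∈ range (m + 1),
      WW f (z - 1) x k z * WW f z z (m - k) y := by
  induction n with
  | zero =>
    rw [WW_level hf (by push_cast; omega) m y]
    have h1 : x = x - 1 - ((0 : ℕ) : ℤ) + 1 := by push_cast; ring
    have h2 : Icc (x - ((0 : ℕ) : ℤ)) x = {x} := by simp
    rw [if_pos h1, zero_add, h2, Finset.sum_singleton]
    simp
  | succ n ih =>
    rw [WW_level hf (by push_cast; omega) m y]
    have h1 : ¬ (x = x - 1 - ((n + 1 : ℕ) : ℤ) + 1) := by push_cast; omega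
    have h2 : x - 1 - ((n + 1 : ℕ) : ℤ) + 1 = x - 1 - (n : ℤ) := by push_cast; ring
    have h3 : Icc (x - ((n + 1 : ℕ) : ℤ)) x = insert (x - 1 - (n : ℤ)) (Icc (x - (n : ℤ)) x) := by
      ext v
      simp only [Finset.mem_Icc, Finset.mem_insert]
      push_cast
      omega
    rw [if_neg h1, h2, ih, h3, Finset.sum_insert, add_comm]
    · congr 1
      refine Finset.sum_congr rfl fun k _ => ?_
      rw [show x - 1 - ((n + 1 : ℕ) : ℤ) = x - 1 - (n : ℤ) - 1 by push_cast; ring]
    · simp only [Finset.mem_Icc]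
      omega


/-- recursion with the sum over a big box -/
lemma WW_box (hf : FreeLaw f) {x : ℤ} (hx : 0 < x) {k : ℕ} {w : ℤ} (hw : 0 < w) {N : ℤ}
    (hN : x + k ≤ N) : WW f 0 x k w = dl 0 x k w + ∑ j ∈ range k, ∑ v ∈ Icc 1 N,
      WW f 0 x j v * f (k - j) (w - v) := by
  rw [WW_rec f 0 x k w]
  congr 1
  refine Finset.sum_congr rfl fun j hj => ?_
  have hj' := Finset.mem_range.1 hj
  have e : ∀ v, WW f 0 x j v * ka f 0 (k - j) v w = WW f 0 x j v * f (k - j) (w - v) := by
    intro v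
    unfold ka
    rw [if_pos hw]
  rw [Finset.sum_congr rfl (fun v _ => e v)]
  refine sum_supp_eq (fun v hv => ?_) (fun v hv => ?_)
  · have h1 := (hf.supp _ _ (right_ne_zero_of_mul hv)).2.1
    rw [Nat.cast_sub hj'.le, abs_le] at h1
    rw [Finset.mem_Icc]
    omega
  · have h1 := WW_supp hf 0 x (left_ne_zero_of_mul hv)
    have h2 := abs_le.1 h1.1
    rw [Finset.mem_Icc]
    omega

lemma tri2 (M : ℕ) (F : ℕ → ℕ → ℝ) : ∑ k ∈ range (M + 1), ∑ j ∈ range (M - k), F k j =
    ∑ k ∈ range (M + 1), ∑ j ∈ range k, F j (M - k) := by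
  rw [Finset.sum_sigma', Finset.sum_sigma']
  refine Finset.sum_nbij' (fun p => ⟨M - p.2, p.1⟩) (fun p => ⟨p.2, M - p.1⟩) ?_ ?_ ?_ ?_ ?_
  · rintro ⟨k, i⟩ h
    simp only [Finset.mem_sigma, Finset.mem_range] at h ⊢
    omega
  · rintro ⟨j, k⟩ h
    simp only [Finset.mem_sigma, Finset.mem_range] at h ⊢
    omega
  · rintro ⟨k, i⟩ h
    simp only [Finset.mem_sigma, Finset.mem_range] at h ⊢
    have : M - (M - i) = i := by omega
    simp [this]
  · rintro ⟨j, k⟩ h
    simp only [Finset.mem_sigma, Finset.mem_range] at h ⊢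
    have : M - (M - j) = j := by omega
    simp [this]
  · rintro ⟨k, i⟩ h
    simp only [Finset.mem_sigma, Finset.mem_range] at h ⊢
    have : M - (M - i) = i := by omega
    simp [this]

/-- time reversal -/
lemma WW_symm (hf : FreeLaw f) {x y : ℤ} (hx : 0 < x) (hy : 0 < y) (M : ℕ) :
    WW f 0 x M y = WW f 0 y M x := by
  set N : ℤ := x + y + M with hN
  have hs : ∀ m (u v : ℤ), f m (u - v) = f m (v - u) := fun m u v => by
    rw [← hf.symm m (v - u), neg_sub]
  -- expand the second factor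
  have e1 : ∀ k ∈ range (M + 1), ∑ w ∈ Icc 1 N, WW f 0 x k w * WW f 0 y (M - k) w =
      (∑ w ∈ Icc 1 N, WW f 0 x k w * dl 0 y (M - k) w) + ∑ j ∈ range (M - k),
        ∑ w ∈ Icc 1 N, ∑ v ∈ Icc 1 N, WW f 0 x k w * f (M - k - j) (w - v) * WW f 0 y j v := by
    intro k hk
    have hk' := Finset.mem_range.1 hk
    rw [Finset.sum_comm, ← Finset.sum_add_distrib]
    refine Finset.sum_congr rfl fun w hw => ?_
    have hw' := (Finset.mem_Icc.1 hw).1
    rw [WW_box hf hy (by omega : 0 < w) (N := N) (by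
      rw [hN, Nat.cast_sub (by omega)]; omega), mul_add, Finset.mul_sum]
    congr 1
    refine Finset.sum_congr rfl fun j _ => ?_
    rw [Finset.mul_sum]
    refine Finset.sum_congr rfl fun v _ => ?_
    ring
  have e2 : ∀ k ∈ range (M + 1), ∑ w ∈ Icc 1 N, WW f 0 x k w * WW f 0 y (M - k) w =
      (∑ w ∈ Icc 1 N, dl 0 x k w * WW f 0 y (M - k) w) + ∑ j ∈ range k,
        ∑ w ∈ Icc 1 N, ∑ v ∈ Icc 1 N, WW f 0 x j w * f (k - j) (w - v) *
          WW f 0 y (M - k) v := by
    intro k hk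
    have hk' := Finset.mem_range.1 hk
    have e3 : ∀ w ∈ Icc 1 N, WW f 0 x k w * WW f 0 y (M - k) w =
        dl 0 x k w * WW f 0 y (M - k) w + ∑ j ∈ range k, ∑ v ∈ Icc 1 N,
          WW f 0 x j v * f (k - j) (v - w) * WW f 0 y (M - k) w := by
      intro w hw
      have hw' := (Finset.mem_Icc.1 hw).1
      rw [WW_box hf hx (by omega : 0 < w) (k := k) (N := N) (by rw [hN]; omega), add_mul,
        Finset.sum_mul]
      congr 1
      refine Finset.sum_congr rfl fun j _ => ?_
      rw [Finset.sum_mul]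
      refine Finset.sum_congr rfl fun v _ => ?_
      rw [hs]
    rw [Finset.sum_congr rfl e3, Finset.sum_add_distrib]
    congr 1
    rw [Finset.sum_comm]
    refine Finset.sum_congr rfl fun j _ => ?_
    rw [Finset.sum_comm]
  have h1 : ∑ k ∈ range (M + 1), ∑ w ∈ Icc 1 N, WW f 0 x k w * dl 0 y (M - k) w =
      WW f 0 x M y := by
    rw [Finset.sum_eq_single M]
    · rw [Finset.sum_eq_single y]
      · simp [dl]
      · intro w _ hw
        rw [dl, if_neg (fun h => hw h.2), mul_zero]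
      · intro h
        exact absurd (Finset.mem_Icc.2 ⟨by omega, by rw [hN]; omega⟩) h
    · intro k hk hk'
      refine Finset.sum_eq_zero fun w _ => ?_
      rw [dl, if_neg, mul_zero]
      rintro ⟨h1, _⟩
      have := Finset.mem_range.1 hk
      omega
    · intro h
      exact absurd (Finset.mem_range.2 (Nat.lt_succ_self M)) h
  have h2 : ∑ k ∈ range (M + 1), ∑ w ∈ Icc 1 N, dl 0 x k w * WW f 0 y (M - k) w =
      WW f 0 y M x := by
    rw [Finset.sum_eq_single 0]
    · rw [Finset.sum_eq_single x]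
      · simp [dl]
      · intro w _ hw
        rw [dl, if_neg (fun h => hw h.2), zero_mul]
      · intro h
        exact absurd (Finset.mem_Icc.2 ⟨by omega, by rw [hN]; omega⟩) h
    · intro k hk hk'
      refine Finset.sum_eq_zero fun w _ => ?_
      rw [dl, if_neg (fun h => hk' h.1), zero_mul]
    · intro h
      exact absurd (Finset.mem_range.2 (Nat.succ_pos M)) h
  have h3 := Finset.sum_congr rfl e1
  have h4 := Finset.sum_congr rfl e2
  rw [Finset.sum_add_distrib, h1] at h3
  rw [Finset.sum_add_distrib, h2] at h4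
  have h5 : ∑ k ∈ range (M + 1), ∑ j ∈ range (M - k),
        ∑ w ∈ Icc 1 N, ∑ v ∈ Icc 1 N, WW f 0 x k w * f (M - k - j) (w - v) * WW f 0 y j v =
      ∑ k ∈ range (M + 1), ∑ j ∈ range k,
        ∑ w ∈ Icc 1 N, ∑ v ∈ Icc 1 N, WW f 0 x j w * f (k - j) (w - v) *
          WW f 0 y (M - k) v := by
    rw [tri2 M (fun k j => ∑ w ∈ Icc 1 N, ∑ v ∈ Icc 1 N,
      WW f 0 x k w * f (M - k - j) (w - v) * WW f 0 y j v)]
    refine Finset.sum_congr rfl fun k hk => Finset.sum_congr rfl fun j hj => ?_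
    have hk' := Finset.mem_range.1 hk
    have hj' := Finset.mem_range.1 hj
    rw [show M - j - (M - k) = k - j by omega]
  linarith

/-- prepend a block -/
lemma WW_prepend (hf : FreeLaw f) (m : ℕ) (y : ℤ) :
    f 3 1 * WW f 0 1 m y ≤ WW f 0 0 (m + 3) y := by
  induction m using Nat.strong_induction_on generalizing y with
  | _ m ih =>
    have hge : dl 0 0 (m + 3) y + ∑ k ∈ range (m + 3),
        ∑ x ∈ Icc (y - (((m + 3 : ℕ) : ℤ) - k)) (y + (((m + 3 : ℕ) : ℤ) - k)),
          WW f 0 0 k x * ka f 0 (m + 3 - k) x y = WW f 0 0 (m + 3) y :=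
      (WW_rec f 0 0 (m + 3) y).symm
    have hnn : ∀ k ∈ range (m + 3), 0 ≤
        ∑ x ∈ Icc (y - (((m + 3 : ℕ) : ℤ) - k)) (y + (((m + 3 : ℕ) : ℤ) - k)),
          WW f 0 0 k x * ka f 0 (m + 3 - k) x y := fun k _ =>
      Finset.sum_nonneg fun x _ => mul_nonneg (WW_nonneg hf _ _ _ _) (ka_nonneg hf _ _ _ _)
    by_cases hc : m = 0 ∧ y = 1
    · obtain ⟨rfl, rfl⟩ := hc
      rw [WW_zero, if_pos rfl, mul_one, ← hge]
      have h1 := Finset.single_le_sum hnn (Finset.mem_range.2 (Nat.succ_pos 2) : 0 ∈ range (0 + 3))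
      have h2 : f 3 1 ≤ ∑ x ∈ Icc ((1 : ℤ) - (((0 + 3 : ℕ) : ℤ) - ((0 : ℕ) : ℤ)))
          (1 + (((0 + 3 : ℕ) : ℤ) - ((0 : ℕ) : ℤ))),
          WW f 0 0 0 x * ka f 0 (0 + 3 - 0) x 1 := by
        have h3 := Finset.single_le_sum (f := fun x => WW f 0 0 0 x * ka f 0 (0 + 3 - 0) x 1)
          (fun x _ => mul_nonneg (WW_nonneg hf _ _ _ _) (ka_nonneg hf _ _ _ _))
          (Finset.mem_Icc.2 (by norm_num) : (0 : ℤ) ∈ Icc ((1 : ℤ) - (((0 + 3 : ℕ) : ℤ) -
            ((0 : ℕ) : ℤ))) (1 + (((0 + 3 : ℕ) : ℤ) - ((0 : ℕ) : ℤ))))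
        refine le_trans (le_of_eq ?_) h3
        simp [WW_zero, ka]
      have h4 := dl_nonneg 0 0 (0 + 3) 1
      exact le_trans h2 (le_trans h1 (le_add_of_nonneg_left h4))
    · rw [WW_rec f 0 1 m y]
      have h1 : dl 0 1 m y = 0 := by
        unfold dl
        rw [if_neg hc]
      rw [h1, zero_add, Finset.mul_sum, ← hge]
      refine le_trans ?_ (le_add_of_nonneg_left (dl_nonneg 0 0 (m + 3) y))
      have h2 : ∑ k ∈ range m,
          ∑ x ∈ Icc (y - (((m + 3 : ℕ) : ℤ) - ((k + 3 : ℕ) : ℤ)))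
            (y + (((m + 3 : ℕ) : ℤ) - ((k + 3 : ℕ) : ℤ))),
            WW f 0 0 (k + 3) x * ka f 0 (m + 3 - (k + 3)) x y ≤ ∑ k ∈ range (m + 3),
          ∑ x ∈ Icc (y - (((m + 3 : ℕ) : ℤ) - k)) (y + (((m + 3 : ℕ) : ℤ) - k)),
            WW f 0 0 k x * ka f 0 (m + 3 - k) x y := by
        rw [add_comm m 3, Finset.sum_range_add (f := fun k : ℕ =>
          ∑ x ∈ Icc (y - (((3 + m : ℕ) : ℤ) - k)) (y + (((3 + m : ℕ) : ℤ) - k)),
            WW f 0 0 k x * ka f 0 (3 + m - k) x y) 3 m]
        refine le_trans (le_of_eq ?_) (le_add_of_nonneg_left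
          (Finset.sum_nonneg fun k hk => Finset.sum_nonneg fun x _ =>
            mul_nonneg (WW_nonneg hf _ _ _ _) (ka_nonneg hf _ _ _ _)))
        refine Finset.sum_congr rfl fun k _ => ?_
        rw [add_comm k 3]
      refine le_trans (Finset.sum_le_sum fun k hk => ?_) h2
      have hk' := Finset.mem_range.1 hk
      rw [Finset.mul_sum, show m + 3 - (k + 3) = m - k by omega,
        show (((m + 3 : ℕ) : ℤ) - ((k + 3 : ℕ) : ℤ)) = (m : ℤ) - k by push_cast; ring]
      refine Finset.sum_le_sum fun x _ => ?_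
      rw [← mul_assoc]
      exact mul_le_mul_of_nonneg_right (ih k hk' x) (ka_nonneg hf _ _ _ _)

/-- main inequality -/
lemma WW_le (hf : FreeLaw f) {x : ℤ} (hx : 0 < x) (m : ℕ) (y : ℤ) :
    WW f 0 x m y ≤ (f 3 1)⁻¹ * ∑ z ∈ Icc 1 x, ∑ k ∈ range (m + 1),
      WW f 0 0 (k + 3) (x - z + 1) * WW f 0 0 (m - k) (y - z) := by
  have h0 : (0 : ℝ) < f 3 1 := hf.three
  obtain ⟨n, hn⟩ : ∃ n : ℕ, (n : ℤ) = x - 1 := ⟨(x - 1).toNat, by omega⟩
  have h1 := WW_min hf n x m y
  rw [show x - 1 - (n : ℤ) = 0 by omega, show x - (n : ℤ) = 1 by omega] at h1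
  rw [h1, Finset.mul_sum]
  refine Finset.sum_le_sum fun z hz => ?_
  obtain ⟨hz1, hz2⟩ := Finset.mem_Icc.1 hz
  rw [Finset.mul_sum]
  refine Finset.sum_le_sum fun k _ => ?_
  have h2 : WW f z z (m - k) y = WW f 0 0 (m - k) (y - z) := by
    have := WW_trans f 0 0 z (m - k) (y - z)
    rwa [zero_add, sub_add_cancel] at this
  have h3 : WW f (z - 1) x k z = WW f 0 (x - z + 1) k 1 := by
    have := WW_trans f 0 (x - z + 1) (z - 1) k 1
    rwa [zero_add, show x - z + 1 + (z - 1) = x by ring, show 1 + (z - 1) = z by ring] at this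
  rw [h2, h3, ← mul_assoc]
  refine mul_le_mul_of_nonneg_right ?_ (WW_nonneg hf _ _ _ _)
  rw [WW_symm hf (by omega) one_pos, ← div_eq_inv_mul, le_div_iff₀ h0, mul_comm]
  exact WW_prepend hf k _

end walks

end Pool.Agent.SAPX.BL
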