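import Mathlib

/-!
Killed renewal walks: definitions and basic facts.

`f m d` is the probability that a block has length `m` and height `d`; `g m x y` is the probability
that a block has length `m`, leads from the gap `x` to the gap `y` and is admissible at `x`.
-/

namespace Pool.Agent.SAPX

open Filter Topology

/-- law of the blocks -/
structure FreeLaw (f : ℕ → ℤ → ℝ) : Prop where
  nonneg : ∀ m d, 0 ≤ f m d
  supp : ∀ m d, f m d ≠ 0 → 1 ≤ m ∧ |d| ≤ m ∧ Even ((m : ℤ) + d)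
  symm : ∀ m d, f m (-d) = f m d
  two : 0 < f 2 0
  three : 0 < f 3 1
  total : HasSum (fun p : ℕ × ℤ => f p.1 p.2) 1
  tail : ∃ δ > 0, Summable (fun p : ℕ × ℤ => f p.1 p.2 * Real.exp (δ * p.1))

/-- mean length of a block -/
noncomputable def mean (f : ℕ → ℤ → ℝ) : ℝ := ∑' p : ℕ × ℤ, f p.1 p.2 * p.1

/-- variance of the height per unit of length -/
noncomputable def var (f : ℕ → ℤ → ℝ) : ℝ := (∑' p : ℕ × ℤ, f p.1 p.2 * (p.2 : ℝ) ^ 2) / mean f

/-- killed kernel -/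
structure Killed (f : ℕ → ℤ → ℝ) (g : ℕ → ℤ → ℤ → ℝ) : Prop where
  nonneg : ∀ m x y, 0 ≤ g m x y
  le : ∀ m x y, g m x y ≤ f m (y - x)
  pos : ∀ m x y, g m x y ≠ 0 → 0 < x ∧ 0 < y
  far : ∀ (m : ℕ) (x y : ℤ), (m : ℤ) < x ∨ (m : ℤ) < y → g m x y = f m (y - x)
  up : ∀ x, 0 < x → 0 < g 3 x (x + 1)
  down : ∀ x, 0 < x → 0 < g 3 (x + 1) x

/-- reversed kernel -/
def rev (g : ℕ → ℤ → ℤ → ℝ) (m : ℕ) (x y : ℤ) : ℝ := g m y x

lemma Killed.rev {f : ℕ → ℤ → ℝ} {g : ℕ → ℤ → ℤ → ℝ} (hf : FreeLaw f) (hg : Killed f g) :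
    Killed f (rev g) := by
  have hs : ∀ m (x y : ℤ), f m (x - y) = f m (y - x) := fun m x y => by
    rw [← hf.symm m (y - x), neg_sub]
  refine ⟨fun m x y => hg.nonneg m y x, fun m x y => ?_, fun m x y h => ?_, fun m x y h => ?_,
    fun x hx => hg.down x hx, fun x hx => hg.up x hx⟩
  · have := hg.le m y x
    rw [hs] at this
    exact this
  · have := hg.pos m y x h
    exact ⟨this.2, this.1⟩
  · have := hg.far m y x h.symm
    rw [hs] at this
    exact this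

/-- law of the length and of the gap of a cap -/
structure CapLaw (l : ℕ → ℤ → ℝ) : Prop where
  nonneg : ∀ m x, 0 ≤ l m x
  supp : ∀ m x, l m x ≠ 0 → 0 < x ∧ x ≤ m ∧ Even ((m : ℤ) + x)
  tail : ∃ δ > 0, Summable (fun p : ℕ × ℤ => l p.1 p.2 * Real.exp (δ * p.1))
  ne : ∃ m x, l m x ≠ 0

/-- `L` is the occupation measure of the kernel `g` started with the law `l` -/
def Rec (g : ℕ → ℤ → ℤ → ℝ) (l L : ℕ → ℤ → ℝ) : Prop :=
  ∀ m y, L m y = l m y + ∑ k ∈ Finset.range m,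
    ∑ x ∈ Finset.Icc (y - ((m : ℤ) - k)) (y + ((m : ℤ) - k)), L k x * g (m - k) x y

/-- the occupation measure -/
noncomputable def occ (g : ℕ → ℤ → ℤ → ℝ) (l : ℕ → ℤ → ℝ) (m : ℕ) (y : ℤ) : ℝ :=
  l m y + ∑ k : Fin m,
    ∑ x ∈ Finset.Icc (y - ((m : ℤ) - (k : ℕ))) (y + ((m : ℤ) - (k : ℕ))),
      occ g l k x * g (m - k) x y
termination_by m
decreasing_by exact k.2

lemma rec_occ (g : ℕ → ℤ → ℤ → ℝ) (l : ℕ → ℤ → ℝ) : Rec g l (occ g l) := by
  intro m y
  rw [occ]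
  congr 1
  exact Fin.sum_univ_eq_sum_range (fun k =>
    ∑ x ∈ Finset.Icc (y - ((m : ℤ) - k)) (y + ((m : ℤ) - k)), occ g l k x * g (m - k) x y) m

lemma Rec.unique {g : ℕ → ℤ → ℤ → ℝ} {l L L' : ℕ → ℤ → ℝ} (h : Rec g l L) (h' : Rec g l L') :
    L = L' := by
  have key : ∀ m, ∀ y, L m y = L' m y := by
    intro m
    induction m using Nat.strong_induction_on with
    | _ m ih =>
      intro y
      rw [h m y, h' m y]
      congr 1
      refine Finset.sum_congr rfl fun k hk => Finset.sum_congr rfl fun x _ => ?_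
      rw [ih k (Finset.mem_range.1 hk) x]
  funext m y
  exact key m y

lemma Rec.nonneg {g : ℕ → ℤ → ℤ → ℝ} {l L : ℕ → ℤ → ℝ} (h : Rec g l L)
    (hg : ∀ m x y, 0 ≤ g m x y) (hl : ∀ m y, 0 ≤ l m y) (m : ℕ) (y : ℤ) : 0 ≤ L m y := by
  induction m using Nat.strong_induction_on generalizing y with
  | _ m ih =>
    rw [h m y]
    refine add_nonneg (hl m y) (Finset.sum_nonneg fun k hk => Finset.sum_nonneg fun x _ => ?_)
    exact mul_nonneg (ih k (Finset.mem_range.1 hk) x) (hg _ _ _)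

lemma Rec.mono {g g' : ℕ → ℤ → ℤ → ℝ} {l l' L L' : ℕ → ℤ → ℝ} (h : Rec g l L) (h' : Rec g' l' L')
    (hg : ∀ m x y, 0 ≤ g m x y) (hl : ∀ m y, 0 ≤ l m y)
    (hgg : ∀ m x y, g m x y ≤ g' m x y) (hll : ∀ m y, l m y ≤ l' m y) (m : ℕ) (y : ℤ) :
    L m y ≤ L' m y := by
  induction m using Nat.strong_induction_on generalizing y with
  | _ m ih =>
    rw [h m y, h' m y]
    refine add_le_add (hll m y) (Finset.sum_le_sum fun k hk => Finset.sum_le_sum fun x _ => ?_)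
    refine mul_le_mul (ih k (Finset.mem_range.1 hk) x) (hgg _ _ _) (hg _ _ _) ?_
    exact le_trans (h.nonneg hg hl k x) (ih k (Finset.mem_range.1 hk) x)

/-- the free kernel -/
def free (f : ℕ → ℤ → ℝ) (m : ℕ) (x y : ℤ) : ℝ := f m (y - x)

/-- unit mass at `(k, x)` -/
def dl (k : ℕ) (x : ℤ) (m : ℕ) (y : ℤ) : ℝ := if m = k ∧ y = x then 1 else 0

/-- renewal measure of the free walk -/
noncomputable def uu (f : ℕ → ℤ → ℝ) : ℕ → ℤ → ℝ := occ (free f) (dl 0 0)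

section basic
variable {f : ℕ → ℤ → ℝ} {g : ℕ → ℤ → ℤ → ℝ} {l L : ℕ → ℤ → ℝ}

lemma FreeLaw.zero (hf : FreeLaw f) (d : ℤ) : f 0 d = 0 := by
  by_contra h
  have := (hf.supp 0 d h).1
  omega

lemma FreeLaw.zero_of_lt (hf : FreeLaw f) {m : ℕ} {d : ℤ} (h : (m : ℤ) < |d|) : f m d = 0 := by
  by_contra h'
  have := (hf.supp m d h').2.1
  omega

lemma FreeLaw.zero_of_odd (hf : FreeLaw f) {m : ℕ} {d : ℤ} (h : ¬ Even ((m : ℤ) + d)) :
    f m d = 0 := by
  by_contra h'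
  exact h (hf.supp m d h').2.2

lemma Killed.zero (hg : Killed f g) {m : ℕ} {x y : ℤ} (h : f m (y - x) = 0) :
    g m x y = 0 := le_antisymm (h ▸ hg.le m x y) (hg.nonneg m x y)

lemma capLaw_dl {x : ℕ} (hx : 0 < x) : CapLaw (dl x x) := by
  refine ⟨fun m y => ?_, fun m y h => ?_, ⟨1, one_pos, ?_⟩, ⟨x, x, ?_⟩⟩
  · unfold dl; split_ifs <;> norm_num
  · unfold dl at h
    split_ifs at h with h'
    · obtain ⟨rfl, rfl⟩ := h'
      refine ⟨by exact_mod_cast hx, le_rfl, ⟨m, rfl⟩⟩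
    · exact absurd rfl h
  · refine summable_of_ne_finset_zero (s := {(x, (x : ℤ))}) fun p hp => ?_
    unfold dl
    rw [Finset.mem_singleton] at hp
    rw [if_neg (fun h => hp (Prod.ext h.1 h.2)), zero_mul]
  · unfold dl; simp

/-- support of an occupation measure -/
lemma Rec.supp (hf : FreeLaw f) (hg : Killed f g) (hl : CapLaw l) (h : Rec g l L) {m : ℕ} {y : ℤ}
    (hne : L m y ≠ 0) : 0 < y ∧ y ≤ m ∧ Even ((m : ℤ) + y) := by
  induction m using Nat.strong_induction_on generalizing y with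
  | _ m ih =>
    by_cases h1 : l m y = 0
    · rw [h m y, h1, zero_add] at hne
      obtain ⟨k, hk, h2⟩ := Finset.exists_ne_zero_of_sum_ne_zero hne
      obtain ⟨x, hx, h3⟩ := Finset.exists_ne_zero_of_sum_ne_zero h2
      have h4 : L k x ≠ 0 := left_ne_zero_of_mul h3
      have h5 : g (m - k) x y ≠ 0 := right_ne_zero_of_mul h3
      have h6 := ih k (Finset.mem_range.1 hk) h4
      have h7 := hg.pos _ _ _ h5
      have h8 : f (m - k) (y - x) ≠ 0 := fun h0 => h5 (hg.zero h0)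
      have h9 := hf.supp _ _ h8
      have hk' : k < m := Finset.mem_range.1 hk
      rw [Nat.cast_sub hk'.le] at h9
      refine ⟨h7.2, ?_, ?_⟩
      · have := (abs_le.1 h9.2.1).2
        omega
      · have := h6.2.2.add h9.2.2
        rwa [show (k : ℤ) + x + ((m : ℤ) - k + (y - x)) = m + y by ring] at this
    · exact hl.supp m y h1

end basic

end Pool.Agent.SAPX
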