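import Pool.Agent.SAPK.DefsK
import Pool.Agent.SAPX.KDefs

/-!
Polygons as sequences of irreducible pairs of bridges: definitions and basic facts.
-/

namespace Pool.Agent.SAPX

open Pool.Agent.SAPF Pool.Agent.SAPK

/-- pairs of words -/
abbrev PW : Type := Word × Word

/-- total length -/
def ln (p : PW) : ℕ := p.1.length + p.2.length

/-- difference of the final heights -/
def ht (p : PW) : ℤ := Y p.1 - Y p.2

/-- pairs of bridges of the same span -/
structure IsPB (p : PW) : Prop where
  br1 : IsBr p.1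
  br2 : IsBr p.2
  span : X p.1 = X p.2

/-- irreducible pairs of bridges (blocks): no common cut -/
structure IsPIrr (p : PW) : Prop where
  pb : IsPB p
  pos : 0 < X p.1
  irr : ∀ {q r : PW}, IsPB q → IsPB r → p.1 = q.1 ++ r.1 → p.2 = q.2 ++ r.2 →
    q = ([], []) ∨ r = ([], [])

/-- concatenation of a list of pairs -/
def pfl (l : List PW) : PW := ((l.map Prod.fst).flatten, (l.map Prod.snd).flatten)

/-- the factorization into blocks -/
noncomputable def blocks (p : PW) : List PW := by
  classical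
  exact if h : ∃ l : List PW, (∀ q ∈ l, IsPIrr q) ∧ pfl l = p then h.choose else []

/-- the two paths, started at heights `d` and `0` of the same column, are disjoint after their
starting points -/
def Disj (d : ℤ) (p : PW) : Prop := ∀ t s, t <+: p.1 → s <+: p.2 → t ≠ [] → s ≠ [] → X t = X s →
  Y t + d ≠ Y s

/-- admissible first blocks: the two paths share their first edge (which leads to the lowest
leftmost vertex of the polygon) and are disjoint otherwise -/
structure CapL (p : PW) : Prop where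
  disj : ∀ t s, t <+: p.1 → s <+: p.2 → t ≠ [] → s ≠ [] → X t = X s → Y t = Y s →
    t = [Dir.E] ∧ s = [Dir.E]
  low1 : ∀ t, t <+: p.1 → X t = 1 → 0 ≤ Y t
  low2 : ∀ t, t <+: p.2 → X t = 1 → 0 ≤ Y t

/-- admissible last blocks at the gap `x`: the two paths meet at their last vertex (the lowest
rightmost vertex of the polygon) and are disjoint otherwise -/
structure CapR (x : ℤ) (p : PW) : Prop where
  disj : ∀ t s, t <+: p.1 → s <+: p.2 → t ≠ [] → s ≠ [] → X t = X s → Y t + x = Y s →
    t = p.1 ∧ s = p.2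
  meet : Y p.1 + x = Y p.2
  low1 : ∀ t, t <+: p.1 → X t = X p.1 → Y p.1 ≤ Y t
  low2 : ∀ t, t <+: p.2 → X t = X p.2 → Y p.2 ≤ Y t

/-- canonical pairs: `(E :: a, E :: b)` with `a`, `b` the two arcs of a polygon from the lowest
leftmost to the lowest rightmost vertex -/
structure IsCan (p : PW) : Prop where
  pb : IsPB p
  ne : p.1 ≠ []
  yy : Y p.1 = Y p.2
  disj : ∀ t s, t <+: p.1 → s <+: p.2 → t ≠ [] → s ≠ [] → X t = X s → Y t = Y s →
    (t = [Dir.E] ∧ s = [Dir.E]) ∨ (t = p.1 ∧ s = p.2)
  lowL1 : ∀ t, t <+: p.1 → X t = 1 → 0 ≤ Y t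
  lowL2 : ∀ t, t <+: p.2 → X t = 1 → 0 ≤ Y t
  lowR1 : ∀ t, t <+: p.1 → X t = X p.1 → Y p.1 ≤ Y t
  lowR2 : ∀ t, t <+: p.2 → X t = X p.2 → Y p.2 ≤ Y t

lemma finite_pw (m : ℕ) : {p : PW | ln p = m}.Finite := by
  have h : ({w : Word | w.length ≤ m} ×ˢ {w : Word | w.length ≤ m}).Finite :=
    (List.finite_length_le Dir m).prod (List.finite_length_le Dir m)
  refine h.subset fun p hp => ?_
  have : p.1.length + p.2.length = m := hp
  exact ⟨by change p.1.length ≤ m; omega, by change p.2.length ≤ m; omega⟩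

/-- pairs of total length `m` -/
noncomputable def pwN (m : ℕ) : Finset PW := (finite_pw m).toFinset

lemma mem_pwN {m : ℕ} {p : PW} : p ∈ pwN m ↔ ln p = m := by
  unfold pwN; rw [Set.Finite.mem_toFinset]; rfl

open Classical in
/-- blocks of total length `m` in the class `A` -/
noncomputable def blk (A : Set Word) (m : ℕ) : Finset PW :=
  (pwN m).filter fun p => IsPIrr p ∧ p.1 ∈ A ∧ p.2 ∈ A

open Classical in
/-- canonical pairs of the polygons of perimeter `2 n` in the class `A` -/
noncomputable def can (A : Set Word) (n : ℕ) : Finset PW :=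
  (pwN (2 * n + 2)).filter fun p => IsCan p ∧ p.1 ∈ A ∧ p.2 ∈ A

open Classical in
lemma mem_blk {A : Set Word} {m : ℕ} {p : PW} :
    p ∈ blk A m ↔ ln p = m ∧ IsPIrr p ∧ p.1 ∈ A ∧ p.2 ∈ A := by
  unfold blk; rw [Finset.mem_filter, mem_pwN]

open Classical in
lemma mem_can {A : Set Word} {n : ℕ} {p : PW} :
    p ∈ can A n ↔ ln p = 2 * n + 2 ∧ IsCan p ∧ p.1 ∈ A ∧ p.2 ∈ A := by
  unfold can; rw [Finset.mem_filter, mem_pwN]

/-- weight of a pair -/
noncomputable def wt (u c : ℝ) (p : PW) : ℝ := Real.exp (-(u * ln p) + c * (X p.1 + X p.2))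

lemma wt_pos (u c : ℝ) (p : PW) : 0 < wt u c p := Real.exp_pos _

open Classical in
/-- total weight of the marked blocks of length `m` and height `d` -/
noncomputable def mkf (A : Set Word) (u c : ℝ) (ω : PW → ℝ) (m : ℕ) (d : ℤ) : ℝ :=
  ∑ p ∈ (blk A m).filter (fun p => ht p = d), ω p * wt u c p

open Classical in
/-- the same, for the blocks admissible at the gap `x` that lead to the gap `y` -/
noncomputable def mkg (A : Set Word) (u c : ℝ) (ω : PW → ℝ) (m : ℕ) (x y : ℤ) : ℝ :=
  if 0 < x ∧ 0 < y then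
    ∑ p ∈ (blk A m).filter (fun p => ht p = y - x ∧ Disj x p), ω p * wt u c p
  else 0

open Classical in
/-- left caps of length `m` that lead to the gap `x` -/
noncomputable def lamA (A : Set Word) (u c : ℝ) (ω : PW → ℝ) (m : ℕ) (x : ℤ) : ℝ :=
  if 0 < x then ∑ p ∈ (blk A m).filter (fun p => ht p = x ∧ CapL p), ω p * wt u c p else 0

open Classical in
/-- right caps of length `m` from the gap `x` -/
noncomputable def rhoA (A : Set Word) (u c : ℝ) (ω : PW → ℝ) (m : ℕ) (x : ℤ) : ℝ :=
  if 0 < x then ∑ p ∈ (blk A m).filter (fun p => CapR x p), ω p * wt u c p else 0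

/-- the constant functional -/
def one : PW → ℝ := fun _ => 1

/-- occupation measure from the left -/
noncomputable def LA (A : Set Word) (u c : ℝ) : ℕ → ℤ → ℝ := occ (mkg A u c one) (lamA A u c one)

/-- occupation measure from the right -/
noncomputable def RA (A : Set Word) (u c : ℝ) : ℕ → ℤ → ℝ :=
  occ (rev (mkg A u c one)) (rhoA A u c one)

/-- sum over the blocks of `|gap| ^ a * ω`, the gap before the first block being `d` -/
noncomputable def walkSum (a : ℕ) (ω : PW → ℝ) : ℤ → List PW → ℝ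
  | _, [] => 0
  | d, q :: l => |(d : ℝ)| ^ a * ω q + walkSum a ω (d + ht q) l

/-- the same over the interior blocks of the factorization of `p` -/
noncomputable def inr (a : ℕ) (ω : PW → ℝ) (p : PW) : ℝ :=
  match blocks p with
  | [] => 0
  | q :: l => walkSum a ω (ht q) l.dropLast

/-- sum over all blocks -/
noncomputable def tot (ω : PW → ℝ) (p : PW) : ℝ := ((blocks p).map ω).sum

/-- the polygon of a canonical pair -/
def poly (n : ℕ) (p : PW) : ZMod (2 * n) → ℤ × ℤ := loop (2 * n) (p.1.tail ++ rv p.2.tail)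

/-- rooted oriented polygons whose canonical arcs are in the class `A` -/
def SAc (A : Set Word) (n : ℕ) : Set (ZMod (2 * n) → ℤ × ℤ) :=
  {v | ∃ i, ∃ p ∈ can A n, v = rot i (poly n p)}

/-! ### basic facts -/

@[simp] lemma pfl_nil : pfl [] = ([], []) := rfl

@[simp] lemma pfl_cons (q : PW) (l : List PW) : pfl (q :: l) = (q.1 ++ (pfl l).1, q.2 ++ (pfl l).2) := rfl

lemma pfl_append (l l' : List PW) : pfl (l ++ l') = ((pfl l).1 ++ (pfl l').1, (pfl l).2 ++ (pfl l').2) := by
  simp [pfl]

lemma isPB_nil : IsPB ([], []) := ⟨isBr_nil, isBr_nil, rfl⟩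

lemma IsPB.append {q r : PW} (hq : IsPB q) (hr : IsPB r) : IsPB (q.1 ++ r.1, q.2 ++ r.2) :=
  ⟨hq.br1.append hr.br1, hq.br2.append hr.br2, by
    change X (q.1 ++ r.1) = X (q.2 ++ r.2)
    rw [X_append, X_append, hq.span, hr.span]⟩

lemma isPB_pfl {l : List PW} (hl : ∀ q ∈ l, IsPIrr q) : IsPB (pfl l) := by
  induction l with
  | nil => exact isPB_nil
  | cons q l ih =>
    rw [pfl_cons]
    exact (hl q (by simp)).pb.append (ih fun r hr => hl r (by simp [hr]))

lemma ln_pfl (l : List PW) : ln (pfl l) = (l.map ln).sum := by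
  induction l with
  | nil => rfl
  | cons q l ih =>
    rw [List.map_cons, List.sum_cons, ← ih]
    simp only [ln, pfl_cons, List.length_append]
    ring

lemma ht_pfl (l : List PW) : ht (pfl l) = (l.map ht).sum := by
  induction l with
  | nil => rfl
  | cons q l ih =>
    rw [List.map_cons, List.sum_cons, ← ih]
    simp only [ht, pfl_cons, Y_append]
    ring

lemma wt_append (u c : ℝ) (q r : PW) : wt u c (q.1 ++ r.1, q.2 ++ r.2) = wt u c q * wt u c r := by
  unfold wt ln
  rw [← Real.exp_add]
  congr 1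
  simp only [List.length_append, X_append]
  push_cast
  ring

lemma wt_nil (u c : ℝ) : wt u c ([], []) = 1 := by simp [wt, ln]

lemma wt_pfl (u c : ℝ) (l : List PW) : wt u c (pfl l) = (l.map (wt u c)).prod := by
  induction l with
  | nil => simp [wt_nil]
  | cons q l ih =>
    rw [List.map_cons, List.prod_cons, ← ih, pfl_cons, wt_append]

lemma IsBr.eq_nil_of_X {w : Word} (h : IsBr w) (h0 : X w = 0) : w = [] := by
  by_contra hne
  have := h.pos (List.prefix_refl w) hne
  omega

/-- parity of the height -/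
lemma even_len (w : Word) : Even ((w.length : ℤ) + X w + Y w) := by
  induction w with
  | nil => simp
  | cons d w ih =>
    rw [List.length_cons, X_cons, Y_cons]
    obtain ⟨k, hk⟩ := ih
    cases d
    · exact ⟨k + 1, by simp only [Dir.dx, Dir.dy]; push_cast; omega⟩
    · exact ⟨k + 1, by simp only [Dir.dx, Dir.dy]; push_cast; omega⟩
    · exact ⟨k, by simp only [Dir.dx, Dir.dy]; push_cast; omega⟩
    · exact ⟨k, by simp only [Dir.dx, Dir.dy]; push_cast; omega⟩

end Pool.Agent.SAPX
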