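import Pool.Agent.SAPX.CDefs
import Pool.Agent.SAPK.ArcsK
import Pool.Agent.SAPF.Build

/-!
Rooted polygons and canonical pairs of bridges.
-/

namespace Pool.Agent.SAPX

open Pool.Agent.SAPF Pool.Agent.SAPK

/-! ### words and their positions -/

lemma canon_dir_ext {d e : Dir} (hx : d.dx = e.dx) (hy : d.dy = e.dy) : d = e := by
  cases d <;> cases e <;> simp [Dir.dx, Dir.dy] at hx hy ⊢

/-- a word is determined by its positions -/
lemma canon_word_ext {w w' : Word} (hl : w.length = w'.length)
    (h : ∀ k ≤ w.length, X (w.take k) = X (w'.take k) ∧ Y (w.take k) = Y (w'.take k)) :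
    w = w' := by
  induction w generalizing w' with
  | nil => exact (List.length_eq_zero_iff.1 (by simpa using hl.symm)).symm
  | cons d w ih =>
    cases w' with
    | nil => simp at hl
    | cons e w' =>
      have h1 := h 1 (by simp)
      simp only [List.take_succ_cons, List.take_zero, X_cons, Y_cons, X_nil, Y_nil, add_zero] at h1
      have hde : d = e := canon_dir_ext h1.1 h1.2
      subst hde
      congr 1
      refine ih (by simpa using hl) fun k hk => ?_
      have h2 := h (k + 1) (by simpa using hk)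
      simp only [List.take_succ_cons, X_cons, Y_cons] at h2
      exact ⟨by omega, by omega⟩

/-- first letter of a nonempty bridge -/
lemma canon_isBr_head {w : Word} (h : IsBr w) (hne : w ≠ []) : Dir.E :: w.tail = w := by
  cases w with
  | nil => exact absurd rfl hne
  | cons d w =>
    have h1 : [d] <+: d :: w := ⟨w, rfl⟩
    have h2 := h.pos h1 (by simp)
    rw [X_cons, X_nil, add_zero] at h2
    cases d <;> simp [Dir.dx] at h2 ⊢

/-! ### the closed word of two arcs -/

/-- the assumptions on two arcs of a polygon -/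
structure Arcs2 (n : ℕ) (a b : Word) : Prop where
  bra : IsBr (Dir.E :: a)
  brb : IsBr (Dir.E :: b)
  Xab : X a = X b
  Yab : Y a = Y b
  len : a.length + b.length = 2 * n
  disj : ∀ t s, t <+: a → s <+: b → X t = X s → Y t = Y s → (t = [] ∧ s = []) ∨ (t = a ∧ s = b)

namespace Arcs2
variable {n : ℕ} {a b : Word}

lemma lenW (h : Arcs2 n a b) : (a ++ rv b).length = 2 * n := by
  rw [List.length_append, length_rv, h.len]

lemma XW (h : Arcs2 n a b) : X (a ++ rv b) = 0 := by
  rw [X_append, X_rv, h.Xab]; ring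

lemma YW (h : Arcs2 n a b) : Y (a ++ rv b) = 0 := by
  rw [Y_append, Y_rv, h.Yab]; ring

/-- position on the first arc -/
lemma take_le {k : ℕ} (hk : k ≤ a.length) : (a ++ rv b).take k = a.take k := by
  rw [List.take_append_of_le_length hk]

/-- position on the second arc -/
lemma take_ge (h : Arcs2 n a b) {k : ℕ} (hk : a.length ≤ k) (hk2 : k ≤ 2 * n) :
    X ((a ++ rv b).take k) = X (b.take (2 * n - k)) ∧
      Y ((a ++ rv b).take k) = Y (b.take (2 * n - k)) := by
  have h1 : (a ++ rv b).take k = a ++ (rv b).take (k - a.length) := by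
    rw [List.take_append, List.take_of_length_le hk]
  have hl := h.len
  have h2 : (rv b).take (k - a.length) = rv (b.drop (2 * n - k)) := by
    have h3 : rv b = rv (b.drop (2 * n - k)) ++ rv (b.take (2 * n - k)) := by
      rw [← rv_append, List.take_append_drop]
    rw [h3, List.take_left']
    rw [length_rv, List.length_drop]
    omega
  have h4 := List.take_append_drop (2 * n - k) b
  have h5 := congrArg X h4
  have h6 := congrArg Y h4
  rw [X_append] at h5
  rw [Y_append] at h6
  have h7 := h.Xab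
  have h8 := h.Yab
  rw [h1, h2, X_append, Y_append, X_rv, Y_rv]
  exact ⟨by omega, by omega⟩

lemma bnda (h : Arcs2 n a b) {t : Word} (ht : t <+: a) : 0 ≤ X t ∧ X t ≤ X a := by
  have h1 : Dir.E :: t <+: Dir.E :: a := (List.cons_prefix_cons).2 ⟨rfl, ht⟩
  have h2 := h.bra.pos h1 (by simp)
  have h3 := h.bra.le h1
  simp [Dir.dx] at h2 h3
  omega

lemma bndb (h : Arcs2 n a b) {t : Word} (ht : t <+: b) : 0 ≤ X t ∧ X t ≤ X a := by
  have h1 : Dir.E :: t <+: Dir.E :: b := (List.cons_prefix_cons).2 ⟨rfl, ht⟩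
  have h2 := h.brb.pos h1 (by simp)
  have h3 := h.brb.le h1
  have h4 := h.Xab
  simp [Dir.dx] at h2 h3
  omega

lemma bnd (h : Arcs2 n a b) {k : ℕ} (hk : k ≤ 2 * n) :
    0 ≤ X ((a ++ rv b).take k) ∧ X ((a ++ rv b).take k) ≤ X a := by
  rcases le_total k a.length with h1 | h1
  · rw [take_le h1]; exact h.bnda (List.take_prefix _ _)
  · rw [(h.take_ge h1 hk).1]; exact h.bndb (List.take_prefix _ _)

lemma injW (h : Arcs2 n a b) {k l : ℕ} (hk : k < 2 * n) (hl : l < 2 * n) (hkl : k ≤ l)
    (hx : X ((a ++ rv b).take k) = X ((a ++ rv b).take l))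
    (hy : Y ((a ++ rv b).take k) = Y ((a ++ rv b).take l)) : k = l := by
  have hlen := h.len
  rcases le_total l a.length with h2 | h2
  · have h1 : k ≤ a.length := hkl.trans h2
    rw [take_le h1, take_le h2] at hx hy
    have h3 := (h.bra.saw.right (u := [Dir.E]) (v := a)).prefix_eq (List.take_prefix k a)
      (List.take_prefix l a) hx hy
    have h4 := congrArg List.length h3
    simp only [List.length_take] at h4
    omega
  · rcases le_total k a.length with h1 | h1
    · rw [take_le h1, (h.take_ge h2 hl.le).1] at hx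
      rw [take_le h1, (h.take_ge h2 hl.le).2] at hy
      rcases h.disj _ _ (List.take_prefix k a) (List.take_prefix (2 * n - l) b) hx hy with
        ⟨-, h4⟩ | ⟨h3, h4⟩
      · have h5 := congrArg List.length h4
        simp only [List.length_take, List.length_nil] at h5
        omega
      · have h5 := congrArg List.length h4
        have h6 := congrArg List.length h3
        simp only [List.length_take] at h5 h6
        omega
    · rw [(h.take_ge h1 hk.le).1, (h.take_ge h2 hl.le).1] at hx
      rw [(h.take_ge h1 hk.le).2, (h.take_ge h2 hl.le).2] at hy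
      have h3 := (h.brb.saw.right (u := [Dir.E]) (v := b)).prefix_eq
        (List.take_prefix (2 * n - k) b) (List.take_prefix (2 * n - l) b) hx hy
      have h4 := congrArg List.length h3
      simp only [List.length_take] at h4
      omega

lemma isSAP (hn : 2 ≤ n) (h : Arcs2 n a b) : IsSAP (2 * n) (loop (2 * n) (a ++ rv b)) := by
  have : NeZero (2 * n) := ⟨by omega⟩
  refine ⟨by simp [loop], ?_, ?_⟩
  · intro i j hij
    simp only [loop, Prod.mk.injEq] at hij
    apply ZMod.val_injective
    rcases le_total i.val j.val with h1 | h1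
    · exact h.injW (ZMod.val_lt i) (ZMod.val_lt j) h1 hij.1 hij.2
    · exact (h.injW (ZMod.val_lt j) (ZMod.val_lt i) h1 hij.1.symm hij.2.symm).symm
  · intro i
    exact loop_step h.lenW h.XW h.YW i

/-- positions of the loop, index given as a natural number -/
lemma loop_cast (hn : 2 ≤ n) (h : Arcs2 n a b) {k : ℕ} (hk : k ≤ 2 * n) :
    loop (2 * n) (a ++ rv b) (k : ZMod (2 * n)) =
      (X ((a ++ rv b).take k), Y ((a ++ rv b).take k)) := by
  have : NeZero (2 * n) := ⟨by omega⟩
  rcases Nat.lt_or_ge k (2 * n) with h1 | h1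
  · simp [loop, ZMod.val_natCast_of_lt h1]
  · have h2 : k = 2 * n := by omega
    rw [h2, ZMod.natCast_self]
    have h3 : (a ++ rv b).take (2 * n) = a ++ rv b := by
      rw [← h.lenW, List.take_length]
    rw [h3, h.XW, h.YW]
    simp [loop]

lemma width_eq (hn : 2 ≤ n) (h : Arcs2 n a b) : width (loop (2 * n) (a ++ rv b)) = X a := by
  have : NeZero (2 * n) := ⟨by omega⟩
  unfold width
  have hlen := h.len
  refine IsGreatest.csSup_eq ⟨⟨(a.length : ZMod (2 * n)), 0, ?_⟩, ?_⟩
  · rw [h.loop_cast hn (by omega), take_le le_rfl, List.take_length]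
    simp [loop]
  · rintro d ⟨i, i', rfl⟩
    have h1 := h.bnd (ZMod.val_lt i).le
    have h2 := h.bnd (ZMod.val_lt i').le
    simp only [loop]
    omega

lemma isArcs (hn : 2 ≤ n) (h : Arcs2 n a b) : IsArcs n (loop (2 * n) (a ++ rv b)) 0 a b := by
  refine ⟨h.bra, h.brb, (h.width_eq hn).symm, ?_, h.Yab, h.len, ?_⟩
  · rw [h.width_eq hn, h.Xab]
  · funext j
    simp [SAPF.rot, loop]

end Arcs2

lemma IsCan.canon_ne2 {p : PW} (h : IsCan p) : p.2 ≠ [] := by
  intro h2
  have h1 := h.pb.br1.pos (List.prefix_refl _) h.ne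
  have h3 := h.pb.span
  rw [h2, X_nil] at h3
  omega

lemma arcs2_of_can {A : Set Word} {n : ℕ} {p : PW} (hp : p ∈ can A n) :
    Dir.E :: p.1.tail = p.1 ∧ Dir.E :: p.2.tail = p.2 ∧ Arcs2 n p.1.tail p.2.tail := by
  obtain ⟨h0, hc, -, -⟩ := mem_can.1 hp
  have e1 := canon_isBr_head hc.pb.br1 hc.ne
  have e2 := canon_isBr_head hc.pb.br2 hc.canon_ne2
  have hX := hc.pb.span
  have hY := hc.yy
  have hl : p.1.length + p.2.length = 2 * n + 2 := h0
  have hb1 := hc.pb.br1
  have hb2 := hc.pb.br2
  refine ⟨e1, e2, ⟨by rw [e1]; exact hb1, by rw [e2]; exact hb2, ?_, ?_, ?_, ?_⟩⟩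
  · rw [← e1, ← e2, X_cons, X_cons] at hX
    simpa using hX
  · rw [← e1, ← e2, Y_cons, Y_cons] at hY
    simpa using hY
  · have h1 := congrArg List.length e1
    have h2 := congrArg List.length e2
    simp only [List.length_cons] at h1 h2
    omega
  · intro t s ht hs hx hy
    have h1 : Dir.E :: t <+: p.1 := by
      rw [← e1]; exact (List.cons_prefix_cons).2 ⟨rfl, ht⟩
    have h2 : Dir.E :: s <+: p.2 := by
      rw [← e2]; exact (List.cons_prefix_cons).2 ⟨rfl, hs⟩
    rcases hc.disj _ _ h1 h2 (by simp) (by simp) (by simp [hx]) (by simp [hy]) with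
      ⟨h3, h4⟩ | ⟨h3, h4⟩
    · left
      simpa using And.intro h3 h4
    · right
      constructor
      · rw [← h3]; simp
      · rw [← h4]; simp

theorem isArcs_can {A : Set Word} {n : ℕ} (hn : 2 ≤ n) {p : PW} (hp : p ∈ can A n) :
    IsArcs n (poly n p) 0 p.1.tail p.2.tail ∧ Dir.E :: p.1.tail = p.1 ∧ Dir.E :: p.2.tail = p.2 ∧
      IsSAP (2 * n) (poly n p) := by
  obtain ⟨e1, e2, h⟩ := arcs2_of_can hp
  exact ⟨h.isArcs hn, e1, e2, h.isSAP hn⟩

/-! ### extreme vertices of canonical polygons -/

/-- lexicographic comparison of positions: `P` is to the left of `Q` or on the same vertical line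
and not above `Q` -/
def CanLexLe (P Q : ℤ × ℤ) : Prop := P.1 < Q.1 ∨ (P.1 = Q.1 ∧ P.2 ≤ Q.2)

lemma CanLexLe.antisymm {P Q : ℤ × ℤ} (h1 : CanLexLe P Q) (h2 : CanLexLe Q P) : P = Q := by
  unfold CanLexLe at h1 h2
  apply Prod.ext <;> omega

/-- `P` is to the right of `Q` or on the same vertical line and not above `Q` -/
def CanLexGe (P Q : ℤ × ℤ) : Prop := Q.1 < P.1 ∨ (P.1 = Q.1 ∧ P.2 ≤ Q.2)

lemma CanLexGe.antisymm {P Q : ℤ × ℤ} (h1 : CanLexGe P Q) (h2 : CanLexGe Q P) : P = Q := by
  unfold CanLexGe at h1 h2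
  apply Prod.ext <;> omega

lemma canon_poly_left {A : Set Word} {n : ℕ} (hn : 2 ≤ n) {p : PW} (hp : p ∈ can A n)
    (j : ZMod (2 * n)) : CanLexLe 0 (poly n p j) := by
  have : NeZero (2 * n) := ⟨by omega⟩
  obtain ⟨e1, e2, h⟩ := arcs2_of_can hp
  obtain ⟨-, hc, -, -⟩ := mem_can.1 hp
  have hj := (ZMod.val_lt j).le
  have h0 := h.bnd hj
  rcases h0.1.lt_or_eq with h1 | h1
  · exact Or.inl (by simpa [poly, loop] using h1)
  · right
    refine ⟨by simpa [poly, loop] using h1, ?_⟩
    change 0 ≤ Y ((p.1.tail ++ rv p.2.tail).take j.val)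
    rcases le_total j.val p.1.tail.length with h2 | h2
    · rw [Arcs2.take_le h2] at h1 ⊢
      have h3 : Dir.E :: p.1.tail.take j.val <+: p.1 := by
        conv_rhs => rw [← e1]
        exact (List.cons_prefix_cons).2 ⟨rfl, List.take_prefix _ _⟩
      have h4 := hc.lowL1 _ h3 (by rw [X_cons, ← h1]; rfl)
      simpa [Dir.dy] using h4
    · rw [(h.take_ge h2 hj).1] at h1
      rw [(h.take_ge h2 hj).2]
      have h3 : Dir.E :: p.2.tail.take (2 * n - j.val) <+: p.2 := by
        conv_rhs => rw [← e2]
        exact (List.cons_prefix_cons).2 ⟨rfl, List.take_prefix _ _⟩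
      have h4 := hc.lowL2 _ h3 (by rw [X_cons, ← h1]; rfl)
      simpa [Dir.dy] using h4

lemma canon_poly_right {A : Set Word} {n : ℕ} (hn : 2 ≤ n) {p : PW} (hp : p ∈ can A n)
    (j : ZMod (2 * n)) :
    CanLexGe (poly n p (p.1.tail.length : ZMod (2 * n))) (poly n p j) := by
  have : NeZero (2 * n) := ⟨by omega⟩
  obtain ⟨e1, e2, h⟩ := arcs2_of_can hp
  obtain ⟨-, hc, -, -⟩ := mem_can.1 hp
  have hlen := h.len
  have hval : poly n p (p.1.tail.length : ZMod (2 * n)) = (X p.1.tail, Y p.1.tail) := by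
    unfold poly
    rw [h.loop_cast hn (by omega), Arcs2.take_le le_rfl, List.take_length]
  have hj := (ZMod.val_lt j).le
  have h0 := h.bnd hj
  have hX1 : X p.1 = 1 + X p.1.tail := by
    conv_lhs => rw [← e1]
    simp [Dir.dx]
  have hY1 : Y p.1 = Y p.1.tail := by
    conv_lhs => rw [← e1]
    simp [Dir.dy]
  have hX2 := hc.pb.span
  have hY2 := hc.yy
  rw [hval]
  rcases h0.2.lt_or_eq with h1 | h1
  · exact Or.inl (by simpa [poly, loop] using h1)
  · right
    refine ⟨by simpa [poly, loop] using h1.symm, ?_⟩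
    change Y p.1.tail ≤ Y ((p.1.tail ++ rv p.2.tail).take j.val)
    rcases le_total j.val p.1.tail.length with h2 | h2
    · rw [Arcs2.take_le h2] at h1 ⊢
      have h3 : Dir.E :: p.1.tail.take j.val <+: p.1 := by
        conv_rhs => rw [← e1]
        exact (List.cons_prefix_cons).2 ⟨rfl, List.take_prefix _ _⟩
      have h4 := hc.lowR1 _ h3 (by rw [X_cons, h1, hX1]; rfl)
      simp [Dir.dy] at h4
      omega
    · rw [(h.take_ge h2 hj).1] at h1
      rw [(h.take_ge h2 hj).2]
      have h3 : Dir.E :: p.2.tail.take (2 * n - j.val) <+: p.2 := by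
        conv_rhs => rw [← e2]
        exact (List.cons_prefix_cons).2 ⟨rfl, List.take_prefix _ _⟩
      have h4 := hc.lowR2 _ h3 (by rw [X_cons, h1, ← hX2, hX1]; rfl)
      simp [Dir.dy] at h4
      omega

/-- the pair is determined by its polygon -/
lemma canon_poly_inj {A : Set Word} {n : ℕ} (hn : 2 ≤ n) {p q : PW} (hp : p ∈ can A n)
    (hq : q ∈ can A n) (h : poly n p = poly n q) : p = q := by
  have : NeZero (2 * n) := ⟨by omega⟩
  obtain ⟨e1, e2, hP⟩ := arcs2_of_can hp
  obtain ⟨f1, f2, hQ⟩ := arcs2_of_can hq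
  have hl1 := hP.len
  have hl2 := hQ.len
  have hinj := (hP.isSAP hn).2.1
  -- the lengths of the first arcs
  have h1 := canon_poly_right hn hp (q.1.tail.length : ZMod (2 * n))
  have h2 := canon_poly_right hn hq (p.1.tail.length : ZMod (2 * n))
  rw [← h] at h2
  have h3 := hinj (h1.antisymm h2)
  have pos1 : ∀ {r : PW}, r ∈ can A n → 0 < r.1.tail.length ∧ r.1.tail.length < 2 * n := by
    intro r hr
    obtain ⟨g1, g2, hR⟩ := arcs2_of_can hr
    obtain ⟨-, hc, -, -⟩ := mem_can.1 hr
    have hl := hR.len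
    have hXab := hR.Xab
    have hYab := hR.Yab
    constructor
    · rcases Nat.eq_zero_or_pos r.1.tail.length with h0 | h0
      · exfalso
        have h4 := List.length_eq_zero_iff.1 h0
        rw [h4, X_nil] at hXab
        rw [h4, Y_nil] at hYab
        have h5 := (hR.brb.saw.right (u := [Dir.E]) (v := r.2.tail)) _ (List.infix_refl _)
          hXab.symm hYab.symm
        rw [h4, h5] at hl
        simp at hl
        omega
      · exact h0
    · rcases Nat.lt_or_ge r.1.tail.length (2 * n) with h0 | h0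
      · exact h0
      · exfalso
        have h4 : r.2.tail = [] := List.length_eq_zero_iff.1 (by omega)
        rw [h4, X_nil] at hXab
        rw [h4, Y_nil] at hYab
        have h5 := (hR.bra.saw.right (u := [Dir.E]) (v := r.1.tail)) _ (List.infix_refl _)
          hXab hYab
        rw [h4, h5] at hl
        simp at hl
        omega
  have h4 : p.1.tail.length = q.1.tail.length := by
    have a1 := pos1 hp
    have a2 := pos1 hq
    have h5 := congrArg ZMod.val h3
    rwa [ZMod.val_natCast_of_lt a1.2, ZMod.val_natCast_of_lt a2.2] at h5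
  -- the words
  have h5 : p.1.tail ++ rv p.2.tail = q.1.tail ++ rv q.2.tail := by
    apply canon_word_ext
    · rw [hP.lenW, hQ.lenW]
    · intro k hk
      rw [hP.lenW] at hk
      have h6 := hP.loop_cast hn hk
      have h7 := hQ.loop_cast hn hk
      have h8 : loop (2 * n) (p.1.tail ++ rv p.2.tail) = loop (2 * n) (q.1.tail ++ rv q.2.tail) := h
      rw [h8, h7] at h6
      exact ⟨(congrArg Prod.fst h6).symm, (congrArg Prod.snd h6).symm⟩
  obtain ⟨h6, h7⟩ := List.append_inj h5 h4
  have h8 : p.2.tail = q.2.tail := by rw [← rv_rv p.2.tail, h7, rv_rv]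
  apply Prod.ext
  · rw [← e1, ← f1, h6]
  · rw [← e2, ← f2, h8]

/-- the root is determined by the polygon -/
lemma canon_rot_poly_inj {A : Set Word} {n : ℕ} (hn : 2 ≤ n) {p q : PW} (hp : p ∈ can A n)
    (hq : q ∈ can A n) {i j : ZMod (2 * n)} (h : rot i (poly n p) = rot j (poly n q)) :
    i = j ∧ p = q := by
  obtain ⟨-, -, hP⟩ := arcs2_of_can hp
  have hP0 : poly n p 0 = 0 := (hP.isSAP hn).1
  obtain ⟨-, -, hQ⟩ := arcs2_of_can hq
  have hQ0 : poly n q 0 = 0 := (hQ.isSAP hn).1
  have hinj := (hP.isSAP hn).2.1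
  have h1 : ∀ k, poly n p (k + i) - poly n p i = poly n q (k + j) - poly n q j := fun k =>
    congrFun h k
  have hij : i = j := by
    have h2 := h1 (-j)
    have h3 := h1 (-i)
    rw [neg_add_cancel, hQ0] at h2
    rw [neg_add_cancel, hP0] at h3
    have h4 := canon_poly_left hn hp (-j + i)
    have h5 := canon_poly_left hn hq (-i + j)
    have h6 : poly n p (-j + i) = 0 := by
      have h7 : CanLexLe (poly n p (-j + i)) 0 := by
        have a1 := congrArg Prod.fst h2
        have a2 := congrArg Prod.snd h2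
        have b1 := congrArg Prod.fst h3
        have b2 := congrArg Prod.snd h3
        simp only [Prod.fst_sub, Prod.snd_sub, Prod.fst_zero, Prod.snd_zero] at a1 a2 b1 b2
        unfold CanLexLe at h4 h5 ⊢
        simp only [Prod.fst_zero, Prod.snd_zero] at h4 h5 ⊢
        omega
      exact h7.antisymm h4
    rw [← hP0] at h6
    have h7 := hinj h6
    have h8 : i = j + 0 := by rw [← h7]; ring
    simpa using h8
  subst hij
  refine ⟨rfl, canon_poly_inj hn hp hq ?_⟩
  have h2 := h1 (-i)
  rw [neg_add_cancel, hP0, hQ0] at h2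
  have h3 : poly n p i = poly n q i := by
    have := congrArg Neg.neg h2
    simpa using this
  funext k
  have h4 := h1 (k - i)
  rw [sub_add_cancel, h3] at h4
  exact sub_left_injective h4

theorem sum_SAc {n : ℕ} (hn : 2 ≤ n) (A : Set Word) (F : (ZMod (2 * n) → ℤ × ℤ) → ℝ)
    (hF : ∀ i v, F (rot i v) = F v) :
    ∑ᶠ v ∈ SAc A n, F v = (2 * n : ℕ) * ∑ p ∈ can A n, F (poly n p) := by
  classical
  have : NeZero (2 * n) := ⟨by omega⟩
  have himg : SAc A n = ((((Finset.univ : Finset (ZMod (2 * n))) ×ˢ can A n).image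
      (fun x => rot x.1 (poly n x.2)) : Finset (ZMod (2 * n) → ℤ × ℤ)) :
        Set (ZMod (2 * n) → ℤ × ℤ)) := by
    ext v
    simp only [SAc, Set.mem_ofPred_eq, Finset.coe_image, Set.mem_image, Finset.mem_coe,
      Finset.mem_product, Finset.mem_univ, true_and, Prod.exists]
    constructor
    · rintro ⟨i, p, q, hp, rfl⟩
      exact ⟨i, p, q, hp, rfl⟩
    · rintro ⟨i, p, q, hp, rfl⟩
      exact ⟨i, p, q, hp, rfl⟩
  rw [himg, finsum_mem_coe_finset, Finset.sum_image, Finset.sum_product]
  · simp only [hF]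
    rw [Finset.sum_const, Finset.card_univ, ZMod.card, nsmul_eq_mul]
  · rintro ⟨i, p⟩ hx ⟨j, q⟩ hy hxy
    simp only [Finset.coe_product, Finset.coe_univ, Set.mem_prod, Set.mem_univ, true_and,
      Finset.mem_coe] at hx hy
    obtain ⟨h1, h2⟩ := canon_rot_poly_inj hn hx hy hxy
    exact Prod.ext h1 h2

/-! ### existence of the canonical pair -/

lemma exists_can {n : ℕ} (hn : 2 ≤ n) {v : ZMod (2 * n) → ℤ × ℤ} (hv : IsSAP (2 * n) v) :
    ∃ i, ∃ p ∈ can Set.univ n, v = rot i (poly n p) ∧
      (∀ j, CanLexLe (v (-i)) (v j)) ∧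
      (∀ j, CanLexGe (v (-i + (p.1.tail.length : ZMod (2 * n)))) (v j)) := by
  have : NeZero (2 * n) := ⟨by omega⟩
  -- the lowest leftmost vertex
  obtain ⟨i1, -, hi1⟩ := Finset.exists_min_image (Finset.univ : Finset (ZMod (2 * n)))
    (fun i => (v i).1) ⟨0, Finset.mem_univ _⟩
  obtain ⟨i, hi, hi2⟩ := Finset.exists_min_image
    ((Finset.univ : Finset (ZMod (2 * n))).filter (fun i => (v i).1 = (v i1).1))
    (fun i => (v i).2) ⟨i1, by simp⟩
  rw [Finset.mem_filter] at hi
  have hL : ∀ j, CanLexLe (v i) (v j) := by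
    intro j
    have h1 := hi1 j (Finset.mem_univ _)
    rcases lt_or_eq_of_le h1 with h2 | h2
    · left; rw [hi.2]; exact h2
    · right
      exact ⟨by rw [hi.2, h2], hi2 j (by simp [h2])⟩
  -- the lowest rightmost vertex
  obtain ⟨j1, -, hj1⟩ := Finset.exists_max_image (Finset.univ : Finset (ZMod (2 * n)))
    (fun i => (v i).1) ⟨0, Finset.mem_univ _⟩
  obtain ⟨j, hj, hj2⟩ := Finset.exists_min_image
    ((Finset.univ : Finset (ZMod (2 * n))).filter (fun i => (v i).1 = (v j1).1))
    (fun i => (v i).2) ⟨j1, by simp⟩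
  rw [Finset.mem_filter] at hj
  have hR : ∀ k, CanLexGe (v j) (v k) := by
    intro k
    have h1 := hj1 k (Finset.mem_univ _)
    rcases lt_or_eq_of_le h1 with h2 | h2
    · left; rw [hj.2]; exact h2
    · right
      exact ⟨by rw [hj.2, h2], hj2 k (by simp [h2])⟩
  set k := (j - i).val with hk
  have hkj : ((k : ℕ) : ZMod (2 * n)) = j - i := ZMod.natCast_zmod_val (j - i)
  have hk2 : k ≤ 2 * n := (ZMod.val_lt _).le
  have hv' := hv.rot i
  have hpos : ∀ l, CanLexLe 0 (SAPF.rot i v l) := by
    intro l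
    have h1 := hL (l + i)
    unfold CanLexLe at h1 ⊢
    simp only [SAPF.rot, Prod.fst_sub, Prod.snd_sub, Prod.fst_zero, Prod.snd_zero]
    omega
  have hmax : ∀ l, CanLexGe (SAPF.rot i v (k : ZMod (2 * n))) (SAPF.rot i v l) := by
    intro l
    have h1 := hR (l + i)
    have h2 : (k : ZMod (2 * n)) + i = j := by rw [hkj]; ring
    unfold CanLexGe at h1 ⊢
    simp only [SAPF.rot, Prod.fst_sub, Prod.snd_sub, h2]
    omega
  obtain ⟨a, b, ha, hb, hXa, hXb, hY, hlen, hloop, hal, hst⟩ := arcs_at hn hv' (by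
    intro l
    have := hpos l
    unfold CanLexLe at this
    simp only [Prod.fst_zero] at this
    omega) hk2 (by
    intro l
    have := hmax l
    unfold CanLexGe at this
    omega)
  -- positions on the arcs
  have hta : ∀ t, t <+: a → SAPF.rot i v (t.length : ZMod (2 * n)) = (X t, Y t) := by
    rintro t ⟨s, hs⟩
    have h := infix_stepsW hv' (p := []) (t := t) (q := s ++ rv b) (k := 2 * n) (by
      rw [← hst, ← hs]; simp)
    simp only [List.length_nil, Nat.cast_zero, hv'.1, zero_add] at h
    exact h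
  have htb : ∀ t, t <+: b → SAPF.rot i v ((2 * n - t.length : ℕ) : ZMod (2 * n)) = (X t, Y t) := by
    rintro t ⟨s, hs⟩
    have hlb : t.length + s.length = b.length := by rw [← hs]; simp
    have h := infix_stepsW hv' (p := []) (t := a ++ rv s) (q := rv t) (k := 2 * n) (by
      rw [← hst, ← hs]; simp)
    simp only [List.length_nil, Nat.cast_zero, hv'.1, zero_add, List.length_append,
      length_rv] at h
    have h2 : 2 * n - t.length = a.length + s.length := by omega
    rw [h2, h]
    have h3 := congrArg X hs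
    have h4 := congrArg Y hs
    rw [X_append] at h3
    rw [Y_append] at h4
    simp only [X_append, Y_append, X_rv, Y_rv, Prod.mk.injEq]
    omega
  have hinj := hv'.2.1
  have hXab : X a = X b := by rw [hXa, hXb]
  have hk0 : SAPF.rot i v (k : ZMod (2 * n)) = (X a, Y a) := by
    have := hta a (List.prefix_refl a)
    rwa [hal] at this
  have hpi : rot (-i) (SAPF.rot i v) = v := by
    funext l
    simp [SAPF.rot, hv.1]
  have hcan : (Dir.E :: a, Dir.E :: b) ∈ can Set.univ n := by
    rw [mem_can]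
    refine ⟨?_, ⟨⟨ha, hb, ?_⟩, by simp, ?_, ?_, ?_, ?_, ?_, ?_⟩, trivial, trivial⟩
    · change (Dir.E :: a).length + (Dir.E :: b).length = 2 * n + 2
      simp only [List.length_cons]
      omega
    · simp [hXab]
    · simp [hY]
    · intro t s ht hs ht0 hs0 hx hy
      rcases List.prefix_cons_iff.1 ht with h | ⟨t', rfl, ht'⟩
      · exact absurd h ht0
      rcases List.prefix_cons_iff.1 hs with h | ⟨s', rfl, hs'⟩
      · exact absurd h hs0
      simp only [X_cons, Y_cons] at hx hy
      have h1 := hta t' ht'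
      have h2 := htb s' hs'
      have h3 : SAPF.rot i v (t'.length : ZMod (2 * n)) =
          SAPF.rot i v ((2 * n - s'.length : ℕ) : ZMod (2 * n)) := by
        rw [h1, h2, Prod.mk.injEq]
        omega
      have h4 := hinj h3
      have l1 := ht'.length_le
      have l2 := hs'.length_le
      rcases zmod_cast_inj (by omega) (by omega) h4 with h5 | ⟨h5, h6⟩
      · right
        have h6 : t' = a := ht'.eq_of_length (by omega)
        have h7 : s' = b := hs'.eq_of_length (by omega)
        rw [h6, h7]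
        exact ⟨rfl, rfl⟩
      · left
        have h7 : t' = [] := List.length_eq_zero_iff.1 h5
        have h8 : s' = [] := List.length_eq_zero_iff.1 (by omega)
        rw [h7, h8]
        exact ⟨rfl, rfl⟩
    · intro t ht hX
      rcases List.prefix_cons_iff.1 ht with h | ⟨t', rfl, ht'⟩
      · rw [h, X_nil] at hX; omega
      have h1 := hpos (t'.length : ZMod (2 * n))
      rw [hta t' ht'] at h1
      unfold CanLexLe at h1
      simp only [X_cons, Y_cons, Dir.dx, Dir.dy, Prod.fst_zero, Prod.snd_zero] at hX h1 ⊢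
      omega
    · intro t ht hX
      rcases List.prefix_cons_iff.1 ht with h | ⟨t', rfl, ht'⟩
      · rw [h, X_nil] at hX; omega
      have h1 := hpos ((2 * n - t'.length : ℕ) : ZMod (2 * n))
      rw [htb t' ht'] at h1
      unfold CanLexLe at h1
      simp only [X_cons, Y_cons, Dir.dx, Dir.dy, Prod.fst_zero, Prod.snd_zero] at hX h1 ⊢
      omega
    · intro t ht hX
      rcases List.prefix_cons_iff.1 ht with h | ⟨t', rfl, ht'⟩
      · have h2 := ha.pos (List.prefix_refl _) (by simp)
        simp only [h, X_nil] at hX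
        omega
      have h1 := hmax (t'.length : ZMod (2 * n))
      rw [hta t' ht', hk0] at h1
      unfold CanLexGe at h1
      simp only [X_cons, Y_cons, Dir.dx, Dir.dy] at hX h1 ⊢
      omega
    · intro t ht hX
      rcases List.prefix_cons_iff.1 ht with h | ⟨t', rfl, ht'⟩
      · have h2 := hb.pos (List.prefix_refl _) (by simp)
        simp only [h, X_nil] at hX
        omega
      have h1 := hmax ((2 * n - t'.length : ℕ) : ZMod (2 * n))
      rw [htb t' ht', hk0] at h1
      unfold CanLexGe at h1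
      simp only [X_cons, Y_cons, Dir.dx, Dir.dy] at hX h1 ⊢
      omega
  refine ⟨-i, (Dir.E :: a, Dir.E :: b), hcan, ?_, ?_, ?_⟩
  · have h1 : poly n (Dir.E :: a, Dir.E :: b) = SAPF.rot i v := hloop.symm
    rw [h1, hpi]
  · intro l
    rw [neg_neg]
    exact hL l
  · intro l
    have h1 : - -i + (((Dir.E :: a, Dir.E :: b) : PW).1.tail.length : ZMod (2 * n)) = j := by
      simp only [List.tail_cons, hal, hkj, neg_neg]
      ring
    rw [h1]
    exact hR l

theorem SAc_univ {n : ℕ} (hn : 2 ≤ n) :
    SAc Set.univ n = {v : ZMod (2 * n) → ℤ × ℤ | IsSAP (2 * n) v} := by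
  ext v
  constructor
  · rintro ⟨i, p, hp, rfl⟩
    exact (isArcs_can hn hp).2.2.2.rot i
  · intro hv
    obtain ⟨i, p, hp, h, -, -⟩ := exists_can hn hv
    exact ⟨i, p, hp, h⟩

end Pool.Agent.SAPX
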