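import Pool.Agent.SAPX.KDefs

/-!
Module K7: limits of sums over configurations with one marked block.

The sum over the length `i` and the gap `x` before the marked block is written as an integral of a
step function over `(0, 1) x (0, oo)` (scaling `i = s N`, `x = t sqrt N`, the parity of `i + x` gives
the factor `1/2`), and the dominated convergence theorem is applied, first in `(s, t)`, then in the
marked block.
-/

namespace Pool.Agent.SAPX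

open Filter Topology MeasureTheory

namespace K7

/-- domain of the limit integral -/
def DD : Set (ℝ × ℝ) := Set.Ioo (0 : ℝ) 1 ×ˢ Set.Ioi (0 : ℝ)

lemma measurableSet_DD : MeasurableSet DD := measurableSet_Ioo.prod measurableSet_Ioi

/-- cell indicator -/
noncomputable def chi (lam : ℝ) (k : ℕ) : ℝ → ℝ :=
  (Set.Ico ((k : ℝ) / lam) (((k : ℝ) + 1) / lam)).indicator (fun _ => (1 : ℝ))

lemma chi_eq {lam : ℝ} (hl : 0 < lam) (k : ℕ) {t : ℝ} (ht : 0 ≤ t) :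
    chi lam k t = if ⌊t * lam⌋₊ = k then 1 else 0 := by
  unfold chi
  rw [Set.indicator_apply]
  have h : t ∈ Set.Ico ((k : ℝ) / lam) (((k : ℝ) + 1) / lam) ↔ ⌊t * lam⌋₊ = k := by
    rw [Nat.floor_eq_iff (by positivity), Set.mem_Ico, div_le_iff₀ hl, lt_div_iff₀ hl]
  simp only [h]

lemma chi_int {lam : ℝ} (hl : 0 < lam) (k : ℕ) {S : Set ℝ}
    (hS : Set.Ico ((k : ℝ) / lam) (((k : ℝ) + 1) / lam) ⊆ S) :
    ∫ t in S, chi lam k t = 1 / lam := by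
  unfold chi
  rw [setIntegral_indicator measurableSet_Ico, Set.inter_eq_self_of_subset_right hS]
  simp only [integral_const, smul_eq_mul, mul_one, MeasurableSet.univ, measureReal_restrict_apply,
    Set.univ_inter, Real.volume_real_Ico]
  rw [max_eq_left]
  · field_simp; ring
  · rw [sub_nonneg]; gcongr; linarith

lemma chi_integrable (lam : ℝ) (k : ℕ) (S : Set ℝ) :
    Integrable (chi lam k) (volume.restrict S) := by
  refine Integrable.mono_measure ?_ Measure.restrict_le_self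
  unfold chi
  rw [integrable_indicator_iff measurableSet_Ico]
  exact integrableOn_const (by simp)

lemma int_floor (N : ℕ) (hN : 0 < N) {mu : ℝ} (hmu : 0 < mu) (G : ℕ → ℕ → ℝ) (M : ℕ)
    (hG : ∀ i < N, ∀ k, M ≤ k → G i k = 0) :
    ∫ p in DD, G ⌊p.1 * (N : ℝ)⌋₊ ⌊p.2 * mu⌋₊ =
      1 / N * (1 / mu) * ∑ i ∈ Finset.range N, ∑ k ∈ Finset.range M, G i k := by
  have hN' : (0 : ℝ) < N := by exact_mod_cast hN
  have e1 : ∫ p in DD, G ⌊p.1 * (N : ℝ)⌋₊ ⌊p.2 * mu⌋₊ =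
      ∫ p in DD, ∑ i ∈ Finset.range N, ∑ k ∈ Finset.range M,
        G i k * (chi N i p.1 * chi mu k p.2) := by
    refine setIntegral_congr_fun measurableSet_DD fun p hp => ?_
    have h1 : p.1 ∈ Set.Ioo (0 : ℝ) 1 := hp.1
    have h2 : p.2 ∈ Set.Ioi (0 : ℝ) := hp.2
    have h3 : ⌊p.1 * (N : ℝ)⌋₊ < N := by
      rw [Nat.floor_lt (by have := h1.1; positivity)]
      have := h1.2
      nlinarith
    show G ⌊p.1 * (N : ℝ)⌋₊ ⌊p.2 * mu⌋₊ = _
    simp only [chi_eq hN' _ h1.1.le, chi_eq hmu _ (le_of_lt h2)]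
    rw [Finset.sum_eq_single ⌊p.1 * (N : ℝ)⌋₊]
    · by_cases h4 : ⌊p.2 * mu⌋₊ < M
      · rw [Finset.sum_eq_single ⌊p.2 * mu⌋₊]
        · simp
        · intro k _ hk
          rw [if_neg (fun h : ⌊p.2 * mu⌋₊ = k => hk h.symm)]; simp
        · intro h; exact absurd (Finset.mem_range.2 h4) h
      · rw [hG _ h3 _ (not_lt.1 h4)]
        symm
        refine Finset.sum_eq_zero fun k hk => ?_
        rw [if_neg (fun h : ⌊p.2 * mu⌋₊ = k => h4 (h ▸ Finset.mem_range.1 hk))]; simp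
    · intro i _ hi
      refine Finset.sum_eq_zero fun k _ => ?_
      rw [if_neg (fun h => hi h.symm)]; simp
    · intro h; exact absurd (Finset.mem_range.2 h3) h
  rw [e1]
  have hint : ∀ i k, IntegrableOn (fun p : ℝ × ℝ => G i k * (chi N i p.1 * chi mu k p.2)) DD := by
    intro i k
    unfold DD
    refine Integrable.const_mul ?_ _
    rw [Measure.volume_eq_prod, ← Measure.prod_restrict]
    exact (chi_integrable _ _ _).mul_prod (chi_integrable _ _ _)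
  rw [integral_finsetSum _ (fun i _ => integrable_finsetSum _ (fun k _ => hint i k))]
  rw [Finset.mul_sum]
  refine Finset.sum_congr rfl fun i hi => ?_
  rw [integral_finsetSum _ (fun k _ => hint i k), Finset.mul_sum]
  refine Finset.sum_congr rfl fun k _ => ?_
  rw [integral_const_mul]
  have hi' : i < N := Finset.mem_range.1 hi
  have e2 : ∫ p in DD, chi N i p.1 * chi mu k p.2 = 1 / N * (1 / mu) := by
    unfold DD
    rw [Measure.volume_eq_prod, setIntegral_prod_mul, ← integral_Ico_eq_integral_Ioo,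
      ← integral_Ici_eq_integral_Ioi, chi_int hN', chi_int hmu]
    · intro t ht
      exact le_trans (by positivity) ht.1
    · intro t ht
      refine ⟨le_trans (by positivity) ht.1, lt_of_lt_of_le ht.2 ?_⟩
      rw [div_le_one hN']
      exact_mod_cast hi'
  rw [e2]; ring

lemma exp_trick {c : ℝ} (hc : 0 < c) : ∃ M, 0 < M ∧ ∀ τ u : ℝ, 0 < τ → 0 < u →
    τ * u ^ (3 / 2 : ℝ) * Real.exp (-(c * τ ^ 2 * u)) ≤
      M * (τ ^ (-(1 / 4) : ℝ) * u ^ (7 / 8 : ℝ) * Real.exp (-(c / 2 * τ ^ 2 * u))) := by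
  refine ⟨max 1 (2 / c), by positivity, fun τ u hτ hu => ?_⟩
  set z : ℝ := τ ^ 2 * u with hz
  have hz0 : 0 < z := by positivity
  have h1 : τ * u ^ (3 / 2 : ℝ) = τ ^ (-(1 / 4) : ℝ) * u ^ (7 / 8 : ℝ) * z ^ (5 / 8 : ℝ) := by
    have e1 : z ^ (5 / 8 : ℝ) = τ ^ (5 / 4 : ℝ) * u ^ (5 / 8 : ℝ) := by
      rw [hz, Real.mul_rpow (by positivity) hu.le, ← Real.rpow_natCast, ← Real.rpow_mul hτ.le]
      norm_num
    have e2 : τ = τ ^ (-(1 / 4) : ℝ) * τ ^ (5 / 4 : ℝ) := by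
      rw [← Real.rpow_add hτ]; norm_num
    have e3 : u ^ (3 / 2 : ℝ) = u ^ (7 / 8 : ℝ) * u ^ (5 / 8 : ℝ) := by
      rw [← Real.rpow_add hu]; norm_num
    rw [e1, e3]
    nth_rewrite 1 [e2]
    ring
  have h2 : z ^ (5 / 8 : ℝ) ≤ 1 + z := by
    rcases le_total z 1 with h | h
    · have := Real.rpow_le_one hz0.le h (by norm_num : (0 : ℝ) ≤ 5 / 8)
      linarith
    · have : z ^ (5 / 8 : ℝ) ≤ z ^ (1 : ℝ) :=
        Real.rpow_le_rpow_of_exponent_le h (by norm_num)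
      rw [Real.rpow_one] at this
      linarith
  have h3 : 1 + z ≤ max 1 (2 / c) * Real.exp (c / 2 * z) := by
    have e1 : 1 + c / 2 * z ≤ Real.exp (c / 2 * z) := by
      have := Real.add_one_le_exp (c / 2 * z); linarith
    have e2 : 1 + z ≤ max 1 (2 / c) * (1 + c / 2 * z) := by
      have a1 : (1 : ℝ) ≤ max 1 (2 / c) := le_max_left _ _
      have a2 : 2 / c ≤ max 1 (2 / c) := le_max_right _ _
      have a3 : 1 ≤ max 1 (2 / c) * (c / 2) := by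
        calc (1 : ℝ) = 2 / c * (c / 2) := by field_simp
          _ ≤ _ := by gcongr
      nlinarith
    exact e2.trans (by gcongr)
  have h4 : Real.exp (-(c * τ ^ 2 * u)) = Real.exp (-(c / 2 * τ ^ 2 * u)) * Real.exp (-(c / 2 * z)) := by
    rw [← Real.exp_add]; congr 1; rw [hz]; ring
  have h5 : Real.exp (c / 2 * z) * Real.exp (-(c / 2 * z)) = 1 := by
    rw [← Real.exp_add]; simp
  rw [h1, h4]
  have h6 : z ^ (5 / 8 : ℝ) * Real.exp (-(c / 2 * z)) ≤ max 1 (2 / c) := by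
    calc z ^ (5 / 8 : ℝ) * Real.exp (-(c / 2 * z))
        ≤ (max 1 (2 / c) * Real.exp (c / 2 * z)) * Real.exp (-(c / 2 * z)) := by
          gcongr; exact h2.trans h3
      _ = max 1 (2 / c) := by rw [mul_assoc, h5, mul_one]
  calc τ ^ (-(1 / 4) : ℝ) * u ^ (7 / 8 : ℝ) * z ^ (5 / 8 : ℝ) *
        (Real.exp (-(c / 2 * τ ^ 2 * u)) * Real.exp (-(c / 2 * z)))
      = (τ ^ (-(1 / 4) : ℝ) * u ^ (7 / 8 : ℝ) * Real.exp (-(c / 2 * τ ^ 2 * u))) *
        (z ^ (5 / 8 : ℝ) * Real.exp (-(c / 2 * z))) := by ring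
    _ ≤ (τ ^ (-(1 / 4) : ℝ) * u ^ (7 / 8 : ℝ) * Real.exp (-(c / 2 * τ ^ 2 * u))) *
        max 1 (2 / c) := by gcongr
    _ = _ := by ring

end K7

/-! ## definitions of the statements -/

/-- what is used about the occupation measures (`s` is the variance) -/
structure Profile (s : ℝ) (L : ℕ → ℤ → ℝ) (C : ℝ) : Prop where
  nonneg : ∀ m y, 0 ≤ L m y
  supp : ∀ m y, L m y ≠ 0 → 0 < y ∧ y ≤ m ∧ Even ((m : ℤ) + y)
  bd : ∃ K c, 0 < K ∧ 0 < c ∧ ∀ (m : ℕ) (y : ℤ), L m y ≤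
      K * |(y : ℝ)| / ((m : ℝ) + 1) ^ (3 / 2 : ℝ) * Real.exp (-(c * (y : ℝ) ^ 2 / (m + 1)))
  lim : ∀ (t : ℝ), 0 < t → ∀ (m : ℕ → ℕ) (y : ℕ → ℤ), Tendsto m atTop atTop →
    (∀ᶠ k in atTop, Even ((m k : ℤ) + y k)) →
    Tendsto (fun k => (y k : ℝ) / Real.sqrt (m k)) atTop (𝓝 t) →
    Tendsto (fun k => (m k : ℝ) * L (m k) (y k)) atTop
      (𝓝 (C * (t * Real.exp (-(t ^ 2 / (2 * s))))))

/-- marked kernels -/
structure Marked (f : ℕ → ℤ → ℝ) (q : ℕ) (φ : ℕ → ℤ → ℝ) (ψ : ℕ → ℤ → ℤ → ℝ) : Prop where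
  nonneg : ∀ m x y, 0 ≤ ψ m x y
  le : ∀ m x y, ψ m x y ≤ φ m (y - x)
  far : ∀ (m : ℕ) (x y : ℤ), (m : ℤ) < x → ψ m x y = φ m (y - x)
  bd : ∀ m d, φ m d ≤ (m : ℝ) ^ q * f m d

/-- sums over configurations with a marked block -/
noncomputable def SS (a : ℕ) (L : ℕ → ℤ → ℝ) (ψ : ℕ → ℤ → ℤ → ℝ) (R : ℕ → ℤ → ℝ) (N : ℕ) : ℝ :=
  ∑ i ∈ Finset.range (N + 1), ∑ j ∈ Finset.range (N + 1 - i), ∑ x ∈ Finset.Icc 1 (i : ℤ),
    ∑ y ∈ Finset.Icc 1 ((N - i - j : ℕ) : ℤ),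
      (x : ℝ) ^ a * L i x * ψ j x y * R (N - i - j) y

namespace K7

/-- limit profile -/
noncomputable def gm (σ r t : ℝ) : ℝ :=
  (t / Real.sqrt r) * Real.exp (-((t / Real.sqrt r) ^ 2 / (2 * σ))) / r

lemma gm_pos {σ r t : ℝ} (hr : 0 < r) (ht : 0 < t) : 0 < gm σ r t := by
  unfold gm; positivity

lemma sqrt_three {r : ℝ} (hr : 0 < r) : Real.sqrt r * r = r ^ (3 / 2 : ℝ) := by
  rw [Real.sqrt_eq_rpow]
  nth_rewrite 2 [← Real.rpow_one r]
  rw [← Real.rpow_add hr]; norm_num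

lemma gm_bd {σ : ℝ} (hσ : 0 < σ) : ∃ M, 0 < M ∧ ∀ r t : ℝ, 0 < r → r < 1 → 0 < t →
    gm σ r t ≤ M * (t ^ (-(1 / 4) : ℝ) * r ^ (-(7 / 8) : ℝ) * Real.exp (-(1 / (4 * σ) * t ^ 2))) := by
  obtain ⟨M, hM, h⟩ := exp_trick (c := 1 / (2 * σ)) (by positivity)
  refine ⟨M, hM, fun r t hr hr1 ht => ?_⟩
  have h1 := h t (1 / r) ht (by positivity)
  have e1 : gm σ r t = t * (1 / r) ^ (3 / 2 : ℝ) * Real.exp (-(1 / (2 * σ) * t ^ 2 * (1 / r))) := by
    unfold gm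
    have e2 : (t / Real.sqrt r) ^ 2 / (2 * σ) = 1 / (2 * σ) * t ^ 2 * (1 / r) := by
      rw [div_pow, Real.sq_sqrt hr.le]; field_simp
    rw [e2, Real.div_rpow zero_le_one hr.le, Real.one_rpow, ← sqrt_three hr]
    have : 0 < Real.sqrt r := Real.sqrt_pos.2 hr
    field_simp
  rw [e1]
  refine h1.trans ?_
  have e3 : (1 / r) ^ (7 / 8 : ℝ) = r ^ (-(7 / 8) : ℝ) := by
    rw [Real.div_rpow zero_le_one hr.le, Real.one_rpow, Real.rpow_neg hr.le, one_div]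
  rw [e3]
  have : 1 ≤ 1 / r := by rw [le_div_iff₀ hr]; linarith
  have h5 : 1 / (4 * σ) * t ^ 2 = 1 / (2 * σ) / 2 * t ^ 2 * 1 := by field_simp; norm_num
  have h6 : 1 / (4 * σ) * t ^ 2 ≤ 1 / (2 * σ) / 2 * t ^ 2 * (1 / r) := by
    rw [h5]; gcongr
  have h7 := Real.exp_le_exp.2 (neg_le_neg h6)
  gcongr

/-- scaled bound -/
lemma scaled {s C : ℝ} {L : ℕ → ℤ → ℝ} (hL : Profile s L C) : ∃ K c, 0 < K ∧ 0 < c ∧
    ∀ (N m : ℕ) (y : ℤ), 0 < N → 0 < y → (N : ℝ) * L m y ≤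
      K * (((y : ℝ) / Real.sqrt N) ^ (-(1 / 4) : ℝ) * ((N : ℝ) / (m + 1)) ^ (7 / 8 : ℝ) *
        Real.exp (-(c * ((y : ℝ) / Real.sqrt N) ^ 2 * ((N : ℝ) / (m + 1))))) := by
  obtain ⟨K, c, hK, hc, h⟩ := hL.bd
  obtain ⟨M, hM, h'⟩ := exp_trick hc
  refine ⟨K * M, c / 2, by positivity, by positivity, fun N m y hN hy => ?_⟩
  have hN' : (0 : ℝ) < N := by exact_mod_cast hN
  have hy' : (0 : ℝ) < y := by exact_mod_cast hy
  have hs : 0 < Real.sqrt N := Real.sqrt_pos.2 hN'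
  have h1 := h m y
  have h2 := h' ((y : ℝ) / Real.sqrt N) ((N : ℝ) / (m + 1)) (by positivity) (by positivity)
  have hm : (0 : ℝ) < m + 1 := by positivity
  have e1 : (N : ℝ) * (K * |(y : ℝ)| / ((m : ℝ) + 1) ^ (3 / 2 : ℝ) *
      Real.exp (-(c * (y : ℝ) ^ 2 / (m + 1)))) =
      K * (((y : ℝ) / Real.sqrt N) * ((N : ℝ) / (m + 1)) ^ (3 / 2 : ℝ) *
        Real.exp (-(c * ((y : ℝ) / Real.sqrt N) ^ 2 * ((N : ℝ) / (m + 1))))) := by
    have e2 : c * ((y : ℝ) / Real.sqrt N) ^ 2 * ((N : ℝ) / (m + 1)) = c * (y : ℝ) ^ 2 / (m + 1) := by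
      rw [div_pow, Real.sq_sqrt hN'.le]; field_simp
    rw [e2, abs_of_pos hy', Real.div_rpow hN'.le hm.le, ← sqrt_three hN']
    field_simp
  calc (N : ℝ) * L m y ≤ (N : ℝ) * (K * |(y : ℝ)| / ((m : ℝ) + 1) ^ (3 / 2 : ℝ) *
      Real.exp (-(c * (y : ℝ) ^ 2 / (m + 1)))) := by gcongr
    _ = _ := e1
    _ ≤ K * (M * (((y : ℝ) / Real.sqrt N) ^ (-(1 / 4) : ℝ) * ((N : ℝ) / (m + 1)) ^ (7 / 8 : ℝ) *
        Real.exp (-(c / 2 * ((y : ℝ) / Real.sqrt N) ^ 2 * ((N : ℝ) / (m + 1)))))) := by gcongr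
    _ = _ := by ring

/-- scaled limit -/
lemma scaled_lim {σ C : ℝ} {L : ℕ → ℤ → ℝ} (hL : Profile σ L C) {m : ℕ → ℕ} {y : ℕ → ℤ} {r t : ℝ}
    (hr : 0 < r) (ht : 0 < t)
    (hm : Tendsto (fun n : ℕ => (m n : ℝ) / ((2 * n : ℕ) : ℝ)) atTop (𝓝 r))
    (hy : Tendsto (fun n : ℕ => (y n : ℝ) / Real.sqrt ((2 * n : ℕ) : ℝ)) atTop (𝓝 t))
    (he : ∀ᶠ n in atTop, Even ((m n : ℤ) + y n)) :
    Tendsto (fun n : ℕ => ((2 * n : ℕ) : ℝ) * L (m n) (y n)) atTop (𝓝 (C * gm σ r t)) := by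
  have h2n : Tendsto (fun n : ℕ => ((2 * n : ℕ) : ℝ)) atTop atTop := by
    refine tendsto_natCast_atTop_atTop.comp (tendsto_id.const_mul_atTop' (by norm_num))
  have hmt : Tendsto (fun n => (m n : ℝ)) atTop atTop := by
    have := hm.pos_mul_atTop hr h2n
    refine this.congr' ?_
    filter_upwards [eventually_gt_atTop 0] with n hn
    have : ((2 * n : ℕ) : ℝ) ≠ 0 := by exact_mod_cast (by omega : 2 * n ≠ 0)
    field_simp
  have hmN : Tendsto m atTop atTop := tendsto_natCast_atTop_iff.1 hmt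
  have hsq : Tendsto (fun n : ℕ => Real.sqrt ((m n : ℝ) / ((2 * n : ℕ) : ℝ))) atTop
      (𝓝 (Real.sqrt r)) := (Real.continuous_sqrt.tendsto r).comp hm
  have hsr : 0 < Real.sqrt r := Real.sqrt_pos.2 hr
  have hq : Tendsto (fun n => (y n : ℝ) / Real.sqrt (m n)) atTop (𝓝 (t / Real.sqrt r)) := by
    refine (hy.div hsq hsr.ne').congr' ?_
    filter_upwards [eventually_gt_atTop 0, hmt.eventually_gt_atTop 0] with n hn hn2
    have h1 : (0 : ℝ) < ((2 * n : ℕ) : ℝ) := by exact_mod_cast (by omega : 0 < 2 * n)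
    simp only [Pi.div_apply]
    rw [Real.sqrt_div hn2.le]
    have := Real.sqrt_pos.2 h1
    have := Real.sqrt_pos.2 hn2
    field_simp
  have h3 := hL.lim (t / Real.sqrt r) (by positivity) m y hmN he hq
  have h4 := h3.div hm hr.ne'
  have e : C * (t / Real.sqrt r * Real.exp (-((t / Real.sqrt r) ^ 2 / (2 * σ)))) / r =
      C * gm σ r t := by
    unfold gm; ring
  rw [e] at h4
  refine h4.congr' ?_
  filter_upwards [eventually_gt_atTop 0, hmt.eventually_gt_atTop 0] with n hn hn2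
  have h1 : ((2 * n : ℕ) : ℝ) ≠ 0 := by exact_mod_cast (by omega : 2 * n ≠ 0)
  have := hn2.ne'
  simp only [Pi.div_apply]
  field_simp

end K7
namespace K7

/-- the gap at the cell `(i, k)` -/
def xx (i k : ℕ) : ℤ := 2 * (k : ℤ) - ((i % 2 : ℕ) : ℤ)

/-- scaled summand -/
noncomputable def GG (a : ℕ) (L : ℕ → ℤ → ℝ) (ψ : ℕ → ℤ → ℤ → ℝ) (R : ℕ → ℤ → ℝ) (N j : ℕ) (h : ℤ)
    (i k : ℕ) : ℝ :=
  if i + j ≤ N then
    1 / 2 * ((xx i k : ℝ) / Real.sqrt N) ^ a * ((N : ℝ) * L i (xx i k)) *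
      ((N : ℝ) * R (N - i - j) (xx i k + h)) * ψ j (xx i k) (xx i k + h)
  else 0

/-- majorant -/
noncomputable def maj (a : ℕ) (c : ℝ) (p : ℝ × ℝ) : ℝ :=
  (p.1 ^ (-(7 / 8) : ℝ) * (1 - p.1) ^ (-(7 / 8) : ℝ)) *
    (p.2 ^ ((a : ℝ) - 1 / 2) * Real.exp (-c * p.2 ^ 2))

lemma beta_bd {s : ℝ} (h0 : 0 < s) (h1 : s < 1) :
    s ^ (-(7 / 8) : ℝ) * (1 - s) ^ (-(7 / 8) : ℝ) ≤
      2 * (s ^ (-(7 / 8) : ℝ) + (1 - s) ^ (-(7 / 8) : ℝ)) := by
  have key : ∀ x y : ℝ, 0 < x → 0 < y → 1 / 2 ≤ x →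
      x ^ (-(7 / 8) : ℝ) * y ^ (-(7 / 8) : ℝ) ≤ 2 * (x ^ (-(7 / 8) : ℝ) + y ^ (-(7 / 8) : ℝ)) := by
    intro x y hx hy hxx
    have e1 : x ^ (-(7 / 8) : ℝ) ≤ 2 := by
      calc x ^ (-(7 / 8) : ℝ) ≤ (1 / 2 : ℝ) ^ (-(7 / 8) : ℝ) :=
            Real.rpow_le_rpow_of_nonpos (by norm_num) hxx (by norm_num)
        _ = 2 ^ (7 / 8 : ℝ) := by
            rw [one_div, Real.inv_rpow (by norm_num), Real.rpow_neg (by norm_num), inv_inv]
        _ ≤ 2 ^ (1 : ℝ) := Real.rpow_le_rpow_of_exponent_le (by norm_num) (by norm_num)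
        _ = 2 := by norm_num
    have e2 : 0 ≤ y ^ (-(7 / 8) : ℝ) := by positivity
    have e3 : 0 ≤ x ^ (-(7 / 8) : ℝ) := by positivity
    nlinarith
  rcases le_total (1 / 2) s with h | h
  · exact key s (1 - s) h0 (by linarith) h
  · have := key (1 - s) s (by linarith) h0 (by linarith)
    rw [mul_comm, add_comm (s ^ _)]
    exact this

lemma beta_int : IntegrableOn (fun s : ℝ => s ^ (-(7 / 8) : ℝ) * (1 - s) ^ (-(7 / 8) : ℝ))
    (Set.Ioo 0 1) := by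
  have h1 : IntegrableOn (fun s : ℝ => s ^ (-(7 / 8) : ℝ)) (Set.Ioo 0 1) := by
    have := (intervalIntegral.intervalIntegrable_rpow' (a := 0) (b := 1)
      (r := (-(7 / 8) : ℝ)) (by norm_num))
    rwa [intervalIntegrable_iff_integrableOn_Ioo_of_le zero_le_one] at this
  have h2 : IntegrableOn (fun s : ℝ => (1 - s) ^ (-(7 / 8) : ℝ)) (Set.Ioo 0 1) := by
    have := (intervalIntegral.intervalIntegrable_rpow' (a := 0) (b := 1)
      (r := (-(7 / 8) : ℝ)) (by norm_num)).comp_sub_left 1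
    simp only [sub_zero, sub_self] at this
    have := this.symm
    rwa [intervalIntegrable_iff_integrableOn_Ioo_of_le zero_le_one] at this
  refine Integrable.mono' ((h1.add h2).const_mul 2) ?_ ?_
  · refine Measurable.aestronglyMeasurable ?_
    fun_prop
  · rw [ae_restrict_iff' measurableSet_Ioo]
    refine Eventually.of_forall fun s hs => ?_
    have e1 : 0 < s := hs.1
    have e2 : s < 1 := hs.2
    have e3 : 0 ≤ s ^ (-(7 / 8) : ℝ) * (1 - s) ^ (-(7 / 8) : ℝ) := by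
      have : 0 < 1 - s := by linarith
      positivity
    rw [Real.norm_of_nonneg e3]
    exact beta_bd e1 e2

lemma maj_int (a : ℕ) {c : ℝ} (hc : 0 < c) : IntegrableOn (maj a c) DD := by
  have h2 := integrableOn_rpow_mul_exp_neg_mul_sq hc (s := (a : ℝ) - 1 / 2)
    (by have : (0 : ℝ) ≤ a := by positivity
        linarith)
  unfold DD maj IntegrableOn
  rw [Measure.volume_eq_prod, ← Measure.prod_restrict]
  exact beta_int.mul_prod h2

lemma maj_nonneg (a : ℕ) (c : ℝ) {p : ℝ × ℝ} (hp : p ∈ DD) : 0 ≤ maj a c p := by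
  have h1 : 0 < p.1 := hp.1.1
  have h2 : p.1 < 1 := hp.1.2
  have h3 : 0 < p.2 := hp.2
  unfold maj
  have : 0 < 1 - p.1 := by linarith
  positivity

end K7
namespace K7

lemma phi_nonneg {f : ℕ → ℤ → ℝ} {q : ℕ} {φ : ℕ → ℤ → ℝ} {ψ : ℕ → ℤ → ℤ → ℝ}
    (h : Marked f q φ ψ) (m : ℕ) (d : ℤ) : 0 ≤ φ m d := by
  have h1 := h.far m (m + 1) (m + 1 + d) (by omega)
  have h2 := h.nonneg m (m + 1) (m + 1 + d)
  rw [h1] at h2
  rwa [show (m : ℤ) + 1 + d - (m + 1) = d by ring] at h2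

lemma GG_nonneg {s C C' : ℝ} {f L R : ℕ → ℤ → ℝ} (hL : Profile s L C) (hR : Profile s R C')
    {q : ℕ} {φ : ℕ → ℤ → ℝ} {ψ : ℕ → ℤ → ℤ → ℝ} (hψ : Marked f q φ ψ)
    (a N j : ℕ) (h : ℤ) (i k : ℕ) : 0 ≤ GG a L ψ R N j h i k := by
  unfold GG
  split_ifs
  · by_cases hx : L i (xx i k) = 0
    · rw [hx]; simp
    · have h1 := (hL.supp _ _ hx).1
      have h2 : (0 : ℝ) < (xx i k : ℝ) := by exact_mod_cast h1
      have := hL.nonneg i (xx i k)
      have := hR.nonneg (N - i - j) (xx i k + h)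
      have := hψ.nonneg j (xx i k) (xx i k + h)
      positivity
  · exact le_rfl

lemma GG_bd {s C C' : ℝ} {L R : ℕ → ℤ → ℝ} (hL : Profile s L C) (hR : Profile s R C') :
    ∃ B c, 0 < B ∧ 0 < c ∧ ∀ (a : ℕ) (f : ℕ → ℤ → ℝ) (q : ℕ) (φ : ℕ → ℤ → ℝ) (ψ : ℕ → ℤ → ℤ → ℝ),
      FreeLaw f → Marked f q φ ψ → ∀ (N j : ℕ) (h : ℤ), 0 < N → ∀ p ∈ DD,
      GG a L ψ R N j h ⌊p.1 * (N : ℝ)⌋₊ ⌊p.2 * (Real.sqrt N / 2)⌋₊ ≤
        B * (φ j h * (1 + (j : ℝ)) ^ 2) * maj a c p := by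
  obtain ⟨K, c, hK, hc, h1⟩ := scaled hL
  obtain ⟨K', c', hK', hc', h2⟩ := scaled hR
  refine ⟨K * K', c / 16, by positivity, by positivity, ?_⟩
  intro a f q φ ψ hf hψ N j h hN p hp
  set i := ⌊p.1 * (N : ℝ)⌋₊ with hi
  set k := ⌊p.2 * (Real.sqrt N / 2)⌋₊ with hk
  set x := xx i k with hx
  have hmaj := maj_nonneg a (c / 16) hp
  have hφ := phi_nonneg hψ j h
  have hrhs : 0 ≤ K * K' * (φ j h * (1 + (j : ℝ)) ^ 2) * maj a (c / 16) p := by positivity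
  have hs0 : 0 < p.1 := hp.1.1
  have hs1 : p.1 < 1 := hp.1.2
  have ht : 0 < p.2 := hp.2
  have hN' : (0 : ℝ) < N := by exact_mod_cast hN
  have hsq : 0 < Real.sqrt N := Real.sqrt_pos.2 hN'
  unfold GG
  rw [← hx]
  split_ifs with hij
  swap
  · exact hrhs
  by_cases hLx : L i x = 0
  · rw [hLx]; simpa using hrhs
  by_cases hRx : R (N - i - j) (x + h) = 0
  · rw [hRx]; simpa using hrhs
  by_cases hψx : ψ j x (x + h) = 0
  · rw [hψx]; simpa using hrhs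
  have hx0 : 0 < x := (hL.supp _ _ hLx).1
  have hy0 : 0 < x + h := (hR.supp _ _ hRx).1
  have hψle : ψ j x (x + h) ≤ φ j h := by
    have := hψ.le j x (x + h)
    rwa [add_sub_cancel_left] at this
  have hψ0 := hψ.nonneg j x (x + h)
  have hfne : f j h ≠ 0 := by
    intro h0
    have h3 := hψ.bd j h
    rw [h0, mul_zero] at h3
    exact hψx (le_antisymm (hψle.trans h3) hψ0)
  have hhj : |h| ≤ j := (hf.supp _ _ hfne).2.1
  have hx0' : (0 : ℝ) < x := by exact_mod_cast hx0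
  have hx1' : (1 : ℝ) ≤ x := by exact_mod_cast hx0
  have hy0' : (0 : ℝ) < ((x + h : ℤ) : ℝ) := by exact_mod_cast hy0
  -- comparison of `x` and `t`
  have hi2 : i % 2 < 2 := Nat.mod_lt _ (by norm_num)
  have hk1 : (k : ℝ) ≤ p.2 * (Real.sqrt N / 2) := Nat.floor_le (by positivity)
  have hk2 : p.2 * (Real.sqrt N / 2) < k + 1 := Nat.lt_floor_add_one _
  have hx2 : (x : ℝ) ≤ 2 * k := by
    have : x ≤ 2 * (k : ℤ) := by rw [hx]; unfold xx; omega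
    exact_mod_cast this
  have hx3 : (2 * k : ℝ) ≤ x + 1 := by
    have : 2 * (k : ℤ) ≤ x + 1 := by rw [hx]; unfold xx; omega
    exact_mod_cast this
  set τ := (x : ℝ) / Real.sqrt N with hτ
  have hτ0 : 0 < τ := by positivity
  have hτ1 : τ ≤ p.2 := by
    rw [hτ, div_le_iff₀ hsq]; linarith
  have hτ2 : p.2 / 4 ≤ τ := by
    rw [hτ, le_div_iff₀ hsq]; linarith
  -- the factor of `L`
  have hiN : i < N := by
    rw [hi, Nat.floor_lt (by positivity)]; nlinarith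
  have hi1 : (i : ℝ) ≤ p.1 * N := Nat.floor_le (by positivity)
  have hi3 : p.1 * N < i + 1 := Nat.lt_floor_add_one _
  have hA : (N : ℝ) * L i x ≤
      K * (τ ^ (-(1 / 4) : ℝ) * p.1 ^ (-(7 / 8) : ℝ) * Real.exp (-(c / 16) * p.2 ^ 2)) := by
    refine (h1 N i x hN hx0).trans ?_
    rw [← hτ]
    have e1 : ((N : ℝ) / (i + 1)) ^ (7 / 8 : ℝ) ≤ p.1 ^ (-(7 / 8) : ℝ) := by
      have : (N : ℝ) / (i + 1) ≤ p.1⁻¹ := by
        rw [div_le_iff₀ (by positivity), inv_mul_eq_div, le_div_iff₀ hs0]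
        linarith
      calc ((N : ℝ) / (i + 1)) ^ (7 / 8 : ℝ) ≤ (p.1⁻¹) ^ (7 / 8 : ℝ) := by
            gcongr
        _ = _ := by rw [Real.inv_rpow hs0.le, Real.rpow_neg hs0.le]
    have e2 : Real.exp (-(c * τ ^ 2 * ((N : ℝ) / (i + 1)))) ≤
        Real.exp (-(c / 16) * p.2 ^ 2) := by
      rw [Real.exp_le_exp]
      have e3 : 1 ≤ (N : ℝ) / (i + 1) := by
        rw [le_div_iff₀ (by positivity)]
        have : (i : ℝ) + 1 ≤ N := by exact_mod_cast hiN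
        linarith
      have e4 : (p.2 / 4) ^ 2 ≤ τ ^ 2 := by gcongr
      have e5 : c * (p.2 / 4) ^ 2 * 1 ≤ c * τ ^ 2 * ((N : ℝ) / (i + 1)) := by gcongr
      have e6 : c * (p.2 / 4) ^ 2 * 1 = c / 16 * p.2 ^ 2 := by ring
      linarith
    gcongr
  -- the factor of `R`
  have hj1 : (0 : ℝ) < 1 + j := by positivity
  have hB : (N : ℝ) * R (N - i - j) (x + h) ≤
      K' * (τ ^ (-(1 / 4) : ℝ) * (1 + (j : ℝ)) ^ 2 * (1 - p.1) ^ (-(7 / 8) : ℝ)) := by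
    refine (h2 N (N - i - j) (x + h) hN hy0).trans ?_
    have hm : ((N - i - j : ℕ) : ℝ) = (N : ℝ) - i - j := by
      rw [Nat.cast_sub (by omega), Nat.cast_sub hiN.le]
    have hmm : (0 : ℝ) ≤ ((N - i - j : ℕ) : ℝ) := by positivity
    have hs2 : 0 < 1 - p.1 := by linarith
    have e1 : ((N : ℝ) / (((N - i - j : ℕ) : ℝ) + 1)) ^ (7 / 8 : ℝ) ≤
        (1 + (j : ℝ)) ^ (7 / 8 : ℝ) * (1 - p.1) ^ (-(7 / 8) : ℝ) := by
      have : (N : ℝ) / (((N - i - j : ℕ) : ℝ) + 1) ≤ (1 + j) * (1 - p.1)⁻¹ := by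
        rw [div_le_iff₀ (by positivity), ← div_eq_mul_inv, div_mul_eq_mul_div, le_div_iff₀ hs2]
        have hj0 : (0 : ℝ) ≤ j := by positivity
        have e0 : (0 : ℝ) ≤ j * ((N - i - j : ℕ) : ℝ) := by positivity
        have e00 : (0 : ℝ) ≤ j := by positivity
        have e01 : (N : ℝ) * (1 - p.1) ≤ N - i := by nlinarith
        have e02 : (1 + (j : ℝ)) * (((N - i - j : ℕ) : ℝ) + 1) =
            (((N - i - j : ℕ) : ℝ) + 1) + j * ((N - i - j : ℕ) : ℝ) + j := by ring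
        rw [e02]
        nlinarith
      calc ((N : ℝ) / (((N - i - j : ℕ) : ℝ) + 1)) ^ (7 / 8 : ℝ)
          ≤ ((1 + j) * (1 - p.1)⁻¹) ^ (7 / 8 : ℝ) := by gcongr
        _ = _ := by
          rw [Real.mul_rpow hj1.le (by positivity), Real.inv_rpow hs2.le, Real.rpow_neg hs2.le]
    have e2 : Real.exp (-(c' * (((x + h : ℤ) : ℝ) / Real.sqrt N) ^ 2 *
        ((N : ℝ) / (((N - i - j : ℕ) : ℝ) + 1)))) ≤ 1 := by
      rw [Real.exp_le_one_iff]
      have : 0 ≤ c' * (((x + h : ℤ) : ℝ) / Real.sqrt N) ^ 2 *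
        ((N : ℝ) / (((N - i - j : ℕ) : ℝ) + 1)) := by positivity
      linarith
    have e3 : (((x + h : ℤ) : ℝ) / Real.sqrt N) ^ (-(1 / 4) : ℝ) ≤
        τ ^ (-(1 / 4) : ℝ) * (1 + (j : ℝ)) ^ (1 / 4 : ℝ) := by
      have hxy : (x : ℝ) ≤ ((x + h : ℤ) : ℝ) * (1 + j) := by
        have h3 : x ≤ (x + h) * (1 + (j : ℤ)) := by
          have h4 : -(j : ℤ) ≤ h := (abs_le.1 hhj).1
          nlinarith
        exact_mod_cast h3
      have h5 : τ * (1 + (j : ℝ))⁻¹ ≤ ((x + h : ℤ) : ℝ) / Real.sqrt N := by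
        rw [← div_eq_mul_inv, div_le_iff₀ hj1, hτ, div_mul_eq_mul_div]
        gcongr
      calc (((x + h : ℤ) : ℝ) / Real.sqrt N) ^ (-(1 / 4) : ℝ)
          ≤ (τ * (1 + (j : ℝ))⁻¹) ^ (-(1 / 4) : ℝ) :=
            Real.rpow_le_rpow_of_nonpos (by positivity) h5 (by norm_num)
        _ = _ := by
          rw [Real.mul_rpow hτ0.le (by positivity), Real.inv_rpow hj1.le,
            Real.rpow_neg hj1.le, inv_inv]
    have e4 : (1 + (j : ℝ)) ^ (1 / 4 : ℝ) * (1 + (j : ℝ)) ^ (7 / 8 : ℝ) ≤ (1 + (j : ℝ)) ^ 2 := by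
      rw [← Real.rpow_add hj1, ← Real.rpow_natCast (1 + (j : ℝ)) 2]
      refine Real.rpow_le_rpow_of_exponent_le (by linarith [(by positivity : (0 : ℝ) ≤ j)]) ?_
      norm_num
    calc K' * ((((x + h : ℤ) : ℝ) / Real.sqrt N) ^ (-(1 / 4) : ℝ) *
          ((N : ℝ) / (((N - i - j : ℕ) : ℝ) + 1)) ^ (7 / 8 : ℝ) *
          Real.exp (-(c' * (((x + h : ℤ) : ℝ) / Real.sqrt N) ^ 2 *
            ((N : ℝ) / (((N - i - j : ℕ) : ℝ) + 1)))))
        ≤ K' * ((τ ^ (-(1 / 4) : ℝ) * (1 + (j : ℝ)) ^ (1 / 4 : ℝ)) *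
          ((1 + (j : ℝ)) ^ (7 / 8 : ℝ) * (1 - p.1) ^ (-(7 / 8) : ℝ)) * 1) := by gcongr
      _ = K' * (τ ^ (-(1 / 4) : ℝ) * ((1 + (j : ℝ)) ^ (1 / 4 : ℝ) * (1 + (j : ℝ)) ^ (7 / 8 : ℝ)) *
          (1 - p.1) ^ (-(7 / 8) : ℝ)) := by ring
      _ ≤ _ := by gcongr
  -- combination
  have hs2 : 0 < 1 - p.1 := by linarith
  have hL0 := hL.nonneg i x
  have hR0 := hR.nonneg (N - i - j) (x + h)
  have hτq : τ ^ (-(1 / 4) : ℝ) * τ ^ (-(1 / 4) : ℝ) ≤ 2 * p.2 ^ (-(1 / 2) : ℝ) := by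
    calc τ ^ (-(1 / 4) : ℝ) * τ ^ (-(1 / 4) : ℝ) = τ ^ (-(1 / 2) : ℝ) := by
          rw [← Real.rpow_add hτ0]; norm_num
      _ ≤ (p.2 / 4) ^ (-(1 / 2) : ℝ) :=
          Real.rpow_le_rpow_of_nonpos (by positivity) hτ2 (by norm_num)
      _ = p.2 ^ (-(1 / 2) : ℝ) * (1 / 4 : ℝ) ^ (-(1 / 2) : ℝ) := by
          rw [div_eq_mul_one_div, Real.mul_rpow ht.le (by norm_num)]
      _ = 2 * p.2 ^ (-(1 / 2) : ℝ) := by
          have : (1 / 4 : ℝ) ^ (-(1 / 2) : ℝ) = 2 := by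
            rw [one_div, Real.inv_rpow (by norm_num), Real.rpow_neg (by norm_num), inv_inv,
              ← Real.sqrt_eq_rpow, show (4 : ℝ) = 2 ^ 2 by norm_num]
            exact Real.sqrt_sq (by norm_num)
          rw [this]; ring
  have hta : p.2 ^ a * p.2 ^ (-(1 / 2) : ℝ) = p.2 ^ ((a : ℝ) - 1 / 2) := by
    rw [← Real.rpow_natCast, ← Real.rpow_add ht]; congr 1
  calc 1 / 2 * τ ^ a * ((N : ℝ) * L i x) * ((N : ℝ) * R (N - i - j) (x + h)) * ψ j x (x + h)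
      ≤ 1 / 2 * p.2 ^ a *
        (K * (τ ^ (-(1 / 4) : ℝ) * p.1 ^ (-(7 / 8) : ℝ) * Real.exp (-(c / 16) * p.2 ^ 2))) *
        (K' * (τ ^ (-(1 / 4) : ℝ) * (1 + (j : ℝ)) ^ 2 * (1 - p.1) ^ (-(7 / 8) : ℝ))) * φ j h := by
        gcongr
    _ = 1 / 2 * p.2 ^ a * K * K' * p.1 ^ (-(7 / 8) : ℝ) * Real.exp (-(c / 16) * p.2 ^ 2) *
        (1 + (j : ℝ)) ^ 2 * (1 - p.1) ^ (-(7 / 8) : ℝ) * φ j h *
        (τ ^ (-(1 / 4) : ℝ) * τ ^ (-(1 / 4) : ℝ)) := by ring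
    _ ≤ 1 / 2 * p.2 ^ a * K * K' * p.1 ^ (-(7 / 8) : ℝ) * Real.exp (-(c / 16) * p.2 ^ 2) *
        (1 + (j : ℝ)) ^ 2 * (1 - p.1) ^ (-(7 / 8) : ℝ) * φ j h *
        (2 * p.2 ^ (-(1 / 2) : ℝ)) := by gcongr
    _ = K * K' * (φ j h * (1 + (j : ℝ)) ^ 2) * (p.1 ^ (-(7 / 8) : ℝ) * (1 - p.1) ^ (-(7 / 8) : ℝ) *
        ((p.2 ^ a * p.2 ^ (-(1 / 2) : ℝ)) * Real.exp (-(c / 16) * p.2 ^ 2))) := by ring
    _ = _ := by rw [hta]; rfl

end K7
namespace K7

/-- limit integrand -/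
noncomputable def HH (a : ℕ) (σ : ℝ) (p : ℝ × ℝ) : ℝ :=
  1 / 2 * p.2 ^ a * gm σ p.1 p.2 * gm σ (1 - p.1) p.2

lemma HH_pos (a : ℕ) (σ : ℝ) {p : ℝ × ℝ} (hp : p ∈ DD) : 0 < HH a σ p := by
  have hs0 : 0 < p.1 := hp.1.1
  have hs1 : p.1 < 1 := hp.1.2
  have ht : 0 < p.2 := hp.2
  have := gm_pos (σ := σ) hs0 ht
  have := gm_pos (σ := σ) (by linarith : 0 < 1 - p.1) ht
  unfold HH
  positivity

lemma HH_meas (a : ℕ) (σ : ℝ) : Measurable (HH a σ) := by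
  unfold HH gm
  fun_prop

lemma HH_int (a : ℕ) {σ : ℝ} (hσ : 0 < σ) : IntegrableOn (HH a σ) DD := by
  obtain ⟨M, hM, h⟩ := gm_bd hσ
  refine Integrable.mono' ((maj_int a (c := 1 / (4 * σ)) (by positivity)).const_mul (1 / 2 * M * M))
    (HH_meas a σ).aestronglyMeasurable ?_
  rw [ae_restrict_iff' measurableSet_DD]
  refine Eventually.of_forall fun p hp => ?_
  rw [Real.norm_of_nonneg (HH_pos a σ hp).le]
  have hs0 : 0 < p.1 := hp.1.1
  have hs1 : p.1 < 1 := hp.1.2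
  have ht : 0 < p.2 := hp.2
  have hs2 : 0 < 1 - p.1 := by linarith
  have h1 := h p.1 p.2 hs0 hs1 ht
  have h2 := h (1 - p.1) p.2 hs2 (by linarith) ht
  have h3 := (gm_pos (σ := σ) hs0 ht).le
  have h4 := (gm_pos (σ := σ) hs2 ht).le
  have h5 : Real.exp (-(1 / (4 * σ) * p.2 ^ 2)) ≤ 1 := by
    rw [Real.exp_le_one_iff]
    have : 0 ≤ 1 / (4 * σ) * p.2 ^ 2 := by positivity
    linarith
  have hta : p.2 ^ a * (p.2 ^ (-(1 / 4) : ℝ) * p.2 ^ (-(1 / 4) : ℝ)) = p.2 ^ ((a : ℝ) - 1 / 2) := by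
    rw [← Real.rpow_natCast, ← Real.rpow_add ht, ← Real.rpow_add ht]; congr 1; ring
  calc HH a σ p = 1 / 2 * p.2 ^ a * gm σ p.1 p.2 * gm σ (1 - p.1) p.2 := rfl
    _ ≤ 1 / 2 * p.2 ^ a *
        (M * (p.2 ^ (-(1 / 4) : ℝ) * p.1 ^ (-(7 / 8) : ℝ) *
          Real.exp (-(1 / (4 * σ) * p.2 ^ 2)))) *
        (M * (p.2 ^ (-(1 / 4) : ℝ) * (1 - p.1) ^ (-(7 / 8) : ℝ) * 1)) := by
        gcongr
        exact h2.trans (by gcongr)
    _ = 1 / 2 * M * M * ((p.1 ^ (-(7 / 8) : ℝ) * (1 - p.1) ^ (-(7 / 8) : ℝ)) *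
        ((p.2 ^ a * (p.2 ^ (-(1 / 4) : ℝ) * p.2 ^ (-(1 / 4) : ℝ))) *
          Real.exp (-(1 / (4 * σ) * p.2 ^ 2)))) := by ring
    _ = _ := by rw [hta]; unfold maj; rw [neg_mul]

lemma HH_int_pos (a : ℕ) {σ : ℝ} (hσ : 0 < σ) : 0 < ∫ p in DD, HH a σ p := by
  rw [setIntegral_pos_iff_support_of_nonneg_ae _ (HH_int a hσ)]
  · have e : Function.support (HH a σ) ∩ DD = DD := by
      refine Set.inter_eq_right.2 fun p hp => ?_
      exact (HH_pos a σ hp).ne'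
    rw [e]
    have ho : IsOpen DD := isOpen_Ioo.prod isOpen_Ioi
    exact ho.measure_pos _ ⟨(1 / 2, 1), ⟨⟨by norm_num, by norm_num⟩, by simp⟩⟩
  · rw [EventuallyLE, ae_restrict_iff' measurableSet_DD]
    exact Eventually.of_forall fun p hp => (HH_pos a σ hp).le

lemma tendsto_two : Tendsto (fun n : ℕ => ((2 * n : ℕ) : ℝ)) atTop atTop :=
  tendsto_natCast_atTop_atTop.comp (tendsto_id.const_mul_atTop' (by norm_num))

lemma tendsto_sqrt_two : Tendsto (fun n : ℕ => Real.sqrt ((2 * n : ℕ) : ℝ)) atTop atTop :=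
  Real.tendsto_sqrt_atTop.comp tendsto_two

lemma GG_lim {σ C C' : ℝ} {L R : ℕ → ℤ → ℝ} (hL : Profile σ L C) (hR : Profile σ R C')
    {f : ℕ → ℤ → ℝ} (hf : FreeLaw f) {q : ℕ} {φ : ℕ → ℤ → ℝ} {ψ : ℕ → ℤ → ℤ → ℝ}
    (hψ : Marked f q φ ψ) (a j : ℕ) (h : ℤ) (hjh : φ j h ≠ 0) {p : ℝ × ℝ} (hp : p ∈ DD) :
    Tendsto (fun n : ℕ => GG a L ψ R (2 * n) j h ⌊p.1 * ((2 * n : ℕ) : ℝ)⌋₊
      ⌊p.2 * (Real.sqrt ((2 * n : ℕ) : ℝ) / 2)⌋₊) atTop (𝓝 (φ j h * (C * C' * HH a σ p))) := by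
  have hs0 : 0 < p.1 := hp.1.1
  have hs1 : p.1 < 1 := hp.1.2
  have ht : 0 < p.2 := hp.2
  have hs2 : 0 < 1 - p.1 := by linarith
  have hfne : f j h ≠ 0 := by
    intro h0
    have h3 := hψ.bd j h
    rw [h0, mul_zero] at h3
    exact hjh (le_antisymm h3 (phi_nonneg hψ j h))
  obtain ⟨e, he⟩ := (hf.supp _ _ hfne).2.2
  set i : ℕ → ℕ := fun n => ⌊p.1 * ((2 * n : ℕ) : ℝ)⌋₊ with hi
  set k : ℕ → ℕ := fun n => ⌊p.2 * (Real.sqrt ((2 * n : ℕ) : ℝ) / 2)⌋₊ with hk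
  have hi1 : Tendsto (fun n => (i n : ℝ) / ((2 * n : ℕ) : ℝ)) atTop (𝓝 p.1) :=
    (tendsto_nat_floor_mul_div_atTop hs0.le).comp tendsto_two
  have hk1 : Tendsto (fun n => (k n : ℝ) / Real.sqrt ((2 * n : ℕ) : ℝ)) atTop (𝓝 (p.2 / 2)) := by
    have := (tendsto_nat_floor_mul_div_atTop (a := p.2 / 2) (by positivity)).comp tendsto_sqrt_two
    refine this.congr fun n => ?_
    simp only [Function.comp, hk]
    rw [show p.2 / 2 * Real.sqrt ((2 * n : ℕ) : ℝ) = p.2 * (Real.sqrt ((2 * n : ℕ) : ℝ) / 2) by ring]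
  have hinv : Tendsto (fun n : ℕ => (Real.sqrt ((2 * n : ℕ) : ℝ))⁻¹) atTop (𝓝 0) :=
    tendsto_inv_atTop_zero.comp tendsto_sqrt_two
  have hmod : Tendsto (fun n => ((i n % 2 : ℕ) : ℝ) / Real.sqrt ((2 * n : ℕ) : ℝ)) atTop (𝓝 0) := by
    refine squeeze_zero (fun n => by positivity) (fun n => ?_) hinv
    rw [div_eq_mul_inv]
    have h1 : ((i n % 2 : ℕ) : ℝ) ≤ 1 := by
      have : i n % 2 ≤ 1 := by omega
      exact_mod_cast this
    have h2 : 0 ≤ (Real.sqrt ((2 * n : ℕ) : ℝ))⁻¹ := by positivity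
    nlinarith
  have hx1 : Tendsto (fun n => (xx (i n) (k n) : ℝ) / Real.sqrt ((2 * n : ℕ) : ℝ)) atTop
      (𝓝 p.2) := by
    have := (hk1.const_mul 2).sub hmod
    rw [show 2 * (p.2 / 2) - 0 = p.2 by ring] at this
    refine this.congr fun n => ?_
    unfold xx
    simp only [Int.cast_sub, Int.cast_mul, Int.cast_ofNat, Int.cast_natCast]
    ring
  have hy1 : Tendsto (fun n => ((xx (i n) (k n) + h : ℤ) : ℝ) / Real.sqrt ((2 * n : ℕ) : ℝ)) atTop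
      (𝓝 p.2) := by
    have := hx1.add (hinv.const_mul (h : ℝ))
    rw [mul_zero, add_zero] at this
    refine this.congr fun n => ?_
    push_cast
    ring
  have hinv2 : Tendsto (fun n : ℕ => (((2 * n : ℕ) : ℝ))⁻¹) atTop (𝓝 0) :=
    tendsto_inv_atTop_zero.comp tendsto_two
  have hij : ∀ᶠ n in atTop, i n + j ≤ 2 * n := by
    have h1 : Tendsto (fun n => (i n : ℝ) / ((2 * n : ℕ) : ℝ) + (j : ℝ) * ((2 * n : ℕ) : ℝ)⁻¹) atTop
        (𝓝 (p.1 + j * 0)) := hi1.add (hinv2.const_mul (j : ℝ))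
    rw [mul_zero, add_zero] at h1
    filter_upwards [h1.eventually_lt_const hs1, eventually_gt_atTop 0] with n hn hn0
    have hpos : (0 : ℝ) < ((2 * n : ℕ) : ℝ) := by exact_mod_cast (by omega : 0 < 2 * n)
    rw [← div_eq_mul_inv, ← add_div, div_lt_one hpos] at hn
    exact_mod_cast hn.le
  have hm1 : Tendsto (fun n => ((2 * n - i n - j : ℕ) : ℝ) / ((2 * n : ℕ) : ℝ)) atTop
      (𝓝 (1 - p.1)) := by
    have h1 : Tendsto (fun n => 1 - (i n : ℝ) / ((2 * n : ℕ) : ℝ) -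
        (j : ℝ) * ((2 * n : ℕ) : ℝ)⁻¹) atTop (𝓝 (1 - p.1 - j * 0)) :=
      (hi1.const_sub 1).sub (hinv2.const_mul (j : ℝ))
    rw [mul_zero, sub_zero] at h1
    refine h1.congr' ?_
    filter_upwards [hij, eventually_gt_atTop 0] with n hn hn0
    have hpos : (0 : ℝ) < ((2 * n : ℕ) : ℝ) := by exact_mod_cast (by omega : 0 < 2 * n)
    rw [Nat.cast_sub (by omega), Nat.cast_sub (by omega)]
    field_simp
  have hLl := scaled_lim hL hs0 ht hi1 hx1 (Eventually.of_forall fun n => by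
    refine ⟨((i n / 2 : ℕ) : ℤ) + k n, ?_⟩
    unfold xx
    omega)
  have hRl := scaled_lim hR hs2 ht hm1 hy1 (by
    filter_upwards [hij] with n hn
    refine ⟨(n : ℤ) - ((i n / 2 : ℕ) : ℤ) - ((i n % 2 : ℕ) : ℤ) + k n + e - j, ?_⟩
    unfold xx
    omega)
  have hxt : Tendsto (fun n => (xx (i n) (k n) : ℝ)) atTop atTop := by
    have := hx1.pos_mul_atTop ht tendsto_sqrt_two
    refine this.congr' ?_
    filter_upwards [eventually_gt_atTop 0] with n hn0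
    have hpos : (0 : ℝ) < ((2 * n : ℕ) : ℝ) := by exact_mod_cast (by omega : 0 < 2 * n)
    have := Real.sqrt_pos.2 hpos
    field_simp
  have hall := (((hx1.pow a).const_mul (1 / 2)).mul hLl).mul hRl |>.mul_const (φ j h)
  have hgoal : φ j h * (C * C' * HH a σ p) =
      1 / 2 * p.2 ^ a * (C * gm σ p.1 p.2) * (C' * gm σ (1 - p.1) p.2) * φ j h := by
    unfold HH; ring
  rw [hgoal]
  refine hall.congr' ?_
  filter_upwards [hij, hxt.eventually_gt_atTop (j : ℝ)] with n hn hx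
  have hjx : (j : ℤ) < xx (i n) (k n) := by exact_mod_cast hx
  unfold GG
  rw [if_pos hn, hψ.far j _ _ hjx, add_sub_cancel_left]

lemma GG_meas (a : ℕ) (L : ℕ → ℤ → ℝ) (ψ : ℕ → ℤ → ℤ → ℝ) (R : ℕ → ℤ → ℝ) (N j : ℕ) (h : ℤ)
    (u v : ℝ) : Measurable (fun p : ℝ × ℝ => GG a L ψ R N j h ⌊p.1 * u⌋₊ ⌊p.2 * v⌋₊) := by
  have h1 : Measurable (fun ik : ℕ × ℕ => GG a L ψ R N j h ik.1 ik.2) := measurable_of_countable _
  have h2 : Measurable (fun p : ℝ × ℝ => (⌊p.1 * u⌋₊, ⌊p.2 * v⌋₊)) := by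
    refine Measurable.prodMk ?_ ?_
    · exact Nat.measurable_floor.comp (measurable_fst.mul_const _)
    · exact Nat.measurable_floor.comp (measurable_snd.mul_const _)
  exact h1.comp h2

/-- contribution of the marked block `(j, h)` -/
noncomputable def TT (a : ℕ) (L : ℕ → ℤ → ℝ) (ψ : ℕ → ℤ → ℤ → ℝ) (R : ℕ → ℤ → ℝ) (N : ℕ)
    (q : ℕ × ℤ) : ℝ :=
  ∫ p in DD, GG a L ψ R N q.1 q.2 ⌊p.1 * (N : ℝ)⌋₊ ⌊p.2 * (Real.sqrt (N : ℝ) / 2)⌋₊

lemma TT_lim {σ C C' : ℝ} {L R : ℕ → ℤ → ℝ} (hL : Profile σ L C) (hR : Profile σ R C')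
    {f : ℕ → ℤ → ℝ} (hf : FreeLaw f) {q : ℕ} {φ : ℕ → ℤ → ℝ} {ψ : ℕ → ℤ → ℤ → ℝ}
    (hψ : Marked f q φ ψ) (a : ℕ) (z : ℕ × ℤ) :
    Tendsto (fun n : ℕ => TT a L ψ R (2 * n) z) atTop
      (𝓝 (φ z.1 z.2 * (C * C' * ∫ p in DD, HH a σ p))) := by
  obtain ⟨B, c, hB, hc, hbd⟩ := GG_bd hL hR
  obtain ⟨j, h⟩ := z
  simp only
  by_cases hjh : φ j h = 0
  · rw [hjh, zero_mul]
    refine tendsto_const_nhds.congr' ?_
    filter_upwards [eventually_gt_atTop 0] with n hn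
    unfold TT
    symm
    have : ∫ p in DD, GG a L ψ R (2 * n) j h ⌊p.1 * ((2 * n : ℕ) : ℝ)⌋₊
        ⌊p.2 * (Real.sqrt ((2 * n : ℕ) : ℝ) / 2)⌋₊ = ∫ p in DD, (0 : ℝ) := by
      refine setIntegral_congr_fun measurableSet_DD fun p hp => ?_
      have h1 := hbd a f q φ ψ hf hψ (2 * n) j h (by omega) p hp
      rw [hjh] at h1
      refine le_antisymm (h1.trans (by simp)) (GG_nonneg hL hR hψ a _ j h _ _)
    simpa using this
  · have e : φ j h * (C * C' * ∫ p in DD, HH a σ p) = ∫ p in DD, φ j h * (C * C' * HH a σ p) := by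
      rw [integral_const_mul, integral_const_mul]
    rw [e]
    unfold TT
    refine tendsto_integral_filter_of_dominated_convergence
      (fun p => B * (φ j h * (1 + (j : ℝ)) ^ 2) * maj a c p) ?_ ?_ ?_ ?_
    · exact Eventually.of_forall fun n => (GG_meas a L ψ R _ j h _ _).aestronglyMeasurable
    · filter_upwards [eventually_gt_atTop 0] with n hn
      rw [ae_restrict_iff' measurableSet_DD]
      refine Eventually.of_forall fun p hp => ?_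
      rw [Real.norm_of_nonneg (GG_nonneg hL hR hψ a _ j h _ _)]
      exact hbd a f q φ ψ hf hψ (2 * n) j h (by omega) p hp
    · exact (maj_int a hc).const_mul _
    · rw [ae_restrict_iff' measurableSet_DD]
      exact Eventually.of_forall fun p hp => GG_lim hL hR hf hψ a j h hjh hp

lemma TT_bd {σ C C' : ℝ} {L R : ℕ → ℤ → ℝ} (hL : Profile σ L C) (hR : Profile σ R C')
    {f : ℕ → ℤ → ℝ} (hf : FreeLaw f) {q : ℕ} {φ : ℕ → ℤ → ℝ} {ψ : ℕ → ℤ → ℤ → ℝ}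
    (hψ : Marked f q φ ψ) (a : ℕ) : ∃ B, 0 ≤ B ∧ ∀ (N : ℕ) (z : ℕ × ℤ), 0 < N →
    ‖TT a L ψ R N z‖ ≤ B * (φ z.1 z.2 * (1 + (z.1 : ℝ)) ^ 2) := by
  obtain ⟨B, c, hB, hc, hbd⟩ := GG_bd hL hR
  refine ⟨B * ∫ p in DD, maj a c p, ?_, fun N z hN => ?_⟩
  · have : 0 ≤ ∫ p in DD, maj a c p :=
      setIntegral_nonneg measurableSet_DD fun p hp => maj_nonneg a c hp
    positivity
  obtain ⟨j, h⟩ := z
  simp only
  unfold TT
  refine (norm_integral_le_of_norm_le ((maj_int a hc).const_mul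
    (B * (φ j h * (1 + (j : ℝ)) ^ 2))) ?_).trans ?_
  · rw [ae_restrict_iff' measurableSet_DD]
    refine Eventually.of_forall fun p hp => ?_
    rw [Real.norm_of_nonneg (GG_nonneg hL hR hψ a _ j h _ _)]
    exact hbd a f q φ ψ hf hψ N j h hN p hp
  · rw [integral_const_mul]
    exact le_of_eq (by ring)

lemma phi_summable {f : ℕ → ℤ → ℝ} (hf : FreeLaw f) {q : ℕ} {φ : ℕ → ℤ → ℝ}
    {ψ : ℕ → ℤ → ℤ → ℝ} (hψ : Marked f q φ ψ) :
    Summable (fun z : ℕ × ℤ => φ z.1 z.2 * (1 + (z.1 : ℝ)) ^ 2) := by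
  obtain ⟨δ, hδ, hs⟩ := hf.tail
  have key : ∀ j : ℕ, (1 + (j : ℝ)) ^ (q + 2) ≤
      (((q + 2).factorial : ℝ) / δ ^ (q + 2) * Real.exp δ) * Real.exp (δ * j) := by
    intro j
    have h1 := Real.pow_div_factorial_le_exp (δ * (1 + (j : ℝ))) (by positivity) (q + 2)
    have hfac : (0 : ℝ) < ((q + 2).factorial : ℝ) := by exact_mod_cast Nat.factorial_pos _
    rw [div_le_iff₀ hfac, mul_pow, show δ * (1 + (j : ℝ)) = δ + δ * j by ring, Real.exp_add] at h1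
    have hd : 0 < δ ^ (q + 2) := by positivity
    calc (1 + (j : ℝ)) ^ (q + 2) = (δ ^ (q + 2) * (1 + (j : ℝ)) ^ (q + 2)) / δ ^ (q + 2) := by
          field_simp
      _ ≤ (Real.exp δ * Real.exp (δ * j) * ((q + 2).factorial : ℝ)) / δ ^ (q + 2) := by gcongr
      _ = _ := by ring
  refine Summable.of_nonneg_of_le (fun z => ?_) (fun z => ?_)
    (hs.mul_left (((q + 2).factorial : ℝ) / δ ^ (q + 2) * Real.exp δ))
  · have := phi_nonneg hψ z.1 z.2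
    positivity
  · have h1 := hψ.bd z.1 z.2
    have h2 := hf.nonneg z.1 z.2
    calc φ z.1 z.2 * (1 + (z.1 : ℝ)) ^ 2 ≤ ((z.1 : ℝ) ^ q * f z.1 z.2) * (1 + (z.1 : ℝ)) ^ 2 := by
          gcongr
      _ ≤ ((1 + (z.1 : ℝ)) ^ q * f z.1 z.2) * (1 + (z.1 : ℝ)) ^ 2 := by
          gcongr; linarith
      _ = f z.1 z.2 * (1 + (z.1 : ℝ)) ^ (q + 2) := by ring
      _ ≤ f z.1 z.2 * ((((q + 2).factorial : ℝ) / δ ^ (q + 2) * Real.exp δ) *
          Real.exp (δ * z.1)) := by gcongr; exact key z.1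
      _ = _ := by ring

end K7
namespace K7

lemma sum_xx (i N : ℕ) (hi : i ≤ N) (F : ℤ → ℝ) (hF : ∀ x, F x ≠ 0 → 0 < x ∧ x ≤ i ∧ Even ((i : ℤ) + x)) :
    ∑ k ∈ Finset.range (N + 1), F (xx i k) = ∑ x ∈ Finset.Icc 1 (i : ℤ), F x := by
  refine Finset.sum_bij_ne_zero (fun k _ _ => xx i k) ?_ ?_ ?_ ?_
  · intro k _ hk
    have := hF _ hk
    rw [Finset.mem_Icc]
    omega
  · intro k _ _ k' _ _ h
    unfold xx at h
    omega
  · intro x _ hx
    obtain ⟨h1, h2, e, he⟩ := hF _ hx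
    have hxx : xx i ((x + ((i % 2 : ℕ) : ℤ)) / 2).toNat = x := by
      unfold xx
      omega
    refine ⟨((x + ((i % 2 : ℕ) : ℤ)) / 2).toNat, ?_, ?_, hxx⟩
    · rw [Finset.mem_range]
      omega
    · rw [hxx]; exact hx
  · intro k _ _; rfl

/-- unscaled summand -/
noncomputable def FF (a : ℕ) (L : ℕ → ℤ → ℝ) (ψ : ℕ → ℤ → ℤ → ℝ) (R : ℕ → ℤ → ℝ) (N i j : ℕ)
    (x y : ℤ) : ℝ :=
  (x : ℝ) ^ a * L i x * ψ j x y * R (N - i - j) y

lemma GG_sum {s C C' : ℝ} {L R : ℕ → ℤ → ℝ} (hL : Profile s L C) (_hR : Profile s R C')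
    (ψ : ℕ → ℤ → ℤ → ℝ) (a N j : ℕ) (h : ℤ) (i : ℕ) (hi : i < N) :
    ∑ k ∈ Finset.range (N + 1), GG a L ψ R N j h i k =
      (1 / 2 * (1 / Real.sqrt N) ^ a * N * N) *
        (if i + j ≤ N then ∑ x ∈ Finset.Icc 1 (i : ℤ), FF a L ψ R N i j x (x + h) else 0) := by
  split_ifs with hij
  · rw [← sum_xx i N hi.le (fun x => FF a L ψ R N i j x (x + h)), Finset.mul_sum]
    · refine Finset.sum_congr rfl fun k _ => ?_
      unfold GG FF
      rw [if_pos hij, div_pow, div_pow, one_pow]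
      ring
    · intro x hx
      have : L i x ≠ 0 := by
        intro h0
        apply hx
        simp only [FF, h0]
        ring
      exact hL.supp _ _ this
  · rw [mul_zero]
    refine Finset.sum_eq_zero fun k _ => ?_
    unfold GG
    rw [if_neg hij]

lemma TT_eq {s C C' : ℝ} {L R : ℕ → ℤ → ℝ} (hL : Profile s L C) (hR : Profile s R C')
    (ψ : ℕ → ℤ → ℤ → ℝ) (a N : ℕ) (hN : 0 < N) (j : ℕ) (h : ℤ) :
    TT a L ψ R N (j, h) = (N : ℝ) ^ ((1 - (a : ℝ)) / 2) * ∑ i ∈ Finset.range N,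
      if i + j ≤ N then ∑ x ∈ Finset.Icc 1 (i : ℤ), FF a L ψ R N i j x (x + h) else 0 := by
  have hN' : (0 : ℝ) < N := by exact_mod_cast hN
  have hsq : 0 < Real.sqrt N := Real.sqrt_pos.2 hN'
  unfold TT
  simp only
  rw [int_floor N hN (mu := Real.sqrt N / 2) (by positivity) (GG a L ψ R N j h) (N + 1)]
  · rw [Finset.sum_congr rfl (fun i hi => GG_sum hL hR ψ a N j h i (Finset.mem_range.1 hi)),
      ← Finset.mul_sum, ← mul_assoc]
    congr 1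
    have e1 : (N : ℝ) ^ ((1 - (a : ℝ)) / 2) = Real.sqrt N * (1 / Real.sqrt N) ^ a := by
      rw [sub_div, Real.rpow_sub hN', ← Real.sqrt_eq_rpow, div_pow, one_pow, mul_one_div]
      congr 1
      rw [Real.sqrt_eq_rpow, ← Real.rpow_natCast, ← Real.rpow_mul hN'.le]
      congr 1; ring
    rw [e1]
    have e2 : (N : ℝ) = Real.sqrt N * Real.sqrt N := (Real.mul_self_sqrt hN'.le).symm
    have e3 : 1 / (N : ℝ) * (1 / (Real.sqrt N / 2)) * (1 / 2 * (1 / Real.sqrt N) ^ a * N * N) =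
        (N / Real.sqrt N) * (1 / Real.sqrt N) ^ a := by
      field_simp
    rw [e3, Real.div_sqrt]
  · intro i hi k hk
    unfold GG
    split_ifs
    · have : L i (xx i k) = 0 := by
        by_contra h0
        have h1 := (hL.supp _ _ h0).2.1
        unfold xx at h1
        omega
      rw [this]; ring
    · rfl

lemma TT_zero {s C C' : ℝ} {L R : ℕ → ℤ → ℝ} (hL : Profile s L C) (hR : Profile s R C')
    (ψ : ℕ → ℤ → ℤ → ℝ) (a N : ℕ) (hN : 0 < N) (z : ℕ × ℤ)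
    (hz : z ∉ Finset.range (N + 1) ×ˢ Finset.Icc (-(N : ℤ)) N) : TT a L ψ R N z = 0 := by
  obtain ⟨j, h⟩ := z
  rw [TT_eq hL hR ψ a N hN j h]
  have : ∑ i ∈ Finset.range N,
      (if i + j ≤ N then ∑ x ∈ Finset.Icc 1 (i : ℤ), FF a L ψ R N i j x (x + h) else 0) = 0 := by
    refine Finset.sum_eq_zero fun i hi => ?_
    split_ifs with hij
    · refine Finset.sum_eq_zero fun x hx => ?_
      rw [Finset.mem_Icc] at hx
      rw [Finset.mem_product, Finset.mem_range, Finset.mem_Icc] at hz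
      have hR0 : R (N - i - j) (x + h) = 0 := by
        by_contra h0
        have h1 := hR.supp _ _ h0
        apply hz
        have := Finset.mem_range.1 hi
        refine ⟨by omega, ?_, ?_⟩
        · simp only
          omega
        · simp only
          have := h1.2.1
          omega
      unfold FF
      rw [hR0, mul_zero]
    · rfl
  rw [this, mul_zero]

lemma shift_sum {m N : ℕ} {i : ℕ} (hm : m ≤ N) (hi : i ≤ N) {x : ℤ} (hx : x ∈ Finset.Icc 1 (i : ℤ))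
    (u : ℤ → ℝ) (hu : ∀ y, u y ≠ 0 → 0 < y ∧ y ≤ m) :
    ∑ y ∈ Finset.Icc 1 (m : ℤ), u y = ∑ h ∈ Finset.Icc (-(N : ℤ)) N, u (x + h) := by
  rw [Finset.mem_Icc] at hx
  symm
  refine Finset.sum_bij_ne_zero (fun h _ _ => x + h) ?_ ?_ ?_ ?_
  · intro h _ hh
    have := hu _ hh
    rw [Finset.mem_Icc]
    omega
  · intro h _ _ h' _ _ e
    omega
  · intro y hy hy0
    rw [Finset.mem_Icc] at hy
    refine ⟨y - x, ?_, ?_, by ring⟩
    · rw [Finset.mem_Icc]; omega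
    · rw [add_sub_cancel]; exact hy0
  · intro h _ _; rfl

lemma SS_eq {s C C' : ℝ} {L R : ℕ → ℤ → ℝ} (hL : Profile s L C) (hR : Profile s R C')
    (ψ : ℕ → ℤ → ℤ → ℝ) (a N : ℕ) (hN : 0 < N) :
    (N : ℝ) ^ ((1 - (a : ℝ)) / 2) * SS a L ψ R N = ∑' z, TT a L ψ R N z := by
  rw [tsum_eq_sum (s := Finset.range (N + 1) ×ˢ Finset.Icc (-(N : ℤ)) N)
    (fun z hz => TT_zero hL hR ψ a N hN z hz), Finset.sum_product,
    Finset.sum_congr rfl (fun j _ => Finset.sum_congr rfl (fun h _ => TT_eq hL hR ψ a N hN j h))]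
  simp only [← Finset.mul_sum]
  congr 1
  unfold SS
  rw [Finset.sum_range_succ]
  have e0 : ∑ j ∈ Finset.range (N + 1 - N), ∑ x ∈ Finset.Icc 1 (N : ℤ),
      ∑ y ∈ Finset.Icc 1 ((N - N - j : ℕ) : ℤ),
      (x : ℝ) ^ a * L N x * ψ j x y * R (N - N - j) y = 0 := by
    refine Finset.sum_eq_zero fun j _ => Finset.sum_eq_zero fun x _ => ?_
    simp
  rw [e0, add_zero]
  have e1 : ∀ i ∈ Finset.range N, ∑ j ∈ Finset.range (N + 1 - i), ∑ x ∈ Finset.Icc 1 (i : ℤ),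
      ∑ y ∈ Finset.Icc 1 ((N - i - j : ℕ) : ℤ),
      (x : ℝ) ^ a * L i x * ψ j x y * R (N - i - j) y =
      ∑ j ∈ Finset.range (N + 1), ∑ h ∈ Finset.Icc (-(N : ℤ)) N,
        if i + j ≤ N then ∑ x ∈ Finset.Icc 1 (i : ℤ), FF a L ψ R N i j x (x + h) else 0 := by
    intro i hi
    have hi' : i < N := Finset.mem_range.1 hi
    have e2 : Finset.range (N + 1 - i) = (Finset.range (N + 1)).filter (fun j => i + j ≤ N) := by
      ext j
      simp only [Finset.mem_range, Finset.mem_filter]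
      omega
    rw [e2, Finset.sum_filter]
    refine Finset.sum_congr rfl fun j _ => ?_
    split_ifs with hij
    · rw [Finset.sum_comm (s := Finset.Icc (-(N : ℤ)) N)]
      refine Finset.sum_congr rfl fun x hx => ?_
      refine shift_sum (i := i) (by omega) hi'.le hx (fun y => FF a L ψ R N i j x y) ?_
      intro y hy
      have hR0 : R (N - i - j) y ≠ 0 := by
        intro h0
        apply hy
        simp only [FF, h0, mul_zero]
      have := hR.supp _ _ hR0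
      exact ⟨this.1, this.2.1⟩
    · simp
  rw [Finset.sum_congr rfl e1, Finset.sum_comm]
  refine Finset.sum_congr rfl fun j _ => ?_
  rw [Finset.sum_comm]

end K7

theorem marked_lim {f : ℕ → ℤ → ℝ} (hf : FreeLaw f) {s : ℝ} (hs : 0 < s) {L R : ℕ → ℤ → ℝ}
    {C C' : ℝ} (hC : 0 < C) (hC' : 0 < C') (hL : Profile s L C) (hR : Profile s R C') :
    ∃ c : ℕ → ℝ, (∀ a, 0 < c a) ∧ ∀ (a q : ℕ) (φ : ℕ → ℤ → ℝ) (ψ : ℕ → ℤ → ℤ → ℝ),
      Marked f q φ ψ → Tendsto (fun n : ℕ => ((2 * n : ℕ) : ℝ) ^ ((1 - (a : ℝ)) / 2) *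
        SS a L ψ R (2 * n)) atTop (𝓝 (c a * ∑' p : ℕ × ℤ, φ p.1 p.2)) := by
  refine ⟨fun a => C * C' * ∫ p in K7.DD, K7.HH a s p, fun a => ?_, ?_⟩
  · have := K7.HH_int_pos a hs
    positivity
  intro a q φ ψ hψ
  obtain ⟨B, _, hB⟩ := K7.TT_bd hL hR hf hψ a
  have h1 : Tendsto (fun n : ℕ => ∑' z, K7.TT a L ψ R (2 * n) z) atTop
      (𝓝 (∑' z : ℕ × ℤ, φ z.1 z.2 * (C * C' * ∫ p in K7.DD, K7.HH a s p))) := by
    refine tendsto_tsum_of_dominated_convergence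
      (bound := fun z : ℕ × ℤ => B * (φ z.1 z.2 * (1 + (z.1 : ℝ)) ^ 2))
      ((K7.phi_summable hf hψ).mul_left B) (fun z => K7.TT_lim hL hR hf hψ a z) ?_
    filter_upwards [eventually_gt_atTop 0] with n hn z
    exact hB (2 * n) z (by omega)
  rw [tsum_mul_right, mul_comm] at h1
  refine h1.congr' ?_
  filter_upwards [eventually_gt_atTop 0] with n hn
  exact (K7.SS_eq hL hR ψ a (2 * n) (by omega)).symm

/-- contribution of marked ends -/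
theorem end_lim {s : ℝ} {R : ℕ → ℤ → ℝ} {C : ℝ} (hR : Profile s R C) {w : ℕ → ℤ → ℝ}
    (hw : ∀ m x, 0 ≤ w m x) {δ : ℝ} (hδ : 0 < δ)
    (ht : Summable (fun p : ℕ × ℤ => w p.1 p.2 * Real.exp (δ * p.1))) :
    Tendsto (fun N : ℕ => (N : ℝ) ^ (1 / 2 : ℝ) * ∑ i ∈ Finset.range (N + 1),
      ∑ x ∈ Finset.Icc 1 (i : ℤ), w i x * R (N - i) x) atTop (𝓝 0) := by
  obtain ⟨K, c, hK, hc, hbd⟩ := hR.bd
  -- polynomial against exponential
  obtain ⟨P, hP, hpoly⟩ : ∃ P : ℝ, 0 < P ∧ ∀ i : ℕ,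
      (i : ℝ) * ((i : ℝ) + 1) ^ (3 / 2 : ℝ) ≤ P * Real.exp (δ * i) := by
    refine ⟨((3 : ℕ).factorial : ℝ) / δ ^ 3 * Real.exp δ, by positivity, fun i => ?_⟩
    have h1 := Real.pow_div_factorial_le_exp (δ * (1 + (i : ℝ))) (by positivity) 3
    have hfac : (0 : ℝ) < ((3 : ℕ).factorial : ℝ) := by exact_mod_cast Nat.factorial_pos _
    rw [div_le_iff₀ hfac, mul_pow, show δ * (1 + (i : ℝ)) = δ + δ * i by ring, Real.exp_add] at h1
    have hi0 : (0 : ℝ) ≤ i := by positivity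
    have h2 : ((i : ℝ) + 1) ^ (3 / 2 : ℝ) ≤ (1 + (i : ℝ)) ^ 2 := by
      rw [add_comm (i : ℝ) 1, ← Real.rpow_natCast (1 + (i : ℝ)) 2]
      refine Real.rpow_le_rpow_of_exponent_le (by linarith) ?_
      norm_num
    calc (i : ℝ) * ((i : ℝ) + 1) ^ (3 / 2 : ℝ) ≤ (1 + (i : ℝ)) * (1 + (i : ℝ)) ^ 2 := by
          gcongr; linarith
      _ = (δ ^ 3 * (1 + (i : ℝ)) ^ 3) / δ ^ 3 := by field_simp
      _ ≤ (Real.exp δ * Real.exp (δ * i) * ((3 : ℕ).factorial : ℝ)) / δ ^ 3 := by gcongr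
      _ = _ := by ring
  have hone : ∀ (N : ℕ), ∀ i ∈ Finset.range (N + 1), ∀ x ∈ Finset.Icc 1 (i : ℤ),
      w i x * R (N - i) x ≤
        K * P / ((N : ℝ) + 1) ^ (3 / 2 : ℝ) * (w i x * Real.exp (δ * i)) := by
    intro N i hi x hx
    have hiN : i ≤ N := by have := Finset.mem_range.1 hi; omega
    rw [Finset.mem_Icc] at hx
    have hx1 : (1 : ℝ) ≤ x := by exact_mod_cast hx.1
    have hxi : (x : ℝ) ≤ i := by exact_mod_cast hx.2
    have h1 := hbd (N - i) x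
    have h2 : Real.exp (-(c * (x : ℝ) ^ 2 / (((N - i : ℕ) : ℝ) + 1))) ≤ 1 := by
      rw [Real.exp_le_one_iff]
      have : 0 ≤ c * (x : ℝ) ^ 2 / (((N - i : ℕ) : ℝ) + 1) := by positivity
      linarith
    have h3 : ((N : ℝ) + 1) ^ (3 / 2 : ℝ) ≤
        (((N - i : ℕ) : ℝ) + 1) ^ (3 / 2 : ℝ) * ((i : ℝ) + 1) ^ (3 / 2 : ℝ) := by
      rw [← Real.mul_rpow (by positivity) (by positivity)]
      refine Real.rpow_le_rpow (by positivity) ?_ (by norm_num)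
      have e : ((N - i : ℕ) : ℝ) = N - i := Nat.cast_sub hiN
      have e1 : (i : ℝ) ≤ N := by exact_mod_cast hiN
      have e2 : (0 : ℝ) ≤ i := by positivity
      rw [e]
      nlinarith [mul_nonneg e2 (sub_nonneg.2 e1)]
    have hN1 : (0 : ℝ) < ((N : ℝ) + 1) ^ (3 / 2 : ℝ) := by positivity
    have hm1 : (0 : ℝ) < (((N - i : ℕ) : ℝ) + 1) ^ (3 / 2 : ℝ) := by positivity
    have h4 : R (N - i) x ≤ K * P / ((N : ℝ) + 1) ^ (3 / 2 : ℝ) * Real.exp (δ * i) := by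
      calc R (N - i) x ≤ K * |(x : ℝ)| / ((((N - i : ℕ) : ℝ)) + 1) ^ (3 / 2 : ℝ) *
            Real.exp (-(c * (x : ℝ) ^ 2 / (((N - i : ℕ) : ℝ) + 1))) := h1
        _ ≤ K * (i : ℝ) / ((((N - i : ℕ) : ℝ)) + 1) ^ (3 / 2 : ℝ) * 1 := by
            rw [abs_of_pos (by linarith : (0 : ℝ) < x)]
            gcongr
        _ ≤ K * (i : ℝ) * (((i : ℝ) + 1) ^ (3 / 2 : ℝ) / ((N : ℝ) + 1) ^ (3 / 2 : ℝ)) := by
            rw [mul_one, div_eq_mul_one_div]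
            refine mul_le_mul_of_nonneg_left ?_ (by positivity)
            rw [div_le_div_iff₀ hm1 hN1, one_mul, mul_comm]
            exact h3
        _ = K / ((N : ℝ) + 1) ^ (3 / 2 : ℝ) * ((i : ℝ) * ((i : ℝ) + 1) ^ (3 / 2 : ℝ)) := by ring
        _ ≤ K / ((N : ℝ) + 1) ^ (3 / 2 : ℝ) * (P * Real.exp (δ * i)) :=
            mul_le_mul_of_nonneg_left (hpoly i) (by positivity)
        _ = _ := by ring
    calc w i x * R (N - i) x ≤
        w i x * (K * P / ((N : ℝ) + 1) ^ (3 / 2 : ℝ) * Real.exp (δ * i)) :=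
          mul_le_mul_of_nonneg_left h4 (hw i x)
      _ = _ := by ring
  set W := ∑' p : ℕ × ℤ, w p.1 p.2 * Real.exp (δ * p.1) with hW
  have hsum : ∀ N : ℕ, ∑ i ∈ Finset.range (N + 1), ∑ x ∈ Finset.Icc 1 (i : ℤ),
      w i x * Real.exp (δ * i) ≤ W := by
    intro N
    rw [Finset.sum_sigma']
    have hinj : Set.InjOn (fun z : (_ : ℕ) × ℤ => ((z.1, z.2) : ℕ × ℤ))
        ((Finset.range (N + 1)).sigma fun i => Finset.Icc 1 (i : ℤ) : Finset ((_ : ℕ) × ℤ)) := by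
      intro z _ z' _ h
      obtain ⟨a, b⟩ := z
      obtain ⟨a', b'⟩ := z'
      simp only [Prod.mk.injEq] at h
      obtain ⟨rfl, rfl⟩ := h
      rfl
    have e1 : ∑ z ∈ (Finset.range (N + 1)).sigma (fun i => Finset.Icc 1 (i : ℤ)),
        w z.1 z.2 * Real.exp (δ * z.1) =
        ∑ p ∈ ((Finset.range (N + 1)).sigma (fun i => Finset.Icc 1 (i : ℤ))).image
          (fun z : (_ : ℕ) × ℤ => ((z.1, z.2) : ℕ × ℤ)), w p.1 p.2 * Real.exp (δ * p.1) := by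
      rw [Finset.sum_image hinj]
    rw [e1]
    exact ht.sum_le_tsum _ fun p _ => mul_nonneg (hw _ _) (Real.exp_pos _).le
  have hW0 : 0 ≤ W := tsum_nonneg fun p => mul_nonneg (hw _ _) (Real.exp_pos _).le
  have hlim : Tendsto (fun N : ℕ => K * P * W * ((N : ℝ) + 1)⁻¹) atTop (𝓝 0) := by
    have h1 : Tendsto (fun N : ℕ => ((N : ℝ) + 1)⁻¹) atTop (𝓝 0) :=
      tendsto_inv_atTop_zero.comp (tendsto_atTop_add_const_right _ _ tendsto_natCast_atTop_atTop)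
    simpa using h1.const_mul (K * P * W)
  refine squeeze_zero (fun N => ?_) (fun N => ?_) hlim
  · refine mul_nonneg (by positivity) (Finset.sum_nonneg fun i _ => Finset.sum_nonneg fun x _ => ?_)
    exact mul_nonneg (hw _ _) (hR.nonneg _ _)
  · have hN1 : (0 : ℝ) < (N : ℝ) + 1 := by positivity
    have e1 : ∑ i ∈ Finset.range (N + 1), ∑ x ∈ Finset.Icc 1 (i : ℤ), w i x * R (N - i) x ≤
        K * P / ((N : ℝ) + 1) ^ (3 / 2 : ℝ) * W := by
      calc ∑ i ∈ Finset.range (N + 1), ∑ x ∈ Finset.Icc 1 (i : ℤ), w i x * R (N - i) x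
          ≤ ∑ i ∈ Finset.range (N + 1), ∑ x ∈ Finset.Icc 1 (i : ℤ),
            K * P / ((N : ℝ) + 1) ^ (3 / 2 : ℝ) * (w i x * Real.exp (δ * i)) :=
            Finset.sum_le_sum fun i hi => Finset.sum_le_sum fun x hx => hone N i hi x hx
        _ = K * P / ((N : ℝ) + 1) ^ (3 / 2 : ℝ) * ∑ i ∈ Finset.range (N + 1),
            ∑ x ∈ Finset.Icc 1 (i : ℤ), w i x * Real.exp (δ * i) := by
            simp only [Finset.mul_sum]
        _ ≤ _ := by gcongr; exact hsum N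
    calc (N : ℝ) ^ (1 / 2 : ℝ) * ∑ i ∈ Finset.range (N + 1), ∑ x ∈ Finset.Icc 1 (i : ℤ),
          w i x * R (N - i) x
        ≤ ((N : ℝ) + 1) ^ (1 / 2 : ℝ) * (K * P / ((N : ℝ) + 1) ^ (3 / 2 : ℝ) * W) := by
          refine mul_le_mul (Real.rpow_le_rpow (by positivity) (by linarith) (by norm_num)) e1
            (Finset.sum_nonneg fun i _ => Finset.sum_nonneg fun x _ =>
              mul_nonneg (hw _ _) (hR.nonneg _ _)) (by positivity)
      _ = K * P * W * (((N : ℝ) + 1) ^ (1 / 2 : ℝ) / ((N : ℝ) + 1) ^ (3 / 2 : ℝ)) := by ring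
      _ = K * P * W * ((N : ℝ) + 1)⁻¹ := by
          rw [← Real.rpow_sub hN1]
          norm_num
          left
          exact Real.rpow_neg_one _

end Pool.Agent.SAPX
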