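import Pool.Agent.SAPX.Cross
import Pool.Agent.SAPX.PBlocks
import Pool.Agent.SAPX.MarkLim

/-!
Canonical pairs as sequences of blocks; sums over configurations with a marked block.
-/

namespace Pool.Agent.SAPX.Cfg

open Pool.Agent.SAPF Pool.Agent.SAPK

/-! ### lists of pairs -/

/-- total length -/
def tl (l : List PW) : ℕ := (l.map ln).sum
/-- total height -/
def hts (l : List PW) : ℤ := (l.map ht).sum

@[simp] lemma tl_nil : tl [] = 0 := rfl
@[simp] lemma tl_cons (q : PW) (l : List PW) : tl (q :: l) = ln q + tl l := by simp [tl]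
@[simp] lemma tl_append (l l' : List PW) : tl (l ++ l') = tl l + tl l' := by simp [tl]
@[simp] lemma hts_nil : hts [] = 0 := rfl
@[simp] lemma hts_cons (q : PW) (l : List PW) : hts (q :: l) = ht q + hts l := by simp [hts]
@[simp] lemma hts_append (l l' : List PW) : hts (l ++ l') = hts l + hts l' := by simp [hts]

lemma abs_ht_le (q : PW) : |ht q| ≤ ln q := by
  have h1 := abs_le.1 (abs_Y_le q.1)
  have h2 := abs_le.1 (abs_Y_le q.2)
  unfold ht ln
  push_cast
  rw [abs_le]
  constructor <;> linarith [h1.1, h1.2, h2.1, h2.2]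

lemma abs_hts_le (l : List PW) : |hts l| ≤ tl l := by
  induction l with
  | nil => simp
  | cons q l ih =>
    rw [hts_cons, tl_cons]
    push_cast
    exact (abs_add_le _ _).trans (add_le_add (abs_ht_le q) ih)

lemma finite_lst (N : ℕ) : {l : List PW | (∀ q ∈ l, 0 < ln q) ∧ tl l = N}.Finite := by
  induction N using Nat.strong_induction_on with
  | _ N ih =>
    have h1 : (({[]} : Set (List PW)) ∪ ⋃ j ∈ Finset.Icc 1 N, Set.image2 (fun q l => q :: l)
        {q : PW | ln q = j} {l : List PW | (∀ q ∈ l, 0 < ln q) ∧ tl l = N - j}).Finite := by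
      refine (Set.finite_singleton _).union ?_
      refine Set.Finite.biUnion (Finset.finite_toSet _) fun j hj => ?_
      rw [Finset.mem_coe, Finset.mem_Icc] at hj
      exact Set.Finite.image2 _ (finite_pw j) (ih (N - j) (by omega))
    refine h1.subset ?_
    rintro l ⟨hl, hN⟩
    rcases l with _ | ⟨q, l⟩
    · left; rfl
    · right
      have hq : 0 < ln q := hl q (by simp)
      rw [tl_cons] at hN
      refine Set.mem_biUnion (x := ln q) (Finset.mem_coe.2 (Finset.mem_Icc.2 ⟨hq, by omega⟩)) ?_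
      exact ⟨q, rfl, l, ⟨fun r hr => hl r (by simp [hr]), by omega⟩, rfl⟩

/-- lists of nonempty pairs of total length `N` -/
noncomputable def lst (N : ℕ) : Finset (List PW) := (finite_lst N).toFinset

lemma mem_lst {N : ℕ} {l : List PW} : l ∈ lst N ↔ (∀ q ∈ l, 0 < ln q) ∧ tl l = N := by
  unfold lst; rw [Set.Finite.mem_toFinset]; rfl

open Classical in
/-- nonempty pairs of length `j` -/
noncomputable def pwp (j : ℕ) : Finset PW := (pwN j).filter fun q => 0 < ln q

lemma mem_pwp {j : ℕ} {q : PW} : q ∈ pwp j ↔ ln q = j ∧ 0 < ln q := by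
  unfold pwp; rw [Finset.mem_filter, mem_pwN]

/-- splitting off the first element -/
lemma sum_cons (F : List PW → ℝ) (h0 : F [] = 0) (N : ℕ) :
    ∑ l ∈ lst N, F l = ∑ ij ∈ Finset.HasAntidiagonal.antidiagonal N, ∑ q ∈ pwp ij.1, ∑ l ∈ lst ij.2, F (q :: l) := by
  classical
  have h1 : ∑ l ∈ lst N, F l = ∑ l ∈ (lst N).filter (fun l => l ≠ []), F l := by
    refine (Finset.sum_filter_of_ne fun l _ hl => ?_).symm
    rintro rfl
    exact hl h0
  rw [h1]
  simp_rw [← Finset.sum_product']
  rw [Finset.sum_sigma']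
  refine Finset.sum_bij' (i := fun l _ => ⟨(ln (l.headD ([], [])), tl l.tail),
      (l.headD ([], []), l.tail)⟩) (j := fun x _ => x.2.1 :: x.2.2) ?_ ?_ ?_ ?_ ?_
  · intro l hl
    rw [Finset.mem_filter, mem_lst] at hl
    obtain ⟨⟨h2, h3⟩, h4⟩ := hl
    rcases l with _ | ⟨q, l⟩
    · exact absurd rfl h4
    · simp only [List.headD_cons, List.tail_cons, Finset.mem_sigma, Finset.HasAntidiagonal.mem_antidiagonal,
        Finset.mem_product, mem_pwp, mem_lst]
      rw [tl_cons] at h3
      exact ⟨h3, ⟨trivial, h2 q (by simp)⟩, fun r hr => h2 r (by simp [hr]), trivial⟩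
  · rintro ⟨⟨i, j⟩, ⟨q, l⟩⟩ hx
    simp only [Finset.mem_sigma, Finset.HasAntidiagonal.mem_antidiagonal,
        Finset.mem_product, mem_pwp, mem_lst] at hx
    obtain ⟨h2, ⟨h3, h4⟩, h5, h6⟩ := hx
    rw [Finset.mem_filter, mem_lst]
    refine ⟨⟨?_, by rw [tl_cons, h3, h6, h2]⟩, by simp⟩
    intro r hr
    rcases List.mem_cons.1 hr with rfl | hr
    · exact h4
    · exact h5 r hr
  · intro l hl
    rw [Finset.mem_filter] at hl
    rcases l with _ | ⟨q, l⟩
    · exact absurd rfl hl.2
    · rfl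
  · rintro ⟨⟨i, j⟩, ⟨q, l⟩⟩ hx
    simp only [Finset.mem_sigma, Finset.HasAntidiagonal.mem_antidiagonal,
        Finset.mem_product, mem_pwp, mem_lst] at hx
    obtain ⟨h2, ⟨h3, h4⟩, h5, h6⟩ := hx
    subst h3 h6
    rfl
  · intro l hl
    rw [Finset.mem_filter] at hl
    rcases l with _ | ⟨q, l⟩
    · exact absurd rfl hl.2
    · rfl

/-- splitting off the last element -/
lemma sum_snoc (F : List PW → ℝ) (h0 : F [] = 0) (N : ℕ) :
    ∑ l ∈ lst N, F l =
      ∑ ij ∈ Finset.HasAntidiagonal.antidiagonal N, ∑ l ∈ lst ij.1, ∑ q ∈ pwp ij.2, F (l ++ [q]) := by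
  classical
  have h1 : ∑ l ∈ lst N, F l = ∑ l ∈ (lst N).filter (fun l => l ≠ []), F l := by
    refine (Finset.sum_filter_of_ne fun l _ hl => ?_).symm
    rintro rfl
    exact hl h0
  rw [h1]
  simp_rw [← Finset.sum_product']
  rw [Finset.sum_sigma']
  refine Finset.sum_bij' (i := fun l _ => ⟨(tl l.dropLast, ln (l.getLastD ([], []))),
      (l.dropLast, l.getLastD ([], []))⟩) (j := fun x _ => x.2.1 ++ [x.2.2]) ?_ ?_ ?_ ?_ ?_
  · intro l hl
    rw [Finset.mem_filter, mem_lst] at hl
    obtain ⟨⟨h2, h3⟩, h4⟩ := hl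
    rcases List.eq_nil_or_concat l with rfl | ⟨l, q, hlq⟩
    · exact absurd rfl h4
    · have hlq' : l ++ [q] = l ++ [q] := rfl
      rw [List.concat_eq_append] at hlq
      subst hlq
      simp only [List.dropLast_concat, List.getLastD_concat, Finset.mem_sigma,
        Finset.HasAntidiagonal.mem_antidiagonal, Finset.mem_product, mem_pwp, mem_lst]
      rw [tl_append, tl_cons, tl_nil, add_zero] at h3
      exact ⟨h3, ⟨fun r hr => h2 r (by simp [hr]), trivial⟩, trivial, h2 q (by simp)⟩
  · rintro ⟨⟨i, j⟩, ⟨l, q⟩⟩ hx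
    simp only [Finset.mem_sigma, Finset.HasAntidiagonal.mem_antidiagonal,
        Finset.mem_product, mem_pwp, mem_lst] at hx
    obtain ⟨h2, ⟨h5, h6⟩, h3, h4⟩ := hx
    rw [Finset.mem_filter, mem_lst]
    refine ⟨⟨?_, by rw [tl_append, tl_cons, tl_nil, h3, h6, add_zero, h2]⟩, by simp⟩
    intro r hr
    rcases List.mem_append.1 hr with hr | hr
    · exact h5 r hr
    · rw [List.mem_singleton.1 hr]; exact h4
  · intro l hl
    rw [Finset.mem_filter] at hl
    rcases List.eq_nil_or_concat l with rfl | ⟨l, q, hlq⟩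
    · exact absurd rfl hl.2
    · rw [List.concat_eq_append] at hlq
      subst hlq
      simp
  · rintro ⟨⟨i, j⟩, ⟨l, q⟩⟩ hx
    simp only [Finset.mem_sigma, Finset.HasAntidiagonal.mem_antidiagonal,
        Finset.mem_product, mem_pwp, mem_lst] at hx
    obtain ⟨h2, ⟨h5, h6⟩, h3, h4⟩ := hx
    subst h3 h6
    simp
  · intro l hl
    rw [Finset.mem_filter] at hl
    rcases List.eq_nil_or_concat l with rfl | ⟨l, q, hlq⟩
    · exact absurd rfl hl.2
    · rw [List.concat_eq_append] at hlq
      subst hlq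
      simp

/-- cutting a list in two -/
lemma sum_cut (G : List PW → List PW → ℝ) (N : ℕ) :
    ∑ l ∈ lst N, ∑ k ∈ Finset.range (l.length + 1), G (l.take k) (l.drop k) =
      ∑ ij ∈ Finset.HasAntidiagonal.antidiagonal N, ∑ l ∈ lst ij.1, ∑ m ∈ lst ij.2, G l m := by
  classical
  simp_rw [← Finset.sum_product' (lst _) (lst _)]
  rw [Finset.sum_sigma', Finset.sum_sigma']
  refine Finset.sum_bij' (i := fun x _ => ⟨(tl (x.1.take x.2), tl (x.1.drop x.2)),
      (x.1.take x.2, x.1.drop x.2)⟩) (j := fun x _ => ⟨x.2.1 ++ x.2.2, x.2.1.length⟩) ?_ ?_ ?_ ?_ ?_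
  · rintro ⟨l, k⟩ hx
    simp only [Finset.mem_sigma, Finset.mem_range, mem_lst] at hx
    obtain ⟨⟨h1, h2⟩, h3⟩ := hx
    simp only [Finset.mem_sigma, Finset.HasAntidiagonal.mem_antidiagonal, Finset.mem_product, mem_lst]
    refine ⟨?_, ⟨fun q hq => h1 q (List.mem_of_mem_take hq), trivial⟩,
      fun q hq => h1 q (List.mem_of_mem_drop hq), trivial⟩
    rw [← tl_append, List.take_append_drop, h2]
  · rintro ⟨⟨i, j⟩, ⟨l, m⟩⟩ hx
    simp only [Finset.mem_sigma, Finset.HasAntidiagonal.mem_antidiagonal, Finset.mem_product, mem_lst] at hx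
    obtain ⟨h1, ⟨h2, h3⟩, h4, h5⟩ := hx
    simp only [Finset.mem_sigma, Finset.mem_range, mem_lst]
    refine ⟨⟨?_, by rw [tl_append, h3, h5, h1]⟩, by simp⟩
    intro q hq
    rcases List.mem_append.1 hq with hq | hq
    · exact h2 q hq
    · exact h4 q hq
  · rintro ⟨l, k⟩ hx
    simp only [Finset.mem_sigma, Finset.mem_range, mem_lst] at hx
    obtain ⟨⟨h1, h2⟩, h3⟩ := hx
    have h4 : (l.take k).length = k := by rw [List.length_take]; omega
    simp only [List.take_append_drop, h4]
  · rintro ⟨⟨i, j⟩, ⟨l, m⟩⟩ hx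
    simp only [Finset.mem_sigma, Finset.HasAntidiagonal.mem_antidiagonal, Finset.mem_product, mem_lst] at hx
    obtain ⟨h1, ⟨h2, h3⟩, h4, h5⟩ := hx
    subst h3 h5
    simp
  · rintro ⟨l, k⟩ hx
    rfl

/-- sums by the values of a function -/
lemma sum_fib {ι : Type*} (s : Finset ι) (f : ι → ℤ) (w : ι → ℝ) (S : Finset ℤ) (Φ : ℤ → ℝ)
    (h : ∀ i ∈ s, w i * Φ (f i) ≠ 0 → f i ∈ S) :
    ∑ i ∈ s, w i * Φ (f i) = ∑ y ∈ S, (∑ i ∈ s.filter (fun i => f i = y), w i) * Φ y := by
  classical
  have h1 : ∀ y ∈ S, (∑ i ∈ s.filter (fun i => f i = y), w i) * Φ y =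
      ∑ i ∈ s, if f i = y then w i * Φ (f i) else 0 := by
    intro y _
    rw [Finset.sum_mul, Finset.sum_filter]
    refine Finset.sum_congr rfl fun i _ => ?_
    split_ifs with h2
    · rw [h2]
    · rfl
  rw [Finset.sum_congr rfl h1, Finset.sum_comm]
  refine Finset.sum_congr rfl fun i hi => ?_
  rw [Finset.sum_ite_eq]
  split_ifs with h2
  · rfl
  · by_contra h3
    exact h2 (h i hi h3)

/-! ### weights -/

/-- blocks of the class -/
def okb (A : Set Word) (q : PW) : Prop := IsPIrr q ∧ q.1 ∈ A ∧ q.2 ∈ A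

lemma ln_pos {q : PW} (h : IsPIrr q) : 0 < ln q := by
  have h1 := h.pos
  have h2 := (abs_le.1 (abs_X_le q.1)).2
  unfold ln
  omega

section weights
variable (A : Set Word) (u c : ℝ)

open Classical in
/-- interior blocks -/
noncomputable def k1 (x : ℤ) (q : PW) : ℝ :=
  if okb A q ∧ 0 < x ∧ 0 < x + ht q ∧ Disj x q then wt u c q else 0

open Classical in
/-- first blocks -/
noncomputable def lam1 (q : PW) : ℝ := if okb A q ∧ 0 < ht q ∧ CapL q then wt u c q else 0

open Classical in
/-- last blocks -/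
noncomputable def rho1 (x : ℤ) (q : PW) : ℝ := if okb A q ∧ 0 < x ∧ CapR x q then wt u c q else 0

/-- weight of a list of interior blocks -/
noncomputable def cw : ℤ → List PW → ℝ
  | _, [] => 1
  | x, q :: l => k1 A u c x q * cw (x + ht q) l

/-- weight of a list of blocks starting with a first block -/
noncomputable def Lw : List PW → ℝ
  | [] => 0
  | q :: l => lam1 A u c q * cw A u c (ht q) l

open Classical in
/-- weight of a list of blocks ending with a last block -/
noncomputable def Rw : ℤ → List PW → ℝ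
  | _, [] => 0
  | x, q :: l => (if l = [] then rho1 A u c x q else 0) + k1 A u c x q * Rw (x + ht q) l

/-- weight of a complete list -/
noncomputable def Pw : List PW → ℝ
  | [] => 0
  | q :: l => lam1 A u c q * Rw A u c (ht q) l

variable {A u c}

@[simp] lemma cw_nil (x : ℤ) : cw A u c x [] = 1 := rfl
@[simp] lemma cw_cons (x : ℤ) (q : PW) (l : List PW) :
    cw A u c x (q :: l) = k1 A u c x q * cw A u c (x + ht q) l := rfl
@[simp] lemma Lw_nil : Lw A u c [] = 0 := rfl
@[simp] lemma Lw_cons (q : PW) (l : List PW) :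
    Lw A u c (q :: l) = lam1 A u c q * cw A u c (ht q) l := rfl
@[simp] lemma Rw_nil (x : ℤ) : Rw A u c x [] = 0 := rfl
open Classical in
lemma Rw_cons (x : ℤ) (q : PW) (l : List PW) : Rw A u c x (q :: l) =
    (if l = [] then rho1 A u c x q else 0) + k1 A u c x q * Rw A u c (x + ht q) l := rfl
lemma Rw_single (x : ℤ) (q : PW) : Rw A u c x [q] = rho1 A u c x q := by
  rw [Rw_cons, if_pos rfl, Rw_nil, mul_zero, add_zero]
lemma Rw_cons_ne (x : ℤ) (q : PW) {l : List PW} (h : l ≠ []) : Rw A u c x (q :: l) =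
    k1 A u c x q * Rw A u c (x + ht q) l := by
  rw [Rw_cons, if_neg h, zero_add]
@[simp] lemma Pw_nil : Pw A u c [] = 0 := rfl
@[simp] lemma Pw_cons (q : PW) (l : List PW) :
    Pw A u c (q :: l) = lam1 A u c q * Rw A u c (ht q) l := rfl

lemma cw_snoc (x : ℤ) (l : List PW) (q : PW) :
    cw A u c x (l ++ [q]) = cw A u c x l * k1 A u c (x + hts l) q := by
  induction l generalizing x with
  | nil => simp
  | cons r l ih => rw [List.cons_append, cw_cons, cw_cons, ih, hts_cons, add_assoc, mul_assoc]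

lemma Rw_snoc (x : ℤ) (l : List PW) (q : PW) :
    Rw A u c x (l ++ [q]) = cw A u c x l * rho1 A u c (x + hts l) q := by
  induction l generalizing x with
  | nil => simp [Rw_single]
  | cons r l ih =>
    rw [List.cons_append, Rw_cons_ne _ _ (by simp), cw_cons, ih, hts_cons, add_assoc, mul_assoc]

open Classical in
lemma Lw_snoc (l : List PW) (q : PW) : Lw A u c (l ++ [q]) =
    (if l = [] then lam1 A u c q else 0) + Lw A u c l * k1 A u c (hts l) q := by
  rcases l with _ | ⟨r, l⟩
  · simp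
  · rw [if_neg (by simp), List.cons_append, Lw_cons, cw_snoc, Lw_cons, hts_cons, zero_add,
      mul_assoc]

lemma Pw_snoc (l : List PW) (q : PW) : Pw A u c (l ++ [q]) =
    Lw A u c l * rho1 A u c (hts l) q := by
  rcases l with _ | ⟨r, l⟩
  · simp
  · rw [List.cons_append, Pw_cons, Rw_snoc, Lw_cons, hts_cons, mul_assoc]

lemma k1_ne {x : ℤ} {q : PW} (h : k1 A u c x q ≠ 0) :
    okb A q ∧ 0 < x ∧ 0 < x + ht q ∧ Disj x q := by
  unfold k1 at h
  by_contra h1
  exact h (if_neg h1)

lemma lam1_ne {q : PW} (h : lam1 A u c q ≠ 0) : okb A q ∧ 0 < ht q ∧ CapL q := by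
  unfold lam1 at h
  by_contra h1
  exact h (if_neg h1)

lemma rho1_ne {x : ℤ} {q : PW} (h : rho1 A u c x q ≠ 0) : okb A q ∧ 0 < x ∧ CapR x q := by
  unfold rho1 at h
  by_contra h1
  exact h (if_neg h1)

lemma k1_nonneg (x : ℤ) (q : PW) : 0 ≤ k1 A u c x q := by
  unfold k1
  split_ifs
  · exact (wt_pos u c q).le
  · exact le_rfl

lemma rho1_nonneg (x : ℤ) (q : PW) : 0 ≤ rho1 A u c x q := by
  unfold rho1
  split_ifs
  · exact (wt_pos u c q).le
  · exact le_rfl

lemma lam1_nonneg (q : PW) : 0 ≤ lam1 A u c q := by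
  unfold lam1
  split_ifs
  · exact (wt_pos u c q).le
  · exact le_rfl

lemma cw_ne {x : ℤ} {l : List PW} (hx : 0 < x) (h : cw A u c x l ≠ 0) : 0 < x + hts l := by
  induction l generalizing x with
  | nil => simpa using hx
  | cons q l ih =>
    rw [cw_cons] at h
    have h1 := k1_ne (left_ne_zero_of_mul h)
    have h2 := ih h1.2.2.1 (right_ne_zero_of_mul h)
    rw [hts_cons]
    omega

lemma Lw_ne {l : List PW} (h : Lw A u c l ≠ 0) : 0 < hts l := by
  rcases l with _ | ⟨q, l⟩
  · exact absurd rfl h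
  · rw [Lw_cons] at h
    have h1 := lam1_ne (left_ne_zero_of_mul h)
    have h2 := cw_ne h1.2.1 (right_ne_zero_of_mul h)
    rwa [hts_cons]

lemma rho1_ne' {x : ℤ} {q : PW} (h : rho1 A u c x q ≠ 0) : 0 < x ∧ x + ht q = 0 := by
  have h1 := rho1_ne h
  have h2 := h1.2.2.meet
  refine ⟨h1.2.1, ?_⟩
  unfold ht
  omega

lemma Rw_ne {x : ℤ} {l : List PW} (h : Rw A u c x l ≠ 0) : 0 < x ∧ x + hts l = 0 := by
  induction l generalizing x with
  | nil => exact absurd rfl h
  | cons q l ih =>
    rcases eq_or_ne l [] with rfl | hl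
    · rw [Rw_single] at h
      have h1 := rho1_ne' h
      simpa using h1
    · rw [Rw_cons_ne _ _ hl] at h
      have h1 := k1_ne (left_ne_zero_of_mul h)
      have h2 := ih (right_ne_zero_of_mul h)
      refine ⟨h1.2.1, ?_⟩
      rw [hts_cons]
      omega

/-! ### the kernels as sums over pairs -/

variable (ω : PW → ℝ)

lemma mkg_eq (m : ℕ) (x y : ℤ) : mkg A u c ω m x y =
    ∑ q ∈ (pwp m).filter (fun q => x + ht q = y), ω q * k1 A u c x q := by
  classical
  have h1 : ∀ q, q ∈ blk A m ↔ q ∈ pwp m ∧ okb A q := by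
    intro q
    rw [mem_blk, mem_pwp]
    constructor
    · rintro ⟨h1, h2⟩
      exact ⟨⟨h1, ln_pos h2.1⟩, h2⟩
    · rintro ⟨h1, h2⟩
      exact ⟨h1.1, h2⟩
  have h2 : blk A m = (pwp m).filter (okb A) := by
    ext q
    rw [h1, Finset.mem_filter]
  unfold mkg
  rw [h2, Finset.filter_filter, Finset.sum_filter, Finset.sum_filter]
  split_ifs with h3
  · refine Finset.sum_congr rfl fun q _ => ?_
    unfold k1
    by_cases h4 : x + ht q = y
    · rw [if_pos h4]
      by_cases h5 : okb A q ∧ Disj x q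
      · rw [if_pos ⟨h5.1, by omega, h5.2⟩, if_pos ⟨h5.1, h3.1, by omega, h5.2⟩]
      · rw [if_neg fun h => h5 ⟨h.1, h.2.2⟩, if_neg fun h => h5 ⟨h.1, h.2.2.2⟩, mul_zero]
    · rw [if_neg h4, if_neg fun h => h4 (by omega)]
  · refine (Finset.sum_eq_zero fun q _ => ?_).symm
    split_ifs with h4
    · unfold k1
      rw [if_neg fun h => h3 ⟨h.2.1, by omega⟩, mul_zero]
    · rfl

lemma lamA_eq (m : ℕ) (x : ℤ) : lamA A u c ω m x =
    ∑ q ∈ (pwp m).filter (fun q => ht q = x), ω q * lam1 A u c q := by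
  classical
  have h1 : ∀ q, q ∈ blk A m ↔ q ∈ pwp m ∧ okb A q := by
    intro q
    rw [mem_blk, mem_pwp]
    constructor
    · rintro ⟨h1, h2⟩
      exact ⟨⟨h1, ln_pos h2.1⟩, h2⟩
    · rintro ⟨h1, h2⟩
      exact ⟨h1.1, h2⟩
  have h2 : blk A m = (pwp m).filter (okb A) := by
    ext q
    rw [h1, Finset.mem_filter]
  unfold lamA
  rw [h2, Finset.filter_filter, Finset.sum_filter, Finset.sum_filter]
  split_ifs with h3
  · refine Finset.sum_congr rfl fun q _ => ?_
    unfold lam1
    by_cases h4 : ht q = x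
    · rw [if_pos h4]
      by_cases h5 : okb A q ∧ CapL q
      · rw [if_pos ⟨h5.1, h4, h5.2⟩, if_pos ⟨h5.1, by omega, h5.2⟩]
      · rw [if_neg fun h => h5 ⟨h.1, h.2.2⟩, if_neg fun h => h5 ⟨h.1, h.2.2⟩, mul_zero]
    · rw [if_neg h4, if_neg fun h => h4 h.2.1]
  · refine (Finset.sum_eq_zero fun q _ => ?_).symm
    split_ifs with h4
    · unfold lam1
      rw [if_neg fun h => h3 (by omega), mul_zero]
    · rfl

lemma rhoA_eq (m : ℕ) (x : ℤ) : rhoA A u c ω m x = ∑ q ∈ pwp m, ω q * rho1 A u c x q := by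
  classical
  have h1 : ∀ q, q ∈ blk A m ↔ q ∈ pwp m ∧ okb A q := by
    intro q
    rw [mem_blk, mem_pwp]
    constructor
    · rintro ⟨h1, h2⟩
      exact ⟨⟨h1, ln_pos h2.1⟩, h2⟩
    · rintro ⟨h1, h2⟩
      exact ⟨h1.1, h2⟩
  have h2 : blk A m = (pwp m).filter (okb A) := by
    ext q
    rw [h1, Finset.mem_filter]
  unfold rhoA
  rw [h2, Finset.filter_filter, Finset.sum_filter]
  split_ifs with h3
  · refine Finset.sum_congr rfl fun q _ => ?_
    unfold rho1
    by_cases h5 : okb A q ∧ CapR x q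
    · rw [if_pos h5, if_pos ⟨h5.1, h3, h5.2⟩]
    · rw [if_neg h5, if_neg fun h => h5 ⟨h.1, h.2.2⟩, mul_zero]
  · refine (Finset.sum_eq_zero fun q _ => ?_).symm
    unfold rho1
    rw [if_neg fun h => h3 h.2.1, mul_zero]

/-! ### occupation measures as sums over lists -/

lemma one_mul_sum (s : Finset PW) (f : PW → ℝ) : ∑ q ∈ s, one q * f q = ∑ q ∈ s, f q :=
  Finset.sum_congr rfl fun q _ => by rw [one, one_mul]

lemma pwp_zero : pwp 0 = ∅ := by
  refine Finset.eq_empty_of_forall_notMem fun q hq => ?_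
  rw [mem_pwp] at hq
  omega

lemma lst_zero : lst 0 = {[]} := by
  ext l
  rw [mem_lst, Finset.mem_singleton]
  constructor
  · rintro ⟨h1, h2⟩
    rcases l with _ | ⟨q, l⟩
    · rfl
    · have := h1 q (by simp)
      rw [tl_cons] at h2
      omega
  · rintro rfl
    simp

lemma nil_mem_lst {N : ℕ} : [] ∈ lst N ↔ N = 0 := by
  rw [mem_lst]
  constructor
  · intro h
    simpa using h.2.symm
  · rintro rfl
    simp

/-- occupation measure from the left as a sum over lists -/
noncomputable def LL (A : Set Word) (u c : ℝ) (m : ℕ) (x : ℤ) : ℝ :=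
  ∑ l ∈ (lst m).filter (fun l => hts l = x), Lw A u c l

/-- occupation measure from the right as a sum over lists -/
noncomputable def RR (A : Set Word) (u c : ℝ) (m : ℕ) (x : ℤ) : ℝ := ∑ l ∈ lst m, Rw A u c x l

lemma LL_zero (x : ℤ) : LL A u c 0 x = 0 := by
  unfold LL
  refine Finset.sum_eq_zero fun l hl => ?_
  rw [lst_zero, Finset.mem_filter, Finset.mem_singleton] at hl
  rw [hl.1, Lw_nil]

lemma RR_zero (x : ℤ) : RR A u c 0 x = 0 := by
  unfold RR
  rw [lst_zero, Finset.sum_singleton, Rw_nil]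

lemma RR_supp {m : ℕ} {x : ℤ} (h : RR A u c m x ≠ 0) : x ∈ Finset.Icc 1 (m : ℤ) := by
  obtain ⟨l, hl, h1⟩ := Finset.exists_ne_zero_of_sum_ne_zero h
  have h2 := Rw_ne h1
  have h3 := abs_le.1 (abs_hts_le l)
  rw [mem_lst] at hl
  rw [hl.2] at h3
  rw [Finset.mem_Icc]
  omega

lemma rec_LL : Rec (mkg A u c one) (lamA A u c one) (LL A u c) := by
  classical
  intro m y
  have h1 : LL A u c m y = ∑ l ∈ lst m, if hts l = y then Lw A u c l else 0 := by
    unfold LL
    rw [Finset.sum_filter]
  rw [h1, sum_snoc _ (by split_ifs <;> rfl), Finset.Nat.sum_antidiagonal_eq_sum_range_succ_mk]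
  have h2 : ∀ k ∈ Finset.range m.succ, ∑ l ∈ lst k, ∑ q ∈ pwp (m - k),
      (if hts (l ++ [q]) = y then Lw A u c (l ++ [q]) else 0) =
      (if k = 0 then lamA A u c one m y else 0) +
        ∑ x ∈ Finset.Icc (y - ((m : ℤ) - k)) (y + ((m : ℤ) - k)),
          LL A u c k x * mkg A u c one (m - k) x y := by
    intro k hk
    have hk' : k ≤ m := by rw [Finset.mem_range] at hk; omega
    have h3 : ∀ l ∈ lst k, ∑ q ∈ pwp (m - k),
        (if hts (l ++ [q]) = y then Lw A u c (l ++ [q]) else 0) =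
        (if l = [] then lamA A u c one (m - k) y else 0) +
          Lw A u c l * mkg A u c one (m - k) (hts l) y := by
      intro l _
      have h4 : ∀ q ∈ pwp (m - k), (if hts (l ++ [q]) = y then Lw A u c (l ++ [q]) else 0) =
          (if l = [] then (if ht q = y then lam1 A u c q else 0) else 0) +
            Lw A u c l * (if hts l + ht q = y then k1 A u c (hts l) q else 0) := by
        intro q _
        rw [Lw_snoc, hts_append, hts_cons, hts_nil, add_zero]
        rcases eq_or_ne l [] with rfl | hl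
        · simp
        · rw [if_neg hl, if_neg hl, zero_add, zero_add]
          split_ifs
          · rfl
          · rw [mul_zero]
      rw [Finset.sum_congr rfl h4, Finset.sum_add_distrib, ← Finset.mul_sum, mkg_eq,
        one_mul_sum, Finset.sum_filter]
      congr 1
      split_ifs
      · rw [lamA_eq, one_mul_sum, Finset.sum_filter]
      · rw [Finset.sum_const_zero]
    rw [Finset.sum_congr rfl h3, Finset.sum_add_distrib, Finset.sum_ite_eq']
    congr 1
    · by_cases hk0 : k = 0
      · rw [if_pos (nil_mem_lst.2 hk0), if_pos hk0, hk0, Nat.sub_zero]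
      · rw [if_neg (fun h => hk0 (nil_mem_lst.1 h)), if_neg hk0]
    · rw [sum_fib (lst k) hts (Lw A u c) (Finset.Icc (y - ((m : ℤ) - k)) (y + ((m : ℤ) - k)))
        (fun x => mkg A u c one (m - k) x y)]
      · rfl
      · intro l _ hl
        have h5 := right_ne_zero_of_mul hl
        rw [mkg_eq] at h5
        obtain ⟨q, hq, _⟩ := Finset.exists_ne_zero_of_sum_ne_zero h5
        rw [Finset.mem_filter, mem_pwp] at hq
        have h6 := abs_le.1 (abs_ht_le q)
        rw [hq.1.1, Nat.cast_sub hk'] at h6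
        rw [Finset.mem_Icc]
        omega
  rw [Finset.sum_congr rfl h2, Finset.sum_add_distrib, Finset.sum_ite_eq', if_pos (by simp),
    Finset.sum_range_succ]
  have h7 : ∑ x ∈ Finset.Icc (y - ((m : ℤ) - (m : ℕ))) (y + ((m : ℤ) - (m : ℕ))),
      LL A u c m x * mkg A u c one (m - m) x y = 0 := by
    refine Finset.sum_eq_zero fun x _ => ?_
    rw [Nat.sub_self, mkg_eq, pwp_zero, Finset.filter_empty, Finset.sum_empty, mul_zero]
  rw [h7, add_zero]

lemma sum_k1 (j : ℕ) (x : ℤ) (S : Finset ℤ) (Φ : ℤ → ℝ)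
    (h : ∀ q ∈ pwp j, k1 A u c x q * Φ (x + ht q) ≠ 0 → x + ht q ∈ S) :
    ∑ q ∈ pwp j, ω q * k1 A u c x q * Φ (x + ht q) = ∑ y ∈ S, mkg A u c ω j x y * Φ y := by
  rw [sum_fib (pwp j) (fun q => x + ht q) (fun q => ω q * k1 A u c x q) S Φ]
  · refine Finset.sum_congr rfl fun y _ => ?_
    rw [mkg_eq]
  · intro q hq h1
    refine h q hq ?_
    rw [mul_assoc] at h1
    exact right_ne_zero_of_mul h1

lemma rec_RR : Rec (rev (mkg A u c one)) (rhoA A u c one) (RR A u c) := by
  classical
  intro m y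
  have h1 : RR A u c m y = ∑ l ∈ lst m, Rw A u c y l := rfl
  rw [h1, sum_cons _ (by simp), ← Finset.Nat.sum_antidiagonal_swap,
    Finset.Nat.sum_antidiagonal_eq_sum_range_succ_mk]
  have h2 : ∀ k ∈ Finset.range m.succ, ∑ q ∈ pwp (m - k), ∑ l ∈ lst k, Rw A u c y (q :: l) =
      (if k = 0 then rhoA A u c one m y else 0) +
        ∑ x ∈ Finset.Icc (y - ((m : ℤ) - k)) (y + ((m : ℤ) - k)),
          RR A u c k x * rev (mkg A u c one) (m - k) x y := by
    intro k hk
    have hk' : k ≤ m := by rw [Finset.mem_range] at hk; omega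
    have h3 : ∀ q ∈ pwp (m - k), ∑ l ∈ lst k, Rw A u c y (q :: l) =
        (if k = 0 then rho1 A u c y q else 0) + one q * k1 A u c y q * RR A u c k (y + ht q) := by
      intro q _
      have h4 : ∀ l ∈ lst k, Rw A u c y (q :: l) = (if l = [] then rho1 A u c y q else 0) +
          k1 A u c y q * Rw A u c (y + ht q) l := fun l _ => Rw_cons _ _ _
      rw [Finset.sum_congr rfl h4, Finset.sum_add_distrib, Finset.sum_ite_eq', ← Finset.mul_sum,
        one, one_mul]
      congr 1
      by_cases hk0 : k = 0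
      · rw [if_pos (nil_mem_lst.2 hk0), if_pos hk0]
      · rw [if_neg (fun h => hk0 (nil_mem_lst.1 h)), if_neg hk0]
    rw [Finset.sum_congr rfl h3, Finset.sum_add_distrib]
    congr 1
    · by_cases hk0 : k = 0
      · subst hk0
        rw [if_pos rfl, rhoA_eq, one_mul_sum, Nat.sub_zero]
        exact Finset.sum_congr rfl fun q _ => if_pos rfl
      · rw [if_neg hk0]
        exact Finset.sum_eq_zero fun q _ => if_neg hk0
    · rw [sum_k1 one (m - k) y (Finset.Icc (y - ((m : ℤ) - k)) (y + ((m : ℤ) - k)))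
        (fun x => RR A u c k x)]
      · refine Finset.sum_congr rfl fun x _ => ?_
        rw [mul_comm]
        rfl
      · intro q hq _
        rw [mem_pwp] at hq
        have h6 := abs_le.1 (abs_ht_le q)
        rw [hq.1, Nat.cast_sub hk'] at h6
        rw [Finset.mem_Icc]
        omega
  have h8 : ∑ k ∈ Finset.range m.succ, ∑ q ∈ pwp ((k, m - k).swap).1, ∑ l ∈ lst ((k, m - k).swap).2,
      Rw A u c y (q :: l) = ∑ k ∈ Finset.range m.succ, ∑ q ∈ pwp (m - k), ∑ l ∈ lst k,
        Rw A u c y (q :: l) := rfl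
  rw [h8, Finset.sum_congr rfl h2, Finset.sum_add_distrib, Finset.sum_ite_eq', if_pos (by simp),
    Finset.sum_range_succ]
  have h7 : ∑ x ∈ Finset.Icc (y - ((m : ℤ) - (m : ℕ))) (y + ((m : ℤ) - (m : ℕ))),
      RR A u c m x * rev (mkg A u c one) (m - m) x y = 0 := by
    refine Finset.sum_eq_zero fun x _ => ?_
    rw [rev, Nat.sub_self, mkg_eq, pwp_zero, Finset.filter_empty, Finset.sum_empty, mul_zero]
  rw [h7, add_zero]

lemma LA_eq : LA A u c = LL A u c := Rec.unique (rec_occ _ _) rec_LL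
lemma RA_eq : RA A u c = RR A u c := Rec.unique (rec_occ _ _) rec_RR

/-! ### marked blocks -/

/-- marked first block -/
lemma sum_first (N : ℕ) : ∑ l ∈ lst N, Pw A u c l * ω (l.headD ([], [])) =
    ∑ i ∈ Finset.range (N + 1), ∑ x ∈ Finset.Icc 1 (i : ℤ),
      lamA A u c ω i x * RR A u c (N - i) x := by
  classical
  rw [sum_cons _ (by simp), Finset.Nat.sum_antidiagonal_eq_sum_range_succ_mk]
  refine Finset.sum_congr rfl fun i _ => ?_
  have h1 : ∀ q ∈ pwp i, ∑ l ∈ lst (N - i), Pw A u c (q :: l) * ω ((q :: l).headD ([], [])) =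
      ω q * lam1 A u c q * RR A u c (N - i) (ht q) := by
    intro q _
    unfold RR
    rw [Finset.mul_sum]
    refine Finset.sum_congr rfl fun l _ => ?_
    rw [Pw_cons, List.headD_cons]
    ring
  rw [Finset.sum_congr rfl h1, sum_fib (pwp i) ht (fun q => ω q * lam1 A u c q)
    (Finset.Icc 1 (i : ℤ)) (fun x => RR A u c (N - i) x)]
  · refine Finset.sum_congr rfl fun x _ => ?_
    rw [lamA_eq]
  · intro q hq h
    have h2 := lam1_ne (right_ne_zero_of_mul (left_ne_zero_of_mul h))
    have h3 := abs_le.1 (abs_ht_le q)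
    rw [mem_pwp] at hq
    rw [hq.1] at h3
    rw [Finset.mem_Icc]
    omega

/-- marked last block -/
lemma sum_last (N : ℕ) : ∑ l ∈ lst N, Pw A u c l * ω (l.getLastD ([], [])) =
    ∑ i ∈ Finset.range (N + 1), ∑ x ∈ Finset.Icc 1 (i : ℤ),
      rhoA A u c ω i x * LL A u c (N - i) x := by
  classical
  rw [sum_snoc _ (by simp), ← Finset.Nat.sum_antidiagonal_swap,
    Finset.Nat.sum_antidiagonal_eq_sum_range_succ_mk]
  refine Finset.sum_congr rfl fun i _ => ?_
  have h1 : ∀ l ∈ lst (N - i), ∑ q ∈ pwp i,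
      Pw A u c (l ++ [q]) * ω ((l ++ [q]).getLastD ([], [])) =
      Lw A u c l * rhoA A u c ω i (hts l) := by
    intro l _
    rw [rhoA_eq, Finset.mul_sum]
    refine Finset.sum_congr rfl fun q _ => ?_
    rw [Pw_snoc, List.getLastD_concat]
    ring
  have h8 : ∑ l ∈ lst ((i, N - i).swap).1, ∑ q ∈ pwp ((i, N - i).swap).2,
      Pw A u c (l ++ [q]) * ω ((l ++ [q]).getLastD ([], [])) = ∑ l ∈ lst (N - i), ∑ q ∈ pwp i,
      Pw A u c (l ++ [q]) * ω ((l ++ [q]).getLastD ([], [])) := rfl
  rw [h8, Finset.sum_congr rfl h1, sum_fib (lst (N - i)) hts (Lw A u c)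
    (Finset.Icc 1 (i : ℤ)) (fun x => rhoA A u c ω i x)]
  · refine Finset.sum_congr rfl fun x _ => ?_
    rw [mul_comm]
    rfl
  · intro l _ h
    have h2 := Lw_ne (left_ne_zero_of_mul h)
    have h3 := right_ne_zero_of_mul h
    rw [rhoA_eq] at h3
    obtain ⟨q, hq, h4⟩ := Finset.exists_ne_zero_of_sum_ne_zero h3
    have h5 := rho1_ne' (right_ne_zero_of_mul h4)
    have h6 := abs_le.1 (abs_ht_le q)
    rw [mem_pwp] at hq
    rw [hq.1] at h6
    rw [Finset.mem_Icc]
    omega

/-- summand of a cut list, the first block of the second part being marked -/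
noncomputable def Gx (A : Set Word) (u c : ℝ) (a : ℕ) (ω : PW → ℝ) (x : ℤ) (w : ℝ) :
    List PW → ℝ
  | [] => 0
  | q :: l => w * |(x : ℝ)| ^ a * (ω q * k1 A u c x q) * Rw A u c (x + ht q) l

@[simp] lemma Gx_nil (a : ℕ) (x : ℤ) (w : ℝ) : Gx A u c a ω x w [] = 0 := rfl
@[simp] lemma Gx_cons (a : ℕ) (x : ℤ) (w : ℝ) (q : PW) (l : List PW) :
    Gx A u c a ω x w (q :: l) =
      w * |(x : ℝ)| ^ a * (ω q * k1 A u c x q) * Rw A u c (x + ht q) l := rfl

lemma Gx_mul (a : ℕ) (x : ℤ) (v w : ℝ) (l : List PW) :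
    Gx A u c a ω x (v * w) l = v * Gx A u c a ω x w l := by
  rcases l with _ | ⟨q, l⟩
  · simp
  · simp only [Gx_cons]
    ring

lemma walk_cut (a : ℕ) (x : ℤ) (l : List PW) :
    Rw A u c x l * walkSum a ω x l.dropLast =
      ∑ k ∈ Finset.range (l.length + 1),
        Gx A u c a ω (x + hts (l.take k)) (cw A u c x (l.take k)) (l.drop k) := by
  induction l generalizing x with
  | nil => simp
  | cons q l ih =>
    rw [List.length_cons, Finset.sum_range_succ']
    have h1 : ∀ k ∈ Finset.range (l.length + 1),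
        Gx A u c a ω (x + hts ((q :: l).take (k + 1))) (cw A u c x ((q :: l).take (k + 1)))
          ((q :: l).drop (k + 1)) = k1 A u c x q *
        Gx A u c a ω (x + ht q + hts (l.take k)) (cw A u c (x + ht q) (l.take k))
          (l.drop k) := by
      intro k _
      rw [List.take_succ_cons, List.drop_succ_cons, hts_cons, cw_cons, ← add_assoc, Gx_mul]
    rw [Finset.sum_congr rfl h1, ← Finset.mul_sum, ← ih, List.take_zero, List.drop_zero, hts_nil,
      cw_nil, add_zero, Gx_cons]
    rcases eq_or_ne l [] with rfl | hl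
    · simp [walkSum]
    · rw [Rw_cons_ne _ _ hl, List.dropLast_cons_of_ne_nil hl, walkSum]
      ring

/-- weighted sum over the interior blocks of a list -/
noncomputable def inl (a : ℕ) (ω : PW → ℝ) : List PW → ℝ
  | [] => 0
  | q :: l => walkSum a ω (ht q) l.dropLast

lemma Pw_inl (a : ℕ) (l : List PW) : Pw A u c l * inl a ω l =
    ∑ k ∈ Finset.range (l.length + 1),
      Gx A u c a ω (hts (l.take k)) (Lw A u c (l.take k)) (l.drop k) := by
  rcases l with _ | ⟨q, l⟩
  · simp
  · rw [List.length_cons, Finset.sum_range_succ', List.take_zero, List.drop_zero, Lw_nil]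
    have h0 : Gx A u c a ω (hts []) 0 (q :: l) = 0 := by simp
    rw [h0, add_zero, Pw_cons, inl, mul_assoc, walk_cut, Finset.mul_sum]
    refine Finset.sum_congr rfl fun k _ => ?_
    rw [List.take_succ_cons, List.drop_succ_cons, hts_cons, Lw_cons, Gx_mul]

/-- marked interior block -/
lemma sum_mid (a : ℕ) (N : ℕ) : ∑ l ∈ lst N, Pw A u c l * inl a ω l =
    SS a (LL A u c) (mkg A u c ω) (RR A u c) N := by
  classical
  have h1 : ∑ l ∈ lst N, Pw A u c l * inl a ω l = ∑ ij ∈ Finset.HasAntidiagonal.antidiagonal N,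
      ∑ l ∈ lst ij.1, ∑ m ∈ lst ij.2, Gx A u c a ω (hts l) (Lw A u c l) m := by
    rw [← sum_cut (fun l m => Gx A u c a ω (hts l) (Lw A u c l) m)]
    exact Finset.sum_congr rfl fun l _ => Pw_inl ω a l
  rw [h1, Finset.Nat.sum_antidiagonal_eq_sum_range_succ_mk]
  unfold SS
  refine Finset.sum_congr rfl fun i hi => ?_
  have hi' : i ≤ N := by rw [Finset.mem_range] at hi; omega
  have h2 : ∀ l ∈ lst i, ∑ m ∈ lst (N - i), Gx A u c a ω (hts l) (Lw A u c l) m =
      Lw A u c l * (|((hts l : ℤ) : ℝ)| ^ a * ∑ j ∈ Finset.range (N + 1 - i),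
        ∑ y ∈ Finset.Icc 1 ((N - i - j : ℕ) : ℤ),
          mkg A u c ω j (hts l) y * RR A u c (N - i - j) y) := by
    intro l _
    rw [sum_cons _ (by simp), Finset.Nat.sum_antidiagonal_eq_sum_range_succ_mk, Finset.mul_sum,
      Finset.mul_sum, Nat.succ_eq_add_one, show N - i + 1 = N + 1 - i by omega]
    refine Finset.sum_congr rfl fun j _ => ?_
    have h3 : ∀ q ∈ pwp j, ∑ m ∈ lst (N - i - j), Gx A u c a ω (hts l) (Lw A u c l) (q :: m) =
        Lw A u c l * |((hts l : ℤ) : ℝ)| ^ a *
          (ω q * k1 A u c (hts l) q * RR A u c (N - i - j) (hts l + ht q)) := by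
      intro q _
      unfold RR
      rw [Finset.mul_sum, Finset.mul_sum]
      refine Finset.sum_congr rfl fun m _ => ?_
      rw [Gx_cons]
      ring
    rw [Finset.sum_congr rfl h3, ← Finset.mul_sum, sum_k1 ω j (hts l)
      (Finset.Icc 1 ((N - i - j : ℕ) : ℤ)) (fun y => RR A u c (N - i - j) y), mul_assoc]
    intro q _ h
    exact RR_supp (right_ne_zero_of_mul h)
  rw [Finset.sum_congr rfl h2, sum_fib (lst i) hts (Lw A u c) (Finset.Icc 1 (i : ℤ))
    (fun x => |(x : ℝ)| ^ a * ∑ j ∈ Finset.range (N + 1 - i),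
        ∑ y ∈ Finset.Icc 1 ((N - i - j : ℕ) : ℤ),
          mkg A u c ω j x y * RR A u c (N - i - j) y)]
  · rw [Finset.sum_comm]
    refine Finset.sum_congr rfl fun x hx => ?_
    have hx' : 0 ≤ (x : ℝ) := by
      rw [Finset.mem_Icc] at hx
      exact_mod_cast (by omega : 0 ≤ x)
    rw [abs_of_nonneg hx', Finset.mul_sum, Finset.mul_sum]
    refine Finset.sum_congr rfl fun j _ => ?_
    rw [Finset.mul_sum, Finset.mul_sum]
    refine Finset.sum_congr rfl fun y _ => ?_
    change LL A u c i x * ((x : ℝ) ^ a * (mkg A u c ω j x y * RR A u c (N - i - j) y)) = _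
    ring
  · intro l hl h
    have h4 := Lw_ne (left_ne_zero_of_mul h)
    have h5 := abs_le.1 (abs_hts_le l)
    rw [mem_lst] at hl
    rw [hl.2] at h5
    rw [Finset.mem_Icc]
    omega

end weights

/-! ### geometry of the caps -/

lemma ne_nil_of_X {w : Word} (h : 0 < X w) : w ≠ [] := by
  rintro rfl
  simp at h

lemma X_pos_of_ne {w : Word} (h : IsBr w) (hne : w ≠ []) : 0 < X w :=
  h.pos (List.prefix_refl w) hne

/-- a right cap splits off its first block -/
lemma capR_append {x : ℤ} {q r : PW} (hq : IsPB q) (hr : IsPB r) (hr0 : 0 < X r.1) :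
    CapR x (q.1 ++ r.1, q.2 ++ r.2) ↔ Disj x q ∧ CapR (x + ht q) r := by
  have hr2 : 0 < X r.2 := by rw [← hr.span]; exact hr0
  have hn1 : r.1 ≠ [] := ne_nil_of_X hr0
  have hn2 : r.2 ≠ [] := ne_nil_of_X hr2
  have hs := hq.span
  have hs' := hr.span
  constructor
  · intro h
    refine ⟨?_, ?_, ?_, ?_, ?_⟩
    · intro t s ht hs ht0 hs0 hX hY
      have h1 := (h.disj t s (ht.trans (List.prefix_append _ _))
        (hs.trans (List.prefix_append _ _)) ht0 hs0 hX hY).1
      have h2 := ht.length_le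
      rw [h1] at h2
      simp only [List.length_append] at h2
      exact hn1 (List.length_eq_zero_iff.1 (by omega))
    · intro t s ht hs ht0 hs0 hX hY
      have h1 := h.disj (q.1 ++ t) (q.2 ++ s) ((List.prefix_append_right_inj q.1).2 ht)
        ((List.prefix_append_right_inj q.2).2 hs) (by simp [ht0]) (by simp [hs0])
        (by rw [X_append, X_append]; omega)
        (by rw [Y_append, Y_append]; unfold Pool.Agent.SAPX.ht at hY; omega)
      exact ⟨List.append_cancel_left h1.1, List.append_cancel_left h1.2⟩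
    · have h1 := h.meet
      simp only [Y_append] at h1
      unfold Pool.Agent.SAPX.ht
      omega
    · intro t ht hX
      have h1 := h.low1 (q.1 ++ t) ((List.prefix_append_right_inj q.1).2 ht)
        (by simp only [X_append]; omega)
      simp only [Y_append] at h1
      omega
    · intro t ht hX
      have h1 := h.low2 (q.2 ++ t) ((List.prefix_append_right_inj q.2).2 ht)
        (by simp only [X_append]; omega)
      simp only [Y_append] at h1
      omega
  · rintro ⟨hD, hC⟩
    refine ⟨?_, ?_, ?_, ?_⟩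
    · intro t s ht hs ht0 hs0 hX hY
      rcases prefix_append_cases ht with h1 | ⟨b, hb, hb0, rfl⟩
      · rcases prefix_append_cases hs with h2 | ⟨b', hb', hb0', rfl⟩
        · exact absurd hY (hD t s h1 h2 ht0 hs0 hX)
        · have h3 := hq.br1.le h1
          have h4 := hr.br2.pos hb' hb0'
          rw [X_append] at hX
          omega
      · rcases prefix_append_cases hs with h2 | ⟨b', hb', hb0', rfl⟩
        · have h3 := hq.br2.le h2
          have h4 := hr.br1.pos hb hb0
          rw [X_append] at hX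
          omega
        · rw [X_append, X_append] at hX
          rw [Y_append, Y_append] at hY
          have h3 := hC.disj b b' hb hb' hb0 hb0' (by omega) (by unfold Pool.Agent.SAPX.ht; omega)
          rw [h3.1, h3.2]
          exact ⟨rfl, rfl⟩
    · have h1 := hC.meet
      simp only [Y_append]
      unfold Pool.Agent.SAPX.ht at h1
      omega
    · intro t ht hX
      simp only [X_append] at hX
      rcases prefix_append_cases ht with h1 | ⟨b, hb, hb0, rfl⟩
      · have h3 := hq.br1.le h1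
        omega
      · rw [X_append] at hX
        have h3 := hC.low1 b hb (by omega)
        simp only [Y_append]
        omega
    · intro t ht hX
      simp only [X_append] at hX
      rcases prefix_append_cases ht with h1 | ⟨b, hb, hb0, rfl⟩
      · have h3 := hq.br2.le h1
        omega
      · rw [X_append] at hX
        have h3 := hC.low2 b hb (by omega)
        simp only [Y_append]
        omega

/-- a canonical pair splits off its first block -/
lemma isCan_append {q r : PW} (hq : IsPB q) (hr : IsPB r) (hq0 : 0 < X q.1) (hr0 : 0 < X r.1) :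
    IsCan (q.1 ++ r.1, q.2 ++ r.2) ↔ CapL q ∧ CapR (ht q) r := by
  have hr2 : 0 < X r.2 := by rw [← hr.span]; exact hr0
  have hq2 : 0 < X q.2 := by rw [← hq.span]; exact hq0
  have hn1 : r.1 ≠ [] := ne_nil_of_X hr0
  have hn2 : r.2 ≠ [] := ne_nil_of_X hr2
  have hm1 : q.1 ≠ [] := ne_nil_of_X hq0
  have hm2 : q.2 ≠ [] := ne_nil_of_X hq2
  have hs := hq.span
  have hs' := hr.span
  constructor
  · intro h
    refine ⟨⟨?_, ?_, ?_⟩, ?_, ?_, ?_, ?_⟩
    · intro t s ht hs ht0 hs0 hX hY
      rcases h.disj t s (ht.trans (List.prefix_append _ _))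
        (hs.trans (List.prefix_append _ _)) ht0 hs0 hX hY with h1 | h1
      · exact h1
      · exfalso
        have h2 := ht.length_le
        rw [h1.1] at h2
        simp only [List.length_append] at h2
        exact hn1 (List.length_eq_zero_iff.1 (by omega))
    · exact fun t ht hX => h.lowL1 t (ht.trans (List.prefix_append _ _)) hX
    · exact fun t ht hX => h.lowL2 t (ht.trans (List.prefix_append _ _)) hX
    · intro t s ht hs ht0 hs0 hX hY
      rcases h.disj (q.1 ++ t) (q.2 ++ s) ((List.prefix_append_right_inj q.1).2 ht)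
        ((List.prefix_append_right_inj q.2).2 hs) (by simp [ht0]) (by simp [hs0])
        (by rw [X_append, X_append]; omega)
        (by rw [Y_append, Y_append]; unfold Pool.Agent.SAPX.ht at hY; omega) with h1 | h1
      · exfalso
        have h2 := congrArg List.length h1.1
        rw [List.length_append, List.length_singleton] at h2
        have h3 := List.length_pos_iff.2 hm1
        have h4 := List.length_pos_iff.2 ht0
        omega
      · exact ⟨List.append_cancel_left h1.1, List.append_cancel_left h1.2⟩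
    · have h1 := h.yy
      simp only [Y_append] at h1
      unfold Pool.Agent.SAPX.ht
      omega
    · intro t ht hX
      have h1 := h.lowR1 (q.1 ++ t) ((List.prefix_append_right_inj q.1).2 ht)
        (by simp only [X_append]; omega)
      simp only [Y_append] at h1
      omega
    · intro t ht hX
      have h1 := h.lowR2 (q.2 ++ t) ((List.prefix_append_right_inj q.2).2 ht)
        (by simp only [X_append]; omega)
      simp only [Y_append] at h1
      omega
  · rintro ⟨hL, hC⟩
    refine ⟨hq.append hr, by simp [hm1], ?_, ?_, ?_, ?_, ?_, ?_⟩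
    · have h1 := hC.meet
      simp only [Y_append]
      unfold Pool.Agent.SAPX.ht at h1
      omega
    · intro t s ht hs ht0 hs0 hX hY
      rcases prefix_append_cases ht with h1 | ⟨b, hb, hb0, rfl⟩
      · rcases prefix_append_cases hs with h2 | ⟨b', hb', hb0', rfl⟩
        · exact Or.inl (hL.disj t s h1 h2 ht0 hs0 hX hY)
        · have h3 := hq.br1.le h1
          have h4 := hr.br2.pos hb' hb0'
          rw [X_append] at hX
          omega
      · rcases prefix_append_cases hs with h2 | ⟨b', hb', hb0', rfl⟩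
        · have h3 := hq.br2.le h2
          have h4 := hr.br1.pos hb hb0
          rw [X_append] at hX
          omega
        · rw [X_append, X_append] at hX
          rw [Y_append, Y_append] at hY
          have h3 := hC.disj b b' hb hb' hb0 hb0' (by omega) (by unfold Pool.Agent.SAPX.ht; omega)
          rw [h3.1, h3.2]
          exact Or.inr ⟨rfl, rfl⟩
    · intro t ht hX
      rcases prefix_append_cases ht with h1 | ⟨b, hb, hb0, rfl⟩
      · exact hL.low1 t h1 hX
      · have h4 := hr.br1.pos hb hb0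
        rw [X_append] at hX
        omega
    · intro t ht hX
      rcases prefix_append_cases ht with h1 | ⟨b, hb, hb0, rfl⟩
      · exact hL.low2 t h1 hX
      · have h4 := hr.br2.pos hb hb0
        rw [X_append] at hX
        omega
    · intro t ht hX
      simp only [X_append] at hX
      rcases prefix_append_cases ht with h1 | ⟨b, hb, hb0, rfl⟩
      · have h3 := hq.br1.le h1
        omega
      · rw [X_append] at hX
        have h3 := hC.low1 b hb (by omega)
        simp only [Y_append]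
        omega
    · intro t ht hX
      simp only [X_append] at hX
      rcases prefix_append_cases ht with h1 | ⟨b, hb, hb0, rfl⟩
      · have h3 := hq.br2.le h1
        omega
      · rw [X_append] at hX
        have h3 := hC.low2 b hb (by omega)
        simp only [Y_append]
        omega

lemma head_E {w : Word} (h : IsBr w) (hne : w ≠ []) : ∃ v, w = Dir.E :: v := by
  rcases w with _ | ⟨d, v⟩
  · exact absurd rfl hne
  · have h1 := h.pos (u := [d]) (by simp) (by simp)
    cases d
    · exact ⟨v, rfl⟩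
    · simp [Dir.dx] at h1
    · simp [Dir.dx] at h1
    · simp [Dir.dx] at h1

/-- no gap zero after the first block, except for the unit square -/
lemma ht_ne {q r : PW} (hq : IsPB q) (hr : IsPB r) (hq0 : 0 < X q.1) (hr0 : 0 < X r.1)
    (h : IsCan (q.1 ++ r.1, q.2 ++ r.2)) (h5 : 5 ≤ ln (q.1 ++ r.1, q.2 ++ r.2)) : ht q ≠ 0 := by
  intro h0
  have hr2 : 0 < X r.2 := by rw [← hr.span]; exact hr0
  have hq2 : 0 < X q.2 := by rw [← hq.span]; exact hq0
  have hn1 : r.1 ≠ [] := ne_nil_of_X hr0
  have hn2 : r.2 ≠ [] := ne_nil_of_X hr2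
  have hm1 : q.1 ≠ [] := ne_nil_of_X hq0
  have hm2 : q.2 ≠ [] := ne_nil_of_X hq2
  unfold Pool.Agent.SAPX.ht at h0
  have h1 : q.1 = [Dir.E] ∧ q.2 = [Dir.E] := by
    rcases h.disj q.1 q.2 (List.prefix_append _ _) (List.prefix_append _ _) hm1 hm2 hq.span
      (by omega) with h1 | h1
    · exact h1
    · exfalso
      have h2 := congrArg List.length h1.1
      simp only [List.length_append] at h2
      exact hn1 (List.length_eq_zero_iff.1 (by omega))
  obtain ⟨v1, hv1⟩ := head_E hr.br1 hn1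
  obtain ⟨v2, hv2⟩ := head_E hr.br2 hn2
  have h3 := h.disj (q.1 ++ [Dir.E]) (q.2 ++ [Dir.E])
    ((List.prefix_append_right_inj q.1).2 ⟨v1, by rw [hv1]; rfl⟩)
    ((List.prefix_append_right_inj q.2).2 ⟨v2, by rw [hv2]; rfl⟩) (by simp) (by simp)
    (by rw [X_append, X_append, hq.span]) (by rw [Y_append, Y_append]; omega)
  rcases h3 with h3 | h3
  · have h4 := congrArg List.length h3.1
    rw [List.length_append, h1.1] at h4
    simp at h4
  · have h4 := congrArg List.length h3.1
    have h6 := congrArg List.length h3.2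
    simp only [List.length_append, h1.1, h1.2, List.length_singleton] at h4 h6
    unfold ln at h5
    simp only [List.length_append, h1.1, h1.2, List.length_singleton] at h5
    omega

lemma X_pfl_pos {l : List PW} (hl : ∀ q ∈ l, IsPIrr q) (h : l ≠ []) : 0 < X (pfl l).1 := by
  rcases l with _ | ⟨q, l⟩
  · exact absurd rfl h
  · rw [pfl_cons]
    have h1 := (hl q (by simp)).pos
    have h2 := (isPB_pfl (l := l) fun r hr => hl r (by simp [hr])).br1.X_nonneg
    simp only [X_append]
    omega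

lemma pfl_single (q : PW) : pfl [q] = q := by
  rw [pfl_cons, pfl_nil]
  simp

/-! ### exchange of the two components -/

/-- exchange of the components -/
def sw (q : PW) : PW := (q.2, q.1)

@[simp] lemma sw_sw (q : PW) : sw (sw q) = q := rfl
@[simp] lemma ln_sw (q : PW) : ln (sw q) = ln q := by unfold ln sw; exact Nat.add_comm _ _
@[simp] lemma ht_sw (q : PW) : ht (sw q) = -ht q := by unfold ht sw; ring

lemma wt_sw (u c : ℝ) (q : PW) : wt u c (sw q) = wt u c q := by
  unfold wt
  rw [ln_sw]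
  congr 2
  unfold sw
  ring

lemma IsPB.sw {p : PW} (h : IsPB p) : IsPB (sw p) := ⟨h.br2, h.br1, h.span.symm⟩

lemma IsPIrr.sw {p : PW} (h : IsPIrr p) : IsPIrr (sw p) := by
  refine ⟨IsPB.sw h.pb, ?_, ?_⟩
  · change 0 < X p.2
    rw [← h.pb.span]
    exact h.pos
  · intro q r hq hr h1 h2
    rcases h.irr (IsPB.sw hq) (IsPB.sw hr) h2 h1 with h3 | h3
    · left
      have := congrArg Cfg.sw h3
      exact this
    · right
      have := congrArg Cfg.sw h3
      exact this

lemma okb.sw {A : Set Word} {q : PW} (h : okb A q) : okb A (sw q) := ⟨IsPIrr.sw h.1, h.2.2, h.2.1⟩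

lemma IsCan.sw {p : PW} (h : IsCan p) : IsCan (sw p) := by
  refine ⟨IsPB.sw h.pb, ?_, h.yy.symm, ?_, h.lowL2, h.lowL1, h.lowR2, h.lowR1⟩
  · intro h1
    have h1' : p.2 = [] := h1
    have h2 := h.pb.span
    rw [h1', X_nil] at h2
    exact h.ne (IsBr.eq_nil_of_X h.pb.br1 h2)
  · intro t s ht hs ht0 hs0 hX hY
    rcases h.disj s t hs ht hs0 ht0 hX.symm hY.symm with h1 | h1
    · exact Or.inl ⟨h1.2, h1.1⟩
    · exact Or.inr ⟨h1.2, h1.1⟩

lemma pfl_sw (l : List PW) : pfl (l.map sw) = sw (pfl l) := by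
  induction l with
  | nil => rfl
  | cons q l ih =>
    rw [List.map_cons, pfl_cons, ih, pfl_cons]
    rfl

lemma map_sw_sw (l : List PW) : (l.map sw).map sw = l := by
  rw [List.map_map]
  exact List.map_id l

lemma tl_sw (l : List PW) : tl (l.map sw) = tl l := by
  induction l with
  | nil => rfl
  | cons q l ih => rw [List.map_cons, tl_cons, tl_cons, ln_sw, ih]

lemma sum_sw (F : List PW → ℝ) (N : ℕ) : ∑ l ∈ lst N, F (l.map sw) = ∑ l ∈ lst N, F l := by
  have h1 : ∀ l ∈ lst N, l.map sw ∈ lst N := by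
    intro l hl
    rw [mem_lst] at hl ⊢
    refine ⟨fun q hq => ?_, by rw [tl_sw]; exact hl.2⟩
    obtain ⟨r, hr, rfl⟩ := List.mem_map.1 hq
    rw [ln_sw]
    exact hl.1 r hr
  exact Finset.sum_bij' (i := fun l _ => l.map sw) (j := fun l _ => l.map sw) h1 h1
    (fun l _ => map_sw_sw l) (fun l _ => map_sw_sw l) (fun l _ => rfl)

/-! ### weights of complete lists -/

section complete
variable {A : Set Word} {u c : ℝ}

open Classical in
/-- weight of the list of the blocks of a canonical pair -/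
noncomputable def Cw (A : Set Word) (u c : ℝ) (l : List PW) : ℝ :=
  if (∀ q ∈ l, okb A q) ∧ IsCan (pfl l) then wt u c (pfl l) else 0

lemma Cw_ne {l : List PW} (h : Cw A u c l ≠ 0) : (∀ q ∈ l, okb A q) ∧ IsCan (pfl l) := by
  unfold Cw at h
  by_contra h1
  exact h (if_neg h1)

lemma Cw_nonneg (l : List PW) : 0 ≤ Cw A u c l := by
  unfold Cw
  split_ifs
  · exact (wt_pos u c _).le
  · exact le_rfl

lemma Cw_sw (l : List PW) : Cw A u c (l.map sw) = Cw A u c l := by
  have key : ∀ l : List PW, ((∀ q ∈ l, okb A q) ∧ IsCan (pfl l)) →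
      ((∀ q ∈ l.map sw, okb A q) ∧ IsCan (pfl (l.map sw))) := by
    rintro l ⟨h1, h2⟩
    refine ⟨fun q hq => ?_, by rw [pfl_sw]; exact IsCan.sw h2⟩
    obtain ⟨r, hr, rfl⟩ := List.mem_map.1 hq
    exact (h1 r hr).sw
  unfold Cw
  by_cases h : (∀ q ∈ l, okb A q) ∧ IsCan (pfl l)
  · rw [if_pos h, if_pos (key l h), pfl_sw, wt_sw]
  · rw [if_neg h, if_neg]
    intro h'
    have := key _ h'
    rw [map_sw_sw] at this
    exact h this

open Classical in
lemma Rw_eq (x : ℤ) {l : List PW} (hl : l ≠ []) : Rw A u c x l =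
    if (∀ q ∈ l, okb A q) ∧ 0 < x ∧ CapR x (pfl l) then wt u c (pfl l) else 0 := by
  induction l generalizing x with
  | nil => exact absurd rfl hl
  | cons q l ih =>
    rcases eq_or_ne l [] with rfl | hl'
    · rw [Rw_single, pfl_single]
      unfold rho1
      by_cases h : okb A q ∧ 0 < x ∧ CapR x q
      · rw [if_pos h, if_pos ⟨by simpa using h.1, h.2⟩]
      · rw [if_neg h, if_neg fun h' => h ⟨h'.1 q (by simp), h'.2⟩]
    · rw [Rw_cons_ne _ _ hl', ih (x + ht q) hl']
      by_cases h : (∀ r ∈ q :: l, okb A r) ∧ 0 < x ∧ CapR x (pfl (q :: l))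
      · have hq : okb A q := h.1 q (by simp)
        have hl2 : ∀ r ∈ l, okb A r := fun r hr => h.1 r (by simp [hr])
        have h1 := (capR_append hq.1.pb (isPB_pfl fun r hr => (hl2 r hr).1)
          (X_pfl_pos (fun r hr => (hl2 r hr).1) hl')).1 (by simpa using h.2.2)
        have h2 : 0 < x + ht q := no_cross hq.1.pb h.2.1 h1.1
        rw [if_pos h, if_pos ⟨hl2, h2, h1.2⟩, pfl_cons, wt_append]
        unfold k1
        rw [if_pos ⟨hq, h.2.1, h2, h1.1⟩]
      · rw [if_neg h]
        by_contra h3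
        have h4 := k1_ne (left_ne_zero_of_mul h3)
        have h5 := right_ne_zero_of_mul h3
        have h6 : (∀ r ∈ l, okb A r) ∧ 0 < x + ht q ∧ CapR (x + ht q) (pfl l) := by
          by_contra h7
          exact h5 (if_neg h7)
        refine h ⟨?_, h4.2.1, ?_⟩
        · intro r hr
          rcases List.mem_cons.1 hr with rfl | hr
          · exact h4.1
          · exact h6.1 r hr
        · have h7 := (capR_append (x := x) h4.1.1.pb (isPB_pfl fun r hr => (h6.1 r hr).1)
            (X_pfl_pos (fun r hr => (h6.1 r hr).1) hl')).2 ⟨h4.2.2.2, h6.2.2⟩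
          rw [pfl_cons]
          exact h7

open Classical in
lemma Pw_eq (q : PW) {l : List PW} (hl : l ≠ []) : Pw A u c (q :: l) =
    if 0 < ht q then Cw A u c (q :: l) else 0 := by
  rw [Pw_cons, Rw_eq _ hl]
  unfold Cw
  by_cases h0 : 0 < ht q
  · rw [if_pos h0]
    by_cases h : (∀ r ∈ q :: l, okb A r) ∧ IsCan (pfl (q :: l))
    · have hq : okb A q := h.1 q (by simp)
      have hl2 : ∀ r ∈ l, okb A r := fun r hr => h.1 r (by simp [hr])
      have h1 := (isCan_append hq.1.pb (isPB_pfl fun r hr => (hl2 r hr).1) hq.1.pos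
        (X_pfl_pos (fun r hr => (hl2 r hr).1) hl)).1 (by simpa using h.2)
      rw [if_pos h, if_pos ⟨hl2, h0, h1.2⟩, pfl_cons, wt_append]
      unfold lam1
      rw [if_pos ⟨hq, h0, h1.1⟩]
    · rw [if_neg h]
      by_contra h3
      have h4 := lam1_ne (left_ne_zero_of_mul h3)
      have h5 := right_ne_zero_of_mul h3
      have h6 : (∀ r ∈ l, okb A r) ∧ 0 < ht q ∧ CapR (ht q) (pfl l) := by
        by_contra h7
        exact h5 (if_neg h7)
      refine h ⟨?_, ?_⟩
      · intro r hr
        rcases List.mem_cons.1 hr with rfl | hr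
        · exact h4.1
        · exact h6.1 r hr
      · have h7 := (isCan_append h4.1.1.pb (isPB_pfl fun r hr => (h6.1 r hr).1) h4.1.1.pos
          (X_pfl_pos (fun r hr => (h6.1 r hr).1) hl)).2 ⟨h4.2.2, h6.2.2⟩
        rw [pfl_cons]
        exact h7
  · rw [if_neg h0]
    by_contra h3
    exact h0 (lam1_ne (left_ne_zero_of_mul h3)).2.1

open Classical in
/-- the three kinds of lists: positive, negative, one block -/
lemma Cw_split {l : List PW} (hl : 5 ≤ tl l) : Cw A u c l =
    Pw A u c l + Pw A u c (l.map sw) + (if l.length = 1 then Cw A u c l else 0) := by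
  rcases l with _ | ⟨q, l⟩
  · simp at hl
  rcases eq_or_ne l [] with rfl | hl'
  · simp
  · have h1 : (q :: l).length ≠ 1 := by
      have := List.length_pos_iff.2 hl'
      simp only [List.length_cons]
      omega
    have hl2 : l.map sw ≠ [] := by simpa using hl'
    rw [if_neg h1, add_zero, Pw_eq q hl', List.map_cons, Pw_eq (sw q) hl2, ← List.map_cons,
      Cw_sw, ht_sw]
    rcases lt_trichotomy (ht q) 0 with h0 | h0 | h0
    · rw [if_neg (by omega), if_pos (by omega), zero_add]
    · rw [if_neg (by omega), if_neg (by omega), add_zero]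
      by_contra h2
      obtain ⟨h3, h4⟩ := Cw_ne h2
      have hq : okb A q := h3 q (by simp)
      have hl3 : ∀ r ∈ l, okb A r := fun r hr => h3 r (by simp [hr])
      refine ht_ne hq.1.pb (isPB_pfl fun r hr => (hl3 r hr).1) hq.1.pos
        (X_pfl_pos (fun r hr => (hl3 r hr).1) hl') (by simpa using h4) ?_ h0
      rw [← pfl_cons, ln_pfl]
      exact hl
    · rw [if_pos (by omega), if_neg (by omega), add_zero]

/-- sums over canonical pairs as sums over lists of blocks -/
lemma sum_can (hA : IsClass A) (n : ℕ) (F : PW → ℝ) : ∑ p ∈ can A n, wt u c p * F p =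
    ∑ l ∈ lst (2 * n + 2), Cw A u c l * F (pfl l) := by
  classical
  have h1 : ∑ l ∈ lst (2 * n + 2), Cw A u c l * F (pfl l) =
      ∑ l ∈ (lst (2 * n + 2)).filter (fun l => (∀ q ∈ l, okb A q) ∧ IsCan (pfl l)),
        wt u c (pfl l) * F (pfl l) := by
    rw [Finset.sum_filter]
    refine Finset.sum_congr rfl fun l _ => ?_
    unfold Cw
    split_ifs
    · rfl
    · rw [zero_mul]
  rw [h1]
  refine Finset.sum_bij' (i := fun p _ => blocks p) (j := fun l _ => pfl l) ?_ ?_ ?_ ?_ ?_
  · intro p hp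
    rw [mem_can] at hp
    obtain ⟨h2, h3⟩ := blocks_spec hp.2.1.pb
    have h4 : ∀ q ∈ blocks p, q.1 ∈ A ∧ q.2 ∈ A := by
      rw [← mem_class_pfl hA h2, h3]
      exact hp.2.2
    rw [Finset.mem_filter, mem_lst]
    refine ⟨⟨fun q hq => ln_pos (h2 q hq), ?_⟩, fun q hq => ⟨h2 q hq, h4 q hq⟩, ?_⟩
    · have h5 := ln_pfl (blocks p)
      rw [h3, hp.1] at h5
      exact h5.symm
    · rw [h3]; exact hp.2.1
  · intro l hl
    rw [Finset.mem_filter, mem_lst] at hl
    obtain ⟨⟨h2, h3⟩, h4, h5⟩ := hl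
    rw [mem_can]
    refine ⟨?_, h5, ?_⟩
    · rw [ln_pfl]; exact h3
    · exact (mem_class_pfl hA fun q hq => (h4 q hq).1).2 fun q hq => (h4 q hq).2
  · intro p hp
    rw [mem_can] at hp
    exact (blocks_spec hp.2.1.pb).2
  · intro l hl
    rw [Finset.mem_filter] at hl
    exact blocks_pfl fun q hq => (hl.2.1 q hq).1
  · intro p hp
    rw [mem_can] at hp
    rw [(blocks_spec hp.2.1.pb).2]

/-- reduction to positive lists -/
lemma sum_can' (hA : IsClass A) {n : ℕ} (hn : 2 ≤ n) (F : PW → ℝ) (F' : List PW → ℝ)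
    (hF : ∀ l : List PW, (∀ q ∈ l, IsPIrr q) → F (pfl l) = F' l)
    (hF' : ∀ l : List PW, (∀ q ∈ l, IsPIrr q) → F' (l.map sw) = F' l) :
    ∑ p ∈ can A n, wt u c p * F p = 2 * ∑ l ∈ lst (2 * n + 2), Pw A u c l * F' l +
      ∑ l ∈ (lst (2 * n + 2)).filter (fun l => l.length = 1), Cw A u c l * F' l := by
  classical
  rw [sum_can hA, Finset.sum_filter]
  have h1 : ∀ l ∈ lst (2 * n + 2), Cw A u c l * F (pfl l) =
      Pw A u c l * F' l + Pw A u c (l.map sw) * F' (l.map sw) +
        (if l.length = 1 then Cw A u c l * F' l else 0) := by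
    intro l hl
    rw [mem_lst] at hl
    by_cases h2 : ∀ q ∈ l, okb A q
    · have h3 : ∀ q ∈ l, IsPIrr q := fun q hq => (h2 q hq).1
      have h5 := Cw_split (A := A) (u := u) (c := c) (l := l) (by omega)
      rw [hF l h3, hF' l h3]
      by_cases h4 : l.length = 1
      · rw [if_pos h4] at h5 ⊢
        have h6 : (Pw A u c l + Pw A u c (l.map sw)) * F' l = 0 := by
          rw [show Pw A u c l + Pw A u c (l.map sw) = 0 by linarith, zero_mul]
        rw [add_mul] at h6
        linarith
      · rw [if_neg h4] at h5 ⊢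
        rw [h5]
        ring
    · have h3 : Cw A u c l = 0 := by
        by_contra h4
        exact h2 (Cw_ne h4).1
      have h5 := Cw_split (A := A) (u := u) (c := c) (l := l) (by omega)
      rcases l with _ | ⟨q, l⟩
      · simp at hl
      · rcases eq_or_ne l [] with rfl | hl'
        · simp [h3]
        · have h6 : (q :: l).length ≠ 1 := by
            have := List.length_pos_iff.2 hl'
            simp only [List.length_cons]
            omega
          have hl2 : l.map sw ≠ [] := by simpa using hl'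
          rw [if_neg h6, h3, Pw_eq q hl', h3, List.map_cons, Pw_eq (sw q) hl2, ← List.map_cons,
            Cw_sw, h3]
          simp
  rw [Finset.sum_congr rfl h1, Finset.sum_add_distrib, Finset.sum_add_distrib,
    sum_sw (fun l => Pw A u c l * F' l)]
  ring

lemma walkSum_sw (a : ℕ) {ω : PW → ℝ} (hω : ∀ q, IsPIrr q → ω (q.2, q.1) = ω q) (x : ℤ)
    {l : List PW} (hl : ∀ q ∈ l, IsPIrr q) :
    walkSum a ω (-x) (l.map sw) = walkSum a ω x l := by
  induction l generalizing x with
  | nil => rfl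
  | cons q l ih =>
    have h1 : ω (sw q) = ω q := hω q (hl q (by simp))
    have h2 : -x + ht (sw q) = -(x + ht q) := by rw [ht_sw]; ring
    rw [List.map_cons, walkSum, walkSum, h1, h2, ih (x + ht q) fun r hr => hl r (by simp [hr])]
    push_cast
    rw [abs_neg]

lemma inl_sw (a : ℕ) {ω : PW → ℝ} (hω : ∀ q, IsPIrr q → ω (q.2, q.1) = ω q)
    {l : List PW} (hl : ∀ q ∈ l, IsPIrr q) : inl a ω (l.map sw) = inl a ω l := by
  rcases l with _ | ⟨q, l⟩
  · rfl
  · rw [List.map_cons, inl, inl, ht_sw, ← List.map_dropLast, walkSum_sw a hω]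
    exact fun r hr => hl r (by simp [List.mem_of_mem_dropLast hr])

lemma sum_map_sw {ω : PW → ℝ} (hω : ∀ q, IsPIrr q → ω (q.2, q.1) = ω q)
    {l : List PW} (hl : ∀ q ∈ l, IsPIrr q) : ((l.map sw).map ω).sum = (l.map ω).sum := by
  rw [List.map_map]
  refine congrArg List.sum (List.map_congr_left fun q hq => ?_)
  exact hω q (hl q hq)

lemma inr_pfl (a : ℕ) (ω : PW → ℝ) {l : List PW} (hl : ∀ q ∈ l, IsPIrr q) :
    inr a ω (pfl l) = inl a ω l := by
  unfold inr
  rw [blocks_pfl hl]
  cases l <;> rfl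

lemma tot_pfl (ω : PW → ℝ) {l : List PW} (hl : ∀ q ∈ l, IsPIrr q) :
    tot ω (pfl l) = (l.map ω).sum := by
  unfold tot
  rw [blocks_pfl hl]

lemma walkSum_zero (ω : PW → ℝ) (x : ℤ) (l : List PW) : walkSum 0 ω x l = (l.map ω).sum := by
  induction l generalizing x with
  | nil => rfl
  | cons q l ih => rw [walkSum, ih, pow_zero, one_mul, List.map_cons, List.sum_cons]

lemma inl_zero (ω : PW → ℝ) (q : PW) (l : List PW) :
    inl 0 ω (q :: l) = (l.dropLast.map ω).sum := walkSum_zero ω _ _

lemma sum_dropLast (ω : PW → ℝ) {l : List PW} (hl : l ≠ []) :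
    (l.map ω).sum = (l.dropLast.map ω).sum + ω (l.getLastD ([], [])) := by
  rcases List.eq_nil_or_concat l with rfl | ⟨m, q, hm⟩
  · exact absurd rfl hl
  · rw [List.concat_eq_append] at hm
    subst hm
    simp

end complete

end Pool.Agent.SAPX.Cfg

namespace Pool.Agent.SAPX

open Pool.Agent.SAPF Pool.Agent.SAPK Cfg

theorem interior_sum {A : Set Word} (hA : IsClass A) (u c : ℝ) (a : ℕ) {ω : PW → ℝ}
    (h0 : ∀ p, 0 ≤ ω p) (hω : ∀ q, IsPIrr q → ω (q.2, q.1) = ω q) {n : ℕ} (hn : 2 ≤ n) :
    ∑ p ∈ can A n, wt u c p * inr a ω p =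
      2 * SS a (LA A u c) (mkg A u c ω) (RA A u c) (2 * n + 2) := by
  rw [LA_eq, RA_eq, ← sum_mid, sum_can' hA hn (inr a ω) (inl a ω) (fun l hl => inr_pfl a ω hl)
    (fun l hl => inl_sw a hω hl), add_eq_left]
  refine Finset.sum_eq_zero fun l hl => ?_
  rw [Finset.mem_filter] at hl
  obtain ⟨q, rfl⟩ := List.length_eq_one_iff.1 hl.2
  change Cw A u c [q] * walkSum a ω (ht q) [] = 0
  rw [walkSum, mul_zero]

theorem ends_sum {A : Set Word} (hA : IsClass A) (u c : ℝ) {ω : PW → ℝ}
    (h0 : ∀ p, 0 ≤ ω p) (hω : ∀ q, IsPIrr q → ω (q.2, q.1) = ω q) {n : ℕ} (hn : 2 ≤ n) :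
    ∑ p ∈ can A n, wt u c p * (tot ω p - inr 0 ω p) ≤
      2 * (∑ i ∈ Finset.range (2 * n + 2 + 1), ∑ x ∈ Finset.Icc 1 (i : ℤ),
          lamA A u c ω i x * RA A u c (2 * n + 2 - i) x +
        ∑ i ∈ Finset.range (2 * n + 2 + 1), ∑ x ∈ Finset.Icc 1 (i : ℤ),
          rhoA A u c ω i x * LA A u c (2 * n + 2 - i) x) +
      ∑ p ∈ blk A (2 * n + 2), ω p * wt u c p := by
  classical
  rw [LA_eq, RA_eq, ← sum_first, ← sum_last, sum_can' hA hn (fun p => tot ω p - inr 0 ω p)
    (fun l => (l.map ω).sum - inl 0 ω l) (fun l hl => by rw [tot_pfl ω hl, inr_pfl 0 ω hl])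
    (fun l hl => by rw [inl_sw 0 hω hl, sum_map_sw hω hl])]
  refine add_le_add (mul_le_mul_of_nonneg_left (le_of_eq ?_) (by norm_num)) ?_
  · rw [← Finset.sum_add_distrib]
    refine Finset.sum_congr rfl fun l _ => ?_
    rw [← mul_add]
    rcases l with _ | ⟨q, l⟩
    · simp
    rcases eq_or_ne l [] with rfl | hl
    · rw [Pw_cons, Rw_nil]
      ring
    · rw [inl_zero, List.map_cons, List.sum_cons, sum_dropLast ω hl, List.headD_cons]
      have h1 : (q :: l).getLastD ([], []) = l.getLastD ([], []) := by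
        obtain ⟨r, m, rfl⟩ := List.exists_cons_of_ne_nil hl
        rfl
      rw [h1]
      ring
  · have h1 : ∑ p ∈ blk A (2 * n + 2), ω p * wt u c p =
        ∑ l ∈ (blk A (2 * n + 2)).map ⟨fun q => [q], fun q r h => by simpa using h⟩,
          (wt u c (pfl l)) * (l.map ω).sum := by
      rw [Finset.sum_map]
      refine Finset.sum_congr rfl fun q _ => ?_
      change ω q * wt u c q = wt u c (pfl [q]) * (List.map ω [q]).sum
      rw [pfl_single, List.map_singleton, List.sum_singleton, mul_comm]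
    rw [h1]
    have h2 : ∑ l ∈ (lst (2 * n + 2)).filter (fun l => l.length = 1),
        Cw A u c l * ((l.map ω).sum - inl 0 ω l) =
        ∑ l ∈ ((lst (2 * n + 2)).filter (fun l => l.length = 1)).filter (fun l => Cw A u c l ≠ 0),
          wt u c (pfl l) * (l.map ω).sum := by
      rw [Finset.sum_filter (fun l => Cw A u c l ≠ 0)]
      refine Finset.sum_congr rfl fun l hl => ?_
      rw [Finset.mem_filter] at hl
      obtain ⟨q, rfl⟩ := List.length_eq_one_iff.1 hl.2
      have h3 : inl 0 ω [q] = 0 := rfl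
      rw [h3, sub_zero]
      split_ifs with h4
      · have h5 : Cw A u c [q] = wt u c (pfl [q]) := if_pos (Cw_ne h4)
        rw [h5]
      · push Not at h4
        rw [h4, zero_mul]
    rw [h2]
    refine Finset.sum_le_sum_of_subset_of_nonneg ?_ ?_
    · intro l hl
      rw [Finset.mem_filter, Finset.mem_filter, mem_lst] at hl
      obtain ⟨⟨⟨h3, h4⟩, h5⟩, h6⟩ := hl
      obtain ⟨q, rfl⟩ := List.length_eq_one_iff.1 h5
      rw [Finset.mem_map]
      refine ⟨q, ?_, rfl⟩
      rw [mem_blk]
      refine ⟨by simpa using h4, (Cw_ne h6).1 q (by simp)⟩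
    · intro l _ _
      refine mul_nonneg (wt_pos u c _).le (List.sum_nonneg ?_)
      intro r hr
      obtain ⟨q, _, rfl⟩ := List.mem_map.1 hr
      exact h0 q

theorem inr_le_tot {ω : PW → ℝ} (h0 : ∀ p, 0 ≤ ω p) (p : PW) : inr 0 ω p ≤ tot ω p := by
  unfold inr tot
  have hn : ∀ l : List PW, 0 ≤ (l.map ω).sum := by
    intro l
    refine List.sum_nonneg fun r hr => ?_
    obtain ⟨q, _, rfl⟩ := List.mem_map.1 hr
    exact h0 q
  rcases h : blocks p with _ | ⟨q, l⟩
  · simp
  · change walkSum 0 ω (ht q) l.dropLast ≤ ((q :: l).map ω).sum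
    rw [walkSum_zero, List.map_cons, List.sum_cons]
    rcases eq_or_ne l [] with rfl | hl
    · simpa using h0 q
    · rw [sum_dropLast ω hl]
      linarith [h0 q, h0 (l.getLastD ([], []))]

end Pool.Agent.SAPX
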