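import Pool.Agent.SAPX.CDefs

/-!
Two disjoint lattice paths across a strip keep their order (parity of the edges above).
-/

namespace Pool.Agent.SAPX

open Pool.Agent.SAPF Pool.Agent.SAPK

/-- number of vertical edges between `(x, y)` and `(x, y + 1)` -/
def vN : Word → ℤ → ℤ → ℕ
  | [], _, _ => 0
  | d :: w, x, y => (if (d = Dir.N ∧ x = 0 ∧ y = 0) ∨ (d = Dir.S ∧ x = 0 ∧ y = -1) then 1 else 0) +
      vN w (x - d.dx) (y - d.dy)

lemma exists_of_vN {w : Word} {x y : ℤ} (h : vN w x y ≠ 0) : ∃ t, t <+: w ∧ X t = x ∧ Y t = y := by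
  induction w generalizing x y with
  | nil => simp [vN] at h
  | cons d w ih =>
    rw [vN] at h
    by_cases h1 : vN w (x - d.dx) (y - d.dy) = 0
    · rw [h1, add_zero] at h
      have h2 : (d = Dir.N ∧ x = 0 ∧ y = 0) ∨ (d = Dir.S ∧ x = 0 ∧ y = -1) := by
        by_contra hc
        rw [if_neg hc] at h
        exact h rfl
      rcases h2 with ⟨rfl, rfl, rfl⟩ | ⟨rfl, rfl, rfl⟩
      · exact ⟨[], List.nil_prefix, rfl, rfl⟩
      · exact ⟨[Dir.S], by simp, by simp [Dir.dx], by simp [Dir.dy]⟩
    · obtain ⟨t, ht, hx, hy⟩ := ih h1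
      refine ⟨d :: t, (List.cons_prefix_cons).2 ⟨rfl, ht⟩, ?_, ?_⟩
      · rw [X_cons, hx]; ring
      · rw [Y_cons, hy]; ring

/-- parity of the edges around a vertical half line -/
lemma cN_vN (w : Word) (x y : ℤ) :
    (cN w (fun p => p.1 = x - 1 ∧ y < p.2) + cN w (fun p => p.1 = x ∧ y < p.2) + vN w x y +
      (if 0 = x ∧ y < 0 then 1 else 0) + (if X w = x ∧ y < Y w then 1 else 0)) % 2 = 0 := by
  induction w generalizing x y with
  | nil =>
    rw [cN_nil, cN_nil, vN, X_nil, Y_nil]
    split_ifs <;> rfl
  | cons d w ih =>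
    have h1 : cN w (fun p => (p.1 + d.dx, p.2 + d.dy).1 = x - 1 ∧ y < (p.1 + d.dx, p.2 + d.dy).2)
        = cN w (fun p => p.1 = (x - d.dx) - 1 ∧ y - d.dy < p.2) := by
      refine cN_congr fun p => ?_
      simp only
      constructor <;> intro h <;> constructor <;> omega
    have h2 : cN w (fun p => (p.1 + d.dx, p.2 + d.dy).1 = x ∧ y < (p.1 + d.dx, p.2 + d.dy).2)
        = cN w (fun p => p.1 = (x - d.dx) ∧ y - d.dy < p.2) := by
      refine cN_congr fun p => ?_
      simp only
      constructor <;> intro h <;> constructor <;> omega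
    rw [cN_cons, cN_cons, h1, h2, vN, X_cons, Y_cons]
    have h3 := ih (x - d.dx) (y - d.dy)
    have h4 : (X w = x - d.dx ∧ y - d.dy < Y w) ↔ (d.dx + X w = x ∧ y < d.dy + Y w) := by
      constructor <;> intro h <;> constructor <;> omega
    rw [if_congr h4 rfl rfl] at h3
    clear ih h1 h2 h4
    generalize cN w (fun p => p.1 = (x - d.dx) - 1 ∧ y - d.dy < p.2) = a at h3 ⊢
    generalize cN w (fun p => p.1 = (x - d.dx) ∧ y - d.dy < p.2) = b at h3 ⊢
    generalize vN w (x - d.dx) (y - d.dy) = c at h3 ⊢
    generalize (if d.dx + X w = x ∧ y < d.dy + Y w then 1 else 0) = e at h3 ⊢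
    cases d
    · have h5 : (a + b + c + (if 0 = x - 1 ∧ y - 0 < 0 then 1 else 0) + e) % 2 = 0 := h3
      simp only [true_and, reduceCtorEq, false_and, if_false, or_self]
      split_ifs at h5 <;> split_ifs <;> omega
    · have h5 : (a + b + c + (if 0 = x - 0 ∧ y - 1 < 0 then 1 else 0) + e) % 2 = 0 := h3
      simp only [true_and, reduceCtorEq, false_and, if_false, or_false]
      split_ifs at h5 <;> split_ifs <;> omega
    · have h5 : (a + b + c + (if 0 = x - (-1) ∧ y - 0 < 0 then 1 else 0) + e) % 2 = 0 := h3
      simp only [true_and, reduceCtorEq, false_and, if_false, or_self]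
      split_ifs at h5 <;> split_ifs <;> omega
    · have h5 : (a + b + c + (if 0 = x - 0 ∧ y - (-1) < 0 then 1 else 0) + e) % 2 = 0 := h3
      simp only [true_and, reduceCtorEq, false_and, if_false, false_or]
      split_ifs at h5 <;> split_ifs <;> omega

/-- if the point `(x + 1, y)` is not on the path, no edge of the unit column `[x, x + 1]` is at the
height `y` -/
lemma cN_step {w : Word} {x y : ℤ} (h : ∀ t, t <+: w → X t = x + 1 → Y t ≠ y) :
    cN w (fun p => p.1 = x ∧ y - 1 < p.2) = cN w (fun p => p.1 = x ∧ y < p.2) := by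
  unfold cN
  refine List.countP_congr ?_
  intro p hp
  simp only [decide_eq_true_eq]
  constructor
  · rintro ⟨h1, h2⟩
    refine ⟨h1, ?_⟩
    by_contra hc
    have hy : p.2 = y := by omega
    rcases exists_of_mem_hEdges hp with ⟨t, ht, rfl⟩ | ⟨t, ht, rfl⟩
    · refine h _ ht ?_ ?_
      · rw [X_append, X_cons, X_nil]; simp only [Dir.dx] at *; omega
      · rw [Y_append, Y_cons, Y_nil]; simp only [Dir.dy] at *; omega
    · refine h t ((List.prefix_append t _).trans ht) ?_ hy
      simp only at h1
      omega
  · rintro ⟨h1, h2⟩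
    exact ⟨h1, by omega⟩

/-- disjoint paths do not change their order -/
theorem no_cross {p : PW} (hp : IsPB p) {d : ℤ} (hd : 0 < d) (h : Disj d p) : 0 < d + ht p := by
  obtain ⟨a, b⟩ := p
  obtain ⟨ha, hb, hX⟩ := hp
  simp only at ha hb hX
  unfold ht
  simp only
  rcases eq_or_ne a [] with h0 | h0
  · subst h0
    rw [X_nil] at hX
    have := IsBr.eq_nil_of_X hb hX.symm
    subst this
    simpa using hd
  have hXa : 0 < X a := ha.pos (List.prefix_refl a) h0
  -- points of the first path are not on the second one
  have hoff : ∀ t, t <+: a → t ≠ [] → ∀ s, s <+: b → X s = X t → Y s ≠ Y t + d := by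
    intro t ht ht0 s hs hst
    have hs0 : s ≠ [] := by
      rintro rfl
      have := ha.pos ht ht0
      rw [X_nil] at hst
      omega
    exact (h t s ht hs ht0 hs0 hst.symm).symm
  -- parity along the first path
  have key : ∀ t, t <+: a → t ≠ [] →
      cN b (fun p => p.1 = X t - 1 ∧ Y t + d < p.2) % 2 = 0 := by
    intro t
    induction t using List.reverseRecOn with
    | nil => intro _ h; exact absurd rfl h
    | append_singleton t e ih =>
      intro ht _
      have hte0 : t ++ [e] ≠ [] := by simp
      have htpre : t <+: a := (List.prefix_append t [e]).trans ht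
      rcases eq_or_ne t [] with ht0 | ht0
      · -- first edge
        subst ht0
        rw [List.nil_append] at ht ⊢
        have hpos := ha.pos ht (by simp)
        have he : e = Dir.E := by
          cases e <;> simp [Dir.dx] at hpos ⊢
        subst he
        have : cN b (fun p => p.1 = X [Dir.E] - 1 ∧ Y [Dir.E] + d < p.2) = 0 := by
          refine cN_eq_zero ?_
          rintro p hp ⟨hp1, hp2⟩
          simp only [X_cons, X_nil, Y_cons, Y_nil, Dir.dx, Dir.dy] at hp1 hp2
          rcases exists_of_mem_hEdges hp with ⟨s, hs, rfl⟩ | ⟨s, hs, rfl⟩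
          · rcases eq_or_ne s [] with hs0 | hs0
            · subst hs0
              simp only [Y_nil] at hp2
              omega
            · have := hb.pos ((List.prefix_append s _).trans hs) hs0
              simp only at hp1
              omega
          · have := hb.pos hs (by simp)
            rw [X_append, X_cons, X_nil] at this
            simp only [Dir.dx] at this hp1
            omega
        rw [this]
      · have ih' := ih htpre ht0
        have hXt := ha.pos htpre ht0
        have hXte := ha.pos ht hte0
        have hle := ha.le ht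
        have hlt := ha.le htpre
        have o1 := hoff t htpre ht0
        have o2 := hoff (t ++ [e]) ht hte0
        rw [X_append, X_cons, X_nil, add_zero] at hXte hle o2 ⊢
        rw [Y_append, Y_cons, Y_nil, add_zero] at o2 ⊢
        cases e
        · simp only [Dir.dx, Dir.dy, add_zero] at hXte hle o2 ⊢
          have hv : vN b (X t) (Y t + d) = 0 := by
            by_contra hc
            obtain ⟨s, hs, hs1, hs2⟩ := exists_of_vN hc
            exact o1 s hs hs1 hs2
          have := cN_vN b (X t) (Y t + d)
          rw [hv, if_neg (by omega), if_neg (by omega)] at this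
          rw [add_sub_cancel_right]
          omega
        · simp only [Dir.dx, Dir.dy, add_zero] at hXte hle o2 ⊢
          have := cN_step (w := b) (x := X t - 1) (y := Y t + 1 + d) (fun s hs hs1 => o2 s hs (by omega))
          have e1 : Y t + 1 + d - 1 = Y t + d := by ring
          rw [e1] at this
          rw [← this]
          exact ih'
        · simp only [Dir.dx, Dir.dy, add_zero] at hXte hle o2 ⊢
          have hv : vN b (X t + -1) (Y t + d) = 0 := by
            by_contra hc
            obtain ⟨s, hs, hs1, hs2⟩ := exists_of_vN hc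
            exact o2 s hs hs1 hs2
          have := cN_vN b (X t + -1) (Y t + d)
          rw [hv, if_neg (by omega), if_neg (by omega)] at this
          have e1 : X t + -1 = X t - 1 := by ring
          rw [e1] at this ⊢
          omega
        · simp only [Dir.dx, Dir.dy, add_zero] at hXte hle o2 ⊢
          have := cN_step (w := b) (x := X t - 1) (y := Y t + d) (fun s hs hs1 => o1 s hs (by omega))
          have e1 : Y t + -1 + d = Y t + d - 1 := by ring
          rw [e1, this]
          exact ih'
  have h1 := key a (List.prefix_refl a) h0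
  have hv : vN b (X a) (Y a + d) = 0 := by
    by_contra hc
    obtain ⟨s, hs, hs1, hs2⟩ := exists_of_vN hc
    exact hoff a (List.prefix_refl a) h0 s hs hs1 hs2
  have h2 := cN_vN b (X a) (Y a + d)
  have h3 : cN b (fun p => p.1 = X a ∧ Y a + d < p.2) = 0 := by
    refine cN_eq_zero ?_
    rintro p hp ⟨hp1, _⟩
    have := hEdges_fst (lo := 0) (hi := X b) (fun t ht => ⟨hb.nonneg ht, hb.le ht⟩) hp
    omega
  have h4 : Y b ≠ Y a + d := hoff a (List.prefix_refl a) h0 b (List.prefix_refl b) hX.symm
  rw [hv, h3, if_neg (by omega)] at h2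
  by_contra hc
  rw [if_pos ⟨hX.symm, by omega⟩] at h2
  omega

end Pool.Agent.SAPX
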