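import Pool.Agent.SAPX.Canon
import Pool.Agent.SAPK.ArcsK

/-!
Polygons of bounded backtracking have canonical arcs of bounded backtracking.
-/

namespace Pool.Agent.SAPX

open Pool.Agent.SAPF Pool.Agent.SAPK

namespace InKX

/-- the choice of the minimum and of the maximum does not matter -/
lemma cyclic {y : ℤ → ℤ} {N q P A k : ℤ} (hN : 0 < N) (hper : Function.Periodic y N) (hk : 0 ≤ k)
    (hq0 : 0 ≤ q) (hqN : q ≤ N) (hmin : ∀ s, y 0 ≤ y s) (hmax : ∀ s, y s ≤ y q)
    (hD : ∀ s t, 0 ≤ s → s ≤ t → t ≤ q → y s ≤ y t + k)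
    (hU : ∀ s t, q ≤ s → s ≤ t → t ≤ N → y t ≤ y s + k)
    (hA0 : 0 ≤ A) (hAN : A ≤ N) (hP : ∀ s, y P ≤ y s) (hPA : ∀ s, y s ≤ y (P + A)) :
    (∀ s t, 0 ≤ s → s ≤ t → t ≤ A → y (P + s) ≤ y (P + t) + k) ∧
      (∀ s t, A ≤ s → s ≤ t → t ≤ N → y (P + t) ≤ y (P + s) + k) := by
  by_cases hW : y q - y 0 ≤ k
  · constructor
    · intro s t _ _ _
      have := hmin (P + t)
      have := hmax (P + s)
      omega
    · intro s t _ _ _
      have := hmin (P + s)
      have := hmax (P + t)
      omega
  push Not at hW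
  -- the representative of `P` in `(q - N, q]`
  obtain ⟨I, m, hI, hI1, hI2⟩ : ∃ I m : ℤ, I = P + m * N ∧ q - N < I ∧ I ≤ q := by
    refine ⟨q - (q - P) % N, (q - P) / N, ?_, ?_, ?_⟩
    · have := Int.emod_add_mul_ediv (q - P) N
      linarith
    · have := Int.emod_lt_of_pos (q - P) hN
      linarith
    · have := Int.emod_nonneg (q - P) hN.ne'
      linarith
  have hy : ∀ s, y (P + s) = y (I + s) := by
    intro s
    have h := (hper.int_mul m) (P + s)
    rw [Int.cast_id] at h
    rw [← h, hI]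
    congr 1
    ring
  have hy0 : y I = y P := by
    have := hy 0
    simpa using this.symm
  have hIA : y (I + A) = y (P + A) := (hy A).symm
  have e1 : y I = y 0 := le_antisymm (hy0 ▸ hP 0) (hmin I)
  have e2 : y (I + A) = y q := le_antisymm (hmax _) (hIA ▸ hPA q)
  have hsh : ∀ s, y (s + N) = y s := hper
  have hsh' : ∀ s, y (s - N) = y s := fun s => by
    have := hper (s - N)
    rw [sub_add_cancel] at this
    exact this.symm
  -- `I + A ≤ N`
  have hJN : I + A ≤ N := by
    by_contra hcon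
    push Not at hcon
    have h1 := hD (I + A - N) I (by omega) (by omega) hI2
    rw [hsh', e1, e2] at h1
    omega
  have hJ0 : 0 ≤ I + A := by
    by_contra hcon
    push Not at hcon
    have h1 := hU (I + N) (I + A + N) (by omega) (by omega) (by omega)
    rw [hsh, hsh, e1, e2] at h1
    omega
  constructor
  · intro s t hs hst ht
    rw [hy, hy]
    rcases le_total (I + s) 0 with h | h
    · have h1 := hU (I + N) (I + s + N) (by omega) (by omega) (by omega)
      rw [hsh, hsh, e1] at h1
      have := hmin (I + t)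
      omega
    rcases le_total q (I + t) with h' | h'
    · have h1 := hU (I + t) (I + A) h' (by omega) hJN
      rw [e2] at h1
      have := hmax (I + s)
      omega
    · exact hD _ _ h (by omega) h'
  · intro s t hs hst ht
    rw [hy, hy]
    rcases le_total (I + s) q with h | h
    · have h1 := hD (I + A) (I + s) hJ0 (by omega) h
      rw [e2] at h1
      have := hmax (I + t)
      omega
    rcases le_total N (I + t) with h' | h'
    · have h1 := hD (I + t - N) I (by omega) (by omega) hI2
      rw [hsh', e1] at h1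
      have := hmin (I + s)
      omega
    · exact hU _ _ h (by omega) h'

/-- all arcs of a polygon of backtracking at most `k` -/
theorem arcs_mem {n : ℕ} (hn : 2 ≤ n) {k : ℕ} {v : ZMod (2 * n) → ℤ × ℤ} (hK : InK k v)
    {i : ZMod (2 * n)} {a b : Word} (hA : IsArcs n v i a b) :
    Dir.E :: a ∈ Ak k ∧ Dir.E :: b ∈ Ak k := by
  have : NeZero (2 * n) := ⟨by omega⟩
  obtain ⟨i0, q, hq, hext, h1, h2⟩ := hK
  set w := a ++ rv b with hw
  have hwl : w.length = 2 * n := by
    rw [hw, List.length_append, length_rv]; exact hA.len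
  have hXw : X w = 0 := by
    rw [hw, X_append, X_rv, hA.Xa, hA.Xb]; ring
  have hL : ∀ s : ℕ, s ≤ 2 * n → (loop (2 * n) w (s : ZMod (2 * n))).1 = X (w.take s) := by
    intro s hs
    rcases Nat.lt_or_ge s (2 * n) with h | h
    · simp [loop, ZMod.val_natCast_of_lt h]
    · have h' : s = 2 * n := by omega
      rw [h', ZMod.natCast_self, ← hwl, List.take_length, hXw]
      simp [loop]
  have hvL : ∀ j, (v j).1 = (loop (2 * n) w (j + i)).1 - (loop (2 * n) w i).1 := by
    intro j
    conv_lhs => rw [hA.eq]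
    simp [SAPF.rot, hw]
  have hpa : ∀ t, t <+: a → 0 ≤ X t ∧ X t ≤ X a := by
    intro t ht
    have h1 : Dir.E :: t <+: Dir.E :: a := by
      obtain ⟨s, rfl⟩ := ht
      exact ⟨s, by simp⟩
    have h2 := hA.bra.pos h1 (by simp)
    have h3 := hA.bra.le h1
    rw [X_cons] at h2
    rw [X_cons, X_cons] at h3
    have : Dir.E.dx = 1 := rfl
    omega
  have hpb : ∀ t, t <:+ b → 0 ≤ X t ∧ X t ≤ X b := by
    intro t ht
    have h1 := hA.brb.suf (ht.trans (List.suffix_cons _ _))
    obtain ⟨s, rfl⟩ := ht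
    have h2 : Dir.E :: s <+: Dir.E :: (s ++ t) := ⟨t, by simp⟩
    have h3 := hA.brb.pos h2 (by simp)
    rw [X_cons] at h3
    rw [X_append]
    have : Dir.E.dx = 1 := rfl
    omega
  have hab : X a = X b := by rw [hA.Xa, hA.Xb]
  have hrange : ∀ t, t <+: w → 0 ≤ X t ∧ X t ≤ X a := by
    intro t ht
    rcases prefix_append_cases ht with h | ⟨s, hs, -, rfl⟩
    · exact hpa t h
    · have h1 := hpb _ (prefix_rv.1 hs)
      rw [X_rv] at h1
      rw [X_append]
      omega
  have hal : a.length ≤ 2 * n := by have := hA.len; omega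
  have hs' : ∀ s : ℕ, s ≤ 2 * n → (v (-i + s)).1 = X (w.take s) - (loop (2 * n) w i).1 := by
    intro s hs
    rw [hvL, show -i + (s : ZMod (2 * n)) + i = s by ring, hL s hs]
  have hta : w.take a.length = a := by rw [hw, List.take_left' rfl]
  -- the cyclic sequence of columns
  let y : ℤ → ℤ := fun s => (v (i0 + (s : ZMod (2 * n)))).1
  obtain ⟨P, hP⟩ : ∃ P : ℤ, i0 + ((P : ℤ) : ZMod (2 * n)) = -i := by
    refine ⟨(((-i - i0 : ZMod (2 * n)).val : ℕ) : ℤ), ?_⟩
    rw [Int.cast_natCast, ZMod.natCast_zmod_val]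
    ring
  have hyP : ∀ s : ℕ, y (P + s) = (v (-i + s)).1 := by
    intro s
    change (v (i0 + ((P + s : ℤ) : ZMod (2 * n)))).1 = _
    rw [← hP]
    push_cast
    rw [add_assoc]
  have hyn : ∀ s : ℕ, y (s : ℤ) = (v (i0 + s)).1 := by
    intro s
    change (v (i0 + ((s : ℤ) : ZMod (2 * n)))).1 = _
    rw [Int.cast_natCast]
  have hper : Function.Periodic y ((2 * n : ℕ) : ℤ) := by
    intro s
    change (v (i0 + ((s + ((2 * n : ℕ) : ℤ) : ℤ) : ZMod (2 * n)))).1 = _
    rw [Int.cast_add, Int.cast_natCast, ZMod.natCast_self, add_zero]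
  have hy0 : y 0 = (v i0).1 := by
    have := hyn 0
    simpa using this
  have hyt : ∀ s : ℤ, ∃ j, y s = (v j).1 := fun s => ⟨_, rfl⟩
  have hrangeP : ∀ s : ℤ, y P ≤ y s ∧ y s ≤ y (P + a.length) := by
    intro s
    obtain ⟨j, hj⟩ := hyt s
    have g1 := hL (j + i).val (ZMod.val_lt _).le
    rw [ZMod.natCast_zmod_val] at g1
    have g2 := hrange _ (List.take_prefix (j + i).val w)
    have g3 := hyP 0
    rw [hs' 0 (by omega)] at g3
    have g4 := hyP a.length
    rw [hs' _ hal, hta] at g4
    have g5 := hvL j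
    simp only [Nat.cast_zero, add_zero, List.take_zero, X_nil] at g3
    omega
  obtain ⟨c1, c2⟩ := cyclic (y := y) (N := ((2 * n : ℕ) : ℤ)) (q := q) (P := P) (A := a.length)
    (k := k) (by exact_mod_cast (by omega : 0 < 2 * n)) hper (by positivity) (by positivity)
    (by exact_mod_cast hq)
    (fun s => by
      obtain ⟨j, hj⟩ := hyt s
      rw [hy0, hj]; exact (hext j).1)
    (fun s => by
      obtain ⟨j, hj⟩ := hyt s
      rw [hyn, hj]; exact (hext j).2)
    (fun s t hs hst ht => by
      obtain ⟨s', rfl⟩ := Int.eq_ofNat_of_zero_le hs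
      obtain ⟨t', rfl⟩ := Int.eq_ofNat_of_zero_le (hs.trans hst)
      rw [hyn, hyn]
      exact h1 s' t' (by exact_mod_cast hst) (by exact_mod_cast ht))
    (fun s t hs hst ht => by
      have hs0 : 0 ≤ s := le_trans (by positivity) hs
      obtain ⟨s', rfl⟩ := Int.eq_ofNat_of_zero_le hs0
      obtain ⟨t', rfl⟩ := Int.eq_ofNat_of_zero_le (hs0.trans hst)
      rw [hyn, hyn]
      exact h2 s' t' (by exact_mod_cast hs) (by exact_mod_cast hst) (by exact_mod_cast ht))
    (by positivity) (by exact_mod_cast hal) (fun s => (hrangeP s).1) (fun s => (hrangeP s).2)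
  have d1 : ∀ s t : ℕ, s ≤ t → t ≤ a.length → X (w.take s) ≤ X (w.take t) + k := by
    intro s t hst ht
    have := c1 s t (by positivity) (by exact_mod_cast hst) (by exact_mod_cast ht)
    rw [hyP, hyP, hs' s (by omega), hs' t (by omega)] at this
    omega
  have d2 : ∀ s t : ℕ, a.length ≤ s → s ≤ t → t ≤ 2 * n → X (w.take t) ≤ X (w.take s) + k := by
    intro s t hs hst ht
    have := c2 s t (by exact_mod_cast hs) (by exact_mod_cast hst) (by exact_mod_cast ht)
    rw [hyP, hyP, hs' s (by omega), hs' t (by omega)] at this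
    omega
  constructor
  · refine cons_E_mem_Ak hA.bra ?_
    rintro t ⟨p0, q0, hpq⟩
    have hl := congrArg List.length hpq
    simp only [List.length_append] at hl
    have e1 : w.take p0.length = p0 := by
      rw [hw, ← hpq, List.append_assoc, List.append_assoc, List.take_left' rfl]
    have e2 : w.take (p0.length + t.length) = p0 ++ t := by
      rw [hw, ← hpq, List.append_assoc (p0 ++ t), ← List.length_append, List.take_left' rfl]
    have := d1 p0.length (p0.length + t.length) (by omega) (by omega)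
    rw [e1, e2, X_append] at this
    omega
  · refine cons_E_mem_Ak hA.brb ?_
    intro t ht
    obtain ⟨p0, q0, hpq⟩ : rv t <:+: rv b := infix_rv.2 (by simpa using ht)
    have hl := congrArg List.length hpq
    simp only [List.length_append, length_rv] at hl
    have hlen := hA.len
    have e1 : w.take (a ++ p0).length = a ++ p0 := by
      have : w = (a ++ p0) ++ (rv t ++ q0) := by
        rw [hw, ← hpq]; simp only [List.append_assoc]
      rw [this, List.take_left' rfl]
    have e2 : w.take ((a ++ p0).length + t.length) = (a ++ p0) ++ rv t := by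
      have : w = ((a ++ p0) ++ rv t) ++ q0 := by
        rw [hw, ← hpq]; simp only [List.append_assoc]
      rw [this, ← length_rv t, ← List.length_append, List.take_left' rfl]
    have := d2 (a ++ p0).length ((a ++ p0).length + t.length)
      (by rw [List.length_append]; omega) (by omega) (by rw [List.length_append]; omega)
    rw [e1, e2, X_append (a ++ p0), X_rv] at this
    omega

lemma isArcs_rot {n : ℕ} {v : ZMod (2 * n) → ℤ × ℤ} {a b : Word}
    (h : IsArcs n v 0 a b) (i : ZMod (2 * n)) : IsArcs n (rot i v) i a b := by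
  have hv : v = loop (2 * n) (a ++ rv b) := by
    have h1 := h.eq
    rw [h1]
    funext j
    simp [SAPF.rot, loop]
  refine ⟨h.bra, h.brb, ?_, ?_, h.Yab, h.len, ?_⟩
  · rw [width_rot]; exact h.Xa
  · rw [width_rot]; exact h.Xb
  · rw [← hv]

lemma InK_rot {k m : ℕ} {v : ZMod m → ℤ × ℤ} {i : ZMod m} (h : InK k (rot i v)) : InK k v := by
  obtain ⟨j, p, hp, h1, h2, h3⟩ := h
  refine ⟨j + i, p, hp, ?_, ?_, ?_⟩
  · intro l
    have := h1 (l - i)
    simp only [SAPF.rot, Prod.fst_sub, sub_add_cancel] at this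
    rw [show j + i + (p : ZMod m) = j + p + i by ring]
    omega
  · intro s t hst ht
    have := h2 s t hst ht
    simp only [SAPF.rot, Prod.fst_sub] at this
    rw [show j + i + (s : ZMod m) = j + s + i by ring, show j + i + (t : ZMod m) = j + t + i by ring]
    omega
  · intro s t hs hst ht
    have := h3 s t hs hst ht
    simp only [SAPF.rot, Prod.fst_sub] at this
    rw [show j + i + (s : ZMod m) = j + s + i by ring, show j + i + (t : ZMod m) = j + t + i by ring]
    omega

end InKX

theorem SAc_Ak {n : ℕ} (hn : 2 ≤ n) (k : ℕ) :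
    SAc (Ak k) n = {v : ZMod (2 * n) → ℤ × ℤ | IsSAP (2 * n) v ∧ InK k v} := by
  classical
  ext v
  constructor
  · rintro ⟨i, p, hp, rfl⟩
    obtain ⟨h1, h2, h3, h4⟩ := isArcs_can hn hp
    have hv := h4.rot i
    refine ⟨hv, (inK_iff hn k hv).2 ⟨i, _, _, InKX.isArcs_rot h1 i, ?_, ?_⟩⟩
    · rw [h2]; exact (mem_can.1 hp).2.2.1
    · rw [h3]; exact (mem_can.1 hp).2.2.2
  · rintro ⟨h1, h2⟩
    have h3 : v ∈ SAc Set.univ n := by rw [SAc_univ hn]; exact h1
    obtain ⟨i, p, hp, rfl⟩ := h3
    obtain ⟨g1, g2, g3, -⟩ := isArcs_can hn hp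
    obtain ⟨m1, m2⟩ := InKX.arcs_mem hn (InKX.InK_rot h2) g1
    rw [g2] at m1
    rw [g3] at m2
    exact ⟨i, p, mem_can.2 ⟨(mem_can.1 hp).1, (mem_can.1 hp).2.1, m1, m2⟩, rfl⟩

end Pool.Agent.SAPX
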