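import Pool.Agent.SAPX.KDefs

/-!
Module K1, part 1: analysis of the characteristic functions of a renewal process near frequency 0.
-/

namespace Pool.Agent.SAPX

open Filter Topology

/-! ### elementary -/

theorem k1_pow_sub_one {w : ℝ} (hw : 1 ≤ w) (m : ℕ) : w ^ m - 1 ≤ m * (w - 1) * w ^ m := by
  induction m with
  | zero => simp
  | succ m ih =>
    have h1 : (1 : ℝ) ≤ w ^ m := one_le_pow₀ hw
    have h2 : w ^ m ≤ w ^ (m + 1) := by
      rw [pow_succ]; nlinarith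
    have h3 : w ^ (m + 1) - 1 = w * (w ^ m - 1) + (w - 1) := by ring
    rw [h3]
    have h4 : w * (w ^ m - 1) ≤ w * (m * (w - 1) * w ^ m) :=
      mul_le_mul_of_nonneg_left ih (by linarith)
    have h5 : w - 1 ≤ (w - 1) * w ^ (m + 1) := by
      have : (1 : ℝ) ≤ w ^ (m + 1) := one_le_pow₀ hw
      nlinarith
    push_cast
    calc w * (w ^ m - 1) + (w - 1) ≤ w * (m * (w - 1) * w ^ m) + (w - 1) * w ^ (m + 1) := by
          linarith
      _ = (m + 1) * (w - 1) * w ^ (m + 1) := by ring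

theorem k1_pow_sub_one_sub {w : ℝ} (hw : 1 ≤ w) (m : ℕ) :
    |w ^ m - 1 - m * (w - 1)| ≤ (m : ℝ) ^ 2 * (w - 1) ^ 2 * w ^ m := by
  have hnn : ∀ m : ℕ, 0 ≤ w ^ m - 1 - m * (w - 1) := by
    intro m
    have := one_add_mul_le_pow (show (-2 : ℝ) ≤ w - 1 by linarith) m
    have h1 : (1 + (w - 1)) ^ m = w ^ m := by congr 1; ring
    rw [h1] at this
    linarith
  rw [abs_of_nonneg (hnn m)]
  induction m with
  | zero => simp
  | succ m ih =>
    have h1 : w ^ (m + 1) - 1 - ((m + 1 : ℕ) : ℝ) * (w - 1) =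
        (w ^ m - 1 - m * (w - 1)) + (w - 1) * (w ^ m - 1) := by
      push_cast; ring
    rw [h1]
    have h2 := k1_pow_sub_one hw m
    have h3 : (1 : ℝ) ≤ w ^ m := one_le_pow₀ hw
    have h4 : (w - 1) * (w ^ m - 1) ≤ (w - 1) * (m * (w - 1) * w ^ m) :=
      mul_le_mul_of_nonneg_left h2 (by linarith)
    have h5 : w ^ m ≤ w ^ (m + 1) := by
      rw [pow_succ]; nlinarith
    have h6 : (m : ℝ) ^ 2 * (w - 1) ^ 2 * w ^ m + (w - 1) * (m * (w - 1) * w ^ m) ≤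
        ((m + 1 : ℕ) : ℝ) ^ 2 * (w - 1) ^ 2 * w ^ m := by
      push_cast
      have h7 : 0 ≤ (w - 1) ^ 2 * w ^ m := by positivity
      have h8 : (m : ℝ) ^ 2 * (w - 1) ^ 2 * w ^ m + (w - 1) * (m * (w - 1) * w ^ m) =
        ((m : ℝ) ^ 2 + m) * ((w - 1) ^ 2 * w ^ m) := by ring
      have h9 : ((m : ℝ) + 1) ^ 2 * (w - 1) ^ 2 * w ^ m =
        ((m : ℝ) + 1) ^ 2 * ((w - 1) ^ 2 * w ^ m) := by ring
      rw [h8, h9]
      refine mul_le_mul_of_nonneg_right ?_ h7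
      nlinarith [(Nat.cast_nonneg m : (0 : ℝ) ≤ m)]
    have h10 : ((m + 1 : ℕ) : ℝ) ^ 2 * (w - 1) ^ 2 * w ^ m ≤
        ((m + 1 : ℕ) : ℝ) ^ 2 * (w - 1) ^ 2 * w ^ (m + 1) :=
      mul_le_mul_of_nonneg_left h5 (by positivity)
    linarith

theorem k1_cos_sub (x : ℝ) : |Real.cos x - 1| ≤ x ^ 2 := by
  rw [abs_le]
  constructor
  · have := Real.one_sub_sq_div_two_le_cos (x := x)
    nlinarith [sq_nonneg x]
  · nlinarith [Real.cos_le_one x, sq_nonneg x]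

theorem k1_cos_sub_sub (x : ℝ) : |Real.cos x - 1 + x ^ 2 / 2| ≤ 3 * x ^ 4 := by
  by_cases hx : |x| ≤ 1
  · have := Real.cos_bound hx
    have h1 : Real.cos x - 1 + x ^ 2 / 2 = Real.cos x - (1 - x ^ 2 / 2) := by ring
    rw [h1]
    refine this.trans ?_
    have h2 : |x| ^ 4 = x ^ 4 := by
      rw [← abs_pow, abs_of_nonneg (by positivity)]
    rw [h2]
    nlinarith [show (0 : ℝ) ≤ x ^ 4 by positivity]
  · push Not at hx
    have h1 : 1 ≤ x ^ 2 := by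
      rw [← sq_abs]; nlinarith
    have h2 : x ^ 2 ≤ x ^ 4 := by nlinarith
    rw [abs_le]
    constructor
    · nlinarith [Real.neg_one_le_cos x]
    · nlinarith [Real.cos_le_one x]

/-! ### renewal algebra -/

/-- renewal recursion -/
def K1Ren (F v : ℕ → ℝ) : Prop :=
  ∀ n, v n = (if n = 0 then 1 else 0) + ∑ k ∈ Finset.range n, v k * F (n - k)

theorem K1Ren.scale {F v : ℕ → ℝ} (h : K1Ren F v) (w : ℝ) :
    K1Ren (fun m => F m * w ^ m) (fun m => v m * w ^ m) := by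
  intro n
  simp only
  rw [h n, add_mul, Finset.sum_mul]
  congr 1
  · split_ifs with hn
    · simp [hn]
    · simp
  · refine Finset.sum_congr rfl fun k hk => ?_
    have : w ^ n = w ^ k * w ^ (n - k) := by
      rw [← pow_add]; congr 1; have := Finset.mem_range.1 hk; omega
    rw [this]; ring

/-- `T k = 1 - ∑_{m ≤ k} F m` -/
noncomputable def k1T (F : ℕ → ℝ) (k : ℕ) : ℝ := 1 - ∑ m ∈ Finset.range (k + 1), F m

/-- increments of `v` -/
noncomputable def k1h (v : ℕ → ℝ) (n : ℕ) : ℝ := v n - if n = 0 then 0 else v (n - 1)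

theorem k1_sum_h (v : ℕ → ℝ) (n : ℕ) : ∑ k ∈ Finset.range (n + 1), k1h v k = v n := by
  induction n with
  | zero => simp [k1h]
  | succ n ih =>
    rw [Finset.sum_range_succ, ih]
    simp [k1h]

theorem K1Ren.inv {F v : ℕ → ℝ} (h : K1Ren F v) (h0 : F 0 = 0) (n : ℕ) :
    ∑ i ∈ Finset.range (n + 1), k1T F i * k1h v (n - i) = if n = 0 then 1 else 0 := by
  classical
  open PowerSeries in
  have hV : (mk v : PowerSeries ℝ) * (1 - mk F) = 1 := by
    have h1 : (mk v : PowerSeries ℝ) = 1 + mk v * mk F := by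
      ext n
      rw [coeff_mk, map_add, coeff_one, coeff_mul,
        Finset.Nat.sum_antidiagonal_eq_sum_range_succ_mk, Finset.sum_range_succ, h n]
      simp [h0]
    rw [mul_sub, mul_one]
    nth_rewrite 1 [h1]
    ring
  open PowerSeries in
  have hT : (1 - X : PowerSeries ℝ) * mk (k1T F) = 1 - mk F := by
    ext n
    rw [sub_mul, one_mul, map_sub, map_sub, coeff_mk, coeff_mk]
    rcases n with _ | n
    · simp [k1T, h0]
    · rw [coeff_succ_X_mul, coeff_mk, coeff_one]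
      simp only [k1T, Finset.sum_range_succ _ (n + 1)]
      simp
  open PowerSeries in
  have hH : (1 - X : PowerSeries ℝ) * mk v = mk (k1h v) := by
    ext n
    rw [sub_mul, one_mul, map_sub, coeff_mk, coeff_mk]
    rcases n with _ | n
    · simp [k1h]
    · rw [coeff_succ_X_mul, coeff_mk]
      simp [k1h]
  open PowerSeries in
  have hTH : (mk (k1T F) : PowerSeries ℝ) * mk (k1h v) = 1 := by
    rw [← hH, mul_left_comm, ← mul_assoc, hT, mul_comm, hV]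
  have := congrArg (PowerSeries.coeff n) hTH
  rw [PowerSeries.coeff_mul, Finset.Nat.sum_antidiagonal_eq_sum_range_succ_mk,
    PowerSeries.coeff_one] at this
  simpa using this

/-! ### abstract data -/

structure K1D (p s : ℕ → ℝ) (F : ℝ → ℕ → ℝ) (δ : ℝ) : Prop where
  δpos : 0 < δ
  p0 : p 0 = 0
  pnn : ∀ m, 0 ≤ p m
  p2 : 0 < p 2
  p3 : 0 < p 3
  tot : HasSum p 1
  exp : Summable fun m => p m * Real.exp (δ * m)
  snn : ∀ m, 0 ≤ s m
  sle : ∀ m, s m ≤ (m : ℝ) ^ 2 * p m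
  Fle : ∀ θ m, |F θ m| ≤ p m
  Fd1 : ∀ θ m, |F θ m - p m| ≤ θ ^ 2 * (m : ℝ) ^ 2 * p m
  Fd2 : ∀ θ m, |F θ m - p m + θ ^ 2 * s m / 2| ≤ 3 * θ ^ 4 * (m : ℝ) ^ 4 * p m

/-- `e^(δ/4)` -/
noncomputable def k1ro (δ : ℝ) : ℝ := Real.exp (δ / 4)

/-- dominating sequence -/
noncomputable def k1W (p : ℕ → ℝ) (δ : ℝ) (m : ℕ) : ℝ := p m * ((m : ℝ) + 1) ^ 4 * k1ro δ ^ m

/-- dominating constant -/
noncomputable def k1M (p : ℕ → ℝ) (δ : ℝ) : ℝ := ∑' m, k1W p δ m * k1ro δ ^ m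

section

variable {p s : ℕ → ℝ} {F : ℝ → ℕ → ℝ} {δ : ℝ}

theorem k1_abs_tsum_le {g b : ℕ → ℝ} (hb : Summable b) (h : ∀ m, |g m| ≤ b m) :
    |∑' m, g m| ≤ ∑' m, b m := by
  rw [← Real.norm_eq_abs]
  exact tsum_of_norm_bounded hb.hasSum fun m => by rw [Real.norm_eq_abs]; exact h m

theorem K1D.ro_gt (D : K1D p s F δ) : 1 < k1ro δ := by
  have := D.δpos
  exact Real.one_lt_exp_iff.2 (by positivity)

theorem k1W_nonneg (D : K1D p s F δ) (m : ℕ) : 0 ≤ k1W p δ m := by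
  have h1 := D.pnn m
  have h2 : 0 < k1ro δ := Real.exp_pos _
  unfold k1W
  positivity

theorem K1D.summableM (D : K1D p s F δ) : Summable fun m => k1W p δ m * k1ro δ ^ m := by
  have hδ := D.δpos
  -- `(m+1)^4 e^(-δ m /2)` is bounded
  set r : ℝ := Real.exp (-(δ / 2)) with hr
  have hr0 : 0 < r := Real.exp_pos _
  have hr1 : r < 1 := by rw [hr, Real.exp_lt_one_iff]; linarith
  have h1 : Tendsto (fun n : ℕ => (n : ℝ) ^ 4 * r ^ n) atTop (𝓝 0) :=
    tendsto_pow_const_mul_const_pow_of_abs_lt_one 4 (by rwa [abs_of_pos hr0])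
  obtain ⟨C, hC⟩ := h1.bddAbove_range
  have hC' : ∀ n : ℕ, (n : ℝ) ^ 4 * r ^ n ≤ C := fun n => hC ⟨n, rfl⟩
  refine Summable.of_nonneg_of_le
    (fun m => mul_nonneg (k1W_nonneg D m) (pow_nonneg (Real.exp_pos _).le _)) (fun m => ?_)
    (D.exp.mul_left (C / r))
  have h2 := hC' (m + 1)
  push_cast at h2
  have h3 : k1W p δ m * k1ro δ ^ m = p m * Real.exp (δ * m) * ((((m : ℝ) + 1) ^ 4) * r ^ m) := by
    unfold k1W k1ro
    rw [hr, ← Real.exp_nat_mul, ← Real.exp_nat_mul]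
    have : Real.exp (δ * m) * Real.exp (m * -(δ / 2)) =
        Real.exp (m * (δ / 4)) * Real.exp (m * (δ / 4)) := by
      rw [← Real.exp_add, ← Real.exp_add]; congr 1; ring
    linear_combination (-(p m * ((m : ℝ) + 1) ^ 4)) * this
  rw [h3]
  have h4 : ((m : ℝ) + 1) ^ 4 * r ^ m ≤ C / r := by
    rw [le_div_iff₀ hr0]
    calc ((m : ℝ) + 1) ^ 4 * r ^ m * r = ((m : ℝ) + 1) ^ 4 * r ^ (m + 1) := by ring
      _ ≤ C := h2
  calc p m * Real.exp (δ * m) * (((m : ℝ) + 1) ^ 4 * r ^ m)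
      ≤ p m * Real.exp (δ * m) * (C / r) :=
        mul_le_mul_of_nonneg_left h4 (mul_nonneg (D.pnn m) (Real.exp_pos _).le)
    _ = _ := by ring

theorem k1W_le (D : K1D p s F δ) (m : ℕ) : k1W p δ m ≤ k1W p δ m * k1ro δ ^ m :=
  le_mul_of_one_le_right (k1W_nonneg D m) (one_le_pow₀ D.ro_gt.le)

theorem K1D.summableW (D : K1D p s F δ) : Summable (k1W p δ) :=
  Summable.of_nonneg_of_le (k1W_nonneg D) (k1W_le D) D.summableM

theorem K1D.tsumW_le (D : K1D p s F δ) : ∑' m, k1W p δ m ≤ k1M p δ :=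
  D.summableW.tsum_le_tsum (k1W_le D) D.summableM

theorem K1D.M_pos (D : K1D p s F δ) : 0 < k1M p δ := by
  refine D.summableM.tsum_pos
    (fun m => mul_nonneg (k1W_nonneg D m) (pow_nonneg (Real.exp_pos _).le _)) 2 ?_
  have h1 := D.p2
  have h2 : 0 < k1ro δ := Real.exp_pos _
  unfold k1W
  positivity

/-- `p_m m^j w^m ≤ W_m` -/
theorem K1D.le_W (D : K1D p s F δ) {w : ℝ} (hw : 1 ≤ w) (hw' : w ≤ k1ro δ) {j : ℕ} (hj : j ≤ 4)
    (m : ℕ) : (m : ℝ) ^ j * p m * w ^ m ≤ k1W p δ m := by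
  have h1 : (m : ℝ) ^ j ≤ ((m : ℝ) + 1) ^ 4 := by
    calc (m : ℝ) ^ j ≤ ((m : ℝ) + 1) ^ j := by gcongr; linarith
      _ ≤ ((m : ℝ) + 1) ^ 4 := pow_le_pow_right₀ (by linarith [(Nat.cast_nonneg m : (0 : ℝ) ≤ m)]) hj
  have h2 : w ^ m ≤ k1ro δ ^ m := by gcongr
  have h3 := D.pnn m
  unfold k1W
  calc (m : ℝ) ^ j * p m * w ^ m ≤ ((m : ℝ) + 1) ^ 4 * p m * k1ro δ ^ m := by gcongr
    _ = _ := by ring

theorem K1D.le_W' (D : K1D p s F δ) {j : ℕ} (hj : j ≤ 4) (m : ℕ) :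
    (m : ℝ) ^ j * p m ≤ k1W p δ m := by
  have := D.le_W (w := 1) le_rfl D.ro_gt.le hj m
  simpa using this

theorem K1D.tail_term (D : K1D p s F δ) {B : ℝ} (hB : 0 ≤ B) (k n : ℕ) (hkn : k ≤ n) :
    B * k1W p δ n ≤ B * (k1ro δ)⁻¹ ^ k * (k1W p δ n * k1ro δ ^ n) := by
  have hro := D.ro_gt
  have hro0 : 0 < k1ro δ := by linarith
  have h4 : 1 ≤ (k1ro δ)⁻¹ ^ k * k1ro δ ^ n := by
    rw [inv_pow, ← div_eq_inv_mul, one_le_div (pow_pos hro0 k)]
    exact pow_le_pow_right₀ hro.le hkn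
  have h5 := mul_le_mul_of_nonneg_left h4 (mul_nonneg hB (k1W_nonneg D n))
  linarith

/-- tail estimate -/
theorem K1D.tail (D : K1D p s F δ) {g : ℕ → ℝ} {S B : ℝ} (hB : 0 ≤ B) (hg : HasSum g S)
    (hgB : ∀ m, |g m| ≤ B * k1W p δ m) (k : ℕ) :
    |S - ∑ m ∈ Finset.range (k + 1), g m| ≤ B * k1M p δ * (k1ro δ)⁻¹ ^ k := by
  have hro := D.ro_gt
  have hro0 : 0 < k1ro δ := by linarith
  obtain ⟨G, hG⟩ : ∃ G : ℕ → ℝ, G = fun m => k1W p δ m * k1ro δ ^ m := ⟨_, rfl⟩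
  have hGs : Summable G := hG ▸ D.summableM
  have hG0 : ∀ m, 0 ≤ G m := fun m => by
    rw [hG]; exact mul_nonneg (k1W_nonneg D m) (pow_nonneg hro0.le _)
  have hGM : ∑' m, G m = k1M p δ := by rw [hG]; rfl
  have h1 : S - ∑ m ∈ Finset.range (k + 1), g m = ∑' m, g (m + (k + 1)) := by
    have h := hg.summable.sum_add_tsum_nat_add (k + 1)
    rw [hg.tsum_eq] at h
    linarith
  have h2 : Summable fun m => G (m + (k + 1)) := (summable_nat_add_iff (k + 1)).2 hGs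
  have h3 : ∀ m, |g (m + (k + 1))| ≤ B * (k1ro δ)⁻¹ ^ k * G (m + (k + 1)) := by
    intro m
    rw [hG]
    exact (hgB _).trans (D.tail_term hB k (m + (k + 1)) (by omega))
  have h5 := k1_abs_tsum_le (h2.mul_left (B * (k1ro δ)⁻¹ ^ k)) h3
  have h6 : ∑' m, G (m + (k + 1)) ≤ k1M p δ := by
    have h := hGs.sum_add_tsum_nat_add (k + 1)
    have : 0 ≤ ∑ i ∈ Finset.range (k + 1), G i := Finset.sum_nonneg fun i _ => hG0 i
    linarith
  rw [h1]
  refine h5.trans ?_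
  rw [tsum_mul_left]
  have h7 := mul_le_mul_of_nonneg_left h6
    (mul_nonneg hB (pow_nonneg (inv_nonneg.2 hro0.le) k) : 0 ≤ B * (k1ro δ)⁻¹ ^ k)
  linarith

theorem K1D.summable_mp (D : K1D p s F δ) : Summable fun m : ℕ => (m : ℝ) * p m :=
  Summable.of_nonneg_of_le (fun m => mul_nonneg (Nat.cast_nonneg m) (D.pnn m))
    (fun m => by simpa using D.le_W' (j := 1) (by norm_num) m) D.summableW

theorem K1D.summable_s (D : K1D p s F δ) : Summable s :=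
  Summable.of_nonneg_of_le D.snn
    (fun m => (D.sle m).trans (D.le_W' (j := 2) (by norm_num) m)) D.summableW

theorem K1D.mu_pos (D : K1D p s F δ) : 0 < ∑' m : ℕ, (m : ℝ) * p m := by
  refine D.summable_mp.tsum_pos (fun m => mul_nonneg (Nat.cast_nonneg m) (D.pnn m)) 2 ?_
  have := D.p2
  positivity

theorem K1D.summable_F (D : K1D p s F δ) {w : ℝ} (hw : 1 ≤ w) (hw' : w ≤ k1ro δ) (θ : ℝ) :
    Summable fun m => F θ m * w ^ m := by
  refine Summable.of_norm_bounded D.summableW fun m => ?_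
  rw [Real.norm_eq_abs, abs_mul, abs_of_nonneg (pow_nonneg (by linarith : (0 : ℝ) ≤ w) m)]
  have h1 := D.le_W hw hw' (j := 0) (by norm_num) m
  rw [pow_zero, one_mul] at h1
  refine le_trans ?_ h1
  have := D.Fle θ m
  have h2 : (0 : ℝ) ≤ w ^ m := pow_nonneg (by linarith) m
  gcongr

/-- the tilt -/
theorem K1D.exists_w (D : K1D p s F δ) : ∃ θ₀ C : ℝ, 0 < θ₀ ∧ 0 < C ∧ ∀ θ, |θ| ≤ θ₀ →
    ∃ w, 1 ≤ w ∧ w ≤ 1 + C * θ ^ 2 ∧ w ≤ k1ro δ ∧ HasSum (fun m => F θ m * w ^ m) 1 := by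
  set μ := ∑' m : ℕ, (m : ℝ) * p m with hμ
  have hμ0 : 0 < μ := D.mu_pos
  have hM := D.M_pos
  set C := k1M p δ / μ with hC
  have hC0 : 0 < C := div_pos hM hμ0
  have hro := D.ro_gt
  refine ⟨min 1 ((k1ro δ - 1) / C), C, lt_min one_pos (div_pos (by linarith) hC0), hC0,
    fun θ hθ => ?_⟩
  have hθ1 : |θ| ≤ 1 := hθ.trans (min_le_left _ _)
  have hθ2 : |θ| ≤ (k1ro δ - 1) / C := hθ.trans (min_le_right _ _)
  have hθsq : θ ^ 2 ≤ |θ| := by
    rw [← sq_abs]; nlinarith [abs_nonneg θ]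
  have hθC : C * θ ^ 2 ≤ k1ro δ - 1 := by
    rw [le_div_iff₀ hC0] at hθ2
    nlinarith
  set w₁ := 1 + C * θ ^ 2 with hw₁
  have hw1 : 1 ≤ w₁ := by rw [hw₁]; nlinarith [sq_nonneg θ]
  have hw1' : w₁ ≤ k1ro δ := by rw [hw₁]; linarith
  have hcont : ContinuousOn (fun w : ℝ => ∑' m, F θ m * w ^ m) (Set.Icc 1 w₁) := by
    refine continuousOn_tsum (u := k1W p δ) (fun m => by fun_prop) D.summableW fun m w hw => ?_
    have h1 := D.le_W hw.1 (hw.2.trans hw1') (j := 0) (by norm_num) m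
    rw [pow_zero, one_mul] at h1
    rw [Real.norm_eq_abs, abs_mul,
      abs_of_nonneg (pow_nonneg (by linarith [hw.1] : (0 : ℝ) ≤ w) m)]
    refine le_trans ?_ h1
    have := D.Fle θ m
    have h2 : (0 : ℝ) ≤ w ^ m := pow_nonneg (by linarith [hw.1]) m
    gcongr
  have hlow : ∑' m, F θ m * (1 : ℝ) ^ m ≤ 1 := by
    refine le_trans ((D.summable_F le_rfl hro.le θ).tsum_le_tsum (fun m => ?_) D.tot.summable)
      D.tot.tsum_eq.le
    rw [one_pow, mul_one]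
    exact (le_abs_self _).trans (D.Fle θ m)
  have hhigh : 1 ≤ ∑' m, F θ m * w₁ ^ m := by
    have h1 : ∀ m : ℕ, p m + (w₁ - 1) * ((m : ℝ) * p m) - θ ^ 2 * k1W p δ m ≤ F θ m * w₁ ^ m := by
      intro m
      have h2 := (abs_le.1 (D.Fd1 θ m)).1
      have h3 := one_add_mul_le_pow (show (-2 : ℝ) ≤ w₁ - 1 by linarith) m
      have h4 : (1 + (w₁ - 1)) ^ m = w₁ ^ m := by congr 1; ring
      rw [h4] at h3
      have h5 := D.le_W hw1 hw1' (j := 2) (by norm_num) m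
      have h6 : (0 : ℝ) ≤ w₁ ^ m := pow_nonneg (by linarith) m
      have h7 : (p m - θ ^ 2 * (m : ℝ) ^ 2 * p m) * w₁ ^ m ≤ F θ m * w₁ ^ m :=
        mul_le_mul_of_nonneg_right (by linarith) h6
      have h8 : p m * (1 + m * (w₁ - 1)) ≤ p m * w₁ ^ m :=
        mul_le_mul_of_nonneg_left h3 (D.pnn m)
      have h9 : θ ^ 2 * ((m : ℝ) ^ 2 * p m * w₁ ^ m) ≤ θ ^ 2 * k1W p δ m :=
        mul_le_mul_of_nonneg_left h5 (sq_nonneg _)
      nlinarith
    have h10 : Summable fun m : ℕ => p m + (w₁ - 1) * ((m : ℝ) * p m) - θ ^ 2 * k1W p δ m :=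
      (D.tot.summable.add (D.summable_mp.mul_left _)).sub (D.summableW.mul_left _)
    have h11 := h10.tsum_le_tsum h1 (D.summable_F hw1 hw1' θ)
    refine le_trans ?_ h11
    rw [(D.tot.summable.add (D.summable_mp.mul_left _)).tsum_sub (D.summableW.mul_left _),
      D.tot.summable.tsum_add (D.summable_mp.mul_left _), tsum_mul_left, tsum_mul_left,
      D.tot.tsum_eq, ← hμ]
    have h12 : (w₁ - 1) * μ = θ ^ 2 * k1M p δ := by
      rw [hw₁, hC]; field_simp; ring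
    have h13 := mul_le_mul_of_nonneg_left D.tsumW_le (sq_nonneg θ)
    linarith
  obtain ⟨w, hw, hw2⟩ := intermediate_value_Icc hw1 hcont ⟨hlow, hhigh⟩
  refine ⟨w, hw.1, hw.2, hw.2.trans hw1', ?_⟩
  have h1 := (D.summable_F hw.1 (hw.2.trans hw1') θ).hasSum
  simp only at hw2
  rwa [hw2] at h1

theorem K1D.Ft_sub (D : K1D p s F δ) {θ C w : ℝ} (hC : 0 ≤ C) (hw : 1 ≤ w)
    (hwC : w ≤ 1 + C * θ ^ 2) (hw' : w ≤ k1ro δ) (m : ℕ) :
    |F θ m * w ^ m - p m| ≤ (C + 1) * θ ^ 2 * k1W p δ m := by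
  have h1 : F θ m * w ^ m - p m = F θ m * (w ^ m - 1) + (F θ m - p m) := by ring
  have h2 := k1_pow_sub_one hw m
  have h3 : (1 : ℝ) ≤ w ^ m := one_le_pow₀ hw
  have h4 : |F θ m * (w ^ m - 1)| ≤ C * θ ^ 2 * k1W p δ m := by
    rw [abs_mul, abs_of_nonneg (by linarith : (0 : ℝ) ≤ w ^ m - 1)]
    calc |F θ m| * (w ^ m - 1) ≤ p m * (m * (w - 1) * w ^ m) :=
          mul_le_mul (D.Fle θ m) h2 (by linarith) (D.pnn m)
      _ = (w - 1) * ((m : ℝ) ^ 1 * p m * w ^ m) := by ring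
      _ ≤ (C * θ ^ 2) * k1W p δ m :=
          mul_le_mul (by linarith) (D.le_W hw hw' (by norm_num) m)
            (by have := D.pnn m; positivity) (by positivity)
  have h5 : |F θ m - p m| ≤ θ ^ 2 * k1W p δ m := by
    refine (D.Fd1 θ m).trans ?_
    have := D.le_W' (j := 2) (by norm_num) m
    calc θ ^ 2 * (m : ℝ) ^ 2 * p m = θ ^ 2 * ((m : ℝ) ^ 2 * p m) := by ring
      _ ≤ _ := mul_le_mul_of_nonneg_left this (sq_nonneg _)
  rw [h1]
  refine (abs_add_le _ _).trans ?_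
  linarith

/-- expansion of the tilt -/
theorem K1D.w_expand (D : K1D p s F δ) {θ C w : ℝ} (hC : 0 ≤ C) (hw : 1 ≤ w)
    (hwC : w ≤ 1 + C * θ ^ 2) (hw' : w ≤ k1ro δ) (hs : HasSum (fun m => F θ m * w ^ m) 1) :
    |(∑' m : ℕ, (m : ℝ) * p m) * (w - 1) - θ ^ 2 * (∑' m, s m) / 2| ≤
      (3 + C + C ^ 2) * k1M p δ * θ ^ 4 := by
  have h1 : HasSum (fun m => (F θ m * w ^ m - p m) -
      ((m : ℝ) * p m * (w - 1) - θ ^ 2 * s m / 2)) ((1 - 1) -
      ((∑' m : ℕ, (m : ℝ) * p m) * (w - 1) - θ ^ 2 * (∑' m, s m) / 2)) := by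
    refine (hs.sub D.tot).sub ((D.summable_mp.hasSum.mul_right _).sub ?_)
    exact (D.summable_s.hasSum.mul_left _).div_const _
  have h2 : ∀ m, |(F θ m * w ^ m - p m) - ((m : ℝ) * p m * (w - 1) - θ ^ 2 * s m / 2)| ≤
      (3 + C + C ^ 2) * θ ^ 4 * k1W p δ m := by
    intro m
    have h3 : (F θ m * w ^ m - p m) - ((m : ℝ) * p m * (w - 1) - θ ^ 2 * s m / 2) =
        (F θ m - p m + θ ^ 2 * s m / 2) + ((F θ m - p m) * (w ^ m - 1) +
          p m * (w ^ m - 1 - m * (w - 1))) := by ring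
    have h4 : |F θ m - p m + θ ^ 2 * s m / 2| ≤ 3 * θ ^ 4 * k1W p δ m := by
      refine (D.Fd2 θ m).trans ?_
      have := D.le_W' (j := 4) (by norm_num) m
      calc 3 * θ ^ 4 * (m : ℝ) ^ 4 * p m = 3 * θ ^ 4 * ((m : ℝ) ^ 4 * p m) := by ring
        _ ≤ _ := mul_le_mul_of_nonneg_left this (by positivity)
    have h5 : |(F θ m - p m) * (w ^ m - 1)| ≤ C * θ ^ 4 * k1W p δ m := by
      have h6 := k1_pow_sub_one hw m
      have h7 : (1 : ℝ) ≤ w ^ m := one_le_pow₀ hw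
      rw [abs_mul, abs_of_nonneg (by linarith : (0 : ℝ) ≤ w ^ m - 1)]
      calc |F θ m - p m| * (w ^ m - 1) ≤ (θ ^ 2 * (m : ℝ) ^ 2 * p m) * (m * (w - 1) * w ^ m) :=
            mul_le_mul (D.Fd1 θ m) h6 (by linarith) (by have := D.pnn m; positivity)
        _ = θ ^ 2 * (w - 1) * ((m : ℝ) ^ 3 * p m * w ^ m) := by ring
        _ ≤ θ ^ 2 * (C * θ ^ 2) * k1W p δ m := by
            refine mul_le_mul (mul_le_mul_of_nonneg_left (by linarith) (sq_nonneg _))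
              (D.le_W hw hw' (by norm_num) m) (by have := D.pnn m; positivity) (by positivity)
        _ = _ := by ring
    have h8 : |p m * (w ^ m - 1 - m * (w - 1))| ≤ C ^ 2 * θ ^ 4 * k1W p δ m := by
      rw [abs_mul, abs_of_nonneg (D.pnn m)]
      have h9 : (w - 1) ^ 2 ≤ (C * θ ^ 2) ^ 2 := by
        have : w - 1 ≤ C * θ ^ 2 := by linarith
        exact pow_le_pow_left₀ (by linarith) this 2
      calc p m * |w ^ m - 1 - m * (w - 1)| ≤ p m * ((m : ℝ) ^ 2 * (w - 1) ^ 2 * w ^ m) :=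
            mul_le_mul_of_nonneg_left (k1_pow_sub_one_sub hw m) (D.pnn m)
        _ = (w - 1) ^ 2 * ((m : ℝ) ^ 2 * p m * w ^ m) := by ring
        _ ≤ (C * θ ^ 2) ^ 2 * k1W p δ m :=
            mul_le_mul h9 (D.le_W hw hw' (by norm_num) m) (by have := D.pnn m; positivity)
              (by positivity)
        _ = _ := by ring
    rw [h3]
    refine (abs_add_le _ _).trans ?_
    have h10 := abs_add_le ((F θ m - p m) * (w ^ m - 1)) (p m * (w ^ m - 1 - m * (w - 1)))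
    nlinarith
  have h11 := h1.tsum_eq
  have h12 : |∑' m, ((F θ m * w ^ m - p m) - ((m : ℝ) * p m * (w - 1) - θ ^ 2 * s m / 2))| ≤
      ∑' m, (3 + C + C ^ 2) * θ ^ 4 * k1W p δ m :=
    k1_abs_tsum_le (D.summableW.mul_left _) h2
  rw [h11, tsum_mul_left, sub_self, zero_sub, abs_neg] at h12
  refine h12.trans ?_
  calc (3 + C + C ^ 2) * θ ^ 4 * ∑' m, k1W p δ m ≤ (3 + C + C ^ 2) * θ ^ 4 * k1M p δ :=
        mul_le_mul_of_nonneg_left D.tsumW_le (by positivity)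
    _ = _ := by ring

end

end Pool.Agent.SAPX
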