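import Mathlib

/-!
Inverse power series with exponentially decaying coefficients; exponential renewal theorem.
-/

namespace Pool.Agent.SAPX

open Filter Topology

namespace Wiener

/-- the sum of a power series with real coefficients at a complex point -/
noncomputable def E (a : ℕ → ℝ) (z : ℂ) : ℂ := ∑' k, (a k : ℂ) * z ^ k

/-- Cauchy product -/
def conv (a b : ℕ → ℝ) (n : ℕ) : ℝ := ∑ i ∈ Finset.range (n + 1), a i * b (n - i)

lemma norm_term (a : ℕ → ℝ) (z : ℂ) (k : ℕ) : ‖(a k : ℂ) * z ^ k‖ = |a k| * ‖z‖ ^ k := by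
  rw [norm_mul, norm_pow, Complex.norm_real, Real.norm_eq_abs]

lemma summable_norm_term {a : ℕ → ℝ} {z : ℂ} (h : Summable (fun k => |a k| * ‖z‖ ^ k)) :
    Summable (fun k => ‖(a k : ℂ) * z ^ k‖) := by
  simpa only [norm_term] using h

lemma summable_of_le {a : ℕ → ℝ} {R : ℝ} (ha : Summable (fun k => |a k| * R ^ k)) {ρ : ℝ}
    (h0 : 0 ≤ ρ) (hρ : ρ ≤ R) : Summable (fun k => |a k| * ρ ^ k) := by
  refine Summable.of_nonneg_of_le (fun k => by positivity) (fun k => ?_) ha
  exact mul_le_mul_of_nonneg_left (pow_le_pow_left₀ h0 hρ k) (abs_nonneg _)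

lemma continuousOn_E {a : ℕ → ℝ} {R : ℝ} (ha : Summable (fun k => |a k| * R ^ k)) :
    ContinuousOn (E a) (Metric.closedBall 0 R) := by
  unfold E
  refine continuousOn_tsum (u := fun k => |a k| * R ^ k) (fun k => by fun_prop) ha
    fun k z hz => ?_
  rw [norm_term]
  rw [mem_closedBall_zero_iff] at hz
  exact mul_le_mul_of_nonneg_left (pow_le_pow_left₀ (norm_nonneg _) hz k) (abs_nonneg _)

lemma differentiableOn_E {a : ℕ → ℝ} {R : ℝ} (ha : Summable (fun k => |a k| * R ^ k)) :
    DifferentiableOn ℂ (E a) (Metric.ball 0 R) := by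
  unfold E
  refine Complex.differentiableOn_tsum_of_summable_norm (u := fun k => |a k| * R ^ k) ha
    (fun k => by fun_prop) Metric.isOpen_ball fun k z hz => ?_
  rw [norm_term]
  rw [mem_ball_zero_iff] at hz
  exact mul_le_mul_of_nonneg_left (pow_le_pow_left₀ (norm_nonneg _) hz.le k) (abs_nonneg _)

lemma E_mul {a b : ℕ → ℝ} {z : ℂ} (ha : Summable (fun k => |a k| * ‖z‖ ^ k))
    (hb : Summable (fun k => |b k| * ‖z‖ ^ k)) : E a z * E b z = E (conv a b) z := by
  unfold E conv
  rw [tsum_mul_tsum_eq_tsum_sum_range_of_summable_norm (summable_norm_term ha)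
    (summable_norm_term hb)]
  refine tsum_congr fun n => ?_
  push_cast
  rw [Finset.sum_mul]
  refine Finset.sum_congr rfl fun i hi => ?_
  have : z ^ n = z ^ i * z ^ (n - i) := by
    rw [← pow_add]
    congr 1
    have := Finset.mem_range.1 hi
    omega
  rw [this]
  ring

/-- a power series which does not vanish on the closed unit disc is bounded below on a larger
disc -/
lemma exists_ball {a : ℕ → ℝ} {R : ℝ} (hR : 1 < R) (ha : Summable (fun k => |a k| * R ^ k))
    (hz : ∀ z : ℂ, ‖z‖ ≤ 1 → E a z ≠ 0) :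
    ∃ R' q, 1 < R' ∧ R' ≤ R ∧ 0 < q ∧ ∀ z : ℂ, ‖z‖ ≤ R' → q ≤ ‖E a z‖ := by
  have hc := continuousOn_E ha
  have hU : IsOpen (Metric.ball (0 : ℂ) R ∩ E a ⁻¹' {0}ᶜ) :=
    (hc.mono Metric.ball_subset_closedBall).isOpen_inter_preimage Metric.isOpen_ball
      isOpen_compl_singleton
  have hK : Metric.closedBall (0 : ℂ) 1 ⊆ Metric.ball (0 : ℂ) R ∩ E a ⁻¹' {0}ᶜ := by
    intro z h
    rw [mem_closedBall_zero_iff] at h
    exact ⟨by rw [mem_ball_zero_iff]; linarith, hz z h⟩
  obtain ⟨δ, hδ, hsub⟩ := (isCompact_closedBall (0 : ℂ) 1).exists_cthickening_subset_open hU hK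
  rw [cthickening_closedBall hδ.le zero_le_one] at hsub
  have hne : (Metric.closedBall (0 : ℂ) (δ + 1)).Nonempty :=
    ⟨0, Metric.mem_closedBall_self (by linarith)⟩
  have hc' : ContinuousOn (fun z => ‖E a z‖) (Metric.closedBall (0 : ℂ) (δ + 1)) :=
    (hc.mono (hsub.trans (Set.inter_subset_left.trans Metric.ball_subset_closedBall))).norm
  obtain ⟨z0, hz0, hmin⟩ := (isCompact_closedBall (0 : ℂ) (δ + 1)).exists_isMinOn hne hc'
  refine ⟨δ + 1, ‖E a z0‖, by linarith, ?_, ?_, ?_⟩
  · have h1 : ((δ + 1 : ℝ) : ℂ) ∈ Metric.closedBall (0 : ℂ) (δ + 1) := by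
      rw [mem_closedBall_zero_iff, Complex.norm_real, Real.norm_eq_abs, abs_of_pos (by linarith)]
    have h2 := (hsub h1).1
    rw [mem_ball_zero_iff, Complex.norm_real, Real.norm_eq_abs, abs_of_pos (by linarith)] at h2
    exact h2.le
  · exact norm_pos_iff.2 (hsub hz0).2
  · intro z h
    exact hmin (by rwa [mem_closedBall_zero_iff])

/-- uniqueness: a power series which is `1` near zero -/
lemma coeff_of_eq_one {c : ℕ → ℂ} {R : ℝ} (hR : 0 < R)
    (h : ∀ z : ℂ, ‖z‖ < R → HasSum (fun n => z ^ n * c n) 1) (n : ℕ) :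
    c n = if n = 0 then 1 else 0 := by
  set d : ℕ → ℂ := fun n => if n = 0 then 1 else 0 with hd
  have h1 : HasFPowerSeriesAt (fun _ : ℂ => (1 : ℂ)) (FormalMultilinearSeries.ofScalars ℂ c) 0 := by
    rw [hasFPowerSeriesAt_iff]
    filter_upwards [Metric.ball_mem_nhds (0 : ℂ) hR] with z hz
    rw [mem_ball_zero_iff] at hz
    simpa [FormalMultilinearSeries.coeff_ofScalars] using h z hz
  have h2 : HasFPowerSeriesAt (fun _ : ℂ => (1 : ℂ)) (FormalMultilinearSeries.ofScalars ℂ d) 0 := by
    rw [hasFPowerSeriesAt_iff]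
    refine Eventually.of_forall fun z => ?_
    have := hasSum_single (f := fun n => z ^ n • (FormalMultilinearSeries.ofScalars ℂ d).coeff n) 0
      (by intro b hb; simp [FormalMultilinearSeries.coeff_ofScalars, hd, hb])
    simpa [FormalMultilinearSeries.coeff_ofScalars, hd] using this
  have h3 := h1.eq_formalMultilinearSeries h2
  have h4 := congrArg (fun p => p.coeff n) h3
  simpa only [FormalMultilinearSeries.coeff_ofScalars] using h4

end Wiener

open Wiener

/-- Cauchy estimate for the inverse of a power series -/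
theorem inv_coeff {a h : ℕ → ℝ} {R q : ℝ} (hR : 0 < R) (hq : 0 < q)
    (ha : Summable (fun k => |a k| * R ^ k))
    (hz : ∀ z : ℂ, ‖z‖ ≤ R → q ≤ ‖∑' k, (a k : ℂ) * z ^ k‖)
    (hh : ∀ n, ∑ i ∈ Finset.range (n + 1), a i * h (n - i) = if n = 0 then 1 else 0) (n : ℕ) :
    |h n| ≤ (1 / q) * R⁻¹ ^ n := by
  have hz' : ∀ z : ℂ, ‖z‖ ≤ R → q ≤ ‖E a z‖ := hz
  have hne : ∀ z : ℂ, ‖z‖ ≤ R → E a z ≠ 0 := fun z h0 h1 => by
    have := hz' z h0
    rw [h1, norm_zero] at this
    linarith
  set G : ℂ → ℂ := fun z => (E a z)⁻¹ with hG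
  have hA : DiffContOnCl ℂ (E a) (Metric.ball 0 R) := by
    refine ⟨differentiableOn_E ha, ?_⟩
    rw [closure_ball (0 : ℂ) hR.ne']
    exact continuousOn_E ha
  have hGd : DiffContOnCl ℂ G (Metric.ball 0 R) := by
    refine hA.inv fun z hzz => hne z ?_
    rw [closure_ball (0 : ℂ) hR.ne', mem_closedBall_zero_iff] at hzz
    exact hzz
  lift R to NNReal using hR.le
  have hR0 : 0 < R := by exact_mod_cast hR
  have hps := hGd.hasFPowerSeriesOnBall hR0
  set g : ℕ → ℂ := fun n => (cauchyPowerSeries G 0 R).coeff n with hg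
  have hsum : ∀ z : ℂ, ‖z‖ < R → HasSum (fun n => z ^ n * g n) (G z) := by
    intro z hzR
    have hzb : z ∈ Metric.eball (0 : ℂ) R := by
      rw [Metric.mem_eball, edist_zero_right]
      rw [enorm_eq_nnnorm]
      exact_mod_cast hzR
    have := hps.hasSum hzb
    rw [zero_add] at this
    simpa [FormalMultilinearSeries.apply_eq_pow_smul_coeff] using this
  have hgb : ∀ k, ‖g k‖ ≤ (1 / q) * (R : ℝ)⁻¹ ^ k := by
    intro k
    have h1 : ‖g k‖ = ‖cauchyPowerSeries G 0 R k‖ :=
      (FormalMultilinearSeries.norm_apply_eq_norm_coef).symm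
    rw [h1]
    refine (norm_cauchyPowerSeries_le G 0 R k).trans ?_
    rw [abs_of_pos hR]
    refine mul_le_mul_of_nonneg_right ?_ (by positivity)
    have h2 : ∫ θ : ℝ in (0)..2 * Real.pi, ‖G (circleMap 0 R θ)‖ ≤
        ∫ θ : ℝ in (0)..2 * Real.pi, (1 / q) := by
      have hcont : Continuous fun θ : ℝ => ‖G (circleMap 0 R θ)‖ := by
        have hc1 : ContinuousOn G (Metric.closedBall 0 R) := by
          have := hGd.continuousOn
          rwa [closure_ball (0 : ℂ) hR.ne'] at this
        refine (hc1.comp_continuous (continuous_circleMap 0 R) fun θ => ?_).norm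
        rw [mem_closedBall_zero_iff, norm_circleMap_zero, abs_of_pos hR]
      refine intervalIntegral.integral_mono_on (by positivity) (hcont.intervalIntegrable _ _)
        (continuous_const.intervalIntegrable _ _) fun θ _ => ?_
      rw [hG]
      simp only [norm_inv]
      rw [one_div]
      refine inv_anti₀ hq (hz' _ ?_)
      rw [norm_circleMap_zero, abs_of_pos hR]
    calc (2 * Real.pi)⁻¹ * ∫ θ : ℝ in (0)..2 * Real.pi, ‖G (circleMap 0 R θ)‖
        ≤ (2 * Real.pi)⁻¹ * ∫ θ : ℝ in (0)..2 * Real.pi, (1 / q) :=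
          mul_le_mul_of_nonneg_left h2 (by positivity)
      _ = 1 / q := by
          rw [intervalIntegral.integral_const, smul_eq_mul, sub_zero]
          have := Real.pi_pos
          field_simp
  -- the product of the two series
  have hprod : ∀ m, ∑ i ∈ Finset.range (m + 1), (a i : ℂ) * g (m - i) = if m = 0 then 1 else 0 := by
    refine coeff_of_eq_one hR fun z hzR => ?_
    have ha1 : Summable (fun k => ‖(a k : ℂ) * z ^ k‖) :=
      summable_norm_term (summable_of_le ha (norm_nonneg z) hzR.le)
    have hg1 : Summable (fun k => ‖g k * z ^ k‖) := by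
      refine Summable.of_nonneg_of_le (fun k => norm_nonneg _) (fun k => ?_)
        ((summable_geometric_of_lt_one (r := (R : ℝ)⁻¹ * ‖z‖) (by positivity) ?_).mul_left (1 / q))
      · rw [norm_mul, norm_pow, mul_pow, ← mul_assoc]
        exact mul_le_mul_of_nonneg_right (hgb k) (by positivity)
      · rw [inv_mul_lt_iff₀ hR, mul_one]
        exact hzR
    have h1 := (summable_norm_sum_mul_range_of_summable_norm ha1 hg1).of_norm.hasSum
    rw [← tsum_mul_tsum_eq_tsum_sum_range_of_summable_norm ha1 hg1] at h1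
    have h2 : (∑' k, g k * z ^ k) = G z := by
      rw [← (hsum z hzR).tsum_eq]
      exact tsum_congr fun k => mul_comm _ _
    have h3 : (∑' k, (a k : ℂ) * z ^ k) * ∑' k, g k * z ^ k = 1 := by
      rw [h2]
      exact mul_inv_cancel₀ (hne z hzR.le)
    rw [h3] at h1
    have h5 : (fun m => z ^ m * ∑ i ∈ Finset.range (m + 1), (a i : ℂ) * g (m - i)) =
        fun m => ∑ k ∈ Finset.range (m + 1), (a k : ℂ) * z ^ k * (g (m - k) * z ^ (m - k)) := by
      funext m
      rw [Finset.mul_sum]
      refine Finset.sum_congr rfl fun i hi => ?_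
      have h4 : z ^ m = z ^ i * z ^ (m - i) := by
        rw [← pow_add]
        congr 1
        have := Finset.mem_range.1 hi
        omega
      rw [h4]
      ring
    rw [h5]
    exact h1
  have ha0 : (a 0 : ℂ) ≠ 0 := by
    intro h0
    have := hprod 0
    simp [h0] at this
  have hhg : ∀ m, ((h m : ℝ) : ℂ) = g m := by
    intro m
    induction m using Nat.strong_induction_on with
    | _ m ih =>
      have h1 := hprod m
      have h2 := congrArg (fun x : ℝ => (x : ℂ)) (hh m)
      simp only [Complex.ofReal_sum, Complex.ofReal_mul] at h2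
      have h3 : ((if m = 0 then (1 : ℝ) else 0 : ℝ) : ℂ) = if m = 0 then 1 else 0 := by
        split_ifs <;> simp
      rw [h3, ← h1, Finset.sum_range_succ', Finset.sum_range_succ' (fun i => (a i : ℂ) * g (m - i))]
        at h2
      have h4 : ∑ k ∈ Finset.range m, (a (k + 1) : ℂ) * (h (m - (k + 1)) : ℂ) =
          ∑ k ∈ Finset.range m, (a (k + 1) : ℂ) * g (m - (k + 1)) := by
        refine Finset.sum_congr rfl fun k hk => ?_
        rw [ih (m - (k + 1)) (by have := Finset.mem_range.1 hk; omega)]
      rw [h4] at h2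
      have h5 := add_left_cancel h2
      simpa using mul_left_cancel₀ ha0 h5
  have h1 := hgb n
  rw [← hhg n, Complex.norm_real, Real.norm_eq_abs] at h1
  exact h1

/-! ### the exponential renewal theorem -/

namespace Wiener

lemma conv_comm (a b : ℕ → ℝ) (n : ℕ) : conv a b n = conv b a n := by
  unfold conv
  rw [← Finset.sum_range_reflect]
  refine Finset.sum_congr rfl fun i hi => ?_
  have := Finset.mem_range.1 hi
  rw [show n + 1 - 1 - i = n - i by omega, show n - (n - i) = i by omega, mul_comm]

/-- difference sequence -/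
def dif (v : ℕ → ℝ) (n : ℕ) : ℝ := if n = 0 then v 0 else v n - v (n - 1)

lemma dif_succ (v : ℕ → ℝ) (n : ℕ) : dif v (n + 1) = v (n + 1) - v n := by
  simp [dif]

lemma sum_dif (v : ℕ → ℝ) (n : ℕ) : ∑ k ∈ Finset.range (n + 1), dif v k = v n := by
  induction n with
  | zero => simp [dif]
  | succ n ih => rw [Finset.sum_range_succ, ih, dif_succ]; ring

/-- `T * dif v = dif (T * v)` -/
lemma conv_dif (T v : ℕ → ℝ) (n : ℕ) : conv T (dif v) n = dif (conv T v) n := by
  cases n with
  | zero => simp [conv, dif]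
  | succ n =>
    rw [dif_succ]
    unfold conv
    rw [Finset.sum_range_succ, Finset.sum_range_succ (fun i => T i * v (n + 1 - i)),
      show ∀ A B C : ℝ, A + B - C = (A - C) + B by intros; ring, ← Finset.sum_sub_distrib]
    congr 1
    · refine Finset.sum_congr rfl fun i hi => ?_
      have := Finset.mem_range.1 hi
      rw [show n + 1 - i = (n - i) + 1 by omega, dif_succ]
      ring
    · simp [dif]

/-- the renewal equation, reflected -/
lemma renewal_succ {f v : ℕ → ℝ}
    (hv : ∀ n, 1 ≤ n → v n = ∑ i ∈ Finset.range n, v i * f (n - i)) (n : ℕ) :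
    v (n + 1) = ∑ i ∈ Finset.range (n + 1), f (i + 1) * v (n - i) := by
  rw [hv (n + 1) (by omega), ← Finset.sum_range_reflect]
  refine Finset.sum_congr rfl fun i hi => ?_
  have := Finset.mem_range.1 hi
  rw [show n + 1 - 1 - i = n - i by omega, show n + 1 - (n - i) = i + 1 by omega, mul_comm]

/-- the renewal identity for the tails -/
lemma conv_tail {f v : ℕ → ℝ} (h0 : f 0 = 0) (hv0 : v 0 = 1)
    (hv : ∀ n, 1 ≤ n → v n = ∑ i ∈ Finset.range n, v i * f (n - i)) (n : ℕ) :
    conv (fun k => 1 - ∑ i ∈ Finset.range (k + 1), f i) v n = 1 := by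
  set T : ℕ → ℝ := fun k => 1 - ∑ i ∈ Finset.range (k + 1), f i with hT
  have hT0 : T 0 = 1 := by simp [hT, h0]
  have hTs : ∀ k, T (k + 1) = T k - f (k + 1) := by
    intro k
    simp only [hT]
    rw [Finset.sum_range_succ (fun i => f i) (k + 1)]
    ring
  induction n with
  | zero => simp [conv, hT0, hv0]
  | succ n ih =>
    have e1 : conv T v (n + 1) = v (n + 1) + ∑ i ∈ Finset.range (n + 1), T (i + 1) * v (n - i) := by
      unfold conv
      rw [Finset.sum_range_succ', hT0, one_mul, Nat.sub_zero, add_comm]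
      congr 1
      refine Finset.sum_congr rfl fun i _ => ?_
      rw [show n + 1 - (i + 1) = n - i by omega]
    have e3 : ∑ i ∈ Finset.range (n + 1), T (i + 1) * v (n - i) =
        conv T v n - v (n + 1) := by
      rw [renewal_succ hv]
      unfold conv
      rw [← Finset.sum_sub_distrib]
      refine Finset.sum_congr rfl fun i _ => ?_
      rw [hTs]
      ring
    rw [e1, e3, ih]
    ring

/-- the renewal equation as a convolution identity -/
lemma conv_delta {f v : ℕ → ℝ} (h0 : f 0 = 0) (hv0 : v 0 = 1)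
    (hv : ∀ n, 1 ≤ n → v n = ∑ i ∈ Finset.range n, v i * f (n - i)) (n : ℕ) :
    conv (fun k => (if k = 0 then 1 else 0) - f k) v n = if n = 0 then 1 else 0 := by
  cases n with
  | zero => simp [conv, h0, hv0]
  | succ n =>
    unfold conv
    rw [Finset.sum_range_succ']
    have h2 : ∑ k ∈ Finset.range (n + 1), ((if k + 1 = 0 then (1 : ℝ) else 0) - f (k + 1)) *
        v (n + 1 - (k + 1)) = - v (n + 1) := by
      rw [renewal_succ hv, ← Finset.sum_neg_distrib]
      refine Finset.sum_congr rfl fun i _ => ?_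
      rw [show n + 1 - (i + 1) = n - i by omega]
      simp
    rw [h2]
    simp [h0]

/-- the zeros of `1 - F` in the closed unit disc -/
lemma eq_one_of_sum {f : ℕ → ℝ} (hf : ∀ n, 0 ≤ f n) (h1 : 0 < f 1)
    (hs : HasSum f 1) {z : ℂ} (hz : ‖z‖ ≤ 1) (h : E f z = 1) : z = 1 := by
  have hb : ∀ n, ((f n : ℂ) * z ^ n).re ≤ f n := by
    intro n
    refine (Complex.re_le_norm _).trans ?_
    rw [norm_term, abs_of_nonneg (hf n)]
    exact mul_le_of_le_one_right (hf n) (pow_le_one₀ (norm_nonneg _) hz)
  have hsn : Summable (fun n => (f n : ℂ) * z ^ n) := by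
    refine Summable.of_norm (Summable.of_nonneg_of_le (fun n => norm_nonneg _) (fun n => ?_)
      hs.summable)
    rw [norm_term, abs_of_nonneg (hf n)]
    exact mul_le_of_le_one_right (hf n) (pow_le_one₀ (norm_nonneg _) hz)
  have h2 : HasSum (fun n => ((f n : ℂ) * z ^ n).re) 1 := by
    have := Complex.hasSum_re hsn.hasSum
    rw [show (∑' n, (f n : ℂ) * z ^ n) = 1 from h] at this
    simpa using this
  have h3 : HasSum (fun n => f n - ((f n : ℂ) * z ^ n).re) 0 := by
    simpa using hs.sub h2
  have h4 := (hasSum_zero_iff_of_nonneg (fun n => sub_nonneg.2 (hb n))).1 h3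
  have h5 := congrFun h4 1
  simp only [pow_one, Pi.zero_apply, Complex.mul_re, Complex.ofReal_re, Complex.ofReal_im,
    zero_mul, sub_zero] at h5
  have h6 : z.re = 1 := by
    have : f 1 * (1 - z.re) = 0 := by linarith
    rcases mul_eq_zero.1 this with h7 | h7
    · linarith
    · linarith
  have h7 : z.im = 0 := by
    have h8 : z.re ^ 2 + z.im ^ 2 ≤ 1 := by
      have h9 := Complex.sq_norm z
      rw [Complex.normSq_apply] at h9
      nlinarith [norm_nonneg z]
    rw [h6] at h8
    nlinarith [sq_nonneg z.im]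
  exact Complex.ext (by simpa using h6) (by simpa using h7)

end Wiener

/-- exponential renewal theorem -/
theorem exp_renewal {f v : ℕ → ℝ} (hf : ∀ n, 0 ≤ f n) (h0 : f 0 = 0) (h1 : 0 < f 1)
    (hs : HasSum f 1) {R : ℝ} (hR : 1 < R) (ht : Summable (fun n => f n * R ^ n))
    (hv0 : v 0 = 1) (hv : ∀ n, 1 ≤ n → v n = ∑ i ∈ Finset.range n, v i * f (n - i)) :
    ∃ K r, 0 < K ∧ 0 < r ∧ r < 1 ∧ ∀ n, |v n - 1 / ∑' k : ℕ, (k : ℝ) * f k| ≤ K * r ^ n := by
  have hR0 : 0 < R := by linarith
  -- tails
  set T : ℕ → ℝ := fun k => 1 - ∑ i ∈ Finset.range (k + 1), f i with hT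
  have hT0 : T 0 = 1 := by simp [hT, h0]
  have hTs : ∀ k, T (k + 1) = T k - f (k + 1) := by
    intro k
    simp only [hT]
    rw [Finset.sum_range_succ (fun i => f i) (k + 1)]
    ring
  have hTnn : ∀ k, 0 ≤ T k := by
    intro k
    have := sum_le_hasSum (Finset.range (k + 1)) (fun i _ => hf i) hs
    simp only [hT]
    linarith
  have hTt : ∀ k, T k = ∑' m, f (m + (k + 1)) := by
    intro k
    have := hs.summable.sum_add_tsum_nat_add (k + 1)
    rw [hs.tsum_eq] at this
    simp only [hT]
    linarith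
  -- renewal identity
  have hren : ∀ n, conv T v n = 1 := conv_tail h0 hv0 hv
  -- exponential decay of the tails
  set C : ℝ := ∑' n, f n * R ^ n with hC
  have hCnn : 0 ≤ C := tsum_nonneg fun n => mul_nonneg (hf n) (by positivity)
  have hTR : ∀ k, T k ≤ C * R⁻¹ ^ (k + 1) := by
    intro k
    rw [hTt k]
    have hs1 : Summable (fun m => f (m + (k + 1))) := (summable_nat_add_iff (k + 1)).2 hs.summable
    have hs2 : Summable (fun m => f (m + (k + 1)) * R ^ (m + (k + 1))) :=
      (summable_nat_add_iff (f := fun n => f n * R ^ n) (k + 1)).2 ht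
    have h2 : ∑' m, f (m + (k + 1)) ≤
        ∑' m, f (m + (k + 1)) * R ^ (m + (k + 1)) * R⁻¹ ^ (k + 1) := by
      refine hs1.tsum_le_tsum (fun m => ?_) (hs2.mul_right _)
      rw [mul_assoc]
      refine le_mul_of_one_le_right (hf _) ?_
      rw [pow_add, mul_assoc, ← mul_pow, mul_inv_cancel₀ hR0.ne', one_pow, mul_one]
      exact one_le_pow₀ hR.le
    refine h2.trans ?_
    rw [tsum_mul_right]
    refine mul_le_mul_of_nonneg_right ?_ (by positivity)
    have h3 := ht.sum_add_tsum_nat_add (k + 1)
    have h4 : 0 ≤ ∑ i ∈ Finset.range (k + 1), f i * R ^ i :=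
      Finset.sum_nonneg fun i _ => mul_nonneg (hf i) (by positivity)
    linarith
  obtain ⟨ρ, hρ1, hρR⟩ := exists_between hR
  have hρ0 : 0 < ρ := by linarith
  have hTsum : Summable (fun k => |T k| * ρ ^ k) := by
    refine Summable.of_nonneg_of_le (fun k => by positivity) (fun k => ?_)
      ((summable_geometric_of_lt_one (r := R⁻¹ * ρ) (by positivity) ?_).mul_left (C * R⁻¹))
    · rw [abs_of_nonneg (hTnn k), mul_pow, ← mul_assoc]
      refine mul_le_mul_of_nonneg_right ?_ (by positivity)
      refine (hTR k).trans (le_of_eq ?_)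
      rw [pow_succ]
      ring
    · rw [inv_mul_lt_iff₀ hR0, mul_one]
      exact hρR
  -- no zeros
  have hT1 : Summable T := by
    have := summable_of_le hTsum zero_le_one hρ1.le
    simpa [abs_of_nonneg (hTnn _)] using this
  have hE1 : E T 1 = ((∑' k, T k : ℝ) : ℂ) := by
    unfold E
    simp [Complex.ofReal_tsum]
  have hTpos : 0 < ∑' k, T k :=
    lt_of_lt_of_le (by rw [hT0]; exact one_pos) (hT1.le_tsum 0 fun k _ => hTnn k)
  have hEid : ∀ z : ℂ, ‖z‖ ≤ 1 → E T z * (1 - z) = 1 - E f z := by
    intro z hz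
    have hS1 : Summable (fun k => (T k : ℂ) * z ^ k) :=
      (summable_norm_term (summable_of_le hTsum (norm_nonneg z) (hz.trans hρ1.le))).of_norm
    have hS2 : Summable (fun k => (f k : ℂ) * z ^ k) := by
      refine (summable_norm_term (a := f) ?_).of_norm
      refine Summable.of_nonneg_of_le (fun k => by positivity) (fun k => ?_) hs.summable
      rw [abs_of_nonneg (hf k)]
      exact mul_le_of_le_one_right (hf k) (pow_le_one₀ (norm_nonneg _) hz)
    have hS3 : Summable (fun k => (T (k + 1) : ℂ) * z ^ (k + 1)) :=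
      (summable_nat_add_iff (f := fun k => (T k : ℂ) * z ^ k) 1).2 hS1
    have hS4 : Summable (fun k => (f (k + 1) : ℂ) * z ^ (k + 1)) :=
      (summable_nat_add_iff (f := fun k => (f k : ℂ) * z ^ k) 1).2 hS2
    have e1 : E T z = 1 + ∑' k, (T (k + 1) : ℂ) * z ^ (k + 1) := by
      unfold E
      rw [hS1.tsum_eq_zero_add, hT0]
      simp
    have e2 : E f z = ∑' k, (f (k + 1) : ℂ) * z ^ (k + 1) := by
      unfold E
      rw [hS2.tsum_eq_zero_add, h0]
      simp
    have e3 : ∑' k, (T (k + 1) : ℂ) * z ^ (k + 1) = z * E T z - E f z := by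
      rw [e2]
      unfold E
      rw [← tsum_mul_left, ← (hS1.mul_left z).tsum_sub hS4]
      refine tsum_congr fun k => ?_
      rw [hTs]
      push_cast
      ring
    rw [e3] at e1
    linear_combination e1
  have hnz : ∀ z : ℂ, ‖z‖ ≤ 1 → E T z ≠ 0 := by
    intro z hz hzero
    have h2 := hEid z hz
    rw [hzero, zero_mul] at h2
    have h3 := eq_one_of_sum hf h1 hs hz (sub_eq_zero.1 h2.symm).symm
    rw [h3, hE1] at hzero
    have : (∑' k, T k : ℝ) = 0 := by exact_mod_cast hzero
    linarith
  obtain ⟨R', q, hR'1, hR'ρ, hq, hbd⟩ := exists_ball hρ1 hTsum hnz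
  have hR'0 : 0 < R' := by linarith
  have hinv := inv_coeff (a := T) (h := dif v) hR'0 hq (summable_of_le hTsum hR'0.le hR'ρ) hbd
    (fun n => by
      have := conv_dif T v n
      rw [show (∑ i ∈ Finset.range (n + 1), T i * dif v (n - i)) = conv T (dif v) n from rfl, this]
      cases n with
      | zero => simp [dif, hren]
      | succ n => rw [dif_succ, hren, hren]; simp)
  -- conclusion
  set r : ℝ := R'⁻¹ with hr
  have hr0 : 0 < r := by positivity
  have hr1 : r < 1 := inv_lt_one_of_one_lt₀ hR'1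
  have hdsum : Summable (dif v) := by
    refine Summable.of_norm (Summable.of_nonneg_of_le (fun k => norm_nonneg _) (fun k => ?_)
      ((summable_geometric_of_lt_one hr0.le hr1).mul_left (1 / q)))
    rw [Real.norm_eq_abs]
    exact hinv k
  have hlim : ∑' k, dif v k = 1 / ∑' k, T k := by
    have ha : Summable (fun k => |T k| * ‖(1 : ℂ)‖ ^ k) := by
      simpa [abs_of_nonneg (hTnn _)] using hT1
    have hb : Summable (fun k => |dif v k| * ‖(1 : ℂ)‖ ^ k) := by
      simpa using hdsum.abs
    have h2 := E_mul ha hb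
    have h3 : E (conv T (dif v)) 1 = 1 := by
      unfold E
      rw [tsum_eq_single 0]
      · rw [conv_dif]; simp [dif, hren]
      · intro n hn
        obtain ⟨m, rfl⟩ := Nat.exists_eq_succ_of_ne_zero hn
        rw [conv_dif, Nat.succ_eq_add_one, dif_succ, hren, hren]
        simp
    have h4 : E (dif v) 1 = ((∑' k, dif v k : ℝ) : ℂ) := by
      unfold E
      simp [Complex.ofReal_tsum]
    rw [h3, hE1, h4] at h2
    have h5 : (∑' k, T k) * ∑' k, dif v k = 1 := by exact_mod_cast h2
    rw [eq_div_iff hTpos.ne', mul_comm]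
    exact h5
  have hmean : ∑' k, T k = ∑' k : ℕ, (k : ℝ) * f k := by
    -- exchange the order of summation
    have hk : Summable (fun k : ℕ => (k : ℝ) * f k) := by
      have h2 : Summable (fun k : ℕ => (1 / (R - 1)) * (f k * R ^ k)) := ht.mul_left _
      refine Summable.of_nonneg_of_le (fun k => mul_nonneg (Nat.cast_nonneg _) (hf k))
        (fun k => ?_) h2
      have hB : 1 + (k : ℝ) * (R - 1) ≤ R ^ k := by
        have := one_add_mul_le_pow (a := R - 1) (by linarith) k
        simpa using this
      have hR1 : 0 < R - 1 := by linarith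
      rw [one_div, inv_mul_eq_div, le_div_iff₀ hR1]
      have := mul_le_mul_of_nonneg_left hB (hf k)
      nlinarith [hf k]
    have hpart : ∀ N, ∑ k ∈ Finset.range N, T k =
        ∑ m ∈ Finset.range N, (m : ℝ) * f m + N * (1 - ∑ m ∈ Finset.range N, f m) := by
      intro N
      induction N with
      | zero => simp
      | succ N ih =>
        rw [Finset.sum_range_succ, ih, Finset.sum_range_succ (fun m => (m : ℝ) * f m)]
        simp only [hT]
        rw [Finset.sum_range_succ (fun i => f i)]
        push_cast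
        ring
    have hrest : Tendsto (fun N : ℕ => (N : ℝ) * (1 - ∑ m ∈ Finset.range N, f m)) atTop (𝓝 0) := by
      have h2 := (tendsto_sum_nat_add (fun m : ℕ => (m : ℝ) * f m))
      refine squeeze_zero (fun N => ?_) (fun N => ?_) h2
      · refine mul_nonneg (Nat.cast_nonneg _) ?_
        have := sum_le_hasSum (Finset.range N) (fun i _ => hf i) hs
        linarith
      · have h3 := hs.summable.sum_add_tsum_nat_add N
        rw [hs.tsum_eq] at h3
        have h4 : 1 - ∑ m ∈ Finset.range N, f m = ∑' m, f (m + N) := by linarith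
        rw [h4, ← tsum_mul_left]
        refine Summable.tsum_le_tsum (fun m => ?_)
          (((summable_nat_add_iff N).2 hs.summable).mul_left _)
          ((summable_nat_add_iff (f := fun m : ℕ => (m : ℝ) * f m) N).2 hk)
        refine mul_le_mul_of_nonneg_right ?_ (hf _)
        push_cast
        linarith [Nat.cast_nonneg (α := ℝ) m]
    have h2 := hT1.hasSum.tendsto_sum_nat
    have h3 := hk.hasSum.tendsto_sum_nat.add hrest
    rw [add_zero] at h3
    refine tendsto_nhds_unique h2 (h3.congr fun N => (hpart N).symm)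
  refine ⟨(1 / q) * (1 - r)⁻¹, r, by have : 0 < 1 - r := by linarith
                                     positivity, hr0, hr1, fun n => ?_⟩
  have h2 : v n - 1 / ∑' k : ℕ, (k : ℝ) * f k = -∑' k, dif v (k + (n + 1)) := by
    rw [← hmean, ← hlim, ← hdsum.sum_add_tsum_nat_add (n + 1), sum_dif]
    ring
  rw [h2, abs_neg]
  have h3 : Summable (fun k => |dif v (k + (n + 1))|) := (summable_nat_add_iff (n + 1)).2 hdsum.abs
  have h4 : |∑' k, dif v (k + (n + 1))| ≤ ∑' k, |dif v (k + (n + 1))| := by
    have := norm_tsum_le_tsum_norm (f := fun k => dif v (k + (n + 1))) (by simpa using h3)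
    simpa [Real.norm_eq_abs] using this
  refine h4.trans ?_
  have h5 : ∑' k, |dif v (k + (n + 1))| ≤ ∑' k, (1 / q) * r ^ n * r ^ k := by
    refine h3.tsum_le_tsum (fun k => ?_)
      ((summable_geometric_of_lt_one hr0.le hr1).mul_left _)
    refine (hinv _).trans ?_
    rw [mul_assoc, ← pow_add]
    refine mul_le_mul_of_nonneg_left ?_ (by positivity)
    exact pow_le_pow_of_le_one hr0.le hr1.le (by omega)
  refine h5.trans (le_of_eq ?_)
  rw [tsum_mul_left, tsum_geometric_of_lt_one hr0.le hr1]
  ring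

/-- converse: a renewal sequence converging exponentially fast to a positive limit -/
theorem exp_renewal_inv {f v : ℕ → ℝ} (hf : ∀ n, 0 ≤ f n) (h0 : f 0 = 0)
    (hv0 : v 0 = 1) (hv : ∀ n, 1 ≤ n → v n = ∑ i ∈ Finset.range n, v i * f (n - i))
    {a K r : ℝ} (ha : 0 < a) (hr0 : 0 < r) (hr1 : r < 1) (hlim : ∀ n, |v n - a| ≤ K * r ^ n) :
    HasSum f 1 ∧ ∃ K' r', 0 < K' ∧ 0 < r' ∧ r' < 1 ∧ ∀ n, f n ≤ K' * r' ^ n := by
  have hK : 0 ≤ K := by
    have := (abs_nonneg _).trans (hlim 0)
    simpa using this
  have hvnn : ∀ n, 0 ≤ v n := by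
    intro n
    induction n using Nat.strong_induction_on with
    | _ n ih =>
      rcases Nat.eq_zero_or_pos n with rfl | hn
      · rw [hv0]; exact zero_le_one
      · rw [hv n hn]
        exact Finset.sum_nonneg fun i hi => mul_nonneg (ih i (Finset.mem_range.1 hi)) (hf _)
  have hrn : ∀ n, r ^ n ≤ 1 := fun n => pow_le_one₀ hr0.le hr1.le
  have hvM : ∀ n, v n ≤ a + K := by
    intro n
    have h2 := (abs_le.1 (hlim n)).2
    have h3 := mul_le_mul_of_nonneg_left (hrn n) hK
    linarith
  set T : ℕ → ℝ := fun k => 1 - ∑ i ∈ Finset.range (k + 1), f i with hT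
  have hren : ∀ n, conv T v n = 1 := conv_tail h0 hv0 hv
  have hTs : ∀ k, T (k + 1) = T k - f (k + 1) := by
    intro k
    simp only [hT]
    rw [Finset.sum_range_succ (fun i => f i) (k + 1)]
    ring
  have hTanti : Antitone T := antitone_nat_of_succ_le fun n => by
    rw [hTs]; linarith [hf (n + 1)]
  have hT1 : ∀ k, T k ≤ 1 := by
    intro k
    simp only [hT]
    linarith [Finset.sum_nonneg (s := Finset.range (k + 1)) fun i _ => hf i]
  -- lower bound for the partial sums of `v`
  have hvsum : ∀ m : ℕ, a * m - K / (1 - r) ≤ ∑ j ∈ Finset.range m, v j := by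
    intro m
    have h2 : ∑ j ∈ Finset.range m, (a - K * r ^ j) ≤ ∑ j ∈ Finset.range m, v j := by
      refine Finset.sum_le_sum fun j _ => ?_
      have := (abs_le.1 (hlim j)).1
      linarith
    refine le_trans ?_ h2
    rw [Finset.sum_sub_distrib, Finset.sum_const, Finset.card_range, nsmul_eq_mul,
      ← Finset.mul_sum]
    have h3 : ∑ j ∈ Finset.range m, r ^ j ≤ (1 - r)⁻¹ := by
      rw [← tsum_geometric_of_lt_one hr0.le hr1]
      exact (summable_geometric_of_lt_one hr0.le hr1).sum_le_tsum _ fun i _ => by positivity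
    have h4 := mul_le_mul_of_nonneg_left h3 hK
    rw [← div_eq_mul_inv] at h4
    nlinarith
  -- the tails are nonnegative
  have hTnn : ∀ k, 0 ≤ T k := by
    intro N
    by_contra hN
    rw [not_le] at hN
    have key : ∀ m : ℕ, 1 ≤ N * (a + K) + T N * ∑ j ∈ Finset.range (m + 1), v j := by
      intro m
      have h2 := hren (N + m)
      unfold conv at h2
      rw [add_assoc, Finset.sum_range_add] at h2
      have h3 : ∑ x ∈ Finset.range N, T x * v (N + m - x) ≤ N * (a + K) := by
        have : ∑ x ∈ Finset.range N, T x * v (N + m - x) ≤ ∑ x ∈ Finset.range N, (a + K) := by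
          refine Finset.sum_le_sum fun x _ => ?_
          calc T x * v (N + m - x) ≤ 1 * v (N + m - x) :=
                mul_le_mul_of_nonneg_right (hT1 x) (hvnn _)
            _ ≤ a + K := by rw [one_mul]; exact hvM _
        refine this.trans (le_of_eq ?_)
        rw [Finset.sum_const, Finset.card_range, nsmul_eq_mul]
      have h4 : ∑ x ∈ Finset.range (m + 1), T (N + x) * v (N + m - (N + x)) ≤
          T N * ∑ j ∈ Finset.range (m + 1), v j := by
        rw [← Finset.sum_range_reflect (fun j => v j), Finset.mul_sum]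
        refine Finset.sum_le_sum fun x hx => ?_
        rw [show N + m - (N + x) = m + 1 - 1 - x by have := Finset.mem_range.1 hx; omega]
        exact mul_le_mul_of_nonneg_right (hTanti (Nat.le_add_right N x)) (hvnn _)
      linarith
    obtain ⟨m, hm⟩ := exists_nat_gt ((N * (a + K) / (-T N) + K / (1 - r)) / a)
    have h2 := key m
    have h3 := hvsum (m + 1)
    push_cast at h3
    rw [div_lt_iff₀ ha] at hm
    have h4 : N * (a + K) / (-T N) < ∑ j ∈ Finset.range (m + 1), v j := by nlinarith
    rw [div_lt_iff₀ (by linarith)] at h4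
    nlinarith
  -- `f` is summable
  have hfs : Summable f := by
    refine summable_of_sum_range_le hf (c := 1) fun n => ?_
    cases n with
    | zero => simp
    | succ n =>
      have := hTnn n
      simp only [hT] at this
      linarith
  -- the differences
  have hw : ∀ n, |dif v n| ≤ (1 + K * (1 + r⁻¹)) * r ^ n := by
    intro n
    cases n with
    | zero =>
      have : 0 ≤ K * (1 + r⁻¹) := by positivity
      simp only [dif, if_true, hv0, abs_one, pow_zero, mul_one]
      linarith
    | succ n =>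
      rw [dif_succ]
      have h2 : |v (n + 1) - v n| ≤ |v (n + 1) - a| + |v n - a| := by
        rw [show v (n + 1) - v n = (v (n + 1) - a) - (v n - a) by ring]
        exact abs_sub _ _
      have h3 : K * r ^ n = K * r⁻¹ * r ^ (n + 1) := by
        rw [pow_succ]
        field_simp
      have h4 : 0 ≤ r ^ (n + 1) := by positivity
      have := hlim n
      have := hlim (n + 1)
      rw [h3] at *
      nlinarith
  obtain ⟨ρ, hρ1, hρr⟩ := exists_between (one_lt_inv₀ hr0 |>.2 hr1)
  have hρ0 : 0 < ρ := by linarith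
  have hwsum : Summable (fun k => |dif v k| * ρ ^ k) := by
    refine Summable.of_nonneg_of_le (fun k => by positivity) (fun k => ?_)
      ((summable_geometric_of_lt_one (r := r * ρ) (by positivity) ?_).mul_left
        (1 + K * (1 + r⁻¹)))
    · rw [mul_pow, ← mul_assoc]
      exact mul_le_mul_of_nonneg_right (hw k) (by positivity)
    · rw [← lt_inv_mul_iff₀ hr0, mul_one]
      exact hρr
  have hw1 : Summable (dif v) := by
    have := summable_of_le hwsum zero_le_one hρ1.le
    exact Summable.of_abs (by simpa using this)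
  -- the sum of the differences
  have hsumw : ∑' k, dif v k = a := by
    have h2 : Tendsto (fun n => ∑ k ∈ Finset.range (n + 1), dif v k) atTop (𝓝 (∑' k, dif v k)) :=
      (tendsto_add_atTop_iff_nat 1).2 hw1.hasSum.tendsto_sum_nat
    have h3 : Tendsto v atTop (𝓝 a) := by
      rw [tendsto_iff_norm_sub_tendsto_zero]
      refine squeeze_zero (fun n => norm_nonneg _) hlim ?_
      simpa using (tendsto_pow_atTop_nhds_zero_of_lt_one hr0.le hr1).const_mul K
    refine tendsto_nhds_unique h2 (h3.congr fun n => (sum_dif v n).symm)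
  have hE1 : E (dif v) 1 = (a : ℂ) := by
    unfold E
    simp [← Complex.ofReal_tsum, hsumw]
  -- no zeros
  set e : ℕ → ℝ := fun k => (if k = 0 then 1 else 0) - f k with he
  have hnz : ∀ z : ℂ, ‖z‖ ≤ 1 → E (dif v) z ≠ 0 := by
    intro z hz hzero
    have hesum : Summable (fun k => |e k| * ‖z‖ ^ k) := by
      have h2 : Summable (fun k => |e k|) := by
        refine (Summable.sub ?_ hfs).abs
        exact (hasSum_ite_eq (0 : ℕ) (1 : ℝ)).summable
      refine Summable.of_nonneg_of_le (fun k => by positivity) (fun k => ?_) h2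
      exact mul_le_of_le_one_right (abs_nonneg _) (pow_le_one₀ (norm_nonneg _) hz)
    have h2 := E_mul hesum (summable_of_le hwsum (norm_nonneg z) (hz.trans hρ1.le))
    rw [hzero, mul_zero] at h2
    have h3 : E (conv e (dif v)) z = 1 - z := by
      unfold E
      rw [tsum_eq_sum (s := Finset.range 2)]
      · rw [Finset.sum_range_succ, Finset.sum_range_one, conv_dif, conv_dif]
        simp only [dif, if_true, one_ne_zero, if_false]
        rw [conv_delta h0 hv0 hv, conv_delta h0 hv0 hv]
        simp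
        ring
      · intro n hn
        rw [Finset.mem_range, not_lt] at hn
        obtain ⟨m, rfl⟩ : ∃ m, n = m + 1 + 1 := ⟨n - 2, by omega⟩
        rw [conv_dif, dif_succ, conv_delta h0 hv0 hv, conv_delta h0 hv0 hv]
        simp
    rw [h3] at h2
    have h4 : z = 1 := (sub_eq_zero.1 h2.symm).symm
    rw [h4, hE1] at hzero
    exact ha.ne' (by exact_mod_cast hzero)
  obtain ⟨R', q, hR'1, hR'ρ, hq, hbd⟩ := exists_ball hρ1 hwsum hnz
  have hR'0 : 0 < R' := by linarith
  have hinv := inv_coeff (a := dif v) (h := T) hR'0 hq (summable_of_le hwsum hR'0.le hR'ρ) hbd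
    (fun n => by
      rw [show (∑ i ∈ Finset.range (n + 1), dif v i * T (n - i)) = conv (dif v) T n from rfl,
        conv_comm, conv_dif]
      cases n with
      | zero => simp [dif, hren]
      | succ n => rw [dif_succ, hren, hren]; simp)
  set s : ℝ := R'⁻¹ with hs
  have hs0 : 0 < s := by positivity
  have hs1 : s < 1 := inv_lt_one_of_one_lt₀ hR'1
  refine ⟨?_, (1 / q) * s⁻¹, s, by positivity, hs0, hs1, fun n => ?_⟩
  · have h2 : Tendsto T atTop (𝓝 0) := by
      have h5 := (tendsto_pow_atTop_nhds_zero_of_lt_one hs0.le hs1).const_mul (1 / q)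
      rw [mul_zero] at h5
      refine squeeze_zero_norm (fun n => ?_) h5
      rw [Real.norm_eq_abs]
      exact hinv n
    rw [hasSum_iff_tendsto_nat_of_nonneg hf]
    rw [← tendsto_add_atTop_iff_nat 1]
    have h3 := h2.const_sub 1
    rw [sub_zero] at h3
    refine h3.congr fun n => ?_
    simp only [hT]
    ring
  · cases n with
    | zero => rw [h0]; positivity
    | succ n =>
      have h2 : f (n + 1) ≤ T n := by
        have := hTnn (n + 1)
        rw [hTs] at this
        linarith
      refine h2.trans ((le_abs_self _).trans ((hinv n).trans (le_of_eq ?_)))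
      rw [pow_succ]
      field_simp

end Pool.Agent.SAPX
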