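import Pool.Agent.SAPX.K1Base
import Pool.Agent.SAPX.Wiener

/-!
Module K1, part 2: the tilted renewal sequence converges exponentially fast, uniformly in the
frequency; characteristic functions of the free walk.
-/

namespace Pool.Agent.SAPX

open Filter Topology

section

variable {p s : ℕ → ℝ} {F : ℝ → ℕ → ℝ} {δ : ℝ}

theorem K1D.T_bound (D : K1D p s F δ) (k : ℕ) : |k1T p k| ≤ k1M p δ * (k1ro δ)⁻¹ ^ k := by
  have := D.tail (g := p) (B := 1) zero_le_one D.tot (fun m => by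
    rw [abs_of_nonneg (D.pnn m), one_mul]
    simpa using D.le_W' (j := 0) (by norm_num) m) k
  simpa [k1T] using this

theorem K1D.T_sub (D : K1D p s F δ) {θ C w : ℝ} (hC : 0 ≤ C) (hw : 1 ≤ w)
    (hwC : w ≤ 1 + C * θ ^ 2) (hw' : w ≤ k1ro δ) (hs : HasSum (fun m => F θ m * w ^ m) 1) (k : ℕ) :
    |k1T (fun m => F θ m * w ^ m) k - k1T p k| ≤
      (C + 1) * θ ^ 2 * k1M p δ * (k1ro δ)⁻¹ ^ k := by
  have h1 := D.tail (g := fun m => F θ m * w ^ m - p m) (S := 1 - 1) (B := (C + 1) * θ ^ 2)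
    (by positivity) (hs.sub D.tot) (fun m => D.Ft_sub hC hw hwC hw' m) k
  have h2 : k1T (fun m => F θ m * w ^ m) k - k1T p k =
      1 - 1 - ∑ m ∈ Finset.range (k + 1), (F θ m * w ^ m - p m) := by
    unfold k1T
    rw [Finset.sum_sub_distrib]
    ring
  rw [h2]
  exact h1

theorem K1D.r_pos (δ : ℝ) : 0 < (k1ro δ)⁻¹ := inv_pos.2 (Real.exp_pos _)

theorem K1D.r_lt (D : K1D p s F δ) : (k1ro δ)⁻¹ < 1 := inv_lt_one_of_one_lt₀ D.ro_gt

theorem K1D.summable_T (D : K1D p s F δ) : Summable (k1T p) := by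
  refine Summable.of_norm_bounded
    ((summable_geometric_of_lt_one (K1D.r_pos δ).le D.r_lt).mul_left (k1M p δ)) fun k => ?_
  exact D.T_bound k

/-- the sum of the tails is the mean -/
theorem K1D.hasSum_T (D : K1D p s F δ) : HasSum (k1T p) (∑' m : ℕ, (m : ℝ) * p m) := by
  have h1 : ∀ n : ℕ, ∑ k ∈ Finset.range n, k1T p k =
      n * k1T p n + ∑ m ∈ Finset.range (n + 1), (m : ℝ) * p m := by
    intro n
    induction n with
    | zero => simp
    | succ n ih =>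
      rw [Finset.sum_range_succ, ih, Finset.sum_range_succ _ (n + 1)]
      have h2 : k1T p n = k1T p (n + 1) + p (n + 1) := by
        unfold k1T
        rw [Finset.sum_range_succ _ (n + 1)]
        ring
      rw [h2]
      push_cast
      ring
  have h2 : Tendsto (fun n : ℕ => (n : ℝ) * k1T p n) atTop (𝓝 0) := by
    have h3 : Tendsto (fun n : ℕ => (n : ℝ) ^ 1 * (k1ro δ)⁻¹ ^ n) atTop (𝓝 0) :=
      tendsto_pow_const_mul_const_pow_of_abs_lt_one 1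
        (by rw [abs_of_pos (K1D.r_pos δ)]; exact D.r_lt)
    have h4 := h3.const_mul (k1M p δ)
    rw [mul_zero] at h4
    refine squeeze_zero_norm (fun n => ?_) h4
    rw [Real.norm_eq_abs, abs_mul, abs_of_nonneg (Nat.cast_nonneg n : (0 : ℝ) ≤ n)]
    have := mul_le_mul_of_nonneg_left (D.T_bound n) (Nat.cast_nonneg n : (0 : ℝ) ≤ n)
    calc (n : ℝ) * |k1T p n| ≤ n * (k1M p δ * (k1ro δ)⁻¹ ^ n) := this
      _ = _ := by ring
  have h3 : Tendsto (fun n : ℕ => ∑ m ∈ Finset.range (n + 1), (m : ℝ) * p m) atTop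
      (𝓝 (∑' m : ℕ, (m : ℝ) * p m)) :=
    (D.summable_mp.hasSum.tendsto_sum_nat).comp (tendsto_add_atTop_nat 1)
  have h4 := h2.add h3
  rw [zero_add] at h4
  have h5 := D.summable_T.hasSum.tendsto_sum_nat
  have h6 : ∑' k, k1T p k = ∑' m : ℕ, (m : ℝ) * p m :=
    tendsto_nhds_unique h5 (h4.congr fun n => (h1 n).symm)
  rw [← h6]
  exact D.summable_T.hasSum

theorem k1_norm_pow_le {z : ℂ} (hz : ‖z‖ ≤ 1) (k : ℕ) : ‖z ^ k‖ ≤ 1 := by
  rw [norm_pow]; exact pow_le_one₀ (norm_nonneg _) hz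

theorem K1D.summable_Tz (D : K1D p s F δ) {z : ℂ} (hz : ‖z‖ ≤ 1) :
    Summable fun k => (k1T p k : ℂ) * z ^ k := by
  refine Summable.of_norm_bounded
    ((summable_geometric_of_lt_one (K1D.r_pos δ).le D.r_lt).mul_left (k1M p δ)) fun k => ?_
  rw [norm_mul, Complex.norm_real, Real.norm_eq_abs]
  calc |k1T p k| * ‖z ^ k‖ ≤ |k1T p k| * 1 :=
        mul_le_mul_of_nonneg_left (k1_norm_pow_le hz k) (abs_nonneg _)
    _ ≤ _ := by rw [mul_one]; exact D.T_bound k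

theorem K1D.summable_pz (D : K1D p s F δ) {z : ℂ} (hz : ‖z‖ ≤ 1) :
    Summable fun k => (p k : ℂ) * z ^ k := by
  refine Summable.of_norm_bounded D.tot.summable fun k => ?_
  rw [norm_mul, Complex.norm_real, Real.norm_eq_abs, abs_of_nonneg (D.pnn k)]
  calc p k * ‖z ^ k‖ ≤ p k * 1 :=
        mul_le_mul_of_nonneg_left (k1_norm_pow_le hz k) (D.pnn k)
    _ = _ := mul_one _

theorem K1D.one_sub_mul_T (D : K1D p s F δ) {z : ℂ} (hz : ‖z‖ ≤ 1) :
    (1 - z) * ∑' k, (k1T p k : ℂ) * z ^ k = 1 - ∑' k, (p k : ℂ) * z ^ k := by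
  have h1 := (D.summable_Tz hz).tsum_eq_zero_add
  have h2 := (D.summable_pz hz).tsum_eq_zero_add
  have h3 : ∀ k, (k1T p (k + 1) : ℂ) * z ^ (k + 1) =
      z * ((k1T p k : ℂ) * z ^ k) - (p (k + 1) : ℂ) * z ^ (k + 1) := by
    intro k
    have h4 : k1T p (k + 1) = k1T p k - p (k + 1) := by
      unfold k1T
      rw [Finset.sum_range_succ _ (k + 1)]
      ring
    rw [h4]
    push_cast
    ring
  have h5 : ∑' k, (k1T p (k + 1) : ℂ) * z ^ (k + 1) =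
      z * ∑' k, (k1T p k : ℂ) * z ^ k - ∑' k, (p (k + 1) : ℂ) * z ^ (k + 1) := by
    rw [tsum_congr h3, Summable.tsum_sub ((D.summable_Tz hz).mul_left z)
      ((summable_nat_add_iff 1).2 (D.summable_pz hz)), tsum_mul_left]
  have h6 : k1T p 0 = 1 := by simp [k1T, D.p0]
  rw [h6] at h1
  rw [D.p0] at h2
  simp only [pow_zero, mul_one, Complex.ofReal_one, Complex.ofReal_zero, zero_add] at h1 h2
  rw [h5, ← h2] at h1
  linear_combination h1

theorem k1_re_pow_le {z : ℂ} (hz : ‖z‖ ≤ 1) (k : ℕ) : (z ^ k).re ≤ 1 :=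
  (Complex.re_le_norm _).trans (k1_norm_pow_le hz k)

theorem k1_eq_one_of_re {z : ℂ} (hz : ‖z‖ ≤ 1) (h : z.re = 1) : z = 1 := by
  have h1 : z.re ^ 2 + z.im ^ 2 ≤ 1 := by
    have := Complex.sq_norm z
    rw [Complex.normSq_apply] at this
    nlinarith [norm_nonneg z]
  have h2 : z.im = 0 := by
    rw [h] at h1
    nlinarith [sq_nonneg z.im]
  exact Complex.ext h h2

theorem K1D.T_ne_zero (D : K1D p s F δ) {z : ℂ} (hz : ‖z‖ ≤ 1) :
    ∑' k, (k1T p k : ℂ) * z ^ k ≠ 0 := by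
  intro h0
  have h1 := D.one_sub_mul_T hz
  rw [h0, mul_zero] at h1
  have h2 : ∑' k, (p k : ℂ) * z ^ k = 1 := by linear_combination h1
  have h3 : HasSum (fun k => p k * (z ^ k).re) 1 := by
    have := Complex.hasSum_re (h2 ▸ (D.summable_pz hz).hasSum)
    simpa using this
  have h4 : HasSum (fun k => p k * (1 - (z ^ k).re)) 0 := by
    have h := D.tot.sub h3
    rw [sub_self] at h
    have h' : (fun k => p k * (1 - (z ^ k).re)) = fun k => p k - p k * (z ^ k).re := by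
      ext k; ring
    rw [h']
    exact h
  have h5 : ∀ k, p k * (1 - (z ^ k).re) = 0 := by
    have h6 := (hasSum_zero_iff_of_nonneg (fun k => mul_nonneg (D.pnn k)
      (by linarith [k1_re_pow_le hz k]))).1 h4
    intro k
    exact congrFun h6 k
  have h7 : ∀ k, 0 < p k → z ^ k = 1 := by
    intro k hk
    have h8 := (mul_eq_zero.1 (h5 k)).resolve_left hk.ne'
    exact k1_eq_one_of_re (k1_norm_pow_le hz k) (by linarith)
  have h9 : z = 1 := by
    have h10 := h7 2 D.p2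
    have h11 := h7 3 D.p3
    calc z = z ^ 3 := by rw [pow_succ, h10, one_mul]
      _ = 1 := h11
  rw [h9] at h0
  have h12 : ((∑' m : ℕ, (m : ℝ) * p m : ℝ) : ℂ) = 0 := by
    rw [← h0, ← D.hasSum_T.tsum_eq, Complex.ofReal_tsum]
    simp
  have h13 := D.mu_pos
  rw [Complex.ofReal_eq_zero] at h12
  linarith

theorem K1D.T_lower (D : K1D p s F δ) : ∃ q : ℝ, 0 < q ∧ ∀ z : ℂ, ‖z‖ ≤ 1 →
    q ≤ ‖∑' k, (k1T p k : ℂ) * z ^ k‖ := by
  have hc : ContinuousOn (fun z : ℂ => ‖∑' k, (k1T p k : ℂ) * z ^ k‖) (Metric.closedBall 0 1) := by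
    refine ContinuousOn.norm ?_
    refine continuousOn_tsum (u := fun k => k1M p δ * (k1ro δ)⁻¹ ^ k) (fun k => by fun_prop)
      ((summable_geometric_of_lt_one (K1D.r_pos δ).le D.r_lt).mul_left (k1M p δ)) fun k z hz => ?_
    have hz' : ‖z‖ ≤ 1 := by simpa using hz
    rw [norm_mul, Complex.norm_real, Real.norm_eq_abs]
    calc |k1T p k| * ‖z ^ k‖ ≤ |k1T p k| * 1 :=
          mul_le_mul_of_nonneg_left (k1_norm_pow_le hz' k) (abs_nonneg _)
      _ ≤ _ := by rw [mul_one]; exact D.T_bound k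
  obtain ⟨z₀, hz₀, hmin⟩ := (isCompact_closedBall (0 : ℂ) 1).exists_isMinOn
    ⟨0, by simp⟩ hc
  refine ⟨‖∑' k, (k1T p k : ℂ) * z₀ ^ k‖, norm_pos_iff.2 (D.T_ne_zero (by simpa using hz₀)),
    fun z hz => hmin (by simpa using hz)⟩

theorem k1_geom_tail {h : ℕ → ℝ} {A r : ℝ} (hr0 : 0 ≤ r) (hr1 : r < 1)
    (hh : ∀ n, |h n| ≤ A * r ^ n) (n : ℕ) :
    |∑ k ∈ Finset.range (n + 1), h k - ∑' k, h k| ≤ A / (1 - r) * r ^ n := by
  have hs : Summable fun n => A * r ^ n := (summable_geometric_of_lt_one hr0 hr1).mul_left A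
  have hsh : Summable h := Summable.of_norm_bounded hs fun n => hh n
  have hA : 0 ≤ A := by
    have := (abs_nonneg _).trans (hh 0)
    simpa using this
  have h1 := hsh.sum_add_tsum_nat_add (n + 1)
  have h2 : ∑ k ∈ Finset.range (n + 1), h k - ∑' k, h k = -∑' k, h (k + (n + 1)) := by
    linarith
  rw [h2, abs_neg]
  have h3 : Summable fun k => A * r ^ n * r ^ k :=
    (summable_geometric_of_lt_one hr0 hr1).mul_left _
  have h4 : ∀ k, |h (k + (n + 1))| ≤ A * r ^ n * r ^ k := by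
    intro k
    refine (hh _).trans ?_
    have : r ^ (k + (n + 1)) ≤ r ^ n * r ^ k := by
      rw [← pow_add]
      exact pow_le_pow_of_le_one hr0 hr1.le (by omega)
    calc A * r ^ (k + (n + 1)) ≤ A * (r ^ n * r ^ k) := mul_le_mul_of_nonneg_left this hA
      _ = _ := by ring
  refine (k1_abs_tsum_le h3 h4).trans ?_
  rw [tsum_mul_left, tsum_geometric_of_lt_one hr0 hr1]
  apply le_of_eq
  field_simp

theorem k1_succ_summable {b : ℝ} (hb0 : 0 ≤ b) (hb1 : b < 1) :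
    Summable fun k : ℕ => ((k : ℝ) + 1) * b ^ k := by
  have h1 := summable_pow_mul_geometric_of_norm_lt_one 1
    (by rwa [Real.norm_eq_abs, abs_of_nonneg hb0] : ‖b‖ < 1)
  have h2 := summable_geometric_of_lt_one hb0 hb1
  refine (h1.add h2).congr fun k => ?_
  ring

/-- terms of the comparison on the disc -/
theorem k1_term {t t₀ M r₀ b R B : ℝ} {k : ℕ} (hM : 0 < M) (hr₀0 : 0 < r₀) (hb0 : 0 < b)
    (hB : 0 ≤ B) (hR1 : 1 < R) (hRb : r₀ * R ≤ b) (hT : |t - t₀| ≤ B * M * r₀ ^ k)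
    (hT0 : |t₀| ≤ M * r₀ ^ k) :
    |t * R ^ k - t₀| ≤ (B + (R - 1)) * M * (((k : ℝ) + 1) * b ^ k) := by
  have h4 : t * R ^ k - t₀ = (t - t₀) * R ^ k + t₀ * (R ^ k - 1) := by ring
  have h5 : (r₀ * R) ^ k ≤ b ^ k := pow_le_pow_left₀ (by positivity) hRb k
  rw [mul_pow] at h5
  have h6 : (1 : ℝ) ≤ R ^ k := one_le_pow₀ hR1.le
  have h7 := k1_pow_sub_one hR1.le k
  have hk : (0 : ℝ) ≤ k := Nat.cast_nonneg k
  have h8 : |(t - t₀) * R ^ k| ≤ B * M * b ^ k := by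
    rw [abs_mul, abs_of_nonneg (by linarith : (0 : ℝ) ≤ R ^ k)]
    calc |t - t₀| * R ^ k ≤ B * M * r₀ ^ k * R ^ k :=
          mul_le_mul_of_nonneg_right hT (by linarith)
      _ = B * M * (r₀ ^ k * R ^ k) := by ring
      _ ≤ _ := mul_le_mul_of_nonneg_left h5 (by positivity)
  have h9 : |t₀ * (R ^ k - 1)| ≤ (R - 1) * M * (k * b ^ k) := by
    rw [abs_mul, abs_of_nonneg (by linarith : (0 : ℝ) ≤ R ^ k - 1)]
    calc |t₀| * (R ^ k - 1) ≤ (M * r₀ ^ k) * (k * (R - 1) * R ^ k) :=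
          mul_le_mul hT0 h7 (by linarith) (by positivity)
      _ = (R - 1) * M * k * (r₀ ^ k * R ^ k) := by ring
      _ ≤ (R - 1) * M * k * b ^ k :=
          mul_le_mul_of_nonneg_left h5
            (mul_nonneg (mul_nonneg (by linarith) hM.le) hk)
      _ = _ := by ring
  rw [h4]
  refine (abs_add_le _ _).trans ((add_le_add h8 h9).trans ?_)
  have h10 : 0 ≤ B * M * (k * b ^ k) := by positivity
  have h11 : 0 ≤ (R - 1) * M * b ^ k :=
    mul_nonneg (mul_nonneg (by linarith) hM.le) (by positivity)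
  have h12 : (B + (R - 1)) * M * (((k : ℝ) + 1) * b ^ k) =
      B * M * b ^ k + (R - 1) * M * (k * b ^ k) + B * M * (k * b ^ k) + (R - 1) * M * b ^ k := by
    ring
  rw [h12]
  linarith

theorem K1D.disc (D : K1D p s F δ) {T : ℕ → ℝ} {M r₀ b R B q A : ℝ} (hM : 0 < M)
    (hr₀0 : 0 < r₀) (hb0 : 0 < b) (hb1 : b < 1)
    (hB : 0 ≤ B) (hR1 : 1 < R) (hRb : r₀ * R ≤ b) (hT : ∀ k, |T k - k1T p k| ≤ B * M * r₀ ^ k)
    (hT0 : ∀ k, |k1T p k| ≤ M * r₀ ^ k) (hA : A = ∑' k : ℕ, ((k : ℝ) + 1) * b ^ k)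
    (hq : ∀ z : ℂ, ‖z‖ ≤ 1 → q ≤ ‖∑' k, (k1T p k : ℂ) * z ^ k‖)
    (hBq : (B + (R - 1)) * M * A ≤ q / 2) (z : ℂ) (hz : ‖z‖ ≤ R) :
    q / 2 ≤ ‖∑' k, (T k : ℂ) * z ^ k‖ := by
  have hAs := k1_succ_summable hb0.le hb1
  set u : ℂ := z / R with hu
  have hR0 : (R : ℂ) ≠ 0 := by
    have : R ≠ 0 := by linarith
    exact_mod_cast this
  have hzu : z = R * u := by rw [hu]; field_simp
  have hu1 : ‖u‖ ≤ 1 := by
    rw [hu, norm_div, Complex.norm_real, Real.norm_eq_abs, abs_of_pos (by linarith)]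
    exact (div_le_one (by linarith)).2 hz
  have h1 : ∀ k, ‖(T k : ℂ) * z ^ k - (k1T p k : ℂ) * u ^ k‖ ≤
      (B + (R - 1)) * M * (((k : ℝ) + 1) * b ^ k) := by
    intro k
    have h2 : (T k : ℂ) * z ^ k - (k1T p k : ℂ) * u ^ k =
        ((T k * R ^ k - k1T p k : ℝ) : ℂ) * u ^ k := by
      rw [hzu, mul_pow]; push_cast; ring
    rw [h2, norm_mul, Complex.norm_real, Real.norm_eq_abs]
    have h3 := k1_term hM hr₀0 hb0 hB hR1 hRb (hT k) (hT0 k)
    calc |T k * R ^ k - k1T p k| * ‖u ^ k‖ ≤ |T k * R ^ k - k1T p k| * 1 :=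
          mul_le_mul_of_nonneg_left (k1_norm_pow_le hu1 k) (abs_nonneg _)
      _ ≤ _ := by rw [mul_one]; exact h3
  have hs1 : Summable fun k => (T k : ℂ) * z ^ k - (k1T p k : ℂ) * u ^ k :=
    Summable.of_norm_bounded (hAs.mul_left _) h1
  have hs2 := D.summable_Tz hu1
  have hs3 : Summable fun k => (T k : ℂ) * z ^ k := (hs1.add hs2).congr fun k => by ring
  have h12 : ‖∑' k, (T k : ℂ) * z ^ k - ∑' k, (k1T p k : ℂ) * u ^ k‖ ≤
      (B + (R - 1)) * M * A := by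
    rw [← hs3.tsum_sub hs2, hA, ← tsum_mul_left]
    exact tsum_of_norm_bounded (hAs.mul_left _).hasSum h1
  have h13 := hq u hu1
  have h15 := norm_sub_norm_le (∑' k, (k1T p k : ℂ) * u ^ k) (∑' k, (T k : ℂ) * z ^ k)
  rw [norm_sub_rev] at h15
  linarith

theorem k1_summable_R {T T₀ : ℕ → ℝ} {M r₀ b R B : ℝ} (hM : 0 < M)
    (hr₀0 : 0 < r₀) (hb0 : 0 < b) (hb1 : b < 1)
    (hB : 0 ≤ B) (hR1 : 1 < R) (hRb : r₀ * R ≤ b) (hT : ∀ k, |T k - T₀ k| ≤ B * M * r₀ ^ k)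
    (hT0 : ∀ k, |T₀ k| ≤ M * r₀ ^ k) : Summable fun k => |T k| * R ^ k := by
  have h1 : ∀ k, |T k| * R ^ k ≤ (B + 1) * M * b ^ k := by
    intro k
    have h2 : |T k| ≤ (B + 1) * M * r₀ ^ k := by
      have h3 := abs_add_le (T k - T₀ k) (T₀ k)
      rw [sub_add_cancel] at h3
      have h4 := hT k
      have h5 := hT0 k
      have h6 : (B + 1) * M * r₀ ^ k = B * M * r₀ ^ k + M * r₀ ^ k := by ring
      rw [h6]
      linarith
    have h5 : (r₀ * R) ^ k ≤ b ^ k := pow_le_pow_left₀ (by positivity) hRb k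
    rw [mul_pow] at h5
    have hRk : 0 ≤ R ^ k := pow_nonneg (by linarith) k
    calc |T k| * R ^ k ≤ (B + 1) * M * r₀ ^ k * R ^ k :=
          mul_le_mul_of_nonneg_right h2 hRk
      _ = (B + 1) * M * (r₀ ^ k * R ^ k) := by ring
      _ ≤ _ := mul_le_mul_of_nonneg_left h5 (by positivity)
  exact Summable.of_nonneg_of_le (fun k => mul_nonneg (abs_nonneg _)
    (pow_nonneg (by linarith) k)) h1
    ((summable_geometric_of_lt_one hb0.le hb1).mul_left _)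

/-- convergence of the tilted renewal sequence -/
theorem k1_ren_conv {Ft v : ℕ → ℝ} {R q : ℝ} (hR1 : 1 < R) (hq : 0 < q) (hF0 : Ft 0 = 0)
    (hsum : Summable fun k => |k1T Ft k| * R ^ k)
    (hz : ∀ z : ℂ, ‖z‖ ≤ R → q ≤ ‖∑' k, (k1T Ft k : ℂ) * z ^ k‖)
    (hTs : Summable (k1T Ft)) (hT0 : 0 < ∑' k, k1T Ft k) (hv : K1Ren Ft v) (n : ℕ) :
    |v n - 1 / ∑' k, k1T Ft k| ≤ 1 / q / (1 - R⁻¹) * R⁻¹ ^ n := by
  have hr0 : 0 < R⁻¹ := inv_pos.2 (by linarith)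
  have hr1 : R⁻¹ < 1 := inv_lt_one_of_one_lt₀ hR1
  have hren := hv.inv hF0
  have hhb : ∀ n, |k1h v n| ≤ 1 / q * R⁻¹ ^ n :=
    fun n => inv_coeff (by linarith) hq hsum hz hren n
  have hgt := k1_geom_tail hr0.le hr1 hhb n
  rw [k1_sum_h] at hgt
  have hhs : Summable (k1h v) := Summable.of_norm_bounded
    ((summable_geometric_of_lt_one hr0.le hr1).mul_left _) fun n => hhb n
  have hprod : (∑' k, k1T Ft k) * ∑' k, k1h v k = 1 := by
    rw [tsum_mul_tsum_eq_tsum_sum_range_of_summable_norm hTs.norm hhs.norm,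
      tsum_congr hren, tsum_ite_eq]
  have hval : ∑' k, k1h v k = 1 / ∑' k, k1T Ft k := by
    rw [eq_div_iff hT0.ne']
    linarith
  rwa [hval] at hgt

theorem K1D.main (D : K1D p s F δ) : ∃ θ₀ K r C : ℝ, 0 < θ₀ ∧ 0 < K ∧ 0 < r ∧ r < 1 ∧ 0 < C ∧
    ∀ θ, |θ| ≤ θ₀ → ∃ w μ' : ℝ, 1 ≤ w ∧
      |(∑' m : ℕ, (m : ℝ) * p m) * (w - 1) - θ ^ 2 * (∑' m, s m) / 2| ≤ C * θ ^ 4 ∧
      |μ' - ∑' m : ℕ, (m : ℝ) * p m| ≤ C * θ ^ 2 ∧ (∑' m : ℕ, (m : ℝ) * p m) / 2 ≤ μ' ∧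
      ∀ v, K1Ren (F θ) v → ∀ n, |v n * w ^ n - 1 / μ'| ≤ K * r ^ n := by
  obtain ⟨θ₁, C, hθ₁, hC, hw⟩ := D.exists_w
  obtain ⟨q, hq, hT⟩ := D.T_lower
  have hδ := D.δpos
  obtain ⟨M, hMdef⟩ : ∃ M, M = k1M p δ := ⟨_, rfl⟩
  have hM : 0 < M := hMdef ▸ D.M_pos
  obtain ⟨μ, hμdef⟩ : ∃ μ, μ = ∑' m : ℕ, (m : ℝ) * p m := ⟨_, rfl⟩
  have hμ : 0 < μ := hμdef ▸ D.mu_pos
  obtain ⟨r₀, hr₀⟩ : ∃ r₀, r₀ = (k1ro δ)⁻¹ := ⟨_, rfl⟩
  have hr₀0 : 0 < r₀ := hr₀ ▸ K1D.r_pos δ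
  have hr₀1 : r₀ < 1 := hr₀ ▸ D.r_lt
  obtain ⟨b, hb⟩ : ∃ b, b = Real.exp (-(δ / 8)) := ⟨_, rfl⟩
  have hb0 : 0 < b := hb ▸ Real.exp_pos _
  have hb1 : b < 1 := by rw [hb, Real.exp_lt_one_iff]; linarith
  obtain ⟨A, hA⟩ : ∃ A, A = ∑' k : ℕ, ((k : ℝ) + 1) * b ^ k := ⟨_, rfl⟩
  have hAs := k1_succ_summable hb0.le hb1
  have hA0 : 0 < A := by
    rw [hA]; exact hAs.tsum_pos (fun k => by positivity) 0 (by simp)
  -- the radius
  obtain ⟨R, hR⟩ : ∃ R, R = min (Real.exp (δ / 8)) (1 + q / (4 * M * A)) := ⟨_, rfl⟩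
  have hR1 : 1 < R := by
    rw [hR]
    exact lt_min (Real.one_lt_exp_iff.2 (by positivity))
      (by have : 0 < q / (4 * M * A) := by positivity
          linarith)
  have hRb : r₀ * R ≤ b := by
    have h1 : R ≤ Real.exp (δ / 8) := hR ▸ min_le_left _ _
    calc r₀ * R ≤ r₀ * Real.exp (δ / 8) := mul_le_mul_of_nonneg_left h1 hr₀0.le
      _ = b := by
        rw [hr₀, hb, k1ro, ← Real.exp_neg, ← Real.exp_add]
        congr 1
        ring
  have hRq : (R - 1) * M * A ≤ q / 4 := by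
    have h1 : R - 1 ≤ q / (4 * M * A) := by
      have := min_le_right (Real.exp (δ / 8)) (1 + q / (4 * M * A))
      rw [← hR] at this
      linarith
    calc (R - 1) * M * A ≤ q / (4 * M * A) * M * A := by gcongr
      _ = q / 4 := by field_simp
  -- the radius of the frequencies
  obtain ⟨θ₀, hθ₀⟩ : ∃ θ₀, θ₀ = min θ₁ (min 1 (min (q / (4 * (C + 1) * M * A))
    (μ / (2 * (C + 1) * M * A)))) := ⟨_, rfl⟩
  have hθ₀0 : 0 < θ₀ := by
    rw [hθ₀]
    refine lt_min hθ₁ (lt_min one_pos (lt_min ?_ ?_)) <;> positivity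
  have hr0 : 0 < R⁻¹ := inv_pos.2 (by linarith)
  have hr1 : R⁻¹ < 1 := inv_lt_one_of_one_lt₀ hR1
  refine ⟨θ₀, 1 / (q / 2) / (1 - R⁻¹), R⁻¹, (3 + C + C ^ 2) * M + (C + 1) * M * A, hθ₀0,
    by have : 0 < 1 - R⁻¹ := by linarith
       positivity, hr0, hr1, by positivity, fun θ hθ => ?_⟩
  rw [hθ₀] at hθ
  have hθa : |θ| ≤ θ₁ := hθ.trans (min_le_left _ _)
  have hθb : |θ| ≤ 1 := hθ.trans ((min_le_right _ _).trans (min_le_left _ _))
  have hθc : |θ| ≤ q / (4 * (C + 1) * M * A) :=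
    hθ.trans ((min_le_right _ _).trans ((min_le_right _ _).trans (min_le_left _ _)))
  have hθd : |θ| ≤ μ / (2 * (C + 1) * M * A) :=
    hθ.trans ((min_le_right _ _).trans ((min_le_right _ _).trans (min_le_right _ _)))
  have hθsq : θ ^ 2 ≤ |θ| := by
    rw [← sq_abs]; nlinarith [abs_nonneg θ]
  have hθq : (C + 1) * θ ^ 2 * M * A ≤ q / 4 := by
    calc (C + 1) * θ ^ 2 * M * A ≤ (C + 1) * (q / (4 * (C + 1) * M * A)) * M * A := by
          gcongr; exact hθsq.trans hθc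
      _ = q / 4 := by field_simp
  have hθμ : (C + 1) * θ ^ 2 * M * A ≤ μ / 2 := by
    calc (C + 1) * θ ^ 2 * M * A ≤ (C + 1) * (μ / (2 * (C + 1) * M * A)) * M * A := by
          gcongr; exact hθsq.trans hθd
      _ = μ / 2 := by field_simp
  obtain ⟨w, hw1, hwC, hwro, hws⟩ := hw θ hθa
  obtain ⟨T, hTdef⟩ : ∃ T, T = k1T (fun m => F θ m * w ^ m) := ⟨_, rfl⟩
  have hTsub : ∀ k, |T k - k1T p k| ≤ (C + 1) * θ ^ 2 * M * r₀ ^ k := by
    rw [hTdef, hMdef, hr₀]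
    exact fun k => D.T_sub hC.le hw1 hwC hwro hws k
  have hTb : ∀ k, |k1T p k| ≤ M * r₀ ^ k := by
    rw [hMdef, hr₀]; exact D.T_bound
  have hTs : Summable T := by
    have h1 : Summable fun k => (C + 1) * θ ^ 2 * M * r₀ ^ k :=
      (summable_geometric_of_lt_one hr₀0.le hr₀1).mul_left _
    have h2 : Summable fun k => T k - k1T p k := Summable.of_norm_bounded h1 fun k => hTsub k
    have h3 := h2.add D.summable_T
    exact h3.congr fun k => by ring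
  have hr₀b : r₀ ≤ b := le_trans (by nlinarith) hRb
  -- the value at one
  have hμ' : |∑' k, T k - μ| ≤ (C + 1) * θ ^ 2 * M * A := by
    rw [hμdef, ← D.hasSum_T.tsum_eq, ← hTs.tsum_sub D.summable_T]
    have h1 : ∀ k, |T k - k1T p k| ≤ (C + 1) * θ ^ 2 * M * (((k : ℝ) + 1) * b ^ k) := by
      intro k
      refine (hTsub k).trans ?_
      have h2 : r₀ ^ k ≤ ((k : ℝ) + 1) * b ^ k := by
        have h3 : r₀ ^ k ≤ b ^ k := pow_le_pow_left₀ hr₀0.le hr₀b k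
        have h4 : 0 ≤ b ^ k := by positivity
        have h5 : (0 : ℝ) ≤ k := Nat.cast_nonneg k
        nlinarith
      exact mul_le_mul_of_nonneg_left h2 (by positivity)
    refine (k1_abs_tsum_le (hAs.mul_left _) h1).trans ?_
    rw [tsum_mul_left, hA]
  have hlow : μ / 2 ≤ ∑' k, T k := by
    have := (abs_le.1 (hμ'.trans hθμ)).1
    linarith
  rw [← hμdef]
  refine ⟨w, ∑' k, T k, hw1, ?_, ?_, hlow, ?_⟩
  · rw [hμdef]
    refine (D.w_expand hC.le hw1 hwC hwro hws).trans ?_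
    rw [← hMdef]
    have : 0 ≤ (C + 1) * M * A * θ ^ 4 := by positivity
    linarith
  · refine hμ'.trans ?_
    have : 0 ≤ (3 + C + C ^ 2) * M * θ ^ 2 := by positivity
    linarith
  · intro v hv n
    have hF0 : F θ 0 = 0 := by
      have := D.Fle θ 0
      rw [D.p0] at this
      exact abs_nonpos_iff.1 this
    rw [hTdef] at hTsub hTs hlow ⊢
    refine k1_ren_conv hR1 (by positivity) (by simp [hF0])
      (k1_summable_R hM hr₀0 hb0 hb1 (by positivity) hR1 hRb hTsub hTb)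
      (D.disc hM hr₀0 hb0 hb1 (by positivity) hR1 hRb hTsub hTb hA hT ?_) hTs
      (by linarith) (hv.scale w) n
    linarith

end

end Pool.Agent.SAPX
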