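import Pool.Agent.SAPX.CDefs

/-!
Kernels and caps of the block decomposition: comparison with the free law.
-/

namespace Pool.Agent.SAPX

open Filter Topology Pool.Agent.SAPF Pool.Agent.SAPK

/-! ### elementary blocks -/

lemma prefix_pair {t : Word} {d e : Dir} (h : t <+: [d, e]) :
    t = [] ∨ t = [d] ∨ t = [d, e] := by
  rcases List.prefix_cons_iff.1 h with h1 | ⟨t', rfl, h2⟩
  · exact Or.inl h1
  · rcases eq_nil_or_singleton_of_prefix h2 with h3 | h3
    · right; left; rw [h3]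
    · right; right; rw [h3]

lemma prefix_single {t : Word} {d : Dir} (h : t <+: [d]) (h0 : t ≠ []) : t = [d] :=
  (eq_nil_or_singleton_of_prefix h).resolve_left h0

lemma isBr_EN' : IsBr [Dir.E, Dir.N] := by
  have key : ∀ t, t <+: [Dir.E, Dir.N] → t ≠ [] → X t = 1 := by
    intro t ht h0
    rcases prefix_pair ht with rfl | rfl | rfl
    · exact absurd rfl h0
    · simp [Dir.dx]
    · simp [Dir.dx]
  refine ⟨?_, ?_, ?_⟩
  · intro t ht hx hy
    obtain ⟨a, b, hab⟩ := ht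
    have hl := congrArg List.length hab
    simp only [List.length_append, List.length_cons, List.length_nil] at hl
    rcases eq_or_ne a [] with ha | ha
    · subst ha
      by_contra h0
      have := key t ⟨b, by simpa using hab⟩ h0
      omega
    · have ha' : a = [Dir.E] ∨ a = [Dir.E, Dir.N] := by
        have h1 : a <+: [Dir.E, Dir.N] := ⟨t ++ b, by rw [← hab, List.append_assoc]⟩
        rcases prefix_pair h1 with h | h | h
        · exact absurd h ha
        · exact Or.inl h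
        · exact Or.inr h
      rcases ha' with rfl | rfl
      · have h1 : t ++ b = [Dir.N] := by simpa using hab
        have h2 : t <+: [Dir.N] := ⟨b, h1⟩
        rcases eq_nil_or_singleton_of_prefix h2 with h | h
        · exact h
        · rw [h] at hy; simp [Dir.dy] at hy
      · have : t.length = 0 := by simp at hl; omega
        exact List.length_eq_zero_iff.1 this
  · intro u hu h0
    rw [key u hu h0]; exact one_pos
  · intro v hv
    obtain ⟨a, hav⟩ := hv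
    have ha : a <+: [Dir.E, Dir.N] := ⟨v, hav⟩
    have h1 : X a + X v = 1 := by
      rw [← X_append, hav]; simp [Dir.dx]
    rcases prefix_pair ha with h | h | h
    · rw [h] at h1; simp at h1; omega
    · rw [h] at h1; simp [Dir.dx] at h1; omega
    · rw [h] at h1; simp [Dir.dx] at h1; omega

lemma isBr_ES' : IsBr [Dir.E, Dir.S] := by
  have h := isBr_EN'.flipY
  simpa [flipY, Dir.my] using h

/-- a pair whose second component is `[E]` is irreducible -/
lemma isPIrr_E {w : Word} (hw : IsBr w) (hx : X w = 1) : IsPIrr (w, [Dir.E]) := by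
  refine ⟨⟨hw, isBr_singleton_E, by change X w = X [Dir.E]; rw [hx]; simp [Dir.dx]⟩, ?_, ?_⟩
  · change 0 < X w; rw [hx]; exact one_pos
  · intro q r hq hr h1 h2
    have hl := congrArg List.length h2
    simp only [List.length_append, List.length_cons, List.length_nil] at hl
    rcases Nat.eq_zero_or_pos q.2.length with h | h
    · left
      have h3 : q.2 = [] := List.length_eq_zero_iff.1 h
      have h4 : q.1 = [] := IsBr.eq_nil_of_X hq.br1 (by rw [hq.span, h3]; rfl)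
      exact Prod.ext h4 h3
    · right
      have h3 : r.2 = [] := List.length_eq_zero_iff.1 (by omega)
      have h4 : r.1 = [] := IsBr.eq_nil_of_X hr.br1 (by rw [hr.span, h3]; rfl)
      exact Prod.ext h4 h3

lemma isPIrr_EE : IsPIrr ([Dir.E], [Dir.E]) := isPIrr_E isBr_singleton_E (by simp [Dir.dx])
lemma isPIrr_EN : IsPIrr ([Dir.E, Dir.N], [Dir.E]) := isPIrr_E isBr_EN' (by simp [Dir.dx])
lemma isPIrr_ES : IsPIrr ([Dir.E, Dir.S], [Dir.E]) := isPIrr_E isBr_ES' (by simp [Dir.dx])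

lemma IsPIrr.ne1 {p : PW} (hp : IsPIrr p) : p.1 ≠ [] := by
  intro h
  have := hp.pos
  rw [h] at this
  simp at this

lemma IsPIrr.ne2 {p : PW} (hp : IsPIrr p) : p.2 ≠ [] := by
  intro h
  have := hp.pos
  rw [hp.pb.span, h] at this
  simp at this

/-- a nonempty bridge begins with `E` -/
lemma IsBr.head {w : Word} (h : IsBr w) (h0 : w ≠ []) : ∃ t, w = Dir.E :: t := by
  obtain ⟨d, t, rfl⟩ := List.exists_cons_of_ne_nil h0
  have h1 : 0 < X [d] := h.pos ⟨t, by simp⟩ (by simp)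
  rw [X_cons, X_nil] at h1
  refine ⟨t, ?_⟩
  cases d <;> simp_all [Dir.dx]

lemma abs_Y_lt {w : Word} (h : IsBr w) (h0 : w ≠ []) : |Y w| < w.length := by
  obtain ⟨t, rfl⟩ := IsBr.head h h0
  have h1 := abs_Y_le t
  rw [Y_cons, List.length_cons]
  simp only [Dir.dy]
  push_cast
  rw [zero_add]
  omega

lemma abs_ht_lt {p : PW} (hp : IsPIrr p) : |ht p| < ln p := by
  have h1 := abs_Y_lt hp.pb.br1 hp.ne1
  have h2 := abs_Y_lt hp.pb.br2 hp.ne2
  unfold ht ln
  push_cast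
  rw [abs_lt] at *
  constructor <;> omega

lemma abs_Y_prefix_le {t w : Word} (h : t <+: w) : |Y t| ≤ w.length :=
  (abs_Y_le t).trans (by exact_mod_cast h.length_le)

lemma abs_Y_sub_prefix_le {t w : Word} (h : t <+: w) (h0 : t ≠ []) : |Y w - Y t| < w.length := by
  obtain ⟨b, rfl⟩ := h
  have h1 := abs_Y_le b
  have h2 := List.length_pos_iff.2 h0
  rw [Y_append, List.length_append]
  push_cast
  rw [show Y t + Y b - Y t = Y b by ring]
  omega

lemma disj_of_far1 {x : ℤ} {p : PW} (hx : (ln p : ℤ) < x) : Disj x p := by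
  intro t s ht hs _ _ _ he
  have h1 := abs_Y_prefix_le ht
  have h2 := abs_Y_prefix_le hs
  unfold ln at hx
  push_cast at hx
  rw [abs_le] at *
  omega

lemma disj_of_far2 {x : ℤ} {p : PW} (hx : (ln p : ℤ) < x + ht p) : Disj x p := by
  intro t s ht' hs ht0 hs0 _ he
  have h1 := abs_Y_sub_prefix_le ht' ht0
  have h2 := abs_Y_sub_prefix_le hs hs0
  unfold ln ht at hx
  push_cast at hx
  rw [abs_lt] at *
  omega

/-! ### the kernel -/

variable {A : Set Word} {u c : ℝ} {ω : PW → ℝ}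

open Classical in
lemma mkf_nonneg (h0 : ∀ p, 0 ≤ ω p) (m : ℕ) (d : ℤ) : 0 ≤ mkf A u c ω m d := by
  unfold mkf
  exact Finset.sum_nonneg fun p _ => mul_nonneg (h0 p) (wt_pos u c p).le

open Classical in
lemma mkg_nonneg (h0 : ∀ p, 0 ≤ ω p) (m : ℕ) (x y : ℤ) : 0 ≤ mkg A u c ω m x y := by
  unfold mkg
  split_ifs
  · exact Finset.sum_nonneg fun p _ => mul_nonneg (h0 p) (wt_pos u c p).le
  · exact le_rfl

open Classical in
lemma mkg_le (h0 : ∀ p, 0 ≤ ω p) (m : ℕ) (x y : ℤ) :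
    mkg A u c ω m x y ≤ mkf A u c ω m (y - x) := by
  unfold mkg
  split_ifs
  · unfold mkf
    refine Finset.sum_le_sum_of_subset_of_nonneg ?_
      fun p _ _ => mul_nonneg (h0 p) (wt_pos u c p).le
    intro p hp
    rw [Finset.mem_filter] at hp ⊢
    exact ⟨hp.1, hp.2.1⟩
  · exact mkf_nonneg h0 m _

open Classical in
lemma mkf_eq_zero {m : ℕ} {d : ℤ} (h : (m : ℤ) ≤ |d|) : mkf A u c ω m d = 0 := by
  unfold mkf
  refine Finset.sum_eq_zero fun p hp => ?_
  exfalso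
  rw [Finset.mem_filter, mem_blk] at hp
  have := abs_ht_lt hp.1.2.1
  rw [hp.2, hp.1.1] at this
  omega

open Classical in
lemma mkg_far (m : ℕ) (x y : ℤ) (h : (m : ℤ) < x ∨ (m : ℤ) < y) :
    mkg A u c ω m x y = mkf A u c ω m (y - x) := by
  by_cases hd : (m : ℤ) ≤ |y - x|
  · rw [mkf_eq_zero hd]
    unfold mkg
    split_ifs
    · refine Finset.sum_eq_zero fun p hp => ?_
      exfalso
      rw [Finset.mem_filter, mem_blk] at hp
      have := abs_ht_lt hp.1.2.1
      rw [hp.2.1, hp.1.1] at this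
      omega
    · rfl
  · push Not at hd
    rw [abs_lt] at hd
    unfold mkg
    rw [if_pos (by constructor <;> rcases h with h | h <;> omega)]
    unfold mkf
    refine Finset.sum_congr ?_ fun _ _ => rfl
    ext p
    rw [Finset.mem_filter, Finset.mem_filter]
    refine ⟨fun hp => ⟨hp.1, hp.2.1⟩, fun hp => ⟨hp.1, hp.2, ?_⟩⟩
    have hm := (mem_blk.1 hp.1).1
    rcases h with h | h
    · exact disj_of_far1 (by rw [hm]; exact h)
    · exact disj_of_far2 (by rw [hm, hp.2]; omega)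

open Classical in
lemma mkf_bd {q : ℕ} (h1 : ∀ p, IsPIrr p → ω p ≤ (ln p : ℝ) ^ q) (m : ℕ) (d : ℤ) :
    mkf A u c ω m d ≤ (m : ℝ) ^ q * mkf A u c one m d := by
  unfold mkf
  rw [Finset.mul_sum]
  refine Finset.sum_le_sum fun p hp => ?_
  rw [Finset.mem_filter, mem_blk] at hp
  have := h1 p hp.1.2.1
  rw [hp.1.1] at this
  rw [← mul_assoc]
  exact mul_le_mul_of_nonneg_right (by simpa [one] using this) (wt_pos u c p).le

lemma one_nonneg' (p : PW) : 0 ≤ one p := zero_le_one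

open Classical in
lemma mkf_ge {m : ℕ} {d : ℤ} (h0 : ∀ p, 0 ≤ ω p) {p : PW} (hp : p ∈ blk A m) (hd : ht p = d) :
    ω p * wt u c p ≤ mkf A u c ω m d := by
  unfold mkf
  exact Finset.single_le_sum (f := fun p => ω p * wt u c p)
    (fun p _ => mul_nonneg (h0 p) (wt_pos u c p).le) (Finset.mem_filter.2 ⟨hp, hd⟩)

lemma blk_EE (hA : IsClass A) : ([Dir.E], [Dir.E]) ∈ blk A 2 :=
  mem_blk.2 ⟨rfl, isPIrr_EE, hA.E, hA.E⟩
lemma blk_EN (hA : IsClass A) : ([Dir.E, Dir.N], [Dir.E]) ∈ blk A 3 :=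
  mem_blk.2 ⟨rfl, isPIrr_EN, hA.EN1, hA.E⟩
lemma blk_ES (hA : IsClass A) : ([Dir.E, Dir.S], [Dir.E]) ∈ blk A 3 :=
  mem_blk.2 ⟨rfl, isPIrr_ES, hA.ES1, hA.E⟩

lemma ht_EN : ht ([Dir.E, Dir.N], [Dir.E]) = 1 := by simp [ht, Dir.dy]
lemma ht_ES : ht ([Dir.E, Dir.S], [Dir.E]) = -1 := by simp [ht, Dir.dy]
lemma ht_EE : ht ([Dir.E], [Dir.E]) = 0 := by simp [ht]

lemma disj_EN {x : ℤ} (hx : 0 < x) : Disj x ([Dir.E, Dir.N], [Dir.E]) := by
  intro t s ht hs ht0 hs0 _
  have hs' := prefix_single hs hs0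
  subst hs'
  rcases prefix_pair ht with rfl | rfl | rfl
  · exact absurd rfl ht0
  · simp [Dir.dy]; omega
  · simp [Dir.dy]; omega

lemma disj_ES {x : ℤ} (hx : 1 < x) : Disj x ([Dir.E, Dir.S], [Dir.E]) := by
  intro t s ht hs ht0 hs0 _
  have hs' := prefix_single hs hs0
  subst hs'
  rcases prefix_pair ht with rfl | rfl | rfl
  · exact absurd rfl ht0
  · simp [Dir.dy]; omega
  · simp [Dir.dy]; omega

open Classical in
theorem killedA (hA : IsClass A) (u c : ℝ) :
    Killed (mkf A u c one) (mkg A u c one) := by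
  refine ⟨mkg_nonneg one_nonneg', mkg_le one_nonneg', ?_, mkg_far, ?_, ?_⟩
  · intro m x y h
    by_contra hxy
    apply h
    unfold mkg
    rw [if_neg hxy]
  · intro x hx
    unfold mkg
    rw [if_pos ⟨hx, by omega⟩]
    refine Finset.sum_pos (fun p _ => mul_pos one_pos (wt_pos u c p))
      ⟨([Dir.E, Dir.N], [Dir.E]), ?_⟩
    rw [Finset.mem_filter]
    exact ⟨blk_EN hA, by rw [ht_EN]; ring, disj_EN hx⟩
  · intro x hx
    unfold mkg
    rw [if_pos ⟨by omega, hx⟩]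
    refine Finset.sum_pos (fun p _ => mul_pos one_pos (wt_pos u c p))
      ⟨([Dir.E, Dir.S], [Dir.E]), ?_⟩
    rw [Finset.mem_filter]
    exact ⟨blk_ES hA, by rw [ht_ES]; ring, disj_ES (by omega)⟩

/-! ### caps -/

lemma capL_EN : CapL ([Dir.E, Dir.N], [Dir.E]) := by
  refine ⟨?_, ?_, ?_⟩
  · intro t s ht hs ht0 hs0 _ hy
    have hs' := prefix_single hs hs0
    subst hs'
    rcases prefix_pair ht with rfl | rfl | rfl
    · exact absurd rfl ht0
    · exact ⟨rfl, rfl⟩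
    · simp [Dir.dy] at hy
  · intro t ht _
    rcases prefix_pair ht with rfl | rfl | rfl <;> simp [Dir.dy]
  · intro t ht _
    rcases eq_nil_or_singleton_of_prefix ht with rfl | rfl <;> simp [Dir.dy]

lemma capR_ES : CapR 1 ([Dir.E, Dir.S], [Dir.E]) := by
  refine ⟨?_, ?_, ?_, ?_⟩
  · intro t s ht hs ht0 hs0 _ hy
    have hs' := prefix_single hs hs0
    subst hs'
    rcases prefix_pair ht with rfl | rfl | rfl
    · exact absurd rfl ht0
    · simp [Dir.dy] at hy
    · exact ⟨rfl, rfl⟩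
  · simp [Dir.dy]
  · intro t ht _
    rcases prefix_pair ht with rfl | rfl | rfl <;> simp [Dir.dy]
  · intro t ht hx
    rcases eq_nil_or_singleton_of_prefix ht with rfl | rfl
    · simp [Dir.dx] at hx
    · exact le_rfl

open Classical in
lemma lamA_nonneg (h0 : ∀ p, 0 ≤ ω p) (m : ℕ) (x : ℤ) : 0 ≤ lamA A u c ω m x := by
  unfold lamA
  split_ifs
  · exact Finset.sum_nonneg fun p _ => mul_nonneg (h0 p) (wt_pos u c p).le
  · exact le_rfl

open Classical in
lemma rhoA_nonneg (h0 : ∀ p, 0 ≤ ω p) (m : ℕ) (x : ℤ) : 0 ≤ rhoA A u c ω m x := by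
  unfold rhoA
  split_ifs
  · exact Finset.sum_nonneg fun p _ => mul_nonneg (h0 p) (wt_pos u c p).le
  · exact le_rfl

open Classical in
lemma lamA_le (h0 : ∀ p, 0 ≤ ω p) (m : ℕ) (x : ℤ) : lamA A u c ω m x ≤ mkf A u c ω m x := by
  unfold lamA
  split_ifs
  · unfold mkf
    refine Finset.sum_le_sum_of_subset_of_nonneg ?_
      fun p _ _ => mul_nonneg (h0 p) (wt_pos u c p).le
    intro p hp
    rw [Finset.mem_filter] at hp ⊢
    exact ⟨hp.1, hp.2.1⟩
  · exact mkf_nonneg h0 m _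

open Classical in
lemma rhoA_le (h0 : ∀ p, 0 ≤ ω p) (m : ℕ) (x : ℤ) : rhoA A u c ω m x ≤ mkf A u c ω m (-x) := by
  unfold rhoA
  split_ifs
  · unfold mkf
    refine Finset.sum_le_sum_of_subset_of_nonneg ?_
      fun p _ _ => mul_nonneg (h0 p) (wt_pos u c p).le
    intro p hp
    rw [Finset.mem_filter] at hp ⊢
    refine ⟨hp.1, ?_⟩
    have := hp.2.meet
    unfold ht
    omega
  · exact mkf_nonneg h0 m _

lemma lamA_pos_of_ne {m : ℕ} {x : ℤ} (h : lamA A u c ω m x ≠ 0) : 0 < x := by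
  by_contra hx
  apply h
  unfold lamA
  rw [if_neg hx]

lemma rhoA_pos_of_ne {m : ℕ} {x : ℤ} (h : rhoA A u c ω m x ≠ 0) : 0 < x := by
  by_contra hx
  apply h
  unfold rhoA
  rw [if_neg hx]

/-- polynomial factors are absorbed by a smaller exponential rate -/
lemma summable_pow {f : ℕ → ℤ → ℝ} (hf : FreeLaw f) (q : ℕ) : ∃ δ > 0,
    Summable (fun p : ℕ × ℤ => (p.1 : ℝ) ^ q * f p.1 p.2 * Real.exp (δ * p.1)) := by
  obtain ⟨δ, hδ, hs⟩ := hf.tail
  refine ⟨δ / 2, by positivity, ?_⟩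
  have hb : ∃ K, ∀ n : ℕ, (n : ℝ) ^ q * Real.exp (-(δ / 2) * n) ≤ K := by
    have h1 : Tendsto (fun n : ℕ => (n : ℝ) ^ q * Real.exp (-(δ / 2) * n)) atTop (𝓝 0) := by
      have h2 := Real.tendsto_pow_mul_exp_neg_atTop_nhds_zero q
      have h3 : Tendsto (fun n : ℕ => (δ / 2) * (n : ℝ)) atTop atTop :=
        Tendsto.const_mul_atTop (by positivity) tendsto_natCast_atTop_atTop
      have h4 := h2.comp h3
      have h5 := h4.const_mul ((δ / 2)⁻¹ ^ q)
      rw [mul_zero] at h5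
      refine h5.congr fun n => ?_
      simp only [Function.comp]
      rw [← mul_assoc, ← mul_pow, ← mul_assoc, inv_mul_cancel₀ (by positivity), one_mul]
      congr 2
      ring
    obtain ⟨K, hK⟩ := h1.bddAbove_range
    exact ⟨K, fun n => hK ⟨n, rfl⟩⟩
  obtain ⟨K, hK⟩ := hb
  refine Summable.of_nonneg_of_le (fun p => ?_) (fun p => ?_) (hs.mul_left K)
  · exact mul_nonneg (mul_nonneg (by positivity) (hf.nonneg _ _)) (Real.exp_pos _).le
  · have h1 := hK p.1
    have h2 : Real.exp (δ / 2 * p.1) = Real.exp (-(δ / 2) * p.1) * Real.exp (δ * p.1) := by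
      rw [← Real.exp_add]; congr 1; ring
    rw [h2]
    calc (p.1 : ℝ) ^ q * f p.1 p.2 * (Real.exp (-(δ / 2) * p.1) * Real.exp (δ * p.1))
        = ((p.1 : ℝ) ^ q * Real.exp (-(δ / 2) * p.1)) * (f p.1 p.2 * Real.exp (δ * p.1)) := by ring
      _ ≤ K * (f p.1 p.2 * Real.exp (δ * p.1)) :=
        mul_le_mul_of_nonneg_right h1 (mul_nonneg (hf.nonneg _ _) (Real.exp_pos _).le)

theorem tail_lam (hf : FreeLaw (mkf A u c one)) {q : ℕ}
    (h0 : ∀ p, 0 ≤ ω p) (h1 : ∀ p, IsPIrr p → ω p ≤ (ln p : ℝ) ^ q) :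
    (∀ m x, 0 ≤ lamA A u c ω m x) ∧
    ∃ δ > 0, Summable (fun p : ℕ × ℤ => lamA A u c ω p.1 p.2 * Real.exp (δ * p.1)) := by
  refine ⟨lamA_nonneg h0, ?_⟩
  obtain ⟨δ, hδ, hs⟩ := summable_pow hf q
  refine ⟨δ, hδ, Summable.of_nonneg_of_le (fun p => ?_) (fun p => ?_) hs⟩
  · exact mul_nonneg (lamA_nonneg h0 _ _) (Real.exp_pos _).le
  · exact mul_le_mul_of_nonneg_right ((lamA_le h0 _ _).trans (mkf_bd h1 _ _)) (Real.exp_pos _).le

theorem tail_rho (hf : FreeLaw (mkf A u c one)) {q : ℕ}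
    (h0 : ∀ p, 0 ≤ ω p) (h1 : ∀ p, IsPIrr p → ω p ≤ (ln p : ℝ) ^ q) :
    (∀ m x, 0 ≤ rhoA A u c ω m x) ∧
    ∃ δ > 0, Summable (fun p : ℕ × ℤ => rhoA A u c ω p.1 p.2 * Real.exp (δ * p.1)) := by
  refine ⟨rhoA_nonneg h0, ?_⟩
  obtain ⟨δ, hδ, hs⟩ := summable_pow hf q
  refine ⟨δ, hδ, Summable.of_nonneg_of_le (fun p => ?_) (fun p => ?_) hs⟩
  · exact mul_nonneg (rhoA_nonneg h0 _ _) (Real.exp_pos _).le
  · refine mul_le_mul_of_nonneg_right (((rhoA_le h0 _ _).trans (mkf_bd h1 _ _)).trans ?_)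
      (Real.exp_pos _).le
    rw [hf.symm]

open Classical in
theorem capLaw_lam (hA : IsClass A) (hf : FreeLaw (mkf A u c one)) :
    CapLaw (lamA A u c one) := by
  have ht := tail_lam (q := 0) hf one_nonneg' (fun p _ => by simp [one])
  refine ⟨ht.1, ?_, ht.2, ?_⟩
  · intro m x h
    have hx := lamA_pos_of_ne h
    have h2 : mkf A u c one m x ≠ 0 := by
      intro h3
      exact h (le_antisymm (h3 ▸ lamA_le one_nonneg' m x) (lamA_nonneg one_nonneg' m x))
    have h3 := hf.supp m x h2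
    exact ⟨hx, (abs_le.1 h3.2.1).2, h3.2.2⟩
  · refine ⟨3, 1, ne_of_gt ?_⟩
    unfold lamA
    rw [if_pos one_pos]
    refine Finset.sum_pos (fun p _ => mul_pos one_pos (wt_pos u c p))
      ⟨([Dir.E, Dir.N], [Dir.E]), ?_⟩
    rw [Finset.mem_filter]
    exact ⟨blk_EN hA, ht_EN, capL_EN⟩

open Classical in
theorem capLaw_rho (hA : IsClass A) (hf : FreeLaw (mkf A u c one)) :
    CapLaw (rhoA A u c one) := by
  have ht := tail_rho (q := 0) hf one_nonneg' (fun p _ => by simp [one])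
  refine ⟨ht.1, ?_, ht.2, ?_⟩
  · intro m x h
    have hx := rhoA_pos_of_ne h
    have h2 : mkf A u c one m x ≠ 0 := by
      intro h3
      rw [← hf.symm] at h3
      exact h (le_antisymm (h3 ▸ rhoA_le one_nonneg' m x) (rhoA_nonneg one_nonneg' m x))
    have h3 := hf.supp m x h2
    exact ⟨hx, (abs_le.1 h3.2.1).2, h3.2.2⟩
  · refine ⟨3, 1, ne_of_gt ?_⟩
    unfold rhoA
    rw [if_pos one_pos]
    refine Finset.sum_pos (fun p _ => mul_pos one_pos (wt_pos u c p))
      ⟨([Dir.E, Dir.S], [Dir.E]), ?_⟩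
    rw [Finset.mem_filter]
    exact ⟨blk_ES hA, capR_ES⟩

/-! ### all blocks -/

open Classical in
/-- the weight of the blocks of length `N` -/
lemma sum_blk (N : ℕ) (ω : PW → ℝ) : ∑ p ∈ blk A N, ω p * wt u c p =
    ∑ d ∈ Finset.Icc (-(N : ℤ)) N, mkf A u c ω N d := by
  unfold mkf
  refine (Finset.sum_fiberwise_of_maps_to (g := ht) (fun p hp => ?_) _).symm
  rw [mem_blk] at hp
  have := abs_ht_lt hp.2.1
  rw [hp.1, abs_lt] at this
  rw [Finset.mem_Icc]
  omega

theorem tail_blk (hf : FreeLaw (mkf A u c one)) {q : ℕ}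
    (h0 : ∀ p, 0 ≤ ω p) (h1 : ∀ p, IsPIrr p → ω p ≤ (ln p : ℝ) ^ q) :
    Tendsto (fun N : ℕ => (N : ℝ) ^ (1 / 2 : ℝ) * ∑ p ∈ blk A N, ω p * wt u c p) atTop (𝓝 0) := by
  obtain ⟨δ, hδ, hs⟩ := summable_pow hf (q + 1)
  have hs1 := hs.prod.tendsto_atTop_zero
  refine squeeze_zero' (g := fun N : ℕ => ∑' d : ℤ,
    ((N : ℝ) ^ (q + 1) * mkf A u c one N d * Real.exp (δ * N)))
    (Eventually.of_forall fun N => ?_) ?_ hs1
  · exact mul_nonneg (by positivity)
      (Finset.sum_nonneg fun p _ => mul_nonneg (h0 p) (wt_pos u c p).le)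
  · filter_upwards [eventually_ge_atTop 1] with N hN
    have hN' : (1 : ℝ) ≤ N := by exact_mod_cast hN
    rw [sum_blk, Finset.mul_sum]
    have hsN : Summable fun d : ℤ => (N : ℝ) ^ (q + 1) * mkf A u c one N d * Real.exp (δ * N) :=
      hs.prod_factor N
    refine le_trans (Finset.sum_le_sum fun d _ => ?_)
      (hsN.sum_le_tsum (Finset.Icc (-(N : ℤ)) N) fun d _ => ?_)
    · have h2 : (N : ℝ) ^ (1 / 2 : ℝ) ≤ N := by
        calc (N : ℝ) ^ (1 / 2 : ℝ) ≤ (N : ℝ) ^ (1 : ℝ) :=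
              Real.rpow_le_rpow_of_exponent_le hN' (by norm_num)
          _ = N := Real.rpow_one _
      have h3 := mkf_bd h1 N d (A := A) (u := u) (c := c)
      have h4 : (1 : ℝ) ≤ Real.exp (δ * N) := Real.one_le_exp (by positivity)
      have h5 : 0 ≤ mkf A u c ω N d := mkf_nonneg h0 _ _
      have h6 : 0 ≤ mkf A u c one N d := mkf_nonneg one_nonneg' _ _
      calc (N : ℝ) ^ (1 / 2 : ℝ) * mkf A u c ω N d ≤ N * ((N : ℝ) ^ q * mkf A u c one N d) :=
            mul_le_mul h2 h3 h5 (by positivity)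
        _ = (N : ℝ) ^ (q + 1) * mkf A u c one N d := by ring
        _ ≤ (N : ℝ) ^ (q + 1) * mkf A u c one N d * Real.exp (δ * N) :=
            le_mul_of_one_le_right (by positivity) h4
    · exact mul_nonneg (mul_nonneg (by positivity) (mkf_nonneg one_nonneg' _ _))
        (Real.exp_pos _).le

lemma summable_mkf (hf : FreeLaw (mkf A u c one)) {q : ℕ}
    (h0 : ∀ p, 0 ≤ ω p) (h1 : ∀ p, IsPIrr p → ω p ≤ (ln p : ℝ) ^ q) :
    Summable (fun p : ℕ × ℤ => mkf A u c ω p.1 p.2) := by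
  obtain ⟨δ, hδ, hs⟩ := summable_pow hf q
  refine Summable.of_nonneg_of_le (fun p => mkf_nonneg h0 _ _) (fun p => ?_) hs
  refine (mkf_bd h1 _ _).trans (le_mul_of_one_le_right ?_ (Real.one_le_exp (by positivity)))
  exact mul_nonneg (by positivity) (hf.nonneg _ _)

theorem sum_mkf_pos (hA : IsClass A) (hf : FreeLaw (mkf A u c one)) {q : ℕ}
    (h0 : ∀ p, 0 ≤ ω p) (h1 : ∀ p, IsPIrr p → ω p ≤ (ln p : ℝ) ^ q)
    (h2 : 0 < ω ([Dir.E], [Dir.E])) : 0 < ∑' p : ℕ × ℤ, mkf A u c ω p.1 p.2 := by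
  refine (summable_mkf hf h0 h1).tsum_pos (fun p => mkf_nonneg h0 _ _) (2, 0) ?_
  exact lt_of_lt_of_le (mul_pos h2 (wt_pos u c _)) (mkf_ge h0 (blk_EE hA) ht_EE)

end Pool.Agent.SAPX
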