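import Pool.Agent.SAPK.RenewK
import Pool.Agent.SAPX.Wiener
import Pool.Agent.SAPX.PBlocks

/-!
The law of the blocks: total weight one, exponential tail.
-/

namespace Pool.Agent.SAPX

open scoped ENNReal
open Filter Topology Pool.Agent.SAPF Pool.Agent.SAPK

namespace Law

/-- span -/
def spn (w : Word) : ℕ := (X w).toNat

lemma isSize_spn : IsSize spn := isSize_span

/-- weight of a pair restricted to a class -/
noncomputable def wp (A : Set Word) (u c : ℝ) (p : PW) : ℝ≥0∞ := exA A u c 0 p.1 * exA A u c 0 p.2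

/-- pairs of bridges of span `s` -/
def PBS (s : ℕ) : Set PW := {p | p ∈ {p : PW | IsPB p} ∧ spn p.1 = s}

/-- blocks -/
def PI : Set PW := {p | IsPIrr p}

/-- blocks of span `s` -/
def PIS (s : ℕ) : Set PW := {p | p ∈ PI ∧ spn p.1 = s}

lemma PBS_eq (s : ℕ) : PBS s = BrZ spn s ×ˢ BrZ spn s := by
  ext p
  simp only [PBS, BrZ, Set.mem_prod, Set.mem_ofPred_eq]
  constructor
  · rintro ⟨h, hs⟩
    refine ⟨⟨h.br1, hs⟩, h.br2, ?_⟩
    rw [← hs]; unfold spn; rw [h.span]
  · rintro ⟨⟨h1, h2⟩, h3, h4⟩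
    refine ⟨⟨h1, h3, ?_⟩, h2⟩
    have e1 := h1.X_nonneg
    have e2 := h3.X_nonneg
    unfold spn at h2 h4
    omega

lemma mass_PBS (A : Set Word) (u c : ℝ) (s : ℕ) :
    mass (wp A u c) (PBS s) = mass (exA A u c 0) (BrZ spn s) ^ 2 := by
  rw [PBS_eq, sq, ← mass_prod]
  rfl

lemma mass_conv {α β : Type*} (φ : α → ℝ≥0∞) (ψ : β → ℝ≥0∞) (P : Set α) (Q : Set β) (s : α → ℕ)
    (t : β → ℕ) (n : ℕ) :
    mass (fun x : α × β => φ x.1 * ψ x.2) {x | x.1 ∈ P ∧ x.2 ∈ Q ∧ s x.1 + t x.2 = n} =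
      ∑ k ∈ Finset.range (n + 1),
        mass φ {a | a ∈ P ∧ s a = k} * mass ψ {b | b ∈ Q ∧ t b = n - k} := by
  have h1 : ∀ k, mass φ {a | a ∈ P ∧ s a = k} * mass ψ {b | b ∈ Q ∧ t b = n - k} =
      mass (fun x : α × β => φ x.1 * ψ x.2) ({a | a ∈ P ∧ s a = k} ×ˢ {b | b ∈ Q ∧ t b = n - k}) :=
    fun k => (mass_prod _ _ _ _).symm
  rw [Finset.sum_congr rfl fun k _ => h1 k]
  simp only [mass_eq_indicator]
  rw [← Summable.tsum_finsetSum (fun _ _ => ENNReal.summable)]
  refine tsum_congr fun x => ?_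
  by_cases hx : x.1 ∈ P ∧ x.2 ∈ Q ∧ s x.1 + t x.2 = n
  · rw [Set.indicator_of_mem (show x ∈ {x : α × β | x.1 ∈ P ∧ x.2 ∈ Q ∧
      s x.1 + t x.2 = n} from hx)]
    rw [Finset.sum_eq_single (s x.1)]
    · rw [Set.indicator_of_mem]
      exact ⟨⟨hx.1, rfl⟩, ⟨hx.2.1, by omega⟩⟩
    · intro k _ hk
      rw [Set.indicator_of_notMem]
      exact fun hh => hk hh.1.2.symm
    · intro h
      exact absurd (Finset.mem_range.2 (by omega)) h
  · rw [Set.indicator_of_notMem (show x ∉ {x : α × β | x.1 ∈ P ∧ x.2 ∈ Q ∧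
      s x.1 + t x.2 = n} from hx)]
    symm
    refine Finset.sum_eq_zero fun k hk => ?_
    rw [Set.indicator_of_notMem]
    intro hh
    have hk' := Finset.mem_range.1 hk
    refine hx ⟨hh.1.1, hh.2.1, ?_⟩
    have e1 := hh.1.2
    have e2 := hh.2.2
    omega

lemma tsum_fib {α : Type*} (φ : α → ℝ≥0∞) (P : Set α) (s : α → ℕ) :
    ∑' n, mass φ {a | a ∈ P ∧ s a = n} = mass φ P := by
  simp only [mass_eq_indicator]
  rw [ENNReal.tsum_comm]
  refine tsum_congr fun w => ?_
  rw [tsum_eq_single (s w)]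
  · by_cases h : w ∈ P
    · rw [Set.indicator_of_mem h, Set.indicator_of_mem]
      exact ⟨h, rfl⟩
    · rw [Set.indicator_of_notMem h, Set.indicator_of_notMem]
      exact fun hh => h hh.1
  · intro n hn
    rw [Set.indicator_of_notMem]
    exact fun hh => hn hh.2.symm

/-! ### the first block -/

lemma exists_first_blk {p : PW} (hp : IsPB p) (h0 : p.1 ≠ []) :
    ∃ q r : PW, IsPIrr q ∧ IsPB r ∧ p = (q.1 ++ r.1, q.2 ++ r.2) := by
  obtain ⟨h1, h2⟩ := blocks_spec hp
  cases hb : blocks p with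
  | nil =>
    rw [hb] at h2
    rw [← h2] at h0
    exact absurd rfl h0
  | cons q l =>
    rw [hb] at h1 h2
    exact ⟨q, pfl l, h1 q (by simp), isPB_pfl fun x hx => h1 x (by simp [hx]), h2.symm⟩

lemma blk_append_inj {q q' r r' : PW} (hq : IsPIrr q) (hq' : IsPIrr q') (hr : IsPB r)
    (hr' : IsPB r') (h : (q.1 ++ r.1, q.2 ++ r.2) = (q'.1 ++ r'.1, q'.2 ++ r'.2)) :
    q = q' ∧ r = r' := by
  obtain ⟨h1, h2⟩ := blocks_spec hr
  obtain ⟨h1', h2'⟩ := blocks_spec hr'
  have e1 : pfl (q :: blocks r) = (q.1 ++ r.1, q.2 ++ r.2) := by rw [pfl_cons, h2]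
  have e2 : pfl (q' :: blocks r') = (q'.1 ++ r'.1, q'.2 ++ r'.2) := by rw [pfl_cons, h2']
  have e3 : blocks (pfl (q :: blocks r)) = q :: blocks r := blocks_pfl (by
    intro x hx
    rcases List.mem_cons.1 hx with rfl | hx
    · exact hq
    · exact h1 x hx)
  have e4 : blocks (pfl (q' :: blocks r')) = q' :: blocks r' := blocks_pfl (by
    intro x hx
    rcases List.mem_cons.1 hx with rfl | hx
    · exact hq'
    · exact h1' x hx)
  have e5 : q :: blocks r = q' :: blocks r' := by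
    rw [← e3, ← e4, e1, e2, h]
  obtain ⟨e6, e7⟩ := List.cons_eq_cons.1 e5
  exact ⟨e6, by rw [← h2, ← h2', e7]⟩

lemma wp_append {A : Set Word} (hA : IsClass A) {u c : ℝ} {q r : PW} (hq : IsPB q) (hr : IsPB r) :
    wp A u c (q.1 ++ r.1, q.2 ++ r.2) = wp A u c q * wp A u c r := by
  unfold wp
  simp only
  rw [exA_append hA hq.br1 hr.br1, exA_append hA hq.br2 hr.br2]
  ring

lemma spn_append {q r : Word} (hq : IsBr q) (hr : IsBr r) : spn (q ++ r) = spn q + spn r :=
  isSize_spn.add hq hr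

/-- the renewal equation for pairs of bridges -/
lemma renewal_pairs {A : Set Word} (hA : IsClass A) (u c : ℝ) {n : ℕ} (hn : 1 ≤ n) :
    mass (wp A u c) (PBS n) =
      ∑ k ∈ Finset.range (n + 1), mass (wp A u c) (PIS k) * mass (wp A u c) (PBS (n - k)) := by
  have hset : PBS n = (fun x : PW × PW => (x.1.1 ++ x.2.1, x.1.2 ++ x.2.2)) ''
      {x | x.1 ∈ PI ∧ x.2 ∈ {p : PW | IsPB p} ∧ spn x.1.1 + spn x.2.1 = n} := by
    ext p
    simp only [PBS, Set.mem_ofPred_eq, Set.mem_image, Prod.exists]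
    constructor
    · rintro ⟨h1, h2⟩
      have h0 : p.1 ≠ [] := by
        intro h0
        rw [h0] at h2
        unfold spn at h2
        simp at h2
        omega
      obtain ⟨q, r, hq, hr, rfl⟩ := exists_first_blk h1 h0
      refine ⟨q.1, q.2, r.1, r.2, ⟨hq, hr, ?_⟩, rfl⟩
      rw [← h2]
      exact (spn_append hq.pb.br1 hr.br1).symm
    · rintro ⟨q1, q2, r1, r2, ⟨hq, hr, h⟩, rfl⟩
      have hq' : IsPIrr (q1, q2) := hq
      exact ⟨hq'.pb.append hr, by rw [← h]; exact spn_append hq'.pb.br1 hr.br1⟩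
  have hinj : Set.InjOn (fun x : PW × PW => ((x.1.1 ++ x.2.1, x.1.2 ++ x.2.2) : PW))
      {x | x.1 ∈ PI ∧ x.2 ∈ {p : PW | IsPB p} ∧ spn x.1.1 + spn x.2.1 = n} := by
    rintro ⟨a, b⟩ ⟨ha, hb, -⟩ ⟨a', b'⟩ ⟨ha', hb', -⟩ h
    have := blk_append_inj ha ha' hb hb' h
    exact Prod.ext this.1 this.2
  rw [hset, mass_image _ hinj]
  rw [mass_congr (ψ := fun x : PW × PW => wp A u c x.1 * wp A u c x.2)
    (fun x hx => wp_append hA hx.1.pb hx.2.1)]
  exact mass_conv (wp A u c) (wp A u c) PI {p : PW | IsPB p} (fun p => spn p.1) (fun p => spn p.1) n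

lemma PIS_zero : PIS 0 = ∅ := by
  ext p
  simp only [PIS, Set.mem_ofPred_eq, Set.mem_empty_iff_false, iff_false]
  rintro ⟨h1, h2⟩
  have := IsPIrr.pos h1
  unfold spn at h2
  omega

lemma renewal_real {B I : ℕ → ℝ≥0∞} (hB : ∀ n, B n ≠ ∞) (hI : ∀ n, I n ≠ ∞) (h0 : I 0 = 0)
    (h : ∀ n, 1 ≤ n → B n = ∑ k ∈ Finset.range (n + 1), I k * B (n - k)) (n : ℕ) (hn : 1 ≤ n) :
    (B n).toReal = ∑ i ∈ Finset.range n, (B i).toReal * (I (n - i)).toReal := by
  rw [h n hn, Finset.sum_range_succ', h0, zero_mul, add_zero,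
    ENNReal.toReal_sum (fun k _ => ENNReal.mul_ne_top (hI _) (hB _)),
    ← Finset.sum_range_reflect (fun i => (B i).toReal * (I (n - i)).toReal) n]
  refine Finset.sum_congr rfl fun k hk => ?_
  have hk' := Finset.mem_range.1 hk
  rw [ENNReal.toReal_mul, mul_comm, show n - 1 - k = n - (k + 1) by omega,
    show n - (n - (k + 1)) = k + 1 by omega]

/-! ### exponential weights -/

lemma exA_span {A : Set Word} (u c e : ℝ) {w : Word} {s : ℕ} (hw : w ∈ BrZ spn s) :
    exA A u c 0 w = ENNReal.ofReal (Real.exp (e * s)) * exA A u (c - e) 0 w := by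
  by_cases hwA : w ∈ A
  · rw [exA_of_mem hwA, exA_of_mem hwA]
    unfold ex
    rw [← ENNReal.ofReal_mul (Real.exp_pos _).le, ← Real.exp_add]
    congr 2
    have h1 := hw.1.X_nonneg
    have h2 : ((X w : ℤ) : ℝ) = s := by
      have h3 : (X w).toNat = s := hw.2
      have h4 : X w = (s : ℤ) := by omega
      rw [h4]; simp
    rw [h2]; ring
  · rw [exA_of_notMem hwA, exA_of_notMem hwA, mul_zero]

/-- convexity of the exponential weights in the step variable -/
lemma exA_convex_u {A : Set Word} (u c δ t : ℝ) (ht : 0 ≤ t) (ht1 : t ≤ 1) (w : Word) :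
    exA A (u - t * δ) c 0 w ≤
      ENNReal.ofReal (1 - t) * exA A u c 0 w + ENNReal.ofReal t * exA A (u - δ) c 0 w := by
  by_cases hwA : w ∈ A
  · rw [exA_of_mem hwA, exA_of_mem hwA, exA_of_mem hwA]
    unfold ex
    rw [← ENNReal.ofReal_mul (by linarith), ← ENNReal.ofReal_mul ht,
      ← ENNReal.ofReal_add (mul_nonneg (by linarith) (Real.exp_pos _).le)
        (mul_nonneg ht (Real.exp_pos _).le)]
    apply ENNReal.ofReal_le_ofReal
    have hconv := convexOn_exp.2 (Set.mem_univ (-u * w.length + c * X w + 0 * Y w))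
      (Set.mem_univ (-(u - δ) * w.length + c * X w + 0 * Y w)) (show (0:ℝ) ≤ 1 - t by linarith) ht
      (by ring)
    simp only [smul_eq_mul] at hconv
    refine le_trans (le_of_eq ?_) hconv
    congr 1
    ring
  · rw [exA_of_notMem hwA]
    exact zero_le

/-- the bridges of span `s` grow at most exponentially, with a small rate for small `δ` -/
lemma mass_brZ_tilt {A : Set Word} (hA : IsClass A) {u c : ℝ} (hP : ParamsA A u c) {e : ℝ}
    (he : 0 < e) : ∃ δ > 0, ∀ s, mass (exA A (u - δ) c 0) (BrZ spn s) ≤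
      ENNReal.ofReal (Real.exp (e * s)) := by
  obtain ⟨δ, hδ, hfin⟩ := hP.tail
  set M := mass (exA A (u - δ) c 0) Irr with hM
  have hM0 : 0 ≤ M.toReal := ENNReal.toReal_nonneg
  have he1 : Real.exp (-e) < 1 := by
    rw [← Real.exp_zero]; exact Real.exp_lt_exp.2 (by linarith)
  set t : ℝ := (1 - Real.exp (-e)) / (1 + M.toReal) with ht
  have ht0 : 0 < t := div_pos (by linarith) (by linarith)
  have ht1 : t ≤ 1 := by
    rw [ht, div_le_one (by linarith)]
    have := Real.exp_pos (-e)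
    linarith
  have htM : t * (1 + M.toReal) = 1 - Real.exp (-e) := by
    rw [ht]; field_simp
  -- the irreducible bridges, tilted in the span variable
  have hshift : ∀ v : ℝ, mass (exA A v (c - e) 0) Irr ≤
      ENNReal.ofReal (Real.exp (-e)) * mass (exA A v c 0) Irr := by
    intro v
    rw [← mass_const_mul]
    refine mass_mono_fun fun w hw => ?_
    by_cases hwA : w ∈ A
    · rw [exA_of_mem hwA, exA_of_mem hwA]
      unfold ex
      rw [← ENNReal.ofReal_mul (Real.exp_pos _).le, ← Real.exp_add]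
      apply ENNReal.ofReal_le_ofReal
      apply Real.exp_le_exp.2
      have h1 : (1 : ℝ) ≤ X w := by
        have := IsIrr.X_pos hw
        exact_mod_cast this
      nlinarith
    · rw [exA_of_notMem hwA]
      exact zero_le
  have hIrr : mass (exA A (u - t * δ) (c - e) 0) Irr ≤ 1 := by
    calc mass (exA A (u - t * δ) (c - e) 0) Irr
        ≤ mass (fun w => ENNReal.ofReal (1 - t) * exA A u (c - e) 0 w +
            ENNReal.ofReal t * exA A (u - δ) (c - e) 0 w) Irr :=
          mass_mono_fun fun w _ => exA_convex_u u (c - e) δ t ht0.le ht1 w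
      _ = ENNReal.ofReal (1 - t) * mass (exA A u (c - e) 0) Irr +
            ENNReal.ofReal t * mass (exA A (u - δ) (c - e) 0) Irr := by
          rw [mass_add, mass_const_mul, mass_const_mul]
      _ ≤ ENNReal.ofReal (1 - t) * (ENNReal.ofReal (Real.exp (-e)) * 1) +
            ENNReal.ofReal t * (ENNReal.ofReal (Real.exp (-e)) * M) := by
          gcongr
          · rw [← hP.one]; exact hshift u
          · exact hshift (u - δ)
      _ = ENNReal.ofReal ((1 - t) * Real.exp (-e) + t * (Real.exp (-e) * M.toReal)) := by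
          rw [mul_one, ENNReal.ofReal_add (mul_nonneg (by linarith) (Real.exp_pos _).le)
            (mul_nonneg ht0.le (mul_nonneg (Real.exp_pos _).le hM0)),
            ENNReal.ofReal_mul (by linarith), ENNReal.ofReal_mul ht0.le,
            ENNReal.ofReal_mul (Real.exp_pos _).le, ENNReal.ofReal_toReal hfin]
      _ ≤ 1 := by
          rw [← ENNReal.ofReal_one]
          apply ENNReal.ofReal_le_ofReal
          have h1 := Real.exp_pos (-e)
          nlinarith [mul_nonneg ht0.le hM0, mul_nonneg (mul_nonneg ht0.le hM0) h1.le]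
  refine ⟨t * δ, mul_pos ht0 hδ, fun s => ?_⟩
  have h1 : mass (exA A (u - t * δ) (c - e) 0) (BrZ spn s) ≤ 1 :=
    mass_brZ_le_oneA (fun v w hv hw => exA_append hA hv hw) (exA_nil hA) isSize_spn hIrr s
  rw [mass_congr (fun w hw => exA_span (A := A) (u - t * δ) c e hw), mass_const_mul]
  calc ENNReal.ofReal (Real.exp (e * s)) * mass (exA A (u - t * δ) (c - e) 0) (BrZ spn s)
      ≤ ENNReal.ofReal (Real.exp (e * s)) * 1 := by gcongr
    _ = _ := mul_one _

/-! ### the renewal sequences -/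

section seqs
variable {A : Set Word} {u c : ℝ}

/-- bridges of span `s` -/
noncomputable def bb (A : Set Word) (u c : ℝ) (s : ℕ) : ℝ := (mass (exA A u c 0) (BrZ spn s)).toReal
/-- irreducible bridges of span `s` -/
noncomputable def ff (A : Set Word) (u c : ℝ) (s : ℕ) : ℝ := (mass (exA A u c 0) (IrrZ spn s)).toReal
/-- blocks of span `s` -/
noncomputable def gg (A : Set Word) (u c : ℝ) (s : ℕ) : ℝ := (mass (wp A u c) (PIS s)).toReal

lemma brZ_le_one (hA : IsClass A) (hP : ParamsA A u c) (s : ℕ) :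
    mass (exA A u c 0) (BrZ spn s) ≤ 1 :=
  mass_brZ_le_oneA (fun _ _ hv hw => exA_append hA hv hw) (exA_nil hA) isSize_spn hP.one.le s

lemma brZ_ne_top (hA : IsClass A) (hP : ParamsA A u c) (s : ℕ) :
    mass (exA A u c 0) (BrZ spn s) ≠ ∞ :=
  ne_top_of_le_ne_top ENNReal.one_ne_top (brZ_le_one hA hP s)

lemma irrZ_ne_top (hP : ParamsA A u c) (s : ℕ) : mass (exA A u c 0) (IrrZ spn s) ≠ ∞ := by
  refine ne_top_of_le_ne_top ENNReal.one_ne_top ?_
  rw [← hP.one]
  exact mass_mono fun w hw => hw.1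

lemma PBS_ne_top (hA : IsClass A) (hP : ParamsA A u c) (s : ℕ) :
    mass (wp A u c) (PBS s) ≠ ∞ := by
  rw [mass_PBS]
  exact ENNReal.pow_ne_top (brZ_ne_top hA hP s)

lemma PIS_subset (s : ℕ) : PIS s ⊆ PBS s := fun _ hp => ⟨IsPIrr.pb hp.1, hp.2⟩

lemma PIS_ne_top (hA : IsClass A) (hP : ParamsA A u c) (s : ℕ) :
    mass (wp A u c) (PIS s) ≠ ∞ :=
  ne_top_of_le_ne_top (PBS_ne_top hA hP s) (mass_mono (PIS_subset s))

lemma bb_nonneg (s : ℕ) : 0 ≤ bb A u c s := ENNReal.toReal_nonneg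
lemma ff_nonneg (s : ℕ) : 0 ≤ ff A u c s := ENNReal.toReal_nonneg
lemma gg_nonneg (s : ℕ) : 0 ≤ gg A u c s := ENNReal.toReal_nonneg

lemma bb_le_one (hA : IsClass A) (hP : ParamsA A u c) (s : ℕ) : bb A u c s ≤ 1 := by
  have := ENNReal.toReal_mono ENNReal.one_ne_top (brZ_le_one hA hP s)
  simpa [bb] using this

lemma bb_zero (hA : IsClass A) : bb A u c 0 = 1 := by
  unfold bb
  rw [mass_brZ_zero isSize_spn (exA_nil hA), ENNReal.toReal_one]

lemma ff_zero : ff A u c 0 = 0 := by
  unfold ff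
  rw [mass_irrZ_zero isSize_spn, ENNReal.toReal_zero]

lemma gg_zero : gg A u c 0 = 0 := by
  unfold gg
  rw [PIS_zero, mass_empty, ENNReal.toReal_zero]

lemma isIrr_E : IsIrr [Dir.E] := by
  refine ⟨isBr_singleton_E, by simp, ?_⟩
  intro v w h _ _
  have h1 := congrArg List.length h
  simp only [List.length_cons, List.length_nil, List.length_append] at h1
  rcases Nat.eq_zero_or_pos v.length with h2 | h2
  · exact Or.inl (List.length_eq_zero_iff.1 h2)
  · exact Or.inr (List.length_eq_zero_iff.1 (by omega))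

lemma ff_one_pos (hA : IsClass A) (hP : ParamsA A u c) : 0 < ff A u c 1 := by
  have h1 : exA A u c 0 [Dir.E] ≤ mass (exA A u c 0) (IrrZ spn 1) :=
    le_mass (show [Dir.E] ∈ IrrZ spn 1 from ⟨isIrr_E, by simp [spn, Dir.dx]⟩)
  rw [exA_of_mem hA.E] at h1
  exact ENNReal.toReal_pos (lt_of_lt_of_le (ex_pos _ _ _ _) h1).ne' (irrZ_ne_top hP 1)

lemma hasSum_ff (hP : ParamsA A u c) : HasSum (ff A u c) 1 := by
  have h1 : ∑' n, mass (exA A u c 0) (IrrZ spn n) = 1 := by rw [tsum_irrZ, hP.one]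
  have h2 := ENNReal.hasSum_toReal (f := fun n => mass (exA A u c 0) (IrrZ spn n))
    (by rw [h1]; exact ENNReal.one_ne_top)
  rw [← ENNReal.tsum_toReal_eq (fun n => irrZ_ne_top hP n), h1, ENNReal.toReal_one] at h2
  exact h2

lemma ff_tail (hP : ParamsA A u c) : ∃ δ > 0, Summable (fun n => ff A u c n * Real.exp δ ^ n) := by
  obtain ⟨δ, hδ, hfin⟩ := hP.tail
  refine ⟨δ, hδ, ?_⟩
  have h1 : ∑' n, mass (exA A (u - δ) c 0) (IrrZ spn n) ≠ ∞ := by rw [tsum_irrZ]; exact hfin
  have h2 := ENNReal.summable_toReal h1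
  refine Summable.of_nonneg_of_le (fun n => mul_nonneg (ff_nonneg n) (by positivity)) (fun n => ?_) h2
  have h3 : ENNReal.ofReal (Real.exp δ ^ n) * mass (exA A u c 0) (IrrZ spn n) ≤
      mass (exA A (u - δ) c 0) (IrrZ spn n) := by
    rw [← mass_const_mul]
    refine mass_mono_fun fun w hw => ?_
    by_cases hwA : w ∈ A
    · rw [exA_of_mem hwA, exA_of_mem hwA]
      unfold ex
      rw [← ENNReal.ofReal_mul (by positivity), ← Real.exp_nat_mul, ← Real.exp_add]
      apply ENNReal.ofReal_le_ofReal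
      apply Real.exp_le_exp.2
      have h4 : (X w).toNat = n := hw.2
      have h5 := hw.1.br.X_nonneg
      have h6 := (abs_le.1 (abs_X_le w)).2
      have h7 : (n : ℝ) ≤ w.length := by
        have : (n : ℤ) ≤ w.length := by omega
        exact_mod_cast this
      nlinarith
    · rw [exA_of_notMem hwA, mul_zero]
      exact zero_le
  have h4 : mass (exA A (u - δ) c 0) (IrrZ spn n) ≠ ∞ :=
    ne_top_of_le_ne_top h1 (ENNReal.le_tsum n)
  have h5 := ENNReal.toReal_mono h4 h3
  rw [ENNReal.toReal_mul, ENNReal.toReal_ofReal (by positivity), mul_comm] at h5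
  exact h5

lemma bb_rec (hA : IsClass A) (hP : ParamsA A u c) (n : ℕ) (hn : 1 ≤ n) :
    bb A u c n = ∑ i ∈ Finset.range n, bb A u c i * ff A u c (n - i) :=
  renewal_real (fun s => brZ_ne_top hA hP s) (fun s => irrZ_ne_top hP s)
    (mass_irrZ_zero isSize_spn)
    (fun _ hn => renewalA (fun _ _ hv hw => exA_append hA hv hw) isSize_spn hn) n hn

lemma bb_sq (s : ℕ) : (mass (wp A u c) (PBS s)).toReal = bb A u c s ^ 2 := by
  rw [mass_PBS, ENNReal.toReal_pow]; rfl

lemma gg_rec (hA : IsClass A) (hP : ParamsA A u c) (n : ℕ) (hn : 1 ≤ n) :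
    bb A u c n ^ 2 = ∑ i ∈ Finset.range n, bb A u c i ^ 2 * gg A u c (n - i) := by
  have h := renewal_real (fun s => PBS_ne_top hA hP s) (fun s => PIS_ne_top hA hP s)
    (by rw [PIS_zero, mass_empty]) (fun n hn => renewal_pairs hA u c hn) n hn
  simp only [bb_sq] at h
  exact h

lemma bb_lim (hA : IsClass A) (hP : ParamsA A u c) : ∃ a K r : ℝ, 0 < a ∧ 0 < K ∧ 0 < r ∧ r < 1 ∧
    ∀ n, |bb A u c n - a| ≤ K * r ^ n := by
  obtain ⟨δ, hδ, ht⟩ := ff_tail hP
  have hR : 1 < Real.exp δ := by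
    rw [← Real.exp_zero]; exact Real.exp_lt_exp.2 hδ
  obtain ⟨K, r, hK, hr0, hr1, h⟩ := exp_renewal (fun n => ff_nonneg n) ff_zero (ff_one_pos hA hP)
    (hasSum_ff hP) hR ht (bb_zero hA) (bb_rec hA hP)
  have hsum : Summable (fun k : ℕ => (k : ℝ) * ff A u c k) := by
    refine Summable.of_nonneg_of_le (fun k => mul_nonneg (Nat.cast_nonneg k) (ff_nonneg k))
      (fun k => ?_) (ht.mul_left δ⁻¹)
    have h1 : δ * k ≤ Real.exp δ ^ k := by
      rw [← Real.exp_nat_mul]
      have := Real.add_one_le_exp ((k : ℝ) * δ)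
      linarith
    have h2 : (k : ℝ) ≤ δ⁻¹ * Real.exp δ ^ k := by
      rw [inv_mul_eq_div, le_div_iff₀ hδ]; linarith
    have h3 := mul_le_mul_of_nonneg_right h2 (ff_nonneg (A := A) (u := u) (c := c) k)
    linarith
  have hpos : 0 < ∑' k : ℕ, (k : ℝ) * ff A u c k := by
    refine hsum.tsum_pos (fun k => mul_nonneg (Nat.cast_nonneg k) (ff_nonneg k)) 1 ?_
    simpa using ff_one_pos hA hP
  exact ⟨_, K, r, one_div_pos.2 hpos, hK, hr0, hr1, h⟩

lemma gg_law (hA : IsClass A) (hP : ParamsA A u c) : HasSum (gg A u c) 1 ∧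
    ∃ K r : ℝ, 0 < K ∧ 0 < r ∧ r < 1 ∧ ∀ n, gg A u c n ≤ K * r ^ n := by
  obtain ⟨a, K, r, ha, hK, hr0, hr1, h⟩ := bb_lim hA hP
  refine exp_renewal_inv (fun n => gg_nonneg n) gg_zero (v := fun n => bb A u c n ^ 2)
    (by simp only [bb_zero hA]; norm_num) (gg_rec hA hP) (a := a ^ 2) (K := K * (1 + a)) (r := r)
    (by positivity) hr0 hr1 (fun n => ?_)
  have h1 : bb A u c n ^ 2 - a ^ 2 = (bb A u c n - a) * (bb A u c n + a) := by ring
  have h2 := bb_nonneg (A := A) (u := u) (c := c) n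
  have h3 := bb_le_one hA hP n
  rw [h1, abs_mul, abs_of_nonneg (show 0 ≤ bb A u c n + a by linarith)]
  have h4 := h n
  have h5 : 0 ≤ K * r ^ n := by positivity
  calc |bb A u c n - a| * (bb A u c n + a) ≤ (K * r ^ n) * (1 + a) :=
        mul_le_mul h4 (by linarith) (by linarith) h5
    _ = K * (1 + a) * r ^ n := by ring

/-! ### total mass of the blocks -/

lemma mass_PI (hA : IsClass A) (hP : ParamsA A u c) : mass (wp A u c) PI = 1 := by
  have h1 : mass (wp A u c) PI = ∑' n, mass (wp A u c) (PIS n) :=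
    (tsum_fib (wp A u c) PI (fun p => spn p.1)).symm
  obtain ⟨h2, -⟩ := gg_law hA hP
  have h3 : ∀ n, mass (wp A u c) (PIS n) = ENNReal.ofReal (gg A u c n) := fun n =>
    (ENNReal.ofReal_toReal (PIS_ne_top hA hP n)).symm
  rw [h1, tsum_congr h3, ← ENNReal.ofReal_tsum_of_nonneg (fun n => gg_nonneg n) h2.summable,
    h2.tsum_eq, ENNReal.ofReal_one]

/-- interpolation -/
lemma wp_interp (δ : ℝ) {l : ℝ} (hl : 0 < l) (p : PW) :
    wp A (u - δ) c p ≤ ENNReal.ofReal l * wp A u c p +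
      ENNReal.ofReal l⁻¹ * wp A (u - 2 * δ) c p := by
  unfold wp
  by_cases h1 : p.1 ∈ A
  · by_cases h2 : p.2 ∈ A
    · rw [exA_of_mem h1, exA_of_mem h2, exA_of_mem h1, exA_of_mem h2, exA_of_mem h1, exA_of_mem h2]
      unfold ex
      rw [← ENNReal.ofReal_mul (Real.exp_pos _).le, ← ENNReal.ofReal_mul (Real.exp_pos _).le,
        ← ENNReal.ofReal_mul (Real.exp_pos _).le, ← ENNReal.ofReal_mul hl.le,
        ← ENNReal.ofReal_mul (inv_pos.2 hl).le, ← Real.exp_add, ← Real.exp_add, ← Real.exp_add,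
        ← ENNReal.ofReal_add (by positivity) (by positivity)]
      apply ENNReal.ofReal_le_ofReal
      set P : ℝ := -u * p.1.length + c * X p.1 + 0 * Y p.1 + (-u * p.2.length + c * X p.2 + 0 * Y p.2)
        with hPdef
      set n : ℝ := (p.1.length : ℝ) + p.2.length with hn
      have e1 : -(u - δ) * p.1.length + c * X p.1 + 0 * Y p.1 +
          (-(u - δ) * p.2.length + c * X p.2 + 0 * Y p.2) = P + δ * n := by
        rw [hPdef, hn]; ring
      have e2 : -(u - 2 * δ) * p.1.length + c * X p.1 + 0 * Y p.1 +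
          (-(u - 2 * δ) * p.2.length + c * X p.2 + 0 * Y p.2) = P + (δ * n + δ * n) := by
        rw [hPdef, hn]; ring
      rw [e1, e2, Real.exp_add, Real.exp_add P (δ * n + δ * n), Real.exp_add (δ * n) (δ * n)]
      have hE := Real.exp_pos P
      set E := Real.exp (δ * n) with hEdef
      have key : E ≤ l + l⁻¹ * (E * E) := by
        have h3 : l⁻¹ * (E * E) = (E * E) / l := by rw [inv_mul_eq_div]
        rw [h3, ← sub_nonneg]
        have h4 : l + E * E / l - E = ((l - E) ^ 2 + l * E) / l := by field_simp; ring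
        rw [h4]
        have hE2 : 0 < E := Real.exp_pos _
        positivity
      calc Real.exp P * E ≤ Real.exp P * (l + l⁻¹ * (E * E)) := by gcongr
        _ = l * Real.exp P + l⁻¹ * (Real.exp P * (E * E)) := by ring
    · rw [exA_of_notMem h2, mul_zero]
      exact zero_le
  · rw [exA_of_notMem h1, zero_mul]
    exact zero_le

lemma mass_PI_tail (hA : IsClass A) (hP : ParamsA A u c) :
    ∃ δ > 0, mass (wp A (u - δ) c) PI ≠ ∞ := by
  obtain ⟨-, K, r, hK, hr0, hr1, h⟩ := gg_law hA hP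
  -- `r = exp (- 8 e)`
  obtain ⟨e, he, hre⟩ : ∃ e : ℝ, 0 < e ∧ r = Real.exp (-(8 * e)) := by
    refine ⟨-Real.log r / 8, ?_, ?_⟩
    · have := Real.log_neg hr0 hr1
      linarith
    · rw [show -(8 * (-Real.log r / 8)) = Real.log r by ring, Real.exp_log hr0]
  obtain ⟨δ, hδ, hB⟩ := mass_brZ_tilt hA hP he
  refine ⟨δ / 2, by linarith, ?_⟩
  have h1 : mass (wp A (u - δ / 2) c) PI = ∑' n, mass (wp A (u - δ / 2) c) (PIS n) :=
    (tsum_fib (wp A (u - δ / 2) c) PI (fun p => spn p.1)).symm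
  rw [h1]
  have hle : ∀ n : ℕ, mass (wp A (u - δ / 2) c) (PIS n) ≤
      ENNReal.ofReal ((K + 1) * Real.exp (-(2 * e)) ^ n) := by
    intro n
    have hl : 0 < Real.exp (4 * e * n) := Real.exp_pos _
    calc mass (wp A (u - δ / 2) c) (PIS n)
        ≤ mass (fun p => ENNReal.ofReal (Real.exp (4 * e * n)) * wp A u c p +
            ENNReal.ofReal (Real.exp (4 * e * n))⁻¹ * wp A (u - 2 * (δ / 2)) c p) (PIS n) :=
          mass_mono_fun fun p _ => wp_interp (δ / 2) hl p
      _ = ENNReal.ofReal (Real.exp (4 * e * n)) * mass (wp A u c) (PIS n) +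
            ENNReal.ofReal (Real.exp (4 * e * n))⁻¹ * mass (wp A (u - δ) c) (PIS n) := by
          rw [mass_add, mass_const_mul, mass_const_mul, show 2 * (δ / 2) = δ by ring]
      _ ≤ ENNReal.ofReal (Real.exp (4 * e * n)) * ENNReal.ofReal (K * r ^ n) +
            ENNReal.ofReal (Real.exp (4 * e * n))⁻¹ * (ENNReal.ofReal (Real.exp (e * n))) ^ 2 := by
          gcongr
          · rw [← ENNReal.ofReal_toReal (PIS_ne_top hA hP n)]
            exact ENNReal.ofReal_le_ofReal (h n)
          · refine (mass_mono (PIS_subset n)).trans ?_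
            rw [mass_PBS]
            gcongr
            exact hB n
      _ = ENNReal.ofReal (Real.exp (4 * e * n) * (K * r ^ n) +
            (Real.exp (4 * e * n))⁻¹ * Real.exp (e * n) ^ 2) := by
          rw [ENNReal.ofReal_add (by positivity) (by positivity), ENNReal.ofReal_mul hl.le,
            ENNReal.ofReal_mul (inv_pos.2 hl).le, ENNReal.ofReal_pow (Real.exp_pos _).le]
      _ ≤ ENNReal.ofReal ((K + 1) * Real.exp (-(2 * e)) ^ n) := by
          apply ENNReal.ofReal_le_ofReal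
          rw [hre, ← Real.exp_neg, ← Real.exp_nat_mul, ← Real.exp_nat_mul, ← Real.exp_nat_mul]
          have e1 : Real.exp (4 * e * n) * (K * Real.exp (n * -(8 * e))) =
              K * Real.exp (-(4 * e * n)) := by
            rw [← mul_assoc, mul_comm (Real.exp _) K, mul_assoc, ← Real.exp_add]
            congr 2; ring
          have e2 : Real.exp (-(4 * e * n)) * Real.exp (((2 : ℕ) : ℝ) * (e * n)) =
              Real.exp (n * -(2 * e)) := by
            rw [← Real.exp_add]; congr 1; push_cast; ring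
          rw [e1, e2]
          have hn : (0 : ℝ) ≤ n := Nat.cast_nonneg n
          have e3 : Real.exp (-(4 * e * n)) ≤ Real.exp (n * -(2 * e)) := by
            apply Real.exp_le_exp.2
            nlinarith [mul_nonneg he.le hn]
          nlinarith
  refine ne_top_of_le_ne_top ?_ (ENNReal.tsum_le_tsum hle)
  have hq : Real.exp (-(2 * e)) < 1 := by
    rw [← Real.exp_zero]; exact Real.exp_lt_exp.2 (by linarith)
  have hs : Summable (fun n : ℕ => (K + 1) * Real.exp (-(2 * e)) ^ n) :=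
    (summable_geometric_of_lt_one (Real.exp_pos _).le hq).mul_left _
  rw [← ENNReal.ofReal_tsum_of_nonneg (fun n => by positivity) hs]
  exact ENNReal.ofReal_ne_top

/-! ### sums over length and height -/

open Classical in
lemma wp_eq (p : PW) : wp A u c p =
    if p.1 ∈ A ∧ p.2 ∈ A then ENNReal.ofReal (wt u c p) else 0 := by
  unfold wp
  by_cases h1 : p.1 ∈ A
  · by_cases h2 : p.2 ∈ A
    · rw [if_pos ⟨h1, h2⟩, exA_of_mem h1, exA_of_mem h2]
      unfold ex wt ln
      rw [← ENNReal.ofReal_mul (Real.exp_pos _).le, ← Real.exp_add]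
      congr 2
      push_cast
      ring
    · rw [if_neg (fun h => h2 h.2), exA_of_notMem h2, mul_zero]
  · rw [if_neg (fun h => h1 h.1), exA_of_notMem h1, zero_mul]

open Classical in
lemma hasSum_mkf (h : mass (wp A u c) PI ≠ ∞) :
    HasSum (fun x : ℕ × ℤ => mkf A u c one x.1 x.2) (mass (wp A u c) PI).toReal := by
  have h0 : mass (wp A u c) PI = ∑' p, PI.indicator (wp A u c) p := mass_eq_indicator _ _
  have h1 := ENNReal.hasSum_toReal (f := PI.indicator (wp A u c)) (h0 ▸ h)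
  have hne : ∀ p, PI.indicator (wp A u c) p ≠ ∞ := fun p =>
    ne_top_of_le_ne_top (h0 ▸ h) (ENNReal.le_tsum p)
  rw [← ENNReal.tsum_toReal_eq hne, ← h0] at h1
  have h2 := h1.tsum_fiberwise (fun p : PW => ((ln p, ht p) : ℕ × ℤ))
  refine (congrArg (fun f => HasSum f (mass (wp A u c) PI).toReal) (funext fun x => ?_)).mpr h2
  obtain ⟨m, d⟩ := x
  rw [tsum_subtype ((fun p : PW => ((ln p, ht p) : ℕ × ℤ)) ⁻¹' {(m, d)})
    (fun p => (PI.indicator (wp A u c) p).toReal)]
  rw [tsum_eq_sum (s := pwN m)]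
  · unfold mkf blk
    rw [Finset.filter_filter, Finset.sum_filter]
    refine Finset.sum_congr rfl fun p hp => ?_
    have hp' : ln p = m := mem_pwN.1 hp
    by_cases hd : ht p = d
    · rw [Set.indicator_of_mem (show p ∈ (fun p : PW => ((ln p, ht p) : ℕ × ℤ)) ⁻¹' {(m, d)} from by
        simp [hp', hd])]
      by_cases hI : IsPIrr p
      · rw [Set.indicator_of_mem (show p ∈ PI from hI), wp_eq]
        by_cases hc : p.1 ∈ A ∧ p.2 ∈ A
        · rw [if_pos hc, if_pos ⟨⟨hI, hc.1, hc.2⟩, hd⟩, ENNReal.toReal_ofReal (wt_pos _ _ _).le]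
          simp [one]
        · rw [if_neg hc, if_neg (fun hh => hc hh.1.2), ENNReal.toReal_zero]
      · rw [Set.indicator_of_notMem (show p ∉ PI from hI), if_neg (fun hh => hI hh.1.1),
          ENNReal.toReal_zero]
    · rw [Set.indicator_of_notMem, if_neg (fun hh => hd hh.2)]
      intro hh
      simp only [Set.mem_preimage, Set.mem_singleton_iff, Prod.mk.injEq] at hh
      exact hd hh.2
  · intro p hp
    rw [Set.indicator_of_notMem]
    intro hh
    simp only [Set.mem_preimage, Set.mem_singleton_iff, Prod.mk.injEq] at hh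
    exact hp (mem_pwN.2 hh.1)

lemma mkf_shift (δ : ℝ) (m : ℕ) (d : ℤ) :
    mkf A (u - δ) c one m d = mkf A u c one m d * Real.exp (δ * m) := by
  classical
  unfold mkf
  rw [Finset.sum_mul]
  refine Finset.sum_congr rfl fun p hp => ?_
  have h1 : ln p = m := (mem_blk.1 (Finset.mem_filter.1 hp).1).1
  unfold wt
  rw [mul_assoc, ← Real.exp_add, h1]
  congr 2
  ring

end seqs

/-! ### small blocks -/

lemma isPIrr_of_X_one {p : PW} (hp : IsPB p) (h : X p.1 = 1) : IsPIrr p := by
  refine ⟨hp, by omega, ?_⟩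
  intro q r hq hr h1 h2
  have e1 := hq.br1.X_nonneg
  have e2 := hr.br1.X_nonneg
  have e3 : X p.1 = X q.1 + X r.1 := by rw [h1, X_append]
  rcases (show X q.1 = 0 ∨ X r.1 = 0 by omega) with h3 | h3
  · left
    exact Prod.ext (IsBr.eq_nil_of_X hq.br1 h3)
      (IsBr.eq_nil_of_X hq.br2 (by rw [← hq.span]; exact h3))
  · right
    exact Prod.ext (IsBr.eq_nil_of_X hr.br1 h3)
      (IsBr.eq_nil_of_X hr.br2 (by rw [← hr.span]; exact h3))

lemma isBr_EN : IsBr [Dir.E, Dir.N] := by
  have key : ∀ t : Word, t <+: [Dir.E, Dir.N] → t = [] ∨ t = [Dir.E] ∨ t = [Dir.E, Dir.N] := by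
    intro t ht
    rcases prefix_append_cases (u := [Dir.E]) (v := [Dir.N]) ht with h | ⟨b, hb, hb0, rfl⟩
    · rcases eq_nil_or_singleton_of_prefix h with h | h
      · exact Or.inl h
      · exact Or.inr (Or.inl h)
    · rcases eq_nil_or_singleton_of_prefix hb with h | h
      · exact absurd h hb0
      · right; right; rw [h]; rfl
  have key2 : ∀ t : Word, t <:+ [Dir.E, Dir.N] → t = [] ∨ t = [Dir.N] ∨ t = [Dir.E, Dir.N] := by
    intro t ht
    have h1 : rv t <+: rv [Dir.E, Dir.N] := by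
      rw [prefix_rv, rv_rv]; exact ht
    have h2 : rv [Dir.E, Dir.N] = [Dir.S] ++ [Dir.W] := rfl
    rw [h2] at h1
    rcases prefix_append_cases h1 with h | ⟨b, hb, hb0, hb1⟩
    · rcases eq_nil_or_singleton_of_prefix h with h | h
      · exact Or.inl (rv_eq_nil.1 h)
      · right; left
        rw [← rv_rv t, h]; rfl
    · rcases eq_nil_or_singleton_of_prefix hb with h | h
      · exact absurd h hb0
      · right; right
        rw [← rv_rv t, hb1, h]; rfl
  refine ⟨?_, ?_, ?_⟩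
  · intro t ht hx hy
    rcases infix_append_cases (u := [Dir.E]) (v := [Dir.N]) ht with h | h | ⟨a, b, ha, hb, ha0, hb0, rfl⟩
    · exact isBr_singleton_E.saw t h hx hy
    · by_contra h0
      have h1 : t = [Dir.N] := by
        have hl : t.length ≤ 1 := by simpa using h.length_le
        have h2 := List.length_pos_iff.2 h0
        exact List.IsInfix.eq_of_length h (by simp; omega)
      rw [h1] at hy
      simp [Dir.dy] at hy
    · exfalso
      have h1 := isBr_singleton_E.suf ha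
      rcases eq_nil_or_singleton_of_prefix hb with h | h
      · exact hb0 h
      · have h2 : a = [Dir.E] := by
          have hl : a.length ≤ 1 := by simpa using ha.length_le
          have h3 := List.length_pos_iff.2 ha0
          exact List.IsSuffix.eq_of_length ha (by simp; omega)
        rw [h, h2] at hx
        simp [Dir.dx] at hx
  · intro t ht h0
    rcases key t ht with h | h | h
    · exact absurd h h0
    · rw [h]; simp [Dir.dx]
    · rw [h]; simp [Dir.dx]
  · intro t ht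
    rcases key2 t ht with h | h | h
    · rw [h]; simp
    · rw [h]; simp [Dir.dx]
    · rw [h]; simp [Dir.dx]

lemma isPIrr_swap {p : PW} (hp : IsPIrr p) : IsPIrr (p.2, p.1) := by
  refine ⟨⟨hp.pb.br2, hp.pb.br1, hp.pb.span.symm⟩, ?_, ?_⟩
  · have := hp.pos
    rw [hp.pb.span] at this
    exact this
  · intro q r hq hr h1 h2
    have h3 := hp.irr (q := (q.2, q.1)) (r := (r.2, r.1)) ⟨hq.br2, hq.br1, hq.span.symm⟩
      ⟨hr.br2, hr.br1, hr.span.symm⟩ h2 h1
    rcases h3 with h | h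
    · left
      simp only [Prod.mk.injEq] at h
      exact Prod.ext h.2 h.1
    · right
      simp only [Prod.mk.injEq] at h
      exact Prod.ext h.2 h.1

end Law

open Law in
theorem freeLaw {A : Set Word} (hA : IsClass A) {u c : ℝ} (hP : ParamsA A u c) :
    FreeLaw (mkf A u c one) := by
  classical
  have hpos : ∀ (p : PW) (m : ℕ) (d : ℤ), IsPIrr p → p.1 ∈ A → p.2 ∈ A → ln p = m → ht p = d →
      0 < mkf A u c one m d := by
    intro p m d h1 h2 h3 h4 h5
    unfold mkf
    refine Finset.sum_pos' (fun q _ => ?_) ⟨p, ?_, ?_⟩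
    · simpa [one] using (wt_pos u c q).le
    · rw [Finset.mem_filter, mem_blk]
      exact ⟨⟨h4, h1, h2, h3⟩, h5⟩
    · simpa [one] using wt_pos u c p
  have hEE : IsPB ([Dir.E], [Dir.E]) := ⟨isBr_singleton_E, isBr_singleton_E, rfl⟩
  have hEN : IsPB ([Dir.E, Dir.N], [Dir.E]) := ⟨isBr_EN, isBr_singleton_E, by simp [Dir.dx]⟩
  refine ⟨?_, ?_, ?_, ?_, ?_, ?_, ?_⟩
  · intro m d
    unfold mkf
    refine Finset.sum_nonneg fun p _ => ?_
    simpa [one] using (wt_pos u c p).le
  · intro m d h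
    unfold mkf at h
    obtain ⟨p, hp, -⟩ := Finset.exists_ne_zero_of_sum_ne_zero h
    rw [Finset.mem_filter, mem_blk] at hp
    obtain ⟨⟨h1, h2, -, -⟩, h3⟩ := hp
    have e1 := abs_X_le p.1
    have e2 := abs_Y_le p.1
    have e3 := abs_Y_le p.2
    have e4 := h2.pos
    have e5 := h2.pb.span
    have e6 : (m : ℤ) = p.1.length + p.2.length := by
      rw [← h1]; unfold ln; push_cast; ring
    have e7 : d = Y p.1 - Y p.2 := h3.symm
    refine ⟨?_, ?_, ?_⟩
    · have := (abs_le.1 e1).2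
      have h0 := List.length p.2
      have : (1 : ℤ) ≤ m := by omega
      exact_mod_cast this
    · rw [e7, e6, abs_le]
      have f1 := abs_le.1 e2
      have f2 := abs_le.1 e3
      constructor <;> omega
    · obtain ⟨a, ha⟩ := even_len p.1
      obtain ⟨b, hb⟩ := even_len p.2
      rw [e7, e6]
      refine ⟨a + b - X p.1 - Y p.2, ?_⟩
      omega
  · intro m d
    unfold mkf
    refine Finset.sum_bij (fun p _ => ((p.2, p.1) : PW)) ?_ ?_ ?_ ?_
    · intro p hp
      rw [Finset.mem_filter, mem_blk] at hp ⊢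
      obtain ⟨⟨h1, h2, h3, h4⟩, h5⟩ := hp
      refine ⟨⟨?_, isPIrr_swap h2, h4, h3⟩, ?_⟩
      · rw [← h1]; unfold ln; simp only; ring
      · unfold ht at h5 ⊢
        simp only
        omega
    · intro p _ q _ h
      simp only [Prod.mk.injEq] at h
      exact Prod.ext h.2 h.1
    · intro p hp
      refine ⟨(p.2, p.1), ?_, rfl⟩
      rw [Finset.mem_filter, mem_blk] at hp ⊢
      obtain ⟨⟨h1, h2, h3, h4⟩, h5⟩ := hp
      refine ⟨⟨?_, isPIrr_swap h2, h4, h3⟩, ?_⟩
      · rw [← h1]; unfold ln; simp only; ring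
      · unfold ht at h5 ⊢
        simp only
        omega
    · intro p _
      unfold wt ln one
      simp only
      congr 2
      push_cast
      ring
  · exact hpos ([Dir.E], [Dir.E]) 2 0 (isPIrr_of_X_one hEE (by simp [Dir.dx])) hA.E hA.E rfl
      (by simp [ht])
  · exact hpos ([Dir.E, Dir.N], [Dir.E]) 3 1 (isPIrr_of_X_one hEN (by simp [Dir.dx])) hA.EN1 hA.E rfl
      (by simp [ht, Dir.dy])
  · have h1 := mass_PI hA hP
    have h2 := hasSum_mkf (A := A) (u := u) (c := c) (by rw [h1]; exact ENNReal.one_ne_top)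
    rw [h1, ENNReal.toReal_one] at h2
    exact h2
  · obtain ⟨δ, hδ, h⟩ := mass_PI_tail hA hP
    refine ⟨δ, hδ, ?_⟩
    have h2 := (hasSum_mkf (A := A) (u := u - δ) (c := c) h).summable
    simp only [mkf_shift] at h2
    exact h2

end Pool.Agent.SAPX
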