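import Pool.Agent.SAPX.LocalU
import Pool.Agent.SAPX.BoundL

/-!
Module K5: asymptotics of the occupation measure of a killed renewal walk (approximate reflection
principle).
-/

namespace Pool.Agent.SAPX

open Filter Topology

/-- law of the first non admissible block -/
noncomputable def kap (f : ℕ → ℤ → ℝ) (g : ℕ → ℤ → ℤ → ℝ) (L : ℕ → ℤ → ℝ) (k : ℕ) (z : ℤ) : ℝ :=
  ∑ j ∈ Finset.range k, ∑ x ∈ Finset.Icc (z - ((k : ℤ) - j)) (z + ((k : ℤ) - j)),
    L j x * (f (k - j) (z - x) - g (k - j) x z)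

/-- harmonic function -/
noncomputable def VV (f : ℕ → ℤ → ℝ) (g : ℕ → ℤ → ℤ → ℝ) (l L : ℕ → ℤ → ℝ) : ℝ :=
  ∑' p : ℕ × ℤ, (l p.1 p.2 - kap f g L p.1 p.2) * p.2

theorem kap_nonneg {f : ℕ → ℤ → ℝ} (_hf : FreeLaw f) {g : ℕ → ℤ → ℤ → ℝ} (hg : Killed f g)
    {l L : ℕ → ℤ → ℝ} (hl : CapLaw l) (hL : Rec g l L) (k : ℕ) (z : ℤ) :
    0 ≤ kap f g L k z := by
  refine Finset.sum_nonneg fun j _ => Finset.sum_nonneg fun x _ => ?_
  exact mul_nonneg (hL.nonneg hg.nonneg hl.nonneg j x) (sub_nonneg.2 (hg.le _ _ _))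

namespace K5

/-! ### supports and pointwise bounds -/

lemma diff_ne {f : ℕ → ℤ → ℝ} (hf : FreeLaw f) {g : ℕ → ℤ → ℤ → ℝ} (hg : Killed f g)
    {l L : ℕ → ℤ → ℝ} (hl : CapLaw l) (hL : Rec g l L) {j b : ℕ} {x z : ℤ}
    (h : L j x * (f b (z - x) - g b x z) ≠ 0) :
    0 < x ∧ x ≤ j ∧ x ≤ b ∧ |z| ≤ b ∧ Even ((j : ℤ) + b + z) := by
  have h1 : L j x ≠ 0 := left_ne_zero_of_mul h
  have h2 : f b (z - x) - g b x z ≠ 0 := right_ne_zero_of_mul h
  have h3 := hL.supp hf hg hl h1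
  have h4 : f b (z - x) ≠ 0 := by
    intro h0
    apply h2
    rw [h0, hg.zero h0, sub_zero]
  have h5 := hf.supp _ _ h4
  have h6 : ¬ ((b : ℤ) < x ∨ (b : ℤ) < z) := by
    intro h0
    apply h2
    rw [hg.far b x z h0, sub_self]
  push Not at h6
  have h7 := (abs_le.1 h5.2.1).1
  refine ⟨h3.1, h3.2.1, h6.1, abs_le.2 ⟨by omega, h6.2⟩, ?_⟩
  have := h3.2.2.add h5.2.2
  rwa [show (j : ℤ) + x + ((b : ℤ) + (z - x)) = j + b + z by ring] at this

lemma kap_supp {f : ℕ → ℤ → ℝ} (hf : FreeLaw f) {g : ℕ → ℤ → ℤ → ℝ} (hg : Killed f g)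
    {l L : ℕ → ℤ → ℝ} (hl : CapLaw l) (hL : Rec g l L) {k : ℕ} {z : ℤ}
    (h : kap f g L k z ≠ 0) : |z| ≤ k ∧ Even ((k : ℤ) + z) := by
  rw [kap] at h
  obtain ⟨j, hj, h2⟩ := Finset.exists_ne_zero_of_sum_ne_zero h
  obtain ⟨x, hx, h3⟩ := Finset.exists_ne_zero_of_sum_ne_zero h2
  have h4 := diff_ne hf hg hl hL h3
  have hj' := Finset.mem_range.1 hj
  rw [Nat.cast_sub hj'.le] at h4
  refine ⟨by omega, ?_⟩
  rw [show (j : ℤ) + ((k : ℤ) - j) + z = k + z by ring] at h4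
  exact h4.2.2.2.2

lemma f_exp {f : ℕ → ℤ → ℝ} (hf : FreeLaw f) : ∃ C δ, 0 < C ∧ 0 < δ ∧ ∀ (m : ℕ) (d : ℤ),
    f m d ≤ C * Real.exp (-(δ * m)) := by
  obtain ⟨δ, hδ, hs⟩ := hf.tail
  refine ⟨∑' p : ℕ × ℤ, f p.1 p.2 * Real.exp (δ * p.1) + 1, δ, ?_, hδ, fun m d => ?_⟩
  · have : 0 ≤ ∑' p : ℕ × ℤ, f p.1 p.2 * Real.exp (δ * p.1) :=
      tsum_nonneg fun p => mul_nonneg (hf.nonneg _ _) (Real.exp_pos _).le
    linarith
  · have h1 := hs.le_tsum (m, d) fun p _ => mul_nonneg (hf.nonneg _ _) (Real.exp_pos _).le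
    rw [Real.exp_neg, ← div_eq_mul_inv, le_div_iff₀ (Real.exp_pos _)]
    simp only at h1
    linarith

lemma l_exp {l : ℕ → ℤ → ℝ} (hl : CapLaw l) : ∃ C δ, 0 < C ∧ 0 < δ ∧ ∀ (m : ℕ) (d : ℤ),
    l m d ≤ C * Real.exp (-(δ * m)) := by
  obtain ⟨δ, hδ, hs⟩ := hl.tail
  refine ⟨∑' p : ℕ × ℤ, l p.1 p.2 * Real.exp (δ * p.1) + 1, δ, ?_, hδ, fun m d => ?_⟩
  · have : 0 ≤ ∑' p : ℕ × ℤ, l p.1 p.2 * Real.exp (δ * p.1) :=
      tsum_nonneg fun p => mul_nonneg (hl.nonneg _ _) (Real.exp_pos _).le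
    linarith
  · have h1 := hs.le_tsum (m, d) fun p _ => mul_nonneg (hl.nonneg _ _) (Real.exp_pos _).le
    rw [Real.exp_neg, ← div_eq_mul_inv, le_div_iff₀ (Real.exp_pos _)]
    simp only at h1
    linarith

lemma poly_exp_summable (q : ℕ) {δ : ℝ} (hδ : 0 < δ) :
    Summable fun b : ℕ => ((b : ℝ) + 1) ^ q * Real.exp (-(δ * b)) := by
  have hr : ‖Real.exp (-δ)‖ < 1 := by
    rw [Real.norm_eq_abs, abs_of_pos (Real.exp_pos _)]
    rw [← Real.exp_zero]
    exact Real.exp_lt_exp.2 (by linarith)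
  have h := summable_pow_mul_geometric_of_norm_lt_one q hr
  have h2 := ((summable_nat_add_iff 1).2 h).mul_left (Real.exp δ)
  refine h2.congr fun b => ?_
  have e1 : Real.exp (-δ) ^ (b + 1) = Real.exp (-(δ * b)) * Real.exp (-δ) := by
    rw [pow_succ, ← Real.exp_nat_mul]
    congr 2
    ring
  rw [e1]
  push_cast
  have e2 : Real.exp δ * Real.exp (-δ) = 1 := by rw [← Real.exp_add]; simp
  calc Real.exp δ * (((b : ℝ) + 1) ^ q * (Real.exp (-(δ * b)) * Real.exp (-δ)))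
      = (Real.exp δ * Real.exp (-δ)) * (((b : ℝ) + 1) ^ q * Real.exp (-(δ * b))) := by ring
    _ = _ := by rw [e2, one_mul]

/-- polynomial times exponential is bounded -/
lemma poly_exp (q : ℕ) {δ : ℝ} (hδ : 0 < δ) : ∃ D, 0 < D ∧ ∀ b : ℕ,
    ((b : ℝ) + 1) ^ q * Real.exp (-(δ * b)) ≤ D := by
  have hs := poly_exp_summable q hδ
  have h0 : ∀ b : ℕ, 0 ≤ ((b : ℝ) + 1) ^ q * Real.exp (-(δ * b)) := fun b => by positivity
  refine ⟨∑' b : ℕ, ((b : ℝ) + 1) ^ q * Real.exp (-(δ * b)) + 1, ?_, fun b => ?_⟩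
  · have : 0 ≤ ∑' b : ℕ, ((b : ℝ) + 1) ^ q * Real.exp (-(δ * b)) := tsum_nonneg h0
    linarith
  · have := hs.le_tsum b fun c _ => h0 c
    linarith

lemma rpow_split {j b k : ℕ} (h : k ≤ j + b) :
    1 / ((j : ℝ) + 1) ^ (3 / 2 : ℝ) ≤ ((b : ℝ) + 1) ^ 2 / ((k : ℝ) + 1) ^ (3 / 2 : ℝ) := by
  have hj : (0 : ℝ) < (j : ℝ) + 1 := by positivity
  have hb : (0 : ℝ) < (b : ℝ) + 1 := by positivity
  have hk : (0 : ℝ) < (k : ℝ) + 1 := by positivity
  have hb1 : (1 : ℝ) ≤ (b : ℝ) + 1 := by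
    have : (0 : ℝ) ≤ b := Nat.cast_nonneg b
    linarith
  rw [div_le_div_iff₀ (Real.rpow_pos_of_pos hj _) (Real.rpow_pos_of_pos hk _), one_mul]
  have hkk : (k : ℝ) + 1 ≤ ((j : ℝ) + 1) * ((b : ℝ) + 1) := by
    have h1 : (k : ℝ) ≤ j + b := by exact_mod_cast h
    have h2 : (0 : ℝ) ≤ (j : ℝ) * b := by positivity
    nlinarith
  calc ((k : ℝ) + 1) ^ (3 / 2 : ℝ) ≤ (((j : ℝ) + 1) * ((b : ℝ) + 1)) ^ (3 / 2 : ℝ) :=
        Real.rpow_le_rpow hk.le hkk (by norm_num)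
    _ = ((j : ℝ) + 1) ^ (3 / 2 : ℝ) * ((b : ℝ) + 1) ^ (3 / 2 : ℝ) := Real.mul_rpow hj.le hb.le
    _ ≤ ((j : ℝ) + 1) ^ (3 / 2 : ℝ) * ((b : ℝ) + 1) ^ (2 : ℝ) := by
        apply mul_le_mul_of_nonneg_left _ (Real.rpow_nonneg hj.le _)
        exact Real.rpow_le_rpow_of_exponent_le hb1 (by norm_num)
    _ = ((b : ℝ) + 1) ^ 2 * ((j : ℝ) + 1) ^ (3 / 2 : ℝ) := by
        rw [Real.rpow_two, mul_comm]

lemma exp_half {δ : ℝ} (hδ : 0 < δ) {b : ℕ} {z : ℤ} (h : |z| ≤ b) :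
    Real.exp (-(δ * b)) ≤ Real.exp (-(δ / 2 * b)) * Real.exp (-(δ / 2 * |(z : ℝ)|)) := by
  rw [← Real.exp_add]
  apply Real.exp_le_exp.2
  have h1 : |(z : ℝ)| ≤ b := by exact_mod_cast h
  nlinarith

end K5

theorem kap_bound {f : ℕ → ℤ → ℝ} (hf : FreeLaw f) {g : ℕ → ℤ → ℤ → ℝ} (hg : Killed f g)
    {l L : ℕ → ℤ → ℝ} (hl : CapLaw l) (hL : Rec g l L) : ∃ K δ, 0 < K ∧ 0 < δ ∧
    ∀ (k : ℕ) (z : ℤ), kap f g L k z ≤
      K / ((k : ℝ) + 1) ^ (3 / 2 : ℝ) * Real.exp (-(δ * |(z : ℝ)|)) := by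
  obtain ⟨K1, c, hK1, hc, hLb⟩ := L_bound hf hg hl hL
  obtain ⟨C, δ, hC, hδ, hfb⟩ := K5.f_exp hf
  have hsum := K5.poly_exp_summable 4 (half_pos hδ)
  have h0 : ∀ b : ℕ, 0 ≤ ((b : ℝ) + 1) ^ 4 * Real.exp (-(δ / 2 * b)) := fun b => by positivity
  set S := ∑' b : ℕ, ((b : ℝ) + 1) ^ 4 * Real.exp (-(δ / 2 * b)) with hS
  have hS0 : 0 ≤ S := tsum_nonneg h0
  refine ⟨K1 * C * (S + 1), δ / 2, by positivity, half_pos hδ, fun k z => ?_⟩
  have hLb' : ∀ (j : ℕ) (x : ℤ), L j x ≤ K1 * |(x : ℝ)| / ((j : ℝ) + 1) ^ (3 / 2 : ℝ) := by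
    intro j x
    refine (hLb j x).trans ?_
    have h1 : Real.exp (-(c * (x : ℝ) ^ 2 / ((j : ℝ) + 1))) ≤ 1 := by
      apply Real.exp_le_one_iff.2
      have : 0 ≤ c * (x : ℝ) ^ 2 / ((j : ℝ) + 1) := by positivity
      linarith
    have h2 : 0 ≤ K1 * |(x : ℝ)| / ((j : ℝ) + 1) ^ (3 / 2 : ℝ) := by positivity
    exact mul_le_of_le_one_right h2 h1
  have step : ∀ j ∈ Finset.range k,
      ∑ x ∈ Finset.Icc (z - ((k : ℤ) - j)) (z + ((k : ℤ) - j)),
        L j x * (f (k - j) (z - x) - g (k - j) x z) ≤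
      K1 * C / ((k : ℝ) + 1) ^ (3 / 2 : ℝ) * Real.exp (-(δ / 2 * |(z : ℝ)|)) *
        ((((k - j : ℕ) : ℝ) + 1) ^ 4 * Real.exp (-(δ / 2 * ((k - j : ℕ) : ℝ)))) := by
    intro j hj
    have hjk := Finset.mem_range.1 hj
    obtain ⟨b, hb⟩ : ∃ b, b = k - j := ⟨_, rfl⟩
    rw [← hb]
    set B := K1 * b / ((j : ℝ) + 1) ^ (3 / 2 : ℝ) *
      (C * (Real.exp (-(δ / 2 * b)) * Real.exp (-(δ / 2 * |(z : ℝ)|)))) with hB
    have hB0 : 0 ≤ B := by positivity
    have h1 : ∀ x ∈ Finset.Icc (z - ((k : ℤ) - j)) (z + ((k : ℤ) - j)),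
        L j x * (f b (z - x) - g b x z) ≤ if x ∈ Finset.Icc (1 : ℤ) b then B else 0 := by
      intro x _
      by_cases hne : L j x * (f b (z - x) - g b x z) = 0
      · rw [hne]
        split_ifs
        · exact hB0
        · exact le_rfl
      · have h2 := K5.diff_ne hf hg hl hL hne
        rw [if_pos (Finset.mem_Icc.2 ⟨by omega, h2.2.2.1⟩)]
        refine mul_le_mul ?_ ?_ (sub_nonneg.2 (hg.le _ _ _)) (by positivity)
        · refine (hLb' j x).trans ?_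
          have h3 : |(x : ℝ)| ≤ b := by
            rw [abs_of_pos (by exact_mod_cast h2.1)]
            exact_mod_cast h2.2.2.1
          gcongr
        · have h3 := hg.nonneg b x z
          have h4 := hfb b (z - x)
          have h5 := K5.exp_half hδ h2.2.2.2.1
          have h6 := mul_le_mul_of_nonneg_left h5 hC.le
          linarith
    refine (Finset.sum_le_sum h1).trans ?_
    rw [Finset.sum_ite_mem, Finset.sum_const, nsmul_eq_mul]
    have hcard : (((Finset.Icc (z - ((k : ℤ) - j)) (z + ((k : ℤ) - j)) ∩ Finset.Icc (1 : ℤ) b).card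
        : ℕ) : ℝ) ≤ b := by
      have h7 := Finset.card_le_card (Finset.inter_subset_right
        (s₁ := Finset.Icc (z - ((k : ℤ) - j)) (z + ((k : ℤ) - j))) (s₂ := Finset.Icc (1 : ℤ) b))
      rw [Int.card_Icc] at h7
      have h8 : ((b : ℤ) + 1 - 1).toNat = b := by omega
      rw [h8] at h7
      exact_mod_cast h7
    refine (mul_le_mul_of_nonneg_right hcard hB0).trans ?_
    have h9 := K5.rpow_split (j := j) (b := b) (k := k) (by omega)
    have hb0 : (0 : ℝ) ≤ b := Nat.cast_nonneg b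
    have h10 : (b : ℝ) * B = (b : ℝ) ^ 2 * (K1 * C * (Real.exp (-(δ / 2 * b)) *
        Real.exp (-(δ / 2 * |(z : ℝ)|)))) * (1 / ((j : ℝ) + 1) ^ (3 / 2 : ℝ)) := by
      rw [hB]; ring
    rw [h10]
    calc (b : ℝ) ^ 2 * (K1 * C * (Real.exp (-(δ / 2 * b)) *
        Real.exp (-(δ / 2 * |(z : ℝ)|)))) * (1 / ((j : ℝ) + 1) ^ (3 / 2 : ℝ))
        ≤ ((b : ℝ) + 1) ^ 2 * (K1 * C * (Real.exp (-(δ / 2 * b)) *
        Real.exp (-(δ / 2 * |(z : ℝ)|)))) * (((b : ℝ) + 1) ^ 2 / ((k : ℝ) + 1) ^ (3 / 2 : ℝ)) := by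
          refine mul_le_mul ?_ h9 (by positivity) (by positivity)
          refine mul_le_mul_of_nonneg_right ?_ (by positivity)
          nlinarith
      _ = _ := by ring
  have h1 := Finset.sum_le_sum step
  rw [kap]
  refine h1.trans ?_
  rw [← Finset.mul_sum]
  have h2 : ∑ j ∈ Finset.range k, ((((k - j : ℕ) : ℝ) + 1) ^ 4 *
      Real.exp (-(δ / 2 * ((k - j : ℕ) : ℝ)))) ≤ S := by
    have hinj : Set.InjOn (fun j => k - j) (Finset.range k : Set ℕ) := by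
      intro a ha b hb hab
      have ha' := Finset.mem_range.1 (Finset.mem_coe.1 ha)
      have hb' := Finset.mem_range.1 (Finset.mem_coe.1 hb)
      simp only at hab
      omega
    have := Finset.sum_image (s := Finset.range k) (g := fun j => k - j)
      (f := fun b : ℕ => ((b : ℝ) + 1) ^ 4 * Real.exp (-(δ / 2 * (b : ℝ)))) hinj
    rw [← this]
    exact hsum.sum_le_tsum _ fun b _ => h0 b
  calc K1 * C / ((k : ℝ) + 1) ^ (3 / 2 : ℝ) * Real.exp (-(δ / 2 * |(z : ℝ)|)) * _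
      ≤ K1 * C / ((k : ℝ) + 1) ^ (3 / 2 : ℝ) * Real.exp (-(δ / 2 * |(z : ℝ)|)) * (S + 1) := by
        refine mul_le_mul_of_nonneg_left ?_ (by positivity)
        linarith
    _ = _ := by ring

namespace K5

/-! ### signed convolution -/

lemma rec_free {f : ℕ → ℤ → ℝ} {g : ℕ → ℤ → ℤ → ℝ} {l L : ℕ → ℤ → ℝ} (hL : Rec g l L) :
    Rec (free f) (fun m y => l m y - kap f g L m y) L := by
  intro m y
  have h := hL m y
  change L m y = (l m y - kap f g L m y) + _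
  rw [kap]
  have e : ∑ k ∈ Finset.range m, ∑ x ∈ Finset.Icc (y - ((m : ℤ) - k)) (y + ((m : ℤ) - k)),
      L k x * (f (m - k) (y - x) - g (m - k) x y) =
      (∑ k ∈ Finset.range m, ∑ x ∈ Finset.Icc (y - ((m : ℤ) - k)) (y + ((m : ℤ) - k)),
        L k x * free f (m - k) x y) -
      ∑ k ∈ Finset.range m, ∑ x ∈ Finset.Icc (y - ((m : ℤ) - k)) (y + ((m : ℤ) - k)),
        L k x * g (m - k) x y := by
    rw [← Finset.sum_sub_distrib]
    refine Finset.sum_congr rfl fun k _ => ?_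
    rw [← Finset.sum_sub_distrib]
    refine Finset.sum_congr rfl fun x _ => ?_
    rw [free]
    ring
  rw [e]
  linarith

lemma rec_sum {g : ℕ → ℤ → ℤ → ℝ} {ι : Type} (s : Finset ι) (c : ι → ℝ)
    (l' L' : ι → ℕ → ℤ → ℝ) (h : ∀ i ∈ s, Rec g (l' i) (L' i)) :
    Rec g (fun m y => ∑ i ∈ s, c i * l' i m y) (fun m y => ∑ i ∈ s, c i * L' i m y) := by
  intro m y
  have e : ∑ k ∈ Finset.range m, ∑ x ∈ Finset.Icc (y - ((m : ℤ) - k)) (y + ((m : ℤ) - k)),
      (∑ i ∈ s, c i * L' i k x) * g (m - k) x y =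
      ∑ i ∈ s, c i * ∑ k ∈ Finset.range m,
        ∑ x ∈ Finset.Icc (y - ((m : ℤ) - k)) (y + ((m : ℤ) - k)), L' i k x * g (m - k) x y := by
    simp only [Finset.sum_mul, Finset.mul_sum]
    symm
    rw [Finset.sum_comm]
    refine Finset.sum_congr rfl fun k _ => ?_
    rw [Finset.sum_comm]
    refine Finset.sum_congr rfl fun x _ => Finset.sum_congr rfl fun i _ => ?_
    ring
  rw [e, ← Finset.sum_add_distrib]
  refine Finset.sum_congr rfl fun i hi => ?_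
  rw [h i hi m y]
  ring

lemma rec_unique {g : ℕ → ℤ → ℤ → ℝ} {l l' L L' : ℕ → ℤ → ℝ} (h : Rec g l L) (h' : Rec g l' L')
    {M : ℕ} (hll : ∀ m ≤ M, ∀ y, l m y = l' m y) : ∀ m ≤ M, ∀ y, L m y = L' m y := by
  intro m
  induction m using Nat.strong_induction_on with
  | _ m ih =>
    intro hm y
    rw [h m y, h' m y, hll m hm y]
    congr 1
    refine Finset.sum_congr rfl fun k hk => Finset.sum_congr rfl fun x _ => ?_
    have := Finset.mem_range.1 hk
    rw [ih k this (by omega) x]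

lemma rec_shift {f : ℕ → ℤ → ℝ} (k : ℕ) (z : ℤ) :
    Rec (free f) (dl k z) (fun m y => if k ≤ m then uu f (m - k) (y - z) else 0) := by
  intro m y
  change (if k ≤ m then uu f (m - k) (y - z) else 0) = dl k z m y +
    ∑ j ∈ Finset.range m, ∑ x ∈ Finset.Icc (y - ((m : ℤ) - j)) (y + ((m : ℤ) - j)),
      (if k ≤ j then uu f (j - k) (x - z) else 0) * f (m - j) (y - x)
  by_cases hkm : k ≤ m
  · rw [if_pos hkm]
    obtain ⟨n, rfl⟩ := Nat.exists_eq_add_of_le hkm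
    rw [Nat.add_sub_cancel_left]
    have h := rec_occ (free f) (dl 0 0) n (y - z)
    change uu f n (y - z) = dl 0 0 n (y - z) + ∑ i ∈ Finset.range n,
      ∑ x ∈ Finset.Icc (y - z - ((n : ℤ) - i)) (y - z + ((n : ℤ) - i)),
        uu f i x * f (n - i) (y - z - x) at h
    rw [h]
    congr 1
    · unfold dl
      by_cases hh : k + n = k ∧ y = z
      · rw [if_pos hh, if_pos ⟨by omega, by omega⟩]
      · rw [if_neg hh, if_neg (fun h' => hh ⟨by omega, by omega⟩)]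
    · rw [← Finset.sum_range_add_sum_Ico _ (Nat.le_add_right k n)]
      rw [Finset.sum_eq_zero (s := Finset.range k), zero_add, Finset.sum_Ico_eq_sum_range,
        Nat.add_sub_cancel_left]
      · refine Finset.sum_congr rfl fun i hi => ?_
        refine Finset.sum_nbij' (fun x => x + z) (fun x => x - z) ?_ ?_ ?_ ?_ ?_
        · intro x hx
          rw [Finset.mem_Icc] at hx ⊢
          push_cast
          constructor <;> omega
        · intro x hx
          rw [Finset.mem_Icc] at hx ⊢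
          push_cast at hx
          constructor <;> omega
        · intro x _; ring
        · intro x _; ring
        · intro x _
          rw [if_pos (Nat.le_add_right k i), Nat.add_sub_cancel_left, add_sub_cancel_right,
            Nat.add_sub_add_left]
          congr 2
          ring
      · intro j hj
        refine Finset.sum_eq_zero fun x _ => ?_
        have := Finset.mem_range.1 hj
        rw [if_neg (by omega), zero_mul]
  · rw [if_neg hkm]
    have h1 : dl k z m y = 0 := by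
      unfold dl
      rw [if_neg (fun h' => hkm (by omega))]
    rw [h1, zero_add]
    symm
    refine Finset.sum_eq_zero fun j hj => Finset.sum_eq_zero fun x _ => ?_
    have := Finset.mem_range.1 hj
    rw [if_neg (by omega), zero_mul]

/-- the occupation measure as a convolution of the (signed) law with the free renewal measure -/
lemma conv {f : ℕ → ℤ → ℝ} {a L : ℕ → ℤ → ℝ} (hL : Rec (free f) a L)
    (ha : ∀ k z, a k z ≠ 0 → |z| ≤ (k : ℤ)) (m : ℕ) (y : ℤ) :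
    L m y = ∑ k ∈ Finset.range (m + 1), ∑ z ∈ Finset.Icc (-(m : ℤ)) m,
      a k z * uu f (m - k) (y - z) := by
  have h1 := rec_sum (g := free f) (Finset.range (m + 1) ×ˢ Finset.Icc (-(m : ℤ)) m)
    (fun p => a p.1 p.2) (fun p => dl p.1 p.2)
    (fun p => fun m y => if p.1 ≤ m then uu f (m - p.1) (y - p.2) else 0)
    (fun p _ => rec_shift p.1 p.2)
  have h2 := rec_unique hL h1 (M := m) (by
    intro n hn w
    by_cases hw : |w| ≤ (n : ℤ)
    · rw [Finset.sum_eq_single (n, w)]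
      · unfold dl
        rw [if_pos ⟨rfl, rfl⟩, mul_one]
      · intro p _ hp
        unfold dl
        rw [if_neg (fun h => hp (Prod.ext h.1.symm h.2.symm)), mul_zero]
      · intro hp
        exfalso
        apply hp
        rw [Finset.mem_product, Finset.mem_range, Finset.mem_Icc]
        have := abs_le.1 hw
        refine ⟨?_, ?_, ?_⟩ <;> simp only <;> omega
    · have h3 : a n w = 0 := by
        by_contra h
        exact hw (ha n w h)
      rw [h3]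
      symm
      refine Finset.sum_eq_zero fun p _ => ?_
      unfold dl
      by_cases hp : n = p.1 ∧ w = p.2
      · rw [← hp.1, ← hp.2, h3, zero_mul]
      · rw [if_neg hp, mul_zero]) m le_rfl y
  rw [h2, Finset.sum_product]
  refine Finset.sum_congr rfl fun k hk => Finset.sum_congr rfl fun z _ => ?_
  have := Finset.mem_range.1 hk
  simp only
  rw [if_pos (by omega)]

lemma aa_supp {f : ℕ → ℤ → ℝ} (hf : FreeLaw f) {g : ℕ → ℤ → ℤ → ℝ} (hg : Killed f g)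
    {l L : ℕ → ℤ → ℝ} (hl : CapLaw l) (hL : Rec g l L) (k : ℕ) (z : ℤ)
    (h : l k z - kap f g L k z ≠ 0) : |z| ≤ (k : ℤ) ∧ Even ((k : ℤ) + z) := by
  by_cases h1 : kap f g L k z = 0
  · rw [h1, sub_zero] at h
    have h2 := hl.supp k z h
    refine ⟨abs_le.2 ⟨by omega, h2.2.1⟩, h2.2.2⟩
  · exact kap_supp hf hg hl hL h1

lemma pow32_le (b : ℕ) : ((b : ℝ) + 1) ^ (3 / 2 : ℝ) ≤ ((b : ℝ) + 1) ^ 2 := by
  have hb : (0 : ℝ) ≤ b := Nat.cast_nonneg b
  rw [← Real.rpow_two]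
  exact Real.rpow_le_rpow_of_exponent_le (by linarith) (by norm_num)

lemma aa_bound {f : ℕ → ℤ → ℝ} (hf : FreeLaw f) {g : ℕ → ℤ → ℤ → ℝ} (hg : Killed f g)
    {l L : ℕ → ℤ → ℝ} (hl : CapLaw l) (hL : Rec g l L) : ∃ K δ, 0 < K ∧ 0 < δ ∧
    ∀ (k : ℕ) (z : ℤ), |l k z - kap f g L k z| ≤
      K / ((k : ℝ) + 1) ^ (3 / 2 : ℝ) * Real.exp (-(δ * |(z : ℝ)|)) := by
  obtain ⟨K1, δ1, hK1, hδ1, h1⟩ := kap_bound hf hg hl hL
  obtain ⟨C, δ2, hC, hδ2, h2⟩ := l_exp hl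
  obtain ⟨D, hD, h3⟩ := poly_exp 2 (half_pos hδ2)
  refine ⟨K1 + C * D, min δ1 (δ2 / 2), by positivity, by positivity, fun k z => ?_⟩
  have hk : (0 : ℝ) < ((k : ℝ) + 1) ^ (3 / 2 : ℝ) := Real.rpow_pos_of_pos (by positivity) _
  have hz : 0 ≤ |(z : ℝ)| := abs_nonneg _
  have e1 : kap f g L k z ≤ K1 / ((k : ℝ) + 1) ^ (3 / 2 : ℝ) *
      Real.exp (-(min δ1 (δ2 / 2) * |(z : ℝ)|)) := by
    refine (h1 k z).trans ?_
    refine mul_le_mul_of_nonneg_left ?_ (by positivity)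
    apply Real.exp_le_exp.2
    have := mul_le_mul_of_nonneg_right (min_le_left δ1 (δ2 / 2)) hz
    linarith
  have e2 : l k z ≤ C * D / ((k : ℝ) + 1) ^ (3 / 2 : ℝ) *
      Real.exp (-(min δ1 (δ2 / 2) * |(z : ℝ)|)) := by
    by_cases h0 : l k z = 0
    · rw [h0]; positivity
    · have h4 := hl.supp k z h0
      have h5 : |z| ≤ (k : ℤ) := abs_le.2 ⟨by omega, h4.2.1⟩
      refine (h2 k z).trans ?_
      have h6 := exp_half hδ2 h5
      have h7 : Real.exp (-(δ2 / 2 * k)) ≤ D / ((k : ℝ) + 1) ^ (3 / 2 : ℝ) := by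
        rw [le_div_iff₀ hk]
        refine le_trans ?_ (h3 k)
        rw [mul_comm]
        exact mul_le_mul_of_nonneg_right (pow32_le k) (Real.exp_pos _).le
      have h8 : Real.exp (-(δ2 / 2 * |(z : ℝ)|)) ≤
          Real.exp (-(min δ1 (δ2 / 2) * |(z : ℝ)|)) := by
        apply Real.exp_le_exp.2
        have := mul_le_mul_of_nonneg_right (min_le_right δ1 (δ2 / 2)) hz
        linarith
      calc C * Real.exp (-(δ2 * k))
          ≤ C * (Real.exp (-(δ2 / 2 * k)) * Real.exp (-(δ2 / 2 * |(z : ℝ)|))) :=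
            mul_le_mul_of_nonneg_left h6 hC.le
        _ ≤ C * (D / ((k : ℝ) + 1) ^ (3 / 2 : ℝ) *
              Real.exp (-(min δ1 (δ2 / 2) * |(z : ℝ)|))) := by
            refine mul_le_mul_of_nonneg_left ?_ hC.le
            exact mul_le_mul h7 h8 (Real.exp_pos _).le (by positivity)
        _ = _ := by ring
  have e3 : (K1 + C * D) / ((k : ℝ) + 1) ^ (3 / 2 : ℝ) *
      Real.exp (-(min δ1 (δ2 / 2) * |(z : ℝ)|)) =
      K1 / ((k : ℝ) + 1) ^ (3 / 2 : ℝ) * Real.exp (-(min δ1 (δ2 / 2) * |(z : ℝ)|)) +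
      C * D / ((k : ℝ) + 1) ^ (3 / 2 : ℝ) * Real.exp (-(min δ1 (δ2 / 2) * |(z : ℝ)|)) := by
    ring
  rw [e3]
  have e4 := kap_nonneg hf hg hl hL k z
  have e5 := hl.nonneg k z
  rw [abs_le]
  constructor <;> linarith [show 0 ≤ K1 / ((k : ℝ) + 1) ^ (3 / 2 : ℝ) *
    Real.exp (-(min δ1 (δ2 / 2) * |(z : ℝ)|)) by positivity]

/-- formula for the occupation measure after antisymmetrisation -/
lemma anti {f : ℕ → ℤ → ℝ} (hf : FreeLaw f) {g : ℕ → ℤ → ℤ → ℝ} (hg : Killed f g)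
    {l L : ℕ → ℤ → ℝ} (hl : CapLaw l) (hL : Rec g l L) (m : ℕ) {y : ℤ} (hy : 0 < y) :
    L m y = ∑ k ∈ Finset.range (m + 1), ∑ z ∈ Finset.Icc (-(m : ℤ)) m,
      (l k z - kap f g L k z) * (uu f (m - k) (y - z) - uu f (m - k) (y + z)) := by
  have h1 := conv (rec_free hL) (fun k z h => (aa_supp hf hg hl hL k z h).1) m y
  have h2 := conv (rec_free hL) (fun k z h => (aa_supp hf hg hl hL k z h).1) m (-y)
  have h3 : L m (-y) = 0 := by
    by_contra h
    have := hL.supp hf hg hl h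
    omega
  rw [h3] at h2
  have e : ∑ k ∈ Finset.range (m + 1), ∑ z ∈ Finset.Icc (-(m : ℤ)) m,
      (l k z - kap f g L k z) * (uu f (m - k) (y - z) - uu f (m - k) (y + z)) =
      (∑ k ∈ Finset.range (m + 1), ∑ z ∈ Finset.Icc (-(m : ℤ)) m,
      (l k z - kap f g L k z) * uu f (m - k) (y - z)) -
      ∑ k ∈ Finset.range (m + 1), ∑ z ∈ Finset.Icc (-(m : ℤ)) m,
      (l k z - kap f g L k z) * uu f (m - k) (-y - z) := by
    rw [← Finset.sum_sub_distrib]
    refine Finset.sum_congr rfl fun k _ => ?_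
    rw [← Finset.sum_sub_distrib]
    refine Finset.sum_congr rfl fun z _ => ?_
    rw [show -y - z = -(y + z) by ring, uu_symm hf]
    ring
  rw [e, ← h1, ← h2, sub_zero]

lemma sum_z {δ : ℝ} (hδ : 0 < δ) :
    Summable fun z : ℤ => |(z : ℝ)| * Real.exp (-(δ * |(z : ℝ)|)) := by
  have h := poly_exp_summable 1 hδ
  have h1 : Summable fun n : ℕ => (n : ℝ) * Real.exp (-(δ * n)) := by
    refine Summable.of_nonneg_of_le (fun n => by positivity) (fun n => ?_) h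
    rw [pow_one]
    refine mul_le_mul_of_nonneg_right ?_ (Real.exp_pos _).le
    linarith
  rw [summable_int_iff_summable_nat_and_neg]
  constructor
  · refine h1.congr fun n => ?_
    simp
  · refine h1.congr fun n => ?_
    simp

lemma sum_k : Summable fun k : ℕ => 1 / ((k : ℝ) + 1) ^ (3 / 2 : ℝ) := by
  have h := Real.summable_one_div_nat_rpow.2 (show (1 : ℝ) < 3 / 2 by norm_num)
  have := (summable_nat_add_iff 1).2 h
  refine this.congr fun k => ?_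
  push_cast
  rfl

lemma sum_dom {K δ : ℝ} (hδ : 0 < δ) : Summable fun p : ℕ × ℤ =>
    K / ((p.1 : ℝ) + 1) ^ (3 / 2 : ℝ) * Real.exp (-(δ * |(p.2 : ℝ)|)) * |(p.2 : ℝ)| := by
  have h := (sum_k.mul_of_nonneg (sum_z hδ) (fun k => by positivity)
    (fun z => by positivity)).mul_left K
  refine h.congr fun p => ?_
  ring

/-- the remainder -/
noncomputable def RR (m : ℕ) : ℝ := (1 + Real.log ((m : ℝ) + 1)) / ((m : ℝ) + 1) ^ (1 / 2 : ℝ)

lemma RR_lim : Tendsto RR atTop (𝓝 0) := by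
  have h1 : Tendsto (fun x : ℝ => (1 + Real.log x) / x ^ (1 / 2 : ℝ)) atTop (𝓝 0) := by
    have h2 : Tendsto (fun x : ℝ => Real.log x / x ^ (1 / 2 : ℝ)) atTop (𝓝 0) :=
      (isLittleO_log_rpow_atTop (by norm_num)).tendsto_div_nhds_zero
    have h3 : Tendsto (fun x : ℝ => 1 / x ^ (1 / 2 : ℝ)) atTop (𝓝 0) :=
      tendsto_const_nhds.div_atTop (tendsto_rpow_atTop (by norm_num))
    have h4 := h3.add h2
    rw [add_zero] at h4
    refine h4.congr fun x => ?_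
    rw [add_div]
  have h5 : Tendsto (fun m : ℕ => (m : ℝ) + 1) atTop atTop :=
    tendsto_atTop_add_const_right _ _ tendsto_natCast_atTop_atTop
  exact h1.comp h5

lemma harm (m : ℕ) : ∑ k ∈ Finset.range (m + 1), 1 / (((m - k : ℕ) : ℝ) + 1) ≤
    1 + Real.log ((m : ℝ) + 1) := by
  have h1 := harmonic_le_one_add_log (m + 1)
  have h2 : ∑ k ∈ Finset.range (m + 1), 1 / (((m - k : ℕ) : ℝ) + 1) =
      ∑ k ∈ Finset.range (m + 1), 1 / ((k : ℝ) + 1) := by
    rw [← Finset.sum_range_reflect]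
    refine Finset.sum_congr rfl fun k hk => ?_
    have := Finset.mem_range.1 hk
    rw [show m - (m + 1 - 1 - k) = k by omega]
  rw [h2]
  refine le_trans (le_of_eq ?_) (h1.trans (le_of_eq ?_))
  · rw [harmonic]
    push_cast
    refine Finset.sum_congr rfl fun k _ => ?_
    rw [one_div]
  · push_cast
    rfl

/-- rescaled difference, for the first half of the times -/
noncomputable def GG (f : ℕ → ℤ → ℝ) (m : ℕ) (y : ℤ) (p : ℕ × ℤ) : ℝ :=
  if 2 * p.1 ≤ m then (m : ℝ) * (uu f (m - p.1) (y - p.2) - uu f (m - p.1) (y + p.2)) else 0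

lemma GG_bound {f : ℕ → ℤ → ℝ} {K : ℝ} (hK : 0 < K)
    (hd : ∀ (m : ℕ) (y z : ℤ), |uu f m (y - z) - uu f m (y + z)| ≤ K * |(z : ℝ)| / (m + 1))
    (m : ℕ) (y : ℤ) (p : ℕ × ℤ) : |GG f m y p| ≤ 2 * K * |(p.2 : ℝ)| := by
  unfold GG
  split_ifs with h
  · rw [abs_mul, abs_of_nonneg (Nat.cast_nonneg m)]
    have h1 := hd (m - p.1) y p.2
    have h2 := mul_le_mul_of_nonneg_left h1 (Nat.cast_nonneg (α := ℝ) m)
    refine h2.trans ?_
    have h3 : (0 : ℝ) < ((m - p.1 : ℕ) : ℝ) + 1 := by positivity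
    rw [← mul_div_assoc, div_le_iff₀ h3]
    have h4 : (m : ℝ) ≤ 2 * (((m - p.1 : ℕ) : ℝ) + 1) := by
      have : m ≤ 2 * ((m - p.1) + 1) := by omega
      exact_mod_cast this
    have h5 : 0 ≤ K * |(p.2 : ℝ)| := by positivity
    calc (m : ℝ) * (K * |(p.2 : ℝ)|) ≤ 2 * (((m - p.1 : ℕ) : ℝ) + 1) * (K * |(p.2 : ℝ)|) :=
          mul_le_mul_of_nonneg_right h4 h5
      _ = _ := by ring
  · rw [abs_zero]
    positivity

lemma split {f : ℕ → ℤ → ℝ} (hf : FreeLaw f) {g : ℕ → ℤ → ℤ → ℝ} (hg : Killed f g)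
    {l L : ℕ → ℤ → ℝ} (hl : CapLaw l) (hL : Rec g l L) {K K' δ : ℝ} (hK : 0 < K) (hK' : 0 < K')
    (hδ : 0 < δ)
    (hd : ∀ (m : ℕ) (y z : ℤ), |uu f m (y - z) - uu f m (y + z)| ≤ K * |(z : ℝ)| / (m + 1))
    (ha : ∀ (k : ℕ) (z : ℤ), |l k z - kap f g L k z| ≤
      K' / ((k : ℝ) + 1) ^ (3 / 2 : ℝ) * Real.exp (-(δ * |(z : ℝ)|)))
    (m : ℕ) {y : ℤ} (hy : 0 < y) :
    |(m : ℝ) * L m y - ∑' p : ℕ × ℤ, (l p.1 p.2 - kap f g L p.1 p.2) * GG f m y p| ≤
      4 * K * K' * (∑' z : ℤ, |(z : ℝ)| * Real.exp (-(δ * |(z : ℝ)|))) * RR m := by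
  have hS := sum_z hδ
  set S := ∑' z : ℤ, |(z : ℝ)| * Real.exp (-(δ * |(z : ℝ)|)) with hSdef
  have hS0 : 0 ≤ S := tsum_nonneg fun z => by positivity
  have e1 : ∑' p : ℕ × ℤ, (l p.1 p.2 - kap f g L p.1 p.2) * GG f m y p =
      ∑ k ∈ Finset.range (m + 1), ∑ z ∈ Finset.Icc (-(m : ℤ)) m,
        (l k z - kap f g L k z) * GG f m y (k, z) := by
    rw [tsum_eq_sum (s := Finset.range (m + 1) ×ˢ Finset.Icc (-(m : ℤ)) m), Finset.sum_product]
    intro p hp
    by_cases h1 : p.1 ≤ m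
    · have h2 : l p.1 p.2 - kap f g L p.1 p.2 = 0 := by
        by_contra h
        have h3 := (aa_supp hf hg hl hL p.1 p.2 h).1
        apply hp
        rw [Finset.mem_product, Finset.mem_range, Finset.mem_Icc]
        have := abs_le.1 h3
        refine ⟨by omega, by omega, by omega⟩
      rw [h2, zero_mul]
    · unfold GG
      rw [if_neg (by omega), mul_zero]
  rw [e1, anti hf hg hl hL m hy, Finset.mul_sum, ← Finset.sum_sub_distrib]
  refine (Finset.abs_sum_le_sum_abs _ _).trans ?_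
  have step : ∀ k ∈ Finset.range (m + 1),
      |(m : ℝ) * ∑ z ∈ Finset.Icc (-(m : ℤ)) m,
        (l k z - kap f g L k z) * (uu f (m - k) (y - z) - uu f (m - k) (y + z)) -
      ∑ z ∈ Finset.Icc (-(m : ℤ)) m, (l k z - kap f g L k z) * GG f m y (k, z)| ≤
      4 * K * K' * S / ((m : ℝ) + 1) ^ (1 / 2 : ℝ) * (1 / (((m - k : ℕ) : ℝ) + 1)) := by
    intro k hk
    rw [Finset.mul_sum, ← Finset.sum_sub_distrib]
    refine (Finset.abs_sum_le_sum_abs _ _).trans ?_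
    have hm0 : (0 : ℝ) < (m : ℝ) + 1 := by positivity
    have hmk : (0 : ℝ) < ((m - k : ℕ) : ℝ) + 1 := by positivity
    have hk0 : (0 : ℝ) < (k : ℝ) + 1 := by positivity
    have hmp : (0 : ℝ) < ((m : ℝ) + 1) ^ (1 / 2 : ℝ) := Real.rpow_pos_of_pos hm0 _
    have h1 : ∀ z ∈ Finset.Icc (-(m : ℤ)) m,
        |(m : ℝ) * ((l k z - kap f g L k z) * (uu f (m - k) (y - z) - uu f (m - k) (y + z))) -
          (l k z - kap f g L k z) * GG f m y (k, z)| ≤
        4 * K * K' / ((m : ℝ) + 1) ^ (1 / 2 : ℝ) * (1 / (((m - k : ℕ) : ℝ) + 1)) *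
          (|(z : ℝ)| * Real.exp (-(δ * |(z : ℝ)|))) := by
      intro z _
      unfold GG
      simp only
      split_ifs with h
      · rw [show (m : ℝ) * ((l k z - kap f g L k z) *
          (uu f (m - k) (y - z) - uu f (m - k) (y + z))) - (l k z - kap f g L k z) *
          ((m : ℝ) * (uu f (m - k) (y - z) - uu f (m - k) (y + z))) = 0 by ring, abs_zero]
        positivity
      · rw [mul_zero, sub_zero, abs_mul, abs_mul, abs_of_nonneg (Nat.cast_nonneg m)]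
        have h2 := hd (m - k) y z
        have h3 := ha k z
        have h4 : (m : ℝ) / ((k : ℝ) + 1) ^ (3 / 2 : ℝ) ≤ 4 / ((m : ℝ) + 1) ^ (1 / 2 : ℝ) := by
          have h5 : (m : ℝ) + 1 ≤ 2 * ((k : ℝ) + 1) := by
            have : m + 1 ≤ 2 * (k + 1) := by omega
            exact_mod_cast this
          rw [div_le_div_iff₀ (Real.rpow_pos_of_pos hk0 _) hmp]
          calc (m : ℝ) * ((m : ℝ) + 1) ^ (1 / 2 : ℝ)
              ≤ ((m : ℝ) + 1) * ((m : ℝ) + 1) ^ (1 / 2 : ℝ) :=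
                mul_le_mul_of_nonneg_right (by linarith) hmp.le
            _ = ((m : ℝ) + 1) ^ (3 / 2 : ℝ) := by
                rw [show (3 / 2 : ℝ) = 1 + 1 / 2 by norm_num, Real.rpow_add hm0, Real.rpow_one]
            _ ≤ (2 * ((k : ℝ) + 1)) ^ (3 / 2 : ℝ) :=
                Real.rpow_le_rpow hm0.le h5 (by norm_num)
            _ = 2 ^ (3 / 2 : ℝ) * ((k : ℝ) + 1) ^ (3 / 2 : ℝ) :=
                Real.mul_rpow (by norm_num) hk0.le
            _ ≤ 4 * ((k : ℝ) + 1) ^ (3 / 2 : ℝ) := by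
                refine mul_le_mul_of_nonneg_right ?_ (Real.rpow_nonneg hk0.le _)
                have : (2 : ℝ) ^ (3 / 2 : ℝ) ≤ 2 ^ (2 : ℝ) :=
                  Real.rpow_le_rpow_of_exponent_le (by norm_num) (by norm_num)
                rw [Real.rpow_two] at this
                linarith
        calc (m : ℝ) * (|l k z - kap f g L k z| *
              |uu f (m - k) (y - z) - uu f (m - k) (y + z)|)
            ≤ (m : ℝ) * ((K' / ((k : ℝ) + 1) ^ (3 / 2 : ℝ) * Real.exp (-(δ * |(z : ℝ)|))) *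
              (K * |(z : ℝ)| / (((m - k : ℕ) : ℝ) + 1))) := by
              refine mul_le_mul_of_nonneg_left ?_ (Nat.cast_nonneg m)
              exact mul_le_mul h3 h2 (abs_nonneg _) (by positivity)
          _ = ((m : ℝ) / ((k : ℝ) + 1) ^ (3 / 2 : ℝ)) * (K * K' *
              (1 / (((m - k : ℕ) : ℝ) + 1)) * (|(z : ℝ)| * Real.exp (-(δ * |(z : ℝ)|)))) := by
              ring
          _ ≤ (4 / ((m : ℝ) + 1) ^ (1 / 2 : ℝ)) * (K * K' *
              (1 / (((m - k : ℕ) : ℝ) + 1)) * (|(z : ℝ)| * Real.exp (-(δ * |(z : ℝ)|)))) :=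
              mul_le_mul_of_nonneg_right h4 (by positivity)
          _ = _ := by ring
    refine (Finset.sum_le_sum h1).trans ?_
    rw [← Finset.mul_sum]
    have h2 : ∑ z ∈ Finset.Icc (-(m : ℤ)) m, |(z : ℝ)| * Real.exp (-(δ * |(z : ℝ)|)) ≤ S :=
      hS.sum_le_tsum _ fun z _ => by positivity
    calc 4 * K * K' / ((m : ℝ) + 1) ^ (1 / 2 : ℝ) * (1 / (((m - k : ℕ) : ℝ) + 1)) * _
        ≤ 4 * K * K' / ((m : ℝ) + 1) ^ (1 / 2 : ℝ) * (1 / (((m - k : ℕ) : ℝ) + 1)) * S :=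
          mul_le_mul_of_nonneg_left h2 (by positivity)
      _ = _ := by ring
  refine (Finset.sum_le_sum step).trans ?_
  rw [← Finset.mul_sum]
  have hmp : (0 : ℝ) < ((m : ℝ) + 1) ^ (1 / 2 : ℝ) := Real.rpow_pos_of_pos (by positivity) _
  refine (mul_le_mul_of_nonneg_left (harm m) (by positivity)).trans (le_of_eq ?_)
  unfold RR
  ring

lemma term_lim {f : ℕ → ℤ → ℝ} {C : ℝ}
    (hC : ∀ (t : ℝ), 0 < t → ∀ (z : ℤ) (m : ℕ → ℕ) (y : ℕ → ℤ), Tendsto m atTop atTop →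
      (∀ᶠ k in atTop, Even ((m k : ℤ) + y k + z)) →
      Tendsto (fun k => (y k : ℝ) / Real.sqrt (m k)) atTop (𝓝 t) →
      Tendsto (fun k => (m k : ℝ) * (uu f (m k) (y k - z) - uu f (m k) (y k + z))) atTop
        (𝓝 (C * z * (t * Real.exp (-(t ^ 2 / (2 * var f)))))))
    {t : ℝ} (ht : 0 < t) {m : ℕ → ℕ} {y : ℕ → ℤ} (hm : Tendsto m atTop atTop)
    (hp : ∀ᶠ k in atTop, Even ((m k : ℤ) + y k))
    (hy : Tendsto (fun k => (y k : ℝ) / Real.sqrt (m k)) atTop (𝓝 t))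
    (i : ℕ) (z : ℤ) (hiz : Even ((i : ℤ) + z)) :
    Tendsto (fun k => GG f (m k) (y k) (i, z)) atTop
      (𝓝 (C * z * (t * Real.exp (-(t ^ 2 / (2 * var f)))))) := by
  have hm' : Tendsto (fun k => m k - i) atTop atTop := (tendsto_sub_atTop_nat i).comp hm
  have hm1 : Tendsto (fun k => ((m k - i : ℕ) : ℝ)) atTop atTop :=
    tendsto_natCast_atTop_atTop.comp hm'
  have hr : Tendsto (fun k => (m k : ℝ) / ((m k - i : ℕ) : ℝ)) atTop (𝓝 1) := by
    have h1 : Tendsto (fun k => 1 + (i : ℝ) / ((m k - i : ℕ) : ℝ)) atTop (𝓝 (1 + 0)) :=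
      tendsto_const_nhds.add (tendsto_const_nhds.div_atTop hm1)
    rw [add_zero] at h1
    refine h1.congr' ?_
    filter_upwards [hm.eventually (eventually_ge_atTop (i + 1))] with k hk
    have h2 : (0 : ℝ) < ((m k - i : ℕ) : ℝ) := by
      have : 0 < m k - i := by omega
      exact_mod_cast this
    have h3 : (m k : ℝ) = ((m k - i : ℕ) : ℝ) + i := by
      have : m k = (m k - i) + i := by omega
      exact_mod_cast this
    have h4 : (m k : ℝ) / ((m k - i : ℕ) : ℝ) =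
        (((m k - i : ℕ) : ℝ) + i) / ((m k - i : ℕ) : ℝ) := by rw [← h3]
    rw [h4, add_div, div_self h2.ne']
  have hy' : Tendsto (fun k => (y k : ℝ) / Real.sqrt ((m k - i : ℕ) : ℝ)) atTop (𝓝 t) := by
    have h1 := hy.mul (hr.sqrt)
    rw [Real.sqrt_one, mul_one] at h1
    refine h1.congr' ?_
    filter_upwards [hm.eventually (eventually_ge_atTop (i + 1))] with k hk
    have h2 : (0 : ℝ) < (m k : ℝ) := by
      have : 0 < m k := by omega
      exact_mod_cast this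
    rw [Real.sqrt_div h2.le]
    have h3 : Real.sqrt (m k) ≠ 0 := (Real.sqrt_pos.2 h2).ne'
    field_simp
  have h1 := hC t ht z (fun k => m k - i) y hm' (by
    filter_upwards [hp, hm.eventually (eventually_ge_atTop i)] with k hk hk2
    have h2 := hk.add hiz
    rw [Nat.cast_sub hk2]
    have h3 : (m k : ℤ) - i + y k + z = (m k + y k + (i + z)) - 2 * i := by ring
    rw [h3]
    exact h2.sub (even_two_mul _)) hy'
  have h2 := hr.mul h1
  rw [one_mul] at h2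
  refine h2.congr' ?_
  filter_upwards [hm.eventually (eventually_ge_atTop (2 * i + 1))] with k hk
  unfold GG
  simp only
  rw [if_pos (by omega), ← mul_assoc]
  have h3 : (0 : ℝ) < ((m k - i : ℕ) : ℝ) := by
    have : 0 < m k - i := by omega
    exact_mod_cast this
  rw [div_mul_cancel₀ _ h3.ne']

end K5

theorem L_lim {f : ℕ → ℤ → ℝ} (hf : FreeLaw f) : ∃ C, 0 < C ∧ ∀ (g : ℕ → ℤ → ℤ → ℝ)
    (l L : ℕ → ℤ → ℝ), Killed f g → CapLaw l → Rec g l L → ∀ (t : ℝ), 0 < t →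
    ∀ (m : ℕ → ℕ) (y : ℕ → ℤ), Tendsto m atTop atTop →
    (∀ᶠ k in atTop, Even ((m k : ℤ) + y k)) →
    Tendsto (fun k => (y k : ℝ) / Real.sqrt (m k)) atTop (𝓝 t) →
    Tendsto (fun k => (m k : ℝ) * L (m k) (y k)) atTop
      (𝓝 (C * VV f g l L * (t * Real.exp (-(t ^ 2 / (2 * var f)))))) := by
  obtain ⟨C, hC0, hC⟩ := uu_diff_lim hf
  obtain ⟨K, hK, hd⟩ := uu_diff hf
  refine ⟨C, hC0, fun g l L hg hl hL t ht m y hm hp hy => ?_⟩
  obtain ⟨K', δ, hK', hδ, ha⟩ := K5.aa_bound hf hg hl hL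
  -- the sign of y
  have hypos : ∀ᶠ k in atTop, 0 < y k := by
    filter_upwards [hy.eventually (lt_mem_nhds ht)] with k hk
    by_contra h
    push Not at h
    have h1 : (y k : ℝ) ≤ 0 := by exact_mod_cast h
    have h2 : (y k : ℝ) / Real.sqrt (m k) ≤ 0 := div_nonpos_of_nonpos_of_nonneg h1 (Real.sqrt_nonneg _)
    linarith
  -- main part
  have hmain : Tendsto (fun k => ∑' p : ℕ × ℤ, (l p.1 p.2 - kap f g L p.1 p.2) *
      K5.GG f (m k) (y k) p) atTop (𝓝 (∑' p : ℕ × ℤ, (l p.1 p.2 - kap f g L p.1 p.2) *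
        (C * p.2 * (t * Real.exp (-(t ^ 2 / (2 * var f))))))) := by
    refine tendsto_tsum_of_dominated_convergence (K5.sum_dom (K := K' * (2 * K)) hδ) ?_ ?_
    · intro p
      by_cases h0 : l p.1 p.2 - kap f g L p.1 p.2 = 0
      · simp only [h0, zero_mul]
        exact tendsto_const_nhds
      · have h1 := (K5.aa_supp hf hg hl hL p.1 p.2 h0).2
        exact (K5.term_lim hC ht hm hp hy p.1 p.2 h1).const_mul _
    · refine Filter.Eventually.of_forall fun k p => ?_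
      rw [Real.norm_eq_abs, abs_mul]
      have h1 := ha p.1 p.2
      have h2 := K5.GG_bound hK hd (m k) (y k) p
      refine (mul_le_mul h1 h2 (abs_nonneg _) (by positivity)).trans (le_of_eq ?_)
      ring
  have hlim : (∑' p : ℕ × ℤ, (l p.1 p.2 - kap f g L p.1 p.2) *
      (C * p.2 * (t * Real.exp (-(t ^ 2 / (2 * var f)))))) =
      C * VV f g l L * (t * Real.exp (-(t ^ 2 / (2 * var f)))) := by
    rw [VV, ← tsum_mul_left, ← tsum_mul_right]
    refine tsum_congr fun p => ?_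
    ring
  rw [hlim] at hmain
  -- remainder
  have hrem : Tendsto (fun k => (m k : ℝ) * L (m k) (y k) -
      ∑' p : ℕ × ℤ, (l p.1 p.2 - kap f g L p.1 p.2) * K5.GG f (m k) (y k) p) atTop (𝓝 0) := by
    have h1 : Tendsto (fun k => 4 * K * K' *
        (∑' z : ℤ, |(z : ℝ)| * Real.exp (-(δ * |(z : ℝ)|))) * K5.RR (m k)) atTop (𝓝 0) := by
      have h2 := (K5.RR_lim.comp hm).const_mul (4 * K * K' *
        (∑' z : ℤ, |(z : ℝ)| * Real.exp (-(δ * |(z : ℝ)|))))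
      rw [mul_zero] at h2
      exact h2
    refine squeeze_zero_norm' ?_ h1
    filter_upwards [hypos] with k hk
    rw [Real.norm_eq_abs]
    exact K5.split hf hg hl hL hK hK' hδ hd ha (m k) hk
  have := hrem.add hmain
  rw [zero_add] at this
  refine this.congr fun k => ?_
  ring

end Pool.Agent.SAPX
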