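import Pool.Agent.SAPX.Prof
import Pool.Agent.SAPX.PBlocks
import Pool.Agent.SAPX.Law
import Pool.Agent.SAPX.Canon
import Pool.Agent.SAPX.Kernels
import Pool.Agent.SAPX.Config
import Pool.Agent.SAPX.AreaX
import Pool.Agent.SAPX.InKX
import Pool.Agent.SAPK.MainK

/-!
Final assembly: the mean area is asymptotic to a constant times `n ^ (3 / 2)`.
-/

namespace Pool.Agent.SAPX

open Filter Topology Pool.Agent.SAPF Pool.Agent.SAPK

theorem markedA (A : Set Word) (u c : ℝ) {ω : PW → ℝ} {q : ℕ} (h0 : ∀ p, 0 ≤ ω p)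
    (h1 : ∀ p, IsPIrr p → ω p ≤ (ln p : ℝ) ^ q) :
    Marked (mkf A u c one) q (mkf A u c ω) (mkg A u c ω) :=
  ⟨mkg_nonneg h0, mkg_le h0, fun m x y h => mkg_far m x y (Or.inl h), mkf_bd h1⟩

/-- weighted mean area over a set of polygons -/
noncomputable def wmean (c : ℝ) {m : ℕ} (S : Set (ZMod m → ℤ × ℤ)) : ℝ :=
  (∑ᶠ v ∈ S, (area v : ℝ) * Real.exp (2 * c * width v)) / ∑ᶠ v ∈ S, Real.exp (2 * c * width v)

/-- the sequence of total lengths -/
lemma tendsto_N : Tendsto (fun n : ℕ => 2 * (n + 1)) atTop atTop := by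
  refine tendsto_atTop_mono (fun n => ?_) tendsto_id
  simp only [id]
  omega

section sums
variable {A : Set Word} (hA : IsClass A) {u c : ℝ} (hf : FreeLaw (mkf A u c one))
include hA hf

lemma profiles : ∃ C C' : ℝ, 0 < C ∧ 0 < C' ∧ Profile (var (mkf A u c one)) (LA A u c) C ∧
    Profile (var (mkf A u c one)) (RA A u c) C' := by
  have hg := killedA hA u c
  obtain ⟨C, hC, hL⟩ := profile hf hg (capLaw_lam hA hf) (rec_occ _ _)
  obtain ⟨C', hC', hR⟩ := profile hf (hg.rev hf) (capLaw_rho hA hf) (rec_occ _ _)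
  exact ⟨C, C', hC, hC', hL, hR⟩

/-- marked interior blocks -/
lemma interior_lim : ∃ k : ℕ → ℝ, (∀ a, 0 < k a) ∧ ∀ (a q : ℕ) (ω : PW → ℝ), (∀ p, 0 ≤ ω p) →
    (∀ p, IsPIrr p → ω p ≤ (ln p : ℝ) ^ q) → (∀ q, IsPIrr q → ω (q.2, q.1) = ω q) →
    Tendsto (fun n : ℕ => ((2 * (n + 1) : ℕ) : ℝ) ^ ((1 - (a : ℝ)) / 2) *
      ∑ p ∈ can A n, wt u c p * inr a ω p) atTop
      (𝓝 (2 * (k a * ∑' p : ℕ × ℤ, mkf A u c ω p.1 p.2))) := by
  obtain ⟨C, C', hC, hC', hL, hR⟩ := profiles hA hf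
  obtain ⟨k, hk, hlim⟩ := marked_lim hf (var_pos hf) hC hC' hL hR
  refine ⟨k, hk, fun a q ω h0 h1 hω => ?_⟩
  have h2 := ((hlim a q _ _ (markedA A u c h0 h1)).comp (tendsto_add_atTop_nat 1)).const_mul 2
  refine h2.congr' ?_
  filter_upwards [eventually_ge_atTop 2] with n hn
  simp only [Function.comp]
  rw [interior_sum hA u c a h0 hω hn, show 2 * n + 2 = 2 * (n + 1) by ring]
  ring

/-- marked end blocks -/
lemma ends_lim {q : ℕ} {ω : PW → ℝ} (h0 : ∀ p, 0 ≤ ω p)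
    (h1 : ∀ p, IsPIrr p → ω p ≤ (ln p : ℝ) ^ q) (hω : ∀ q, IsPIrr q → ω (q.2, q.1) = ω q) :
    Tendsto (fun n : ℕ => ((2 * (n + 1) : ℕ) : ℝ) ^ (1 / 2 : ℝ) *
      ∑ p ∈ can A n, wt u c p * (tot ω p - inr 0 ω p)) atTop (𝓝 0) := by
  obtain ⟨C, C', hC, hC', hL, hR⟩ := profiles hA hf
  obtain ⟨hl0, δ, hδ, hls⟩ := tail_lam hf h0 h1
  obtain ⟨hr0, δ', hδ', hrs⟩ := tail_rho hf h0 h1
  have e1 := (end_lim hR hl0 hδ hls).comp tendsto_N
  have e2 := (end_lim hL hr0 hδ' hrs).comp tendsto_N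
  have e3 := (tail_blk hf h0 h1).comp tendsto_N
  have e4 := ((e1.add e2).const_mul 2).add e3
  simp only [add_zero, mul_zero] at e4
  refine tendsto_of_tendsto_of_tendsto_of_le_of_le' tendsto_const_nhds e4 ?_ ?_
  · refine Eventually.of_forall fun n => ?_
    refine mul_nonneg (by positivity) (Finset.sum_nonneg fun p _ => ?_)
    exact mul_nonneg (wt_pos u c p).le (sub_nonneg.2 (inr_le_tot h0 p))
  · filter_upwards [eventually_ge_atTop 2] with n hn
    have h2 := mul_le_mul_of_nonneg_left (ends_sum hA u c h0 hω hn)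
      (show (0 : ℝ) ≤ ((2 * n + 2 : ℕ) : ℝ) ^ (1 / 2 : ℝ) by positivity)
    simp only [Function.comp]
    rw [show 2 * (n + 1) = 2 * n + 2 by ring]
    refine h2.trans (le_of_eq ?_)
    ring

/-- all blocks -/
lemma tot_lim : ∃ k : ℝ, 0 < k ∧ ∀ (q : ℕ) (ω : PW → ℝ), (∀ p, 0 ≤ ω p) →
    (∀ p, IsPIrr p → ω p ≤ (ln p : ℝ) ^ q) → (∀ q, IsPIrr q → ω (q.2, q.1) = ω q) →
    Tendsto (fun n : ℕ => ((2 * (n + 1) : ℕ) : ℝ) ^ (1 / 2 : ℝ) *
      ∑ p ∈ can A n, wt u c p * tot ω p) atTop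
      (𝓝 (k * ∑' p : ℕ × ℤ, mkf A u c ω p.1 p.2)) := by
  obtain ⟨k, hk, h⟩ := interior_lim hA hf
  refine ⟨2 * k 0, mul_pos two_pos (hk 0), fun q ω h0 h1 hω => ?_⟩
  have h2 := (h 0 q ω h0 h1 hω).add (ends_lim hA hf h0 h1 hω)
  rw [add_zero] at h2
  have h3 : 2 * (k 0 * ∑' p : ℕ × ℤ, mkf A u c ω p.1 p.2) =
      2 * k 0 * ∑' p : ℕ × ℤ, mkf A u c ω p.1 p.2 := by ring
  rw [h3] at h2
  refine h2.congr fun n => ?_
  rw [show ((1 : ℝ) - ((0 : ℕ) : ℝ)) / 2 = 1 / 2 by norm_num, ← mul_add,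
    ← Finset.sum_add_distrib]
  congr 1
  refine Finset.sum_congr rfl fun p _ => ?_
  ring

end sums

/-! ### the ratio -/

lemma tot_ln {A : Set Word} {n : ℕ} {p : PW} (hp : p ∈ can A n) :
    tot (fun q => (ln q : ℝ)) p = ((2 * (n + 1) : ℕ) : ℝ) := by
  obtain ⟨h1, h2, -, -⟩ := mem_can.1 hp
  have h3 := (blocks_spec h2.pb).2
  have h4 := ln_pfl (blocks p)
  rw [h3, h1] at h4
  unfold tot
  have h5 : ((blocks p).map (fun q => (ln q : ℝ))).sum = (((blocks p).map ln).sum : ℕ) := by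
    induction blocks p with
    | nil => simp
    | cons q l ih => simp [ih]
  rw [h5, ← h4]
  push_cast
  ring

lemma sp_le {q : PW} (hq : IsPIrr q) : |((X q.1 : ℤ) : ℝ)| ≤ (ln q : ℝ) ^ 1 := by
  rw [pow_one]
  have h1 := abs_X_le q.1
  have h2 : (q.1.length : ℤ) ≤ ln q := by unfold ln; push_cast; omega
  have h3 : |X q.1| ≤ ln q := by omega
  have h4 : ((|X q.1| : ℤ) : ℝ) ≤ ln q := by exact_mod_cast h3
  rwa [Int.cast_abs] at h4

theorem ratio {A : Set Word} (hA : IsClass A) {u c : ℝ} (hP : ParamsA A u c) :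
    ∃ C > 0, Tendsto (fun n : ℕ => (∑ p ∈ can A n, wt u c p * area (poly n p)) /
      (∑ p ∈ can A n, wt u c p) / (n : ℝ) ^ (3 / 2 : ℝ)) atTop (𝓝 C) := by
  have hf := freeLaw hA hP
  obtain ⟨k, hk, hint⟩ := interior_lim hA hf
  obtain ⟨k', hk', htot⟩ := tot_lim hA hf
  -- the partition function
  have z1 := htot 1 (fun q => (ln q : ℝ)) (fun p => by positivity) (fun p _ => by simp)
    (fun q _ => by simp only [ln]; push_cast; ring)
  set S₀ : ℝ := ∑' p : ℕ × ℤ, mkf A u c (fun q => (ln q : ℝ)) p.1 p.2 with hS₀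
  have hS₀pos : 0 < S₀ := sum_mkf_pos hA hf (q := 1) (fun p => by positivity)
    (fun p _ => by simp) (by simp [ln])
  -- the main term of the area
  have z2 := hint 1 1 (fun q => |((X q.1 : ℤ) : ℝ)|) (fun p => abs_nonneg _)
    (fun p hp => sp_le hp) (fun q hq => by simp only; rw [hq.pb.span])
  set S₁ : ℝ := ∑' p : ℕ × ℤ, mkf A u c (fun q => |((X q.1 : ℤ) : ℝ)|) p.1 p.2 with hS₁
  have hS₁pos : 0 < S₁ := sum_mkf_pos hA hf (q := 1) (fun p => abs_nonneg _)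
    (fun p hp => sp_le hp) (by simp [Dir.dx])
  -- the error term
  have z3 := htot 2 (fun q => (ln q : ℝ) ^ 2) (fun p => by positivity) (fun p _ => le_rfl)
    (fun q _ => by simp only [ln]; push_cast; ring)
  have hinv : Tendsto (fun n : ℕ => (((2 * (n + 1) : ℕ) : ℝ) ^ (1 / 2 : ℝ))⁻¹) atTop (𝓝 0) := by
    refine Tendsto.inv_tendsto_atTop ?_
    refine (tendsto_rpow_atTop (by norm_num : (0 : ℝ) < 1 / 2)).comp ?_
    exact tendsto_natCast_atTop_atTop.comp tendsto_N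
  have z4 := hinv.mul z3
  rw [zero_mul] at z4
  have z4' : Tendsto (fun n : ℕ => ∑ p ∈ can A n, wt u c p * tot (fun q => (ln q : ℝ) ^ 2) p)
      atTop (𝓝 0) := by
    refine z4.congr fun n => ?_
    rw [← mul_assoc, inv_mul_cancel₀ (by positivity), one_mul]
  have z2' : Tendsto (fun n : ℕ => ∑ p ∈ can A n, wt u c p *
      inr 1 (fun q => |((X q.1 : ℤ) : ℝ)|) p) atTop (𝓝 (2 * (k 1 * S₁))) := by
    refine z2.congr fun n => ?_
    rw [show ((1 : ℝ) - ((1 : ℕ) : ℝ)) / 2 = 0 by norm_num, Real.rpow_zero, one_mul]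
  have z5 : Tendsto (fun n : ℕ => ∑ p ∈ can A n, wt u c p * area (poly n p)) atTop
      (𝓝 (2 * (k 1 * S₁))) := by
    have hd : Tendsto (fun n : ℕ => ∑ p ∈ can A n, wt u c p * area (poly n p) -
        ∑ p ∈ can A n, wt u c p * inr 1 (fun q => |((X q.1 : ℤ) : ℝ)|) p) atTop (𝓝 0) := by
      have z6 := z4'.const_mul 2
      rw [mul_zero] at z6
      refine squeeze_zero_norm' ?_ z6
      filter_upwards [eventually_ge_atTop 2] with n hn
      rw [← Finset.sum_sub_distrib, Finset.mul_sum, Real.norm_eq_abs]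
      refine (Finset.abs_sum_le_sum_abs _ _).trans (Finset.sum_le_sum fun p hp => ?_)
      rw [← mul_sub, abs_mul, abs_of_pos (wt_pos u c p)]
      calc wt u c p * |(area (poly n p) : ℝ) - inr 1 (fun q => |((X q.1 : ℤ) : ℝ)|) p|
          ≤ wt u c p * (2 * tot (fun q => (ln q : ℝ) ^ 2) p) :=
            mul_le_mul_of_nonneg_left (area_blocks hn hp) (wt_pos u c p).le
        _ = _ := by ring
    have := z2'.add hd
    rw [add_zero] at this
    refine this.congr fun n => ?_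
    ring
  -- the partition function again
  have z1' : Tendsto (fun n : ℕ => ((2 * (n + 1) : ℕ) : ℝ) ^ (3 / 2 : ℝ) *
      ∑ p ∈ can A n, wt u c p) atTop (𝓝 (k' * S₀)) := by
    refine z1.congr fun n => ?_
    have h1 : ∑ p ∈ can A n, wt u c p * tot (fun q => (ln q : ℝ)) p =
        ((2 * (n + 1) : ℕ) : ℝ) * ∑ p ∈ can A n, wt u c p := by
      rw [Finset.mul_sum]
      refine Finset.sum_congr rfl fun p hp => ?_
      rw [tot_ln hp, mul_comm]
    rw [h1, ← mul_assoc]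
    congr 1
    have hpos : (0 : ℝ) < ((2 * (n + 1) : ℕ) : ℝ) := by positivity
    nth_rewrite 2 [← Real.rpow_one ((2 * (n + 1) : ℕ) : ℝ)]
    rw [← Real.rpow_add hpos]
    norm_num
  have hratio : Tendsto (fun n : ℕ => (((2 * (n + 1) : ℕ) : ℝ) / n) ^ (3 / 2 : ℝ)) atTop
      (𝓝 ((2 : ℝ) ^ (3 / 2 : ℝ))) := by
    have h1 : Tendsto (fun n : ℕ => ((2 * (n + 1) : ℕ) : ℝ) / n) atTop (𝓝 2) := by
      have h2 : Tendsto (fun n : ℕ => (2 : ℝ) + 2 / n) atTop (𝓝 (2 + 0)) :=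
        tendsto_const_nhds.add (tendsto_const_div_atTop_nhds_zero_nat 2)
      rw [add_zero] at h2
      refine h2.congr' ?_
      filter_upwards [eventually_ge_atTop 1] with n hn
      have : (n : ℝ) ≠ 0 := by
        have : n ≠ 0 := by omega
        exact_mod_cast this
      push_cast
      field_simp
    exact h1.rpow_const (Or.inl (by norm_num))
  refine ⟨2 * (k 1 * S₁) / (k' * S₀) * (2 : ℝ) ^ (3 / 2 : ℝ), by have := hk 1; positivity, ?_⟩
  have z7 := (z5.div z1' (by positivity)).mul hratio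
  refine z7.congr' ?_
  filter_upwards [eventually_ge_atTop 1] with n hn
  have hn' : (0 : ℝ) < n := by
    have : 0 < n := hn
    exact_mod_cast this
  have hpos : (0 : ℝ) < ((2 * (n + 1) : ℕ) : ℝ) := by positivity
  simp only [Pi.div_apply]
  rw [Real.div_rpow hpos.le hn'.le]
  have hx : ((2 * (n + 1) : ℕ) : ℝ) ^ (3 / 2 : ℝ) ≠ 0 := (Real.rpow_pos_of_pos hpos _).ne'
  have hy : (n : ℝ) ^ (3 / 2 : ℝ) ≠ 0 := (Real.rpow_pos_of_pos hn' _).ne'
  by_cases hz : ∑ p ∈ can A n, wt u c p = 0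
  · rw [hz]; simp
  · field_simp

/-! ### back to polygons -/

lemma wt_eq {A : Set Word} {n : ℕ} (hn : 2 ≤ n) {u c : ℝ} {p : PW} (hp : p ∈ can A n) :
    Real.exp (2 * c * width (poly n p)) =
      Real.exp (u * (2 * n + 2) - 2 * c) * wt u c p := by
  obtain ⟨h1, h2, -, -⟩ := mem_can.1 hp
  obtain ⟨ha, hE, -, -⟩ := isArcs_can hn hp
  have hX : X p.1 = 1 + width (poly n p) := by
    rw [← hE, X_cons, ha.Xa]; rfl
  have hX' : ((X p.1 : ℤ) : ℝ) = 1 + width (poly n p) := by rw [hX]; push_cast; rfl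
  have hl : (ln p : ℝ) = 2 * n + 2 := by rw [h1]; push_cast; ring
  unfold wt
  rw [← Real.exp_add]
  congr 1
  rw [← h2.pb.span, hX', hl]
  ring

/-- **Main theorem for classes.** -/
theorem main_exact {A : Set Word} (hA : IsClass A) {u c : ℝ} (hP : ParamsA A u c) :
    ∃ C > 0, Tendsto (fun n : ℕ => wmean c (SAc A n) / (n : ℝ) ^ (3 / 2 : ℝ)) atTop (𝓝 C) := by
  obtain ⟨C, hC, h⟩ := ratio hA hP
  refine ⟨C, hC, h.congr' ?_⟩
  filter_upwards [eventually_ge_atTop 2] with n hn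
  have hne : NeZero (2 * n) := ⟨by omega⟩
  congr 1
  unfold wmean
  rw [sum_SAc hn A (fun v => (area v : ℝ) * Real.exp (2 * c * width v))
      (fun i v => by rw [area_rot, width_rot]),
    sum_SAc hn A (fun v => Real.exp (2 * c * width v)) (fun i v => by rw [width_rot])]
  have h1 : ∑ p ∈ can A n, (area (poly n p) : ℝ) * Real.exp (2 * c * width (poly n p)) =
      Real.exp (u * (2 * n + 2) - 2 * c) * ∑ p ∈ can A n, wt u c p * area (poly n p) := by
    rw [Finset.mul_sum]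
    refine Finset.sum_congr rfl fun p hp => ?_
    rw [wt_eq hn (u := u) hp]
    ring
  have h2 : ∑ p ∈ can A n, Real.exp (2 * c * width (poly n p)) =
      Real.exp (u * (2 * n + 2) - 2 * c) * ∑ p ∈ can A n, wt u c p := by
    rw [Finset.mul_sum]
    refine Finset.sum_congr rfl fun p hp => ?_
    rw [wt_eq hn (u := u) hp]
  rw [h1, h2]
  have he := (Real.exp_pos (u * (2 * n + 2) - 2 * c)).ne'
  have h2n : ((2 * n : ℕ) : ℝ) ≠ 0 := by
    have : 2 * n ≠ 0 := by omega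
    exact_mod_cast this
  rw [mul_div_mul_left _ _ h2n, mul_div_mul_left _ _ he]

end Pool.Agent.SAPX
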