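import Pool.Agent.SAPX.MainX

/-!
The two models: polygons pulled by a force, and polygons of bounded backtracking.
-/

namespace Pool.Agent.SAPX

open scoped ENNReal
open Filter Topology Pool.Agent.SAPF Pool.Agent.SAPK

lemma isClass_univ : IsClass (Set.univ : Set Word) :=
  ⟨fun _ _ => by simp, fun _ => trivial, fun _ => trivial⟩

lemma exA_univ (u c θ : ℝ) : exA Set.univ u c θ = ex u c θ := Set.indicator_univ _

lemma paramsA_univ {u c : ℝ} (h : Params u c) : ParamsA Set.univ u c := by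
  refine ⟨h.u_pos, h.c_pos.le, ?_, ?_, ?_, ?_⟩
  · rw [exA_univ]; exact h.one
  · obtain ⟨δ, hδ, h1⟩ := h.tail
    exact ⟨δ, hδ, by rw [exA_univ]; exact h1⟩
  · obtain ⟨κ, hκ, h1⟩ := h.low
    exact ⟨κ, hκ, fun n => by rw [exA_univ]; exact h1 n⟩
  · intro n
    rw [exA_univ]; exact h.up n

/-- the parameters of the pulled polygons -/
lemma exists_params {f : ℝ} (hf : 0 < f) : ∃ u : ℝ, Params u (f / 2) := by
  obtain ⟨u, u', hu', hu, hchi, h1, h2⟩ := exists_uc (f / 2) (by positivity)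
  have hchiu : chi u ≠ ∞ := by
    refine ne_top_of_le_ne_top hchi ?_
    refine mass_mono_fun fun w _ => ?_
    unfold ex
    apply ENNReal.ofReal_le_ofReal
    apply Real.exp_le_exp.2
    have : (0 : ℝ) ≤ w.length := by positivity
    nlinarith
  exact ⟨u, params_of (by positivity) hu' hu hchi h1 h2 (mass_gap (by positivity) hchiu h1)⟩

/-- **Polygons pulled by a force.** -/
theorem stretched {f : ℝ} (hf : 0 < f) : ∃ C > 0,
    Tendsto (fun n : ℕ => meanArea f n / (n : ℝ) ^ (3 / 2 : ℝ)) atTop (𝓝 C) := by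
  obtain ⟨u, hP⟩ := exists_params hf
  obtain ⟨C, hC, h⟩ := main_exact isClass_univ (paramsA_univ hP)
  refine ⟨C, hC, h.congr' ?_⟩
  filter_upwards [eventually_ge_atTop 2] with n hn
  congr 1
  unfold wmean meanArea
  rw [SAc_univ hn, show 2 * (f / 2) = f by ring]

/-- **Polygons of bounded backtracking.** -/
theorem bounded (k : ℕ) : ∃ C > 0, Tendsto (fun n : ℕ =>
    meanA {v : ZMod (2 * n) → ℤ × ℤ | IsSAP (2 * n) v ∧ InK k v} / (n : ℝ) ^ (3 / 2 : ℝ)) atTop
      (𝓝 C) := by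
  obtain ⟨u, u', hu', hu, hR, hfin, h1, h2⟩ := exists_uk k
  have hP := params_ofA (isClass_Ak k) le_rfl hu' hu hfin h1 h2 (mass_gapK le_rfl hR h1)
  obtain ⟨C, hC, h⟩ := main_exact (isClass_Ak k) hP
  refine ⟨C, hC, h.congr' ?_⟩
  filter_upwards [eventually_ge_atTop 2] with n hn
  congr 1
  rw [SAc_Ak hn]
  unfold wmean meanA
  simp only [mul_zero, zero_mul, Real.exp_zero, mul_one]
  congr 1
  have hfin : {v : ZMod (2 * n) → ℤ × ℤ | IsSAP (2 * n) v ∧ InK k v}.Finite :=
    (finite_SAP hn).subset fun _ hv => hv.1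
  rw [finsum_mem_eq_finite_toFinset_sum _ hfin, Set.ncard_eq_toFinset_card _ hfin]
  simp

end Pool.Agent.SAPX
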