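import Pool.Agent.SAPX.BoundL
import Pool.Agent.SAPX.LimitL

/-!
Positivity of the harmonic function `VV`.
-/

namespace Pool.Agent.SAPX

open Filter Topology

section posit
variable {f : ℕ → ℤ → ℝ} {g : ℕ → ℤ → ℤ → ℝ} {l L : ℕ → ℤ → ℝ}

/-- weight of the long blocks -/
lemma long_blocks (hf : FreeLaw f) : ∃ C δ, 0 < C ∧ 0 < δ ∧
    ∀ (x : ℤ) (A : Finset ℕ) (B : Finset ℤ),
      ∑ m ∈ A, ∑ z ∈ B, (if x ≤ (m : ℤ) then (m : ℝ) * f m (z - x) else 0) ≤
        C * Real.exp (-(δ * x)) := by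
  obtain ⟨δ, hδ, hs⟩ := hf.tail
  have hnn : ∀ p : ℕ × ℤ, 0 ≤ f p.1 p.2 * Real.exp (δ * p.1) := fun p =>
    mul_nonneg (hf.nonneg _ _) (Real.exp_pos _).le
  refine ⟨2 / δ * (∑' p : ℕ × ℤ, f p.1 p.2 * Real.exp (δ * p.1) + 1), δ / 2, ?_, by positivity, ?_⟩
  · have : 0 ≤ ∑' p : ℕ × ℤ, f p.1 p.2 * Real.exp (δ * p.1) := tsum_nonneg hnn
    positivity
  intro x A B
  have h1 : ∀ (m : ℕ) (z : ℤ), (if x ≤ (m : ℤ) then (m : ℝ) * f m (z - x) else 0) ≤
      2 / δ * Real.exp (-(δ / 2 * x)) * (f m (z - x) * Real.exp (δ * m)) := by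
    intro m z
    split_ifs with h
    · have h2 : (m : ℝ) ≤ 2 / δ * Real.exp (δ / 2 * m) := by
        have := Real.add_one_le_exp (δ / 2 * m)
        have h3 : δ / 2 * m ≤ Real.exp (δ / 2 * m) := by linarith
        calc (m : ℝ) = 2 / δ * (δ / 2 * m) := by field_simp
          _ ≤ _ := by gcongr
      have h3 : Real.exp (δ / 2 * m) ≤ Real.exp (-(δ / 2 * x)) * Real.exp (δ * m) := by
        rw [← Real.exp_add]
        apply Real.exp_le_exp.2
        have : (x : ℝ) ≤ m := by exact_mod_cast h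
        nlinarith
      have h4 := hf.nonneg m (z - x)
      calc (m : ℝ) * f m (z - x) ≤ (2 / δ * Real.exp (δ / 2 * m)) * f m (z - x) := by gcongr
        _ ≤ (2 / δ * (Real.exp (-(δ / 2 * x)) * Real.exp (δ * m))) * f m (z - x) := by gcongr
        _ = _ := by ring
    · have := hf.nonneg m (z - x)
      positivity
  calc ∑ m ∈ A, ∑ z ∈ B, (if x ≤ (m : ℤ) then (m : ℝ) * f m (z - x) else 0)
      ≤ ∑ m ∈ A, ∑ z ∈ B, 2 / δ * Real.exp (-(δ / 2 * x)) * (f m (z - x) * Real.exp (δ * m)) :=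
        Finset.sum_le_sum fun m _ => Finset.sum_le_sum fun z _ => h1 m z
    _ = 2 / δ * Real.exp (-(δ / 2 * x)) *
          ∑ m ∈ A, ∑ z ∈ B, f m (z - x) * Real.exp (δ * m) := by
        rw [Finset.mul_sum]
        exact Finset.sum_congr rfl fun m _ => by rw [Finset.mul_sum]
    _ ≤ 2 / δ * Real.exp (-(δ / 2 * x)) *
          (∑' p : ℕ × ℤ, f p.1 p.2 * Real.exp (δ * p.1) + 1) := by
        gcongr
        have h5 : ∑ m ∈ A, ∑ z ∈ B, f m (z - x) * Real.exp (δ * m) =
            ∑ p ∈ A ×ˢ (B.map ⟨fun z => z - x, fun a b h => by simpa using h⟩),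
              f p.1 p.2 * Real.exp (δ * p.1) := by
          rw [Finset.sum_product]
          refine Finset.sum_congr rfl fun m _ => ?_
          rw [Finset.sum_map]
          rfl
        rw [h5]
        have := hs.sum_le_tsum (A ×ˢ (B.map ⟨fun z => z - x, fun a b h => by simpa using h⟩))
          (fun p _ => hnn p)
        linarith
    _ = _ := by ring

/-- sums over sets outside of which the terms vanish -/
lemma sum_le_sum_supp {α : Type*} [DecidableEq α] {s t : Finset α} {F : α → ℝ}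
    (h0 : ∀ x ∈ t, 0 ≤ F x) (h : ∀ x ∈ s, F x ≠ 0 → x ∈ t) : ∑ x ∈ s, F x ≤ ∑ x ∈ t, F x := by
  classical
  rw [← Finset.sum_filter_ne_zero]
  refine Finset.sum_le_sum_of_subset_of_nonneg (fun x hx => ?_) fun x hx _ => h0 x hx
  rw [Finset.mem_filter] at hx
  exact h x hx.1 hx.2

lemma kap_rect (hf : FreeLaw f) (hg : Killed f g) (hl : CapLaw l) (hL : Rec g l L) (M : ℕ)
    (B : Finset ℤ) :
    ∑ k ∈ Finset.range M, ∑ z ∈ B, kap f g L k z * z ≤
      ∑ x ∈ Finset.Icc 1 (M : ℤ), ∑ j ∈ Finset.range M, L j x *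
        ∑ m ∈ Finset.range (M + 1), ∑ z ∈ B,
          (if x ≤ (m : ℤ) then (m : ℝ) * f m (z - x) else 0) := by
  have hL0 : ∀ m y, 0 ≤ L m y := hL.nonneg hg.nonneg hl.nonneg
  set G : ℤ → ℕ → ℤ → ℝ := fun x m z =>
    (if x ≤ (m : ℤ) then (m : ℝ) * f m (z - x) else 0) with hG
  have hG0 : ∀ x m z, 0 ≤ G x m z := by
    intro x m z
    simp only [hG]
    split_ifs
    · exact mul_nonneg (Nat.cast_nonneg _) (hf.nonneg _ _)
    · exact le_rfl
  -- one term
  have h1 : ∀ (k j : ℕ) (x z : ℤ), L j x * (f (k - j) (z - x) - g (k - j) x z) * z ≤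
      L j x * G x (k - j) z := by
    intro k j x z
    rw [mul_assoc]
    refine mul_le_mul_of_nonneg_left ?_ (hL0 _ _)
    by_cases hz : z ≤ 0
    · refine le_trans (mul_nonpos_of_nonneg_of_nonpos ?_ (by exact_mod_cast hz)) (hG0 _ _ _)
      exact sub_nonneg.2 (hg.le _ _ _)
    · push Not at hz
      by_cases h2 : ((k - j : ℕ) : ℤ) < x ∨ ((k - j : ℕ) : ℤ) < z
      · rw [hg.far _ _ _ h2, sub_self, zero_mul]
        exact hG0 _ _ _
      · push Not at h2
        simp only [hG]
        rw [if_pos h2.1, mul_comm]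
        have h3 : (z : ℝ) ≤ ((k - j : ℕ) : ℝ) := by exact_mod_cast h2.2
        have h4 := hg.nonneg (k - j) x z
        have h5 := hf.nonneg (k - j) (z - x)
        have h6 : (0 : ℝ) < z := by exact_mod_cast hz
        have h7 := hg.le (k - j) x z
        exact mul_le_mul h3 (by linarith) (by linarith) (Nat.cast_nonneg _)
  have h2 : ∀ k ∈ Finset.range M, ∀ z ∈ B, kap f g L k z * z ≤
      ∑ j ∈ Finset.range k, ∑ x ∈ Finset.Icc 1 (M : ℤ), L j x * G x (k - j) z := by
    intro k hk z _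
    unfold kap
    rw [Finset.sum_mul]
    refine Finset.sum_le_sum fun j hj => ?_
    rw [Finset.sum_mul]
    refine le_trans (Finset.sum_le_sum fun x _ => h1 k j x z) ?_
    refine sum_le_sum_supp (fun x _ => mul_nonneg (hL0 _ _) (hG0 _ _ _)) fun x _ hx => ?_
    have h3 := hL.supp hf hg hl (left_ne_zero_of_mul hx)
    have h4 := Finset.mem_range.1 hj
    have h5 := Finset.mem_range.1 hk
    rw [Finset.mem_Icc]
    omega
  calc ∑ k ∈ Finset.range M, ∑ z ∈ B, kap f g L k z * z
      ≤ ∑ k ∈ Finset.range M, ∑ z ∈ B,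
        ∑ j ∈ Finset.range k, ∑ x ∈ Finset.Icc 1 (M : ℤ), L j x * G x (k - j) z :=
        Finset.sum_le_sum fun k hk => Finset.sum_le_sum fun z hz => h2 k hk z hz
    _ = ∑ k ∈ Finset.range M, ∑ j ∈ Finset.range k,
          ∑ x ∈ Finset.Icc 1 (M : ℤ), L j x * ∑ z ∈ B, G x (k - j) z := by
        refine Finset.sum_congr rfl fun k _ => ?_
        rw [Finset.sum_comm]
        refine Finset.sum_congr rfl fun j _ => ?_
        rw [Finset.sum_comm]
        refine Finset.sum_congr rfl fun x _ => ?_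
        rw [Finset.mul_sum]
    _ = ∑ j ∈ Finset.range M, ∑ k ∈ Finset.Ico (j + 1) M,
          ∑ x ∈ Finset.Icc 1 (M : ℤ), L j x * ∑ z ∈ B, G x (k - j) z := by
        refine Finset.sum_comm' fun k j => ?_
        simp only [Finset.mem_range, Finset.mem_Ico]
        omega
    _ ≤ ∑ j ∈ Finset.range M, ∑ x ∈ Finset.Icc 1 (M : ℤ), L j x *
        ∑ m ∈ Finset.range (M + 1), ∑ z ∈ B, G x m z := by
        refine Finset.sum_le_sum fun j hj => ?_
        rw [Finset.sum_comm]
        refine Finset.sum_le_sum fun x _ => ?_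
        rw [← Finset.mul_sum]
        refine mul_le_mul_of_nonneg_left ?_ (hL0 _ _)
        have h3 : ∑ k ∈ Finset.Ico (j + 1) M, ∑ z ∈ B, G x (k - j) z =
            ∑ m ∈ (Finset.Ico (j + 1) M).image (fun k => k - j), ∑ z ∈ B, G x m z := by
          rw [Finset.sum_image]
          intro a ha b hb hab
          simp only [Finset.coe_Ico, Set.mem_Ico] at ha hb
          simp only at hab
          omega
        rw [h3]
        refine Finset.sum_le_sum_of_subset_of_nonneg (fun m hm => ?_)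
          fun m _ _ => Finset.sum_nonneg fun z _ => hG0 _ _ _
        simp only [Finset.mem_image, Finset.mem_Ico, Finset.mem_range] at hm ⊢
        omega
    _ = _ := by rw [Finset.sum_comm]

lemma kap_sum_le (hf : FreeLaw f) (hg : Killed f g) : ∃ K, 0 < K ∧ ∀ x : ℕ, 0 < x →
    ∀ s : Finset (ℕ × ℤ), ∑ p ∈ s, kap f g (occ g (dl x x)) p.1 p.2 * p.2 ≤
      K * Real.sqrt x := by
  obtain ⟨K, hK, hgb⟩ := green_bound hf hg
  obtain ⟨C, δ, hC, hδ, hlb⟩ := long_blocks hf
  have hsum : Summable fun n : ℕ => (n : ℝ) ^ 2 * Real.exp (-δ * n) :=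
    Real.summable_pow_mul_exp_neg_nat_mul 2 hδ
  refine ⟨K * C * (∑' n : ℕ, (n : ℝ) ^ 2 * Real.exp (-δ * n) + 1), ?_, ?_⟩
  · have : 0 ≤ ∑' n : ℕ, (n : ℝ) ^ 2 * Real.exp (-δ * n) := tsum_nonneg fun n => by positivity
    positivity
  intro x hx s
  have hl := capLaw_dl hx
  have hL := rec_occ g (dl x x)
  have hL0 : ∀ m y, 0 ≤ occ g (dl x x) m y := hL.nonneg hg.nonneg hl.nonneg
  have hk0 := kap_nonneg hf hg hl hL
  -- a rectangle containing the positive part of s
  obtain ⟨M, hM⟩ : ∃ M : ℕ, ∀ p ∈ s, p.1 < M := by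
    refine ⟨s.sup (fun p => p.1) + 1, fun p hp => ?_⟩
    have : p.1 ≤ s.sup (fun p => p.1) := Finset.le_sup (f := fun p : ℕ × ℤ => p.1) hp
    omega
  set B : Finset ℤ := (s.image Prod.snd).filter (fun z => 0 ≤ z) with hB
  have h1 : ∑ p ∈ s, kap f g (occ g (dl x x)) p.1 p.2 * p.2 ≤
      ∑ k ∈ Finset.range M, ∑ z ∈ B, kap f g (occ g (dl x x)) k z * z := by
    rw [← Finset.sum_product']
    have h2 : ∑ p ∈ s, kap f g (occ g (dl x x)) p.1 p.2 * p.2 ≤
        ∑ p ∈ s, (if 0 ≤ p.2 then kap f g (occ g (dl x x)) p.1 p.2 * p.2 else 0) := by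
      refine Finset.sum_le_sum fun p _ => ?_
      split_ifs with h
      · exact le_rfl
      · push Not at h
        exact mul_nonpos_of_nonneg_of_nonpos (hk0 _ _) (by exact_mod_cast h.le)
    refine h2.trans ?_
    rw [← Finset.sum_filter]
    refine Finset.sum_le_sum_of_subset_of_nonneg (fun p hp => ?_) fun p hp _ => ?_
    · rw [Finset.mem_filter] at hp
      rw [Finset.mem_product, Finset.mem_range, hB, Finset.mem_filter, Finset.mem_image]
      exact ⟨hM p hp.1, ⟨p, hp.1, rfl⟩, hp.2⟩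
    · rw [Finset.mem_product, hB, Finset.mem_filter] at hp
      exact mul_nonneg (hk0 _ _) (by exact_mod_cast hp.2.2)
  refine h1.trans ((kap_rect hf hg hl hL M B).trans ?_)
  calc ∑ x' ∈ Finset.Icc 1 (M : ℤ), ∑ j ∈ Finset.range M, occ g (dl x x) j x' *
        ∑ m ∈ Finset.range (M + 1), ∑ z ∈ B,
          (if x' ≤ (m : ℤ) then (m : ℝ) * f m (z - x') else 0)
      ≤ ∑ x' ∈ Finset.Icc 1 (M : ℤ), (K * Real.sqrt x * (x' : ℝ) ^ 2) *
          (C * Real.exp (-(δ * x'))) := by
        refine Finset.sum_le_sum fun x' hx' => ?_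
        rw [← Finset.sum_mul]
        rw [Finset.mem_Icc] at hx'
        refine mul_le_mul (hgb x hx x' (by omega) M) (hlb x' _ B) ?_ ?_
        · refine Finset.sum_nonneg fun m _ => Finset.sum_nonneg fun z _ => ?_
          split_ifs
          · exact mul_nonneg (Nat.cast_nonneg _) (hf.nonneg _ _)
          · exact le_rfl
        · positivity
    _ = K * C * Real.sqrt x * ∑ x' ∈ Finset.Icc 1 (M : ℤ), (x' : ℝ) ^ 2 * Real.exp (-δ * x') := by
        rw [Finset.mul_sum]
        refine Finset.sum_congr rfl fun x' _ => ?_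
        rw [show -(δ * (x' : ℝ)) = -δ * x' by ring]
        ring
    _ ≤ K * C * Real.sqrt x * (∑' n : ℕ, (n : ℝ) ^ 2 * Real.exp (-δ * n) + 1) := by
        gcongr
        have h3 : ∑ x' ∈ Finset.Icc 1 (M : ℤ), (x' : ℝ) ^ 2 * Real.exp (-δ * x') =
            ∑ n ∈ (Finset.Icc 1 (M : ℤ)).image Int.toNat, (n : ℝ) ^ 2 * Real.exp (-δ * n) := by
          rw [Finset.sum_image]
          · refine Finset.sum_congr rfl fun x' hx' => ?_
            rw [Finset.mem_Icc] at hx'
            have : ((x'.toNat : ℤ) : ℝ) = (x' : ℝ) := by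
              rw [Int.toNat_of_nonneg (by omega)]
            rw [Int.cast_natCast] at this
            rw [this]
          · intro a ha b hb hab
            simp only [Finset.coe_Icc, Set.mem_Icc] at ha hb
            omega
        rw [h3]
        have := hsum.sum_le_tsum ((Finset.Icc 1 (M : ℤ)).image Int.toNat)
          (fun n _ => by positivity)
        linarith
    _ = _ := by ring

lemma kap_summable (hf : FreeLaw f) (hg : Killed f g) (hl : CapLaw l) (hL : Rec g l L) :
    Summable fun p : ℕ × ℤ => kap f g L p.1 p.2 * p.2 := by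
  obtain ⟨K, δ, hK, hδ, hb⟩ := kap_bound hf hg hl hL
  have hk0 := kap_nonneg hf hg hl hL
  have h1 : Summable fun k : ℕ => K / ((k : ℝ) + 1) ^ (3 / 2 : ℝ) := by
    have h := (Real.summable_one_div_nat_rpow (p := 3 / 2)).2 (by norm_num)
    have h' := ((summable_nat_add_iff 1).2 h).mul_left K
    refine h'.congr fun k => ?_
    push_cast
    ring
  have h2 : Summable fun z : ℤ => |(z : ℝ)| * Real.exp (-(δ * |(z : ℝ)|)) := by
    have h := Real.summable_pow_mul_exp_neg_nat_mul 1 hδ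
    have e1 : ∀ n : ℕ, |((n : ℤ) : ℝ)| = n := fun n => by
      rw [Int.cast_natCast]
      exact abs_of_nonneg (Nat.cast_nonneg n)
    refine Summable.of_nat_of_neg ?_ ?_
    · refine h.congr fun n => ?_
      rw [e1, pow_one]
      ring_nf
    · refine h.congr fun n => ?_
      rw [Int.cast_neg, abs_neg, e1, pow_one]
      ring_nf
  have h3 := Summable.mul_of_nonneg h1 h2 (fun k => by positivity) (fun z => by positivity)
  refine Summable.of_norm_bounded h3 fun p => ?_
  rw [Real.norm_eq_abs, abs_mul, abs_of_nonneg (hk0 _ _)]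
  calc kap f g L p.1 p.2 * |(p.2 : ℝ)|
      ≤ (K / ((p.1 : ℝ) + 1) ^ (3 / 2 : ℝ) * Real.exp (-(δ * |(p.2 : ℝ)|))) * |(p.2 : ℝ)| := by
        gcongr
        exact hb _ _
    _ = _ := by ring

/-- walks that start high enough -/
lemma VV_dl (hf : FreeLaw f) (hg : Killed f g) : ∃ X : ℕ, 0 < X ∧ ∀ x : ℕ, X ≤ x →
    0 < VV f g (dl x x) (occ g (dl x x)) := by
  obtain ⟨K, hK, hb⟩ := kap_sum_le hf hg
  obtain ⟨X, hX⟩ := exists_nat_gt (K ^ 2)
  refine ⟨X + 1, Nat.succ_pos _, fun x hx => ?_⟩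
  have hx0 : 0 < x := by omega
  have hl := capLaw_dl hx0
  have hL := rec_occ g (dl x x)
  have hs := kap_summable hf hg hl hL
  have h1 : HasSum (fun p : ℕ × ℤ => dl x x p.1 p.2 * (p.2 : ℝ)) x := by
    have h := hasSum_single (f := fun p : ℕ × ℤ => dl x x p.1 p.2 * (p.2 : ℝ)) (x, (x : ℤ)) ?_
    · convert h using 1
      unfold dl
      simp
    · intro p hp
      unfold dl
      rw [if_neg (fun h => hp (Prod.ext h.1 h.2)), zero_mul]
  have h2 : VV f g (dl x x) (occ g (dl x x)) =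
      x - ∑' p : ℕ × ℤ, kap f g (occ g (dl x x)) p.1 p.2 * p.2 := by
    unfold VV
    rw [← h1.tsum_eq, ← h1.summable.tsum_sub hs]
    refine tsum_congr fun p => ?_
    ring
  rw [h2]
  have h3 := hs.tsum_le_of_sum_le (hb x hx0)
  have h4 : K < Real.sqrt x := by
    apply Real.lt_sqrt_of_sq_lt
    refine hX.trans_le ?_
    exact_mod_cast (by omega : X ≤ x)
  have h5 : Real.sqrt x * Real.sqrt x = x := Real.mul_self_sqrt (Nat.cast_nonneg x)
  have h6 : 0 < Real.sqrt x := hK.trans h4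
  nlinarith

/-- a walk that starts at a visited point -/
lemma occ_compare (hg : Killed f g) (hl : CapLaw l) (hL : Rec g l L) {x c : ℕ}
    (m : ℕ) (y : ℤ) : L (x + c) x * occ g (dl x x) m y ≤ L (m + c) y := by
  have hL0 : ∀ m y, 0 ≤ L m y := hL.nonneg hg.nonneg hl.nonneg
  have hO := rec_occ g (dl x x)
  have hO0 : ∀ m y, 0 ≤ occ g (dl x x) m y := hO.nonneg hg.nonneg fun m y => by
    unfold dl; split_ifs <;> norm_num
  induction m using Nat.strong_induction_on generalizing y with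
  | _ m ih =>
    by_cases hd : m = x ∧ y = x
    · -- start
      obtain ⟨rfl, rfl⟩ := hd
      have h1 : occ g (dl m m) m m = 1 := by
        rw [hO m m]
        have h2 : ∀ k ∈ Finset.range m, ∑ z ∈ Finset.Icc ((m : ℤ) - ((m : ℤ) - k))
            ((m : ℤ) + ((m : ℤ) - k)), occ g (dl m m) k z * g (m - k) z m = 0 := by
          intro k hk
          refine Finset.sum_eq_zero fun z _ => ?_
          have h3 : ∀ j, j < m → ∀ z, occ g (dl m m) j z = 0 := by
            intro j
            induction j using Nat.strong_induction_on with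
            | _ j ihj =>
              intro hj z
              rw [hO j z]
              unfold dl
              rw [if_neg (by omega), zero_add]
              refine Finset.sum_eq_zero fun i hi => Finset.sum_eq_zero fun w _ => ?_
              have := ihj i (Finset.mem_range.1 hi) (by have := Finset.mem_range.1 hi; omega) w
              unfold dl at this
              rw [this, zero_mul]
          rw [h3 k (Finset.mem_range.1 hk), zero_mul]
        rw [Finset.sum_eq_zero h2]
        simp [dl]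
      rw [h1, mul_one]
    · rw [hO m y]
      unfold dl
      rw [if_neg hd, zero_add, Finset.mul_sum]
      rw [hL (m + c) y]
      have h1 : ∑ k ∈ Finset.range m, L (x + c) x *
          ∑ z ∈ Finset.Icc (y - ((m : ℤ) - k)) (y + ((m : ℤ) - k)),
            occ g (dl x x) k z * g (m - k) z y ≤
          ∑ k ∈ Finset.range m, ∑ z ∈ Finset.Icc (y - ((m : ℤ) - k)) (y + ((m : ℤ) - k)),
            L (k + c) z * g (m - k) z y := by
        refine Finset.sum_le_sum fun k hk => ?_
        rw [Finset.mul_sum]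
        refine Finset.sum_le_sum fun z _ => ?_
        rw [← mul_assoc]
        exact mul_le_mul_of_nonneg_right (ih k (Finset.mem_range.1 hk) z) (hg.nonneg _ _ _)
      refine (h1.trans ?_).trans (le_add_of_nonneg_left (hl.nonneg _ _))
      have h2 : ∑ k ∈ Finset.range m, ∑ z ∈ Finset.Icc (y - ((m : ℤ) - k)) (y + ((m : ℤ) - k)),
            L (k + c) z * g (m - k) z y =
          ∑ k' ∈ (Finset.range m).map (addRightEmbedding c),
            ∑ z ∈ Finset.Icc (y - (((m + c : ℕ) : ℤ) - k')) (y + (((m + c : ℕ) : ℤ) - k')),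
            L k' z * g (m + c - k') z y := by
        rw [Finset.sum_map]
        refine Finset.sum_congr rfl fun k hk => ?_
        simp only [addRightEmbedding_apply]
        push_cast
        rw [show (m : ℤ) + c - (k + c) = m - k by ring, show m + c - (k + c) = m - k by omega]
      rw [h2]
      refine Finset.sum_le_sum_of_subset_of_nonneg (fun k hk => ?_)
        fun k _ _ => Finset.sum_nonneg fun z _ => mul_nonneg (hL0 _ _) (hg.nonneg _ _ _)
      simp only [Finset.mem_map, Finset.mem_range, addRightEmbedding_apply] at hk ⊢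
      omega

end posit

theorem VV_pos {f : ℕ → ℤ → ℝ} (hf : FreeLaw f) {g : ℕ → ℤ → ℤ → ℝ} (hg : Killed f g)
    {l L : ℕ → ℤ → ℝ} (hl : CapLaw l) (hL : Rec g l L) : 0 < VV f g l L := by
  have hL0 : ∀ m y, 0 ≤ L m y := hL.nonneg hg.nonneg hl.nonneg
  obtain ⟨X, hX, hXV⟩ := VV_dl hf hg
  -- a visited point with a high gap
  obtain ⟨k, x, hx, hxk, hev, hpos⟩ : ∃ (k x : ℕ), X ≤ x ∧ x ≤ k ∧ Even (k + x) ∧ 0 < L k x := by
    obtain ⟨k, x, hne⟩ := hl.ne
    obtain ⟨hx0, hxk, hev⟩ := hl.supp k x hne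
    obtain ⟨x, rfl⟩ := Int.eq_ofNat_of_zero_le hx0.le
    have h1 : ∀ i : ℕ, 0 < L (k + 3 * i) ((x + i : ℕ) : ℤ) := by
      intro i
      induction i with
      | zero =>
        have h2 : 0 < l k x := lt_of_le_of_ne (hl.nonneg _ _) (Ne.symm hne)
        rw [show k + 3 * 0 = k by ring, show x + 0 = x by ring, hL k x]
        refine lt_of_lt_of_le h2 (le_add_of_nonneg_right ?_)
        exact Finset.sum_nonneg fun j _ => Finset.sum_nonneg fun z _ =>
          mul_nonneg (hL0 _ _) (hg.nonneg _ _ _)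
      | succ i ih =>
        rw [hL (k + 3 * (i + 1)) ((x + (i + 1) : ℕ) : ℤ)]
        refine lt_of_lt_of_le ?_ (le_add_of_nonneg_left (hl.nonneg _ _))
        have h3 : 0 < L (k + 3 * i) ((x + i : ℕ) : ℤ) *
            g (k + 3 * (i + 1) - (k + 3 * i)) ((x + i : ℕ) : ℤ) ((x + (i + 1) : ℕ) : ℤ) := by
          refine mul_pos ih ?_
          rw [show k + 3 * (i + 1) - (k + 3 * i) = 3 by omega]
          have := hg.up ((x + i : ℕ) : ℤ) (by omega)
          push_cast at this ⊢
          rwa [← add_assoc]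
        refine lt_of_lt_of_le h3 ?_
        refine le_trans ?_ (Finset.single_le_sum (f := fun j => ∑ z ∈ Finset.Icc
          (((x + (i + 1) : ℕ) : ℤ) - (((k + 3 * (i + 1) : ℕ) : ℤ) - (j : ℕ)))
          (((x + (i + 1) : ℕ) : ℤ) + (((k + 3 * (i + 1) : ℕ) : ℤ) - (j : ℕ))),
          L j z * g (k + 3 * (i + 1) - j) z ((x + (i + 1) : ℕ) : ℤ))
          (fun j _ => Finset.sum_nonneg fun z _ => mul_nonneg (hL0 _ _) (hg.nonneg _ _ _))
          (Finset.mem_range.2 (show k + 3 * i < k + 3 * (i + 1) by omega)))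
        refine Finset.single_le_sum (f := fun z => L (k + 3 * i) z *
          g (k + 3 * (i + 1) - (k + 3 * i)) z ((x + (i + 1) : ℕ) : ℤ))
          (fun z _ => mul_nonneg (hL0 _ _) (hg.nonneg _ _ _)) ?_
        rw [Finset.mem_Icc]
        push_cast
        constructor <;> linarith
    refine ⟨k + 3 * X, x + X, by omega, by omega, ?_, h1 X⟩
    have h4 : Even (k + x) := by exact_mod_cast hev
    rw [show k + 3 * X + (x + X) = k + x + 2 * (2 * X) by ring]
    exact h4.add (even_two_mul _)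
  obtain ⟨c, rfl⟩ := Nat.exists_eq_add_of_le hxk
  have hev' : Even c := by
    rw [show x + c + x = c + 2 * x by ring] at hev
    exact (Nat.even_add.1 hev).2 (even_two_mul x)
  have hx0 : 0 < x := by omega
  obtain ⟨C, hC, hlim⟩ := L_lim hf
  have hV := hXV x hx
  have hsq : ∀ n : ℕ, Even (((n ^ 2 : ℕ) : ℤ) + (n : ℤ)) := by
    intro n
    have := Nat.even_mul_succ_self n
    have h : ((n ^ 2 : ℕ) : ℤ) + (n : ℤ) = ((n * (n + 1) : ℕ) : ℤ) := by push_cast; ring
    rw [h]
    exact_mod_cast this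
  have ht1 : Tendsto (fun n : ℕ => n ^ 2) atTop atTop := tendsto_pow_atTop (by norm_num)
  have ht2 : Tendsto (fun n : ℕ => n ^ 2 + c) atTop atTop := tendsto_atTop_mono (fun n => Nat.le_add_right _ _) ht1
  have l1 := hlim g (dl x x) (occ g (dl x x)) hg (capLaw_dl hx0) (rec_occ _ _) 1 one_pos
    (fun n => n ^ 2) (fun n => (n : ℤ)) ht1 (Eventually.of_forall hsq) (by
      refine Tendsto.congr' ?_ tendsto_const_nhds
      filter_upwards [eventually_gt_atTop 0] with n hn
      have h : (0 : ℝ) < n := by exact_mod_cast hn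
      push_cast
      rw [Real.sqrt_sq h.le, div_self h.ne'])
  have l2 := hlim g l L hg hl hL 1 one_pos
    (fun n => n ^ 2 + c) (fun n => (n : ℤ)) ht2 (Eventually.of_forall fun n => by
      have h : ((n ^ 2 + c : ℕ) : ℤ) + (n : ℤ) = (((n ^ 2 : ℕ) : ℤ) + n) + c := by push_cast; ring
      rw [h]
      exact (hsq n).add (by exact_mod_cast hev')) (by
      have h1 : Tendsto (fun n : ℕ => (c : ℝ) / (n : ℝ) ^ 2) atTop (𝓝 0) := by
        refine Tendsto.const_div_atTop ?_ _
        have : Tendsto (fun n : ℕ => ((n ^ 2 : ℕ) : ℝ)) atTop atTop :=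
          tendsto_natCast_atTop_atTop.comp ht1
        exact this.congr fun n => by push_cast; ring
      have h2 : Tendsto (fun n : ℕ => 1 / Real.sqrt (1 + (c : ℝ) / (n : ℝ) ^ 2)) atTop (𝓝 1) := by
        have h3 := ((h1.const_add 1).sqrt)
        rw [add_zero, Real.sqrt_one] at h3
        have h4 := h3.inv₀ one_ne_zero
        rw [inv_one] at h4
        exact h4.congr fun n => by rw [one_div]
      refine h2.congr' ?_
      filter_upwards [eventually_gt_atTop 0] with n hn
      have h : (0 : ℝ) < n := by exact_mod_cast hn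
      have h5 : Real.sqrt (((n ^ 2 + c : ℕ) : ℕ) : ℝ) =
          n * Real.sqrt (1 + (c : ℝ) / (n : ℝ) ^ 2) := by
        have h6 : (((n ^ 2 + c : ℕ) : ℕ) : ℝ) = (n : ℝ) ^ 2 * (1 + (c : ℝ) / (n : ℝ) ^ 2) := by
          push_cast
          field_simp
        rw [h6, Real.sqrt_mul (by positivity), Real.sqrt_sq h.le]
      rw [h5, Int.cast_natCast, div_mul_eq_div_div, div_self h.ne'])
  have l3 := l1.const_mul (L (x + c) x)
  have hle := le_of_tendsto_of_tendsto' l3 l2 fun n => by
    have h1 := occ_compare hg hl hL (x := x) (c := c) (n ^ 2) (n : ℤ)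
    have h2 := hL0 (n ^ 2 + c) n
    calc L (x + c) x * (((n ^ 2 : ℕ) : ℝ) * occ g (dl x x) (n ^ 2) n)
        = ((n ^ 2 : ℕ) : ℝ) * (L (x + c) x * occ g (dl x x) (n ^ 2) n) := by ring
      _ ≤ ((n ^ 2 : ℕ) : ℝ) * L (n ^ 2 + c) n := by gcongr
      _ ≤ ((n ^ 2 + c : ℕ) : ℝ) * L (n ^ 2 + c) n := by
        gcongr
        omega
  have hE : 0 < 1 * Real.exp (-((1 : ℝ) ^ 2 / (2 * var f))) := by positivity
  have h7 : 0 < L (x + c) x * (C * VV f g (dl x x) (occ g (dl x x)) *
      (1 * Real.exp (-((1 : ℝ) ^ 2 / (2 * var f))))) := by positivity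
  have h8 := h7.trans_le hle
  exact (pos_iff_pos_of_mul_pos ((pos_iff_pos_of_mul_pos h8).2 hE)).1 hC

end Pool.Agent.SAPX
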