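import Pool.Agent.SAPX.Posit
import Pool.Agent.SAPX.MarkLim

/-!
The occupation measures of the two ends have the asymptotics used for marked configurations.
-/

namespace Pool.Agent.SAPX

theorem profile {f : ℕ → ℤ → ℝ} (hf : FreeLaw f) {g : ℕ → ℤ → ℤ → ℝ} (hg : Killed f g)
    {l L : ℕ → ℤ → ℝ} (hl : CapLaw l) (hL : Rec g l L) : ∃ C, 0 < C ∧ Profile (var f) L C := by
  obtain ⟨C, hC, h⟩ := L_lim hf
  refine ⟨C * VV f g l L, mul_pos hC (VV_pos hf hg hl hL), ?_, ?_, ?_, ?_⟩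
  · exact hL.nonneg hg.nonneg hl.nonneg
  · exact fun m y hy => hL.supp hf hg hl hy
  · exact L_bound hf hg hl hL
  · exact h g l L hg hl hL

end Pool.Agent.SAPX
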